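import Pool.Agent.Lib.MP_5c318e_ag.Res

/-! Residue API, part 2: the residue field, Gauss independence and the residue count RC. -/

namespace Pool.Agent.Lib.MP_5c318e_ag

open MvPolynomial IsLocalRing

variable {Om : Type*} [Field Om] {G : Type*} [LinearOrderedCommGroupWithZero G]
  {v : Valuation Om G} {ι κ : Type*}

open Classical in
/-- The residue map, extended by zero. -/
noncomputable def resF (v : Valuation Om G) (x : Om) : ResidueField v.valuationSubring :=
  if h : v x ≤ 1 then residue v.valuationSubring ⟨x, h⟩ else 0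

theorem resF_coe (x : v.valuationSubring) : resF v x = residue v.valuationSubring x := by
  unfold resF
  rw [dif_pos (show v (x : Om) ≤ 1 from x.2)]

theorem resF_mk {x : Om} (hx : v x ≤ 1) : resF v x = residue v.valuationSubring ⟨x, hx⟩ :=
  resF_coe ⟨x, hx⟩

theorem resF_eq_zero {x : Om} (hx : v x ≤ 1) : resF v x = 0 ↔ v x < 1 := by
  rw [resF_mk hx, residue_eq_zero_iff, Valuation.mem_maximalIdeal_iff]

theorem resF_surj (a : ResidueField v.valuationSubring) : ∃ x, v x ≤ 1 ∧ resF v x = a := by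
  obtain ⟨x, rfl⟩ := residue_surjective a
  exact ⟨x, x.2, resF_coe x⟩

theorem resF_eval₂ {A : Type*} [CommRing A] (φ : A →+* v.valuationSubring) {z : ι → Om}
    (hz : ∀ i, v (z i) ≤ 1) (p : MvPolynomial ι A) :
    v (eval₂ (v.valuationSubring.subtype.comp φ) z p) ≤ 1 ∧
      resF v (eval₂ (v.valuationSubring.subtype.comp φ) z p)
        = eval₂ ((residue v.valuationSubring).comp φ) (fun i => resF v (z i)) p := by
  let z' : ι → v.valuationSubring := fun i => ⟨z i, hz i⟩
  have h1 : eval₂ (v.valuationSubring.subtype.comp φ) z p = (eval₂ φ z' p : v.valuationSubring) :=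
    (eval₂_comp_left v.valuationSubring.subtype φ z' p).symm
  rw [h1]
  refine ⟨(eval₂ φ z' p).2, ?_⟩
  rw [resF_coe, eval₂_comp_left]
  congr 1
  funext i
  exact (resF_mk (hz i)).symm

/-- The residue field of a subfield. -/
noncomputable def resField (v : Valuation Om G) (F : Subfield Om) :
    Subfield (ResidueField v.valuationSubring) where
  carrier := {a | ∃ f ∈ F, ∃ h : v f ≤ 1, residue v.valuationSubring ⟨f, h⟩ = a}
  one_mem' := ⟨1, one_mem _, by simp, map_one _⟩
  zero_mem' := ⟨0, zero_mem _, by simp, map_zero _⟩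
  add_mem' := by
    rintro _ _ ⟨f, hf, h1, rfl⟩ ⟨g, hg, h2, rfl⟩
    exact ⟨f + g, add_mem hf hg, v.map_add_le h1 h2, by rw [← map_add]; rfl⟩
  neg_mem' := by
    rintro _ ⟨f, hf, h1, rfl⟩
    exact ⟨-f, neg_mem hf, by simpa using h1, by rw [← map_neg]; rfl⟩
  mul_mem' := by
    rintro _ _ ⟨f, hf, h1, rfl⟩ ⟨g, hg, h2, rfl⟩
    exact ⟨f * g, mul_mem hf hg, by rw [map_mul]; exact mul_le_one' h1 h2,
      map_mul (residue v.valuationSubring) ⟨f, h1⟩ ⟨g, h2⟩⟩
  inv_mem' := by
    rintro _ ⟨f, hf, h1, rfl⟩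
    rcases h1.lt_or_eq with hlt | heq
    · refine ⟨0, zero_mem _, by simp, ?_⟩
      rw [← resF_mk h1, (resF_eq_zero h1).2 hlt, inv_zero]
      exact map_zero _
    · have h0 : f ≠ 0 := by rintro rfl; simp at heq
      refine ⟨f⁻¹, inv_mem hf, by simp [heq], eq_inv_of_mul_eq_one_left ?_⟩
      rw [← map_mul, ← map_one (residue v.valuationSubring)]
      congr 1
      exact Subtype.ext (inv_mul_cancel₀ h0)

theorem mem_resField {F : Subfield Om} {a : ResidueField v.valuationSubring} :
    a ∈ resField v F ↔ ∃ f ∈ F, v f ≤ 1 ∧ resF v f = a :=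
  ⟨fun ⟨f, hf, h, e⟩ => ⟨f, hf, h, (resF_mk h).trans e⟩,
    fun ⟨f, hf, h, e⟩ => ⟨f, hf, h, (resF_mk h).symm.trans e⟩⟩

/-- Residues independent over the residue field of `F`: the family is Gauss over `F`. -/
theorem gauss_of_res (F : Subfield Om) {z : ι → Om} (hz : ∀ i, v (z i) ≤ 1)
    (h : AlgebraicIndependent (resField v F) fun i => resF v (z i)) (p : MvPolynomial ι F)
    (m : ι →₀ ℕ) : v ((coeff m p : F) : Om) ≤ v (aeval z p) := by
  classical
  rcases eq_or_ne p 0 with rfl | hp
  · simp
  obtain ⟨m0, hm0, hmax⟩ := Finset.exists_max_image p.support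
    (fun m => v ((coeff m p : F) : Om)) (support_nonempty.2 hp)
  have hall : ∀ m, v ((coeff m p : F) : Om) ≤ v ((coeff m0 p : F) : Om) := fun m => by
    by_cases hm : m ∈ p.support
    · exact hmax m hm
    · simp [notMem_support_iff.1 hm]
  set c : F := coeff m0 p with hc
  have hc0 : c ≠ 0 := mem_support_iff.1 hm0
  have hvc : v (c : Om) ≠ 0 := (v.ne_zero_iff).2 fun e => hc0 (Subtype.ext e)
  let OF : Subring F := (v.comap F.subtype).integer
  have hlift : MvPolynomial.C c⁻¹ * p ∈ Set.range (map OF.subtype) := by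
    rw [mem_range_map_iff_coeffs_subset]
    intro a ha
    obtain ⟨n, -, rfl⟩ := mem_coeffs_iff.1 ha
    refine ⟨⟨_, ?_⟩, rfl⟩
    show v ((coeff n (MvPolynomial.C c⁻¹ * p) : F) : Om) ≤ 1
    rw [coeff_C_mul]
    push_cast
    rw [map_mul, map_inv₀]
    calc (v (c : Om))⁻¹ * v ((coeff n p : F) : Om) ≤ (v (c : Om))⁻¹ * v (c : Om) := by
          gcongr
          exact hall n
      _ = 1 := inv_mul_cancel₀ hvc
  obtain ⟨p0, hp0⟩ := hlift
  let φ : OF →+* v.valuationSubring :=
    (F.subtype.comp OF.subtype).codRestrict v.valuationSubring fun a => a.2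
  let ρ : OF →+* resField v F :=
    ((residue v.valuationSubring).comp φ).codRestrict (resField v F) fun a =>
      ⟨((a : F) : Om), (a : F).2, a.2, rfl⟩
  have hc1 : coeff m0 p0 = 1 := by
    apply Subtype.ext
    have := congrArg (coeff m0) hp0
    rw [coeff_map, coeff_C_mul, ← hc, inv_mul_cancel₀ hc0] at this
    exact this
  have hρ : map ρ p0 ≠ 0 := fun h0 => by
    have := congrArg (coeff m0) h0
    rw [coeff_map, hc1, map_one, coeff_zero] at this
    exact one_ne_zero this
  obtain ⟨h1, h2⟩ := resF_eval₂ φ hz p0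
  have e1 : eval₂ (v.valuationSubring.subtype.comp φ) z p0 = (c : Om)⁻¹ * aeval z p := by
    have : aeval z (map OF.subtype p0) = eval₂ (v.valuationSubring.subtype.comp φ) z p0 := by
      rw [aeval_def, eval₂_map]; rfl
    rw [← this, hp0, map_mul, aeval_C]
    congr 1
  have e2 : eval₂ ((residue v.valuationSubring).comp φ) (fun i => resF v (z i)) p0
      = aeval (fun i => resF v (z i)) (map ρ p0) := by
    rw [aeval_def, eval₂_map]; rfl
  have h3 : ¬ v (eval₂ (v.valuationSubring.subtype.comp φ) z p0) < 1 := by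
    rw [← resF_eq_zero h1, h2, e2]
    exact fun h0 => hρ (algebraicIndependent_iff.1 h _ h0)
  rw [e1, map_mul, map_inv₀, not_lt] at h3
  calc v ((coeff m p : F) : Om) ≤ v (c : Om) * 1 := by rw [mul_one]; exact hall m
    _ ≤ v (c : Om) * ((v (c : Om))⁻¹ * v (aeval z p)) := by gcongr
    _ = v (aeval z p) := by rw [← mul_assoc, mul_inv_cancel₀ hvc, one_mul]

theorem algInd_of_res (F : Subfield Om) {z : ι → Om} (hz : ∀ i, v (z i) ≤ 1)
    (h : AlgebraicIndependent (resField v F) fun i => resF v (z i)) :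
    AlgebraicIndependent F z :=
  algebraicIndependent_iff.2 fun p hp => MvPolynomial.ext _ _ fun m => by
    have := gauss_of_res F hz h p m
    rw [hp, map_zero, le_zero_iff, v.zero_iff] at this
    exact Subtype.ext this

/-- Residue degree of transcendence is at most the degree of transcendence. -/
theorem trdeg_res_le (v : Valuation Om G) (F : Subfield Om) :
    Algebra.trdeg (resField v F) (ResidueField v.valuationSubring) ≤ Algebra.trdeg F Om := by
  obtain ⟨s, hs⟩ := exists_isTranscendenceBasis (resField v F) (ResidueField v.valuationSubring)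
  choose z hz1 hz2 using fun a : s => resF_surj (v := v) a.1
  rw [← hs.cardinalMk_eq_trdeg]
  refine (algInd_of_res F hz1 ?_).cardinalMk_le_trdeg
  simp only [hz2]
  exact hs.1

section Base

variable {C : Type*} [Field C] [Algebra C Om]

/-- The structure map to the valuation ring when `v` is trivial on `C`. -/
def resHom (hC : ∀ c : C, v (algebraMap C Om c) ≤ 1) : C →+* v.valuationSubring :=
  (algebraMap C Om).codRestrict v.valuationSubring hC

/-- The residue field as an algebra over a trivially valued field. -/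
@[reducible] noncomputable def resAlg (hC : ∀ c : C, v (algebraMap C Om c) ≤ 1) :
    Algebra C (ResidueField v.valuationSubring) :=
  ((residue v.valuationSubring).comp (resHom hC)).toAlgebra

theorem RIndC_iff_res (hC : ∀ c : C, v (algebraMap C Om c) ≤ 1) {y : ι → Om} :
    letI := resAlg hC
    RIndC C v y ↔ (∀ i, v (y i) ≤ 1) ∧ AlgebraicIndependent C fun i => resF v (y i) := by
  let _ := resAlg hC
  have key : ∀ (_ : ∀ i, v (y i) ≤ 1) (p : MvPolynomial ι C), v (aeval y p) ≤ 1 ∧
      resF v (aeval y p) = aeval (fun i => resF v (y i)) p := fun hy p =>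
    resF_eval₂ (resHom hC) hy p
  constructor
  · intro h
    refine ⟨h.val_le, algebraicIndependent_iff.2 fun p hp => ?_⟩
    by_contra h0
    obtain ⟨h1, h2⟩ := key h.val_le p
    rw [← h2, resF_eq_zero h1, h p h0] at hp
    exact lt_irrefl _ hp
  · rintro ⟨hy, h⟩ p hp
    obtain ⟨h1, h2⟩ := key hy p
    refine le_antisymm h1 (not_lt.1 fun hlt => hp ?_)
    rw [← resF_eq_zero h1, h2] at hlt
    exact algebraicIndependent_iff.1 h p hlt

open Cardinal in
/-- RC with a bound for the degree of transcendence. -/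
theorem RCC_trdeg [Fintype ι] [Fintype κ] (F : Subfield Om)
    (hCF : ∀ c : C, algebraMap C Om c ∈ F) {u : κ → Om} (huF : ∀ i, u i ∈ F)
    (hu : RIndC C v u) {y : ι → Om} (hy : RIndC C v y) {d : ℕ}
    (hd : Algebra.trdeg F Om ≤ d) {m : ℕ} (hm : Fintype.card κ + m + d ≤ Fintype.card ι) :
    ∃ w : Fin m → Om, (∀ j, w j ∈ F) ∧ RIndC C v (Sum.elim u w) := by
  classical
  have hC := hu.const_le
  let _ := resAlg hC
  let kF : IntermediateField C (ResidueField v.valuationSubring) :=
    (resField v F).toIntermediateField fun c => ⟨_, hCF c, hC c, rfl⟩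
  have h1 : (Fintype.card ι : Cardinal) ≤ Algebra.trdeg C (ResidueField v.valuationSubring) := by
    have := ((RIndC_iff_res hC).1 hy).2.lift_cardinalMk_le_trdeg
    rw [mk_fintype, lift_natCast] at this
    exact nat_le_lift_iff.1 this
  have h2 : Algebra.trdeg kF (ResidueField v.valuationSubring) ≤ d :=
    (trdeg_res_le v F).trans hd
  have h3 := trdeg_add_eq C kF (A := ResidueField v.valuationSubring)
  have h4 : ((Fintype.card κ + m : ℕ) : Cardinal) ≤ Algebra.trdeg C kF := by
    rw [← add_nat_le_add_nat_iff d]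
    calc ((Fintype.card κ + m : ℕ) : Cardinal) + d = ((Fintype.card κ + m + d : ℕ) : Cardinal) := by
          push_cast; rfl
      _ ≤ (Fintype.card ι : Cardinal) := by exact_mod_cast hm
      _ ≤ _ := h1
      _ = _ := h3.symm
      _ ≤ _ := by gcongr
  let u' : κ → kF := fun i => ⟨resF v (u i), mem_resField.2 ⟨u i, huF i, hu.val_le i, rfl⟩⟩
  have hu' : AlgebraicIndependent C u' :=
    AlgebraicIndependent.of_comp kF.val ((RIndC_iff_res hC).1 hu).2
  obtain ⟨t, hst, ht⟩ := exists_isTranscendenceBasis_superset hu'.to_subtype_range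
  have h5 : (m : Cardinal) ≤ #(t \ Set.range u' : Set kF) := by
    rw [← add_nat_le_add_nat_iff (Fintype.card κ)]
    have h6 : #(Set.range u') ≤ (Fintype.card κ : Cardinal) := by
      have := mk_range_le_lift (f := u')
      rw [mk_fintype κ, lift_natCast] at this
      exact lift_le_nat_iff.1 this
    calc (m : Cardinal) + Fintype.card κ = ((Fintype.card κ + m : ℕ) : Cardinal) := by
          push_cast; exact add_comm _ _
      _ ≤ _ := h4
      _ = #t := ht.cardinalMk_eq_trdeg.symm
      _ = #(t \ Set.range u' : Set kF) + #(Set.range u') := (mk_sdiff_add_mk hst).symm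
      _ ≤ _ := by gcongr
  obtain ⟨e⟩ : Nonempty (Fin m ↪ (t \ Set.range u' : Set kF)) := by
    rw [← lift_mk_le', mk_fin, lift_natCast]
    exact nat_le_lift_iff.2 h5
  choose w hwF hw1 hw2 using fun j : Fin m => mem_resField.1 (e j).1.2
  refine ⟨w, hwF, (RIndC_iff_res hC).2 ⟨?_, ?_⟩⟩
  · rintro (i | j)
    · exact hu.val_le i
    · exact hw1 j
  let g : κ ⊕ Fin m → t := Sum.elim (fun i => ⟨u' i, hst ⟨i, rfl⟩⟩) fun j => ⟨(e j).1, (e j).2.1⟩
  have hg : Function.Injective g := by
    rintro (a | a) (b | b) hab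
    · exact congrArg Sum.inl (hu'.injective (congrArg Subtype.val hab))
    · exact absurd ⟨a, congrArg Subtype.val hab⟩ (e b).2.2
    · exact absurd ⟨b, (congrArg Subtype.val hab).symm⟩ (e a).2.2
    · exact congrArg Sum.inr (e.injective (Subtype.ext (congrArg (fun x : t => x.1) hab)))
  have h7 := (ht.1.comp g hg).map' (f := kF.val) Subtype.val_injective
  convert h7 using 1
  funext x
  rcases x with i | j
  · rfl
  · exact hw2 j

end Base

theorem trdeg_le_of_alg {δ : Type*} [Fintype δ] (F : Subfield Om) (d : δ → Om)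
    (halg : ∀ x : Om, IsAlgebraic (Subfield.closure ((F : Set Om) ∪ Set.range d)) x) :
    Algebra.trdeg F Om ≤ (Fintype.card δ : ℕ) := by
  rw [← genF_sub] at halg
  have : Algebra.IsAlgebraic (Algebra.adjoin F (Set.range d)) Om :=
    ⟨fun x => (isAlgebraic_gen_iff d x).1 (halg x)⟩
  refine (Algebra.IsAlgebraic.trdeg_le_cardinalMk F (Set.range d)).trans ?_
  have := Cardinal.mk_range_le_lift (f := d)
  rw [Cardinal.mk_fintype δ, Cardinal.lift_natCast] at this
  exact Cardinal.lift_le_nat_iff.1 this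

/-- RC over a field `C` with `Algebra C Om`. -/
theorem RCC {C : Type*} [Field C] [Algebra C Om] {δ : Type*} [Fintype δ] [Fintype ι] [Fintype κ]
    (F : Subfield Om) (hCF : ∀ c : C, algebraMap C Om c ∈ F) {u : κ → Om} (huF : ∀ i, u i ∈ F)
    (hu : RIndC C v u) {y : ι → Om} (hy : RIndC C v y) (d : δ → Om)
    (halg : ∀ x : Om, IsAlgebraic (Subfield.closure ((F : Set Om) ∪ Set.range d)) x) {m : ℕ}
    (hm : Fintype.card κ + m + Fintype.card δ ≤ Fintype.card ι) :
    ∃ w : Fin m → Om, (∀ j, w j ∈ F) ∧ RIndC C v (Sum.elim u w) :=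
  RCC_trdeg F hCF huF hu hy (trdeg_le_of_alg F d halg) hm

/-- RC: residue count. -/
theorem RC {δ : Type*} [Fintype δ] [Fintype ι] [Fintype κ] {k0 : Subfield Om}
    (F : Subfield Om) (hk : k0 ≤ F) {u : κ → Om} (huF : ∀ i, u i ∈ F)
    (hu : RInd v k0 u) {y : ι → Om} (hy : RInd v k0 y) (d : δ → Om)
    (halg : ∀ x : Om, IsAlgebraic (Subfield.closure ((F : Set Om) ∪ Set.range d)) x) {m : ℕ}
    (hm : Fintype.card κ + m + Fintype.card δ ≤ Fintype.card ι) :
    ∃ w : Fin m → Om, (∀ j, w j ∈ F) ∧ RInd v k0 (Sum.elim u w) :=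
  RCC (C := k0) F (fun c => hk c.2) huF hu hy d halg hm

end Pool.Agent.Lib.MP_5c318e_ag
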