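import Mathlib

/-! Gauss valuation on `k0(t, y)`, Jacobians, dual derivations by Cramer. -/

namespace Pool.Agent.Lib.MP_5c318e_ag

open Polynomial

variable {R Om G : Type*} [CommRing R] [Field Om] [Algebra R Om]
  [LinearOrderedCommGroupWithZero G]

/-- residual independence of a family over a subfield -/
def RInd (v : Valuation Om G) (k0 : Subfield Om) {s : Type*} (y : s → Om) : Prop :=
  ∀ p : MvPolynomial s k0, p ≠ 0 → v (MvPolynomial.aeval y p) = 1

/-- Jacobian determinant of a family of elements for a family of derivations -/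
noncomputable def Jac {i : Type*} [Fintype i] [DecidableEq i] (d : i → Derivation R Om Om)
    (f : i → Om) : Om :=
  (Matrix.of fun a b => d b (f a)).det

theorem RInd.triv {v : Valuation Om G} {k0 : Subfield Om} {s : Type*} {y : s → Om}
    (h : RInd v k0 y) {c : Om} (hc : c ∈ k0) (h0 : c ≠ 0) : v c = 1 := by
  have := h (MvPolynomial.C ⟨c, hc⟩) (by
    rw [Ne, MvPolynomial.C_eq_zero]
    intro e; exact h0 (congrArg Subtype.val e))
  rw [MvPolynomial.aeval_C] at this
  exact this

theorem RInd.le {v : Valuation Om G} {k0 : Subfield Om} {s : Type*} {y : s → Om}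
    (h : RInd v k0 y) {c : Om} (hc : c ∈ k0) : v c ≤ 1 := by
  by_cases h0 : c = 0
  · simp [h0]
  · exact (h.triv hc h0).le

theorem RInd.unit {v : Valuation Om G} {k0 : Subfield Om} {s : Type*} {y : s → Om}
    (h : RInd v k0 y) (a : s) : v (y a) = 1 := by
  have := h (MvPolynomial.X a) (MvPolynomial.X_ne_zero a)
  simpa using this

theorem nat_le_one (v : Valuation Om G) (n : ℕ) : v (n : Om) ≤ 1 := by
  induction n with
  | zero => simp
  | succ n ih =>
    rw [Nat.cast_succ]
    exact (v.map_add _ _).trans (max_le ih (by simp))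

/-- the log bound is multiplicative -/
theorem log_mul (v : Valuation Om G) (D : Derivation R Om Om) {del : G} {a b : Om}
    (ha : v (D a) ≤ del * v a) (hb : v (D b) ≤ del * v b) :
    v (D (a * b)) ≤ del * v (a * b) := by
  rw [D.leibniz, smul_eq_mul, smul_eq_mul, v.map_mul]
  refine (v.map_add _ _).trans (max_le ?_ ?_)
  · rw [v.map_mul]
    calc v a * v (D b) ≤ v a * (del * v b) := mul_le_mul_right hb _
      _ = del * (v a * v b) := by ac_rfl
  · rw [v.map_mul]
    calc v b * v (D a) ≤ v b * (del * v a) := mul_le_mul_right ha _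
      _ = del * (v a * v b) := by ac_rfl

theorem log_inv (v : Valuation Om G) (D : Derivation R Om Om) {del : G} {a : Om}
    (ha : v (D a) ≤ del * v a) : v (D a⁻¹) ≤ del * v a⁻¹ := by
  by_cases h0 : a = 0
  · simp [h0]
  have hv : v a ≠ 0 := (Valuation.ne_zero_iff v).2 h0
  rw [D.leibniz_inv, smul_eq_mul, v.map_mul, v.map_neg, v.map_pow, map_inv₀]
  calc (v a)⁻¹ ^ 2 * v (D a) ≤ (v a)⁻¹ ^ 2 * (del * v a) := mul_le_mul_right ha _
    _ = del * (v a)⁻¹ := by field_simp

theorem log_pow (v : Valuation Om G) (D : Derivation R Om Om) {del : G} {a : Om}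
    (ha : v (D a) ≤ del * v a) (n : ℕ) : v (D (a ^ n)) ≤ del * v (a ^ n) := by
  induction n with
  | zero => simp
  | succ n ih => rw [pow_succ]; exact log_mul v D ih ha

/-- a uniform bound on a ring of integral elements -/
theorem ring_bound (v : Valuation Om G) (D : Derivation R Om Om) {del : G} {S : Set Om}
    (h1 : ∀ x ∈ S, v x ≤ 1) (h2 : ∀ x ∈ S, v (D x) ≤ del) {g : Om}
    (hg : g ∈ Subring.closure S) : v g ≤ 1 ∧ v (D g) ≤ del := by
  induction hg using Subring.closure_induction with
  | mem x hx => exact ⟨h1 x hx, h2 x hx⟩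
  | zero => simp
  | one => simp
  | add x y _ _ hx hy =>
    refine ⟨(v.map_add _ _).trans (max_le hx.1 hy.1), ?_⟩
    rw [map_add]; exact (v.map_add _ _).trans (max_le hx.2 hy.2)
  | neg x _ hx => simpa using hx
  | mul x y _ _ hx hy =>
    refine ⟨by rw [v.map_mul]; exact mul_le_one' hx.1 hy.1, ?_⟩
    rw [D.leibniz, smul_eq_mul, smul_eq_mul]
    refine (v.map_add _ _).trans (max_le ?_ ?_)
    · rw [v.map_mul]; exact (mul_le_mul' hx.1 hy.2).trans (by simp)
    · rw [v.map_mul]; exact (mul_le_mul' hy.1 hx.2).trans (by simp)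

theorem ring_le_one (v : Valuation Om G) {S : Set Om}
    (h1 : ∀ x ∈ S, v x ≤ 1) {g : Om} (hg : g ∈ Subring.closure S) : v g ≤ 1 := by
  induction hg using Subring.closure_induction with
  | mem x hx => exact h1 x hx
  | zero => simp
  | one => simp
  | add x y _ _ hx hy => exact (v.map_add _ _).trans (max_le hx hy)
  | neg x _ hx => simpa using hx
  | mul x y _ _ hx hy => rw [v.map_mul]; exact mul_le_one' hx hy

/-- Gauss decomposition in the ring `k0[t, y]` -/
theorem gauss_ring {v : Valuation Om G} {k0 : Subfield Om} {s : Type*} {y : s → Om} {t : Om}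
    (hy : RInd v k0 y) (ht : v t < 1) {g : Om}
    (hg : g ∈ Subring.closure ((k0 : Set Om) ∪ insert t (Set.range y))) (h0 : g ≠ 0) :
    ∃ (n : ℕ) (u : Om), u ∈ Subring.closure ((k0 : Set Om) ∪ insert t (Set.range y)) ∧
      v u = 1 ∧ g = t ^ n * u := by
  set A := Subring.closure ((k0 : Set Om) ∪ insert t (Set.range y)) with hA
  let ph : (MvPolynomial s k0)[X] →+* Om :=
    Polynomial.eval₂RingHom (MvPolynomial.aeval y : MvPolynomial s k0 →ₐ[k0] Om).toRingHom t
  have hle : ∀ x ∈ A, ∃ q, ph q = x := by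
    intro x hx
    induction hx using Subring.closure_induction with
    | mem x hx =>
      rcases hx with hx | rfl | ⟨a, rfl⟩
      · exact ⟨C (MvPolynomial.C ⟨x, hx⟩), by simp [ph]; rfl⟩
      · exact ⟨X, by simp [ph]⟩
      · exact ⟨C (MvPolynomial.X a), by simp [ph]⟩
    | zero => exact ⟨0, map_zero _⟩
    | one => exact ⟨1, map_one _⟩
    | add x y _ _ hx hy =>
      obtain ⟨p, rfl⟩ := hx
      obtain ⟨q, rfl⟩ := hy
      exact ⟨p + q, map_add _ _ _⟩
    | neg x _ hx =>
      obtain ⟨p, rfl⟩ := hx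
      exact ⟨C (-1) * p, by simp [ph]⟩
    | mul x y _ _ hx hy =>
      obtain ⟨p, rfl⟩ := hx
      obtain ⟨q, rfl⟩ := hy
      exact ⟨p * q, map_mul _ _ _⟩
  have htA : t ∈ A := Subring.subset_closure (Or.inr (Set.mem_insert _ _))
  have hC : ∀ p : MvPolynomial s k0, (MvPolynomial.aeval y p : Om) ∈ A := by
    intro p
    induction p using MvPolynomial.induction_on with
    | C a =>
      rw [MvPolynomial.aeval_C]
      exact Subring.subset_closure (Or.inl a.2)
    | add p q hp hq => rw [map_add]; exact A.add_mem hp hq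
    | mul_X p a hp =>
      rw [map_mul, MvPolynomial.aeval_X]
      exact A.mul_mem hp (Subring.subset_closure (Or.inr (Set.mem_insert_of_mem _ ⟨a, rfl⟩)))
  have hge : ∀ q, ph q ∈ A := by
    intro q
    induction q using Polynomial.induction_on' with
    | add p q hp hq => rw [map_add]; exact A.add_mem hp hq
    | monomial n a =>
      have : ph (monomial n a) = MvPolynomial.aeval y a * t ^ n := by simp [ph]
      rw [this]; exact A.mul_mem (hC a) (A.pow_mem htA n)
  have hone : ∀ x ∈ A, v x ≤ 1 := by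
    intro x hx
    refine ring_le_one v ?_ hx
    rintro x (hx | rfl | ⟨a, rfl⟩)
    · exact hy.le hx
    · exact ht.le
    · exact (hy.unit a).le
  obtain ⟨q, rfl⟩ := hle g hg
  have hq : q ≠ 0 := by rintro rfl; exact h0 (map_zero _)
  obtain ⟨q', e, hnd⟩ := exists_eq_pow_rootMultiplicity_mul_and_not_dvd q hq 0
  refine ⟨rootMultiplicity 0 q, ph q', hge q', ?_, ?_⟩
  · have hc : q'.coeff 0 ≠ 0 := by
      intro h; apply hnd; simpa using (X_dvd_iff.2 h)
    have e2 : ph q' = MvPolynomial.aeval y (q'.coeff 0) + t * ph q'.divX := by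
      conv_lhs => rw [← X_mul_divX_add q']
      rw [map_add, map_mul, add_comm]
      simp [ph]
    have h1 := hy _ hc
    rw [e2, v.map_add_eq_of_lt_left, h1]
    rw [h1, v.map_mul]
    exact lt_of_le_of_lt (mul_le_of_le_one_right' (hone _ (hge _))) ht
  · conv_lhs => rw [e]
    simp [ph]

/-- Gauss decomposition in the field `k0(t, y)` -/
theorem gauss_field {v : Valuation Om G} {k0 : Subfield Om} {s : Type*} {y : s → Om} {t : Om}
    (hy : RInd v k0 y) (ht : v t < 1) {g : Om}
    (hg : g ∈ Subfield.closure ((k0 : Set Om) ∪ insert t (Set.range y))) (h0 : g ≠ 0) :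
    ∃ (n m : ℕ) (u u' : Om), u ∈ Subring.closure ((k0 : Set Om) ∪ insert t (Set.range y)) ∧
      u' ∈ Subring.closure ((k0 : Set Om) ∪ insert t (Set.range y)) ∧
      v u = 1 ∧ v u' = 1 ∧ t ^ m ≠ 0 ∧ g = t ^ n * u * (t ^ m * u')⁻¹ := by
  obtain ⟨a, ha, b, hb, rfl⟩ := Subfield.mem_closure_iff.1 hg
  have ha0 : a ≠ 0 := by rintro rfl; simp at h0
  have hb0 : b ≠ 0 := by rintro rfl; simp at h0
  obtain ⟨n, u, hu, hu1, rfl⟩ := gauss_ring hy ht ha ha0
  obtain ⟨m, u', hu', hu1', rfl⟩ := gauss_ring hy ht hb hb0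
  exact ⟨n, m, u, u', hu, hu', hu1, hu1', left_ne_zero_of_mul hb0, div_eq_mul_inv _ _⟩

/-- log bound on `k0(t, y)` -/
theorem gauss_log {v : Valuation Om G} {k0 : Subfield Om} {s : Type*} {y : s → Om} {t : Om}
    (hy : RInd v k0 y) (ht : v t < 1) (D : Derivation R Om Om) {del : G}
    (hk : ∀ c ∈ k0, D c = 0) (hDt : v (D t) ≤ del * v t) (hDy : ∀ a, v (D (y a)) ≤ del)
    {g : Om} (hg : g ∈ Subfield.closure ((k0 : Set Om) ∪ insert t (Set.range y))) :
    v (D g) ≤ del * v g := by
  by_cases h0 : g = 0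
  · simp [h0]
  obtain ⟨n, m, u, u', hu, hu', h1, h1', -, rfl⟩ := gauss_field hy ht hg h0
  have key : ∀ x ∈ Subring.closure ((k0 : Set Om) ∪ insert t (Set.range y)), v x = 1 →
      v (D x) ≤ del * v x := by
    intro x hx hx1
    rw [hx1, mul_one]
    refine (ring_bound v D ?_ ?_ hx).2
    · rintro x (hx | rfl | ⟨a, rfl⟩)
      · exact hy.le hx
      · exact ht.le
      · exact (hy.unit a).le
    · rintro x (hx | rfl | ⟨a, rfl⟩)
      · simp [hk x hx]
      · exact hDt.trans (mul_le_of_le_one_right' ht.le)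
      · exact hDy a
  exact log_mul v D (log_mul v D (log_pow v D hDt n) (key u hu h1))
    (log_inv v D (log_mul v D (log_pow v D hDt m) (key u' hu' h1')))

/-- value group of `k0(t, y)` -/
theorem gauss_val {v : Valuation Om G} {k0 : Subfield Om} {s : Type*} {y : s → Om} {t : Om}
    (hy : RInd v k0 y) (ht : v t < 1)
    {g : Om} (hg : g ∈ Subfield.closure ((k0 : Set Om) ∪ insert t (Set.range y))) (h0 : g ≠ 0) :
    ∃ n : ℤ, v g = v t ^ n := by
  obtain ⟨n, m, u, u', -, -, h1, h1', hm, rfl⟩ := gauss_field hy ht hg h0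
  by_cases ht0 : t = 0
  · subst ht0
    have hm0 : m = 0 := by by_contra h; exact hm (zero_pow h)
    have hn0 : n = 0 := by by_contra h; apply h0; simp [zero_pow h]
    exact ⟨0, by simp [hm0, hn0, h1, h1']⟩
  have hv : v t ≠ 0 := (Valuation.ne_zero_iff v).2 ht0
  refine ⟨(n : ℤ) - m, ?_⟩
  rw [zpow_sub₀ hv]
  simp [h1, h1', div_eq_mul_inv]

/-- regular derivations keep the valuation ring of `k0(t, y)` integral -/
theorem gauss_reg {v : Valuation Om G} {k0 : Subfield Om} {s : Type*} {y : s → Om} {t : Om}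
    (hy : RInd v k0 y) (ht : v t < 1) (D : Derivation R Om Om) {del : G}
    (hk : ∀ c ∈ k0, D c = 0) (hDt : v (D t) ≤ del) (hDy : ∀ a, v (D (y a)) ≤ del)
    {g : Om} (hg : g ∈ Subfield.closure ((k0 : Set Om) ∪ insert t (Set.range y)))
    (hg1 : v g ≤ 1) : v (D g) ≤ del := by
  by_cases h0 : g = 0
  · simp [h0]
  obtain ⟨n, m, u, u', hu, hu', h1, h1', hm, rfl⟩ := gauss_field hy ht hg h0
  have key : ∀ x ∈ Subring.closure ((k0 : Set Om) ∪ insert t (Set.range y)),
      v x ≤ 1 ∧ v (D x) ≤ del := by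
    intro x hx
    refine ring_bound v D ?_ ?_ hx
    · rintro x (hx | rfl | ⟨a, rfl⟩)
      · exact hy.le hx
      · exact ht.le
      · exact (hy.unit a).le
    · rintro x (hx | rfl | ⟨a, rfl⟩)
      · simp [hk x hx]
      · exact hDt
      · exact hDy a
  have htA : t ∈ Subring.closure ((k0 : Set Om) ∪ insert t (Set.range y)) :=
    Subring.subset_closure (Or.inr (Set.mem_insert _ _))
  have hu0 : u' ≠ 0 := by rintro rfl; simp at h1'
  have hmn : m ≤ n := by
    by_contra hlt
    push Not at hlt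
    have ht0 : t ≠ 0 := by rintro rfl; exact hm (zero_pow (by omega))
    have hv : 0 < v t := zero_lt_iff.2 ((Valuation.ne_zero_iff v).2 ht0)
    have e : v (t ^ n * u * (t ^ m * u')⁻¹) = v t ^ n / v t ^ m := by
      simp [h1, h1', div_eq_mul_inv]
    rw [e, div_le_one₀ (pow_pos hv m)] at hg1
    exact absurd (pow_lt_pow_right_of_lt_one₀ hv ht hlt) (not_lt.2 hg1)
  obtain ⟨k, rfl⟩ := Nat.exists_eq_add_of_le hmn
  have e : t ^ (m + k) * u * (t ^ m * u')⁻¹ = (t ^ k * u) * u'⁻¹ := by
    field_simp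
    ring
  obtain ⟨a1, a2⟩ := key _ (Subring.mul_mem _ (Subring.pow_mem _ htA k) hu)
  have b2 : v (D u'⁻¹) ≤ del * v u'⁻¹ :=
    log_inv v D (by rw [h1', mul_one]; exact (key _ hu').2)
  have b1 : v u'⁻¹ = 1 := by simp [h1']
  rw [b1, mul_one] at b2
  rw [e, D.leibniz, smul_eq_mul, smul_eq_mul]
  refine (v.map_add _ _).trans (max_le ?_ ?_)
  · rw [v.map_mul]; exact (mul_le_mul' a1 b2).trans (by simp)
  · rw [v.map_mul, b1, one_mul]; exact a2

/-- valuation of a determinant -/
theorem val_det_le (v : Valuation Om G) {i : Type*} [Fintype i] [DecidableEq i]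
    (M : Matrix i i Om) (r c : i → G) (h : ∀ a b, v (M a b) ≤ r a * c b) :
    v M.det ≤ (∏ a, r a) * ∏ b, c b := by
  rw [Matrix.det_apply']
  refine v.map_sum_le fun p _ => ?_
  have hs : v ((Equiv.Perm.sign p : ℤ) : Om) = 1 := by
    rcases Int.units_eq_one_or (Equiv.Perm.sign p) with e | e <;> simp [e]
  rw [v.map_mul, hs, one_mul, map_prod]
  calc ∏ a, v (M (p a) a) ≤ ∏ a, r (p a) * c a := Finset.prod_le_prod' fun a _ => h _ _
    _ = (∏ a, r a) * ∏ b, c b := by
      rw [Finset.prod_mul_distrib, Equiv.prod_comp p r]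

/-- the derivations dual to a family with nonzero Jacobian -/
noncomputable def dual {i : Type*} [Fintype i] [DecidableEq i] (d : i → Derivation R Om Om)
    (b : i → Om) (k : i) : Derivation R Om Om :=
  ∑ j, (Matrix.of fun a c => d c (b a))⁻¹ j k • d j

theorem der_sum_apply {i : Type*} (S : Finset i) (d : i → Derivation R Om Om) (x : Om) :
    (∑ j ∈ S, d j) x = ∑ j ∈ S, d j x := by
  classical
  induction S using Finset.induction_on with
  | empty => simp
  | insert a S ha ih => rw [Finset.sum_insert ha, Finset.sum_insert ha, Derivation.add_apply, ih]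

theorem dual_apply {i : Type*} [Fintype i] [DecidableEq i] (d : i → Derivation R Om Om)
    (b : i → Om) (k : i) (x : Om) :
    dual d b k x = ∑ j, d j x * (Matrix.of fun a c => d c (b a))⁻¹ j k := by
  rw [dual, der_sum_apply]
  exact Finset.sum_congr rfl fun j _ => by rw [Derivation.smul_apply, smul_eq_mul, mul_comm]

theorem dual_zero {i : Type*} [Fintype i] [DecidableEq i] (d : i → Derivation R Om Om)
    (b : i → Om) (k : i) {x : Om} (hx : ∀ j, d j x = 0) : dual d b k x = 0 := by
  simp [dual_apply, hx]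

theorem dual_matrix {i : Type*} [Fintype i] [DecidableEq i] (d : i → Derivation R Om Om)
    (b f : i → Om) : (Matrix.of fun a k => dual d b k (f a)) =
      (Matrix.of fun a c => d c (f a)) * (Matrix.of fun a c => d c (b a))⁻¹ := by
  ext a k
  simp [dual_apply, Matrix.mul_apply]

theorem dual_self {i : Type*} [Fintype i] [DecidableEq i] (d : i → Derivation R Om Om)
    {b : i → Om} (hb : Jac d b ≠ 0) (k a : i) : dual d b k (b a) = if a = k then 1 else 0 := by
  have h := dual_matrix d b b
  rw [Matrix.mul_nonsing_inv _ (isUnit_iff_ne_zero.2 hb)] at h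
  have := congrFun (congrFun h a) k
  rw [Matrix.of_apply, Matrix.one_apply] at this
  exact this

/-- chain rule -/
theorem jac_chain {i : Type*} [Fintype i] [DecidableEq i] (d : i → Derivation R Om Om)
    {b : i → Om} (hb : Jac d b ≠ 0) (f : i → Om) :
    Jac d f = Jac d b * Jac (dual d b) f := by
  unfold Jac at *
  rw [dual_matrix, Matrix.det_mul, Matrix.det_nonsing_inv, Ring.inverse_eq_inv']
  field_simp

/-- the reference derivations in terms of the dual ones -/
theorem eq_sum_dual {i : Type*} [Fintype i] [DecidableEq i] (d : i → Derivation R Om Om)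
    {b : i → Om} (hb : Jac d b ≠ 0) (j : i) (x : Om) :
    d j x = ∑ k, dual d b k x * d j (b k) := by
  have h := dual_matrix d b (fun _ => x)
  have h2 := congrArg (· * (Matrix.of fun a c => d c (b a))) h
  simp only [Matrix.mul_assoc] at h2
  rw [Matrix.nonsing_inv_mul _ (isUnit_iff_ne_zero.2 hb), Matrix.mul_one] at h2
  have := congrFun (congrFun h2 j) j
  simpa [Matrix.mul_apply] using this.symm

theorem val_jac_le (v : Valuation Om G) {i : Type*} [Fintype i] [DecidableEq i]
    (d : i → Derivation R Om Om) (f : i → Om) (r c : i → G)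
    (h : ∀ a b, v (d b (f a)) ≤ r a * c b) : v (Jac d f) ≤ (∏ a, r a) * ∏ b, c b :=
  val_det_le v _ r c h

end Pool.Agent.Lib.MP_5c318e_ag
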