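import Pool.Agent.Lib.MP_5c318e_ag.Ext

/-! Transcendence bookkeeping: the rank `trk k S` of a set over a subfield. -/

set_option autoImplicit false

namespace Pool.Agent.Lib.MP_5c318e_ag

open Set

noncomputable section

variable {Om : Type*} [Field Om]

/-- transcendence rank of a set `S` over the subfield `k` -/
def trk (k : Subfield Om) (S : Set Om) : ℕ∞ := (AlgebraicIndependent.matroid k Om).eRk S

theorem Trd_mem_closure {k : Subfield Om} {S : Set Om} {y : Om} :
    y ∈ (AlgebraicIndependent.matroid k Om).closure S ↔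
      IsAlgebraic (Subfield.closure ((k : Set Om) ∪ S)) y := by
  rw [AlgebraicIndependent.matroid_closure_eq, SetLike.mem_coe, Subalgebra.mem_algebraicClosure,
    ← IntermediateField.isAlgebraic_adjoin_iff, closure_eq_adjoin]
  rfl

theorem Trd_alg_of_mem {F : Subfield Om} {y : Om} (hy : y ∈ F) : IsAlgebraic F y :=
  isAlgebraic_algebraMap (⟨y, hy⟩ : F)

theorem Trd_indep {ι : Type*} {k : Subfield Om} {u : ι → Om} (hu : AlgebraicIndependent k u) :
    (AlgebraicIndependent.matroid k Om).Indep (range u) :=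
  hu.to_subtype_range

theorem Trd_of_indep {ι : Type*} {k : Subfield Om} {u : ι → Om} (hi : Function.Injective u)
    (hu : (AlgebraicIndependent.matroid k Om).Indep (range u)) : AlgebraicIndependent k u :=
  AlgebraicIndependent.of_subtype_range hi hu

theorem Trd_restrict {ι : Type*} {k K : Subfield Om} (h : k ≤ K) {u : ι → Om}
    (hu : AlgebraicIndependent K u) : AlgebraicIndependent k u := by
  let : Algebra k K := (Subfield.inclusion h).toAlgebra
  have : IsScalarTower k K Om := IsScalarTower.of_algebraMap_eq fun _ => rfl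
  exact hu.restrictScalars (Subfield.inclusion h).injective

/-- algebraicity is transitive through generated subfields -/
theorem Trd_alg_trans {k : Subfield Om} {S T : Set Om}
    (h : ∀ s ∈ S, IsAlgebraic (Subfield.closure ((k : Set Om) ∪ T)) s) {y : Om}
    (hy : IsAlgebraic (Subfield.closure ((k : Set Om) ∪ S)) y) :
    IsAlgebraic (Subfield.closure ((k : Set Om) ∪ T)) y := by
  rw [← Trd_mem_closure] at hy ⊢
  exact Matroid.closure_subset_closure_of_subset_closure (fun s hs => Trd_mem_closure.2 (h s hs)) hy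

theorem trk_mono (k : Subfield Om) {S T : Set Om} (h : S ⊆ T) : trk k S ≤ trk k T :=
  Matroid.eRk_mono _ h

theorem trk_union_le (k : Subfield Om) (S T : Set Om) : trk k (S ∪ T) ≤ trk k S + trk k T :=
  Matroid.eRk_union_le_eRk_add_eRk _ _ _

theorem trk_le_encard (k : Subfield Om) (S : Set Om) : trk k S ≤ S.encard :=
  Matroid.eRk_le_encard _ _

theorem trk_le_of_alg {k : Subfield Om} {S T : Set Om}
    (h : ∀ s ∈ S, IsAlgebraic (Subfield.closure ((k : Set Om) ∪ T)) s) : trk k S ≤ trk k T := by
  unfold trk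
  rw [← Matroid.eRk_closure_eq _ T]
  exact Matroid.eRk_mono _ fun s hs => Trd_mem_closure.2 (h s hs)

theorem trk_closure (k : Subfield Om) (S : Set Om) :
    trk k (Subfield.closure ((k : Set Om) ∪ S)) = trk k S :=
  le_antisymm (trk_le_of_alg fun _ hs => Trd_alg_of_mem hs)
    (trk_mono k fun _ hs => Subfield.subset_closure (Or.inr hs))

theorem trk_range_le {ι : Type*} [Fintype ι] (k : Subfield Om) (u : ι → Om) :
    trk k (range u) ≤ Fintype.card ι := by
  refine (trk_le_encard k _).trans ?_
  rw [← image_univ]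
  refine (encard_image_le _ _).trans ?_
  simp

theorem trk_range {ι : Type*} [Fintype ι] {k : Subfield Om} {u : ι → Om}
    (hu : AlgebraicIndependent k u) : trk k (range u) = Fintype.card ι := by
  unfold trk
  rw [(Trd_indep hu).eRk_eq_encard, ← image_univ, hu.injective.encard_image]
  simp

theorem indep_of_trk {ι : Type*} [Fintype ι] {k : Subfield Om} {u : ι → Om}
    (h : (Fintype.card ι : ℕ∞) ≤ trk k (range u)) : AlgebraicIndependent k u := by
  have h1 : (range u).encard ≤ Fintype.card ι := by
    rw [← image_univ]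
    refine (encard_image_le _ _).trans ?_
    simp
  have h2 := trk_le_encard k (range u)
  refine Trd_of_indep ?_ ((Matroid.indep_iff_eRk_eq_encard_of_finite (finite_range u)).2
    (le_antisymm h2 (h1.trans h)))
  rw [← injOn_univ]
  refine finite_univ.injOn_of_encard_image_eq ?_
  rw [image_univ]
  simpa using le_antisymm h1 (h.trans h2)

theorem card_le_trk {ι : Type*} [Fintype ι] {k : Subfield Om} {u : ι → Om} {S : Set Om}
    (hu : AlgebraicIndependent k u)
    (h : ∀ i, IsAlgebraic (Subfield.closure ((k : Set Om) ∪ S)) (u i)) :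
    (Fintype.card ι : ℕ∞) ≤ trk k S := by
  rw [← trk_range hu]
  exact trk_le_of_alg (forall_mem_range.2 h)

theorem le_trk_iff {k : Subfield Om} {S : Set Om} {n : ℕ} :
    (n : ℕ∞) ≤ trk k S ↔ ∃ u : Fin n → Om, (∀ i, u i ∈ S) ∧ AlgebraicIndependent k u := by
  constructor
  · intro h
    obtain ⟨I, hIS, hI, hn⟩ := Matroid.le_eRk_iff.1 h
    have hfin : I.Finite := finite_of_encard_eq_coe hn
    have := hfin.fintype
    have hc : Fintype.card I = n := by
      have := hn
      rw [← Set.coe_fintypeCard] at this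
      exact_mod_cast this
    let e : Fin n ≃ I := (Fintype.equivFinOfCardEq hc).symm
    exact ⟨fun i => e i, fun i => hIS (e i).2,
      AlgebraicIndependent.comp (x := fun a : I => (a : Om)) hI e e.injective⟩
  · rintro ⟨u, hS, hu⟩
    simpa using (trk_range hu).ge.trans (trk_mono k (range_subset_iff.2 hS))

theorem trk_anti {k K : Subfield Om} (h : k ≤ K) (S : Set Om) : trk K S ≤ trk k S :=
  Matroid.eRk_le_iff.2 fun _ hIS hI =>
    Matroid.Indep.encard_le_eRk_of_subset (M := AlgebraicIndependent.matroid k Om)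
      (Trd_restrict h hI) hIS

theorem Trd_sum {ι κ : Type*} {k K : Subfield Om} (h : k ≤ K) {x : ι → Om} {y : κ → Om}
    (hx : AlgebraicIndependent k x) (hxK : ∀ i, x i ∈ K) (hy : AlgebraicIndependent K y) :
    AlgebraicIndependent k (Sum.elim y x) := by
  let : Algebra k K := (Subfield.inclusion h).toAlgebra
  have : IsScalarTower k K Om := IsScalarTower.of_algebraMap_eq fun _ => rfl
  exact hx.sumElim_of_tower (S := K) (range_subset_iff.2 fun i => ⟨⟨x i, hxK i⟩, rfl⟩) hy

/-- lower bound: a set inside `K` and a set counted over `K` -/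
theorem trk_add_le {k K : Subfield Om} (h : k ≤ K) {A : Set Om} (hA : A ⊆ K) (S : Set Om) :
    trk k A + trk K S ≤ trk k (A ∪ S) := by
  obtain ⟨I, hI⟩ := (AlgebraicIndependent.matroid k Om).exists_isBasis' A
  obtain ⟨J, hJ⟩ := (AlgebraicIndependent.matroid K Om).exists_isBasis' S
  have h1 : AlgebraicIndependent k (Sum.elim (fun j : J => (j : Om)) fun i : I => (i : Om)) :=
    Trd_sum h hI.indep (fun i => hA (hI.subset i.2)) hJ.indep
  have h2 := Trd_indep h1
  rw [Sum.elim_range, Subtype.range_coe, Subtype.range_coe] at h2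
  have hd : Disjoint J I := by
    rw [Set.disjoint_left]
    intro a ha hb
    have : (Sum.inl ⟨a, ha⟩ : J ⊕ I) = Sum.inr ⟨a, hb⟩ := h1.injective rfl
    cases this
  unfold trk
  rw [hI.eRk_eq_encard, hJ.eRk_eq_encard, add_comm, ← encard_union_eq hd]
  exact h2.encard_le_eRk_of_subset
    (union_subset (hJ.subset.trans subset_union_right) (hI.subset.trans subset_union_left))

/-- tower formula -/
theorem trk_tower {k K : Subfield Om} (h : k ≤ K) (S : Set Om) :
    trk k ((K : Set Om) ∪ S) = trk k K + trk K S := by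
  refine le_antisymm ?_ (trk_add_le h subset_rfl S)
  obtain ⟨J, hJ⟩ := (AlgebraicIndependent.matroid K Om).exists_isBasis S
  have h1 : trk k ((K : Set Om) ∪ S) ≤ trk k ((K : Set Om) ∪ J) := by
    refine trk_le_of_alg ?_
    have he : Subfield.closure ((K : Set Om) ∪ J) ≤
        Subfield.closure ((k : Set Om) ∪ ((K : Set Om) ∪ J)) :=
      Subfield.closure_mono subset_union_right
    rintro s (hs | hs)
    · exact Trd_alg_of_mem (he (Subfield.subset_closure (Or.inl hs)))
    · exact alg_mono he (Trd_mem_closure.1 (hJ.subset_closure hs))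
  refine h1.trans ((trk_union_le k _ _).trans (add_le_add le_rfl ?_))
  exact (trk_le_encard k J).trans hJ.eRk_eq_encard.ge

/-- T1: freeness. `a` generates `L` algebraically over `k` and stays independent over `K`. -/
theorem Trd_free {ι κ : Type*} [Finite ι] {k K : Subfield Om} (h : k ≤ K) {a : ι → Om}
    (ha : AlgebraicIndependent K a) {u : κ → Om} (hu : AlgebraicIndependent k u)
    (halg : ∀ j, IsAlgebraic (Subfield.closure ((k : Set Om) ∪ range a)) (u j)) :
    AlgebraicIndependent K u := by
  have := Fintype.ofFinite ι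
  obtain ⟨B, hB, hsub⟩ := (Trd_indep hu).subset_isBasis_of_subset
    (X := range u ∪ range a) subset_union_left
  have h1 : trk k (range u ∪ range a) ≤ Fintype.card ι := by
    refine (trk_le_of_alg ?_).trans (trk_range_le k a)
    rintro s (⟨j, rfl⟩ | hs)
    · exact halg j
    · exact Trd_alg_of_mem (Subfield.subset_closure (Or.inr hs))
  have h2 : B.encard ≤ Fintype.card ι := hB.eRk_eq_encard.ge.trans h1
  have h3 : (Fintype.card ι : ℕ∞) ≤ trk K B := card_le_trk ha fun i =>
    alg_mono (Subfield.closure_mono (union_subset_union_left _ h))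
      (Trd_mem_closure.1 (hB.subset_closure (Or.inr ⟨i, rfl⟩)))
  have h4 : (AlgebraicIndependent.matroid K Om).Indep B :=
    (Matroid.indep_iff_eRk_eq_encard_of_finite (finite_of_encard_le_coe h2)).2
      (le_antisymm (trk_le_encard K B) (h2.trans h3))
  exact Trd_of_indep hu.injective (h4.subset hsub)

theorem trk_free {ι : Type*} [Finite ι] {k K : Subfield Om} (h : k ≤ K) {a : ι → Om}
    (ha : AlgebraicIndependent K a) {S : Set Om}
    (halg : ∀ s ∈ S, IsAlgebraic (Subfield.closure ((k : Set Om) ∪ range a)) s) :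
    trk K S = trk k S :=
  le_antisymm (trk_anti h S) (Matroid.eRk_le_iff.2 fun _ hIS hI =>
    Matroid.Indep.encard_le_eRk_of_subset (M := AlgebraicIndependent.matroid K Om)
      (Trd_free h ha hI fun j => halg _ (hIS j.2)) hIS)

theorem trk_singleton {k : Subfield Om} {z : Om} (hz : Transcendental k z) : trk k {z} = 1 := by
  have h := trk_range (k := k) (u := fun _ : Unit => z)
    (algebraicIndependent_unique_type_iff.2 hz)
  simpa using h

/-- section 8: additivity of the ranks of `L0`, `K0` and `z` -/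
theorem trk_three {ι : Type*} [Finite ι] {k K E : Subfield Om} (h : k ≤ K) (hKE : K ≤ E)
    {a : ι → Om} (ha : AlgebraicIndependent K a) {L0 K0 Z : Set Om} (hK0 : K0 ⊆ K) (hL0 : L0 ⊆ E)
    (halg : ∀ s ∈ L0, IsAlgebraic (Subfield.closure ((k : Set Om) ∪ range a)) s) :
    trk k K0 + trk k L0 + trk E Z ≤ trk k (K0 ∪ L0 ∪ Z) := by
  refine le_trans (add_le_add ?_ le_rfl)
    (trk_add_le (h.trans hKE) (union_subset (hK0.trans hKE) hL0) Z)
  rw [← trk_free h ha halg]
  exact trk_add_le h hK0 L0

/-- T2: upper bound for the rank over `K` of a set algebraic over `K L0 (Z)` -/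
theorem trk_le_add {k K : Subfield Om} (h : k ≤ K) {R L0 Z : Set Om}
    (halg : ∀ s ∈ R, IsAlgebraic (Subfield.closure ((K : Set Om) ∪ (L0 ∪ Z))) s) :
    trk K R ≤ trk k L0 + Z.encard :=
  (trk_le_of_alg halg).trans ((trk_union_le K _ _).trans
    (add_le_add (trk_anti h L0) (trk_le_encard K Z)))

/-- equally many independent elements generate the same algebraic closure -/
theorem Trd_full {ι κ : Type*} [Fintype ι] [Fintype κ] {k : Subfield Om} {a : ι → Om}
    {c : κ → Om} (hc : AlgebraicIndependent k c) (hcard : Fintype.card ι ≤ Fintype.card κ)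
    (halg : ∀ j, IsAlgebraic (Subfield.closure ((k : Set Om) ∪ range a)) (c j)) {y : Om}
    (hy : IsAlgebraic (Subfield.closure ((k : Set Om) ∪ range a)) y) :
    IsAlgebraic (Subfield.closure ((k : Set Om) ∪ range c)) y := by
  by_contra hn
  have h1 : trk k (insert y (range c)) = trk k (range c) + 1 :=
    Matroid.eRk_insert_eq_add_one ⟨trivial, fun h => hn (Trd_mem_closure.1 h)⟩
  have h2 : trk k (insert y (range c)) ≤ Fintype.card ι := by
    refine (trk_le_of_alg ?_).trans (trk_range_le k a)
    rintro s (rfl | ⟨j, rfl⟩)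
    · exact hy
    · exact halg j
  rw [h1, trk_range hc] at h2
  have h3 : Fintype.card κ + 1 ≤ Fintype.card ι := by exact_mod_cast h2
  omega

section transport

variable {k0 W : Type*} [Field k0] [Field W] [Algebra k0 W] (ψ : W →+* Om) {k : Subfield Om}

theorem Trd_map_iff (hk : ∀ y, y ∈ k ↔ ∃ a, ψ (algebraMap k0 W a) = y) {ι : Type*} {u : ι → W} :
    AlgebraicIndependent k (ψ ∘ u) ↔ AlgebraicIndependent k0 u := by
  let f : k0 →+* k := (ψ.comp (algebraMap k0 W)).codRestrict k fun a => (hk _).2 ⟨a, rfl⟩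
  have hf : Function.Surjective f := fun y => by
    obtain ⟨a, ha⟩ := (hk y).1 y.2
    exact ⟨a, Subtype.ext ha⟩
  exact ⟨fun H => H.of_ringHom_of_comp_eq f ψ f.injective rfl,
    fun H => H.ringHom_of_comp_eq f ψ hf ψ.injective rfl⟩

theorem trk_image (hk : ∀ y, y ∈ k ↔ ∃ a, ψ (algebraMap k0 W a) = y) (S : Set W) :
    trk k (ψ '' S) = (AlgebraicIndependent.matroid k0 W).eRk S := by
  have key : ∀ I : Set W, (AlgebraicIndependent.matroid k Om).Indep (ψ '' I) ↔
      (AlgebraicIndependent.matroid k0 W).Indep I := by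
    intro I
    rw [image_eq_range]
    exact ⟨fun h => (Trd_map_iff ψ hk (u := fun a : I => (a : W))).1
      (Trd_of_indep (ψ.injective.comp Subtype.val_injective) h),
      fun h => Trd_indep ((Trd_map_iff ψ hk (u := fun a : I => (a : W))).2 h)⟩
  refine le_antisymm (Matroid.eRk_le_iff.2 fun J hJ hI => ?_)
    (Matroid.eRk_le_iff.2 fun I hIS hI => ?_)
  · obtain ⟨I, hIS, rfl⟩ := subset_image_iff.1 hJ
    rw [ψ.injective.encard_image]
    exact ((key I).1 hI).encard_le_eRk_of_subset hIS
  · rw [← ψ.injective.encard_image]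
    exact ((key I).2 hI).encard_le_eRk_of_subset (image_mono hIS)

/-- `trk` of an embedded field is its transcendence degree -/
theorem trk_eq_trdeg (hk : ∀ y, y ∈ k ↔ ∃ a, ψ (algebraMap k0 W a) = y) :
    trk k (range ψ) = (Algebra.trdeg k0 W).toENat := by
  obtain ⟨s, hs⟩ := exists_isTranscendenceBasis k0 W
  rw [← image_univ, trk_image ψ hk, Matroid.eRk_univ_eq, ← hs.cardinalMk_eq_trdeg,
    toENat_cardinalMk]
  exact (AlgebraicIndependent.matroid_isBase_iff.2 hs).encard_eq_eRank.symm

theorem trk_eq_trdeg_adjoin (hk : ∀ y, y ∈ k ↔ ∃ a, ψ (algebraMap k0 W a) = y) (S : Set W) :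
    trk k (ψ '' S) = (Algebra.trdeg k0 (IntermediateField.adjoin k0 S)).toENat := by
  rw [← trk_eq_trdeg (ψ.comp (algebraMap (IntermediateField.adjoin k0 S) W)) hk]
  refine le_antisymm (trk_mono k ?_) (trk_le_of_alg ?_)
  · rintro _ ⟨a, ha, rfl⟩
    exact ⟨⟨a, IntermediateField.subset_adjoin k0 S ha⟩, rfl⟩
  · rintro _ ⟨⟨a, ha⟩, rfl⟩
    refine Trd_alg_of_mem ?_
    have h : (IntermediateField.adjoin k0 S).toSubfield ≤
        (Subfield.closure ((k : Set Om) ∪ ψ '' S)).comap ψ := by
      rw [IntermediateField.adjoin_toSubfield]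
      refine Subfield.closure_le.2 ?_
      rintro b (⟨c, rfl⟩ | hb)
      · exact Subfield.subset_closure (Or.inl ((hk _).2 ⟨c, rfl⟩))
      · exact Subfield.subset_closure (Or.inr ⟨b, hb, rfl⟩)
    exact h ha

end transport

end

end Pool.Agent.Lib.MP_5c318e_ag
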