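import Pool.Agent.Lib.MP_5c318e_ag.Val
import Pool.Agent.Lib.MP_5c318e_ag.Trd

/-! The final count of transcendence degrees. -/

namespace Pool.Agent.Lib.MP_5c318e_ag

open Set Cardinal

variable {Om : Type} [Field Om]

theorem Count_alg {k W : Type} [Field k] [Field W] [Algebra k W] (ψ : W →+* Om)
    {k' : Subfield Om} (hk : ∀ a, ψ (algebraMap k W a) ∈ k') {s : Set W} {a : W}
    (ha : IsAlgebraic (IntermediateField.adjoin k s) a) : IsAlgebraic (adj k' (ψ '' s)) (ψ a) := by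
  have h : (IntermediateField.adjoin k s).toSubfield ≤ (adj k' (ψ '' s)).comap ψ := by
    rw [IntermediateField.adjoin_toSubfield]
    refine Subfield.closure_le.2 ?_
    rintro b (⟨c, rfl⟩ | hb)
    · exact le_adj _ _ (hk c)
    · exact mem_adj _ ⟨b, hb, rfl⟩
  let f : IntermediateField.adjoin k s →+* adj k' (ψ '' s) :=
    (ψ.comp (algebraMap (IntermediateField.adjoin k s) W)).codRestrict _ fun b => h b.2
  exact ha.ringHom_of_comp_eq f ψ f.injective rfl

theorem Count_le {k1 W1 k2 W2 : Type} [Field k1] [Field W1] [Algebra k1 W1] [Field k2] [Field W2]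
    [Algebra k2 W2] (ψ1 : W1 →+* Om) (ψ2 : W2 →+* Om) {k : Subfield Om}
    (h1 : ∀ y, y ∈ k ↔ ∃ a, ψ1 (algebraMap k1 W1 a) = y) (h2 : ∀ a, ψ2 (algebraMap k2 W2 a) ∈ k)
    (h : ∀ a, IsAlgebraic (adj k (range ψ2)) (ψ1 a)) :
    Algebra.trdeg k1 W1 ≤ Algebra.trdeg k2 W2 := by
  obtain ⟨s1, hs1⟩ := exists_isTranscendenceBasis k1 W1
  obtain ⟨s2, hs2⟩ := exists_isTranscendenceBasis k2 W2
  have hi := Trd_indep ((Trd_map_iff ψ1 h1).2 hs1.1)
  have hsub : range (ψ1 ∘ fun a : s1 => (a : W1)) ⊆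
      (AlgebraicIndependent.matroid k Om).closure (ψ2 '' s2) := by
    rintro _ ⟨a, rfl⟩
    refine Trd_mem_closure.2 (Trd_alg_trans ?_ (h a))
    rintro _ ⟨b, rfl⟩
    have h3 := hs2.isAlgebraic_field.isAlgebraic b
    rw [Subtype.range_coe] at h3
    exact Count_alg ψ2 h2 h3
  have h4 := hi.cardinalMk_le_cRk_of_subset hsub
  rw [Matroid.cRk_closure, mk_range_eq _ (ψ1.injective.comp Subtype.val_injective)] at h4
  rw [← hs1.cardinalMk_eq_trdeg, ← hs2.cardinalMk_eq_trdeg]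
  exact h4.trans ((Matroid.cRk_le_cardinalMk _ _).trans mk_image_le)

variable [Algebra ℂ Om]

theorem count8 (Kb K0 : IntermediateField ℂ Om) (Q : Subfield Om) (hK : K0 ≤ Kb)
    (hQ : ∀ y ∈ K0, y ∈ Q) {F : Type} [Field F] [Algebra Kb F] (φ : F →ₐ[Kb] Om) (S : Set F)
    (hS : ∀ y ∈ S, φ y ∈ acl (Q ⊔ Kb.toSubfield)) {M : Type} [Field M] [Algebra ℂ M]
    (ψ : M →ₐ[ℂ] Om) (S' : Set M) (hQ' : Q ≤ acl (adj (C0 Om) (ψ '' S'))) :
    Algebra.trdeg Kb (IntermediateField.adjoin Kb S) + Algebra.trdeg ℂ K0 ≤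
      Algebra.trdeg ℂ (IntermediateField.adjoin ℂ S') := by
  let Qi : IntermediateField ℂ Om := Q.toIntermediateField fun c => hQ _ (K0.algebraMap_mem c)
  have hle : K0 ≤ Qi := hQ
  let : Algebra K0 Qi := (IntermediateField.inclusion hle).toAlgebra
  have : IsScalarTower ℂ K0 Qi := IsScalarTower.of_algebraMap_eq fun _ => rfl
  have ha : Algebra.trdeg ℂ Qi ≤ Algebra.trdeg ℂ (IntermediateField.adjoin ℂ S') := by
    refine Count_le (algebraMap Qi Om)
      ((ψ : M →+* Om).comp (algebraMap (IntermediateField.adjoin ℂ S') M)) (k := C0 Om)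
      (fun y => mem_C0) (fun a => mem_C0.2 ⟨a, (ψ.commutes a).symm⟩) fun a => ?_
    refine alg_mono (Subfield.closure_mono (union_subset_union_right _ ?_)) (mem_acl.1 (hQ' a.2))
    rintro _ ⟨b, hb, rfl⟩
    exact ⟨⟨b, IntermediateField.subset_adjoin ℂ S' hb⟩, rfl⟩
  have hb : Algebra.trdeg Kb (IntermediateField.adjoin Kb S) ≤ Algebra.trdeg K0 Qi := by
    refine Count_le ((φ : F →+* Om).comp (algebraMap (IntermediateField.adjoin Kb S) F))
      (algebraMap Qi Om) (k := Kb.toSubfield)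
      (fun y => ⟨fun hy => ⟨⟨y, hy⟩, φ.commutes _⟩, ?_⟩) (fun a => hK a.2) fun a => ?_
    · rintro ⟨a, rfl⟩
      exact (φ.commutes a).symm ▸ a.2
    · have h1 : (IntermediateField.adjoin Kb S).toSubfield ≤
          (acl (Q ⊔ Kb.toSubfield)).comap (φ : F →+* Om) := by
        rw [IntermediateField.adjoin_toSubfield]
        refine Subfield.closure_le.2 ?_
        rintro b (⟨c, rfl⟩ | hb)
        · have h2 : φ (algebraMap Kb F c) ∈ acl (Q ⊔ Kb.toSubfield) := by
            rw [φ.commutes]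
            exact le_acl _ ((le_sup_right : Kb.toSubfield ≤ _) c.2)
          exact h2
        · exact hS b hb
      have h3 : Q ≤ adj Kb.toSubfield (range (algebraMap Qi Om)) :=
        fun y hy => mem_adj _ (mem_range_self (⟨y, hy⟩ : Qi))
      exact alg_mono (sup_le h3 (le_adj _ _)) (mem_acl.1 (h1 a.2))
  have : FaithfulSMul K0 Qi :=
    (faithfulSMul_iff_algebraMap_injective K0 Qi).2 (algebraMap K0 Qi).injective
  rw [add_comm]
  exact (add_le_add le_rfl hb).trans ((trdeg_add_eq ℂ K0 (A := Qi)).le.trans ha)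

end Pool.Agent.Lib.MP_5c318e_ag
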