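import Mathlib

/-! IDX: the value group of an extension of degree at most `D` has exponent dividing `D!`
over the value group of the base field. -/

open Polynomial

namespace Pool.Agent.Lib.MP_5c318e_ag

variable {Om : Type*} [Field Om] {G : Type*} [LinearOrderedCommGroupWithZero G]
  {v : Valuation Om G} {F : Subfield Om}

/-- two terms of a vanishing polynomial expression have the same value -/
theorem exists_two_terms {p : Om[X]} (hp : p ≠ 0) {x : Om} (hx : x ≠ 0) (h0 : p.eval x = 0) :
    ∃ i j, i < j ∧ j ≤ p.natDegree ∧ p.coeff i ≠ 0 ∧ p.coeff j ≠ 0 ∧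
      v (p.coeff i) * v x ^ i = v (p.coeff j) * v x ^ j := by
  classical
  obtain ⟨k, hk, hmax⟩ := Finset.exists_max_image p.support (fun i => v (p.coeff i * x ^ i))
    (support_nonempty.2 hp)
  have hk0 : p.coeff k ≠ 0 := mem_support_iff.1 hk
  have hvk : v (p.coeff k * x ^ k) ≠ 0 :=
    (Valuation.ne_zero_iff v).2 (mul_ne_zero hk0 (pow_ne_zero _ hx))
  have hex : ∃ l ∈ p.support, l ≠ k ∧ v (p.coeff l * x ^ l) = v (p.coeff k * x ^ k) := by
    by_contra hne
    push Not at hne
    have hs : ∑ i ∈ p.support.erase k, p.coeff i * x ^ i = -(p.coeff k * x ^ k) := by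
      rw [eval_eq_sum, sum_def, ← Finset.add_sum_erase _ _ hk] at h0
      linear_combination h0
    have := v.map_sum_lt hvk (s := p.support.erase k) (f := fun i => p.coeff i * x ^ i)
      fun i hi => lt_of_le_of_ne (hmax i (Finset.mem_of_mem_erase hi))
        (hne i (Finset.mem_of_mem_erase hi) (Finset.ne_of_mem_erase hi))
    rw [hs, Valuation.map_neg] at this
    exact lt_irrefl _ this
  obtain ⟨l, hl, hlk, he⟩ := hex
  simp only [map_mul, map_pow] at he
  rcases lt_or_gt_of_ne hlk with h | h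
  · exact ⟨l, k, h, le_natDegree_of_mem_supp _ hk, mem_support_iff.1 hl, hk0, he⟩
  · exact ⟨k, l, h, le_natDegree_of_mem_supp _ hl, hk0, mem_support_iff.1 hl, he.symm⟩

/-- IDX -/
theorem idx {p : Om[X]} (hp : p ≠ 0) (hF : ∀ i, p.coeff i ∈ F) {D : ℕ} (hD : p.natDegree ≤ D) {x : Om}
    (h0 : p.eval x = 0) : ∃ f ∈ F, v x ^ D.factorial = v f := by
  by_cases hx : x = 0
  · exact ⟨0, F.zero_mem, by rw [hx, map_zero, zero_pow (Nat.factorial_ne_zero D)]⟩
  obtain ⟨i, j, hij, hj, hi0, hj0, he⟩ := exists_two_terms (v := v) hp hx h0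
  obtain ⟨k, hk⟩ : (j - i) ∣ D.factorial := Nat.dvd_factorial (by omega) (by omega)
  have hvx : v x ≠ 0 := (Valuation.ne_zero_iff v).2 hx
  have hvj : v (p.coeff j) ≠ 0 := (Valuation.ne_zero_iff v).2 hj0
  have h1 : v x ^ (j - i) = v (p.coeff i / p.coeff j) := by
    rw [map_div₀, eq_div_iff hvj]
    have : v x ^ j = v x ^ (j - i) * v x ^ i := by rw [← pow_add, Nat.sub_add_cancel hij.le]
    rw [this, ← mul_assoc] at he
    rw [mul_right_cancel₀ (pow_ne_zero i hvx) he, mul_comm]
  exact ⟨(p.coeff i / p.coeff j) ^ k, F.pow_mem (F.div_mem (hF i) (hF j)) k,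
    by rw [hk, pow_mul, h1, map_pow]⟩

/-- IDX for an element algebraic of degree at most `D` -/
theorem idx_minpoly {x : Om} (hx : IsAlgebraic F x) {D : ℕ} (hD : (minpoly F x).natDegree ≤ D) :
    ∃ f ∈ F, v x ^ D.factorial = v f := by
  refine idx (p := (minpoly F x).map F.subtype) ?_ (fun i => by rw [coeff_map]; exact ((minpoly F x).coeff i).2) ?_ ?_
  · exact ((minpoly.monic hx.isIntegral).map _).ne_zero
  · exact natDegree_map_le.trans hD
  · rw [eval_map]
    exact minpoly.aeval F x

/-- IDX for a finite extension `F ≤ F'` of degree at most `D` -/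
theorem idx_finrank {N : IntermediateField F Om} [FiniteDimensional F N] {D : ℕ}
    (hD : Module.finrank F N ≤ D) {x : Om} (hx : x ∈ N) : ∃ f ∈ F, v x ^ D.factorial = v f := by
  have halg : IsAlgebraic F (⟨x, hx⟩ : N) := Algebra.IsAlgebraic.isAlgebraic _
  have h1 : minpoly F x = minpoly F (⟨x, hx⟩ : N) :=
    minpoly.algebraMap_eq (algebraMap N Om).injective (⟨x, hx⟩ : N)
  refine idx_minpoly (IntermediateField.isAlgebraic_iff.1 halg) ?_
  rw [h1]
  exact (minpoly.natDegree_le _).trans hD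

/-- a uniform exponent exists for every finite extension -/
theorem idx_exists (N : IntermediateField F Om) [FiniteDimensional F N] :
    ∃ e : ℕ, 0 < e ∧ ∀ (G : Type*) [LinearOrderedCommGroupWithZero G] (v : Valuation Om G),
      ∀ x ∈ N, ∃ f ∈ F, v x ^ e = v f :=
  ⟨_, Nat.factorial_pos (Module.finrank F N), fun _ _ _ _ hx => idx_finrank le_rfl hx⟩

end Pool.Agent.Lib.MP_5c318e_ag
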