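import Mathlib

/-! LIFT: conjugates over `E` are conjugate over every field in which `E` is algebraically
closed, e.g. over a purely transcendental extension. -/

open Polynomial

namespace Pool.Agent.Lib.MP_5c318e_ag

variable {Om : Type*} [Field Om]

theorem Lift_closure (F : Subfield Om) (S : Set Om) :
    Subfield.closure ((F : Set Om) ∪ S) = (IntermediateField.adjoin F S).toSubfield := by
  change _ = Subfield.closure (Set.range (algebraMap F Om) ∪ S)
  have : Set.range (algebraMap F Om) = (F : Set Om) := Subtype.range_coe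
  rw [this]

theorem isAlgebraic_of_le {E F : Subfield Om} (h : E ≤ F) {c : Om} (hc : IsAlgebraic E c) :
    IsAlgebraic F c := by
  obtain ⟨p, hp, h0⟩ := hc
  refine ⟨p.map (Subfield.inclusion h), (Polynomial.map_ne_zero_iff ?_).2 hp, ?_⟩
  · exact (Subfield.inclusion h).injective
  · rw [aeval_def, eval₂_map]
    exact h0

/-- the minimal polynomial does not change if `E` is algebraically closed in `F` -/
theorem Lift_minpoly_eq {E F : Subfield Om} (h : E ≤ F)
    (hcl : ∀ y ∈ F, IsAlgebraic E y → y ∈ E) {c : Om} (hc : IsAlgebraic E c) :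
    (minpoly F c).map F.subtype = (minpoly E c).map E.subtype := by
  have hcF := isAlgebraic_of_le h hc
  have hmF : ((minpoly F c).map F.subtype).Monic := (minpoly.monic hcF.isIntegral).map _
  have hmE : ((minpoly E c).map E.subtype).Monic := (minpoly.monic hc.isIntegral).map _
  have hdvd : (minpoly F c).map F.subtype ∣ (minpoly E c).map (algebraMap E Om) := by
    have h1 : minpoly F c ∣ (minpoly E c).map (Subfield.inclusion h) := by
      refine minpoly.dvd F c ?_
      rw [aeval_def, eval₂_map]
      exact minpoly.aeval E c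
    have h2 := Polynomial.map_dvd F.subtype h1
    rwa [Polynomial.map_map] at h2
  have hl := integralClosure.mem_lifts_of_monic_of_dvd_map Om (minpoly.monic hc.isIntegral) hmF hdvd
  have hl' : (minpoly F c).map F.subtype ∈ lifts E.subtype := by
    rw [lifts_iff_coeff_lifts] at hl ⊢
    intro n
    obtain ⟨y, hy⟩ := hl n
    have hint : IsIntegral E (((minpoly F c).map F.subtype).coeff n) := hy ▸ y.2
    refine ⟨⟨_, hcl _ ?_ hint.isAlgebraic⟩, rfl⟩
    rw [coeff_map]
    exact ((minpoly F c).coeff n).2
  obtain ⟨q, hq⟩ := (mem_lifts _).1 hl'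
  have h3 : minpoly E c ∣ q := by
    refine minpoly.dvd E c ?_
    have : aeval c q = (q.map E.subtype).eval c := by
      rw [eval_map]
      rfl
    rw [this, hq, eval_map]
    exact minpoly.aeval F c
  have h4 := Polynomial.map_dvd E.subtype h3
  rw [hq] at h4
  exact eq_of_monic_of_associated hmF hmE (associated_of_dvd_dvd hdvd h4)

/-- conjugates over `F` are moved to each other by an automorphism of `Om` fixing `F` -/
theorem exists_aut_of_root [IsAlgClosed Om] {F : Subfield Om} (hal : ∀ y : Om, IsAlgebraic F y)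
    {c c2 : Om} (h2 : aeval c2 (minpoly F c) = 0) :
    ∃ g : Om ≃+* Om, (∀ y ∈ F, g y = y) ∧ g c = c2 := by
  have : Algebra.IsAlgebraic F Om := ⟨hal⟩
  have : IsAlgClosure F Om := ⟨inferInstance, inferInstance⟩
  obtain ⟨s, hs⟩ := minpoly.exists_algEquiv_of_root' (hal c) h2
  exact ⟨s.toRingEquiv, fun y hy => s.commutes ⟨y, hy⟩, hs⟩

/-- LIFT, general form -/
theorem lift_gen [IsAlgClosed Om] {E F : Subfield Om} (h : E ≤ F)
    (hcl : ∀ y ∈ F, IsAlgebraic E y → y ∈ E) (hal : ∀ y : Om, IsAlgebraic F y) {c c2 : Om}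
    (hc : IsAlgebraic E c) (h2 : aeval c2 (minpoly E c) = 0) :
    ∃ g : Om ≃+* Om, (∀ y ∈ F, g y = y) ∧ g c = c2 := by
  refine exists_aut_of_root hal ?_
  have e1 : aeval c2 (minpoly F c) = ((minpoly F c).map F.subtype).eval c2 := by
    rw [eval_map]
    rfl
  rw [e1, Lift_minpoly_eq h hcl hc, eval_map]
  exact h2

/-- `E` is algebraically closed in `E(x)` -/
theorem mem_of_isAlgebraic_adjoin {E : Subfield Om} {x : Om} (hx : Transcendental E x) {y : Om}
    (hy : y ∈ Subfield.closure ((E : Set Om) ∪ {x})) (ha : IsAlgebraic E y) : y ∈ E := by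
  rw [Lift_closure] at hy
  obtain ⟨u, hu⟩ := (RatFunc.algEquivOfTranscendental x hx).surjective ⟨y, hy⟩
  by_cases hC : ∃ c, u = RatFunc.C c
  · obtain ⟨c, rfl⟩ := hC
    have h1 := (RatFunc.algEquivOfTranscendental x hx).commutes c
    rw [RatFunc.algebraMap_eq_C, hu] at h1
    have h2 : y = (c : Om) := congrArg Subtype.val h1
    rw [h2]
    exact c.2
  · exfalso
    refine RatFunc.transcendental_of_ne_C u hC ?_
    have h1 : IsAlgebraic E (⟨y, hy⟩ : IntermediateField.adjoin E {x}) :=
      IntermediateField.isAlgebraic_iff.2 ha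
    rw [← hu] at h1
    exact (isAlgebraic_algHom_iff (RatFunc.algEquivOfTranscendental x hx).toAlgHom
      (RatFunc.algEquivOfTranscendental x hx).injective).1 h1

/-- LIFT -/
theorem LIFT [IsAlgClosed Om] {E : Subfield Om} {x : Om} (hx : Transcendental E x)
    (hal : ∀ y : Om, IsAlgebraic (Subfield.closure ((E : Set Om) ∪ {x})) y) {c c2 : Om}
    (hc : IsAlgebraic E c) (h2 : aeval c2 (minpoly E c) = 0) :
    ∃ g : Om ≃+* Om, (∀ y ∈ E, g y = y) ∧ g x = x ∧ g c = c2 := by
  have hle : E ≤ Subfield.closure ((E : Set Om) ∪ {x}) := fun y hy =>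
    Subfield.subset_closure (Or.inl hy)
  obtain ⟨g, hg, hgc⟩ := lift_gen hle (fun y hy => mem_of_isAlgebraic_adjoin hx hy) hal hc h2
  exact ⟨g, fun y hy => hg y (hle hy), hg x (Subfield.subset_closure (Or.inr rfl)), hgc⟩

/-- `E` is algebraically closed in `E(s)` for an algebraically independent family `s` -/
theorem mem_of_isAlgebraic_indep {ι : Type*} {E : Subfield Om} {s : ι → Om}
    (hs : AlgebraicIndependent E s) {y : Om}
    (hy : y ∈ Subfield.closure ((E : Set Om) ∪ Set.range s)) (ha : IsAlgebraic E y) : y ∈ E := by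
  classical
  have hfin : ∀ T : Finset ι, y ∈ Subfield.closure ((E : Set Om) ∪ s '' T) → y ∈ E := by
    intro T
    induction T using Finset.induction_on with
    | empty =>
      intro h
      simpa using h
    | insert a T haT ih =>
      intro h
      have htr : Transcendental (IntermediateField.adjoin E (s '' T)) (s a) :=
        IntermediateField.transcendental_adjoin_iff.2
          (hs.transcendental_adjoin (by simpa using haT))
      have hle : E ≤ (IntermediateField.adjoin E (s '' T)).toSubfield := by
        rw [← Lift_closure]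
        exact fun z hz => Subfield.subset_closure (Or.inl hz)
      refine ih ?_
      rw [Lift_closure]
      refine mem_of_isAlgebraic_adjoin (E := (IntermediateField.adjoin E (s '' T)).toSubfield)
        htr ?_ (isAlgebraic_of_le hle ha)
      refine Subfield.closure_le.2 ?_ h
      rintro z (hz | ⟨i, hi, rfl⟩)
      · exact Subfield.subset_closure (Or.inl (hle hz))
      · rcases Finset.mem_insert.1 (Finset.mem_coe.1 hi) with rfl | hi
        · exact Subfield.subset_closure (Or.inr rfl)
        · exact Subfield.subset_closure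
            (Or.inl (IntermediateField.subset_adjoin E _ ⟨i, hi, rfl⟩))
  rw [Lift_closure] at hy
  obtain ⟨T, hT, hyT⟩ := IntermediateField.exists_finset_of_mem_adjoin hy
  obtain ⟨T', hT'⟩ := Finset.subset_set_image_iff.1 (Set.image_univ ▸ hT : (T : Set Om) ⊆ s '' Set.univ)
  refine hfin T' ?_
  rw [Lift_closure, ← Finset.coe_image, hT'.2]
  exact hyT

/-- an automorphism fixing `E` and `x` fixes `E(x)` -/
theorem fix_closure {S : Set Om} {g : Om ≃+* Om} (h : ∀ y ∈ S, g y = y) {y : Om}
    (hy : y ∈ Subfield.closure S) : g y = y :=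
  (Subfield.closure_le (t := RingHom.eqLocusField (g : Om →+* Om) (RingHom.id Om))).2 h hy

/-- an element fixed by all automorphisms over `F` lies in `F` (characteristic zero) -/
theorem Lift_mem_of_fixed [IsAlgClosed Om] [CharZero Om] {F : Subfield Om}
    (hal : ∀ y : Om, IsAlgebraic F y) {c : Om}
    (h : ∀ g : Om ≃+* Om, (∀ y ∈ F, g y = y) → g c = c) : c ∈ F := by
  have : Algebra.IsAlgebraic F Om := ⟨hal⟩
  have : IsAlgClosure F Om := ⟨inferInstance, inferInstance⟩
  have : IsGalois F Om := {}
  obtain ⟨y, hy⟩ := (InfiniteGalois.mem_range_algebraMap_iff_fixed (k := F) c).2 fun s =>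
    h s.toRingEquiv fun y hy => s.commutes ⟨y, hy⟩
  exact hy ▸ y.2

end Pool.Agent.Lib.MP_5c318e_ag
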