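import Pool.Agent.Lib.MP_5c318e_ag.Frm
import Pool.Agent.Lib.MP_5c318e_ag.Idx
import Pool.Agent.Lib.MP_5c318e_ag.Lift

/-! Shared facts on the context: frames, automorphisms over `Ex`, the coordinate `zz`. -/

namespace Pool.Agent.Lib.MP_5c318e_ag

open scoped Classical NNReal

variable {Om : Type} [Field Om] [Algebra ℂ Om]

namespace Ctx0

variable (X : Ctx0 Om)

theorem L_le_E : X.L ≤ X.E := le_sup_left
theorem Kp_le_E : X.Kp ≤ X.E := le_sup_right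
theorem E_le_Eb : X.E ≤ X.Eb := le_acl _
theorem E_le_Ex : X.E ≤ X.Ex := le_adj _ _
theorem x_mem_Ex : X.x ∈ X.Ex := mem_adj _ rfl
theorem C0_le_E : C0 Om ≤ X.E := X.c0Kp.trans X.Kp_le_E
theorem C0_le_Kb : C0 Om ≤ X.Kb := X.frK.le.trans (le_acl _)
theorem Kp_le_Kb : X.Kp ≤ X.Kb := X.Kp_le
theorem E_le_N : X.E ≤ X.N := X.E_le_Ex.trans X.ExN
theorem x_mem_N : X.x ∈ X.N := X.ExN X.x_mem_Ex
theorem N_le_Mb : X.N ≤ X.Mb := le_sup_left.trans X.NM.le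
theorem M_le_Mb : X.M ≤ X.Mb := le_sup_left
theorem Ex_le_Mb : X.Ex ≤ X.Mb := X.ExN.trans X.N_le_Mb
theorem E_le_Mb : X.E ≤ X.Mb := X.E_le_N.trans X.N_le_Mb
theorem x_mem_Mb : X.x ∈ X.Mb := X.N_le_Mb X.x_mem_N
theorem a_mem_L (j : Fin X.n) : X.a j ∈ X.L := X.frA.mem j
theorem a_mem_Mb (j : Fin X.n) : X.a j ∈ X.Mb := X.E_le_Mb (X.L_le_E (X.a_mem_L j))
theorem R_mem_Eb {ρ : Om} (h : ρ ∈ X.R) : ρ ∈ X.Eb := X.ram.mem ρ h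
theorem E_le_E1 : X.E ≤ X.E1 := le_adj _ _
theorem R_mem_E1 {ρ : Om} (h : ρ ∈ X.R) : ρ ∈ X.E1 := mem_adj _ h
theorem E1_le_Eb : X.E1 ≤ X.Eb := adj_le X.E_le_Eb fun _ h => X.R_mem_Eb h
theorem N_le_N1 : X.N ≤ X.N1 := le_adj _ _
theorem Mb_le_Mb1 : X.Mb ≤ X.Mb1 := le_adj _ _
theorem E1_le_N1 : X.E1 ≤ X.N1 := adj_le (X.E_le_N.trans X.N_le_N1) fun _ h => mem_adj _ h
theorem N1_le_Mb1 : X.N1 ≤ X.Mb1 := adj_le (X.N_le_Mb.trans X.Mb_le_Mb1) fun _ h => mem_adj _ h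
theorem E1_le_F1 : X.E1 ≤ X.F1 := le_inf (X.E1_le_N1.trans X.N1_le_Mb1) X.E1_le_Eb
theorem Kb_le_F1 : X.Kb ≤ X.F1 := le_inf (X.Kb_le_Mb.trans X.Mb_le_Mb1) X.Kb_le_Eb
theorem F1_le_Eb : X.F1 ≤ X.Eb := inf_le_right
theorem F1_le_Mb1 : X.F1 ≤ X.Mb1 := inf_le_left
theorem acl_Eb : acl X.Eb = X.Eb := acl_acl _
theorem acl_Kb : acl X.Kb = X.Kb := acl_acl _
theorem alg_Mb (y : Om) : y ∈ acl X.Mb := acl_mono X.M_le_Mb (X.algM y)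

theorem frF : Frame X.Kb X.Mb X.dF fun o => o.elim X.x X.a :=
  ⟨X.frFt.c0, X.Kb_le_Mb, fun o => by
    rcases o with _ | j
    · exact X.x_mem_Mb
    · exact X.a_mem_Mb j, X.frFt.ind, le_top.trans X.frFt.alg, X.frFt.kill, X.frFt.dual⟩

theorem frKb : Frame (C0 Om) X.Kb X.dK X.s :=
  ⟨le_rfl, X.C0_le_Kb, fun i => le_acl _ (X.frK.mem i), X.frK.ind, acl_le X.frK.alg, X.frK.kill,
    X.frK.dual⟩

theorem frLb : Frame (C0 Om) (acl X.L) X.dA X.a :=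
  ⟨le_rfl, X.frA.le.trans (le_acl _), fun i => le_acl _ (X.frA.mem i), X.frA.ind,
    acl_le X.frA.alg, X.frA.kill, X.frA.dual⟩

theorem frMt : Frame (C0 Om) ⊤ X.dM X.u :=
  ⟨le_rfl, le_top, fun _ => Subfield.mem_top _, X.frM.ind,
    fun y _ => acl_le X.frM.alg (X.algM y), X.frM.kill, X.frM.dual⟩

theorem dx_kill {y : Om} (hy : y ∈ X.Eb) : X.dx y = 0 := X.dx_Eb hy

theorem dK_kill (i : Fin X.r) {y : Om} (hy : y ∈ acl X.L) : X.dK i y = 0 := X.dK_L i hy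

theorem x_not_mem : X.x ∉ X.Eb := fun h => X.x_sub_ne h (sub_self _)

theorem x_trans : Transcendental X.Eb X.x := fun h => X.x_not_mem (X.acl_Eb.le (mem_acl.2 h))

theorem x_trans_of {F : Subfield Om} (hF : F ≤ X.Eb) : Transcendental F X.x :=
  fun h => X.x_trans (isAlgebraic_of_le hF h)

theorem Eb_le_acl_Ex : X.Eb ≤ acl X.Ex := acl_mono X.E_le_Ex

theorem alg_Ex (y : Om) : y ∈ acl X.Ex := by
  refine acl_le (adj_le ((le_acl _).trans (X.Kb_le_Eb.trans X.Eb_le_acl_Ex)) ?_) (X.all_alg y)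
  rintro _ ⟨_ | j, rfl⟩
  · exact le_acl _ X.x_mem_Ex
  · exact le_acl _ (X.E_le_Ex (X.L_le_E (X.a_mem_L j)))

theorem isAlgebraic_Ex : Algebra.IsAlgebraic X.Ex Om := isAlgebraic_of_acl X.alg_Ex

theorem Ex_inf_Eb {y : Om} (h : y ∈ X.Ex) (h' : y ∈ X.Eb) : y ∈ X.E :=
  mem_of_isAlgebraic_adjoin (X.x_trans_of X.E_le_Eb) h (mem_acl.1 h')

theorem d_mem_Mb (i : X.iT) {y : Om} (hy : y ∈ X.Mb) : X.d i y ∈ X.Mb := by
  refine X.frT.der_mem (adj_le (X.C0_le_Kb.trans X.Kb_le_Mb) ?_)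
    (fun _ _ => le_acl _ (Subfield.mem_top _)) i hy
  rintro _ ⟨i | o, rfl⟩
  · exact X.Kb_le_Mb (X.frKb.mem i)
  · exact X.frF.mem o

theorem jacT_mem {f : X.iT → Om} (hf : ∀ i, f i ∈ X.Mb) : Jac X.d f ∈ X.Mb :=
  jac_mem_of fun a c => X.d_mem_Mb c (hf a)

theorem jacF_mem {f : X.iF → Om} (hf : ∀ i, f i ∈ X.Mb) : Jac X.dF f ∈ X.Mb :=
  jac_mem_of fun a _ => X.d_mem_Mb _ (hf a)

theorem jacA_mem {f : Fin X.n → Om} (hf : ∀ i, f i ∈ X.Mb) : Jac X.dA f ∈ X.Mb :=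
  jac_mem_of fun a _ => X.d_mem_Mb _ (hf a)

theorem dA_mem_Eb (j : Fin X.n) {y : Om} (hy : y ∈ X.Eb) : X.dA j y ∈ X.Eb :=
  X.frE.der_mem X.frE.adj_le (le_acl _) j hy

theorem jacA_mem_Eb {f : Fin X.n → Om} (hf : ∀ i, f i ∈ X.Eb) : Jac X.dA f ∈ X.Eb :=
  jac_mem_of fun a c => X.dA_mem_Eb c (hf a)

theorem jacA_mem_aclL {f : Fin X.n → Om} (hf : ∀ i, f i ∈ acl X.L) : Jac X.dA f ∈ acl X.L :=
  X.frLb.jac_mem X.frLb.adj_le (le_acl _) hf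

theorem jacK_mem_Kb {f : Fin X.r → Om} (hf : ∀ i, f i ∈ X.Kb) : Jac X.dK f ∈ X.Kb :=
  X.frKb.jac_mem X.frKb.adj_le (le_acl _) hf

theorem jacF_block {f : Fin X.n → Om} (hf : ∀ j, f j ∈ X.Eb) (h : Om) :
    Jac X.dF (fun o => o.elim h f) = Jac X.dA f * X.dx h := by
  rw [X.jac_F h hf, mul_comm]

theorem jacT_block {g : Fin X.r → Om} (hg : ∀ i, g i ∈ X.Kb) (f : X.iF → Om) :
    Jac X.d (Sum.elim g f) = Jac X.dK g * Jac X.dF f := X.jac_KF hg f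

theorem aut_E (g : Om ≃ₐ[X.Ex] Om) {y : Om} (h : y ∈ X.E) : g y = y := aut_fix _ g (X.E_le_Ex h)

theorem aut_x (g : Om ≃ₐ[X.Ex] Om) : g X.x = X.x := aut_fix _ g X.x_mem_Ex

theorem aut_R (g : Om ≃ₐ[X.Ex] Om) {ρ : Om} (h : ρ ∈ X.R) : g ρ ∈ X.R := X.ram.stab g ρ h

theorem aut_Kb (g : Om ≃ₐ[X.Ex] Om) {y : Om} (h : y ∈ X.Kb) : g y ∈ X.Kb :=
  X.aclKp.le (aut_acl g (aut_mem g (X.Kp_le_E.trans X.E_le_Ex)) (X.aclKp.ge h))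

theorem aut_aclL (g : Om ≃ₐ[X.Ex] Om) {y : Om} (h : y ∈ acl X.L) : g y ∈ acl X.L :=
  aut_acl g (aut_mem g (X.L_le_E.trans X.E_le_Ex)) h

theorem aut_Eb (g : Om ≃ₐ[X.Ex] Om) {y : Om} (h : y ∈ X.Eb) : g y ∈ X.Eb :=
  aut_acl g (aut_mem g X.E_le_Ex) h

theorem aut_Mb (g : Om ≃ₐ[X.Ex] Om) {y : Om} (h : y ∈ X.Mb) : g y ∈ X.Mb :=
  aut_sup g (fun c hc => X.N_le_Mb (X.norN g c hc)) (fun _ hc => X.Kb_le_Mb (X.aut_Kb g hc))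
    (X.NM.ge h)

theorem aut_E1 (g : Om ≃ₐ[X.Ex] Om) {y : Om} (h : y ∈ X.E1) : g y ∈ X.E1 :=
  aut_adj g (fun c hc => X.E_le_E1 (aut_mem g X.E_le_Ex c hc))
    (fun _ hc => X.R_mem_E1 (X.aut_R g hc)) h

theorem aut_N1 (g : Om ≃ₐ[X.Ex] Om) {y : Om} (h : y ∈ X.N1) : g y ∈ X.N1 :=
  aut_adj g (fun c hc => X.N_le_N1 (X.norN g c hc)) (fun _ hc => mem_adj _ (X.aut_R g hc)) h

theorem aut_Mb1 (g : Om ≃ₐ[X.Ex] Om) {y : Om} (h : y ∈ X.Mb1) : g y ∈ X.Mb1 :=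
  aut_adj g (fun _ hc => X.Mb_le_Mb1 (X.aut_Mb g hc)) (fun _ hc => mem_adj _ (X.aut_R g hc)) h

theorem aut_F1 (g : Om ≃ₐ[X.Ex] Om) {y : Om} (h : y ∈ X.F1) : g y ∈ X.F1 :=
  ⟨X.aut_Mb1 g h.1, X.aut_Eb g h.2⟩

theorem aut_dF (g : Om ≃ₐ[X.Ex] Om) (o : X.iF) (y : Om) : X.dF o (g y) = g (X.dF o y) := by
  have : CharZero Om := charZero_of_algebra
  refine frame_comm X.dF X.frFt.kill X.frFt.dual g.toRingEquiv (fun _ hc => X.aut_Kb g hc) ?_ o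
    (mem_acl.1 (X.frFt.alg (Subfield.mem_top y)))
  rintro (_ | j)
  · exact X.aut_x g
  · exact X.aut_E g (X.L_le_E (X.a_mem_L j))

theorem aut_be (g : Om ≃ₐ[X.Ex] Om) (ρ ρ' : Om) : g (X.be ρ ρ') = X.be (g ρ) (g ρ') := by
  simp only [be, map_sub, map_inv₀, X.aut_x g]

theorem aut_zz (g : Om ≃ₐ[X.Ex] Om) (a b c : Om) :
    g (X.zz a b c) = X.zz (g a) (g b) (g c) := by
  simp only [zz, map_div₀, X.aut_be g]

theorem RegF.aut {X : Ctx0 Om} {m : ℕ} {ψ : Om} (h : X.RegF m ψ) (g : Om ≃ₐ[X.Ex] Om) :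
    X.RegF m (g ψ) :=
  Reg.aut (fun g _ hc => X.aut_Kb g hc) (fun g _ hc => X.aut_Mb g hc) X.aut_dF h g

theorem be_mem {F : Subfield Om} (hx : X.x ∈ F) {a b : Om} (ha : a ∈ F) (hb : b ∈ F) :
    X.be a b ∈ F :=
  F.sub_mem (F.inv_mem (F.sub_mem hx ha)) (F.inv_mem (F.sub_mem hx hb))

theorem zz_mem {F : Subfield Om} (hx : X.x ∈ F) {a b c : Om} (ha : a ∈ F) (hb : b ∈ F)
    (hc : c ∈ F) : X.zz a b c ∈ F :=
  F.div_mem (X.be_mem hx hb hc) (X.be_mem hx hb ha)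

theorem zz_eq {a b c : Om} (ha : a ∈ X.Eb) (hb : b ∈ X.Eb) (hc : c ∈ X.Eb) (hab : a ≠ b) :
    X.zz a b c = (b - c) / (b - a) * ((X.x - a) / (X.x - c)) := by
  have h1 := X.x_sub_ne ha
  have h2 := X.x_sub_ne hb
  have h3 := X.x_sub_ne hc
  have h4 : b - a ≠ 0 := sub_ne_zero.2 hab.symm
  rw [zz, X.be_eq hb hc, X.be_eq hb ha]
  field_simp

theorem dx_zz {a b c : Om} (ha : a ∈ X.Eb) (hb : b ∈ X.Eb) (hc : c ∈ X.Eb) (hab : a ≠ b) :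
    X.dx (X.zz a b c) = X.zz a b c * X.be a c := by
  rw [X.zz_eq ha hb hc hab, Derivation.leibniz,
    X.dx_Eb (X.Eb.div_mem (X.Eb.sub_mem hb hc) (X.Eb.sub_mem hb ha)),
    div_eq_mul_inv (X.x - a), X.dx_ratio ha hc]
  simp only [smul_eq_mul]
  ring

theorem zz_ne {a b c : Om} (ha : a ∈ X.Eb) (hb : b ∈ X.Eb) (hc : c ∈ X.Eb) (hab : a ≠ b)
    (hbc : b ≠ c) : X.zz a b c ≠ 0 :=
  div_ne_zero (X.be_ne hb hc hbc) (X.be_ne hb ha hab.symm)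

theorem zz_not_mem {a b c : Om} (ha : a ∈ X.Eb) (hb : b ∈ X.Eb) (hc : c ∈ X.Eb) (hab : a ≠ b)
    (hbc : b ≠ c) (hac : a ≠ c) : X.zz a b c ∉ X.Eb := fun h => by
  have h1 := X.dx_Eb h
  rw [X.dx_zz ha hb hc hab] at h1
  exact mul_ne_zero (X.zz_ne ha hb hc hab hbc) (X.be_ne ha hc hac) h1

theorem zz_trans {a b c : Om} (ha : a ∈ X.Eb) (hb : b ∈ X.Eb) (hc : c ∈ X.Eb) (hab : a ≠ b)
    (hbc : b ≠ c) (hac : a ≠ c) : Transcendental X.Eb (X.zz a b c) :=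
  fun h => X.zz_not_mem ha hb hc hab hbc hac (X.acl_Eb.le (mem_acl.2 h))

theorem x_mem_zz {a b c : Om} {F : Subfield Om} (hF : F ≤ X.Eb) (ha : a ∈ F) (hb : b ∈ F)
    (hc : c ∈ F) (hab : a ≠ b) (hbc : b ≠ c) (hac : a ≠ c) : X.x ∈ adj F {X.zz a b c} := by
  have hk : (b - c) / (b - a) ∈ F := F.div_mem (F.sub_mem hb hc) (F.sub_mem hb ha)
  have hz := X.zz_eq (hF ha) (hF hb) (hF hc) hab
  have hn : X.zz a b c - (b - c) / (b - a) ≠ 0 := fun e =>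
    X.zz_not_mem (hF ha) (hF hb) (hF hc) hab hbc hac (by rw [sub_eq_zero.1 e]; exact hF hk)
  have h3 := X.x_sub_ne (hF hc)
  have hzm : X.zz a b c ∈ adj F {X.zz a b c} := mem_adj _ rfl
  generalize (b - c) / (b - a) = k at hk hz hn
  have e : X.x = (X.zz a b c * c - k * a) / (X.zz a b c - k) := by
    rw [eq_div_iff hn, hz]
    field_simp
    ring
  rw [e]
  exact Subfield.div_mem _ (sub_mem (mul_mem hzm (le_adj _ _ hc))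
    (mul_mem (le_adj _ _ hk) (le_adj _ _ ha))) (sub_mem hzm (le_adj _ _ hk))

theorem idx_Mb1 : ∃ D : ℕ, 0 < D ∧ ∀ v : RV Om, ∀ y ∈ X.Mb1, ∃ f ∈ X.Mb, v y ^ D = v f := by
  have : FiniteDimensional X.Mb (IntermediateField.adjoin X.Mb (X.R : Set Om)) :=
    IntermediateField.finiteDimensional_adjoin fun y _ => (mem_acl.1 (X.alg_Mb y)).isIntegral
  obtain ⟨D, hD, h⟩ := idx_exists (IntermediateField.adjoin X.Mb (X.R : Set Om))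
  refine ⟨D, hD, fun v y hy => h _ v y ?_⟩
  have h2 : y ∈ (IntermediateField.adjoin X.Mb (X.R : Set Om)).toSubfield := by
    rw [← Lift_closure]; exact hy
  exact h2

theorem lE_le' {v : RV Om} (hv : BddBelow (X.YE v)) {f : Fin X.n → Om} (hf : ∀ j, f j ∈ X.Eb)
    (hJ : Jac X.dA f ≠ 0) : X.lE v ≤ w v (Jac X.dA f) - ∑ j, w v (f j) :=
  csInf_le hv ⟨f, hf, hJ, rfl⟩

theorem lx_le' {v : RV Om} (hv : BddBelow (X.YX v)) {h : Om} (hh : X.dx h ≠ 0) :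
    X.lx v ≤ w v (X.dx h) - w v h :=
  csInf_le hv ⟨h, hh, rfl⟩

theorem YE_triv {v : RV Om} (hv : Triv v X.E) : X.YE v = {0} := by
  refine Set.eq_singleton_iff_nonempty_unique_mem.2 ⟨X.YE_nonempty v, ?_⟩
  rintro _ ⟨f, hf, -, rfl⟩
  rw [hv.toAcl.w_eq (X.jacA_mem_Eb hf), Finset.sum_eq_zero fun j _ => hv.toAcl.w_eq (hf j),
    sub_zero]

theorem lE_zero {v : RV Om} (hv : Triv v X.E) : X.lE v = 0 := by
  rw [lE, X.YE_triv hv, csInf_singleton]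

theorem A_zero {v : RV Om} (hv : Triv v X.E) : X.A v = 0 := by
  rw [A, X.lE_zero hv, hv.w_eq X.g0E, zero_div, sub_zero]

theorem Pt.triv {X : Ctx0 Om} (P : X.Pt) : Triv P.v (C0 Om) := P.div.triv

theorem Pt.p_pos {X : Ctx0 Om} (P : X.Pt) : 0 < P.p := pt_p_pos P

theorem Pt.jac_ne {X : Ctx0 Om} (P : X.Pt) : Jac X.d P.b ≠ 0 := pt_jac_ne P

variable [IsAlgClosed Om]

theorem Pt.good {X : Ctx0 Om} (P : X.Pt) : X.Good P.v := pt_good P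

theorem Pt.block {X : Ctx0 Om} (P : X.Pt) (f : Fin X.r → Om) (hf : ∀ i, f i ∈ X.Kb)
    (hJ : Jac X.dK f ≠ 0) :
    P.can - P.p ≤ w P.v (Jac X.dK f) - ∑ i, w P.v (f i) + X.lE P.v + X.lx P.v :=
  pt_block P hf hJ

theorem Pt.vert {X : Ctx0 Om} (P : X.Pt) (hv : ¬ Triv P.v X.K) {m : ℕ} {η : Om}
    (h : Reg (C0 Om) X.K X.dK m η) : Ge P.v η (m * (P.can - X.lE P.v - X.lx P.v)) :=
  pt_vert P hv h

theorem Pt.hor {X : Ctx0 Om} (P : X.Pt) (hv : Triv P.v X.K) :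
    P.can - P.p ≤ X.lE P.v + X.lx P.v ∧ Grp P.v X.Mb (P.b P.i0) :=
  ⟨pt_hor P hv, pt_hor_grp P hv⟩

end Ctx0

end Pool.Agent.Lib.MP_5c318e_ag
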