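import Mathlib

/-!
Toolkit SYM and DESC: conditions that hold for all conjugates of an element pass to the
coefficients of its minimal polynomial.
-/

namespace Pool.Agent.Lib.MP_5c318e_ag

open Polynomial

variable {Om : Type*} [Field Om]

theorem isGalois_of_alg [IsAlgClosed Om] [CharZero Om] (F : Subfield Om)
    (halg : Algebra.IsAlgebraic F Om) : IsGalois F Om := by
  have : IsAlgClosure F Om := ⟨inferInstance, halg⟩
  infer_instance

theorem mem_of_fixed [IsAlgClosed Om] [CharZero Om] (F : Subfield Om)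
    (halg : Algebra.IsAlgebraic F Om) (y : Om) (h : ∀ σ : Om ≃ₐ[F] Om, σ y = y) : y ∈ F := by
  have := isGalois_of_alg F halg
  obtain ⟨f, rfl⟩ := (InfiniteGalois.mem_range_algebraMap_iff_fixed (k := F) y).2 h
  exact f.2

theorem aut_fix (F : Subfield Om) (σ : Om ≃ₐ[F] Om) {f : Om} (hf : f ∈ F) : σ f = f :=
  σ.commutes ⟨f, hf⟩

theorem graded_coeff_prod (R : ℕ → AddSubgroup Om) (h1 : (1 : Om) ∈ R 0)
    (hmul : ∀ a b x y, x ∈ R a → y ∈ R b → x * y ∈ R (a + b)) (m : ℕ) (s : Multiset Om)
    (hs : ∀ r ∈ s, r ∈ R m) (i : ℕ) :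
    (s.map fun r => X - C r).prod.coeff i ∈ R ((Multiset.card s - i) * m) := by
  induction s using Multiset.induction_on generalizing i with
  | empty =>
    rcases i with _ | i
    · simpa using h1
    · simp [coeff_one]
  | cons a s ih =>
    have ha : a ∈ R m := hs a (Multiset.mem_cons_self _ _)
    have ih' := ih fun r hr => hs r (Multiset.mem_cons_of_mem hr)
    rw [Multiset.map_cons, Multiset.prod_cons, Multiset.card_cons, sub_mul, coeff_sub, coeff_C_mul]
    have hlast : ∀ j, a * (s.map fun r => X - C r).prod.coeff j ∈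
        R ((Multiset.card s + 1 - j) * m) := by
      intro j
      by_cases hj : j ≤ Multiset.card s
      · have := hmul _ _ _ _ ha (ih' j)
        have he : m + (Multiset.card s - j) * m = (Multiset.card s + 1 - j) * m := by
          rw [Nat.succ_sub hj, Nat.succ_mul, add_comm]
        rwa [he] at this
      · have : (s.map fun r => X - C r).prod.coeff j = 0 := by
          apply coeff_eq_zero_of_natDegree_lt
          rw [natDegree_multiset_prod_X_sub_C_eq_card]
          omega
        rw [this, mul_zero]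
        exact zero_mem _
    refine sub_mem ?_ (hlast i)
    rcases i with _ | i
    · rw [coeff_X_mul_zero]
      exact zero_mem _
    · rw [coeff_X_mul, Nat.add_sub_add_right]
      exact ih' i

theorem minpoly_map_eq [IsAlgClosed Om] (F : Subfield Om) (halg : Algebra.IsAlgebraic F Om)
    (y : Om) :
    (minpoly F y).map (algebraMap F Om) =
      (((minpoly F y).map (algebraMap F Om)).roots.map fun r => X - C r).prod ∧
    Multiset.card ((minpoly F y).map (algebraMap F Om)).roots = (minpoly F y).natDegree := by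
  have hint : IsIntegral F y := (halg.isAlgebraic y).isIntegral
  have hm := (minpoly.monic hint).map (algebraMap F Om)
  have hs : ((minpoly F y).map (algebraMap F Om)).Splits := IsAlgClosed.splits _
  refine ⟨hs.eq_prod_roots_of_monic hm, ?_⟩
  rw [← hs.natDegree_eq_card_roots, natDegree_map]

theorem root_conj [IsAlgClosed Om] [CharZero Om] (F : Subfield Om)
    (halg : Algebra.IsAlgebraic F Om) (y r : Om)
    (hr : r ∈ ((minpoly F y).map (algebraMap F Om)).roots) : ∃ σ : Om ≃ₐ[F] Om, σ y = r := by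
  have := isGalois_of_alg F halg
  have h := (mem_roots'.1 hr).2
  rw [IsRoot.def, eval_map_algebraMap] at h
  exact minpoly.exists_algEquiv_of_root' (halg.isAlgebraic y) h

/-- SYM, graded form. -/
theorem sym_graded [IsAlgClosed Om] [CharZero Om] (F : Subfield Om)
    (halg : Algebra.IsAlgebraic F Om) (R : ℕ → AddSubgroup Om) (h1 : (1 : Om) ∈ R 0)
    (hmul : ∀ a b x y, x ∈ R a → y ∈ R b → x * y ∈ R (a + b)) (m : ℕ) (y : Om)
    (h : ∀ σ : Om ≃ₐ[F] Om, σ y ∈ R m) (i : ℕ) :
    ((minpoly F y).coeff i : Om) ∈ R (((minpoly F y).natDegree - i) * m) := by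
  obtain ⟨he, hc⟩ := minpoly_map_eq F halg y
  have := graded_coeff_prod R h1 hmul m ((minpoly F y).map (algebraMap F Om)).roots
    (fun r hr => by
      obtain ⟨σ, rfl⟩ := root_conj F halg y r hr
      exact h σ) i
  rw [← he, hc, coeff_map] at this
  exact this

/-- SYM: a subring containing all conjugates contains the coefficients of the minimal
polynomial. -/
theorem sym [IsAlgClosed Om] [CharZero Om] (F : Subfield Om)
    (halg : Algebra.IsAlgebraic F Om) (S : Subring Om) (y : Om)
    (h : ∀ σ : Om ≃ₐ[F] Om, σ y ∈ S) (i : ℕ) : ((minpoly F y).coeff i : Om) ∈ S :=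
  sym_graded F halg (fun _ => S.toAddSubgroup) S.one_mem
    (fun _ _ _ _ hx hy => S.mul_mem hx hy) 0 y h i

/-- A root of a monic relation whose coefficients are algebraic over `Q` is algebraic over `Q`. -/
theorem isAlgebraic_of_monic_rel (Q : Subfield Om) (P : Om[X]) (hP : P.Monic)
    (hc : ∀ i, IsAlgebraic Q (P.coeff i)) (y : Om) (hy : P.eval y = 0) : IsAlgebraic Q y := by
  let A := algebraicClosure Q Om
  have hl : P ∈ lifts (algebraMap A Om) := by
    rw [lifts_iff_coeff_lifts]
    intro i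
    exact ⟨⟨P.coeff i, mem_algebraicClosure_iff.2 (hc i)⟩, rfl⟩
  obtain ⟨P', hP', -, hm⟩ := lifts_and_degree_eq_and_monic hl hP
  have h1 : IsIntegral A y := ⟨P', hm, by rw [← eval_map, hP', hy]⟩
  have : Algebra.IsIntegral Q A := Algebra.IsAlgebraic.isIntegral
  exact (isIntegral_trans y h1).isAlgebraic

/-- SYM, consequence: if all conjugates of `y` lie in `S` and the elements of `F ∩ S` are
algebraic over `Q`, then `y` is algebraic over `Q`. -/
theorem sym_alg [IsAlgClosed Om] [CharZero Om] (F : Subfield Om)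
    (halg : Algebra.IsAlgebraic F Om) (S : Subring Om) (Q : Subfield Om)
    (hQ : ∀ c ∈ F, c ∈ S → IsAlgebraic Q c) (y : Om)
    (h : ∀ σ : Om ≃ₐ[F] Om, σ y ∈ S) : IsAlgebraic Q y := by
  have hint : IsIntegral F y := (halg.isAlgebraic y).isIntegral
  refine isAlgebraic_of_monic_rel Q ((minpoly F y).map (algebraMap F Om))
    ((minpoly.monic hint).map _) (fun i => ?_) y ?_
  · rw [coeff_map]
    exact hQ _ ((minpoly F y).coeff i).2 (sym F halg S y h i)
  · rw [eval_map_algebraMap, minpoly.aeval]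

/-- A common denominator: a nonzero element of `F` of the graded ring that is a multiple of `φ'`
with a cofactor all of whose conjugates are in the graded ring. -/
theorem desc_denom [IsAlgClosed Om] [CharZero Om] (F : Subfield Om)
    (halg : Algebra.IsAlgebraic F Om) (R : ℕ → AddSubgroup Om) (h1 : (1 : Om) ∈ R 0)
    (hmul : ∀ a b x y, x ∈ R a → y ∈ R b → x * y ∈ R (a + b)) (m : ℕ) (φ' : Om) (h0 : φ' ≠ 0)
    (h' : ∀ σ : Om ≃ₐ[F] Om, σ φ' ∈ R m) :
    ∃ (d : ℕ) (n : Om), n ∈ F ∧ n ≠ 0 ∧ n ∈ R (m + d * m) ∧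
      ∀ σ : Om ≃ₐ[F] Om, σ (n / φ') ∈ R (d * m) := by
  classical
  have hint : IsIntegral F φ' := (halg.isAlgebraic φ').isIntegral
  obtain ⟨he, hc⟩ := minpoly_map_eq F halg φ'
  set s := ((minpoly F φ').map (algebraMap F Om)).roots with hs
  have hsR : ∀ r ∈ s, r ∈ R m := fun r hr => by
    obtain ⟨σ, rfl⟩ := root_conj F halg φ' r hr
    exact h' σ
  have hpos : 0 < (minpoly F φ').natDegree := minpoly.natDegree_pos hint
  obtain ⟨d, hd⟩ : ∃ d, (minpoly F φ').natDegree = d + 1 := ⟨_, (Nat.succ_pred_eq_of_pos hpos).symm⟩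
  refine ⟨d, ((minpoly F φ').coeff 0 : Om), ((minpoly F φ').coeff 0).2, ?_, ?_, ?_⟩
  · have := minpoly.coeff_zero_ne_zero hint h0
    exact fun h => this (Subtype.ext h)
  · have := sym_graded F halg R h1 hmul m φ' h' 0
    rwa [hd, Nat.sub_zero, Nat.succ_mul, add_comm] at this
  · intro σ
    have hmem : σ φ' ∈ s := by
      rw [hs, mem_roots ((minpoly.monic hint).map _).ne_zero, IsRoot.def, eval_map_algebraMap,
        aeval_algHom_apply, minpoly.aeval, map_zero]
    obtain ⟨t, ht⟩ := Multiset.exists_cons_of_mem hmem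
    have hcard : Multiset.card t = d := by
      rw [ht, Multiset.card_cons, hd] at hc
      omega
    have hco : ((minpoly F φ').coeff 0 : Om) =
        -(σ φ') * (t.map fun r => X - C r).prod.coeff 0 := by
      have h2 := congrArg (fun P => coeff P 0) he
      simp only [coeff_map] at h2
      rw [ht, Multiset.map_cons, Multiset.prod_cons, mul_coeff_zero] at h2
      refine Eq.trans h2 ?_
      simp
    have hσ0 : σ φ' ≠ 0 := (map_ne_zero σ).2 h0
    have hval : σ (((minpoly F φ').coeff 0 : Om) / φ') =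
        -((t.map fun r => X - C r).prod.coeff 0) := by
      rw [map_div₀, aut_fix F σ ((minpoly F φ').coeff 0).2, hco]
      field_simp
    rw [hval]
    have := graded_coeff_prod R h1 hmul m t
      (fun r hr => hsR r (ht ▸ Multiset.mem_cons_of_mem hr)) 0
    rw [hcard, Nat.sub_zero] at this
    exact neg_mem this

theorem graded_pow (R : ℕ → AddSubgroup Om) (h1 : (1 : Om) ∈ R 0)
    (hmul : ∀ a b x y, x ∈ R a → y ∈ R b → x * y ∈ R (a + b)) {m : ℕ} {x : Om} (hx : x ∈ R m)
    (j : ℕ) : x ^ j ∈ R (j * m) := by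
  induction j with
  | zero => simpa using h1
  | succ j ih =>
    rw [pow_succ, Nat.succ_mul]
    exact hmul _ _ _ _ ih hx

/-- DESC: if all conjugates of `φ`, `φ'` over `F` lie in `R m`, then `φ / φ'` is algebraic over
any field over which the ratios of elements of `F ∩ R k` are algebraic. -/
theorem desc [IsAlgClosed Om] [CharZero Om] (F : Subfield Om)
    (halg : Algebra.IsAlgebraic F Om) (R : ℕ → AddSubgroup Om) (h1 : (1 : Om) ∈ R 0)
    (hmul : ∀ a b x y, x ∈ R a → y ∈ R b → x * y ∈ R (a + b)) (Q : Subfield Om) (m : ℕ)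
    (hQ : ∀ j p q, p ∈ F → q ∈ F → p ∈ R (j * m) → q ∈ R (j * m) → q ≠ 0 → IsAlgebraic Q (p / q))
    (φ φ' : Om) (h : ∀ σ : Om ≃ₐ[F] Om, σ φ ∈ R m) (h' : ∀ σ : Om ≃ₐ[F] Om, σ φ' ∈ R m) :
    IsAlgebraic Q (φ / φ') := by
  by_cases h0 : φ' = 0
  · rw [h0, div_zero]
    exact isAlgebraic_zero
  obtain ⟨d, n, hnF, hn0, hnR, hn⟩ := desc_denom F halg R h1 hmul m φ' h0 h'
  set ψ := φ * (n / φ') with hψ
  have hψR : ∀ σ : Om ≃ₐ[F] Om, σ ψ ∈ R (m + d * m) := fun σ => by
    rw [hψ, map_mul]
    exact hmul _ _ _ _ (h σ) (hn σ)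
  have hint : IsIntegral F ψ := (halg.isAlgebraic ψ).isIntegral
  have hm := (minpoly.monic hint).map (algebraMap F Om)
  have hrat : φ / φ' = n⁻¹ * ψ := by
    rw [hψ]
    field_simp
  rw [hrat]
  refine isAlgebraic_of_monic_rel Q (((minpoly F ψ).map (algebraMap F Om)).scaleRoots n⁻¹)
    ((monic_scaleRoots_iff _).2 hm) (fun i => ?_) _ ?_
  · rw [coeff_scaleRoots, coeff_map, natDegree_map, inv_pow, ← div_eq_mul_inv]
    have he : ((minpoly F ψ).natDegree - i) * (m + d * m) =
        (((minpoly F ψ).natDegree - i) * (d + 1)) * m := by ring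
    refine hQ (((minpoly F ψ).natDegree - i) * (d + 1)) _ _ ((minpoly F ψ).coeff i).2
      (pow_mem hnF _) ?_ ?_ (pow_ne_zero _ hn0)
    · rw [← he]
      exact sym_graded F halg R h1 hmul _ ψ hψR i
    · rw [← he]
      exact graded_pow R h1 hmul hnR _
  · rw [scaleRoots_eval_mul, eval_map_algebraMap, minpoly.aeval, mul_zero]

end Pool.Agent.Lib.MP_5c318e_ag
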