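import Pool.Agent.Lib.MP_5c318e_ag.RamC
import Pool.Agent.Lib.MP_5c318e_ag.Sym

/-! Valuations trivial on `E`: local bounds for regular forms and the bound `sum eps ≥ 2`. -/

namespace Pool.Agent.Lib.MP_5c318e_ag

open Polynomial
open scoped NNReal Classical

variable {Om : Type} [Field Om] [Algebra ℂ Om] [IsAlgClosed Om]

theorem exists_ram (E N : Subfield Om) (_hC : C0 Om ≤ E) (x0 : Om) (hx : Transcendental E x0)
    (halg : ∀ y : Om, y ∈ acl (adj E {x0})) (hN : adj E {x0} ≤ N)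
    (hfin : ∃ θ ∈ N, N = adj (adj E {x0}) {θ})
    (hnor : ∀ g : Om ≃ₐ[adj E {x0}] Om, ∀ y ∈ N, g y ∈ N) :
    ∃ (x : Om) (R : Finset Om) (e : Om → ℕ), adj E {x} = adj E {x0} ∧ Ram E N x R e := by
  have : CharZero Om := charZero_of_algebra
  obtain ⟨n, R, e, h1, -, h2⟩ := exists_Ram hx halg hN hfin hnor
  exact ⟨_, R, e, h1, h2⟩

namespace Ctx0

variable (X : Ctx0 Om)

theorem p1_fin {m : ℕ} {ψ : Om} (h : X.RegF m ψ) {v : RV Om} (hv : Triv v X.E) {ρ : Om}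
    (hρ : ρ ∈ X.Eb) (hx : v (X.x - ρ) < 1) :
    Ge v ψ (- (m * (1 - 1 / (X.e ρ : ℝ)) * w v (X.x - ρ))) := by
  rw [mul_assoc]
  exact (X.RL_of_RegF h v hv).1 ρ hρ hx

theorem p1_inf {m : ℕ} {ψ : Om} (h : X.RegF m ψ) {v : RV Om} (hv : Triv v X.E)
    (hx : 1 < v X.x) : Ge v ψ (- (2 * m * w v X.x)) :=
  (X.RL_of_RegF h v hv).2 hx

omit [IsAlgClosed Om] in
/-- away from the centre the linear forms are units -/
theorem p1_unit {v : RV Om} (hv : Triv v X.E) {ρ ρ' : Om} (hρ : ρ ∈ X.Eb) (hρ' : ρ' ∈ X.Eb)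
    (h : v (X.x - ρ) < 1) (hne : ρ' ≠ ρ) : v (X.x - ρ') = 1 := by
  have h5 : v (ρ - ρ') = 1 := hv.toAcl (ρ - ρ') (sub_mem hρ hρ') (sub_ne_zero.2 hne.symm)
  have h6 : v (X.x - ρ) < v (ρ - ρ') := by rw [h5]; exact h
  rw [show X.x - ρ' = (ρ - ρ') + (X.x - ρ) by ring, v.map_add_eq_of_lt_left h6, h5]

omit [IsAlgClosed Om] in
theorem p1_at_inf {v : RV Om} (hv : Triv v X.E) {ρ : Om} (hρ : ρ ∈ X.Eb) (h : 1 < v X.x) :
    v (X.x - ρ) = v X.x :=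
  v.map_sub_eq_of_lt_left ((hv.toAcl.le hρ).trans_lt h)

omit [IsAlgClosed Om] in
theorem p1_triv {v : RV Om} (hv : ∀ a, IsAlgebraic X.Eb a → a ≠ 0 → v a = 1) : Triv v X.E :=
  fun u hu => hv u (mem_acl.1 (le_acl X.Eb (le_acl X.E hu)))

omit [IsAlgClosed Om] in
theorem p1_mem {ρ : Om} (h : IsAlgebraic X.Eb ρ) : ρ ∈ X.Eb :=
  (acl_acl X.E).le (mem_acl.2 h)

/-- degree formula -/
theorem p1_deg {ψ : Om} (hψ : ψ ∈ adj X.Eb {X.x}) (h0 : ψ ≠ 0) (c : Om → ℕ) (d : ℝ)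
    (h1 : ∀ v : RV Om, Triv v X.E → ∀ ρ ∈ X.Eb, v (X.x - ρ) < 1 →
      - ((if ρ ∈ X.R then (c ρ : ℝ) else 0) * w v (X.x - ρ)) ≤ w v ψ)
    (h2 : ∀ v : RV Om, Triv v X.E → 1 < v X.x → - (d * w v X.x) ≤ w v ψ) :
    d ≤ ∑ ρ ∈ X.R, (c ρ : ℝ) := by
  have hx := ram_trans_acl X.ramc_trans
  have hne : ∀ ρ ∈ X.R, X.x - ρ ≠ 0 := fun ρ hρ => ram_sub_ne X.ramc_trans (X.ram.mem ρ hρ)
  have hP0 : ∏ ρ ∈ X.R, (X.x - ρ) ^ c ρ ≠ 0 :=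
    Finset.prod_ne_zero_iff.2 fun ρ hρ => pow_ne_zero _ (hne ρ hρ)
  obtain ⟨H, hH⟩ : ∃ H, H = ψ * ∏ ρ ∈ X.R, (X.x - ρ) ^ c ρ := ⟨_, rfl⟩
  have hH0 : H ≠ 0 := by rw [hH]; exact mul_ne_zero h0 hP0
  have hw : ∀ v : RV Om, w v H = w v ψ + ∑ ρ ∈ X.R, c ρ * w v (X.x - ρ) := fun v => by
    rw [hH, w_mul h0 hP0, w_prod _ _ fun ρ hρ => pow_ne_zero _ (hne ρ hρ)]
    congr 1
    exact Finset.sum_congr rfl fun ρ _ => w_pow _ _
  have hmem : H ∈ adj X.Eb {X.x} := by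
    rw [hH]
    have a1 : X.x ∈ adj X.Eb {X.x} := mem_adj _ rfl
    have a2 : X.Eb ≤ adj X.Eb {X.x} := le_adj _ _
    exact mul_mem hψ (prod_mem fun ρ hρ => pow_mem (sub_mem a1 (a2 (X.ram.mem ρ hρ))) _)
  have hint : ∀ (v : RV Om) (ρ : Om), (∀ a, IsAlgebraic X.Eb a → a ≠ 0 → v a = 1) →
      IsAlgebraic X.Eb ρ → v (X.x - ρ) < 1 → v H ≤ 1 := by
    intro v ρ hv hρ h
    have hρ' := X.p1_mem hρ
    have hvE := X.p1_triv hv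
    have h3 := h1 v hvE ρ hρ' h
    rw [← w_nonneg_iff hH0, hw]
    have h4 : ∑ ρ' ∈ X.R, c ρ' * w v (X.x - ρ') =
        (if ρ ∈ X.R then (c ρ : ℝ) else 0) * w v (X.x - ρ) := by
      have h5 : ∀ ρ' ∈ X.R, ρ' ≠ ρ → c ρ' * w v (X.x - ρ') = 0 := fun ρ' a b => by
        rw [w_of_eq_one (X.p1_unit hvE hρ' (X.ram.mem ρ' a) h b), mul_zero]
      split_ifs with h6
      · exact Finset.sum_eq_single_of_mem ρ h6 h5
      · rw [zero_mul]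
        exact Finset.sum_eq_zero fun ρ' a => h5 ρ' a fun b => h6 (b ▸ a)
    linarith
  obtain ⟨p, hp⟩ := POLY hx (fun y => mem_acl.1 (X.ramc_alg' y)) hmem hint
  obtain ⟨v, hv, h⟩ := ram_val_inf X.ramc_trans X.ramc_alg
  have hp0 : p ≠ 0 := fun h => hH0 (by rw [hp, h, map_zero])
  have hx0 : X.x ≠ 0 := fun h0 => by rw [h0, map_zero] at h; exact not_lt_zero h
  have hwx : w v X.x < 0 := (w_neg_iff hx0).2 h
  have h3 : w v H ≤ 0 := by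
    have h4 : v H = v (X.x ^ p.natDegree) := by
      rw [hp, map_pow]; exact val_inf v hv.toAcl h hp0
    rw [w_congr h4, w_pow]
    exact mul_nonpos_of_nonneg_of_nonpos (Nat.cast_nonneg _) hwx.le
  have h4 : ∑ ρ ∈ X.R, c ρ * w v (X.x - ρ) = (∑ ρ ∈ X.R, (c ρ : ℝ)) * w v X.x := by
    rw [Finset.sum_mul]
    exact Finset.sum_congr rfl fun ρ hρ => by rw [w_congr (X.p1_at_inf hv (X.ram.mem ρ hρ) h)]
  have h5 := h2 v hv h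
  rw [hw, h4] at h3
  refine le_of_mul_le_mul_right (a := - w v X.x) ?_ (neg_pos.2 hwx)
  linarith

/-- a nonzero regular form on the line forces `sum eps ≥ 2` -/
theorem sum_eps_RL {j : ℕ} (hj : 0 < j) {ψ : Om} (hψ : ψ ∈ adj X.Eb {X.x}) (h0 : ψ ≠ 0)
    (h : ψ ∈ X.RL j) : (2 : ℝ) ≤ ∑ ρ ∈ X.R, (1 - 1 / (X.e ρ : ℝ)) := by
  obtain ⟨n, hn⟩ : ∃ n, n = ∏ ρ ∈ X.R, X.e ρ := ⟨_, rfl⟩
  have hn0 : 0 < n := hn ▸ Finset.prod_pos fun ρ _ => X.ramc_e_pos ρ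
  have h6 : (0 : ℝ) < n := Nat.cast_pos.2 hn0
  have h7 : (0 : ℝ) < j := Nat.cast_pos.2 hj
  have hc : ∀ ρ ∈ X.R, ((j * (n - n / X.e ρ) : ℕ) : ℝ) = n * j * (1 - 1 / (X.e ρ : ℝ)) :=
    fun ρ hρ => by
      rw [Nat.cast_mul, Nat.cast_sub (Nat.div_le_self _ _),
        cast_div_eq (X.ramc_e_pos ρ) (hn ▸ Finset.dvd_prod_of_mem _ hρ)]
      ring
  have key := X.p1_deg (pow_mem hψ n) (pow_ne_zero n h0) (fun ρ => j * (n - n / X.e ρ))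
    (n * j * 2) (fun v hv ρ hρ h1 => by
      have h2 := mul_le_mul_of_nonneg_left ((h v hv).1 ρ hρ h1 h0) h6.le
      rw [w_pow]
      split_ifs with h3
      · rw [hc ρ h3]
        linarith
      · rw [X.ram.one ρ h3] at h2
        simpa using h2) (fun v hv h1 => by
      have h2 := mul_le_mul_of_nonneg_left ((h v hv).2 h1 h0) h6.le
      rw [w_pow]
      linarith)
  rw [Finset.sum_congr rfl hc, ← Finset.mul_sum] at key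
  exact le_of_mul_le_mul_left key (mul_pos h6 h7)

theorem sum2 {m : ℕ} (hm : 0 < m) {ψ : Om} (h0 : ψ ≠ 0) (h : X.RegF m ψ) :
    (2 : ℝ) ≤ ∑ i : X.R, (1 - 1 / (X.e i : ℝ)) := by
  have : CharZero Om := charZero_of_algebra
  obtain ⟨d, n, hn, hn0, hR, -⟩ := desc_denom X.Ex (isAlgebraic_of_acl X.ramc_alg) X.RL X.RL_one
    X.RL_mul m ψ h0 fun σ => X.RL_aut (X.RL_of_RegF h) σ
  rw [Finset.sum_coe_sort X.R fun ρ => 1 - 1 / (X.e ρ : ℝ)]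
  exact X.sum_eps_RL (by omega) (ram_adj_mono (le_acl _) _ hn) hn0 hR

end Ctx0

end Pool.Agent.Lib.MP_5c318e_ag
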