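import Mathlib

/-! Valuation toolkit: residual minimal polynomial (MINP) and unramified steps (UNR, UNRp). -/

set_option autoImplicit false

namespace Pool.Agent.Lib.MP_5c318e_ag

open Polynomial

noncomputable section

variable {Om G : Type*} [Field Om] [LinearOrderedCommGroupWithZero G]

/-- Polynomials over `Om` all of whose coefficients lie in `F` and are `v`-integral. -/
def PO (v : Valuation Om G) (F : Subfield Om) : Subring Om[X] :=
  liftsRing (F.toSubring ⊓ v.integer).subtype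

theorem mem_PO {v : Valuation Om G} {F : Subfield Om} {p : Om[X]} :
    p ∈ PO v F ↔ ∀ i, p.coeff i ∈ F ∧ v (p.coeff i) ≤ 1 := by
  unfold PO
  rw [← lifts_iff_liftsRing, lifts_iff_coeff_lifts]
  refine forall_congr' fun i => ⟨?_, fun h => ⟨⟨p.coeff i, h.1, h.2⟩, rfl⟩⟩
  rintro ⟨⟨a, ha⟩, h⟩
  have : a = p.coeff i := h
  subst this
  exact ⟨ha.1, ha.2⟩

theorem PO_divmod {v : Valuation Om G} {F : Subfield Om} {p q : Om[X]} (hp : p ∈ PO v F)
    (hq : q ∈ PO v F) (hm : q.Monic) : p %ₘ q ∈ PO v F ∧ p /ₘ q ∈ PO v F := by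
  unfold PO at *
  rw [← lifts_iff_liftsRing] at *
  obtain ⟨q0, rfl, -, hq0⟩ := lifts_and_degree_eq_and_monic hq hm
  obtain ⟨p0, rfl⟩ := (mem_lifts p).1 hp
  rw [← map_modByMonic _ hq0, ← map_divByMonic _ hq0, ← lifts_iff_liftsRing]
  exact ⟨(mem_lifts _).2 ⟨_, rfl⟩, (mem_lifts _).2 ⟨_, rfl⟩⟩

theorem v_natCast_le (v : Valuation Om G) (n : ℕ) : v (n : Om) ≤ 1 :=
  (v.mem_integer_iff _).1 (natCast_mem v.integer n)

theorem v_eval_le (v : Valuation Om G) {p : Om[X]} {y : Om} {m : G} (hy : v y ≤ 1)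
    (hp : ∀ i, v (p.coeff i) ≤ m) : v (p.eval y) ≤ m := by
  rw [eval_eq_sum_range]
  refine v.map_sum_le fun i _ => ?_
  rw [map_mul, map_pow]
  calc v (p.coeff i) * v y ^ i ≤ m * 1 := mul_le_mul' (hp i) (pow_le_one' hy i)
    _ = m := mul_one m

theorem v_deriv_coeff_le (v : Valuation Om G) {p : Om[X]} {m : G}
    (hp : ∀ i, v (p.coeff i) ≤ m) (i : ℕ) : v (p.derivative.coeff i) ≤ m := by
  rw [coeff_derivative, map_mul]
  have h := v_natCast_le v (i + 1)
  push_cast at h
  calc _ ≤ m * 1 := mul_le_mul' (hp _) h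
    _ = m := mul_one m

theorem PO_eval_le {v : Valuation Om G} {F : Subfield Om} {p : Om[X]} (hp : p ∈ PO v F) {y : Om}
    (hy : v y ≤ 1) : v (p.eval y) ≤ 1 :=
  v_eval_le v hy fun i => (mem_PO.1 hp i).2

theorem PO_deriv {v : Valuation Om G} {F : Subfield Om} {p : Om[X]} (hp : p ∈ PO v F) :
    p.derivative ∈ PO v F := by
  refine mem_PO.2 fun i => ⟨?_, v_deriv_coeff_le v (fun j => (mem_PO.1 hp j).2) i⟩
  rw [coeff_derivative]
  exact F.mul_mem (mem_PO.1 hp _).1 (F.add_mem (natCast_mem F i) F.one_mem)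

/-- a coefficient of largest value -/
theorem exists_max_coeff (v : Valuation Om G) (p : Om[X]) :
    ∃ j, ∀ i, v (p.coeff i) ≤ v (p.coeff j) := by
  obtain ⟨j, -, hj⟩ := (Finset.range (p.natDegree + 1)).exists_max_image
    (fun i => v (p.coeff i)) ⟨0, by simp⟩
  refine ⟨j, fun i => ?_⟩
  by_cases hi : i ≤ p.natDegree
  · exact hj i (Finset.mem_range.2 (Nat.lt_succ_of_le hi))
  · rw [coeff_eq_zero_of_natDegree_lt (not_le.1 hi), map_zero]
    exact zero_le

/-- scaling into `PO` -/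
theorem exists_scale {v : Valuation Om G} {F : Subfield Om} {p : Om[X]} {c : Om} (hc : c ∈ F)
    (hp : ∀ i, p.coeff i ∈ F) (hv : ∀ i, v (p.coeff i) ≤ v c) :
    ∃ p0 ∈ PO v F, p = C c * p0 := by
  by_cases h0 : c = 0
  · refine ⟨0, zero_mem _, ?_⟩
    rw [mul_zero]
    ext i
    have := hv i
    rw [h0, map_zero, le_zero_iff, v.zero_iff] at this
    simpa using this
  · refine ⟨C c⁻¹ * p, mem_PO.2 fun i => ?_, ?_⟩
    · rw [coeff_C_mul]
      refine ⟨F.mul_mem (F.inv_mem hc) (hp i), ?_⟩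
      have hpos : 0 < v c := (v.pos_iff).2 h0
      rw [map_mul, map_inv₀, inv_mul_le_iff₀ hpos, mul_one]
      exact hv i
    · rw [← mul_assoc, ← C_mul, mul_inv_cancel₀ h0, C_1, one_mul]

/-- MINP without the derivative clause. -/
theorem minp0 (v : Valuation Om G) (F : Subfield Om) {y : Om} (hy : v y ≤ 1)
    (h : ∃ p ∈ PO v F, (∃ i, v (p.coeff i) = 1) ∧ v (p.eval y) < 1) :
    ∃ q ∈ PO v F, q.Monic ∧ v (q.eval y) < 1 ∧
      ∀ p : Om[X], (∀ i, p.coeff i ∈ F) → p.degree < q.degree →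
        ∀ i, v (p.coeff i) ≤ v (p.eval y) := by
  classical
  have hex : ∃ n, ∃ p ∈ PO v F, p.natDegree = n ∧ (∃ i, v (p.coeff i) = 1) ∧
      v (p.eval y) < 1 := by
    obtain ⟨p, h1, h2, h3⟩ := h
    exact ⟨_, p, h1, rfl, h2, h3⟩
  obtain ⟨p, hp, hn, ⟨i0, hi0⟩, hlt⟩ := Nat.find_spec hex
  have hmin : ∀ p' ∈ PO v F, (∃ i, v (p'.coeff i) = 1) → v (p'.eval y) < 1 →
      p.natDegree ≤ p'.natDegree := fun p' h1 h2 h3 =>
    hn ▸ Nat.find_min' hex ⟨p', h1, rfl, h2, h3⟩
  have hp0 : p ≠ 0 := by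
    rintro rfl
    simp at hi0
  have hlc : v p.leadingCoeff = 1 := by
    by_contra hne
    have hl : v p.leadingCoeff < 1 := lt_of_le_of_ne (mem_PO.1 hp _).2 hne
    have hi : i0 ≠ p.natDegree := by
      rintro rfl
      exact hne hi0
    have he : p.eraseLead ∈ PO v F := by
      refine mem_PO.2 fun i => ?_
      rw [eraseLead_coeff]
      split_ifs
      · simp
      · exact mem_PO.1 hp i
    have hc : p.eraseLead.coeff i0 = p.coeff i0 := eraseLead_coeff_of_ne i0 hi
    have hev : v (p.eraseLead.eval y) < 1 := by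
      have : p.eraseLead.eval y = p.eval y - p.leadingCoeff * y ^ p.natDegree := by
        have h := congrArg (eval y) (eraseLead_add_C_mul_X_pow p)
        rw [eval_add, eval_mul, eval_C, eval_pow, eval_X] at h
        linear_combination h
      rw [this]
      refine lt_of_le_of_lt (v.map_sub _ _) (max_lt hlt ?_)
      rw [map_mul, map_pow]
      exact lt_of_le_of_lt (mul_le_of_le_one_right' (pow_le_one' hy _)) hl
    have h1 := hmin _ he ⟨i0, hc ▸ hi0⟩ hev
    rcases eraseLead_natDegree_lt_or_eraseLead_eq_zero p with h2 | h2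
    · omega
    · rw [h2] at hc
      rw [← hc] at hi0
      simp at hi0
  have hl0 : p.leadingCoeff ≠ 0 := leadingCoeff_ne_zero.2 hp0
  have hlF : p.leadingCoeff ∈ F := (mem_PO.1 hp _).1
  refine ⟨p * C p.leadingCoeff⁻¹, mem_PO.2 fun i => ?_, monic_mul_leadingCoeff_inv hp0, ?_, ?_⟩
  · rw [coeff_mul_C]
    refine ⟨F.mul_mem (mem_PO.1 hp i).1 (F.inv_mem hlF), ?_⟩
    rw [map_mul, map_inv₀, hlc, inv_one, mul_one]
    exact (mem_PO.1 hp i).2
  · rw [eval_mul, eval_C, map_mul, map_inv₀, hlc, inv_one, mul_one]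
    exact hlt
  · intro p' hp' hd i
    rw [degree_mul_leadingCoeff_inv _ hp0] at hd
    obtain ⟨j, hj⟩ := exists_max_coeff v p'
    refine (hj i).trans ?_
    by_cases hc0 : p'.coeff j = 0
    · rw [hc0, map_zero]
      exact zero_le
    obtain ⟨p0, hp0m, hp0e⟩ := exists_scale (hp' j) hp' hj
    have hj1 : p0.coeff j = 1 := by
      have := congrArg (fun s => s.coeff j) hp0e
      simp only [coeff_C_mul] at this
      exact (mul_left_cancel₀ hc0 (this.symm.trans (mul_one _).symm))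
    have hge : 1 ≤ v (p0.eval y) := by
      by_contra hlt'
      have h1 := hmin p0 hp0m ⟨j, by rw [hj1, map_one]⟩ (not_le.1 hlt')
      have hne : p' ≠ 0 := by
        rintro rfl
        exact hc0 (coeff_zero j)
      have h2 : p'.natDegree < p.natDegree := natDegree_lt_natDegree hne hd
      have h3 : p'.natDegree = p0.natDegree := by
        conv_lhs => rw [hp0e]
        exact natDegree_C_mul hc0
      omega
    conv_rhs => rw [hp0e]
    rw [eval_mul, eval_C, map_mul]
    exact le_mul_of_one_le_right' hge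

/-- MINP: residual minimal polynomial, residue characteristic zero. -/
theorem minp (v : Valuation Om G) (hv : ∀ n : ℕ, n ≠ 0 → v (n : Om) = 1) (F : Subfield Om)
    {y : Om} (hy : v y ≤ 1)
    (h : ∃ p ∈ PO v F, (∃ i, v (p.coeff i) = 1) ∧ v (p.eval y) < 1) :
    ∃ q ∈ PO v F, q.Monic ∧ v (q.eval y) < 1 ∧ v (q.derivative.eval y) = 1 ∧
      ∀ p : Om[X], (∀ i, p.coeff i ∈ F) → p.degree < q.degree →
        ∀ i, v (p.coeff i) ≤ v (p.eval y) := by
  obtain ⟨q, hq, hm, hlt, hG⟩ := minp0 v F hy h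
  refine ⟨q, hq, hm, hlt, le_antisymm (PO_eval_le (PO_deriv hq) hy) ?_, hG⟩
  have hn : q.natDegree ≠ 0 := by
    intro h0
    rw [hm.natDegree_eq_zero] at h0
    rw [h0] at hlt
    simp at hlt
  obtain ⟨n, hn'⟩ := Nat.exists_eq_succ_of_ne_zero hn
  have h1 := hG q.derivative (fun i => (mem_PO.1 (PO_deriv hq) i).1)
    (degree_derivative_lt hm.ne_zero) n
  have h2 : q.coeff (n + 1) = 1 := by
    have := hm.coeff_natDegree
    rwa [hn'] at this
  have h3 := hv (n + 1) (Nat.succ_ne_zero n)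
  push_cast at h3
  rwa [coeff_derivative, h2, one_mul, h3] at h1

theorem v_le_one_of_root {v : Valuation Om G} {F : Subfield Om} {q : Om[X]} (hq : q ∈ PO v F)
    (hm : q.Monic) {th : Om} (h0 : q.eval th = 0) : v th ≤ 1 := by
  have hl : q ∈ lifts v.integer.subtype :=
    (lifts_iff_coeff_lifts q).2 fun i => ⟨⟨q.coeff i, (mem_PO.1 hq i).2⟩, rfl⟩
  obtain ⟨q0, rfl, -, hq0⟩ := lifts_and_degree_eq_and_monic hl hm
  refine (Valuation.integer.integers v).isIntegral_iff_v_le_one.1 ⟨q0, hq0, ?_⟩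
  rw [eval_map] at h0
  exact h0

/-- UNR for polynomial expressions. -/
theorem unr_eval (v : Valuation Om G)
    (harch : ∀ c y : Om, v c < 1 → y ≠ 0 → ∃ k : ℕ, v c ^ k < v y) (F : Subfield Om)
    {q : Om[X]} (hq : q ∈ PO v F) (hm : q.Monic) {th : Om} (h0 : q.eval th = 0)
    (h1 : v (q.derivative.eval th) = 1) {g : Om[X]} (hg : ∀ i, g.coeff i ∈ F) :
    ∃ f ∈ F, v (g.eval th) = v f := by
  have hth := v_le_one_of_root hq hm h0
  obtain ⟨q1, hq1, hm1, hlt, hG⟩ := minp0 v F hth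
    ⟨q, hq, ⟨q.natDegree, by rw [hm.coeff_natDegree, map_one]⟩, by rw [h0, map_zero]; exact zero_lt_one⟩
  have hGv : ∀ p : Om[X], (∀ i, p.coeff i ∈ F) → p.degree < q1.degree →
      ∃ c ∈ F, v (p.eval th) = v c := by
    intro p hp hd
    obtain ⟨j, hj⟩ := exists_max_coeff v p
    exact ⟨_, hp j, le_antisymm (v_eval_le v hth hj) (hG p hp hd j)⟩
  obtain ⟨hr, hq2⟩ := PO_divmod hq hq1 hm1
  set r := q %ₘ q1 with hrdef
  set q2 := q /ₘ q1 with hq2def
  have hdec : r + q1 * q2 = q := modByMonic_add_div q q1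
  have hrd : r.degree < q1.degree := degree_modByMonic_lt q hm1
  have hrF : ∀ i, r.coeff i ∈ F := fun i => (mem_PO.1 hr i).1
  have hre : q1.eval th * q2.eval th = -r.eval th := by
    have := congrArg (eval th) hdec
    rw [eval_add, eval_mul, h0] at this
    linear_combination this
  have hrlt : v (r.eval th) < 1 := by
    rw [← v.map_neg, ← hre, map_mul]
    exact lt_of_le_of_lt (mul_le_of_le_one_right' (PO_eval_le hq2 hth)) hlt
  have hu : v (q2.eval th) = 1 := by
    refine le_antisymm (PO_eval_le hq2 hth) (not_lt.1 fun hlt2 => ?_)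
    have hd := congrArg (fun s => (derivative s).eval th) hdec
    simp only [derivative_add, derivative_mul, eval_add, eval_mul] at hd
    rw [← hd] at h1
    refine absurd h1 (ne_of_lt (v.map_add_lt ?_ (v.map_add_lt ?_ ?_)))
    · exact lt_of_le_of_lt (v_eval_le v hth (v_deriv_coeff_le v (hG r hrF hrd))) hrlt
    · rw [map_mul]
      exact mul_lt_of_le_one_of_lt (PO_eval_le (PO_deriv hq1) hth) hlt2
    · rw [map_mul]
      exact lt_of_le_of_lt (mul_le_of_le_one_right' (PO_eval_le (PO_deriv hq2) hth)) hlt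
  obtain ⟨c, hcF, hc⟩ := hGv r hrF hrd
  obtain ⟨r0, hr0, hr0e⟩ := exists_scale hcF hrF (fun i => hc ▸ hG r hrF hrd i)
  have key : ∀ g0 ∈ PO v F, (∃ f ∈ F, v (g0.eval th) = v f) := by
    intro g0 hg0
    by_contra hno
    have hstep : ∀ k : ℕ, ∃ s ∈ PO v F, v (g0.eval th) = v c ^ k * v (s.eval th) := by
      intro k
      induction k with
      | zero => exact ⟨g0, hg0, by simp⟩
      | succ k ih =>
        obtain ⟨s, hs, hse⟩ := ih
        obtain ⟨hs0, ht⟩ := PO_divmod hs hq1 hm1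
        set s0 := s %ₘ q1
        set t := s /ₘ q1
        have hsd : s0 + q1 * t = s := modByMonic_add_div s q1
        have hs0d : s0.degree < q1.degree := degree_modByMonic_lt s hm1
        have hs0F : ∀ i, s0.coeff i ∈ F := fun i => (mem_PO.1 hs0 i).1
        have hmul : q2.eval th * s.eval th
            = q2.eval th * s0.eval th - c * (r0.eval th * t.eval th) := by
          have h2 : r.eval th = c * r0.eval th := by
            conv_lhs => rw [hr0e]
            rw [eval_mul, eval_C]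
          rw [← hsd, eval_add, eval_mul]
          linear_combination t.eval th * hre - t.eval th * h2
        have hvs : v (s.eval th) = v (q2.eval th * s.eval th) := by
          rw [map_mul, hu, one_mul]
        by_cases hbig : v c < v (s0.eval th)
        · exfalso
          obtain ⟨c', hc'F, hc'⟩ := hGv s0 hs0F hs0d
          refine hno ⟨c ^ k * c', F.mul_mem (F.pow_mem hcF k) hc'F, ?_⟩
          rw [hse, hvs, hmul, v.map_sub_eq_of_lt_left, map_mul, map_mul, map_pow, hu, one_mul, hc']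
          rw [map_mul v (q2.eval th), hu, one_mul, map_mul]
          refine lt_of_le_of_lt ?_ hbig
          refine mul_le_of_le_one_right' ?_
          rw [map_mul]
          exact mul_le_one' (PO_eval_le hr0 hth) (PO_eval_le ht hth)
        · obtain ⟨s1, hs1, hs1e⟩ := exists_scale hcF hs0F
            (fun i => (hG s0 hs0F hs0d i).trans (not_lt.1 hbig))
          refine ⟨q2 * s1 - r0 * t, sub_mem (mul_mem hq2 hs1) (mul_mem hr0 ht), ?_⟩
          have h3 : q2.eval th * s.eval th = c * (q2 * s1 - r0 * t).eval th := by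
            rw [hmul, hs1e]
            simp only [eval_mul, eval_C, eval_sub]
            ring
          rw [hse, hvs, h3, map_mul, pow_succ, mul_assoc]
    have hne : g0.eval th ≠ 0 := fun h => hno ⟨0, F.zero_mem, by rw [h]⟩
    obtain ⟨k, hk⟩ := harch c _ (hc ▸ hrlt) hne
    obtain ⟨s, hs, hse⟩ := hstep k
    rw [hse] at hk
    exact absurd hk (not_lt.2 (mul_le_of_le_one_right' (PO_eval_le hs hth)))
  obtain ⟨j, hj⟩ := exists_max_coeff v g
  obtain ⟨g0, hg0, hge⟩ := exists_scale (hg j) hg hj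
  obtain ⟨f, hf, hfe⟩ := key g0 hg0
  refine ⟨g.coeff j * f, F.mul_mem (hg j) hf, ?_⟩
  conv_lhs => rw [hge]
  rw [eval_mul, eval_C, map_mul, map_mul, hfe]

theorem closure_eq_adjoin (F : Subfield Om) (S : Set Om) :
    Subfield.closure ((F : Set Om) ∪ S) = (IntermediateField.adjoin F S).toSubfield := by
  rw [IntermediateField.adjoin_toSubfield]
  congr 2
  ext a
  exact ⟨fun h => ⟨⟨a, h⟩, rfl⟩, fun ⟨b, hb⟩ => hb ▸ b.2⟩

theorem exists_poly_of_mem_closure {F : Subfield Om} {th y : Om} (hth : IsAlgebraic F th)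
    (hy : y ∈ Subfield.closure ((F : Set Om) ∪ {th})) :
    ∃ g : Om[X], (∀ i, g.coeff i ∈ F) ∧ y = g.eval th := by
  rw [closure_eq_adjoin] at hy
  have h1 : y ∈ (IntermediateField.adjoin F {th}).toSubalgebra := hy
  rw [IntermediateField.adjoin_simple_toSubalgebra_of_isAlgebraic hth,
    Algebra.adjoin_singleton_eq_range_aeval] at h1
  obtain ⟨g, rfl⟩ := h1
  refine ⟨g.map (algebraMap F Om), fun i => ?_, ?_⟩
  · rw [coeff_map]
    exact (g.coeff i).2
  · rw [eval_map_algebraMap]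
    rfl

theorem isAlgebraic_of_root {F : Subfield Om} {q : Om[X]} (hq : ∀ i, q.coeff i ∈ F)
    (hm : q ≠ 0) {th : Om} (h0 : q.eval th = 0) : IsAlgebraic F th := by
  have hl : q ∈ lifts (algebraMap F Om) :=
    (lifts_iff_coeff_lifts q).2 fun i => ⟨⟨q.coeff i, hq i⟩, rfl⟩
  obtain ⟨q0, rfl⟩ := (mem_lifts q).1 hl
  refine ⟨q0, fun h => hm (by rw [h, Polynomial.map_zero]), ?_⟩
  rwa [eval_map_algebraMap] at h0

/-- UNR: a simple root modulo the maximal ideal does not enlarge the value group. -/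
theorem unr (v : Valuation Om G)
    (harch : ∀ c y : Om, v c < 1 → y ≠ 0 → ∃ k : ℕ, v c ^ k < v y) (F : Subfield Om)
    {q : Om[X]} (hq : q ∈ PO v F) (hm : q.Monic) {th : Om} (h0 : q.eval th = 0)
    (h1 : v (q.derivative.eval th) = 1) {y : Om}
    (hy : y ∈ Subfield.closure ((F : Set Om) ∪ {th})) : ∃ f ∈ F, v y = v f := by
  obtain ⟨g, hg, rfl⟩ := exists_poly_of_mem_closure
    (isAlgebraic_of_root (fun i => (mem_PO.1 hq i).1) hm.ne_zero h0) hy
  exact unr_eval v harch F hq hm h0 h1 hg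

theorem minpoly_mem_PO {v : Valuation Om G} {F0 F : Subfield Om} (hle : F0 ≤ F)
    (h0 : ∀ f ∈ F0, v f ≤ 1) (p : F0[X]) : p.map (algebraMap F0 Om) ∈ PO v F :=
  mem_PO.2 fun i => by
    rw [coeff_map]
    exact ⟨hle (p.coeff i).2, h0 _ (p.coeff i).2⟩

/-- a valuation trivial on `F0` is trivial on everything algebraic over `F0`. -/
theorem v_eq_one_of_isAlgebraic {v : Valuation Om G} {F0 : Subfield Om}
    (h0 : ∀ f ∈ F0, v f ≤ 1) {a : Om} (ha : IsAlgebraic F0 a) (hne : a ≠ 0) : v a = 1 := by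
  have h : ∀ b : Om, IsAlgebraic F0 b → v b ≤ 1 := fun b hb =>
    v_le_one_of_root (minpoly_mem_PO le_rfl h0 (minpoly F0 b))
      ((minpoly.monic hb.isIntegral).map _) (by rw [eval_map_algebraMap, minpoly.aeval])
  refine le_antisymm (h a ha) ?_
  have h2 := h _ ha.inv
  rwa [map_inv₀, inv_le_one₀ ((v.pos_iff).2 hne)] at h2

/-- UNRp: adjoining elements algebraic over a trivially valued subfield keeps the value group. -/
theorem unrp [CharZero Om] (v : Valuation Om G)
    (harch : ∀ c y : Om, v c < 1 → y ≠ 0 → ∃ k : ℕ, v c ^ k < v y) {F0 F : Subfield Om}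
    (hle : F0 ≤ F) (h0 : ∀ f ∈ F0, v f ≤ 1) {S : Set Om} (hS : ∀ a ∈ S, IsAlgebraic F0 a)
    {y : Om} (hy : y ∈ Subfield.closure ((F : Set Om) ∪ S)) : ∃ f ∈ F, v y = v f := by
  rw [closure_eq_adjoin] at hy
  obtain ⟨T, hT, hyT⟩ := IntermediateField.exists_finset_of_mem_adjoin
    (show y ∈ IntermediateField.adjoin F S from hy)
  refine IntermediateField.induction_on_adjoin_finset T
    (fun K => ∀ z ∈ K, ∃ f ∈ F, v z = v f) ?_ ?_ y hyT
  · intro z hz
    obtain ⟨f, rfl⟩ := IntermediateField.mem_bot.1 hz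
    exact ⟨f, f.2, rfl⟩
  · intro K x hx hK z hz
    have hxa : IsAlgebraic F0 x := hS x (hT hx)
    have hle' : F0 ≤ K.toSubfield := fun a ha => K.algebraMap_mem ⟨a, hle ha⟩
    have hz' : z ∈ Subfield.closure ((K.toSubfield : Set Om) ∪ {x}) := by
      rw [closure_eq_adjoin]
      exact hz
    have hsep : (minpoly F0 x).Separable := (minpoly.irreducible hxa.isIntegral).separable
    have hd : aeval x (derivative (minpoly F0 x)) ≠ 0 :=
      hsep.aeval_derivative_ne_zero (minpoly.aeval F0 x)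
    have hda : IsAlgebraic F0 (aeval x (derivative (minpoly F0 x))) :=
      (IsIntegral.of_mem_of_fg _ hxa.isIntegral.fg_adjoin_singleton _
        (aeval_mem_adjoin_singleton F0 x)).isAlgebraic
    obtain ⟨f, hf, hfe⟩ := unr v harch K.toSubfield (minpoly_mem_PO hle' h0 (minpoly F0 x))
      ((minpoly.monic hxa.isIntegral).map _) (by rw [eval_map_algebraMap, minpoly.aeval])
      (by rw [derivative_map, eval_map_algebraMap]; exact v_eq_one_of_isAlgebraic h0 hda hd) hz'
    obtain ⟨f', hf', hfe'⟩ := hK f hf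
    exact ⟨f', hf', hfe.trans hfe'⟩

end

end Pool.Agent.Lib.MP_5c318e_ag
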