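import Pool.Agent.Lib.MP_5c318e_ag.Idx
import Pool.Agent.Lib.MP_5c318e_ag.Unr

/-! EXT: real valuations extend to algebraic extensions; standard valuations on polynomial rings. -/

set_option autoImplicit false

namespace Pool.Agent.Lib.MP_5c318e_ag

open Polynomial NNReal

noncomputable section

variable {Om : Type*} [Field Om]

theorem alg_mono {F F' : Subfield Om} (h : F ≤ F') {y : Om} (hy : IsAlgebraic F y) :
    IsAlgebraic F' y :=
  hy.ringHom_of_comp_eq (Subfield.inclusion h) (RingHom.id Om) (Subfield.inclusion h).injective rfl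

/-- a real valuation of a field extends along an algebraic embedding -/
theorem ext_field {K : Type*} [Field K] (ψ : K →+* Om) (v0 : Valuation K ℝ≥0)
    (halg : ∀ y : Om, IsAlgebraic ψ.fieldRange y) :
    ∃ v : Valuation Om ℝ≥0, ∀ a, v (ψ a) = v0 a := by
  obtain ⟨B, hB, hloc⟩ :=
    IsLocalRing.exists_factor_valuationRing (ψ.comp v0.valuationSubring.subtype)
  have h1 : ∀ a : K, v0 a ≤ 1 → B.valuation (ψ a) ≤ 1 := fun a ha =>
    (B.valuation_le_one_iff _).2 (hB ⟨a, ha⟩)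
  have h2 : ∀ a : K, v0 a < 1 → B.valuation (ψ a) < 1 := by
    intro a ha
    refine lt_of_le_of_ne (h1 a ha.le) fun he => ?_
    have hu : IsUnit (⟨ψ a, hB ⟨a, ha.le⟩⟩ : B) := (B.valuation_eq_one_iff _).2 he
    have hu2 : IsUnit (⟨a, ha.le⟩ : v0.valuationSubring) := hloc.map_nonunit _ hu
    exact absurd ((Valuation.integer.integers v0).one_of_isUnit hu2) ha.ne
  have h3 : ∀ a b : K, B.valuation (ψ a) ≤ B.valuation (ψ b) → v0 a ≤ v0 b := by
    intro a b h
    by_contra hlt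
    rw [not_le] at hlt
    have hpos : 0 < v0 a := lt_of_le_of_lt zero_le hlt
    have ha : a ≠ 0 := v0.pos_iff.1 hpos
    have h4 := h2 (b / a) (by rwa [map_div₀, div_lt_one₀ hpos])
    rw [map_div₀, map_div₀, div_lt_one₀ (B.valuation.pos_iff.2 ((_root_.map_ne_zero ψ).2 ha))] at h4
    exact absurd h (not_le.2 h4)
  have hpow : ∀ y : Om, ∃ e : ℕ, e ≠ 0 ∧ ∃ a : K, B.valuation y ^ e = B.valuation (ψ a) := by
    intro y
    obtain ⟨f, ⟨a, rfl⟩, hf⟩ := idx_minpoly (v := B.valuation) (halg y) le_rfl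
    exact ⟨_, Nat.factorial_ne_zero _, a, hf⟩
  choose e he a ha using hpow
  let val : Om → ℝ≥0 := fun y => v0 (a y) ^ ((e y : ℝ)⁻¹)
  have hval : ∀ y, val y ^ e y = v0 (a y) := fun y => NNReal.rpow_inv_natCast_pow _ (he y)
  have hch : ∀ y (N : ℕ) (b : K), B.valuation y ^ N = B.valuation (ψ b) → val y ^ N = v0 b := by
    intro y N b h
    have h5 : B.valuation (ψ (a y ^ N)) = B.valuation (ψ (b ^ e y)) := by
      rw [map_pow, map_pow, map_pow, map_pow, ← ha, ← h, ← pow_mul, ← pow_mul, mul_comm]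
    have h6 := le_antisymm (h3 _ _ h5.le) (h3 _ _ h5.ge)
    rw [map_pow, map_pow, ← hval, ← pow_mul, mul_comm, pow_mul] at h6
    exact (pow_left_inj₀ zero_le zero_le (he y)).1 h6
  have hone : ∀ b : K, val (ψ b) = v0 b := fun b => by
    simpa using hch (ψ b) 1 b (pow_one _)
  have hmono : ∀ x y, B.valuation x ≤ B.valuation y → val x ≤ val y := by
    intro x y h
    have hx := hch x (e x * e y) (a x ^ e y) (by rw [pow_mul, ha, map_pow, map_pow])
    have hy := hch y (e x * e y) (a y ^ e x) (by rw [mul_comm, pow_mul, ha, map_pow, map_pow])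
    have h5 : v0 (a x ^ e y) ≤ v0 (a y ^ e x) := by
      refine h3 _ _ ?_
      rw [map_pow, map_pow, map_pow, map_pow, ← ha, ← ha, ← pow_mul, ← pow_mul, mul_comm (e y)]
      exact pow_le_pow_left₀ zero_le h _
    rw [← hx, ← hy] at h5
    exact (pow_le_pow_iff_left₀ zero_le zero_le (mul_ne_zero (he x) (he y))).1 h5
  refine ⟨{ toFun := val
            map_zero' := by simpa using hone 0
            map_one' := by simpa using hone 1
            map_mul' := fun x y => ?_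
            map_add_le_max' := fun x y => ?_ }, hone⟩
  · have h := hch (x * y) (e x * e y) (a x ^ e y * a y ^ e x) (by
      simp only [map_mul, map_pow, ← ha, mul_pow, ← pow_mul, mul_comm (e y)])
    rw [map_mul, map_pow, map_pow, ← hval, ← hval, ← pow_mul, ← pow_mul, mul_comm (e y),
      ← mul_pow] at h
    exact (pow_left_inj₀ zero_le zero_le (mul_ne_zero (he x) (he y))).1 h
  · rcases le_max_iff.1 (B.valuation.map_add x y) with h | h
    · exact le_max_of_le_left (hmono _ _ h)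
    · exact le_max_of_le_right (hmono _ _ h)

/-- a real valuation with trivial support on a domain embedded in `Om` extends -/
theorem ext_ring {B : Type*} [CommRing B] [IsDomain B] (φ : B →+* Om)
    (hφ : Function.Injective φ) (v0 : Valuation B ℝ≥0) (h0 : ∀ b, b ≠ 0 → v0 b ≠ 0)
    (halg : ∀ y : Om, IsAlgebraic (Subfield.closure (Set.range φ)) y) :
    ∃ v : Valuation Om ℝ≥0, ∀ b, v (φ b) = v0 b := by
  have hS : nonZeroDivisors B ≤ v0.supp.primeCompl := fun b hb =>
    h0 b (nonZeroDivisors.ne_zero hb)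
  let ψ : FractionRing B →+* Om := IsFractionRing.lift hφ
  have hψ : ∀ b, ψ (algebraMap B _ b) = φ b := fun b => IsFractionRing.lift_algebraMap hφ b
  have hle : Subfield.closure (Set.range φ) ≤ ψ.fieldRange :=
    Subfield.closure_le.2 fun _ ⟨b, hb⟩ => ⟨_, (hψ b).trans hb⟩
  obtain ⟨v, hv⟩ := ext_field ψ (v0.extendToLocalization hS (FractionRing B)) fun y =>
    alg_mono hle (halg y)
  exact ⟨v, fun b => by rw [← hψ, hv, Valuation.extendToLocalization_apply_map_apply]⟩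

/-- an integer valued order function on a domain embedded in `Om` extends -/
theorem ext_int {B : Type*} [CommRing B] [IsDomain B] (φ : B →+* Om)
    (hφ : Function.Injective φ) (n : B → ℤ)
    (hmul : ∀ a b, a ≠ 0 → b ≠ 0 → n (a * b) = n a + n b)
    (hadd : ∀ a b, a ≠ 0 → b ≠ 0 → a + b ≠ 0 → min (n a) (n b) ≤ n (a + b))
    (halg : ∀ y : Om, IsAlgebraic (Subfield.closure (Set.range φ)) y) :
    ∃ v : Valuation Om ℝ≥0, ∀ b, b ≠ 0 → (v (φ b) : ℝ) = Real.exp (-(n b : ℝ)) := by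
  classical
  let g : B → ℝ≥0 := fun b => if b = 0 then 0 else (Real.exp (-(n b : ℝ))).toNNReal
  have g0 : g 0 = 0 := if_pos rfl
  have g1 : ∀ b, b ≠ 0 → (g b : ℝ) = Real.exp (-(n b : ℝ)) := fun b hb => by
    simp only [g, if_neg hb]
    exact Real.coe_toNNReal _ (Real.exp_pos _).le
  have n1 : n 1 = 0 := by
    have := hmul 1 1 one_ne_zero one_ne_zero
    rw [mul_one] at this
    omega
  let v0 : Valuation B ℝ≥0 :=
    { toFun := g
      map_zero' := g0
      map_one' := by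
        apply NNReal.eq
        rw [g1 1 one_ne_zero, n1]
        simp
      map_mul' := fun a b => by
        by_cases ha : a = 0
        · simp [ha, g0]
        by_cases hb : b = 0
        · simp [hb, g0]
        apply NNReal.eq
        rw [NNReal.coe_mul, g1 _ ha, g1 _ hb, g1 _ (mul_ne_zero ha hb), hmul a b ha hb,
          ← Real.exp_add]
        congr 1
        push_cast
        ring
      map_add_le_max' := fun a b => by
        change g (a + b) ≤ max (g a) (g b)
        by_cases ha : a = 0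
        · simp [ha]
        by_cases hb : b = 0
        · simp [hb]
        by_cases hab : a + b = 0
        · simp [hab, g0]
        have key : ∀ c d, c ≠ 0 → d ≠ 0 → n c ≤ n d → g d ≤ g c := fun c d hc hd h => by
          rw [← NNReal.coe_le_coe, g1 _ hc, g1 _ hd, Real.exp_le_exp, neg_le_neg_iff]
          exact_mod_cast h
        rcases min_le_iff.1 (hadd a b ha hb hab) with h | h
        · exact le_max_of_le_left (key _ _ ha hab h)
        · exact le_max_of_le_right (key _ _ hb hab h) }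
  obtain ⟨v, hv⟩ := ext_ring φ hφ v0 (fun b hb h => by
    have h2 : (g b : ℝ) = 0 := by exact_mod_cast h
    rw [g1 b hb] at h2
    exact (Real.exp_pos _).ne' h2) halg
  exact ⟨v, fun b hb => by rw [hv]; exact g1 b hb⟩

theorem alg_closure_of_subring {A : Subring Om} {y : Om} (hy : IsAlgebraic A y) :
    IsAlgebraic (Subfield.closure (Set.range A.subtype)) y := by
  refine hy.ringHom_of_comp_eq
    (A.subtype.codRestrict (Subfield.closure (Set.range A.subtype))
      fun a => Subfield.subset_closure ⟨a, rfl⟩) (RingHom.id Om) ?_ rfl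
  intro a b h
  exact Subtype.ext (congrArg Subtype.val h :)

/-- EXT -/
theorem EXT (A : Subring Om) (n : Om → ℤ)
    (hmul : ∀ a ∈ A, ∀ b ∈ A, a ≠ 0 → b ≠ 0 → n (a * b) = n a + n b)
    (hadd : ∀ a ∈ A, ∀ b ∈ A, a ≠ 0 → b ≠ 0 → a + b ≠ 0 → min (n a) (n b) ≤ n (a + b))
    (halg : ∀ y : Om, IsAlgebraic A y) :
    ∃ v : Valuation Om ℝ≥0, ∀ a ∈ A, a ≠ 0 → (v a : ℝ) = Real.exp (-(n a : ℝ)) := by
  obtain ⟨v, hv⟩ := ext_int A.subtype Subtype.val_injective (fun a => n a)
    (fun a b ha hb => hmul a a.2 b b.2 (by simpa using ha) (by simpa using hb))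
    (fun a b ha hb hab => hadd a a.2 b b.2 (by simpa using ha) (by simpa using hb)
      (fun h => hab (Subtype.ext h)))
    fun y => alg_closure_of_subring (halg y)
  exact ⟨v, fun a ha h0 => hv ⟨a, ha⟩ fun h => h0 (congrArg Subtype.val h)⟩

/-- the `Q`-adic valuation for a prime `Q` of a domain embedded in `Om` -/
theorem ext_prime {B : Type*} [CommRing B] [IsDomain B] [WfDvdMonoid B] (φ : B →+* Om)
    (hφ : Function.Injective φ) {Q : B} (hQ : Prime Q)
    (halg : ∀ y : Om, IsAlgebraic (Subfield.closure (Set.range φ)) y) :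
    ∃ v : Valuation Om ℝ≥0, (v (φ Q) : ℝ) = Real.exp (-1) ∧ v (φ Q) < 1 ∧
      ∀ b, b ≠ 0 → v (φ b) = v (φ Q) ^ multiplicity Q b := by
  obtain ⟨v, hv⟩ := ext_int φ hφ (fun b => multiplicity Q b)
    (fun a b ha hb => by
      rw [multiplicity_mul hQ (.of_prime_left hQ (mul_ne_zero ha hb))]
      push_cast
      rfl)
    (fun a b ha hb hab => by
      have h : min (multiplicity Q a) (multiplicity Q b) ≤ multiplicity Q (a + b) :=
        (FiniteMultiplicity.of_prime_left hQ hab).pow_dvd_iff_le_multiplicity.1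
          (dvd_add (pow_dvd_of_le_multiplicity (min_le_left _ _))
            (pow_dvd_of_le_multiplicity (min_le_right _ _)))
      exact_mod_cast h) halg
  have h1 : (v (φ Q) : ℝ) = Real.exp (-1) := by
    rw [hv Q hQ.ne_zero, multiplicity_self]
    simp
  refine ⟨v, h1, ?_, fun b hb => ?_⟩
  · rw [← NNReal.coe_lt_coe, h1]
    simp
  · apply NNReal.eq
    rw [hv b hb, NNReal.coe_pow, h1, ← Real.exp_nat_mul]
    simp

section general

variable {G : Type*} [LinearOrderedCommGroupWithZero G]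

/-- cyclic values on a ring give cyclic values on the field it generates -/
theorem grp_closure {B : Type*} [CommRing B] (φ : B →+* Om) (v : Valuation Om G) {γ : G}
    (hγ : γ ≠ 0) (h : ∀ b, φ b ≠ 0 → ∃ k : ℤ, v (φ b) = γ ^ k) {f : Om}
    (hf : f ∈ Subfield.closure (Set.range φ)) (h0 : f ≠ 0) : ∃ k : ℤ, v f = γ ^ k := by
  obtain ⟨y, hy, z, hz, rfl⟩ := Subfield.mem_closure_iff.1 hf
  have hc : Subring.closure (Set.range φ) = φ.range := Subring.closure_eq φ.range
  rw [hc] at hy hz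
  obtain ⟨a, rfl⟩ := hy
  obtain ⟨b, rfl⟩ := hz
  obtain ⟨k, hk⟩ := h a (div_ne_zero_iff.1 h0).1
  obtain ⟨l, hl⟩ := h b (div_ne_zero_iff.1 h0).2
  exact ⟨k - l, by rw [map_div₀, hk, hl, zpow_sub₀ hγ]⟩

theorem prime_val_iff {B : Type*} [CommRing B] (φ : B →+* Om) (v : Valuation Om G) {Q : B}
    (hlt : v (φ Q) < 1) (h : ∀ b, b ≠ 0 → v (φ b) = v (φ Q) ^ multiplicity Q b) (b : B) :
    v (φ b) ≤ 1 ∧ (v (φ b) < 1 ↔ Q ∣ b) := by
  by_cases hb : b = 0
  · simp [hb]
  rw [h b hb]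
  refine ⟨pow_le_one' hlt.le _, ?_⟩
  by_cases hd : Q ∣ b
  · have : multiplicity Q b ≠ 0 := fun h0 => multiplicity_eq_zero.1 h0 hd
    simp [hd, pow_lt_one' hlt this]
  · simp [hd, multiplicity_eq_zero.2 hd]

end general

theorem closure_aeval_range (F : Subfield Om) (x : Om) :
    Subfield.closure ((F : Set Om) ∪ {x}) ≤
      Subfield.closure (Set.range ((aeval x : F[X] →ₐ[F] Om) : F[X] →+* Om)) := by
  refine Subfield.closure_le.2 ?_
  rintro a (ha | rfl)
  · exact Subfield.subset_closure ⟨C ⟨a, ha⟩, by simp; rfl⟩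
  · exact Subfield.subset_closure ⟨X, by simp⟩

theorem closure_mvaeval_range {ι : Type*} (F : Subfield Om) (s : ι → Om) :
    Subfield.closure ((F : Set Om) ∪ Set.range s) ≤ Subfield.closure (Set.range
      ((MvPolynomial.aeval s : MvPolynomial ι F →ₐ[F] Om) : MvPolynomial ι F →+* Om)) := by
  refine Subfield.closure_le.2 ?_
  rintro a (ha | ⟨i, rfl⟩)
  · exact Subfield.subset_closure ⟨MvPolynomial.C ⟨a, ha⟩, by simp; rfl⟩
  · exact Subfield.subset_closure ⟨MvPolynomial.X i, by simp⟩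

/-- `Q`-adic valuation on `F[x]` -/
theorem ext_poly_prime {F : Subfield Om} {x : Om} (hx : Transcendental F x)
    (halg : ∀ y : Om, IsAlgebraic (Subfield.closure ((F : Set Om) ∪ {x})) y) {Q : F[X]}
    (hQ : Prime Q) :
    ∃ v : Valuation Om ℝ≥0, (∀ f ∈ F, f ≠ 0 → v f = 1) ∧ v x ≤ 1 ∧
      (v (aeval x Q) : ℝ) = Real.exp (-1) ∧ v (aeval x Q) < 1 ∧
      ∀ p : F[X], p ≠ 0 → v (aeval x p) = v (aeval x Q) ^ multiplicity Q p := by
  obtain ⟨v, h1, h2, h3⟩ := ext_prime ((aeval x : F[X] →ₐ[F] Om) : F[X] →+* Om)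
    (transcendental_iff_injective.1 hx) hQ fun y => alg_mono (closure_aeval_range F x) (halg y)
  refine ⟨v, fun f hf h0 => ?_, ?_, h1, h2, h3⟩
  · have hu : IsUnit (C (⟨f, hf⟩ : F)) :=
      isUnit_C.2 (Ne.isUnit fun h => h0 (congrArg Subtype.val h))
    have h := h3 _ hu.ne_zero
    rw [multiplicity_eq_zero.2 fun hd => hQ.not_isUnit (isUnit_of_dvd_unit hd hu), pow_zero] at h
    have h' : v (algebraMap F Om ⟨f, hf⟩) = 1 := by simpa using h
    exact h'
  · simpa using (prime_val_iff _ v h2 h3 X).1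

/-- `(x - ρ)`-adic valuation on `F[x]` -/
theorem ext_root {F : Subfield Om} {x : Om} (hx : Transcendental F x)
    (halg : ∀ y : Om, IsAlgebraic (Subfield.closure ((F : Set Om) ∪ {x})) y) (ρ : F) :
    ∃ v : Valuation Om ℝ≥0, (∀ f ∈ F, f ≠ 0 → v f = 1) ∧
      (v (x - ρ) : ℝ) = Real.exp (-1) ∧ v (x - ρ) < 1 ∧
      ∀ p : F[X], p ≠ 0 → v (aeval x p) = v (x - ρ) ^ rootMultiplicity ρ p := by
  classical
  obtain ⟨v, h0, -, h1, h2, h3⟩ := ext_poly_prime hx halg (prime_X_sub_C ρ)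
  have he : aeval x (X - C ρ) = x - ρ := by simp; rfl
  rw [he] at h1 h2 h3
  exact ⟨v, h0, h1, h2, fun p hp => by rw [h3 p hp, rootMultiplicity_eq_multiplicity, if_neg hp]⟩

/-- degree valuation on `F[x]` -/
theorem ext_deg {F : Subfield Om} {x : Om} (hx : Transcendental F x)
    (halg : ∀ y : Om, IsAlgebraic (Subfield.closure ((F : Set Om) ∪ {x})) y) :
    ∃ v : Valuation Om ℝ≥0, (∀ f ∈ F, f ≠ 0 → v f = 1) ∧ (v x : ℝ) = Real.exp 1 ∧ 1 < v x ∧
      ∀ p : F[X], p ≠ 0 → v (aeval x p) = v x ^ p.natDegree := by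
  obtain ⟨v, hv⟩ := ext_int ((aeval x : F[X] →ₐ[F] Om) : F[X] →+* Om)
    (transcendental_iff_injective.1 hx) (fun p => -(p.natDegree : ℤ))
    (fun a b ha hb => by rw [natDegree_mul ha hb]; push_cast; ring)
    (fun a b _ _ _ => by have := natDegree_add_le a b; omega)
    fun y => alg_mono (closure_aeval_range F x) (halg y)
  have h1 : (v x : ℝ) = Real.exp 1 := by simpa using hv X X_ne_zero
  have h3 : ∀ p : F[X], p ≠ 0 → v (aeval x p) = v x ^ p.natDegree := fun p hp => by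
    apply NNReal.eq
    rw [NNReal.coe_pow, h1, ← Real.exp_nat_mul]
    simpa using hv p hp
  refine ⟨v, fun f hf h0 => ?_, h1, ?_, h3⟩
  · have h' : v (algebraMap F Om ⟨f, hf⟩) = 1 := by
      simpa using h3 (C ⟨f, hf⟩) (C_ne_zero.2 fun h => h0 (congrArg Subtype.val h))
    exact h'
  · rw [← NNReal.coe_lt_coe, h1]
    simp

/-- `Q`-adic valuation on `F[s]` -/
theorem ext_mv_prime {ι : Type*} {F : Subfield Om} {s : ι → Om} (hs : AlgebraicIndependent F s)
    (halg : ∀ y : Om, IsAlgebraic (Subfield.closure ((F : Set Om) ∪ Set.range s)) y)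
    {Q : MvPolynomial ι F} (hQ : Prime Q) :
    ∃ v : Valuation Om ℝ≥0, (∀ f ∈ F, f ≠ 0 → v f = 1) ∧ (∀ i, v (s i) ≤ 1) ∧
      (v (MvPolynomial.aeval s Q) : ℝ) = Real.exp (-1) ∧ v (MvPolynomial.aeval s Q) < 1 ∧
      ∀ p : MvPolynomial ι F, p ≠ 0 →
        v (MvPolynomial.aeval s p) = v (MvPolynomial.aeval s Q) ^ multiplicity Q p := by
  obtain ⟨v, h1, h2, h3⟩ := ext_prime
    ((MvPolynomial.aeval s : MvPolynomial ι F →ₐ[F] Om) : MvPolynomial ι F →+* Om)
    hs hQ fun y => alg_mono (closure_mvaeval_range F s) (halg y)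
  refine ⟨v, fun f hf h0 => ?_, fun i => ?_, h1, h2, h3⟩
  · have hu : IsUnit (MvPolynomial.C (⟨f, hf⟩ : F) : MvPolynomial ι F) :=
      (Ne.isUnit fun h => h0 (congrArg Subtype.val h)).map MvPolynomial.C
    have h := h3 _ hu.ne_zero
    rw [multiplicity_eq_zero.2 fun hd => hQ.not_isUnit (isUnit_of_dvd_unit hd hu), pow_zero] at h
    have h' : v (algebraMap F Om ⟨f, hf⟩) = 1 := by simpa using h
    exact h'
  · simpa using (prime_val_iff _ v h2 h3 (MvPolynomial.X i)).1

/-- total degree valuation on `F[s]` -/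
theorem ext_mv_deg {ι : Type*} {F : Subfield Om} {s : ι → Om} (hs : AlgebraicIndependent F s)
    (halg : ∀ y : Om, IsAlgebraic (Subfield.closure ((F : Set Om) ∪ Set.range s)) y) :
    ∃ v : Valuation Om ℝ≥0, (∀ f ∈ F, f ≠ 0 → v f = 1) ∧ (∀ i, (v (s i) : ℝ) = Real.exp 1) ∧
      ∀ p : MvPolynomial ι F, p ≠ 0 →
        (v (MvPolynomial.aeval s p) : ℝ) = Real.exp p.totalDegree := by
  obtain ⟨v, hv⟩ := ext_int
    ((MvPolynomial.aeval s : MvPolynomial ι F →ₐ[F] Om) : MvPolynomial ι F →+* Om)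
    hs (fun p => -(p.totalDegree : ℤ))
    (fun a b ha hb => by rw [MvPolynomial.totalDegree_mul_of_isDomain ha hb]; push_cast; ring)
    (fun a b _ _ _ => by have := MvPolynomial.totalDegree_add a b; omega)
    fun y => alg_mono (closure_mvaeval_range F s) (halg y)
  have h3 : ∀ p : MvPolynomial ι F, p ≠ 0 →
      (v (MvPolynomial.aeval s p) : ℝ) = Real.exp p.totalDegree := fun p hp => by
    simpa using hv p hp
  refine ⟨v, fun f hf h0 => ?_, fun i => ?_, h3⟩
  · have h' : v (algebraMap F Om ⟨f, hf⟩) = 1 := by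
      simpa using h3 (MvPolynomial.C ⟨f, hf⟩)
        (MvPolynomial.C_ne_zero.2 fun h => h0 (congrArg Subtype.val h))
    exact h'
  · simpa using h3 (MvPolynomial.X i) (MvPolynomial.X_ne_zero i)

/-- a discrete valuation ring of a field embedded in `Om` is induced by a real valuation -/
theorem ext_dvr {M : Type*} [Field M] (ψ : M →+* Om) (O : ValuationSubring M)
    [IsDiscreteValuationRing O] (halg : ∀ y : Om, IsAlgebraic ψ.fieldRange y) :
    ∃ (v : Valuation Om ℝ≥0) (t : O), Irreducible t ∧ (v (ψ t) : ℝ) = Real.exp (-1) ∧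
      v (ψ t) < 1 ∧ (∀ f : M, v (ψ f) ≤ 1 ↔ f ∈ O) ∧
      ∀ f : M, f ≠ 0 → ∃ k : ℤ, v (ψ f) = v (ψ t) ^ k := by
  obtain ⟨t, ht⟩ := IsDiscreteValuationRing.exists_irreducible O
  have hle : ψ.fieldRange ≤ Subfield.closure (Set.range (ψ.comp O.subtype)) := by
    rintro _ ⟨f, rfl⟩
    rcases O.mem_or_inv_mem f with h | h
    · exact Subfield.subset_closure ⟨⟨f, h⟩, rfl⟩
    · have h2 : ψ f⁻¹ ∈ Subfield.closure (Set.range (ψ.comp O.subtype)) :=
        Subfield.subset_closure ⟨⟨f⁻¹, h⟩, rfl⟩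
      simpa using inv_mem h2
  obtain ⟨v, h1, h2, h3⟩ := ext_prime (ψ.comp O.subtype)
    (ψ.injective.comp Subtype.val_injective) ht.prime fun y => alg_mono hle (halg y)
  have h4 := prime_val_iff _ v h2 h3
  have ht0 : v (ψ t) ≠ 0 := by
    rw [v.ne_zero_iff, _root_.map_ne_zero]
    exact fun h => ht.ne_zero (Subtype.ext h)
  refine ⟨v, t, ht, h1, h2, fun f => ⟨fun hf => ?_, fun hf => (h4 ⟨f, hf⟩).1⟩, fun f hf => ?_⟩
  · by_contra hn
    have hi := (O.mem_or_inv_mem f).resolve_left hn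
    have hf0 : f ≠ 0 := fun h => hn (h ▸ O.zero_mem)
    have hnu : ¬IsUnit (⟨f⁻¹, hi⟩ : O) := by
      rintro ⟨u, hu⟩
      have h5 : f⁻¹ * ((u⁻¹ : Oˣ) : O) = 1 := by
        have := congrArg (fun z : O => (z : M)) u.mul_inv
        simpa [hu] using this
      exact hn (((inv_mul_eq_one₀ hf0).1 h5).symm ▸ ((u⁻¹ : Oˣ) : O).2)
    have hd : t ∣ (⟨f⁻¹, hi⟩ : O) := by
      rw [← Ideal.mem_span_singleton, ← ht.maximalIdeal_eq]
      exact hnu
    have h6 : v (ψ f⁻¹) < 1 := (h4 _).2.2 hd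
    rw [map_inv₀, map_inv₀, inv_lt_one₀ (v.pos_iff.2 ((_root_.map_ne_zero ψ).2 hf0))] at h6
    exact absurd hf (not_le.2 h6)
  · refine grp_closure (ψ.comp O.subtype) v ht0 (fun b hb => ⟨multiplicity t b, ?_⟩)
      (hle ⟨f, rfl⟩) ((_root_.map_ne_zero ψ).2 hf)
    rw [h3 b fun h => hb (by rw [h, map_zero]), zpow_natCast]
    rfl

section centre

variable {G : Type*} [LinearOrderedCommGroupWithZero G]

theorem exists_ratio_of_mem_closure {F : Subfield Om} {x H : Om}
    (hH : H ∈ Subfield.closure ((F : Set Om) ∪ {x})) :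
    ∃ p q : F[X], H = aeval x p / aeval x q := by
  rw [closure_eq_adjoin] at hH
  exact (IntermediateField.mem_adjoin_simple_iff F H).1 hH

/-- a nonzero polynomial over `F` with small value has a root near `x` -/
theorem exists_root_near [IsAlgClosed Om] (v : Valuation Om G) {F : Subfield Om}
    (h0 : ∀ f ∈ F, f ≠ 0 → v f = 1) {x : Om} {p : F[X]} (hp : p ≠ 0) (hlt : v (aeval x p) < 1) :
    ∃ ρ : Om, aeval ρ p = 0 ∧ v (x - ρ) < 1 := by
  by_contra hno
  push Not at hno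
  have hp' : p.map (algebraMap F Om) ≠ 0 := Polynomial.map_ne_zero hp
  have h := (IsAlgClosed.splits (p.map (algebraMap F Om))).eval_eq_prod_roots x
  rw [eval_map_algebraMap] at h
  have hl : v (p.map (algebraMap F Om)).leadingCoeff = 1 := by
    refine h0 _ ?_ (leadingCoeff_ne_zero.2 hp')
    rw [leadingCoeff_map]
    exact p.leadingCoeff.2
  rw [h, map_mul, hl, one_mul, map_multiset_prod] at hlt
  refine absurd hlt (not_lt.2 (Multiset.one_le_prod_of_one_le ?_))
  intro a ha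
  simp only [Multiset.map_map, Multiset.mem_map, Function.comp] at ha
  obtain ⟨ρ, hρ, rfl⟩ := ha
  refine hno ρ ?_
  rw [mem_roots hp', IsRoot.def, eval_map_algebraMap] at hρ
  exact hρ

theorem v_aeval_le_one (v : Valuation Om G) {F : Subfield Om}
    (h0 : ∀ f ∈ F, f ≠ 0 → v f = 1) {x : Om} (hx : v x ≤ 1) (p : F[X]) : v (aeval x p) ≤ 1 := by
  rw [← eval_map_algebraMap]
  refine v_eval_le v hx fun i => ?_
  rw [coeff_map]
  by_cases h : (algebraMap F Om (p.coeff i)) = 0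
  · rw [h, map_zero]
    exact zero_le
  · exact (h0 _ (p.coeff i).2 h).le

/-- CENTRE -/
theorem CENTRE [IsAlgClosed Om] (v : Valuation Om G) {F : Subfield Om}
    (hF : ∀ y : Om, IsAlgebraic F y → y ∈ F) (h0 : ∀ f ∈ F, f ≠ 0 → v f = 1) (x : Om) :
    1 < v x ∨ (∃ ρ ∈ F, v (x - ρ) < 1) ∨
      ∀ f ∈ Subfield.closure ((F : Set Om) ∪ {x}), f ≠ 0 → v f = 1 := by
  by_cases hx : 1 < v x
  · exact Or.inl hx
  by_cases hρ : ∃ ρ ∈ F, v (x - ρ) < 1
  · exact Or.inr (Or.inl hρ)
  refine Or.inr (Or.inr fun f hf hf0 => ?_)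
  have key : ∀ p : F[X], aeval x p ≠ 0 → v (aeval x p) = 1 := by
    intro p hp
    have hp0 : p ≠ 0 := fun h => hp (by rw [h, map_zero])
    refine le_antisymm (v_aeval_le_one v h0 (not_lt.1 hx) p) (not_lt.1 fun hlt => ?_)
    obtain ⟨ρ, h1, h2⟩ := exists_root_near v h0 hp0 hlt
    exact hρ ⟨ρ, hF ρ ⟨p, hp0, h1⟩, h2⟩
  obtain ⟨p, q, rfl⟩ := exists_ratio_of_mem_closure hf
  rw [map_div₀, key p (div_ne_zero_iff.1 hf0).1, key q (div_ne_zero_iff.1 hf0).2, div_one]

/-- values of polynomials for a valuation centred at `ρ ∈ F` -/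
theorem val_centre (v : Valuation Om G) {F : Subfield Om} (h0 : ∀ f ∈ F, f ≠ 0 → v f = 1)
    {x : Om} (ρ : F) (hρ : v (x - ρ) < 1) {p : F[X]} (hp : p ≠ 0) :
    v (aeval x p) = v (x - ρ) ^ rootMultiplicity ρ p := by
  obtain ⟨q, hq, hnd⟩ := exists_eq_pow_rootMultiplicity_mul_and_not_dvd p hp ρ
  have he : aeval x (X - C ρ) = x - ρ := by simp; rfl
  have hx : v x ≤ 1 := by
    have h1 : v (ρ : Om) ≤ 1 := by
      by_cases h : (ρ : Om) = 0
      · rw [h, map_zero]
        exact zero_le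
      · exact (h0 _ ρ.2 h).le
    simpa using v.map_add_le hρ.le h1
  have hc : q.eval ρ ≠ 0 := fun h => hnd (dvd_iff_isRoot.2 h)
  have hq1 : v (aeval x q) = 1 := by
    have h1 := congrArg (aeval x) (modByMonic_add_div q (X - C ρ))
    rw [modByMonic_X_sub_C_eq_C_eval, map_add, map_mul, he, aeval_C] at h1
    have h2 : v (algebraMap F Om (q.eval ρ)) = 1 :=
      h0 _ (q.eval ρ).2 ((_root_.map_ne_zero _).2 hc)
    rw [← h1, v.map_add_eq_of_lt_left, h2]
    rw [h2, map_mul]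
    exact lt_of_le_of_lt (mul_le_of_le_one_right' (v_aeval_le_one v h0 hx _)) hρ
  conv_lhs => rw [hq]
  rw [map_mul, map_pow, he, map_mul, map_pow, hq1, mul_one]

/-- values of polynomials for a valuation centred at infinity -/
theorem val_inf (v : Valuation Om G) {F : Subfield Om} (h0 : ∀ f ∈ F, f ≠ 0 → v f = 1)
    {x : Om} (hx : 1 < v x) {p : F[X]} (hp : p ≠ 0) : v (aeval x p) = v x ^ p.natDegree := by
  have hl : v (algebraMap F Om p.leadingCoeff * x ^ p.natDegree) = v x ^ p.natDegree := by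
    have h1 : v (algebraMap F Om p.leadingCoeff) = 1 := h0 _ p.leadingCoeff.2
      ((_root_.map_ne_zero (algebraMap F Om)).2 (leadingCoeff_ne_zero.2 hp))
    rw [map_mul, h1, one_mul, map_pow]
  rw [aeval_eq_sum_range, Finset.sum_range_succ, Algebra.smul_def, coeff_natDegree,
    v.map_add_eq_of_lt_right, hl]
  rw [hl]
  refine v.map_sum_lt (pow_ne_zero _ (zero_lt_one.trans hx).ne') fun i hi => ?_
  rw [Algebra.smul_def, map_mul, map_pow]
  have h1 : v (algebraMap F Om (p.coeff i)) ≤ 1 := by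
    by_cases h : (algebraMap F Om (p.coeff i)) = 0
    · rw [h, map_zero]
      exact zero_le
    · exact (h0 _ (p.coeff i).2 h).le
  exact lt_of_le_of_lt (mul_le_of_le_one_left' h1)
    (pow_lt_pow_right₀ hx (Finset.mem_range.1 hi))

/-- value group of `F(x)` for a valuation centred at `ρ ∈ F` -/
theorem grp_centre (v : Valuation Om G) {F : Subfield Om} (h0 : ∀ f ∈ F, f ≠ 0 → v f = 1)
    {x ρ : Om} (hρF : ρ ∈ F) (hρ : v (x - ρ) < 1) (hne : x - ρ ≠ 0) {f : Om}
    (hf : f ∈ Subfield.closure ((F : Set Om) ∪ {x})) (hf0 : f ≠ 0) :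
    ∃ k : ℤ, v f = v (x - ρ) ^ k :=
  grp_closure ((aeval x : F[X] →ₐ[F] Om) : F[X] →+* Om) v (v.ne_zero_iff.2 hne)
    (fun p hp => ⟨rootMultiplicity ⟨ρ, hρF⟩ p, by
      rw [zpow_natCast]
      exact val_centre v h0 ⟨ρ, hρF⟩ hρ fun h => hp (by rw [h, map_zero])⟩)
    (closure_aeval_range F x hf) hf0

/-- value group of `F(x)` for a valuation centred at infinity -/
theorem grp_inf (v : Valuation Om G) {F : Subfield Om} (h0 : ∀ f ∈ F, f ≠ 0 → v f = 1)
    {x : Om} (hx : 1 < v x) {f : Om}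
    (hf : f ∈ Subfield.closure ((F : Set Om) ∪ {x})) (hf0 : f ≠ 0) :
    ∃ k : ℤ, v f = v x ^ k :=
  grp_closure ((aeval x : F[X] →ₐ[F] Om) : F[X] →+* Om) v (zero_lt_one.trans hx).ne'
    (fun p hp => ⟨p.natDegree, by
      rw [zpow_natCast]
      exact val_inf v h0 hx fun h => hp (by rw [h, map_zero])⟩)
    (closure_aeval_range F x hf) hf0

end centre

theorem triv_acl {G : Type*} [LinearOrderedCommGroupWithZero G] {v : Valuation Om G}
    {F : Subfield Om} (h0 : ∀ f ∈ F, f ≠ 0 → v f = 1) (a : Om) (ha : IsAlgebraic F a)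
    (hne : a ≠ 0) : v a = 1 := by
  refine v_eq_one_of_isAlgebraic (fun f hf => ?_) ha hne
  by_cases h : f = 0
  · rw [h, map_zero]
    exact zero_le
  · exact (h0 f hf h).le

/-- POLY: no pole at a finite point -/
theorem POLY [IsAlgClosed Om] {F : Subfield Om} {z : Om} (hz : Transcendental F z)
    (halg : ∀ y : Om, IsAlgebraic (Subfield.closure ((F : Set Om) ∪ {z})) y) {H : Om}
    (hH : H ∈ Subfield.closure ((F : Set Om) ∪ {z}))
    (h : ∀ (v : Valuation Om ℝ≥0) (ρ : Om), (∀ a, IsAlgebraic F a → a ≠ 0 → v a = 1) →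
      IsAlgebraic F ρ → v (z - ρ) < 1 → v H ≤ 1) :
    ∃ p : F[X], H = aeval z p := by
  classical
  obtain ⟨p, q, rfl⟩ := exists_ratio_of_mem_closure hH
  by_cases hq : q = 0
  · exact ⟨0, by simp [hq]⟩
  have hinj : Function.Injective (aeval z : F[X] →ₐ[F] Om) := transcendental_iff_injective.1 hz
  have hne : ∀ r : F[X], r ≠ 0 → aeval z r ≠ 0 := fun r hr h =>
    hr (hinj (h.trans (map_zero _).symm))
  obtain ⟨p1, q1, c, hcop, rfl, rfl⟩ : ∃ p1 q1 c : F[X], IsRelPrime p1 q1 ∧ c * p1 = p ∧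
      c * q1 = q := by
    obtain ⟨a, b, c, h1, h2, h3⟩ := UniqueFactorizationMonoid.exists_reduced_factors' p q hq
    exact ⟨a, b, c, h1, h2, h3⟩
  have hc : c ≠ 0 := left_ne_zero_of_mul hq
  have hq1 : q1 ≠ 0 := right_ne_zero_of_mul hq
  have he : aeval z (c * p1) / aeval z (c * q1) = aeval z p1 / aeval z q1 := by
    rw [map_mul, map_mul, mul_div_mul_left _ _ (hne c hc)]
  rw [he] at h ⊢
  by_cases hu : IsUnit q1
  · obtain ⟨u, rfl⟩ := hu
    refine ⟨p1 * ↑u⁻¹, ?_⟩
    rw [div_eq_iff (hne _ hq1), ← map_mul, mul_assoc, Units.inv_mul, mul_one]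
  exfalso
  obtain ⟨Q, hQ, hd⟩ := WfDvdMonoid.exists_irreducible_factor hu hq1
  have hnd : ¬Q ∣ p1 := fun h' => hQ.not_isUnit (hcop h' hd)
  obtain ⟨v, h0, -, -, h2, h3⟩ := ext_poly_prime hz halg hQ.prime
  obtain ⟨ρ, h4, h5⟩ := exists_root_near v h0 hQ.ne_zero h2
  have h6 := h v ρ (triv_acl h0) ⟨Q, hQ.ne_zero, h4⟩ h5
  have h7 := prime_val_iff ((aeval z : F[X] →ₐ[F] Om) : F[X] →+* Om) v h2 h3
  have h8 : v (aeval z p1) = 1 :=
    le_antisymm (h7 p1).1 (not_lt.1 fun h' => hnd ((h7 p1).2.1 h'))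
  have h9 : v (aeval z q1) < 1 := (h7 q1).2.2 hd
  rw [map_div₀, h8, div_le_one₀ (v.pos_iff.2 (hne q1 hq1))] at h6
  exact absurd h9 (not_lt.2 h6)

/-- degree bound from the valuation at infinity -/
theorem POLY_deg {F : Subfield Om} {z : Om} (hz : Transcendental F z)
    (halg : ∀ y : Om, IsAlgebraic (Subfield.closure ((F : Set Om) ∪ {z})) y) (p : F[X]) (d : ℕ)
    (h : ∀ v : Valuation Om ℝ≥0, (∀ a, IsAlgebraic F a → a ≠ 0 → v a = 1) → 1 < v z →
      v (aeval z p) ≤ v z ^ d) : p.natDegree ≤ d := by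
  by_cases hp : p = 0
  · simp [hp]
  obtain ⟨v, h0, -, h1, h2⟩ := ext_deg hz halg
  have h3 := h v (triv_acl h0) h1
  rw [h2 p hp] at h3
  exact (pow_le_pow_iff_right₀ h1).1 h3

/-- POLY, constant case: no pole at all -/
theorem POLY_const [IsAlgClosed Om] {F : Subfield Om} {z : Om} (hz : Transcendental F z)
    (halg : ∀ y : Om, IsAlgebraic (Subfield.closure ((F : Set Om) ∪ {z})) y) {H : Om}
    (hH : H ∈ Subfield.closure ((F : Set Om) ∪ {z}))
    (h : ∀ (v : Valuation Om ℝ≥0) (ρ : Om), (∀ a, IsAlgebraic F a → a ≠ 0 → v a = 1) →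
      IsAlgebraic F ρ → v (z - ρ) < 1 → v H ≤ 1)
    (hinf : ∀ v : Valuation Om ℝ≥0, (∀ a, IsAlgebraic F a → a ≠ 0 → v a = 1) → 1 < v z →
      v H ≤ 1) : H ∈ F := by
  obtain ⟨p, rfl⟩ := POLY hz halg hH h
  have h1 := POLY_deg hz halg p 0 (by simpa using hinf)
  rw [eq_C_of_natDegree_le_zero h1, aeval_C]
  exact (p.coeff 0).2

end

end Pool.Agent.Lib.MP_5c318e_ag
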