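import Mathlib

/-! A derivation that is logarithmic for a valuation on a field stays logarithmic on all
algebraic elements (residue characteristic zero). -/

set_option autoImplicit false

namespace Pool.Agent.Lib.MP_5c318e_ag

open Polynomial

variable {Om G R : Type*} [Field Om] [LinearOrderedCommGroupWithZero G]

theorem Log_coeff (v : Valuation Om G) (r : G) (g : Om → G) (S : Multiset Om)
    (h1 : ∀ c ∈ S, v c ≤ g c) (h2 : ∀ c ∈ S, r ≤ g c) (i : ℕ) :
    v ((S.map fun c => X - C c).prod.coeff i) * r ^ i ≤ (S.map g).prod := by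
  induction S using Multiset.induction_on generalizing i with
  | empty =>
    rcases i with _ | i
    · simp
    · simp [coeff_one]
  | cons a S ih =>
    have ih' := ih (fun c hc => h1 c (Multiset.mem_cons_of_mem hc))
      (fun c hc => h2 c (Multiset.mem_cons_of_mem hc))
    have ha1 := h1 a (Multiset.mem_cons_self a S)
    have ha2 := h2 a (Multiset.mem_cons_self a S)
    rw [Multiset.map_cons, Multiset.prod_cons, Multiset.map_cons, Multiset.prod_cons]
    set P := (S.map fun c => X - C c).prod with hP
    have hc : ∀ j, v (a * P.coeff j) * r ^ j ≤ g a * (S.map g).prod := fun j => by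
      rw [map_mul, mul_assoc]
      exact mul_le_mul' ha1 (ih' j)
    rcases i with _ | i
    · have : ((X - C a) * P).coeff 0 = -(a * P.coeff 0) := by simp [sub_mul]
      rw [this, Valuation.map_neg]
      exact hc 0
    · have : ((X - C a) * P).coeff (i + 1) = P.coeff i - a * P.coeff (i + 1) := by
        simp [sub_mul, coeff_X_mul]
      rw [this]
      rcases le_max_iff.mp (v.map_sub (P.coeff i) (a * P.coeff (i + 1))) with h | h
      · refine le_trans (mul_le_mul' h le_rfl) ?_
        rw [pow_succ, ← mul_assoc, mul_comm (g a)]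
        exact mul_le_mul' (ih' i) ha2
      · exact le_trans (mul_le_mul' h le_rfl) (hc (i + 1))

theorem Log_der_eval [CommRing R] [Algebra R Om] (D : Derivation R Om Om) (P : Om[X]) (x : Om) :
    D (P.eval x) = ∑ i ∈ Finset.range (P.natDegree + 1), D (P.coeff i) * x ^ i
      + P.derivative.eval x * D x := by
  have h : ∀ n, P.natDegree < n → D (P.eval x) = ∑ i ∈ Finset.range n, D (P.coeff i) * x ^ i
      + P.derivative.eval x * D x := by
    induction P using Polynomial.induction_on' with
    | add p q hp hq =>
      intro n hn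
      have key : ∀ m, n ≤ m → ∑ i ∈ Finset.range m, D ((p + q).coeff i) * x ^ i
          = ∑ i ∈ Finset.range n, D ((p + q).coeff i) * x ^ i := by
        intro m hm
        symm
        refine Finset.sum_subset (Finset.range_mono hm) fun i _ hi => ?_
        rw [coeff_eq_zero_of_natDegree_lt (lt_of_lt_of_le hn (by simpa using hi))]
        simp
      rw [← key (max n (max (p.natDegree + 1) (q.natDegree + 1))) (le_max_left _ _)]
      simp only [eval_add, map_add, coeff_add, add_mul, Finset.sum_add_distrib]
      rw [hp (max n (max (p.natDegree + 1) (q.natDegree + 1))) (by omega),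
        hq (max n (max (p.natDegree + 1) (q.natDegree + 1))) (by omega)]
      ring
    | monomial k a =>
      intro n hn
      by_cases ha : a = 0
      · simp [ha]
      · rw [natDegree_monomial_eq _ ha] at hn
        rw [Finset.sum_eq_single k]
        · simp [derivative_monomial, Derivation.leibniz_pow]
          ring
        · intro i _ hi
          simp [coeff_monomial, hi.symm]
        · intro hk
          exact absurd (Finset.mem_range.mpr hn) hk
  exact h _ (Nat.lt_succ_self _)

theorem Log_est [CommRing R] [Algebra R Om] (v : Valuation Om G) (D : Derivation R Om Om)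
    (del : G) (t : Om) (S : Multiset Om) (h0 : ∀ c ∈ S, c ≠ t) (h1 : ∀ c ∈ S, v t ≤ v (t - c))
    (hQ : ∀ i, v (D (((t ::ₘ S).map fun c => X - C c).prod.coeff i))
      ≤ del * v (((t ::ₘ S).map fun c => X - C c).prod.coeff i)) :
    v (D t) ≤ del * v t := by
  set Q := ((t ::ₘ S).map fun c => X - C c).prod with hQd
  have hev : Q.eval t = 0 := by
    rw [hQd, Multiset.map_cons, Multiset.prod_cons]; simp
  have hder : Q.derivative.eval t = (S.map fun c => t - c).prod := by
    rw [hQd, Multiset.map_cons, Multiset.prod_cons, derivative_mul]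
    simp [eval_multiset_prod]
  have hv : v (Q.derivative.eval t) = (S.map fun c => v (t - c)).prod := by
    rw [hder, map_multiset_prod, Multiset.map_map]; rfl
  have hne : (S.map fun c => v (t - c)).prod ≠ 0 := by
    refine Multiset.prod_ne_zero fun h => ?_
    obtain ⟨c, hc, h⟩ := Multiset.mem_map.mp h
    exact h0 c hc (sub_eq_zero.mp (v.zero_iff.mp h)).symm
  have hb : ∀ i, v (Q.coeff i) * v t ^ i ≤ v t * (S.map fun c => v (t - c)).prod := by
    intro i
    refine le_trans (Log_coeff v (v t) (fun c => max (v t) (v c)) (t ::ₘ S)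
      (fun c _ => le_max_right _ _) (fun c _ => le_max_left _ _) i) ?_
    rw [Multiset.map_cons, Multiset.prod_cons, max_self]
    refine mul_le_mul' le_rfl (Multiset.prod_map_le_prod_map _ _ fun c hc => ?_)
    refine max_le (h1 c hc) ?_
    have : c = t - (t - c) := by ring
    rw [this]
    refine le_trans (v.map_sub _ _) (max_le ?_ ?_)
    · rw [← this]; exact h1 c hc
    · rw [← this]
  have hs := Log_der_eval D Q t
  rw [hev, map_zero] at hs
  have h2 : Q.derivative.eval t * D t
      = -∑ i ∈ Finset.range (Q.natDegree + 1), D (Q.coeff i) * t ^ i := by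
    linear_combination -hs
  have h3 : v (Q.derivative.eval t * D t) ≤ del * (v t * (S.map fun c => v (t - c)).prod) := by
    rw [h2, Valuation.map_neg]
    refine v.map_sum_le fun i _ => ?_
    rw [map_mul, map_pow]
    refine le_trans (mul_le_mul' (hQ i) le_rfl) ?_
    rw [mul_assoc]
    exact mul_le_mul' le_rfl (hb i)
  rw [map_mul, hv, mul_comm, ← mul_assoc] at h3
  exact le_of_mul_le_mul_right h3 (zero_lt_iff.mpr hne)

theorem Log_root [IsAlgClosed Om] (v : Valuation Om G) (hv : ∀ n : ℕ, n ≠ 0 → v n = 1)
    (P : Om[X]) (hP : P ≠ 0) (t t2 : Om) (h1 : P.eval t = 0) (h2 : P.eval t2 = 0) (hne : t2 ≠ t) :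
    ∃ k b, 1 ≤ k ∧ hasseDeriv k P ≠ 0 ∧ (hasseDeriv k P).eval b = 0 ∧ v (t - b) ≤ v (t2 - t) := by
  set p := t2 - t with hp
  have hp0 : v p ≠ 0 := fun h => hne (sub_eq_zero.mp (v.zero_iff.mp h))
  set T := taylor t P with hT
  have hT0 : T ≠ 0 := fun h => hP ((taylor_eq_zero _ _).mp h)
  have hTc : ∀ i, T.coeff i = (hasseDeriv i P).eval t := fun i => taylor_coeff _ _ i
  have hTe : T.eval p = 0 := by rw [hT, taylor_eval, hp, sub_add_cancel, h2]
  have hc0 : T.coeff 0 = 0 := by rw [hT, taylor_coeff_zero, h1]
  have hex : ∃ k, 1 ≤ k ∧ T.coeff (k + 1) ≠ 0 ∧ v (T.coeff k) ≤ v (T.coeff (k + 1)) * v p := by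
    by_contra hcon
    push Not at hcon
    have hstep : ∀ k, 1 ≤ k → T.coeff (k + 1) ≠ 0 →
        v (T.coeff (k + 1) * p ^ (k + 1)) < v (T.coeff k * p ^ k) := by
      intro k hk hk0
      have := hcon k hk hk0
      rw [map_mul, map_mul, map_pow, map_pow, pow_succ', ← mul_assoc]
      exact mul_lt_mul_of_pos_right this (zero_lt_iff.mpr (pow_ne_zero _ hp0))
    have hall : ∀ k, T.coeff (k + 2) ≠ 0 →
        v (T.coeff (k + 2) * p ^ (k + 2)) < v (T.coeff 1 * p ^ 1) := by
      intro k
      induction k with
      | zero => exact hstep 1 le_rfl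
      | succ k ih =>
        intro hk
        have h := hstep (k + 2) (by omega) hk
        refine lt_trans h (ih fun h0 => ?_)
        rw [h0] at h
        simp at h
    have hd : T.coeff T.natDegree ≠ 0 := by simpa using hT0
    have h10 : v (T.coeff 1 * p ^ 1) ≠ 0 := by
      rcases hn : T.natDegree with _ | _ | n
      · rw [hn] at hd; exact absurd hc0 hd
      · rw [hn] at hd
        rw [map_mul, map_pow]
        exact mul_ne_zero (fun h => hd (v.zero_iff.mp h)) (pow_ne_zero _ hp0)
      · rw [hn] at hd
        exact (lt_of_le_of_lt zero_le (hall n hd)).ne'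
    rw [eval_eq_sum_range' (n := T.natDegree + 2) (by omega), Finset.sum_range_succ',
      Finset.sum_range_succ', hc0, zero_mul, add_zero] at hTe
    have hlt : v (∑ k ∈ Finset.range T.natDegree, T.coeff (k + 1 + 1) * p ^ (k + 1 + 1))
        < v (T.coeff 1 * p ^ 1) := by
      refine v.map_sum_lt h10 fun k _ => ?_
      by_cases hk : T.coeff (k + 2) = 0
      · have : T.coeff (k + 1 + 1) = 0 := hk
        rw [this, zero_mul, map_zero]
        exact zero_lt_iff.mpr h10
      · exact hall k hk
    have : ∑ k ∈ Finset.range T.natDegree, T.coeff (k + 1 + 1) * p ^ (k + 1 + 1)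
        = -(T.coeff 1 * p ^ 1) := by
      simp only [zero_add] at hTe
      linear_combination hTe
    rw [this, Valuation.map_neg] at hlt
    exact lt_irrefl _ hlt
  obtain ⟨k, hk, hk0, hle⟩ := hex
  set U := hasseDeriv k P with hU
  have hU' : U.derivative.eval t = ((k + 1 : ℕ) : Om) * T.coeff (k + 1) := by
    have := congrArg (fun f => f P) (hasseDeriv_comp (R := Om) 1 k)
    simp only [LinearMap.comp_apply, hasseDeriv_one', LinearMap.smul_apply] at this
    rw [hU, this, hTc, add_comm 1 k]
    simp
  have hvU' : v (U.derivative.eval t) = v (T.coeff (k + 1)) := by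
    rw [hU', map_mul, hv _ (Nat.succ_ne_zero k), one_mul]
  have hv0 : v (T.coeff (k + 1)) ≠ 0 := fun h => hk0 (v.zero_iff.mp h)
  have hU0 : U ≠ 0 := by
    intro h
    rw [h] at hvU'
    simp at hvU'
    exact hv0 hvU'.symm
  by_cases hUt : U.eval t = 0
  · exact ⟨k, t, hk, hU0, hUt, by simp⟩
  by_contra hcon
  push Not at hcon
  have hsum := (IsAlgClosed.splits U).eval_derivative_eq_eval_mul_sum hUt
  have hlt : v ((U.roots.map fun z => 1 / (t - z)).sum) * v p < 1 := by
    have : ∀ S : Multiset Om, (∀ z ∈ S, v p < v (t - z)) →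
        v ((S.map fun z => 1 / (t - z)).sum) * v p < 1 := by
      intro S
      induction S using Multiset.induction_on with
      | empty => intro _; simp
      | cons a S ih =>
        intro hS
        rw [Multiset.map_cons, Multiset.sum_cons]
        have ha := hS a (Multiset.mem_cons_self a S)
        rcases le_max_iff.mp (v.map_add (1 / (t - a)) (S.map fun z => 1 / (t - z)).sum) with h | h
        · refine lt_of_le_of_lt (mul_le_mul' h le_rfl) ?_
          rw [map_div₀, map_one, one_div, inv_mul_lt_iff₀ (lt_of_le_of_lt zero_le ha), mul_one]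
          exact ha
        · exact lt_of_le_of_lt (mul_le_mul' h le_rfl)
            (ih fun z hz => hS z (Multiset.mem_cons_of_mem hz))
    exact this _ fun z hz => hcon k z hk hU0 (isRoot_of_mem_roots hz)
  have hUe : U.eval t = T.coeff k := (hTc k).symm
  rw [hsum, map_mul, hUe] at hvU'
  have : v (T.coeff (k + 1)) * v p < v (T.coeff k) := by
    rw [← hvU', mul_assoc]
    have hk' : v (T.coeff k) ≠ 0 := fun h => hUt (hUe.trans (v.zero_iff.mp h))
    simpa using mul_lt_mul_of_pos_left hlt (zero_lt_iff.mpr hk')
  exact absurd hle (not_le.mpr this)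

theorem Log_taylor_mem (K : Subfield Om) (Q : Om[X]) (hQ : ∀ i, Q.coeff i ∈ K) (b : Om)
    (hb : b ∈ K) (i : ℕ) : (taylor b Q).coeff i ∈ K := by
  rw [taylor_coeff, eval_eq_sum_range]
  refine sum_mem fun j _ => mul_mem ?_ (pow_mem hb _)
  rw [hasseDeriv_coeff]
  exact mul_mem (natCast_mem K _) (hQ _)

theorem Log_shift [CommRing R] [Algebra R Om] (v : Valuation Om G) (D : Derivation R Om Om)
    (del : G) (K : Subfield Om) (hK : ∀ f ∈ K, v (D f) ≤ del * v f) (t b : Om) (hb : b ∈ K)
    (S : Multiset Om) (h0 : ∀ c ∈ S, c ≠ t) (h1 : ∀ c ∈ S, v (t - b) ≤ v (t - c))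
    (hQ : ∀ i, ((t ::ₘ S).map fun c => X - C c).prod.coeff i ∈ K) :
    v (D (t - b)) ≤ del * v (t - b) := by
  refine Log_est v D del (t - b) (S.map fun c => c - b) ?_ ?_ ?_
  · intro c hc
    obtain ⟨c', hc', rfl⟩ := Multiset.mem_map.mp hc
    exact fun h => h0 c' hc' (sub_left_injective h)
  · intro c hc
    obtain ⟨c', hc', rfl⟩ := Multiset.mem_map.mp hc
    rw [sub_sub_sub_cancel_right]
    exact h1 c' hc'
  · intro i
    have : (((t - b) ::ₘ S.map fun c => c - b).map fun c => X - C c).prod
        = taylor b ((t ::ₘ S).map fun c => X - C c).prod := by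
      change _ = taylorAlgHom b _
      rw [map_multiset_prod, ← Multiset.map_cons (fun c => c - b),
        Multiset.map_map, Multiset.map_map]
      congr 1
      refine Multiset.map_congr rfl fun c _ => ?_
      change X - C (c - b) = taylor b (X - C c)
      simp only [map_sub, taylor_X, taylor_C]
      ring
    rw [this]
    exact hK _ (Log_taylor_mem K _ hQ b hb i)

theorem LOG [IsAlgClosed Om] [CommRing R] [Algebra R Om] (v : Valuation Om G)
    (hv : ∀ n : ℕ, n ≠ 0 → v n = 1) (D : Derivation R Om Om) (del : G) (F : Subfield Om)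
    (hF : ∀ f ∈ F, v (D f) ≤ del * v f) (th : Om) (hth : IsAlgebraic F th) :
    v (D th) ≤ del * v th := by
  classical
  have hchar : CharZero Om := ⟨fun a b hab => by
    by_contra hne
    rcases Nat.lt_or_gt_of_ne hne with h | h
    · obtain ⟨c, rfl⟩ := Nat.exists_eq_add_of_lt h
      have h2 : ((c + 1 : ℕ) : Om) = 0 := by push_cast at hab ⊢; linear_combination -hab
      have := hv (c + 1) (Nat.succ_ne_zero c)
      rw [h2] at this
      simp at this
    · obtain ⟨c, rfl⟩ := Nat.exists_eq_add_of_lt h
      have h2 : ((c + 1 : ℕ) : Om) = 0 := by push_cast at hab ⊢; linear_combination hab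
      have := hv (c + 1) (Nat.succ_ne_zero c)
      rw [h2] at this
      simp at this⟩
  have key : ∀ d, ∀ t : Om, IsIntegral F t → (minpoly F t).natDegree = d →
      v (D t) ≤ del * v t := by
    intro d
    induction d using Nat.strong_induction_on with
    | _ d ih =>
      intro t ht hd
      set q := minpoly F t with hq
      set Q := q.map (algebraMap F Om) with hQ
      have hQm : Q.Monic := (minpoly.monic ht).map _
      have hsep : Q.Separable := (minpoly.irreducible ht).separable.map
      have hnd : Q.roots.Nodup := nodup_roots hsep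
      have hQt : Q.eval t = 0 := by rw [hQ, eval_map_algebraMap]; exact minpoly.aeval F t
      have htm : t ∈ Q.roots := (mem_roots hQm.ne_zero).mpr hQt
      set S := Q.roots.erase t with hS
      have hcons : t ::ₘ S = Q.roots := Multiset.cons_erase htm
      have hprod : ((t ::ₘ S).map fun c => X - C c).prod = Q := by
        rw [hcons]; exact ((IsAlgClosed.splits Q).eq_prod_roots_of_monic hQm).symm
      have h0 : ∀ c ∈ S, c ≠ t := fun c hc => (hnd.mem_erase_iff.mp hc).1
      have hQF : ∀ i, Q.coeff i ∈ F := fun i => by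
        rw [hQ, coeff_map]; exact (q.coeff i).2
      by_cases hA : ∀ c ∈ S, v t ≤ v (t - c)
      · have := Log_shift v D del F hF t 0 F.zero_mem S h0 (by simpa using hA)
          (by rw [hprod]; exact hQF)
        simpa using this
      push Not at hA
      obtain ⟨c1, hc1, hlt⟩ := hA
      obtain ⟨t2, ht2, hmin⟩ := Finset.exists_min_image S.toFinset (fun c => v (t - c))
        ⟨c1, Multiset.mem_toFinset.mpr hc1⟩
      have ht2' := Multiset.mem_toFinset.mp ht2
      obtain ⟨k, b, hk, hk0, hb, hvb⟩ := Log_root v hv Q hQm.ne_zero t t2 hQt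
        (isRoot_of_mem_roots (Multiset.mem_of_mem_erase ht2')) (h0 t2 ht2')
      rw [v.map_sub_swap t2 t] at hvb
      have hmap : hasseDeriv k Q = (hasseDeriv k q).map (algebraMap F Om) := by
        ext i
        simp [hQ, hasseDeriv_coeff, coeff_map]
      have hq0 : hasseDeriv k q ≠ 0 := fun h => hk0 (by rw [hmap, h, Polynomial.map_zero])
      have hba : aeval b (hasseDeriv k q) = 0 := by rw [← eval_map_algebraMap, ← hmap, hb]
      have hbi : IsIntegral F b := IsAlgebraic.isIntegral ⟨_, hq0, hba⟩
      have hdb : (minpoly F b).natDegree < d := by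
        have h1 := natDegree_le_natDegree (minpoly.degree_le_of_ne_zero F b hq0 hba)
        have h2 := natDegree_hasseDeriv_le q k
        have h3 := minpoly.natDegree_pos ht
        rw [← hq] at h3
        omega
      have hfd := IntermediateField.adjoin.finiteDimensional hbi
      have hK : ∀ f ∈ (IntermediateField.adjoin F {b}).toSubfield, v (D f) ≤ del * v f := by
        intro f hf
        let f' : IntermediateField.adjoin F {b} := ⟨f, hf⟩
        have hfi : IsIntegral F f' := IsIntegral.of_finite F f'
        have h1 := minpoly.natDegree_le (A := F) f'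
        rw [IntermediateField.adjoin.finrank hbi, IntermediateField.minpoly_eq] at h1
        exact ih _ (lt_of_le_of_lt h1 hdb) f (IntermediateField.coe_isIntegral_iff.mpr hfi) rfl
      have hbK : b ∈ (IntermediateField.adjoin F {b}).toSubfield :=
        IntermediateField.mem_adjoin_simple_self F b
      have h1 := Log_shift v D del _ hK t b hbK S h0
        (fun c hc => le_trans hvb (hmin c (Multiset.mem_toFinset.mpr hc)))
        (by
          rw [hprod]
          exact fun i => (IntermediateField.adjoin F {b}).algebraMap_mem ⟨_, hQF i⟩)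
      have hlt2 : v (t - b) < v t :=
        lt_of_le_of_lt (le_trans hvb (hmin c1 (Multiset.mem_toFinset.mpr hc1))) hlt
      have hvbt : v b ≤ v t := by
        have : b = t - (t - b) := by ring
        rw [this]
        exact le_trans (v.map_sub _ _) (max_le le_rfl hlt2.le)
      have : D t = D (t - b) + D b := by rw [← map_add, sub_add_cancel]
      rw [this]
      exact le_trans (v.map_add _ _) (max_le (le_trans h1 (mul_le_mul' le_rfl hlt2.le))
        (le_trans (hK b hbK) (mul_le_mul' le_rfl hvbt)))
  exact key _ th hth.isIntegral rfl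

end Pool.Agent.Lib.MP_5c318e_ag
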