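import Pool.Agent.Lib.MP_5c318e_ag.Gauss
import Pool.Agent.Lib.MP_5c318e_ag.Log

/-! Existence and uniqueness of derivations, Jacobian criterion in characteristic zero. -/

namespace Pool.Agent.Lib.MP_5c318e_ag

open Polynomial

variable {R Om : Type*} [CommRing R] [Field Om] [Algebra R Om]

/-- a derivation with prescribed values on a transcendence basis -/
theorem der_exists_basis {k s : Type*} [Field k] [CharZero k] [Algebra k Om] {y : s → Om}
    (hy : IsTranscendenceBasis k y) (de : s → Om) :
    ∃ D : Derivation k Om Om, ∀ a, D (y a) = de a := by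
  let F := IntermediateField.adjoin k (Set.range y)
  have : Algebra.IsAlgebraic F Om := hy.isAlgebraic_field
  have : CharZero F := charZero_of_injective_algebraMap (algebraMap k F).injective
  have : Algebra.IsSeparable F Om := Algebra.IsAlgebraic.isSeparable_of_perfectField
  let P := MvPolynomial s k
  let _ : Algebra P F :=
    ((hy.1.aevalEquivField : FractionRing P →+* F).comp (algebraMap P (FractionRing P))).toAlgebra
  let _ : Algebra P Om := ((algebraMap F Om).comp (algebraMap P F)).toAlgebra
  have : IsScalarTower P F Om := .of_algebraMap_eq fun _ => rfl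
  have hP : ∀ a : P, algebraMap P Om a = MvPolynomial.aeval y a := fun a =>
    hy.1.aevalEquivField_algebraMap_apply_coe a
  have : IsScalarTower k P Om := .of_algebraMap_eq fun c => by
    rw [hP]; exact ((MvPolynomial.aeval y).commutes c).symm
  have : IsFractionRing P F := IsLocalization.isLocalization_of_algEquiv (nonZeroDivisors P)
    (AlgEquiv.ofRingEquiv (f := hy.1.aevalEquivField.toRingEquiv) fun _ => rfl)
  have : Algebra.FormallyEtale P F := .of_isLocalization (nonZeroDivisors P)
  have : Algebra.FormallyEtale F Om := .of_isSeparable F Om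
  have : Algebra.FormallyEtale P Om := .comp P F Om
  let b := ((KaehlerDifferential.mvPolynomialBasis k s).baseChange Om).map
      (KaehlerDifferential.tensorKaehlerEquivOfFormallyEtale k P Om)
  have hb : ∀ a, b a = KaehlerDifferential.D k Om (y a) := fun a => by
    rw [Module.Basis.map_apply, Module.Basis.baseChange_apply,
      KaehlerDifferential.mvPolynomialBasis_apply,
      ← KaehlerDifferential.tensorKaehlerEquivOfFormallyEtale_symm_D_algebraMap k P Om,
      LinearEquiv.apply_symm_apply, hP, MvPolynomial.aeval_X]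
  refine ⟨(b.constr Om de).compDer (KaehlerDifferential.D k Om), fun a => ?_⟩
  change b.constr Om de (KaehlerDifferential.D k Om (y a)) = de a
  rw [← hb, Module.Basis.constr_basis]

/-- a derivation with prescribed values on an algebraically independent family -/
theorem der_exists {k s : Type*} [Field k] [CharZero k] [Algebra k Om] {y : s → Om}
    (hy : AlgebraicIndependent k y) (de : s → Om) :
    ∃ D : Derivation k Om Om, ∀ a, D (y a) = de a := by
  obtain ⟨t, ht, h⟩ := exists_isTranscendenceBasis_superset hy.to_subtype_range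
  obtain ⟨D, hD⟩ := der_exists_basis h fun b => Function.extend y de 0 b
  exact ⟨D, fun a => (hD ⟨y a, ht ⟨a, rfl⟩⟩).trans (hy.injective.extend_apply ..)⟩

/-- dual derivations of an algebraically independent family -/
theorem der_dual_exists {k s : Type*} [Field k] [CharZero k] [Algebra k Om] [DecidableEq s]
    {y : s → Om} (hy : AlgebraicIndependent k y) :
    ∃ d : s → Derivation k Om Om, ∀ j a, d j (y a) = if a = j then 1 else 0 := by
  choose d hd using fun j : s => der_exists hy fun a => if a = j then 1 else 0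
  exact ⟨d, hd⟩

/-- the constants of a derivation -/
def consts (D : Derivation R Om Om) : Subfield Om where
  carrier := {x | D x = 0}
  mul_mem' := fun {a b} ha hb => by
    have ha : D a = 0 := ha
    have hb : D b = 0 := hb
    change D (a * b) = 0
    simp [ha, hb]
  one_mem' := D.map_one_eq_zero
  add_mem' := fun {a b} ha hb => by
    have ha : D a = 0 := ha
    have hb : D b = 0 := hb
    change D (a + b) = 0
    simp [ha, hb]
  zero_mem' := map_zero D
  neg_mem' := fun {a} ha => by
    have ha : D a = 0 := ha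
    change D (-a) = 0
    simp [ha]
  inv_mem' := fun a ha => by
    have ha : D a = 0 := ha
    change D a⁻¹ = 0
    simp [D.leibniz_inv, ha]

theorem mem_consts {D : Derivation R Om Om} {x : Om} : x ∈ consts D ↔ D x = 0 := Iff.rfl

theorem der_zero_closure (D : Derivation R Om Om) {S : Set Om} (h : ∀ x ∈ S, D x = 0) {x : Om}
    (hx : x ∈ Subfield.closure S) : D x = 0 :=
  (Subfield.closure_le (t := consts D)).2 h hx

theorem der_aeval (D : Derivation R Om Om) (F : Subfield Om) (h : ∀ c ∈ F, D c = 0) (x : Om)
    (p : F[X]) : D (aeval x p) = aeval x (derivative p) * D x := by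
  induction p using Polynomial.induction_on' with
  | add p q hp hq => simp [hp, hq, add_mul]
  | monomial n a =>
    have ha : D (algebraMap F Om a) = 0 := h a a.2
    rw [aeval_monomial, derivative_monomial, aeval_monomial, D.leibniz, ha, D.leibniz_pow]
    simp [mul_assoc]

/-- a derivation killing a subfield kills its algebraic closure -/
theorem der_zero_alg [CharZero Om] (D : Derivation R Om Om) (F : Subfield Om)
    (h : ∀ c ∈ F, D c = 0) {x : Om} (hx : IsAlgebraic F x) : D x = 0 := by
  have hi := hx.isIntegral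
  have h1 := der_aeval D F h x (minpoly F x)
  rw [minpoly.aeval, map_zero] at h1
  have hsep : (minpoly F x).Separable := (minpoly.irreducible hi).separable
  have h2 := hsep.aeval_derivative_ne_zero (minpoly.aeval F x)
  exact (mul_eq_zero.1 h1.symm).resolve_left h2

theorem der_zero_acl [CharZero Om] (D : Derivation R Om Om) {S : Set Om}
    (h : ∀ x ∈ S, D x = 0) {x : Om} (hx : IsAlgebraic (Subfield.closure S) x) : D x = 0 :=
  der_zero_alg D _ (fun _ hc => der_zero_closure D h hc) hx

/-- uniqueness, for derivations over different base rings -/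
theorem der_ext_acl [CharZero Om] {R' : Type*} [CommRing R'] [Algebra R' Om]
    (D : Derivation R Om Om) (D' : Derivation R' Om Om) {S : Set Om}
    (h : ∀ x ∈ S, D x = D' x) {x : Om} (hx : IsAlgebraic (Subfield.closure S) x) :
    D x = D' x := by
  have := der_zero_acl (D.restrictScalars ℤ - D'.restrictScalars ℤ)
    (fun y hy => by simp [h y hy]) hx
  simpa [sub_eq_zero] using this

/-- a transcendental element is moved by some derivation -/
theorem der_exists_trans [CharZero Om] (F : Subfield Om) {x : Om} (hx : ¬IsAlgebraic F x) :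
    ∃ e : Derivation F Om Om, (∀ c ∈ F, e c = 0) ∧ e x = 1 := by
  have hi : AlgebraicIndependent F fun _ : Unit => x :=
    algebraicIndependent_unique_type_iff.2 hx
  obtain ⟨e, he⟩ := der_exists hi fun _ => 1
  exact ⟨e, fun c hc => e.map_algebraMap (⟨c, hc⟩ : F), he ()⟩

theorem der_mem_closure (D : Derivation R Om Om) {S : Set Om} (F : Subfield Om)
    (hS : S ⊆ F) (h : ∀ x ∈ S, D x ∈ F) {x : Om} (hx : x ∈ Subfield.closure S) : D x ∈ F := by
  have hle : Subfield.closure S ≤ F := Subfield.closure_le.2 hS
  induction hx using Subfield.closure_induction with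
  | mem x hx => exact h x hx
  | one => simp
  | add x y _ _ hx hy => rw [map_add]; exact F.add_mem hx hy
  | neg x _ hx => rw [map_neg]; exact F.neg_mem hx
  | inv x hm hx =>
    rw [D.leibniz_inv, smul_eq_mul]
    exact F.mul_mem (F.neg_mem (F.pow_mem (F.inv_mem (hle hm)) 2)) hx
  | mul x y hm hn hx hy =>
    rw [D.leibniz, smul_eq_mul, smul_eq_mul]
    exact F.add_mem (F.mul_mem (hle hm) hy) (F.mul_mem (hle hn) hx)

/-- a derivation mapping `F0` into `F` maps every element of `F` algebraic over `F0` into `F` -/
theorem der_mem_alg [CharZero Om] (D : Derivation R Om Om) {F0 F : Subfield Om} (hle : F0 ≤ F)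
    (h : ∀ c ∈ F0, D c ∈ F) {x : Om} (hxF : x ∈ F) (hx : IsAlgebraic F0 x) : D x ∈ F := by
  have hi := hx.isIntegral
  set P : Om[X] := (minpoly F0 x).map (algebraMap F0 Om) with hP
  have hc : ∀ n, P.coeff n ∈ F0 := fun n => by rw [hP, coeff_map]; exact Subtype.prop _
  have h0 : P.eval x = 0 := by rw [hP, eval_map_algebraMap, minpoly.aeval]
  have hsep : (minpoly F0 x).Separable := (minpoly.irreducible hi).separable
  have h2 : P.derivative.eval x ≠ 0 := by
    rw [hP, derivative_map, eval_map_algebraMap]
    exact hsep.aeval_derivative_ne_zero (minpoly.aeval F0 x)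
  have h1 := Log_der_eval D P x
  rw [h0, map_zero] at h1
  have hm : P.derivative.eval x ∈ F := by
    rw [eval_eq_sum_range]
    refine F.sum_mem fun n _ => F.mul_mem ?_ (F.pow_mem hxF n)
    rw [coeff_derivative]
    exact F.mul_mem (hle (hc _)) (F.add_mem (natCast_mem F n) F.one_mem)
  have e : D x = -(∑ n ∈ Finset.range (P.natDegree + 1), D (P.coeff n) * x ^ n) *
      (P.derivative.eval x)⁻¹ := by
    field_simp
    linear_combination -h1
  rw [e]
  exact F.mul_mem (F.neg_mem (F.sum_mem fun n _ => F.mul_mem (h _ (hc n)) (F.pow_mem hxF n)))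
    (F.inv_mem hm)

/-- conjugate of a derivation by a ring automorphism -/
def conjDer (g : Om ≃+* Om) (D : Derivation R Om Om) : Derivation ℤ Om Om :=
  Derivation.mk' (AddMonoidHom.toIntLinearMap
    ⟨⟨fun z => g.symm (D (g z)), by simp⟩, fun z w => by simp⟩) fun z w => by
      simp [D.leibniz]

theorem conjDer_apply (g : Om ≃+* Om) (D : Derivation R Om Om) (z : Om) :
    conjDer g D z = g.symm (D (g z)) := rfl

/-- COMM: commutation on generators gives commutation on the algebraic closure -/
theorem der_comm [CharZero Om] (g : Om ≃+* Om) (D : Derivation R Om Om) {S : Set Om}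
    (h : ∀ x ∈ S, D (g x) = g (D x)) {x : Om} (hx : IsAlgebraic (Subfield.closure S) x) :
    D (g x) = g (D x) := by
  have := der_ext_acl (conjDer g D) D (S := S)
    (fun y hy => by rw [conjDer_apply, h y hy, g.symm_apply_apply]) hx
  rw [← this, conjDer_apply, g.apply_symm_apply]

variable {i : Type*} [Fintype i] [DecidableEq i]

/-- any derivation killing `k0` is a combination of the dual ones on the algebraic closure -/
theorem der_eq_sum_dual [CharZero Om] {R' : Type*} [CommRing R'] [Algebra R' Om]
    {k0 : Subfield Om} (d : i → Derivation R Om Om) (hd : ∀ j, ∀ c ∈ k0, d j c = 0)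
    {b : i → Om} (hb : Jac d b ≠ 0) (e : Derivation R' Om Om) (he : ∀ c ∈ k0, e c = 0) {x : Om}
    (hx : IsAlgebraic (Subfield.closure ((k0 : Set Om) ∪ Set.range b)) x) :
    e x = ∑ k, dual d b k x * e (b k) := by
  have := der_ext_acl e (∑ k, e (b k) • dual d b k) (S := (k0 : Set Om) ∪ Set.range b) ?_ hx
  · rw [this, der_sum_apply]
    exact Finset.sum_congr rfl fun k _ => by rw [Derivation.smul_apply, smul_eq_mul, mul_comm]
  · rintro y (hy | ⟨a, rfl⟩)
    · rw [he y hy, der_sum_apply]
      refine (Finset.sum_eq_zero fun k _ => ?_).symm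
      rw [Derivation.smul_apply, dual_zero d b k fun j => hd j y hy, smul_zero]
    · rw [der_sum_apply]
      simp [dual_self d hb]

/-- chain rule for a second family of derivations -/
theorem jac_chain' [CharZero Om] {R' : Type*} [CommRing R'] [Algebra R' Om]
    {k0 : Subfield Om} (d : i → Derivation R Om Om) (hd : ∀ j, ∀ c ∈ k0, d j c = 0)
    {b : i → Om} (hb : Jac d b ≠ 0) (e : i → Derivation R' Om Om)
    (he : ∀ j, ∀ c ∈ k0, e j c = 0) (f : i → Om)
    (hf : ∀ a, IsAlgebraic (Subfield.closure ((k0 : Set Om) ∪ Set.range b)) (f a)) :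
    Jac e f * Jac d b = Jac d f * Jac e b := by
  have h : Jac e f = Jac (dual d b) f * Jac e b := by
    unfold Jac
    rw [← Matrix.det_mul]
    congr 1
    ext a c
    rw [Matrix.of_apply, der_eq_sum_dual d hd hb (e c) (he c) (hf a)]
    simp [Matrix.mul_apply]
  rw [h, jac_chain d hb f]
  ring

theorem jac_self {d : i → Derivation R Om Om} {b : i → Om}
    (h : ∀ j a, d j (b a) = if a = j then 1 else 0) : Jac d b = 1 := by
  unfold Jac
  have : (Matrix.of fun a c => d c (b a)) = 1 := by
    ext a c
    rw [Matrix.of_apply, h, Matrix.one_apply]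
  rw [this, Matrix.det_one]

/-- Jacobian criterion: independent families have nonzero Jacobian -/
theorem jac_ne_zero [CharZero Om] {k0 : Subfield Om} (d : i → Derivation R Om Om)
    (hd : ∀ j, ∀ c ∈ k0, d j c = 0) {b : i → Om} (hb : Jac d b ≠ 0) {f : i → Om}
    (hi : AlgebraicIndependent k0 f)
    (hf : ∀ a, IsAlgebraic (Subfield.closure ((k0 : Set Om) ∪ Set.range b)) (f a)) :
    Jac d f ≠ 0 := by
  obtain ⟨e, he⟩ := der_dual_exists hi
  have h := jac_chain' d hd hb e (fun j c hc => (e j).map_algebraMap (⟨c, hc⟩ : k0)) f hf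
  rw [jac_self he, one_mul] at h
  intro h0
  rw [h0, zero_mul] at h
  exact hb h

/-- Jacobian criterion: a nonzero Jacobian forces independence -/
theorem indep_of_jac [CharZero Om] {k0 : Subfield Om} (d : i → Derivation R Om Om)
    (hd : ∀ j, ∀ c ∈ k0, d j c = 0) {b : i → Om} (hb : Jac d b ≠ 0) :
    AlgebraicIndependent k0 b := by
  refine algebraicIndependent_of_finite_type' (algebraMap k0 Om).injective ?_
  intro t _ _ a ha hal
  have h1 : dual d b a (b a) = 1 := by rw [dual_self d hb, if_pos rfl]
  have hle : ∀ x ∈ Algebra.adjoin k0 (b '' t), x ∈ consts (dual d b a) := by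
    intro x hx
    induction hx using Algebra.adjoin_induction with
    | mem x hx =>
      obtain ⟨c, hc, rfl⟩ := hx
      rw [mem_consts, dual_self d hb, if_neg]
      rintro rfl
      exact ha hc
    | algebraMap r => exact dual_zero d b a fun j => hd j r r.2
    | add x y _ _ hx hy => exact add_mem hx hy
    | mul x y _ _ hx hy => exact mul_mem hx hy
  let ph : Algebra.adjoin k0 (b '' t) →+* consts (dual d b a) :=
    (Algebra.adjoin k0 (b '' t)).val.toRingHom.codRestrict _ fun x => hle x x.2
  have hinj : Function.Injective ph := fun x y e =>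
    Subtype.ext (congrArg (fun z : consts (dual d b a) => (z : Om)) e)
  have hal2 : IsAlgebraic (consts (dual d b a)) (b a) :=
    hal.ringHom_of_comp_eq ph (RingHom.id Om) hinj (RingHom.ext fun _ => rfl)
  have := der_zero_alg (dual d b a) _ (fun c hc => hc) hal2
  rw [h1] at this
  exact one_ne_zero this

/-- constants of a frame: the algebraic closure of the base -/
theorem alg_of_der_zero [CharZero Om] {k0 : Subfield Om} (d : i → Derivation R Om Om)
    (hd : ∀ j, ∀ c ∈ k0, d j c = 0) {b : i → Om} (hb : Jac d b ≠ 0) {x : Om}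
    (hx : IsAlgebraic (Subfield.closure ((k0 : Set Om) ∪ Set.range b)) x)
    (h0 : ∀ j, d j x = 0) : IsAlgebraic k0 x := by
  by_contra hn
  obtain ⟨e, he, h1⟩ := der_exists_trans k0 hn
  rw [der_eq_sum_dual d hd hb e he hx] at h1
  simp [dual_zero d b _ h0] at h1

/-- FULL, Jacobian form -/
theorem alg_of_jac [CharZero Om] {k0 : Subfield Om} (d : i → Derivation R Om Om)
    (hd : ∀ j, ∀ c ∈ k0, d j c = 0) {b : i → Om} (hb : Jac d b ≠ 0) {f : i → Om}
    (hJ : Jac d f ≠ 0)
    (hf : ∀ a, IsAlgebraic (Subfield.closure ((k0 : Set Om) ∪ Set.range b)) (f a)) {x : Om}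
    (hx : IsAlgebraic (Subfield.closure ((k0 : Set Om) ∪ Set.range b)) x) :
    IsAlgebraic (Subfield.closure ((k0 : Set Om) ∪ Set.range f)) x := by
  by_contra hn
  obtain ⟨e, he, h1⟩ := der_exists_trans _ hn
  have hk : ∀ c ∈ k0, e c = 0 := fun c hc => he c (Subfield.subset_closure (Or.inl hc))
  have hJ2 : (Matrix.of fun a k => dual d b k (f a)).det ≠ 0 := by
    intro h
    apply hJ
    rw [jac_chain d hb f]
    exact mul_eq_zero_of_right _ h
  have hz : (fun k => e (b k)) = 0 := by
    refine Matrix.eq_zero_of_mulVec_eq_zero hJ2 ?_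
    ext a
    have := der_eq_sum_dual d hd hb e hk (hf a)
    rw [he _ (Subfield.subset_closure (Or.inr ⟨a, rfl⟩))] at this
    simpa [Matrix.mulVec, dotProduct] using this.symm
  rw [der_eq_sum_dual d hd hb e hk hx] at h1
  have hz' : ∀ k, e (b k) = 0 := fun k => congrFun hz k
  simp [hz'] at h1

/-- FULL: two independent families of the same size, one algebraic over the other -/
theorem alg_of_indep [CharZero Om] {k0 : Subfield Om} {b f : i → Om}
    (hb : AlgebraicIndependent k0 b) (hi : AlgebraicIndependent k0 f)
    (hf : ∀ a, IsAlgebraic (Subfield.closure ((k0 : Set Om) ∪ Set.range b)) (f a)) {x : Om}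
    (hx : IsAlgebraic (Subfield.closure ((k0 : Set Om) ∪ Set.range b)) x) :
    IsAlgebraic (Subfield.closure ((k0 : Set Om) ∪ Set.range f)) x := by
  obtain ⟨d, hd⟩ := der_dual_exists hb
  have hk : ∀ j, ∀ c ∈ k0, d j c = 0 := fun j c hc => (d j).map_algebraMap (⟨c, hc⟩ : k0)
  have hJ : Jac d b ≠ 0 := by rw [jac_self hd]; exact one_ne_zero
  exact alg_of_jac d hk hJ (jac_ne_zero d hk hJ hi hf) hf hx

/-- COMM for a frame with values `0`, `1` on `b` -/
theorem frame_comm [CharZero Om] {k0 : Subfield Om} {s : Type*} [DecidableEq s]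
    (d : s → Derivation R Om Om) (hd : ∀ j, ∀ c ∈ k0, d j c = 0) {b : s → Om}
    (hb : ∀ j a, d j (b a) = if a = j then 1 else 0) (g : Om ≃+* Om)
    (hgk : ∀ c ∈ k0, g c ∈ k0) (hgb : ∀ a, g (b a) = b a) (j : s) {x : Om}
    (hx : IsAlgebraic (Subfield.closure ((k0 : Set Om) ∪ Set.range b)) x) :
    d j (g x) = g (d j x) := by
  refine der_comm g (d j) ?_ hx
  rintro y (hy | ⟨a, rfl⟩)
  · rw [hd j y hy, hd j _ (hgk y hy), map_zero]
  · rw [hgb, hb]
    split_ifs <;> simp

theorem dual_comm [CharZero Om] {k0 : Subfield Om} (d : i → Derivation R Om Om)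
    (hd : ∀ j, ∀ c ∈ k0, d j c = 0) {b : i → Om} (hb : Jac d b ≠ 0) (g : Om ≃+* Om)
    (hgk : ∀ c ∈ k0, g c ∈ k0) (hgb : ∀ a, g (b a) = b a) (j : i) {x : Om}
    (hx : IsAlgebraic (Subfield.closure ((k0 : Set Om) ∪ Set.range b)) x) :
    dual d b j (g x) = g (dual d b j x) :=
  frame_comm (dual d b) (fun k _ hc => dual_zero d b k fun l => hd l _ hc) (dual_self d hb) g hgk
    hgb j hx

/-- Jacobians commute with an automorphism commuting with the frame -/
theorem jac_map (d : i → Derivation R Om Om) (g : Om ≃+* Om) (f : i → Om)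
    (h : ∀ j a, d j (g (f a)) = g (d j (f a))) : Jac d (fun a => g (f a)) = g (Jac d f) := by
  unfold Jac
  rw [RingEquiv.map_det]
  congr 1
  ext a c
  simp [h]

end Pool.Agent.Lib.MP_5c318e_ag
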