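import Pool.Agent.Lib.MP_5c318e_ag.Unr
import Pool.Agent.Lib.MP_5c318e_ag.Gauss

/-! Residue API, part 1: residually independent families, base change, maximal subfamilies. -/

namespace Pool.Agent.Lib.MP_5c318e_ag

open MvPolynomial

section Defs

variable {Om : Type*} [Field Om] {G : Type*} [LinearOrderedCommGroupWithZero G]

/-- `y` is residually independent over `C`: every nonzero polynomial in `y` is a unit. -/
def RIndC (C : Type*) [CommRing C] [Algebra C Om] (v : Valuation Om G) {ι : Type*}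
    (y : ι → Om) : Prop :=
  ∀ p : MvPolynomial ι C, p ≠ 0 → v (aeval y p) = 1

/-- `z` is residually algebraic over the subfield `F` (the hypothesis of `minp`). -/
def RAlg (v : Valuation Om G) (F : Subfield Om) (z : Om) : Prop :=
  ∃ p ∈ PO v F, (∃ i, v (p.coeff i) = 1) ∧ v (p.eval z) < 1

/-- The subfield generated by `C` and a family. -/
def genF (C : Type*) [CommRing C] [Algebra C Om] {ι : Type*} (y : ι → Om) : Subfield Om :=
  Subfield.closure (Set.range (algebraMap C Om) ∪ Set.range y)

variable {C : Type*} [CommRing C] [Algebra C Om] {v : Valuation Om G} {ι κ : Type*}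

theorem RIndC.aeval_le {y : ι → Om} (h : RIndC C v y) (p : MvPolynomial ι C) :
    v (aeval y p) ≤ 1 := by
  rcases eq_or_ne p 0 with rfl | hp
  · simp
  · exact (h p hp).le

theorem RIndC.const {y : ι → Om} (h : RIndC C v y) {c : C} (hc : c ≠ 0) :
    v (algebraMap C Om c) = 1 := by
  simpa using h (MvPolynomial.C c) (by simpa using hc)

theorem RIndC.const_le {y : ι → Om} (h : RIndC C v y) (c : C) : v (algebraMap C Om c) ≤ 1 := by
  simpa using h.aeval_le (MvPolynomial.C c)

theorem RIndC.val_le {y : ι → Om} (h : RIndC C v y) (i : ι) : v (y i) ≤ 1 := by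
  simpa using h.aeval_le (X i)

theorem RIndC.val_eq [Nontrivial C] {y : ι → Om} (h : RIndC C v y) (i : ι) : v (y i) = 1 := by
  simpa using h (X i) (X_ne_zero i)

theorem RIndC.comp {y : ι → Om} (h : RIndC C v y) (f : κ → ι) (hf : Function.Injective f) :
    RIndC C v (y ∘ f) := fun p hp => by
  rw [← aeval_rename]
  exact h _ fun h0 => hp (rename_injective f hf (by rw [h0, map_zero]))

theorem RIndC.left {u : κ → Om} {y : ι → Om} (h : RIndC C v (Sum.elim u y)) : RIndC C v u :=
  h.comp Sum.inl Sum.inl_injective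

theorem RIndC.right {u : κ → Om} {y : ι → Om} (h : RIndC C v (Sum.elim u y)) : RIndC C v y :=
  h.comp Sum.inr Sum.inr_injective

theorem RIndC.swap {u : κ → Om} {y : ι → Om} (h : RIndC C v (Sum.elim u y)) :
    RIndC C v (Sum.elim y u) := by
  have := h.comp Sum.swap (Sum.swap_leftInverse.injective)
  convert this using 1
  ext x; cases x <;> rfl

theorem RIndC.algInd {y : ι → Om} (h : RIndC C v y) : AlgebraicIndependent C y :=
  algebraicIndependent_iff.2 fun p hp => by
    by_contra h0
    have := h p h0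
    rw [hp, map_zero] at this
    exact zero_ne_one this

theorem RIndC_empty [IsEmpty ι] (hC : ∀ c : C, c ≠ 0 → v (algebraMap C Om c) = 1) (y : ι → Om) :
    RIndC C v y := fun p hp => by
  rw [eq_C_of_isEmpty p] at hp ⊢
  rw [aeval_C]
  exact hC _ fun h => hp (by rw [h, map_zero])

theorem algebraMap_mem_gen (y : ι → Om) (c : C) : algebraMap C Om c ∈ genF C y :=
  Subfield.subset_closure (Or.inl ⟨c, rfl⟩)

theorem mem_gen (y : ι → Om) (i : ι) : y i ∈ genF C y :=
  Subfield.subset_closure (Or.inr ⟨i, rfl⟩)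

theorem gen_le {y : ι → Om} {F : Subfield Om} (hC : ∀ c : C, algebraMap C Om c ∈ F)
    (hy : ∀ i, y i ∈ F) : genF C y ≤ F := by
  refine Subfield.closure_le.2 ?_
  rintro _ (⟨c, rfl⟩ | ⟨i, rfl⟩)
  · exact hC c
  · exact hy i

theorem aeval_mem_of {y : ι → Om} {F : Subfield Om} (hC : ∀ c : C, algebraMap C Om c ∈ F)
    (hy : ∀ i, y i ∈ F) (p : MvPolynomial ι C) : aeval y p ∈ F := by
  induction p using MvPolynomial.induction_on with
  | C r => simpa using hC r
  | add p q hp hq => rw [map_add]; exact add_mem hp hq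
  | mul_X p i h => rw [map_mul, aeval_X]; exact mul_mem h (hy i)

theorem exists_frac_of_mem_gen {y : ι → Om} {a : Om} (ha : a ∈ genF C y) :
    ∃ p q : MvPolynomial ι C, a = aeval y p / aeval y q := by
  obtain ⟨p, hp, q, hq, rfl⟩ := Subfield.mem_closure_iff.1 ha
  have key : ∀ z ∈ Subring.closure (Set.range (algebraMap C Om) ∪ Set.range y),
      ∃ P : MvPolynomial ι C, aeval y P = z := fun z hz => by
    have : z ∈ Algebra.adjoin C (Set.range y) := by
      rw [← Subalgebra.mem_toSubring, Algebra.adjoin_eq_ring_closure]; exact hz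
    rw [Algebra.adjoin_range_eq_range_aeval] at this
    exact this
  obtain ⟨P, rfl⟩ := key p hp
  obtain ⟨Q, rfl⟩ := key q hq
  exact ⟨P, Q, rfl⟩

/-- The valuation is trivial on the field generated by a residually independent family. -/
theorem RIndC.triv {y : ι → Om} (h : RIndC C v y) {a : Om} (ha : a ∈ genF C y) (h0 : a ≠ 0) :
    v a = 1 := by
  obtain ⟨p, q, rfl⟩ := exists_frac_of_mem_gen ha
  have hp : p ≠ 0 := by rintro rfl; simp at h0
  have hq : q ≠ 0 := by rintro rfl; simp at h0
  rw [map_div₀, h p hp, h q hq, div_one]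

theorem RIndC.triv_le {y : ι → Om} (h : RIndC C v y) {a : Om} (ha : a ∈ genF C y) : v a ≤ 1 := by
  rcases eq_or_ne a 0 with rfl | h0
  · simp
  · exact (h.triv ha h0).le

theorem eval₂_sumAlgEquiv (u : κ → Om) (y : ι → Om) (P : MvPolynomial (ι ⊕ κ) C) :
    eval₂ (aeval u : MvPolynomial κ C →ₐ[C] Om).toRingHom y (sumAlgEquiv C ι κ P)
      = aeval (Sum.elim y u) P := by
  induction P using MvPolynomial.induction_on with
  | C r => simp
  | add p q hp hq => rw [map_add, eval₂_add, hp, hq, map_add]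
  | mul_X p i h => rw [map_mul, eval₂_mul, h, map_mul]; cases i <;> simp

/-- Building up: `u` independent over `C`, `y` independent over a ring containing `C` and `u`. -/
theorem RIndC.sum_of_base {u : κ → Om} {y : ι → Om} (hu : RIndC C v u) (F : Subfield Om)
    (hC : ∀ c : C, algebraMap C Om c ∈ F) (huF : ∀ i, u i ∈ F) (hy : RIndC F v y) :
    RIndC C v (Sum.elim u y) := by
  refine RIndC.swap fun P hP => ?_
  let ψ : MvPolynomial κ C →+* F :=
    (aeval u : MvPolynomial κ C →ₐ[C] Om).toRingHom.codRestrict F (aeval_mem_of hC huF)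
  have hψ : Function.Injective ψ := fun a b hab =>
    hu.algInd (congrArg Subtype.val hab)
  have h1 : map ψ (sumAlgEquiv C ι κ P) ≠ 0 := fun h0 => hP <| by
    have := map_injective ψ hψ (h0.trans (map_zero _).symm)
    exact (map_eq_zero_iff _ (sumAlgEquiv C ι κ).injective).1 this
  have h2 := hy _ h1
  rw [aeval_def, eval₂_map] at h2
  rw [← eval₂_sumAlgEquiv]
  exact h2

theorem aeval_le_of_le {B : Type*} [CommRing B] [Algebra B Om]
    (hB : ∀ b : B, v (algebraMap B Om b) ≤ 1) {y : ι → Om} (hy : ∀ i, v (y i) ≤ 1)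
    (p : MvPolynomial ι B) : v (aeval y p) ≤ 1 := by
  induction p using MvPolynomial.induction_on with
  | C r => simpa using hB r
  | add p q hp hq => rw [map_add]; exact v.map_add_le hp hq
  | mul_X p i h => rw [map_mul, aeval_X, map_mul]; exact mul_le_one' h (hy i)

/-- Algebraic base change. -/
theorem RIndC.of_isAlgebraic {B : Type*} [CommRing B] [NoZeroDivisors B] [Algebra C B]
    [Algebra B Om] [IsScalarTower C B Om] [Algebra.IsAlgebraic C B]
    (hB : ∀ b : B, v (algebraMap B Om b) ≤ 1) {y : ι → Om} (h : RIndC C v y) :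
    RIndC B v y := fun p hp => by
  obtain ⟨g, hg, r, hr⟩ := MvPolynomial.exists_dvd_map_of_isAlgebraic (R := C) hp
  have h1 := h g hg
  rw [← aeval_map_algebraMap B, hr, map_mul, map_mul] at h1
  have h2 := aeval_le_of_le hB h.val_le p
  have h3 := aeval_le_of_le hB h.val_le r
  refine le_antisymm h2 ?_
  calc 1 = v (aeval y p) * v (aeval y r) := h1.symm
    _ ≤ v (aeval y p) * 1 := by gcongr
    _ = _ := mul_one _

theorem RIndC.base_adjoin {u : κ → Om} {y : ι → Om} (h : RIndC C v (Sum.elim u y)) :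
    RIndC (Algebra.adjoin C (Set.range u)) v y := fun g hg => by
  let ψ : MvPolynomial κ C →+* Algebra.adjoin C (Set.range u) :=
    (aeval u : MvPolynomial κ C →ₐ[C] Om).toRingHom.codRestrict _ fun p => by
      rw [Algebra.adjoin_range_eq_range_aeval]; exact ⟨p, rfl⟩
  have hψ : Function.Surjective ψ := fun a => by
    obtain ⟨p, hp⟩ := (Algebra.adjoin_range_eq_range_aeval C u).le a.2
    exact ⟨p, Subtype.ext hp⟩
  obtain ⟨Q, rfl⟩ := map_surjective ψ hψ g
  obtain ⟨P, rfl⟩ := (sumAlgEquiv C ι κ).surjective Q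
  have hP : P ≠ 0 := by rintro rfl; simp at hg
  have h1 := h.swap P hP
  rw [← eval₂_sumAlgEquiv] at h1
  rw [aeval_def, eval₂_map]
  exact h1

end Defs

section Field

variable {Om : Type*} [Field Om] {G : Type*} [LinearOrderedCommGroupWithZero G]
  {C : Type*} [Field C] [Algebra C Om] {v : Valuation Om G} {ι κ : Type*}

theorem gen_eq_adjoin (y : ι → Om) :
    genF C y = (IntermediateField.adjoin C (Set.range y)).toSubfield := rfl

theorem isAlgebraic_gen_iff (y : ι → Om) (a : Om) :
    IsAlgebraic (genF C y) a ↔ IsAlgebraic (Algebra.adjoin C (Set.range y)) a :=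
  IntermediateField.isAlgebraic_adjoin_iff (F := C) (s := Set.range y) (x := a)

/-- RIndCK: if `(u, y)` is residually independent over `C`, then `y` is residually independent
over every field `k0` with `C(u) ≤ k0 ≤ acl C(u)`. -/
theorem RIndCK {u : κ → Om} {y : ι → Om} (h : RIndC C v (Sum.elim u y)) (k0 : Subfield Om)
    (hle : genF C u ≤ k0) (halg : ∀ a ∈ k0, IsAlgebraic (genF C u) a) : RIndC k0 v y := by
  have hA : ∀ a : Algebra.adjoin C (Set.range u), (a : Om) ∈ k0 := fun a =>
    hle (IntermediateField.algebra_adjoin_le_adjoin C (Set.range u) a.2)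
  let : Algebra (Algebra.adjoin C (Set.range u)) k0 :=
    (((Algebra.adjoin C (Set.range u)).val.toRingHom).codRestrict k0 hA).toAlgebra
  have : IsScalarTower (Algebra.adjoin C (Set.range u)) k0 Om :=
    IsScalarTower.of_algebraMap_eq fun _ => rfl
  have : Algebra.IsAlgebraic (Algebra.adjoin C (Set.range u)) k0 := ⟨fun a =>
    (isAlgebraic_algebraMap_iff (A := Om) Subtype.val_injective).1
      ((isAlgebraic_gen_iff u _).1 (halg a a.2))⟩
  refine h.base_adjoin.of_isAlgebraic fun b => ?_
  rcases eq_or_ne (b : Om) 0 with h0 | h0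
  · exact le_of_eq_of_le (congrArg v h0) (by simp)
  · exact (v_eq_one_of_isAlgebraic (fun f hf => h.left.triv_le hf) (halg b b.2) h0).le

theorem Res_isAlgebraic_of_mem (F : Subfield Om) {a : Om} (ha : a ∈ F) : IsAlgebraic F a :=
  isAlgebraic_algebraMap (⟨a, ha⟩ : F)

theorem RIndC.base_gen {u : κ → Om} {y : ι → Om} (h : RIndC C v (Sum.elim u y)) :
    RIndC (genF C u) v y :=
  RIndCK h _ le_rfl fun _ ha => Res_isAlgebraic_of_mem _ ha

/-- One element over a trivially valued field: independent iff not residually algebraic. -/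
theorem RIndC_one_iff {F : Subfield Om} (hF : ∀ a ∈ F, a ≠ 0 → v a = 1) {z : Om} (hz : v z ≤ 1) :
    RIndC F v (fun _ : Unit => z) ↔ ¬ RAlg v F z := by
  have hF' : ∀ a ∈ F, v a ≤ 1 := fun a ha => by
    rcases eq_or_ne a 0 with rfl | h0
    · simp
    · exact (hF a ha h0).le
  constructor
  · rintro h ⟨p, hp, ⟨i, hi⟩, hlt⟩
    have hl : p ∈ Polynomial.lifts (algebraMap F Om) :=
      (Polynomial.lifts_iff_coeff_lifts p).2 fun i => ⟨⟨p.coeff i, (mem_PO.1 hp i).1⟩, rfl⟩
    obtain ⟨q, rfl⟩ := (Polynomial.mem_lifts p).1 hl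
    have hq : q ≠ 0 := by rintro rfl; simp at hi
    have h1 := h ((uniqueAlgEquiv F Unit).symm q)
      (fun h0 => hq ((map_eq_zero_iff _ (uniqueAlgEquiv F Unit).symm.injective).1 h0))
    rw [aeval_def, eval₂_uniqueAlgEquiv_symm] at h1
    rw [Polynomial.eval_map, h1] at hlt
    exact lt_irrefl _ hlt
  · intro h p hp
    by_contra hne
    have hq : uniqueAlgEquiv F Unit p ≠ 0 :=
      fun h0 => hp ((map_eq_zero_iff _ (uniqueAlgEquiv F Unit).injective).1 h0)
    refine h ⟨_, minpoly_mem_PO le_rfl hF' (uniqueAlgEquiv F Unit p),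
      ⟨(uniqueAlgEquiv F Unit p).natDegree, ?_⟩, ?_⟩
    · rw [Polynomial.coeff_map]
      exact hF _ (Subtype.prop _) fun h0 =>
        Polynomial.leadingCoeff_ne_zero.2 hq (Subtype.ext h0)
    · rw [Polynomial.eval_map]
      have e := eval₂_uniqueAlgEquiv (f := p) (φ := algebraMap F Om) (a := fun _ : Unit => z)
      rw [e, ← aeval_def]
      exact lt_of_le_of_ne (aeval_le_of_le (fun b => hF' _ b.2) (fun _ => hz) p) hne

/-- Adding one element that is not residually algebraic. -/
theorem RIndC.snoc {y : ι → Om} (h : RIndC C v y) {z : Om} (hz : v z ≤ 1)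
    (hn : ¬ RAlg v (genF C y) z) : RIndC C v (Sum.elim y fun _ : Unit => z) :=
  h.sum_of_base _ (algebraMap_mem_gen y) (mem_gen y)
    ((RIndC_one_iff (fun _ ha h0 => h.triv ha h0) hz).2 hn)

theorem RIndC.not_RAlg {y : ι → Om} {z : Om} (h : RIndC C v (Sum.elim y fun _ : Unit => z)) :
    ¬ RAlg v (genF C y) z :=
  (RIndC_one_iff (fun _ ha h0 => h.left.triv ha h0) (h.val_le (Sum.inr ()))).1 h.base_gen

theorem RAlg_of_mem {F : Subfield Om} {z : Om} (hzF : z ∈ F) (hz : v z ≤ 1) : RAlg v F z := by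
  refine ⟨Polynomial.X - Polynomial.C z, mem_PO.2 fun i => ?_, ⟨1, by simp⟩, by simp⟩
  rcases i with _ | _ | i
  · simpa using ⟨hzF, hz⟩
  · simp
  · simp [Polynomial.coeff_X]

theorem RAlg.mono {F F' : Subfield Om} (hle : F ≤ F') {z : Om} (h : RAlg v F z) :
    RAlg v F' z := by
  obtain ⟨p, hp, h1, h2⟩ := h
  exact ⟨p, mem_PO.2 fun i => ⟨hle (mem_PO.1 hp i).1, (mem_PO.1 hp i).2⟩, h1, h2⟩

/-- MAXIC: a maximal residually independent subfamily of an integral finite family. -/
theorem MAXIC [Finite ι] {u : κ → Om} (hu : RIndC C v u) (c : ι → Om) (hc : ∀ j, v (c j) ≤ 1) :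
    ∃ I : Finset ι, RIndC C v (Sum.elim u fun i : I => c i) ∧
      ∀ j, RAlg v (genF C (Sum.elim u fun i : I => c i)) (c j) := by
  classical
  have := Fintype.ofFinite ι
  have h0 : RIndC C v (Sum.elim u fun i : (∅ : Finset ι) => c i) := by
    have := hu.comp (Equiv.sumEmpty κ (∅ : Finset ι)) (Equiv.injective _)
    convert this using 1
    ext x
    rcases x with x | x
    · rfl
    · exact isEmptyElim x
  obtain ⟨I, hI, hmax⟩ := Finset.exists_max_image
    (Finset.univ.filter fun I : Finset ι => RIndC C v (Sum.elim u fun i : I => c i)) Finset.card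
    ⟨∅, Finset.mem_filter.2 ⟨Finset.mem_univ _, h0⟩⟩
  have hI' := (Finset.mem_filter.1 hI).2
  refine ⟨I, hI', fun j => ?_⟩
  by_cases hj : j ∈ I
  · exact RAlg_of_mem (mem_gen (C := C) (Sum.elim u fun i : I => c i) (Sum.inr ⟨j, hj⟩)) (hc j)
  by_contra hn
  have h1 := hI'.snoc (hc j) hn
  let f : κ ⊕ (insert j I : Finset ι) → (κ ⊕ I) ⊕ Unit := fun x => match x with
    | Sum.inl k => Sum.inl (Sum.inl k)
    | Sum.inr i => if h : i.1 ∈ I then Sum.inl (Sum.inr ⟨i.1, h⟩) else Sum.inr ()
  have hval : ∀ i : (insert j I : Finset ι), i.1 ∉ I → i.1 = j := fun i h =>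
    (Finset.mem_insert.1 i.2).resolve_right h
  have hf : Function.Injective f := by
    rintro (a | a) (b | b) hab
    · simpa [f] using hab
    · by_cases hb : b.1 ∈ I <;> simp [f, hb] at hab
    · by_cases ha : a.1 ∈ I <;> simp [f, ha] at hab
    · by_cases ha : a.1 ∈ I <;> by_cases hb : b.1 ∈ I
      · simp only [f, ha, hb, dite_true, Sum.inl.injEq, Sum.inr.injEq, Subtype.mk.injEq] at hab
        exact congrArg Sum.inr (Subtype.ext hab)
      · simp [f, ha, hb] at hab
      · simp [f, ha, hb] at hab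
      · exact congrArg Sum.inr (Subtype.ext ((hval a ha).trans (hval b hb).symm))
  have h2 : RIndC C v (Sum.elim u fun i : (insert j I : Finset ι) => c i) := by
    convert h1.comp f hf using 1
    ext x
    rcases x with x | x
    · rfl
    · by_cases hx : x.1 ∈ I
      · simp [f, hx]
      · simp only [f, hx, Sum.elim_inr, Function.comp_apply, dite_false]
        rw [hval x hx]
  have h3 := hmax _ (Finset.mem_filter.2 ⟨Finset.mem_univ _, h2⟩)
  rw [Finset.card_insert_of_notMem hj] at h3
  omega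

end Field

section Sub

variable {Om : Type*} [Field Om] {G : Type*} [LinearOrderedCommGroupWithZero G]
  {v : Valuation Om G} {ι κ : Type*} {k0 : Subfield Om}

theorem RInd_iff_RIndC {y : ι → Om} : RInd v k0 y ↔ RIndC k0 v y := Iff.rfl

theorem genF_sub (k0 : Subfield Om) (y : ι → Om) :
    genF k0 y = Subfield.closure ((k0 : Set Om) ∪ Set.range y) := by
  unfold genF
  congr 2
  ext a
  exact ⟨fun ⟨b, hb⟩ => hb ▸ b.2, fun h => ⟨⟨a, h⟩, rfl⟩⟩

/-- Residual independence over a field `C` is independence over its image. -/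
theorem RIndC_iff_fieldRange {C : Type*} [Field C] [Algebra C Om] {y : ι → Om} :
    RIndC C v y ↔ RInd v (algebraMap C Om).fieldRange y := by
  let e : C →+* (algebraMap C Om).fieldRange := (algebraMap C Om).rangeRestrictField
  have he : Function.Bijective e := (algebraMap C Om).rangeRestrictField_bijective
  have key : ∀ p : MvPolynomial ι C, aeval y (map e p) = aeval y p := fun p => by
    rw [aeval_def, eval₂_map]; rfl
  constructor
  · intro h p hp
    obtain ⟨q, rfl⟩ := map_surjective e he.2 p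
    rw [key]
    exact h q (by rintro rfl; simp at hp)
  · intro h p hp
    rw [← key]
    exact h _ fun h0 => hp (map_injective e he.1 (h0.trans (map_zero _).symm))

theorem RInd.comp {y : ι → Om} (h : RInd v k0 y) (f : κ → ι) (hf : Function.Injective f) :
    RInd v k0 (y ∘ f) := RIndC.comp h f hf

theorem RInd.left {u : κ → Om} {y : ι → Om} (h : RInd v k0 (Sum.elim u y)) : RInd v k0 u :=
  RIndC.left h

theorem RInd.right {u : κ → Om} {y : ι → Om} (h : RInd v k0 (Sum.elim u y)) : RInd v k0 y :=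
  RIndC.right h

theorem RInd.swap {u : κ → Om} {y : ι → Om} (h : RInd v k0 (Sum.elim u y)) :
    RInd v k0 (Sum.elim y u) := RIndC.swap h

theorem RInd.algInd {y : ι → Om} (h : RInd v k0 y) : AlgebraicIndependent k0 y :=
  RIndC.algInd h

theorem RInd_empty [IsEmpty ι] (hk : ∀ c ∈ k0, c ≠ 0 → v c = 1) (y : ι → Om) : RInd v k0 y :=
  RIndC_empty (C := k0) (fun c hc => hk c c.2 fun h => hc (Subtype.ext h)) y

/-- Shrinking the base field. -/
theorem RInd.anti {k1 : Subfield Om} (hle : k0 ≤ k1) {y : ι → Om} (h : RInd v k1 y) :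
    RInd v k0 y := fun p hp => by
  have := h (map (Subfield.inclusion hle) p) fun h0 =>
    hp (map_injective _ (Subfield.inclusion hle).injective (h0.trans (map_zero _).symm))
  rw [aeval_def, eval₂_map] at this
  exact this

theorem RInd.sum_of_base {u : κ → Om} {y : ι → Om} (hu : RInd v k0 u) (F : Subfield Om)
    (hk : k0 ≤ F) (huF : ∀ i, u i ∈ F) (hy : RInd v F y) : RInd v k0 (Sum.elim u y) :=
  RIndC.sum_of_base hu F (fun c => hk c.2) huF hy

/-- RIndK: `(u, y)` independent over `k0` gives `y` independent over every `k1` with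
`k0(u) ≤ k1 ≤ acl k0(u)`. -/
theorem RIndK {u : κ → Om} {y : ι → Om} (h : RInd v k0 (Sum.elim u y)) (k1 : Subfield Om)
    (hle : Subfield.closure ((k0 : Set Om) ∪ Set.range u) ≤ k1)
    (halg : ∀ a ∈ k1, IsAlgebraic (Subfield.closure ((k0 : Set Om) ∪ Set.range u)) a) :
    RInd v k1 y := by
  rw [← genF_sub] at hle halg
  exact RIndCK h k1 hle halg

/-- Algebraic extension of the base field. -/
theorem RInd.alg_base {y : ι → Om} (h : RInd v k0 y) (k1 : Subfield Om) (hle : k0 ≤ k1)
    (halg : ∀ a ∈ k1, IsAlgebraic k0 a) : RInd v k1 y := by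
  have e : Subfield.closure ((k0 : Set Om) ∪ Set.range (Empty.elim : Empty → Om)) = k0 := by
    rw [Set.range_eq_empty, Set.union_empty, Subfield.closure_eq]
  have h1 : RInd v k0 (Sum.elim (Empty.elim : Empty → Om) y) := by
    have := h.comp (Equiv.emptySum Empty ι) (Equiv.injective _)
    convert this using 1
    ext x
    rcases x with x | x
    · exact x.elim
    · rfl
  exact RIndK h1 k1 (by rw [e]; exact hle) (by rw [e]; exact halg)

theorem RInd_one_iff (hF : ∀ a ∈ k0, a ≠ 0 → v a = 1) {z : Om} (hz : v z ≤ 1) :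
    RInd v k0 (fun _ : Unit => z) ↔ ¬ RAlg v k0 z := RIndC_one_iff hF hz

theorem RInd.snoc {y : ι → Om} (h : RInd v k0 y) {z : Om} (hz : v z ≤ 1)
    (hn : ¬ RAlg v (Subfield.closure ((k0 : Set Om) ∪ Set.range y)) z) :
    RInd v k0 (Sum.elim y fun _ : Unit => z) := by
  rw [← genF_sub] at hn
  exact RIndC.snoc h hz hn

theorem RInd.not_RAlg {y : ι → Om} {z : Om} (h : RInd v k0 (Sum.elim y fun _ : Unit => z)) :
    ¬ RAlg v (Subfield.closure ((k0 : Set Om) ∪ Set.range y)) z := by
  rw [← genF_sub]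
  exact RIndC.not_RAlg h

/-- MAXI: a maximal residually independent subfamily of an integral finite family. -/
theorem MAXI [Finite ι] {u : κ → Om} (hu : RInd v k0 u) (c : ι → Om) (hc : ∀ j, v (c j) ≤ 1) :
    ∃ I : Finset ι, RInd v k0 (Sum.elim u fun i : I => c i) ∧
      ∀ j, RAlg v (Subfield.closure ((k0 : Set Om) ∪
        Set.range (Sum.elim u fun i : I => c i))) (c j) := by
  obtain ⟨I, h1, h2⟩ := MAXIC (C := k0) hu c hc
  refine ⟨I, h1, fun j => ?_⟩
  rw [← genF_sub]
  exact h2 j

end Sub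

end Pool.Agent.Lib.MP_5c318e_ag
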