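import Pool.Agent.Lib.MP_5c318e_ag.Val
import Pool.Agent.Lib.MP_5c318e_ag.Jac0
import Pool.Agent.Lib.MP_5c318e_ag.Ext
import Pool.Agent.Lib.MP_5c318e_ag.Sym
import Pool.Agent.Lib.MP_5c318e_ag.Res

/-! Section 3, part A: horizontal divisors (H0, H1) and ratios of regular forms. -/

namespace Pool.Agent.Lib.MP_5c318e_ag

open scoped Classical NNReal
open Polynomial

variable {Om : Type} [Field Om] [Algebra ℂ Om]

namespace Ctx0

variable (X : Ctx0 Om)

theorem S3_K_le : X.Kb ≤ acl (adj (C0 Om) (Set.range X.s)) := acl_le X.frK.alg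

theorem S3_Kp_le : X.Kp ≤ X.Kb := (le_acl X.Kp).trans X.aclKp.le

theorem S3_Kb_Eb : X.Kb ≤ X.Eb := by
  have : acl X.Kp ≤ X.Eb := acl_mono le_sup_right
  rwa [X.aclKp] at this

theorem S3_L_Eb : acl X.L ≤ X.Eb := acl_mono le_sup_left

theorem S3_Kb_Mb : X.Kb ≤ X.Mb := le_sup_right

theorem S3_N_Mb : X.N ≤ X.Mb := le_sup_left.trans X.NM.le

theorem S3_x_N : X.x ∈ X.N := X.ExN (mem_adj _ rfl)

theorem S3_dF_Kb (o : X.iF) {c : Om} (hc : c ∈ X.Kb) : X.dF o c = 0 := by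
  have := charZero_of_algebra (Om := Om)
  refine der_zero_acl _ ?_ (mem_acl.1 (X.S3_K_le hc))
  rintro y (hy | ⟨i, rfl⟩)
  · exact X.frT.kill _ y hy
  · simpa using X.frT.dual (Sum.inr o) (Sum.inl i)

theorem S3_dA_Kb (j : Fin X.n) {c : Om} (hc : c ∈ X.Kb) : X.dA j c = 0 :=
  X.S3_dF_Kb (some j) hc

theorem S3_dx_Eb {c : Om} (hc : c ∈ X.Eb) : X.dx c = 0 := by
  have := charZero_of_algebra (Om := Om)
  refine der_zero_alg _ X.E (fun y hy => ?_) (mem_acl.1 hc)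
  have h : X.E ≤ consts X.dx := by
    refine sup_le (fun y hy => ?_) fun y hy => X.S3_dF_Kb none (X.S3_Kp_le hy)
    refine der_zero_acl _ ?_ (mem_acl.1 (X.frA.alg hy))
    rintro y (hy | ⟨i, rfl⟩)
    · exact X.frT.kill _ y hy
    · simpa using X.frT.dual (Sum.inr none) (Sum.inr (some i))
  exact h hy

theorem S3_dx_x : X.dx X.x = 1 := by
  simpa using X.frT.dual (Sum.inr none) (Sum.inr none)

theorem S3_dx_sub {ρ : Om} (h : ρ ∈ X.Eb) : X.dx (X.x - ρ) = 1 := by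
  rw [map_sub, X.S3_dx_x, X.S3_dx_Eb h, sub_zero]

theorem S3_sub_ne {ρ : Om} (h : ρ ∈ X.Eb) : X.x - ρ ≠ 0 := fun h0 => by
  have := X.S3_dx_sub h
  rw [h0, map_zero] at this
  exact zero_ne_one this

theorem S3_alg_Ex (y : Om) : y ∈ acl (adj X.Eb {X.x}) := by
  refine acl_mono (adj_le ?_ ?_) (X.frT.alg (Subfield.mem_top y))
  · exact (X.c0Kp.trans (X.S3_Kp_le.trans X.S3_Kb_Eb)).trans (le_adj _ _)
  · rintro _ ⟨i | o, rfl⟩
    · exact le_adj _ _ (X.S3_Kb_Eb (le_acl _ (X.frK.mem i)))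
    · cases o with
      | none => exact mem_adj _ rfl
      | some j => exact le_adj _ _ (X.S3_L_Eb (le_acl _ (X.frA.mem j)))

theorem S3_be_eq {a b : Om} (ha : a ∈ X.Eb) (hb : b ∈ X.Eb) :
    X.be a b = (a - b) / ((X.x - a) * (X.x - b)) := by
  have h1 := X.S3_sub_ne ha
  have h2 := X.S3_sub_ne hb
  unfold be
  field_simp
  ring

theorem S3_be_ne {a b : Om} (ha : a ∈ X.Eb) (hb : b ∈ X.Eb) (hab : a ≠ b) : X.be a b ≠ 0 := by
  rw [X.S3_be_eq ha hb]
  exact div_ne_zero (sub_ne_zero.2 hab) (mul_ne_zero (X.S3_sub_ne ha) (X.S3_sub_ne hb))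

theorem S3_w_be {v : RV Om} {a b : Om} (ha : a ∈ X.Eb) (hb : b ∈ X.Eb) (hab : a ≠ b) :
    w v (X.be a b) = w v (a - b) - w v (X.x - a) - w v (X.x - b) := by
  have h1 := X.S3_sub_ne ha
  have h2 := X.S3_sub_ne hb
  rw [X.S3_be_eq ha hb, w_div (sub_ne_zero.2 hab) (mul_ne_zero h1 h2), w_mul h1 h2]
  ring

theorem S3_lx_le {v : RV Om} (hg : X.Good v) {h : Om} (hh : X.dx h ≠ 0) :
    X.lx v ≤ w v (X.dx h) - w v h := csInf_le hg.2.2 ⟨h, hh, rfl⟩

theorem S3_lE_le {v : RV Om} (hg : X.Good v) {f : Fin X.n → Om} (hf : ∀ j, f j ∈ X.Eb)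
    (hJ : Jac X.dA f ≠ 0) : X.lE v ≤ w v (Jac X.dA f) - ∑ j, w v (f j) :=
  csInf_le hg.2.1 ⟨f, hf, hJ, rfl⟩

/-- H0: the orders at a valuation trivial on `E`. -/
theorem S3_H0 [IsAlgClosed Om] {v : RV Om} (hg : X.Good v) (hE : Triv v X.E) {t : Om}
    (ht0 : t ≠ 0) (ht : v t < 1) (hgrp : Grp v X.Mb t) :
    ∃ (ρ : Om) (e : ℕ), (ρ ∈ X.R → e = X.e ρ) ∧ 1 ≤ e ∧ ∀ a ∈ X.R, ∀ b ∈ X.R, a ≠ b →
      (if a = ρ ∨ b = ρ then 0 else e * w v t) ≤ X.ord v a b := by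
  have hEb : Triv v X.Eb := hE.toAcl
  have hp : 0 < w v t := (w_pos_iff ht0).2 ht
  have hR := X.ram.mem
  rcases CENTRE v (F := X.Eb) (fun y hy => by
      have := mem_acl.2 hy
      rwa [acl_acl] at this) hEb X.x with h | ⟨ρ, hρ, h⟩ | h
  · have hx0 : X.x ≠ 0 := by simpa using X.S3_sub_ne (zero_mem _)
    have hlx := X.S3_lx_le hg (h := X.x) (by rw [X.S3_dx_x]; exact one_ne_zero)
    rw [X.S3_dx_x, w_one] at hlx
    have hxa : ∀ a ∈ X.Eb, w v (X.x - a) = w v X.x := fun a ha =>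
      w_congr (v.map_sub_eq_of_lt_left ((hEb.le ha).trans_lt h))
    have h1 : w v t ≤ w v X.x⁻¹ := hgrp.le_w hp (inv_mem (X.S3_N_Mb X.S3_x_N)) (inv_ne_zero hx0)
      (by rw [w_inv, neg_pos]; exact (w_neg_iff hx0).2 h)
    rw [w_inv] at h1
    refine ⟨X.x, 1, fun hx => absurd (sub_self X.x) (X.S3_sub_ne (hR _ hx)), le_rfl,
      fun a ha b hb hab => ?_⟩
    have h2 : ¬ (a = X.x ∨ b = X.x) := by
      rintro (h | h)
      · exact X.S3_sub_ne (hR a ha) (by rw [h, sub_self])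
      · exact X.S3_sub_ne (hR b hb) (by rw [h, sub_self])
    rw [if_neg h2, ord, X.S3_w_be (hR a ha) (hR b hb) hab, hxa a (hR a ha), hxa b (hR b hb),
      hEb.w_eq (sub_mem (hR a ha) (hR b hb))]
    push_cast
    linarith
  · have hlx := X.S3_lx_le hg (h := X.x - ρ) (by rw [X.S3_dx_sub hρ]; exact one_ne_zero)
    rw [X.S3_dx_sub hρ, w_one] at hlx
    obtain ⟨tN, htN, htN0, htN1, he, -⟩ := X.ram.fin v hE ρ hρ h
    have h1 : w v t ≤ w v tN := hgrp.le_w hp (X.S3_N_Mb htN) htN0 ((w_pos_iff htN0).2 htN1)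
    have h2 : w v (X.x - ρ) = X.e ρ * w v tN := by
      rw [← w_pow]; exact w_congr (by rw [he, map_pow])
    have he1 : 1 ≤ X.e ρ := by
      by_cases hρR : ρ ∈ X.R
      · exact le_trans (by norm_num) (X.ram.two ρ hρR)
      · exact (X.ram.one ρ hρR).ge
    have hxa : ∀ a ∈ X.Eb, a ≠ ρ → w v (X.x - a) = 0 := fun a ha hne => by
      have h3 : v (ρ - a) = 1 := hEb _ (sub_mem hρ ha) (sub_ne_zero.2 hne.symm)
      refine w_of_eq_one ?_
      rw [show X.x - a = (ρ - a) + (X.x - ρ) by ring, v.map_add_eq_of_lt_left (h3 ▸ h), h3]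
    refine ⟨ρ, X.e ρ, fun _ => rfl, he1, fun a ha b hb hab => ?_⟩
    rw [ord, X.S3_w_be (hR a ha) (hR b hb) hab, hEb.w_eq (sub_mem (hR a ha) (hR b hb))]
    split_ifs with hc
    · rcases hc with rfl | rfl
      · rw [hxa b (hR b hb) hab.symm]; linarith
      · rw [hxa a (hR a ha) hab]; linarith
    · rw [not_or] at hc
      rw [hxa a (hR a ha) hc.1, hxa b (hR b hb) hc.2]
      have : (X.e ρ : ℝ) * w v t ≤ X.e ρ * w v tN := by gcongr
      linarith
  · exact absurd (Triv.toAcl (F := adj X.Eb {X.x}) h t (X.S3_alg_Ex t) ht0) ht.ne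

theorem S3_a_alg {y : Om} (hy : y ∈ X.Eb) : y ∈ acl (adj X.Kb (Set.range X.a)) := by
  refine acl_le (sup_le ?_ ?_) hy
  · refine X.frA.alg.trans (acl_mono (adj_le ?_ fun _ hy => mem_adj _ hy))
    exact (X.c0Kp.trans X.S3_Kp_le).trans (le_adj _ _)
  · exact X.S3_Kp_le.trans ((le_adj _ _).trans (le_acl _))

theorem S3_jac_a : Jac X.dA X.a = 1 :=
  jac_self X.frA.dual

/-- a family in `Eb` with nonzero Jacobian is a transcendence basis of `Eb / Kb` -/
theorem S3_chart_alg {c : Fin X.n → Om} (hc : ∀ j, c j ∈ X.Eb) (hJ : Jac X.dA c ≠ 0) {y : Om}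
    (hy : y ∈ X.Eb) : y ∈ acl (adj X.Kb (Set.range c)) := by
  have := charZero_of_algebra (Om := Om)
  exact mem_acl.2 (alg_of_jac X.dA (fun j _ hc => X.S3_dA_Kb j hc)
    (by rw [X.S3_jac_a]; exact one_ne_zero) hJ (fun j => mem_acl.1 (X.S3_a_alg (hc j)))
    (mem_acl.1 (X.S3_a_alg hy)))

/-- replacing a chart coordinate by a polynomial in it -/
theorem S3_jac_update {c : Fin X.n → Om} (hJ : Jac X.dA c ≠ 0) (j : Fin X.n) {F : Subfield Om}
    (hF : F ≤ adj X.Kb (c '' {l | l ≠ j})) {q : Om[X]} (hq : ∀ i, q.coeff i ∈ F) :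
    Jac X.dA (Function.update c j (q.eval (c j))) = Jac X.dA c * q.derivative.eval (c j) := by
  rw [jac_chain X.dA hJ]
  congr 1
  have h1 : dual X.dA c j (q.eval (c j)) = q.derivative.eval (c j) := by
    rw [Log_der_eval, dual_self X.dA hJ, if_pos rfl, mul_one, Finset.sum_eq_zero, zero_add]
    intro i _
    have : adj X.Kb (c '' {l | l ≠ j}) ≤ consts (dual X.dA c j) := by
      refine adj_le (fun y hy => dual_zero _ _ _ fun l => X.S3_dA_Kb l hy) ?_
      rintro _ ⟨l, hl, rfl⟩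
      rw [mem_consts, dual_self X.dA hJ, if_neg hl]
    rw [mem_consts.1 (this (hF (hq i))), zero_mul]
  have h2 : (Matrix.of fun a b => dual X.dA c b (Function.update c j (q.eval (c j)) a))
      = (1 : Matrix (Fin X.n) (Fin X.n) Om).updateRow j
        fun b => dual X.dA c b (q.eval (c j)) := by
    ext a b
    by_cases h : a = j
    · subst h; simp
    · rw [Matrix.of_apply, Function.update_of_ne h, Matrix.updateRow_ne h, dual_self X.dA hJ,
        Matrix.one_apply]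
  unfold Jac
  rw [h2, ← h1, ← Matrix.cramer_transpose_apply]
  simp

/-- H1: a valuation trivial on `Kb` and nontrivial on `E`. -/
theorem S3_H1 {v : RV Om} (hK : Triv v X.Kb) (hE : ¬ Triv v X.E) {c : Fin X.n → Om}
    (hcE : ∀ j, c j ∈ X.Eb) (hc1 : ∀ j, v (c j) ≤ 1) (hJ : Jac X.dA c ≠ 0) :
    ∃ (j : Fin X.n) (t : Om), t ∈ adj X.Kb (Set.range c) ∧ t ≠ 0 ∧ v t < 1 ∧
      v (Jac X.dA (Function.update c j t)) = v (Jac X.dA c) := by
  have := charZero_of_algebra (Om := Om)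
  obtain ⟨I, hI, hR⟩ := MAXI (RInd_empty (ι := Empty) hK Empty.elim) c hc1
  have hI' : ∃ j, j ∉ I := by
    by_contra hn
    push Not at hn
    have h1 : RInd v X.Kb c := hI.right.comp (fun j => (⟨j, hn j⟩ : I)) fun a b h => by simpa using h
    exact hE fun y hy => h1.toTriv.toAcl y (X.S3_chart_alg hcE hJ (le_acl _ hy))
  obtain ⟨j, hj⟩ := hI'
  obtain ⟨q, hq, -, hlt, hd, -⟩ := minp v hK.hv _ (hc1 j) (hR j)
  have hF : Subfield.closure ((X.Kb : Set Om) ∪ Set.range (Sum.elim Empty.elim fun i : I => c i))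
      ≤ adj X.Kb (c '' {l | l ≠ j}) := by
    refine adj_le (le_adj _ _) ?_
    rintro _ ⟨i | i, rfl⟩
    · exact i.elim
    · exact mem_adj _ ⟨i.1, fun h => hj (h ▸ i.2), rfl⟩
  have hu := X.S3_jac_update hJ j hF fun i => (mem_PO.1 hq i).1
  have hv : v (Jac X.dA (Function.update c j (q.eval (c j)))) = v (Jac X.dA c) := by
    rw [hu, map_mul, hd, mul_one]
  have hne : Jac X.dA (Function.update c j (q.eval (c j))) ≠ 0 := fun h0 =>
    hJ (v.zero_iff.1 (by rw [← hv, h0, map_zero]))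
  refine ⟨j, q.eval (c j), ?_, by simpa using ne_zero_of_jac _ hne j, hlt, hv⟩
  rw [eval_eq_sum_range]
  refine sum_mem fun i _ => mul_mem ?_ (pow_mem (mem_adj _ (Set.mem_range_self j)) _)
  exact Subfield.closure_mono (Set.union_subset_union_right _ (Set.image_subset_range _ _))
    (hF (mem_PO.1 hq i).1)

theorem S3_chart_jac {v : RV Om} {c : Fin X.n → Om} (h : v X.g0 ≤ v (Jac X.dA c) ^ X.m0) :
    Jac X.dA c ≠ 0 := fun h0 => by
  rw [h0, map_zero, zero_pow X.m0pos.ne', le_zero_iff, v.zero_iff] at h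
  exact X.g0ne h

theorem S3_chart_w {v : RV Om} {c : Fin X.n → Om} (h : v X.g0 ≤ v (Jac X.dA c) ^ X.m0) :
    w v (Jac X.dA c) ≤ w v X.g0 / X.m0 := by
  have h1 := (le_pow_iff_ge (X.S3_chart_jac h) X.m0).1 h X.g0ne
  have : (0 : ℝ) < X.m0 := by exact_mod_cast X.m0pos
  rw [le_div_iff₀ this]
  linarith

theorem S3_H1_A {v : RV Om} (hg : X.Good v) (hK : Triv v X.Kb) (hE : ¬ Triv v X.E) {t : Om}
    (ht0 : t ≠ 0) (ht : v t < 1) (hgrp : Grp v X.Mb t) : w v t ≤ X.A v := by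
  obtain ⟨c, hc, hc1, hg0⟩ := X.chart v hg.1
  have hJ := X.S3_chart_jac hg0
  have hcE : ∀ j, c j ∈ X.Eb := fun j => X.S3_L_Eb (X.CsL c hc j)
  obtain ⟨j, t', ht', ht'0, ht'1, hv⟩ := X.S3_H1 hK hE hcE hc1 hJ
  have hne : Jac X.dA (Function.update c j t') ≠ 0 := fun h0 =>
    hJ (v.zero_iff.1 (by rw [← hv, h0, map_zero]))
  have hM : t' ∈ X.Mb := adj_le X.S3_Kb_Mb (by rintro _ ⟨l, rfl⟩; exact X.CsM c hc l) ht'
  have hEb : t' ∈ X.Eb := adj_le X.S3_Kb_Eb (by rintro _ ⟨l, rfl⟩; exact hcE l) ht'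
  have h1 := X.S3_lE_le hg (f := Function.update c j t') (fun l => by
    by_cases h : l = j
    · subst h; simpa using hEb
    · rw [Function.update_of_ne h]; exact hcE l) hne
  have h2 : w v t' ≤ ∑ l, w v (Function.update c j t' l) := by
    have := Finset.single_le_sum (f := fun l => w v (Function.update c j t' l))
      (s := Finset.univ) (fun l _ => (w_nonneg_iff (ne_zero_of_jac _ hne l)).2 (by
        by_cases h : l = j
        · subst h; simpa using ht'1.le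
        · rw [Function.update_of_ne h]; exact hc1 l)) (Finset.mem_univ j)
    simpa using this
  have h3 := hgrp.le_w ((w_pos_iff ht0).2 ht) hM ht'0 ((w_pos_iff ht'0).2 ht'1)
  have h4 := X.S3_chart_w hg0
  rw [w_congr hv] at h1
  unfold A
  linarith

end Ctx0

end Pool.Agent.Lib.MP_5c318e_ag
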