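import Pool.Agent.Lib.MP_5c318e_ag.Pts
import Pool.Agent.Lib.MP_5c318e_ag.Sec3A

/-! Section 3: the sections attached to admissible multigraphs are regular. -/

namespace Pool.Agent.Lib.MP_5c318e_ag

open scoped Classical NNReal

variable {Om : Type} [Field Om] [Algebra ℂ Om]

namespace Ctx

variable (X : Ctx Om)

theorem adm_Ga : X.Adm X.Ga := ⟨X.diag, X.tot, X.deg⟩

theorem Phi_R_mem (i : X.R) : (i : Om) ∈ X.Eb := X.ram.mem _ i.2

theorem Phi_be_pow_ne {G : X.R → X.R → ℕ} (hG : X.Adm G) (i j : X.R) :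
    X.be i j ^ G i j ≠ 0 := by
  by_cases h : i = j
  · subst h; rw [hG.1, pow_zero]; exact one_ne_zero
  · exact pow_ne_zero _ (X.S3_be_ne (X.Phi_R_mem i) (X.Phi_R_mem j) fun e => h (Subtype.ext e))

theorem Phi_prod_ne {G : X.R → X.R → ℕ} (hG : X.Adm G) :
    ∏ i : X.R, ∏ j : X.R, X.be i j ^ G i j ≠ 0 :=
  Finset.prod_ne_zero_iff.2 fun i _ => Finset.prod_ne_zero_iff.2 fun j _ => X.Phi_be_pow_ne hG i j

theorem sig_ne {G : X.R → X.R → ℕ} (hG : X.Adm G) : X.sig G ≠ 0 :=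
  mul_ne_zero (pow_ne_zero _ X.g0ne) (X.Phi_prod_ne hG)

theorem Phi_ne {G : X.R → X.R → ℕ} (hG : X.Adm G) : X.Phi G ≠ 0 :=
  mul_ne_zero (pow_ne_zero _ X.ηne) (X.sig_ne hG)

theorem Phi_Nw_pos : (0 : ℝ) < X.Nw := by exact_mod_cast X.Nwpos

theorem w_sig {G : X.R → X.R → ℕ} (hG : X.Adm G) (v : RV Om) :
    w v (X.sig G) = X.Nw * (X.A v + X.lE v + X.lx v) + X.sord G v := by
  have hm : (X.m0 : ℝ) ≠ 0 := by exact_mod_cast X.m0pos.ne'
  have h1 : ∑ i : X.R, ∑ j : X.R, (G i j : ℝ) = X.Nw := by exact_mod_cast hG.2.1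
  rw [sig, w_mul (pow_ne_zero _ X.g0ne) (X.Phi_prod_ne hG), w_pow, Nat.cast_div X.m0Nw hm,
    w_prod _ _ fun i _ => Finset.prod_ne_zero_iff.2 fun j _ => X.Phi_be_pow_ne hG i j,
    Finset.sum_congr rfl fun i _ => w_prod _ _ fun j _ => X.Phi_be_pow_ne hG i j]
  have h2 : X.sord G v = ∑ i : X.R, ∑ j : X.R, w v (X.be i j ^ G i j) - X.Nw * X.lx v := by
    rw [← h1, Finset.sum_mul, ← Finset.sum_sub_distrib]
    refine Finset.sum_congr rfl fun i _ => ?_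
    rw [Finset.sum_mul, ← Finset.sum_sub_distrib]
    refine Finset.sum_congr rfl fun j _ => ?_
    rw [w_pow, Ctx0.ord]; ring
  rw [h2, Ctx0.A]
  ring

theorem w_Phi {G : X.R → X.R → ℕ} (hG : X.Adm G) (v : RV Om) :
    w v (X.Phi G) = X.Nw * (w v X.η / X.mK + X.A v + X.lE v + X.lx v) + X.sord G v := by
  have hm : (X.mK : ℝ) ≠ 0 := by exact_mod_cast X.mKpos.ne'
  rw [Phi, w_mul (pow_ne_zero _ X.ηne) (X.sig_ne hG), w_pow, Nat.cast_div X.mKNw hm, X.w_sig hG]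
  ring

theorem SG_eq {G : X.R → X.R → ℕ} (hG : X.Adm G) (P : X.Pt) :
    X.SG G P = w P.v X.η / X.mK + X.A P.v + X.lE P.v + X.lx P.v + X.sord G P.v / X.Nw
      - P.can := by
  have := X.Phi_Nw_pos.ne'
  rw [SG, X.w_Phi hG]
  field_simp

theorem Phi_term_nonneg {G : X.R → X.R → ℕ} (hG : X.Adm G) {v : RV Om} (hv : X.Good v)
    (i j : X.R) : 0 ≤ (G i j : ℝ) * X.ord v i j := by
  by_cases h : i = j
  · subst h; rw [hG.1]; simp
  · exact mul_nonneg (Nat.cast_nonneg _)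
      (X.ord_nonneg hv (X.Phi_R_mem i) (X.Phi_R_mem j) fun e => h (Subtype.ext e))

theorem sord_nonneg {G : X.R → X.R → ℕ} (hG : X.Adm G) {v : RV Om} (hv : X.Good v) :
    0 ≤ X.sord G v :=
  Finset.sum_nonneg fun i _ => Finset.sum_nonneg fun j _ => X.Phi_term_nonneg hG hv i j

theorem ord_le_sord {v : RV Om} (hv : X.Good v) {a b : Om} (ha : a ∈ X.R) (hb : b ∈ X.R)
    (hab : a ≠ b) : X.ord v a b ≤ X.sord X.Ga v := by
  have h1 : (1 : ℝ) ≤ X.Ga ⟨a, ha⟩ ⟨b, hb⟩ := by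
    exact_mod_cast X.full ⟨a, ha⟩ ⟨b, hb⟩ fun e => hab (congrArg Subtype.val e)
  have h2 := X.ord_nonneg hv (X.ram.mem a ha) (X.ram.mem b hb) hab
  calc X.ord v a b ≤ (X.Ga ⟨a, ha⟩ ⟨b, hb⟩ : ℝ) * X.ord v a b := by nlinarith
    _ ≤ ∑ j : X.R, (X.Ga ⟨a, ha⟩ j : ℝ) * X.ord v a j :=
        Finset.single_le_sum (f := fun j : X.R => (X.Ga ⟨a, ha⟩ j : ℝ) * X.ord v a j)
          (fun j _ => X.Phi_term_nonneg X.adm_Ga hv ⟨a, ha⟩ j) (Finset.mem_univ (⟨b, hb⟩ : X.R))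
    _ ≤ X.sord X.Ga v :=
        Finset.single_le_sum (f := fun i : X.R => ∑ j : X.R, (X.Ga i j : ℝ) * X.ord v i j)
          (fun i _ => Finset.sum_nonneg fun j _ => X.Phi_term_nonneg X.adm_Ga hv i j)
          (Finset.mem_univ (⟨a, ha⟩ : X.R))

theorem Phi_touch {G : X.R → X.R → ℕ} (hG : X.Adm G) (ρ : Om) {e : ℕ} (he : ρ ∈ X.R → e = X.e ρ)
    (he1 : 1 ≤ e) :
    (X.Nw : ℝ) ≤ e * ∑ i : X.R, ∑ j : X.R, if (i : Om) = ρ ∨ (j : Om) = ρ then 0 else (G i j : ℝ) := by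
  have h1 : ∑ i : X.R, ∑ j : X.R, (G i j : ℝ) = X.Nw := by exact_mod_cast hG.2.1
  have he1' : (1 : ℝ) ≤ e := by exact_mod_cast he1
  by_cases hρ : ρ ∈ X.R
  · have h2 : (X.Nw : ℝ) - gdeg G ⟨ρ, hρ⟩ ≤
        ∑ i : X.R, ∑ j : X.R, if (i : Om) = ρ ∨ (j : Om) = ρ then 0 else (G i j : ℝ) := by
      have h3 : (gdeg G ⟨ρ, hρ⟩ : ℝ) = ∑ i : X.R, ∑ j : X.R,
          ((if i = ⟨ρ, hρ⟩ then (G i j : ℝ) else 0) + if j = ⟨ρ, hρ⟩ then (G i j : ℝ) else 0) := by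
        simp only [gdeg, Finset.sum_add_distrib, Finset.sum_ite_eq', Finset.mem_univ, if_true]
        rw [Finset.sum_comm (f := fun i j : X.R => if i = ⟨ρ, hρ⟩ then (G i j : ℝ) else 0)]
        simp
      rw [← h1, h3, ← Finset.sum_sub_distrib]
      refine Finset.sum_le_sum fun i _ => ?_
      rw [← Finset.sum_sub_distrib]
      refine Finset.sum_le_sum fun j _ => ?_
      have h4 : (0 : ℝ) ≤ G i j := Nat.cast_nonneg _
      simp only [Subtype.ext_iff]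
      by_cases hi : (i : Om) = ρ <;> by_cases hj : (j : Om) = ρ <;> simp [hi, hj]
    have h5 : (gdeg G ⟨ρ, hρ⟩ : ℝ) + ((X.Nw / X.e ρ : ℕ) : ℝ) ≤ X.Nw := by
      exact_mod_cast hG.2.2 ⟨ρ, hρ⟩
    rw [← he hρ, Nat.cast_div (he hρ ▸ X.eNw ρ hρ) (by linarith)] at h5
    calc (X.Nw : ℝ) = e * (X.Nw / e) := by field_simp
      _ ≤ _ := by gcongr; linarith
  · have h2 : (∑ i : X.R, ∑ j : X.R, if (i : Om) = ρ ∨ (j : Om) = ρ then 0 else (G i j : ℝ))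
        = X.Nw := by
      rw [← h1]
      refine Finset.sum_congr rfl fun i _ => Finset.sum_congr rfl fun j _ => if_neg ?_
      rintro (h | h)
      · exact hρ (h ▸ i.2)
      · exact hρ (h ▸ j.2)
    rw [h2]
    nlinarith [X.Phi_Nw_pos]

variable [IsAlgClosed Om]

theorem h0 {G : X.R → X.R → ℕ} (hG : X.Adm G) {v : RV Om} (hv : X.Good v) (hE : Triv v X.E)
    {t : Om} (ht0 : t ≠ 0) (ht : v t < 1) (hg : Grp v X.Mb t) :
    X.Nw * w v t ≤ X.sord G v := by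
  obtain ⟨ρ, e, he, he1, h⟩ := X.S3_H0 hv hE ht0 ht hg
  have hp : 0 < w v t := (w_pos_iff ht0).2 ht
  refine (mul_le_mul_of_nonneg_right (X.Phi_touch hG ρ he he1) hp.le).trans ?_
  rw [mul_right_comm, Finset.mul_sum, sord]
  refine Finset.sum_le_sum fun i _ => ?_
  rw [Finset.mul_sum]
  refine Finset.sum_le_sum fun j _ => ?_
  by_cases hij : i = j
  · subst hij; rw [hG.1]; simp
  · have h1 := h i i.2 j j.2 fun e => hij (Subtype.ext e)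
    have h2 : (0 : ℝ) ≤ G i j := Nat.cast_nonneg _
    split_ifs at h1 ⊢ with hc
    · rw [mul_zero]; exact mul_nonneg h2 h1
    · rw [mul_comm]; exact mul_le_mul_of_nonneg_left h1 h2

theorem S_vert {G : X.R → X.R → ℕ} (hG : X.Adm G) (P : X.Pt) (h : ¬ Triv P.v X.K) :
    X.A P.v + X.sord G P.v / X.Nw ≤ X.SG G P := by
  have h1 := Ctx0.pt_vert P h X.ηreg X.ηne
  have hm : (0 : ℝ) < X.mK := by exact_mod_cast X.mKpos
  have h2 : P.can - X.lE P.v - X.lx P.v ≤ w P.v X.η / X.mK := by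
    rw [le_div_iff₀ hm]; linarith
  rw [X.SG_eq hG]
  linarith

theorem S_hor {G : X.R → X.R → ℕ} (hG : X.Adm G) (P : X.Pt) (h : Triv P.v X.K) :
    X.A P.v + X.sord G P.v / X.Nw - P.p ≤ X.SG G P := by
  have h1 := Ctx0.pt_hor P h
  rw [X.SG_eq hG, h.w_eq X.ηK, zero_div]
  linarith

/-- horizontal divisors, nontrivial on `E` -/
theorem Phi_p_le_A (P : X.Pt) (h : Triv P.v X.K) (hE : ¬ Triv P.v X.E) : P.p ≤ X.A P.v :=
  X.S3_H1_A (Ctx0.pt_good P) h.toAcl hE P.div.2.1 P.div.2.2.1 (Ctx0.pt_hor_grp P h)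

/-- the horizontal inequality -/
theorem Phi_hor {G : X.R → X.R → ℕ} (hG : X.Adm G) (P : X.Pt) (h : Triv P.v X.K) :
    P.p ≤ X.A P.v + X.sord G P.v / X.Nw := by
  have hv := Ctx0.pt_good P
  by_cases hE : Triv P.v X.E
  · have h1 := X.h0 hG hv hE P.div.2.1 P.div.2.2.1 (Ctx0.pt_hor_grp P h)
    have h2 : P.p ≤ X.sord G P.v / X.Nw := by
      rw [le_div_iff₀ X.Phi_Nw_pos, mul_comm]; exact h1
    linarith [X.A_nonneg hv]
  · have := div_nonneg (X.sord_nonneg hG hv) X.Phi_Nw_pos.le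
    linarith [X.Phi_p_le_A P h hE]

theorem S_nonneg {G : X.R → X.R → ℕ} (hG : X.Adm G) (P : X.Pt) : 0 ≤ X.SG G P := by
  have hv := Ctx0.pt_good P
  by_cases h : Triv P.v X.K
  · linarith [X.S_hor hG P h, X.Phi_hor hG P h]
  · have := div_nonneg (X.sord_nonneg hG hv) X.Phi_Nw_pos.le
    linarith [X.S_vert hG P h, X.A_nonneg hv]

theorem sord_le_S (P : X.Pt) (h : ¬ Triv P.v X.E) : X.sord X.Ga P.v ≤ X.Nw * X.S P := by
  have hv := Ctx0.pt_good P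
  rw [mul_comm, ← div_le_iff₀ X.Phi_Nw_pos, S]
  by_cases hK : Triv P.v X.K
  · linarith [X.S_hor X.adm_Ga P hK, X.Phi_p_le_A P hK h]
  · linarith [X.S_vert X.adm_Ga P hK, X.A_nonneg hv]

theorem ord_le_S (P : X.Pt) (h : ¬ Triv P.v X.E) {a b : Om} (ha : a ∈ X.R) (hb : b ∈ X.R)
    (hab : a ≠ b) : X.ord P.v a b ≤ X.Nw * X.S P :=
  (X.ord_le_sord (Ctx0.pt_good P) ha hb hab).trans (X.sord_le_S P h)

theorem Phi_regT {G : X.R → X.R → ℕ} (hG : X.Adm G) : X.RegT X.Nw (X.Phi G) := fun P _ => by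
  have h := X.S_nonneg hG P
  rw [SG, sub_nonneg, le_div_iff₀ X.Phi_Nw_pos] at h
  linarith

end Ctx

end Pool.Agent.Lib.MP_5c318e_ag
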