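import Pool.Agent.Lib.MP_5c318e_ag.Ctx
import Pool.Agent.Lib.MP_5c318e_ag.Unr

/-! Elementary facts on `w`, `Ge`, `acl`, `Triv`, `Grp`. -/

namespace Pool.Agent.Lib.MP_5c318e_ag

open scoped Classical NNReal

variable {Om : Type} [Field Om] {v : RV Om}

theorem v_pos {y : Om} (hy : y ≠ 0) : (0 : ℝ) < v y := by
  have : v y ≠ 0 := (Valuation.ne_zero_iff v).2 hy
  exact_mod_cast pos_iff_ne_zero.2 this

theorem w_congr {x y : Om} (h : v x = v y) : w v x = w v y := by simp [w, h]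

@[simp] theorem w_one : w v 1 = 0 := by simp [w]

@[simp] theorem w_neg (y : Om) : w v (-y) = w v y := by simp [w]

theorem w_sub_comm (x y : Om) : w v (x - y) = w v (y - x) := by rw [← neg_sub, w_neg]

theorem w_mul {x y : Om} (hx : x ≠ 0) (hy : y ≠ 0) : w v (x * y) = w v x + w v y := by
  simp only [w, map_mul, NNReal.coe_mul]
  rw [Real.log_mul (v_pos hx).ne' (v_pos hy).ne']; ring

theorem w_inv (y : Om) : w v y⁻¹ = - w v y := by simp [w]

theorem w_div {x y : Om} (hx : x ≠ 0) (hy : y ≠ 0) : w v (x / y) = w v x - w v y := by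
  rw [div_eq_mul_inv, w_mul hx (inv_ne_zero hy), w_inv]; ring

theorem w_pow (y : Om) (n : ℕ) : w v (y ^ n) = n * w v y := by simp [w]

theorem w_zpow (y : Om) (n : ℤ) : w v (y ^ n) = n * w v y := by simp [w]

theorem w_prod {ι : Type*} (s : Finset ι) (f : ι → Om) (h : ∀ i ∈ s, f i ≠ 0) :
    w v (∏ i ∈ s, f i) = ∑ i ∈ s, w v (f i) := by
  induction s using Finset.induction_on with
  | empty => simp
  | insert a s ha ih =>
    rw [Finset.prod_insert ha, Finset.sum_insert ha, w_mul (h a (Finset.mem_insert_self _ _))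
      (Finset.prod_ne_zero_iff.2 fun i hi => h i (Finset.mem_insert_of_mem hi)),
      ih fun i hi => h i (Finset.mem_insert_of_mem hi)]

theorem le_iff_w {x y : Om} (hx : x ≠ 0) (hy : y ≠ 0) : v x ≤ v y ↔ w v y ≤ w v x := by
  simp only [w, neg_le_neg_iff]
  rw [Real.log_le_log_iff (v_pos hx) (v_pos hy), NNReal.coe_le_coe]

theorem lt_iff_w {x y : Om} (hx : x ≠ 0) (hy : y ≠ 0) : v x < v y ↔ w v y < w v x := by
  rw [← not_le, le_iff_w hy hx, not_le]

theorem eq_iff_w {x y : Om} (hx : x ≠ 0) (hy : y ≠ 0) : v x = v y ↔ w v x = w v y := by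
  rw [le_antisymm_iff, le_iff_w hx hy, le_iff_w hy hx, le_antisymm_iff, and_comm]

theorem w_nonneg_iff {y : Om} (hy : y ≠ 0) : 0 ≤ w v y ↔ v y ≤ 1 := by
  rw [← v.map_one, le_iff_w hy one_ne_zero, w_one]

theorem w_pos_iff {y : Om} (hy : y ≠ 0) : 0 < w v y ↔ v y < 1 := by
  rw [← v.map_one, lt_iff_w hy one_ne_zero, w_one]

theorem w_neg_iff {y : Om} (hy : y ≠ 0) : w v y < 0 ↔ 1 < v y := by
  rw [← v.map_one, lt_iff_w one_ne_zero hy, w_one]

theorem w_eq_zero_iff {y : Om} (hy : y ≠ 0) : w v y = 0 ↔ v y = 1 := by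
  rw [← v.map_one, eq_iff_w hy one_ne_zero, w_one]

theorem w_of_eq_one {y : Om} (h : v y = 1) : w v y = 0 := by simp [w, h]

theorem v_eq_exp {y : Om} (hy : y ≠ 0) : (v y : ℝ) = Real.exp (- w v y) := by
  simp only [w, neg_neg]; rw [Real.exp_log (v_pos hy)]

theorem ge_iff {y : Om} {c : ℝ} : Ge v y c ↔ (v y : ℝ) ≤ Real.exp (-c) := by
  by_cases hy : y = 0
  · simp [Ge, hy, (Real.exp_pos _).le]
  · rw [v_eq_exp hy, Real.exp_le_exp, neg_le_neg_iff]
    exact ⟨fun h => h hy, fun h _ => h⟩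

theorem ge_w_iff {x y : Om} (hy : y ≠ 0) : Ge v x (w v y) ↔ v x ≤ v y := by
  rw [ge_iff, ← v_eq_exp hy, NNReal.coe_le_coe]

theorem ge_zero_iff {y : Om} : Ge v y 0 ↔ v y ≤ 1 := by
  rw [← w_one (v := v), ge_w_iff one_ne_zero, map_one]

theorem Ge.zero (c : ℝ) : Ge v 0 c := fun h => (h rfl).elim

theorem Ge.self (y : Om) : Ge v y (w v y) := fun _ => le_rfl

theorem Ge.mono {y : Om} {c c' : ℝ} (h : Ge v y c) (hc : c' ≤ c) : Ge v y c' :=
  fun hy => hc.trans (h hy)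

theorem Ge.of_le {x y : Om} {c : ℝ} (h : Ge v y c) (hxy : v x ≤ v y) : Ge v x c :=
  ge_iff.2 ((NNReal.coe_le_coe.2 hxy).trans (ge_iff.1 h))

theorem Ge.neg {y : Om} {c : ℝ} (h : Ge v y c) : Ge v (-y) c := h.of_le (by simp)

theorem Ge.add {x y : Om} {c : ℝ} (hx : Ge v x c) (hy : Ge v y c) : Ge v (x + y) c := by
  rcases v.map_add' x y with h | h
  exacts [hx.of_le h, hy.of_le h]

theorem Ge.sub {x y : Om} {c : ℝ} (hx : Ge v x c) (hy : Ge v y c) : Ge v (x - y) c := by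
  rw [sub_eq_add_neg]; exact hx.add hy.neg

theorem Ge.mul {x y : Om} {c c' : ℝ} (hx : Ge v x c) (hy : Ge v y c') :
    Ge v (x * y) (c + c') := fun h => by
  rw [w_mul (left_ne_zero_of_mul h) (right_ne_zero_of_mul h)]
  exact add_le_add (hx (left_ne_zero_of_mul h)) (hy (right_ne_zero_of_mul h))

theorem Ge.one : Ge v 1 0 := fun _ => w_one.ge

theorem Ge.pow {y : Om} {c : ℝ} (h : Ge v y c) (n : ℕ) : Ge v (y ^ n) (n * c) := by
  induction n with
  | zero => simpa using Ge.one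
  | succ n ih => rw [pow_succ]; exact (ih.mul h).mono (by push_cast; linarith)

theorem Ge.sum {ι : Type*} (s : Finset ι) {f : ι → Om} {c : ℝ} (h : ∀ i ∈ s, Ge v (f i) c) :
    Ge v (∑ i ∈ s, f i) c :=
  Finset.sum_induction f (fun y => Ge v y c) (fun _ _ => Ge.add) (Ge.zero c) h

theorem Ge.prod {ι : Type*} (s : Finset ι) {f : ι → Om} {c : ι → ℝ}
    (h : ∀ i ∈ s, Ge v (f i) (c i)) : Ge v (∏ i ∈ s, f i) (∑ i ∈ s, c i) := fun h0 => by
  have h1 := Finset.prod_ne_zero_iff.1 h0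
  rw [w_prod s f h1]
  exact Finset.sum_le_sum fun i hi => h i hi (h1 i hi)

/-- `v x ≤ v y ^ m` in additive form -/
theorem le_pow_iff_ge {x y : Om} (hy : y ≠ 0) (m : ℕ) :
    v x ≤ v y ^ m ↔ Ge v x (m * w v y) := by
  rw [← w_pow, ge_w_iff (pow_ne_zero m hy), map_pow]

/-- a multiplicative constant for the toolkit lemmas -/
noncomputable def ex (c : ℝ) : ℝ≥0 := ⟨Real.exp c, (Real.exp_pos c).le⟩

theorem one_le_ex {c : ℝ} (h : 0 ≤ c) : 1 ≤ ex c := by
  rw [← NNReal.coe_le_coe]; exact Real.one_le_exp h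

theorem ex_add (a b : ℝ) : ex (a + b) = ex a * ex b := NNReal.eq (Real.exp_add a b)

theorem ex_pow (a : ℝ) (n : ℕ) : ex a ^ n = ex (n * a) := NNReal.eq (by
  rw [NNReal.coe_pow]; exact (Real.exp_nat_mul a n).symm)

theorem le_ex_iff {x : Om} {c : ℝ} : v x ≤ ex c ↔ Ge v x (-c) := by
  rw [ge_iff, neg_neg, ← NNReal.coe_le_coe]; rfl

theorem le_ex_mul_iff {x y : Om} (hy : y ≠ 0) {c : ℝ} :
    v x ≤ ex c * v y ↔ Ge v x (w v y - c) := by
  rw [ge_iff, ← NNReal.coe_le_coe, NNReal.coe_mul, v_eq_exp hy,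
    show -(w v y - c) = c + - w v y by ring, Real.exp_add]; rfl

theorem harch (v : RV Om) : ∀ c y : Om, v c < 1 → y ≠ 0 → ∃ k : ℕ, v c ^ k < v y :=
  fun _ _ hc hy => exists_pow_lt_of_lt_one (by exact_mod_cast v_pos (v := v) hy) hc

theorem Grp.w_eq {F : Subfield Om} {t : Om} (h : Grp v F t) {y : Om} (hy : y ∈ F) (h0 : y ≠ 0) :
    ∃ k : ℤ, w v y = k * w v t := by
  obtain ⟨k, hk⟩ := h y hy h0
  exact ⟨k, by rw [← w_zpow]; exact w_congr (by rw [hk, map_zpow₀])⟩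

theorem Grp.le_w {F : Subfield Om} {t : Om} (h : Grp v F t) (ht : 0 < w v t) {y : Om}
    (hy : y ∈ F) (h0 : y ≠ 0) (hp : 0 < w v y) : w v t ≤ w v y := by
  obtain ⟨k, hk⟩ := h.w_eq hy h0
  have h1 : (0 : ℝ) < k := by
    rw [hk] at hp; exact (pos_iff_pos_of_mul_pos hp).2 ht
  have h2 : (1 : ℝ) ≤ k := by exact_mod_cast (show (1 : ℤ) ≤ k by exact_mod_cast h1)
  rw [hk]; nlinarith

theorem Grp.mono {F F' : Subfield Om} {t : Om} (h : Grp v F t) (hle : F' ≤ F) : Grp v F' t :=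
  fun y hy => h y (hle hy)

theorem Grp.of_val {F F' : Subfield Om} {t : Om} (h : Grp v F t)
    (hv : ∀ y ∈ F', ∃ f ∈ F, v y = v f) : Grp v F' t := fun y hy h0 => by
  obtain ⟨f, hf, e⟩ := hv y hy
  rw [e]
  exact h f hf fun hf0 => h0 (v.zero_iff.1 (by rw [e, hf0, map_zero]))

theorem mem_acl {F : Subfield Om} {y : Om} : y ∈ acl F ↔ IsAlgebraic F y :=
  mem_algebraicClosure_iff

theorem le_acl (F : Subfield Om) : F ≤ acl F := fun y hy =>
  mem_acl.2 (isAlgebraic_algebraMap (⟨y, hy⟩ : F))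

theorem acl_mono {F F' : Subfield Om} (h : F ≤ F') : acl F ≤ acl F' := fun y hy => by
  let _ : Algebra F F' := (Subfield.inclusion h).toAlgebra
  have : IsScalarTower F F' Om := IsScalarTower.of_algebraMap_eq fun _ => rfl
  exact mem_acl.2 ((mem_acl.1 hy).tower_top F')

theorem acl_le {F F' : Subfield Om} (h : F ≤ acl F') : acl F ≤ acl F' := fun y hy => by
  have h1 : IsAlgebraic (algebraicClosure F' Om) y := mem_acl.1 (acl_mono h hy)
  exact mem_acl.2 (h1.restrictScalars F')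

theorem acl_acl (F : Subfield Om) : acl (acl F) = acl F :=
  le_antisymm (acl_le le_rfl) (le_acl _)

theorem isAlgClosed_acl [IsAlgClosed Om] (F : Subfield Om) : IsAlgClosed (acl F) :=
  (inferInstance : IsAlgClosure F (algebraicClosure F Om)).isAlgClosed

theorem le_adj (F : Subfield Om) (S : Set Om) : F ≤ adj F S :=
  fun _ hy => Subfield.subset_closure (Or.inl hy)

theorem mem_adj (F : Subfield Om) {S : Set Om} {y : Om} (hy : y ∈ S) : y ∈ adj F S :=
  Subfield.subset_closure (Or.inr hy)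

theorem adj_le {F F' : Subfield Om} {S : Set Om} (h : F ≤ F') (hS : ∀ y ∈ S, y ∈ F') :
    adj F S ≤ F' := Subfield.closure_le.2 fun y hy => hy.elim (fun h1 => h h1) (hS y)

theorem sup_eq_adj (F F' : Subfield Om) : F ⊔ F' = adj F F' :=
  le_antisymm (sup_le (le_adj _ _) fun _ hy => mem_adj _ hy)
    (adj_le le_sup_left fun _ hy => (le_sup_right : F' ≤ F ⊔ F') hy)

theorem isAlgebraic_of_acl {F : Subfield Om} (h : ∀ y : Om, y ∈ acl F) :
    Algebra.IsAlgebraic F Om := ⟨fun y => mem_acl.1 (h y)⟩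

theorem Triv.mono {F F' : Subfield Om} (h : Triv v F) (hle : F' ≤ F) : Triv v F' :=
  fun u hu => h u (hle hu)

theorem Triv.le {F : Subfield Om} (h : Triv v F) {u : Om} (hu : u ∈ F) : v u ≤ 1 := by
  by_cases h0 : u = 0
  · simp [h0]
  · exact (h u hu h0).le

theorem Triv.w_eq {F : Subfield Om} (h : Triv v F) {u : Om} (hu : u ∈ F) : w v u = 0 := by
  by_cases h0 : u = 0
  · simp [h0, w]
  · exact w_of_eq_one (h u hu h0)

theorem Triv.toAcl {F : Subfield Om} (h : Triv v F) : Triv v (acl F) := fun _ hu h0 =>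
  v_eq_one_of_isAlgebraic (fun _ hf => h.le hf) (mem_acl.1 hu) h0

theorem Triv.hv [CharZero Om] {F : Subfield Om} (h : Triv v F) :
    ∀ n : ℕ, n ≠ 0 → v n = 1 := fun n hn => h n (natCast_mem F n) (Nat.cast_ne_zero.2 hn)

theorem RInd.toTriv {k0 : Subfield Om} {s : Type*} {y : s → Om} (h : RInd v k0 y) :
    Triv v (adj k0 (Set.range y)) := fun _ hu h0 => h.field hu h0

theorem not_triv_iff {F : Subfield Om} :
    ¬ Triv v F ↔ ∃ t ∈ F, t ≠ 0 ∧ v t < 1 := by
  constructor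
  · intro h
    simp only [Triv, not_forall] at h
    obtain ⟨u, hu, h0, h1⟩ := h
    rcases lt_or_gt_of_ne h1 with h2 | h2
    · exact ⟨u, hu, h0, h2⟩
    · exact ⟨u⁻¹, F.inv_mem hu, inv_ne_zero h0, by rw [map_inv₀]; exact inv_lt_one_of_one_lt₀ h2⟩
  · rintro ⟨t, ht, h0, h1⟩ h
    exact h1.ne (h t ht h0)

/-- UNR' : adjoining elements algebraic over a trivially valued subfield -/
theorem val_adj [CharZero Om] {F0 F : Subfield Om} (hle : F0 ≤ F) (h0 : Triv v F0) {S : Set Om}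
    (hS : ∀ a ∈ S, a ∈ acl F0) : ∀ y ∈ adj F S, ∃ f ∈ F, v y = v f := fun _ hy =>
  unrp v (harch v) hle (fun _ hf => h0.le hf) (fun a ha => mem_acl.1 (hS a ha)) hy

theorem charZero_of_algebra [Algebra ℂ Om] : CharZero Om :=
  charZero_of_injective_algebraMap (algebraMap ℂ Om).injective

theorem mem_C0 [Algebra ℂ Om] {y : Om} : y ∈ C0 Om ↔ ∃ c : ℂ, algebraMap ℂ Om c = y :=
  RingHom.mem_fieldRange

/-- real powers of a valuation -/
noncomputable def vpow (v : RV Om) (l : ℝ) (hl : 0 < l) : RV Om where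
  toFun y := v y ^ l
  map_zero' := by simp [NNReal.zero_rpow hl.ne']
  map_one' := by simp
  map_mul' x y := by simp [NNReal.mul_rpow]
  map_add_le_max' x y := by
    rcases v.map_add' x y with h | h
    · exact le_max_of_le_left (NNReal.rpow_le_rpow h hl.le)
    · exact le_max_of_le_right (NNReal.rpow_le_rpow h hl.le)

theorem vpow_apply (v : RV Om) (l : ℝ) (hl : 0 < l) (y : Om) : vpow v l hl y = v y ^ l := rfl

/-- pull back of a valuation along an automorphism -/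
noncomputable def vaut {F : Subfield Om} (v : RV Om) (g : Om ≃ₐ[F] Om) : RV Om :=
  v.comap (g : Om →+* Om)

theorem vaut_apply {F : Subfield Om} (v : RV Om) (g : Om ≃ₐ[F] Om) (y : Om) :
    vaut v g y = v (g y) := rfl

end Pool.Agent.Lib.MP_5c318e_ag
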