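import Pool.Agent.Lib.MP_5c318e_ag.RamA
import Pool.Agent.Lib.MP_5c318e_ag.Val

/-! Existence of the ramification data `Ram` for a finite normal extension of `E(x)`. -/

namespace Pool.Agent.Lib.MP_5c318e_ag

open Polynomial
open scoped NNReal Classical

variable {Om : Type} [Field Om]

theorem ram_trans_acl {E : Subfield Om} {x : Om} (hx : Transcendental E x) :
    Transcendental (acl E) x := fun h => hx (mem_acl.1 (acl_acl E ▸ mem_acl.2 h))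

theorem ram_adj_mono {E E' : Subfield Om} (h : E ≤ E') (S : Set Om) : adj E S ≤ adj E' S :=
  adj_le (h.trans (le_adj _ _)) fun _ hy => mem_adj _ hy

theorem ram_sub_ne {E : Subfield Om} {x ρ : Om} (hx : Transcendental E x) (hρ : ρ ∈ acl E) :
    x - ρ ≠ 0 := fun h => hx (mem_acl.1 (sub_eq_zero.1 h ▸ hρ))

/-- a valuation trivial on `E` with prescribed centre on the `x`-line -/
theorem ram_val_at {E : Subfield Om} {x : Om} (hx : Transcendental E x)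
    (halg : ∀ y : Om, y ∈ acl (adj E {x})) {ρ : Om} (hρ : ρ ∈ acl E) :
    ∃ v : RV Om, Triv v E ∧ v (x - ρ) < 1 := by
  obtain ⟨v, h0, -, h1, -⟩ := ext_root (ram_trans_acl hx)
    (fun y => mem_acl.1 (acl_mono (ram_adj_mono (le_acl E) _) (halg y))) ⟨ρ, hρ⟩
  exact ⟨v, fun u hu => h0 u (le_acl E hu), h1⟩

theorem ram_val_inf {E : Subfield Om} {x : Om} (hx : Transcendental E x)
    (halg : ∀ y : Om, y ∈ acl (adj E {x})) : ∃ v : RV Om, Triv v E ∧ 1 < v x := by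
  obtain ⟨v, h0, -, h1, -⟩ := ext_deg hx (fun y => mem_acl.1 (halg y))
  exact ⟨v, h0, h1⟩

/-- two valuations with the same centre have the same exponents on `acl E (x)` -/
theorem ram_same_exp {E : Subfield Om} {x ρ : Om} (hx : Transcendental E x) (hρ : ρ ∈ acl E)
    {v v' : RV Om} (hv : Triv v E) (hv' : Triv v' E) (h : v (x - ρ) < 1) (h' : v' (x - ρ) < 1) :
    ∀ f ∈ adj (acl E) {x}, f ≠ 0 → ∃ k : ℤ, v f = v (x - ρ) ^ k ∧ v' f = v' (x - ρ) ^ k := by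
  intro f hf hf0
  obtain ⟨p, q, rfl⟩ := exists_ratio_of_mem_closure hf
  have hp : p ≠ 0 := fun h => hf0 (by simp [h])
  have hq : q ≠ 0 := fun h => hf0 (by simp [h])
  have h0 := ram_sub_ne hx hρ
  refine ⟨(rootMultiplicity ⟨ρ, hρ⟩ p : ℤ) - rootMultiplicity ⟨ρ, hρ⟩ q, ?_, ?_⟩
  · rw [map_div₀, val_centre v hv.toAcl ⟨ρ, hρ⟩ h hp, val_centre v hv.toAcl ⟨ρ, hρ⟩ h hq,
      zpow_sub₀ ((v.ne_zero_iff).2 h0), zpow_natCast, zpow_natCast]
  · rw [map_div₀, val_centre v' hv'.toAcl ⟨ρ, hρ⟩ h' hp, val_centre v' hv'.toAcl ⟨ρ, hρ⟩ h' hq,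
      zpow_sub₀ ((v'.ne_zero_iff).2 h0), zpow_natCast, zpow_natCast]

/-- restriction of scalars for automorphisms over a larger subfield -/
def ramRes {F F' : Subfield Om} (h : F ≤ F') (σ : Om ≃ₐ[F'] Om) : Om ≃ₐ[F] Om :=
  AlgEquiv.ofRingEquiv (f := σ.toRingEquiv) fun a => σ.commutes ⟨a, h a.2⟩

theorem ramRes_apply {F F' : Subfield Om} (h : F ≤ F') (σ : Om ≃ₐ[F'] Om) (y : Om) :
    ramRes h σ y = σ y := rfl

theorem ram_centre_unique {E : Subfield Om} {x ρ ρ' : Om} {v : RV Om} (hv : Triv v E)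
    (hρ : ρ ∈ acl E) (hρ' : ρ' ∈ acl E) (h : v (x - ρ) < 1) (h' : v (x - ρ') < 1) : ρ = ρ' := by
  by_contra hne
  have h1 := hv.toAcl (ρ' - ρ) (sub_mem hρ' hρ) (sub_ne_zero.2 (Ne.symm hne))
  have h2 : v ((x - ρ) - (x - ρ')) < 1 := v.map_sub_lt h h'
  rw [show (x - ρ) - (x - ρ') = ρ' - ρ by ring, h1] at h2
  exact lt_irrefl _ h2

variable [IsAlgClosed Om] [CharZero Om]

omit [IsAlgClosed Om] in
theorem ram_at {E N : Subfield Om} {x : Om} (hx : Transcendental E x)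
    (halg : ∀ y : Om, y ∈ acl (adj E {x})) (hN : adj E {x} ≤ N)
    (hfin : ∃ θ ∈ N, N = adj (adj E {x}) {θ}) {v : RV Om} (hv : Triv v E) {ρ : Om}
    (hρ : ρ ∈ acl E) (h : v (x - ρ) < 1) : ∃ e, 0 < e ∧ IsRam v N (v (x - ρ)) e := by
  obtain ⟨θ, -, hθ⟩ := hfin
  have hfd : FiniteDimensional (adj E {x}) (IntermediateField.adjoin (adj E {x}) {θ}) :=
    IntermediateField.adjoin.finiteDimensional (mem_acl.1 (halg θ)).isIntegral
  obtain ⟨D, hD, H⟩ := idx_exists (IntermediateField.adjoin (adj E {x}) {θ})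
  have h0 := ram_sub_ne hx hρ
  refine ram_exists v N ((v.ne_zero_iff).2 h0) h hD (fun y hy hy0 => ?_) ?_
  · rw [hθ, adj, closure_eq_adjoin] at hy
    obtain ⟨f, hf, he⟩ := H ℝ≥0 v y hy
    rw [he]
    refine grp_centre v hv.toAcl hρ h h0 (ram_adj_mono (le_acl E) _ hf) fun hf0 => ?_
    rw [hf0, map_zero] at he
    exact hy0 (v.zero_iff.1 (pow_eq_zero_iff hD.ne' |>.1 he))
  · obtain ⟨f, hf, he⟩ := val_adj (v := v) ((le_adj E {x}).trans hN) hv (S := {ρ})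
      (fun a ha => by rw [Set.mem_singleton_iff.1 ha]; exact hρ) (x - ρ)
      (sub_mem (le_adj _ _ (hN (mem_adj _ rfl))) (mem_adj _ rfl))
    exact ⟨f, hf, he.symm⟩

/-- the index does not depend on the valuation above a given point -/
theorem ram_indep {E N : Subfield Om} {x : Om} (hx : Transcendental E x)
    (halg : ∀ y : Om, y ∈ acl (adj E {x}))
    (hnor : ∀ g : Om ≃ₐ[adj E {x}] Om, ∀ y ∈ N, g y ∈ N) {v v' : RV Om} (hv : Triv v E)
    (hv' : Triv v' E) {ρ : Om} (hρ : ρ ∈ acl E) (h : v (x - ρ) < 1) (h' : v' (x - ρ) < 1) {e : ℕ}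
    (hr : IsRam v N (v (x - ρ)) e) : IsRam v' N (v' (x - ρ)) e :=
  IsRam.conj (adj (acl E) {x})
    (fun y => mem_acl.1 (acl_mono (ram_adj_mono (le_acl E) _) (halg y)))
    (fun σ => hnor (ramRes (ram_adj_mono (le_acl E) _) σ)) (ram_sub_ne hx hρ) h h'
    (ram_same_exp hx hρ hv hv' h h') hr

omit [IsAlgClosed Om] [CharZero Om] in
/-- conjugate points have the same index -/
theorem ram_e_aut {E N : Subfield Om} {x : Om} (hx : Transcendental E x)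
    (halg : ∀ y : Om, y ∈ acl (adj E {x}))
    (hnor : ∀ g : Om ≃ₐ[adj E {x}] Om, ∀ y ∈ N, g y ∈ N) {e : Om → ℕ}
    (he : ∀ v : RV Om, Triv v E → ∀ ρ ∈ acl E, v (x - ρ) < 1 → IsRam v N (v (x - ρ)) (e ρ))
    (g : Om ≃ₐ[adj E {x}] Om) {ρ : Om} (hρ : ρ ∈ acl E) : g ρ ∈ acl E ∧ e (g ρ) = e ρ := by
  have hfix : ∀ (g : Om ≃ₐ[adj E {x}] Om), ∀ u ∈ adj E {x}, g u = u :=
    fun g u hu => g.commutes ⟨u, hu⟩
  have hgρ : g ρ ∈ acl E :=
    mem_acl.2 ((mem_acl.1 hρ).algHom (ramRes (le_adj E {x}) g).toAlgHom)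
  refine ⟨hgρ, ?_⟩
  obtain ⟨v, hv, h⟩ := ram_val_at hx halg hρ
  have h1 : vaut v g.symm (x - g ρ) = v (x - ρ) := by
    rw [vaut_apply, map_sub, hfix g.symm x (mem_adj _ rfl), g.symm_apply_apply]
  have hv' : Triv (vaut v g.symm) E := fun u hu h0 => by
    rw [vaut_apply, hfix g.symm u (le_adj _ _ hu)]; exact hv u hu h0
  have h2 := he _ hv' _ hgρ (h1 ▸ h)
  rw [h1] at h2
  exact h2.unique ((he v hv ρ hρ h).aut g.toRingEquiv (hnor g) (hnor g.symm)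
    fun y _ => by rw [vaut_apply]; exact congrArg v (g.symm_apply_apply y))

/-- ramification data at finite points -/
theorem ram_fin_data {E N : Subfield Om} {x : Om} (hx : Transcendental E x)
    (halg : ∀ y : Om, y ∈ acl (adj E {x})) (hN : adj E {x} ≤ N)
    (hfin : ∃ θ ∈ N, N = adj (adj E {x}) {θ})
    (hnor : ∀ g : Om ≃ₐ[adj E {x}] Om, ∀ y ∈ N, g y ∈ N) :
    ∃ (R : Finset Om) (e : Om → ℕ), (∀ ρ ∈ R, ρ ∈ acl E) ∧ (∀ ρ ∈ R, 2 ≤ e ρ) ∧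
      (∀ ρ, ρ ∉ R → e ρ = 1) ∧
      (∀ v : RV Om, Triv v E → ∀ ρ ∈ acl E, v (x - ρ) < 1 → IsRam v N (v (x - ρ)) (e ρ)) ∧
      ∀ g : Om ≃ₐ[adj E {x}] Om, ∀ ρ ∈ R, g ρ ∈ R := by
  have key : ∀ ρ : Om, ∃ e : ℕ, 0 < e ∧ (ρ ∉ acl E → e = 1) ∧ (ρ ∈ acl E → ∀ v : RV Om,
      Triv v E → v (x - ρ) < 1 → IsRam v N (v (x - ρ)) e) := by
    intro ρ
    by_cases hρ : ρ ∈ acl E
    · obtain ⟨v, hv, h⟩ := ram_val_at hx halg hρ
      obtain ⟨e, he, hr⟩ := ram_at hx halg hN hfin hv hρ h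
      exact ⟨e, he, fun h => absurd hρ h, fun _ v' hv' h' =>
        ram_indep hx halg hnor hv hv' hρ h h' hr⟩
    · exact ⟨1, one_pos, fun _ => rfl, fun h => absurd h hρ⟩
  choose e hpos hout hin using key
  have he : ∀ v : RV Om, Triv v E → ∀ ρ ∈ acl E, v (x - ρ) < 1 →
      IsRam v N (v (x - ρ)) (e ρ) := fun v hv ρ hρ h => hin ρ hρ v hv h
  obtain ⟨θ, hθN, hθ⟩ := hfin
  obtain ⟨d, hd, hd0, H⟩ := ram_unr (G := ℝ≥0) E {x} {θ} (fun g _ => mem_acl.1 (halg g))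
  rw [Algebra.adjoin_singleton_eq_range_aeval] at hd
  obtain ⟨p, hp⟩ := hd
  have hp' : aeval x p = d := hp
  have hp0 : p ≠ 0 := fun h => hd0 (by rw [← hp', h, map_zero])
  have hroot : ∀ ρ, e ρ ≠ 1 → aeval ρ p = 0 := by
    intro ρ hne
    have hρ : ρ ∈ acl E := by
      by_contra h
      exact hne (hout ρ h)
    by_contra hnr
    obtain ⟨v, hv, h⟩ := ram_val_at hx halg hρ
    have h0 := ram_sub_ne hx hρ
    have hx1 : v x ≤ 1 := by
      have := v.map_add_le h.le (hv.toAcl.le hρ)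
      rwa [sub_add_cancel] at this
    have hd1 : v d = 1 := by
      refine le_antisymm (hp' ▸ v_aeval_le_one v hv hx1 p) (not_lt.1 fun hlt => hnr ?_)
      obtain ⟨ρ', hr', h'⟩ := exists_root_near v hv hp0 (hp' ▸ hlt)
      rw [ram_centre_unique hv hρ (mem_acl.2 ⟨p, hp0, hr'⟩) h h']
      exact hr'
    have hr := he v hv ρ hρ h
    refine hne (hr.unique (IsRam.one_iff.2 ⟨(v.ne_zero_iff).2 h0, h, ?_, fun y hy hy0 => ?_⟩))
    · obtain ⟨t, ht, -, -, hte, -⟩ := hr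
      exact ⟨t ^ e ρ, pow_mem ht _, by rw [map_pow, hte]⟩
    · rw [hθ] at hy
      obtain ⟨f, hf, hyf⟩ := H v (harch v) (fun f hf => hv.le hf)
        (fun s hs => by rw [Set.mem_singleton_iff.1 hs]; exact hx1) hd1 y
        (by rw [Finset.coe_singleton]; exact hy)
      rw [hyf]
      exact grp_centre v hv.toAcl hρ h h0 (ram_adj_mono (le_acl E) _ hf) fun hf0 =>
        hy0 (v.zero_iff.1 (by rw [hyf, hf0, map_zero]))
  have hR : ∀ ρ, ρ ∈ (p.aroots Om).toFinset.filter (fun ρ => e ρ ≠ 1) ↔ e ρ ≠ 1 := fun ρ => by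
    rw [Finset.mem_filter, Multiset.mem_toFinset, mem_aroots]
    exact ⟨fun h => h.2, fun h => ⟨⟨hp0, hroot ρ h⟩, h⟩⟩
  have hmem : ∀ ρ, e ρ ≠ 1 → ρ ∈ acl E := fun ρ h => by
    by_contra h1
    exact h (hout ρ h1)
  refine ⟨_, e, fun ρ h => hmem ρ ((hR ρ).1 h), fun ρ h => ?_, fun ρ h => ?_, he,
    fun g ρ h => (hR _).2 ?_⟩
  · have h1 := (hR ρ).1 h
    have h2 := hpos ρ
    omega
  · by_contra h1
    exact h ((hR ρ).2 h1)
  · rw [(ram_e_aut hx halg hnor he g (hmem ρ ((hR ρ).1 h))).2]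
    exact (hR ρ).1 h

omit [IsAlgClosed Om] [CharZero Om] in
theorem ram_adj_inv {E : Subfield Om} (x : Om) {c : Om} (hc : c ∈ E) :
    adj E {(x - c)⁻¹} = adj E {x} := by
  refine le_antisymm (adj_le (le_adj _ _) fun y hy => ?_) (adj_le (le_adj _ _) fun y hy => ?_)
  · rw [Set.mem_singleton_iff.1 hy]
    exact inv_mem (sub_mem (mem_adj _ rfl) (le_adj _ _ hc))
  · have h1 : ((x - c)⁻¹)⁻¹ + c ∈ adj E {(x - c)⁻¹} :=
      add_mem (inv_mem (mem_adj _ rfl)) (le_adj _ _ hc)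
    rw [inv_inv, sub_add_cancel] at h1
    rw [Set.mem_singleton_iff.1 hy]
    exact h1

/-- RAM: after moving an unramified point to infinity the ramification data exist. -/
theorem exists_Ram {E N : Subfield Om} {x : Om} (hx : Transcendental E x)
    (halg : ∀ y : Om, y ∈ acl (adj E {x})) (hN : adj E {x} ≤ N)
    (hfin : ∃ θ ∈ N, N = adj (adj E {x}) {θ})
    (hnor : ∀ g : Om ≃ₐ[adj E {x}] Om, ∀ y ∈ N, g y ∈ N) :
    ∃ (n : ℕ) (R : Finset Om) (e : Om → ℕ), adj E {(x - n)⁻¹} = adj E {x} ∧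
      Transcendental E (x - n)⁻¹ ∧ Ram E N (x - n)⁻¹ R e := by
  obtain ⟨R0, e0, -, -, h1, hf, -⟩ := ram_fin_data hx halg hN hfin hnor
  obtain ⟨n, hn⟩ : ∃ n : ℕ, (n : Om) ∉ R0 := by
    obtain ⟨_, ⟨n, rfl⟩, hn⟩ := (Set.infinite_range_of_injective
      (Nat.cast_injective (R := Om))).exists_notMem_finset R0
    exact ⟨n, hn⟩
  have hnE : (n : Om) ∈ E := natCast_mem E n
  have he := ram_adj_inv x hnE
  have hx' : Transcendental E (x - n)⁻¹ := fun h => by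
    have h2 : ((x - n)⁻¹)⁻¹ + n ∈ acl E := add_mem (inv_mem (mem_acl.2 h)) (le_acl E hnE)
    rw [inv_inv, sub_add_cancel] at h2
    exact hx (mem_acl.1 h2)
  obtain ⟨R, e, a1, a2, a3, a4, a5⟩ := ram_fin_data (N := N) hx' (he ▸ halg) (he ▸ hN) (he ▸ hfin)
    (by rw [he]; exact hnor)
  refine ⟨n, R, e, he, hx', a1, a2, a3, fun v hv ρ hρ h => ?_, fun v hv h y hy hy0 => ?_, a5⟩
  · obtain ⟨t, ht, ht0, ht1, hte, hg⟩ := a4 v hv ρ hρ h
    exact ⟨t, ht, ht0, ht1, hte.symm, hg⟩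
  · have h0 := ram_sub_ne hx (le_acl E hnE)
    have h2 : v (x - n) < 1 := by
      rwa [map_inv₀, one_lt_inv₀ ((v.pos_iff).2 h0)] at h
    have h3 := hf v hv n (le_acl E hnE) h2
    rw [h1 _ hn] at h3
    obtain ⟨k, hk⟩ := (IsRam.one_iff.1 h3).2.2.2 y hy hy0
    exact ⟨-k, by rw [hk, map_inv₀, inv_zpow', neg_neg]⟩

omit [IsAlgClosed Om] [CharZero Om] in
theorem Ram.isRam [Algebra ℂ Om] {E N : Subfield Om} {x : Om} {R : Finset Om} {e : Om → ℕ}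
    (h : Ram E N x R e) {v : RV Om} (hv : Triv v E) {ρ : Om} (hρ : ρ ∈ acl E)
    (h1 : v (x - ρ) < 1) : IsRam v N (v (x - ρ)) (e ρ) := by
  obtain ⟨t, ht, ht0, ht1, hte, hg⟩ := h.fin v hv ρ hρ h1
  exact ⟨t, ht, ht0, ht1, hte.symm, hg⟩

omit [IsAlgClosed Om] [CharZero Om] in
theorem Ram.e_aut [Algebra ℂ Om] {E N : Subfield Om} {x : Om} {R : Finset Om} {e : Om → ℕ}
    (h : Ram E N x R e) (hx : Transcendental E x) (halg : ∀ y : Om, y ∈ acl (adj E {x}))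
    (hnor : ∀ g : Om ≃ₐ[adj E {x}] Om, ∀ y ∈ N, g y ∈ N) (g : Om ≃ₐ[adj E {x}] Om) {ρ : Om}
    (hρ : ρ ∈ acl E) : e (g ρ) = e ρ :=
  (ram_e_aut hx halg hnor (fun _ hv _ hρ h1 => h.isRam hv hρ h1) g hρ).2

end Pool.Agent.Lib.MP_5c318e_ag
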