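import Mathlib

/-!
SPREAD (section 5), abstract form: tensor components of elements of the compositum `L K` are
spread into the field `Q` that contains all elements bounded at all points.
-/

namespace Pool.Agent.Lib.MP_5c318e_ag

variable {Om G : Type*} [Field Om] [LinearOrderedCommGroupWithZero G]

/-- `u` is a sum of `n` products of an element of `L` and an element of `K`. -/
def TRep (L K : Subfield Om) (n : ℕ) (u : Om) : Prop :=
  ∃ a b : Fin n → Om, (∀ i, a i ∈ L) ∧ (∀ i, b i ∈ K) ∧ u = ∑ i, a i * b i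

theorem TRep.add {L K : Subfield Om} {n n' : ℕ} {u u' : Om} (h : TRep L K n u)
    (h' : TRep L K n' u') : TRep L K (n + n') (u + u') := by
  obtain ⟨a, b, ha, hb, rfl⟩ := h
  obtain ⟨a', b', ha', hb', rfl⟩ := h'
  refine ⟨Fin.append a a', Fin.append b b', fun i => ?_, fun i => ?_, ?_⟩
  · refine Fin.addCases (fun i => ?_) (fun i => ?_) i
    · rw [Fin.append_left]; exact ha i
    · rw [Fin.append_right]; exact ha' i
  · refine Fin.addCases (fun i => ?_) (fun i => ?_) i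
    · rw [Fin.append_left]; exact hb i
    · rw [Fin.append_right]; exact hb' i
  · rw [Fin.sum_univ_add]
    simp

theorem exists_TRep (L K : Subfield Om) {u : Om} (hu : u ∈ Subring.closure ((L : Set Om) ∪ K)) :
    ∃ n, TRep L K n u := by
  have hone : ∀ a ∈ L, ∀ b ∈ K, TRep L K 1 (a * b) := fun a ha b hb =>
    ⟨fun _ => a, fun _ => b, fun _ => ha, fun _ => hb, by simp⟩
  have hzero : TRep L K 0 0 := ⟨Fin.elim0, Fin.elim0, fun i => i.elim0, fun i => i.elim0, by simp⟩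
  have hsum : ∀ {κ : Type} (t : Finset κ) (f : κ → Om), (∀ i ∈ t, ∃ n, TRep L K n (f i)) →
      ∃ n, TRep L K n (∑ i ∈ t, f i) := by
    intro κ t f hf
    refine Finset.sum_induction f (fun u => ∃ n, TRep L K n u) ?_ ⟨0, hzero⟩ hf
    rintro x y ⟨n, hn⟩ ⟨n', hn'⟩
    exact ⟨_, hn.add hn'⟩
  induction hu using Subring.closure_induction with
  | mem x hx =>
    rcases hx with hx | hx
    · exact ⟨1, by simpa using hone x hx 1 K.one_mem⟩
    · exact ⟨1, by simpa using hone 1 L.one_mem x hx⟩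
  | zero => exact ⟨0, hzero⟩
  | one => exact ⟨1, by simpa using hone 1 L.one_mem 1 K.one_mem⟩
  | add x y _ _ hx hy =>
    obtain ⟨n, hn⟩ := hx
    obtain ⟨n', hn'⟩ := hy
    exact ⟨_, hn.add hn'⟩
  | neg x _ hx =>
    obtain ⟨n, a, b, ha, hb, rfl⟩ := hx
    exact ⟨n, fun i => -a i, b, fun i => L.neg_mem (ha i), hb, by simp⟩
  | mul x y _ _ hx hy =>
    obtain ⟨n, a, b, ha, hb, rfl⟩ := hx
    obtain ⟨n', a', b', ha', hb', rfl⟩ := hy
    rw [Finset.sum_mul_sum]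
    refine hsum _ _ fun i _ => hsum _ _ fun j _ => ⟨1, ?_⟩
    rw [mul_mul_mul_comm]
    exact hone _ (L.mul_mem (ha i) (ha' j)) _ (K.mul_mem (hb i) (hb' j))

theorem TRep_shorten (C0 L K : Subfield Om) (hK : C0 ≤ K) {n : ℕ} (a b : Fin n → Om)
    (ha : ∀ i, a i ∈ L) (hb : ∀ i, b i ∈ K) (hdep : ¬ LinearIndependent C0 a) :
    ∃ n' < n, TRep L K n' (∑ i, a i * b i) := by
  rw [Fintype.not_linearIndependent_iff] at hdep
  obtain ⟨k, hk, i0, hi0⟩ := hdep
  rcases n with _ | n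
  · exact i0.elim0
  have hk0 : (k i0 : Om) ≠ 0 := fun h => hi0 (Subtype.ext h)
  refine ⟨n, Nat.lt_succ_self n, fun i => a (i0.succAbove i),
    fun i => b (i0.succAbove i) - (k (i0.succAbove i) : Om) / k i0 * b i0, fun i => ha _,
    fun i => K.sub_mem (hb _) (K.mul_mem (K.div_mem (hK (k _).2) (hK (k _).2)) (hb _)), ?_⟩
  rw [Fin.sum_univ_succAbove _ i0] at hk ⊢
  have hk' : (k i0 : Om) * a i0 + ∑ i, (k (i0.succAbove i) : Om) * a (i0.succAbove i) = 0 := hk
  have : ∑ i, a (i0.succAbove i) *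
      (b (i0.succAbove i) - (k (i0.succAbove i) : Om) / k i0 * b i0) =
      ∑ i, a (i0.succAbove i) * b (i0.succAbove i) -
        (∑ i, (k (i0.succAbove i) : Om) * a (i0.succAbove i)) * (b i0 / k i0) := by
    rw [Finset.sum_mul, ← Finset.sum_sub_distrib]
    exact Finset.sum_congr rfl fun i _ => by ring
  rw [this, eq_neg_of_add_eq_zero_right hk']
  field_simp
  ring

/-- A representation of minimal length has both families independent. -/
theorem exists_TRep_indep (C0 L K : Subfield Om) (hL : C0 ≤ L) (hK : C0 ≤ K) {u : Om}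
    (hu : u ∈ Subring.closure ((L : Set Om) ∪ K)) :
    ∃ (n : ℕ) (a b : Fin n → Om), (∀ i, a i ∈ L) ∧ (∀ i, b i ∈ K) ∧ LinearIndependent C0 a ∧
      LinearIndependent C0 b ∧ u = ∑ i, a i * b i := by
  classical
  have h := exists_TRep L K hu
  obtain ⟨a, b, ha, hb, he⟩ := Nat.find_spec h
  refine ⟨_, a, b, ha, hb, ?_, ?_, he⟩
  · by_contra hdep
    obtain ⟨n', hn', hr⟩ := TRep_shorten C0 L K hK a b ha hb hdep
    exact Nat.find_min h hn' (he ▸ hr)
  · by_contra hdep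
    obtain ⟨n', hn', a', b', ha', hb', hr⟩ := TRep_shorten C0 K L hL b a hb ha hdep
    refine Nat.find_min h hn' ⟨b', a', hb', ha', ?_⟩
    rw [he, Finset.sum_congr rfl fun i _ => mul_comm (a i) (b i), hr]
    exact Finset.sum_congr rfl fun i _ => mul_comm _ _

/-- The hypotheses of SPREAD. Points `p` carry a valuation `v p` and a size `s p`; every point is
rich, neutral of type (a) or neutral of type (b). -/
structure Spread (C0 L K Q : Subfield Om) (T : Subring Om) {P : Type*} (v : P → Valuation Om G)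
    (s : P → G) (rich ta tb : P → Prop) : Prop where
  CL : C0 ≤ L
  CK : C0 ≤ K
  hT : T = Subring.closure ((L : Set Om) ∪ K)
  ufd : UniqueFactorizationMonoid T
  one_le : ∀ p, 1 ≤ s p
  tri : ∀ p, rich p ∨ ta p ∨ tb p
  bdd : ∀ c, (∃ N : ℕ, ∀ p, v p c ≤ s p ^ N) → c ∈ Q
  richL : ∀ g ∈ L, ∃ N : ℕ, ∀ p, rich p → v p g ≤ s p ^ N
  richK : ∀ (n : ℕ) (a b : Fin n → Om), (∀ i, a i ∈ L) → (∀ i, b i ∈ K) →
    LinearIndependent C0 a → ∃ N : ℕ, ∀ p, rich p → ∀ l, v p (b l) ≤ s p ^ N * v p (∑ i, a i * b i)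
  aL : ∀ p, ta p → ∀ g ∈ L, v p g ≤ 1
  abK : ∀ p, ta p ∨ tb p → ∀ g ∈ K, v p g ≤ 1
  aP : ∀ p, ta p → ∃ π : T, ¬ IsUnit π ∧ ∀ u : T, v p u < 1 → π ∣ u
  bG : ∀ p, tb p → ∀ (n : ℕ) (a b : Fin n → Om), (∀ i, a i ∈ L) → (∀ i, b i ∈ K) →
    LinearIndependent C0 b → ∀ l, v p (a l) ≤ v p (∑ i, a i * b i)

namespace Spread

variable {C0 L K Q : Subfield Om} {T : Subring Om} {P : Type*} {v : P → Valuation Om G}
  {s : P → G} {rich ta tb : P → Prop}

theorem aT (H : Spread C0 L K Q T v s rich ta tb) (p : P) (hp : ta p) :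
    ∀ u ∈ T, v p u ≤ 1 := by
  intro u hu
  rw [H.hT] at hu
  have : Subring.closure ((L : Set Om) ∪ K) ≤ (v p).integer := by
    rw [Subring.closure_le]
    rintro x (hx | hx)
    · exact H.aL p hp x hx
    · exact H.abK p (Or.inl hp) x hx
  exact this hu

theorem piece (H : Spread C0 L K Q T v s rich ta tb) {g m d : Om} (hg : g ∈ L) (hm : m ∈ K)
    (hd : d ≠ 0) (hr : ∃ N : ℕ, ∀ p, rich p → v p m ≤ s p ^ N * v p d)
    (ha : ∀ p, ta p → v p d = 1) (hb : ∀ p, tb p → v p g ≤ v p d) : g * m / d ∈ Q := by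
  obtain ⟨N, hN⟩ := hr
  obtain ⟨N', hN'⟩ := H.richL g hg
  refine H.bdd _ ⟨N' + N, fun p => ?_⟩
  have hd0 : 0 < v p d := zero_lt_iff.2 ((Valuation.ne_zero_iff _).2 hd)
  have h1 : 1 ≤ s p ^ (N' + N) := one_le_pow₀ (H.one_le p)
  rw [map_div₀, map_mul, div_le_iff₀ hd0]
  rcases H.tri p with hp | hp | hp
  · rw [pow_add, mul_assoc]
    exact mul_le_mul' (hN' p hp) (hN p hp)
  · rw [ha p hp, mul_one]
    exact (mul_le_one' (H.aL p hp g hg) (H.abK p (Or.inl hp) m hm)).trans h1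
  · rw [mul_comm (v p g)]
    exact mul_le_mul' ((H.abK p (Or.inr hp) m hm).trans h1) (hb p hp)

theorem ratio {x y d : Om} (hx : x / d ∈ Q) (hy : y / d ∈ Q) (hd : d ≠ 0) : x / y ∈ Q := by
  have := Q.div_mem hx hy
  rwa [div_div_div_cancel_right₀ hd] at this

/-- The components of a denominator that is a unit at all points of type (a). -/
theorem denom (H : Spread C0 L K Q T v s rich ta tb) {d : Om} (hdT : d ∈ T) (hd : d ≠ 0)
    (ha : ∀ p, ta p → v p d = 1) :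
    ∃ (n : ℕ) (h m : Fin n → Om) (h0 m0 : Om), h0 ∈ L ∧ m0 ∈ K ∧ h0 ≠ 0 ∧ m0 ≠ 0 ∧
      (∀ i, h i / h0 ∈ L ⊓ Q) ∧ (∀ i, m i / m0 ∈ K ⊓ Q) ∧ d = ∑ i, h i * m i ∧
      h0 * m0 / d ∈ Q ∧ ∃ N : ℕ, ∀ p, rich p → v p m0 ≤ s p ^ N * v p d := by
  obtain ⟨n, h, m, hh, hm, hih, him, he⟩ := exists_TRep_indep C0 L K H.CL H.CK (H.hT ▸ hdT)
  rcases n with _ | n
  · exact absurd (by simpa using he) hd
  obtain ⟨N, hN⟩ := H.richK _ h m hh hm hih
  have hp : ∀ j l, h j * m l / d ∈ Q := fun j l =>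
    H.piece (hh j) (hm l) hd ⟨N, fun p hp => he ▸ hN p hp l⟩ ha
      fun p hp => he ▸ H.bG p hp _ h m hh hm him j
  have h0 : h 0 ≠ 0 := hih.ne_zero 0
  have m0 : m 0 ≠ 0 := him.ne_zero 0
  refine ⟨_, h, m, h 0, m 0, hh 0, hm 0, h0, m0, fun i => ⟨L.div_mem (hh i) (hh 0), ?_⟩,
    fun i => ⟨K.div_mem (hm i) (hm 0), ?_⟩, he, hp 0 0, N, fun p hp => he ▸ hN p hp 0⟩
  · have := ratio (hp i 0) (hp 0 0) hd
    rwa [mul_div_mul_right _ _ m0] at this
  · have := ratio (hp 0 i) (hp 0 0) hd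
    rwa [mul_div_mul_left _ _ h0] at this

/-- Last statement of section 5: an element of `T` that is a unit at all points of type (a). -/
theorem unit (H : Spread C0 L K Q T v s rich ta tb) {d : Om} (hdT : d ∈ T) (hd : d ≠ 0)
    (ha : ∀ p, ta p → v p d = 1) :
    ∃ h0 ∈ L, ∃ m0 ∈ K, h0 ≠ 0 ∧ m0 ≠ 0 ∧
      d / (h0 * m0) ∈ Subring.closure (((L ⊓ Q : Subfield Om) : Set Om) ∪ (K ⊓ Q : Subfield Om)) := by
  obtain ⟨n, h, m, h0, m0, h1, h2, h3, h4, h5, h6, he, -⟩ := H.denom hdT hd ha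
  refine ⟨h0, h1, m0, h2, h3, h4, ?_⟩
  rw [he, Finset.sum_div]
  refine sum_mem fun i _ => ?_
  rw [mul_div_mul_comm]
  exact mul_mem (Subring.subset_closure (Or.inl (h5 i))) (Subring.subset_closure (Or.inr (h6 i)))

theorem unit' (H : Spread C0 L K Q T v s rich ta tb) {d : Om} (hdT : d ∈ T) (hd : d ≠ 0)
    (ha : ∀ p, ta p → v p d = 1) :
    ∃ m0 ∈ K, m0 ≠ 0 ∧ d / m0 ∈ Subfield.closure ((L : Set Om) ∪ (K ⊓ Q : Subfield Om)) := by
  obtain ⟨h0, h1, m0, h2, h3, h4, h5⟩ := H.unit hdT hd ha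
  refine ⟨m0, h2, h4, ?_⟩
  have he : d / m0 = h0 * (d / (h0 * m0)) := by field_simp
  rw [he]
  refine mul_mem (Subfield.subset_closure (Or.inl h1)) ?_
  refine (Subring.closure_le (t := (Subfield.closure
    ((L : Set Om) ∪ (K ⊓ Q : Subfield Om))).toSubring)).2 ?_ h5
  rintro x (hx | hx)
  · exact Subfield.subset_closure (Or.inl hx.1)
  · exact Subfield.subset_closure (Or.inr hx)

theorem frac (H : Spread C0 L K Q T v s rich ta tb) {c : Om}
    (hc : c ∈ Subfield.closure ((L : Set Om) ∪ K)) (hn : ∀ p, ta p → v p c ≤ 1) :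
    ∃ u ∈ T, ∃ d ∈ T, d ≠ 0 ∧ c = u / d ∧ ∀ p, ta p → v p d = 1 := by
  have := H.ufd
  obtain ⟨y, hy, z, hz, rfl⟩ := Subfield.mem_closure_iff.1 hc
  rw [← H.hT] at hy hz
  by_cases hz0 : z = 0
  · exact ⟨0, T.zero_mem, 1, T.one_mem, one_ne_zero, by simp [hz0], fun p _ => map_one _⟩
  obtain ⟨d, u, e, hrel, h1, h2⟩ := UniqueFactorizationMonoid.exists_reduced_factors
    (⟨z, hz⟩ : T) (fun h => hz0 (congrArg Subtype.val h)) ⟨y, hy⟩
  have h1' : (e : Om) * d = z := congrArg Subtype.val h1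
  have h2' : (e : Om) * u = y := congrArg Subtype.val h2
  have he0 : (e : Om) ≠ 0 := fun h => hz0 (by rw [← h1', h, zero_mul])
  have hd0 : (d : Om) ≠ 0 := fun h => hz0 (by rw [← h1', h, mul_zero])
  have hc' : y / z = u / d := by rw [← h1', ← h2', mul_div_mul_left _ _ he0]
  refine ⟨u, u.2, d, d.2, hd0, hc', fun p hp => ?_⟩
  refine le_antisymm (H.aT p hp _ d.2) (not_lt.1 fun hlt => ?_)
  obtain ⟨π, hπ, hdiv⟩ := H.aP p hp
  have h3 := hn p hp
  rw [hc', map_div₀, div_le_one₀ (zero_lt_iff.2 ((Valuation.ne_zero_iff _).2 hd0))] at h3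
  exact hπ (hrel (hdiv d hlt) (hdiv u (h3.trans_lt hlt)))

/-- SPREAD, both statements: `c` integral at the neutral points lies in `L0 K`; if `c` is also
bounded at the rich points it lies in `L0 K0`. -/
theorem spread (H : Spread C0 L K Q T v s rich ta tb) {c : Om}
    (hc : c ∈ Subfield.closure ((L : Set Om) ∪ K)) (hn : ∀ p, ta p ∨ tb p → v p c ≤ 1) :
    c ∈ Subfield.closure (((L ⊓ Q : Subfield Om) : Set Om) ∪ K) ∧
      ((∃ N : ℕ, ∀ p, rich p → v p c ≤ s p ^ N) →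
        c ∈ Subfield.closure (((L ⊓ Q : Subfield Om) : Set Om) ∪ (K ⊓ Q : Subfield Om))) := by
  obtain ⟨u, hu, d, hdT, hd, rfl, ha⟩ := H.frac hc fun p hp => hn p (Or.inl hp)
  obtain ⟨n', h, m, h0, m0, h1, h2, h3, h4, h5, h6, he', h7, hr⟩ := H.denom hdT hd ha
  obtain ⟨n, a, b, haL, hbK, hia, hib, he⟩ := exists_TRep_indep C0 L K H.CL H.CK (H.hT ▸ hu)
  have hab : ∀ i p, tb p → v p (a i) ≤ v p d := by
    intro i p hp
    have h8 := hn p (Or.inr hp)
    rw [map_div₀, div_le_one₀ (zero_lt_iff.2 ((Valuation.ne_zero_iff _).2 hd))] at h8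
    exact (he ▸ H.bG p hp _ a b haL hbK hib i).trans h8
  have hpa : ∀ i, a i * m0 / d ∈ Q := fun i => H.piece (haL i) h2 hd hr ha (hab i)
  have hLQ : ∀ i, a i / h0 ∈ L ⊓ Q := fun i => ⟨L.div_mem (haL i) h1, by
    have := ratio (hpa i) h7 hd
    rwa [mul_div_mul_right _ _ h4] at this⟩
  have hform : u / d = (∑ i, a i / h0 * (b i / m0)) / ∑ i, h i / h0 * (m i / m0) := by
    have e1 : ∑ i, a i / h0 * (b i / m0) = u / (h0 * m0) := by
      rw [he, Finset.sum_div]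
      exact Finset.sum_congr rfl fun i _ => (mul_div_mul_comm _ _ _ _).symm
    have e2 : ∑ i, h i / h0 * (m i / m0) = d / (h0 * m0) := by
      rw [he', Finset.sum_div]
      exact Finset.sum_congr rfl fun i _ => (mul_div_mul_comm _ _ _ _).symm
    rw [e1, e2, div_div_div_cancel_right₀ (mul_ne_zero h3 h4)]
  refine ⟨?_, ?_⟩
  · rw [hform]
    refine div_mem (sum_mem fun i _ => mul_mem ?_ ?_) (sum_mem fun i _ => mul_mem ?_ ?_)
    · exact Subfield.subset_closure (Or.inl (hLQ i))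
    · exact Subfield.subset_closure (Or.inr (K.div_mem (hbK i) h2))
    · exact Subfield.subset_closure (Or.inl (h5 i))
    · exact Subfield.subset_closure (Or.inr (h6 i).1)
  · rintro ⟨N, hN⟩
    obtain ⟨N', hN'⟩ := H.richK _ a b haL hbK hia
    have hKQ : ∀ i, b i / m0 ∈ K ⊓ Q := by
      intro i
      refine ⟨K.div_mem (hbK i) h2, ?_⟩
      have hpb : a i * b i / d ∈ Q := by
        refine H.piece (haL i) (hbK i) hd ⟨N' + N, fun p hp => ?_⟩ ha (hab i)
        have h8 := hN p hp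
        rw [map_div₀, div_le_iff₀ (zero_lt_iff.2 ((Valuation.ne_zero_iff _).2 hd))] at h8
        rw [pow_add, mul_assoc]
        exact (he ▸ hN' p hp i).trans (mul_le_mul_right h8 _)
      have := ratio hpb (hpa i) hd
      rwa [mul_div_mul_left _ _ (hia.ne_zero i)] at this
    rw [hform]
    refine div_mem (sum_mem fun i _ => mul_mem ?_ ?_) (sum_mem fun i _ => mul_mem ?_ ?_)
    · exact Subfield.subset_closure (Or.inl (hLQ i))
    · exact Subfield.subset_closure (Or.inr (hKQ i))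
    · exact Subfield.subset_closure (Or.inl (h5 i))
    · exact Subfield.subset_closure (Or.inr (h6 i))

end Spread

end Pool.Agent.Lib.MP_5c318e_ag
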