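import Pool.Agent.Lib.MP_5c318e_ag.Ht1C
import Pool.Agent.Lib.MP_5c318e_ag.Spread
import Pool.Agent.Lib.MP_5c318e_ag.Sym
import Pool.Agent.Lib.MP_5c318e_ag.RamB

/-! Section 5 on the context, from the facts of sections 3 and 4 collected in `S5H`. -/

namespace Pool.Agent.Lib.MP_5c318e_ag

open scoped Classical NNReal

variable {Om : Type} [Field Om] [Algebra ℂ Om]

omit [Algebra ℂ Om] in
theorem S5_aut_acl (g : Om →+* Om) {F F' : Subfield Om} (h : ∀ y ∈ F, g y ∈ F') {y : Om}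
    (hy : y ∈ acl F) : g y ∈ acl F' :=
  mem_acl.2 ((mem_acl.1 hy).ringHom_of_comp_eq ((g.comp F.subtype).codRestrict F' fun y => h y y.2)
    g (RingHom.injective _) rfl)

namespace Ctx

variable (X : Ctx Om)

/-- The facts of sections 3 and 4 that section 5 uses. -/
structure S5H : Prop where
  good : ∀ P : X.Pt, X.Good P.v
  S0 : ∀ P : X.Pt, 0 ≤ X.S P
  dich : ∃ c : ℝ, 0 < c ∧ ∀ P : X.Pt, c * X.A P.v ≤ X.S P ∨ X.Neutral P.v
  OOQ : ∀ c, X.OO c → c ∈ X.Q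
  ordS : ∀ P : X.Pt, ¬ Triv P.v X.E → ∀ a ∈ X.R, ∀ b ∈ X.R, a ≠ b →
    X.ord P.v a b ≤ X.Nw * X.S P
  naut : ∀ v, X.Neutral v → ∀ g : Om ≃ₐ[X.Ex] Om, X.Neutral (vaut v g)

theorem S5_REb {ρ : Om} (h : ρ ∈ X.R) : ρ ∈ X.Eb := X.ram.mem ρ h

theorem S5_N_le : X.N ≤ X.Mb := le_sup_left.trans X.NM.le

theorem S5_Ex_inf {y : Om} (h : y ∈ X.Ex) (h' : y ∈ X.Eb) : y ∈ X.E :=
  mem_of_isAlgebraic_adjoin X.S5_trans h (mem_acl.1 h')

theorem S5_cr_eq {a b c i : Om} (ha : a ∈ X.R) (hb : b ∈ X.R) (hc : c ∈ X.R) (hi : i ∈ X.R)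
    (hba : b ≠ a) (hic : i ≠ c) :
    X.be b c * X.be i a / (X.be b a * X.be i c) = (b - c) / (b - a) * ((i - a) / (i - c)) := by
  have h1 := X.x_sub_ne (X.S5_REb ha)
  have h2 := X.x_sub_ne (X.S5_REb hb)
  have h3 := X.x_sub_ne (X.S5_REb hc)
  have h4 := X.x_sub_ne (X.S5_REb hi)
  have h5 := sub_ne_zero.2 hba
  have h6 := sub_ne_zero.2 hic
  rw [X.be_eq (X.S5_REb hb) (X.S5_REb hc), X.be_eq (X.S5_REb hi) (X.S5_REb ha),
    X.be_eq (X.S5_REb hb) (X.S5_REb ha), X.be_eq (X.S5_REb hi) (X.S5_REb hc)]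
  field_simp

theorem z_sub_la {ρ : Om} (h : ρ ∈ X.R) (hc : ρ ≠ X.rc) :
    X.z - X.la ρ = X.be X.rb X.rc * X.be X.ra X.rc / (X.be X.rb X.ra * X.be ρ X.rc) := by
  have h1 := X.x_sub_ne (X.S5_REb X.ra.2)
  have h2 := X.x_sub_ne (X.S5_REb X.rb.2)
  have h3 := X.x_sub_ne (X.S5_REb X.rc.2)
  have h4 := X.x_sub_ne (X.S5_REb h)
  have h5 : (X.rb : Om) - X.ra ≠ 0 := sub_ne_zero.2 fun e => X.ab (Subtype.ext e).symm
  have h6 := sub_ne_zero.2 hc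
  rw [z, Ctx0.zz, la, X.be_eq (X.S5_REb X.rb.2) (X.S5_REb X.rc.2),
    X.be_eq (X.S5_REb X.rb.2) (X.S5_REb X.ra.2), X.be_eq (X.S5_REb X.ra.2) (X.S5_REb X.rc.2),
    X.be_eq (X.S5_REb h) (X.S5_REb X.rc.2)]
  field_simp
  ring

theorem S5_aut_be (g : Om ≃ₐ[X.Ex] Om) (ρ ρ' : Om) : g (X.be ρ ρ') = X.be (g ρ) (g ρ') := by
  have hx : g X.x = X.x := aut_fix X.Ex g (mem_adj _ rfl)
  simp only [Ctx0.be, map_sub, map_inv₀, hx]

/-- Elements of `Eb` integral at all neutral valuations. -/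
def S5neu : Subring Om where
  carrier := {c | c ∈ X.Eb ∧ ∀ v, X.Neutral v → v c ≤ 1}
  mul_mem' := fun ha hb => ⟨mul_mem ha.1 hb.1, fun v hv => by
    rw [map_mul]
    exact mul_le_one' (ha.2 v hv) (hb.2 v hv)⟩
  one_mem' := ⟨one_mem _, fun v _ => (map_one v).le⟩
  add_mem' := fun ha hb => ⟨add_mem ha.1 hb.1, fun v hv => v.map_add_le (ha.2 v hv) (hb.2 v hv)⟩
  zero_mem' := ⟨zero_mem _, fun v _ => by simp⟩
  neg_mem' := fun ha => ⟨neg_mem ha.1, fun v hv => by simpa using ha.2 v hv⟩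

namespace S5H

variable {X}

theorem OO_iff (H : X.S5H) {c : Om} :
    X.OO c ↔ ∃ N : ℕ, ∀ P : X.Pt, P.v c ≤ ex (X.S P) ^ N := by
  constructor
  · rintro ⟨C, -, h⟩
    refine ⟨⌈C⌉₊, fun P => ?_⟩
    rw [ex_pow, le_ex_iff]
    exact (h P).mono (neg_le_neg (mul_le_mul_of_nonneg_right (Nat.le_ceil C) (H.S0 P)))
  · rintro ⟨N, h⟩
    exact ⟨N, Nat.cast_nonneg N, fun P => le_ex_iff.1 (ex_pow _ N ▸ h P)⟩

/-- Elements bounded at all points. -/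
def bdd (H : X.S5H) : Subring Om where
  carrier := {c | ∃ N : ℕ, ∀ P : X.Pt, P.v c ≤ ex (X.S P) ^ N}
  mul_mem' := by
    rintro a b ⟨N, ha⟩ ⟨N', hb⟩
    exact ⟨N + N', fun P => by rw [map_mul, pow_add]; exact mul_le_mul' (ha P) (hb P)⟩
  one_mem' := ⟨0, fun P => by simp⟩
  add_mem' := by
    rintro a b ⟨N, ha⟩ ⟨N', hb⟩
    exact ⟨N + N', fun P => P.v.map_add_le
      ((ha P).trans (pow_le_pow_right₀ (one_le_ex (H.S0 P)) (Nat.le_add_right _ _)))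
      ((hb P).trans (pow_le_pow_right₀ (one_le_ex (H.S0 P)) (Nat.le_add_left _ _)))⟩
  zero_mem' := ⟨0, fun P => by simp⟩
  neg_mem' := by
    rintro a ⟨N, ha⟩
    exact ⟨N, fun P => by simpa using ha P⟩

theorem spread (H : X.S5H) : ∃ rich : X.Pt → Prop,
    Spread (C0 Om) X.L X.Kp X.Q X.T (fun P : X.Pt => P.v) (fun P => ex (X.S P)) rich
      (fun P => X.Neutral P.v ∧ X.TypeA P.v) fun P => X.Neutral P.v ∧ X.TypeB P.v := by
  obtain ⟨c, hc, hd⟩ := H.dich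
  have hex : ∀ P : X.Pt, c * X.A P.v ≤ X.S P → ex (X.A P.v) ≤ ex (X.S P) ^ ⌈c⁻¹⌉₊ := by
    intro P h
    rw [ex_pow, ← NNReal.coe_le_coe]
    refine Real.exp_le_exp.2 (le_trans ?_
      (mul_le_mul_of_nonneg_right (Nat.le_ceil c⁻¹) (H.S0 P)))
    rw [← div_eq_inv_mul, le_div_iff₀' hc]
    exact h
  refine ⟨fun P => c * X.A P.v ≤ X.S P, X.frA.le, X.c0Kp, rfl, X.ufd,
    fun P => one_le_ex (H.S0 P), fun P => ?_, fun y hy => H.OOQ y (H.OO_iff.2 hy), ?_, ?_,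
    fun P hP g hg => hP.2.1.le hg, fun P hP g hg => ?_, fun P hP => ?_,
    fun P hP => hP.2⟩
  · rcases hd P with h | h
    · exact Or.inl h
    · exact Or.inr (h.type.imp (fun h1 => ⟨h, h1⟩) fun h1 => ⟨h, h1⟩)
  · intro g hg
    obtain ⟨N, hN⟩ := X.S5_lct (le_acl _ hg)
    refine ⟨⌈c⁻¹⌉₊ * N, fun P hP => (hN _ (H.good P)).trans ?_⟩
    rw [pow_mul]
    exact pow_le_pow_left' (hex P hP) N
  · intro n a b ha hb hi
    obtain ⟨N, hN⟩ := X.S5_comp a (fun i => le_acl _ (ha i)) hi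
    refine ⟨⌈c⁻¹⌉₊ * N, fun P hP l =>
      (hN _ (H.good P) b (fun i => X.Kp_le (hb i)) l).trans (mul_le_mul_left ?_ _)⟩
    rw [pow_mul]
    exact pow_le_pow_left' (hex P hP) N
  · exact (hP.elim (fun h => h.1) fun h => h.1).triv.le (X.Kp_le hg)
  · obtain ⟨π, hπ, h⟩ := hP.2.2.1
    exact ⟨π, hπ.not_isUnit, fun u hu => (h u).1 hu⟩

theorem spread1' (H : X.S5H) {c : Om} (hc : c ∈ X.E) (h : ∀ v, X.Neutral v → v c ≤ 1) :
    c ∈ (X.L ⊓ X.Q) ⊔ X.Kp := by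
  obtain ⟨rich, HS⟩ := H.spread
  rw [sup_eq_adj]
  exact (HS.spread ((sup_eq_adj X.L X.Kp).le hc)
    fun P hP => h _ (hP.elim (fun h => h.1) fun h => h.1)).1

theorem spread1 (H : X.S5H) {c : Om} (hc : c ∈ X.E) (h : ∀ v, X.Neutral v → v c ≤ 1) :
    c ∈ X.Q ⊔ X.Kb :=
  sup_le_sup inf_le_right X.Kp_le (H.spread1' hc h)

theorem spread2 (H : X.S5H) {c : Om} (hc : c ∈ X.E) (h : ∀ v, X.Neutral v → v c ≤ 1)
    (ho : X.OO c) : c ∈ X.L ⊔ X.K0 := by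
  obtain ⟨rich, HS⟩ := H.spread
  obtain ⟨N, hN⟩ := H.OO_iff.1 ho
  have := (HS.spread ((sup_eq_adj X.L X.Kp).le hc)
    fun P hP => h _ (hP.elim (fun h => h.1) fun h => h.1)).2 ⟨N, fun P _ => hN P⟩
  rw [← adj, ← sup_eq_adj] at this
  exact sup_le_sup inf_le_left (inf_le_inf_right _ X.Kp_le) this

theorem spread3 (H : X.S5H) {d : Om} (hd : d ∈ X.T) (hd0 : d ≠ 0)
    (h : ∀ v, X.Neutral v → X.TypeA v → v d = 1) :
    ∃ k ∈ X.Kp, k ≠ 0 ∧ d / k ∈ X.L ⊔ X.K0 := by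
  obtain ⟨rich, HS⟩ := H.spread
  obtain ⟨k, hk, hk0, h1⟩ := HS.unit' hd hd0 fun P hP => h _ hP.1 hP.2
  rw [← adj, ← sup_eq_adj] at h1
  exact ⟨k, hk, hk0, sup_le_sup_left (inf_le_inf_right _ X.Kp_le) _ h1⟩

variable [IsAlgClosed Om]

theorem spread1_alg' (H : X.S5H) {c : Om} (hc : c ∈ X.Eb) (h : ∀ v, X.Neutral v → v c ≤ 1) :
    c ∈ acl ((X.L ⊓ X.Q) ⊔ X.Kp) := by
  have := charZero_of_algebra (Om := Om)
  refine mem_acl.2 (sym_alg X.Ex (isAlgebraic_of_acl X.S5_algEx) X.S5neu _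
    (fun y hy hS => mem_acl.1 (le_acl _ (H.spread1' (X.S5_Ex_inf hy hS.1) hS.2))) c fun σ =>
      ⟨S5_aut_acl (σ : Om →+* Om) (fun y hy => ?_) hc, fun v hv => h _ (H.naut v hv σ)⟩)
  change σ y ∈ X.E
  rwa [aut_fix X.Ex σ (le_adj _ _ hy)]

theorem spread1_alg (H : X.S5H) {c : Om} (hc : c ∈ X.Eb) (h : ∀ v, X.Neutral v → v c ≤ 1) :
    c ∈ acl (X.Q ⊔ X.Kb) :=
  acl_mono (sup_le_sup inf_le_right X.Kp_le) (H.spread1_alg' hc h)

omit [IsAlgClosed Om] in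
theorem cross_mem (H : X.S5H) {a b c i : Om} (ha : a ∈ X.R) (hb : b ∈ X.R) (hc : c ∈ X.R)
    (hi : i ∈ X.R) (hbc : b ≠ c) (hia : i ≠ a) (hba : b ≠ a) (hic : i ≠ c) :
    X.be b c * X.be i a / (X.be b a * X.be i c) ∈ X.S5neu ⊓ H.bdd := by
  have hE : X.be b c * X.be i a / (X.be b a * X.be i c) ∈ X.Eb := by
    rw [X.S5_cr_eq ha hb hc hi hba hic]
    exact mul_mem (div_mem (sub_mem (X.S5_REb hb) (X.S5_REb hc))
      (sub_mem (X.S5_REb hb) (X.S5_REb ha))) (div_mem (sub_mem (X.S5_REb hi) (X.S5_REb ha))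
      (sub_mem (X.S5_REb hi) (X.S5_REb hc)))
  have n1 := X.be_ne (X.S5_REb hb) (X.S5_REb hc) hbc
  have n2 := X.be_ne (X.S5_REb hi) (X.S5_REb ha) hia
  have n3 := X.be_ne (X.S5_REb hb) (X.S5_REb ha) hba
  have n4 := X.be_ne (X.S5_REb hi) (X.S5_REb hc) hic
  refine ⟨⟨hE, fun v hv => ?_⟩, H.OO_iff.1 ⟨2 * X.Nw, by positivity, fun P => ?_⟩⟩
  · rw [map_div₀, map_mul, map_mul, hv.beq b hb c hc b hb a ha hbc hba,
      hv.beq i hi a ha i hi c hc hia hic]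
    exact div_self_le_one _
  · have hS := H.S0 P
    by_cases hT : Triv P.v X.E
    · exact (ge_zero_iff.2 (hT.toAcl.le hE)).mono (neg_nonpos.2 (by positivity))
    · intro _
      have o1 := X.ord_nonneg (H.good P) (X.S5_REb hb) (X.S5_REb hc) hbc
      have o2 := X.ord_nonneg (H.good P) (X.S5_REb hi) (X.S5_REb ha) hia
      have o3 := H.ordS P hT b hb a ha hba
      have o4 := H.ordS P hT i hi c hc hic
      rw [w_div (mul_ne_zero n1 n2) (mul_ne_zero n3 n4), w_mul n1 n2, w_mul n3 n4]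
      unfold Ctx0.ord at o1 o2 o3 o4
      linarith

theorem cross (H : X.S5H) {a b c i : Om} (ha : a ∈ X.R) (hb : b ∈ X.R) (hc : c ∈ X.R)
    (hi : i ∈ X.R) (hbc : b ≠ c) (hia : i ≠ a) (hba : b ≠ a) (hic : i ≠ c) :
    X.be b c * X.be i a / (X.be b a * X.be i c) ∈ X.Q ∧
      X.be b c * X.be i a / (X.be b a * X.be i c) ∈ acl (X.L ⊔ X.K0) := by
  have := charZero_of_algebra (Om := Om)
  refine ⟨H.OOQ _ (H.OO_iff.2 (H.cross_mem ha hb hc hi hbc hia hba hic).2), ?_⟩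
  refine mem_acl.2 (sym_alg X.Ex (isAlgebraic_of_acl X.S5_algEx) (X.S5neu ⊓ H.bdd) _
    (fun y hy hS => mem_acl.1 (le_acl _
      (H.spread2 (X.S5_Ex_inf hy hS.1.1) hS.1.2 (H.OO_iff.2 hS.2)))) _ fun σ => ?_)
  rw [map_div₀, map_mul, map_mul, X.S5_aut_be, X.S5_aut_be, X.S5_aut_be, X.S5_aut_be]
  exact H.cross_mem (X.ram.stab σ a ha) (X.ram.stab σ b hb) (X.ram.stab σ c hc)
    (X.ram.stab σ i hi) (σ.injective.ne hbc) (σ.injective.ne hia) (σ.injective.ne hba)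
    (σ.injective.ne hic)

theorem la_mem (H : X.S5H) {ρ : Om} (h : ρ ∈ X.R) (hc : ρ ≠ X.rc) :
    X.la ρ ∈ X.Q ∧ X.la ρ ∈ acl (X.L ⊔ X.K0) ∧ X.la ρ ∈ X.E1 := by
  have hE : X.la ρ ∈ X.E1 :=
    mul_mem (div_mem (sub_mem (mem_adj _ X.rb.2) (mem_adj _ X.rc.2))
      (sub_mem (mem_adj _ X.rb.2) (mem_adj _ X.ra.2)))
      (div_mem (sub_mem (mem_adj _ h) (mem_adj _ X.ra.2)) (sub_mem (mem_adj _ h) (mem_adj _ X.rc.2)))
  by_cases ha : ρ = X.ra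
  · have : X.la ρ = 0 := by rw [la, ha, sub_self, zero_div, mul_zero]
    exact ⟨this ▸ zero_mem _, this ▸ zero_mem _, hE⟩
  · have hba : (X.rb : Om) ≠ X.ra := fun e => X.ab (Subtype.ext e).symm
    have h1 := H.cross X.ra.2 X.rb.2 X.rc.2 h (fun e => X.bc (Subtype.ext e)) ha hba hc
    rw [X.S5_cr_eq X.ra.2 X.rb.2 X.rc.2 h hba hc] at h1
    exact ⟨h1.1, h1.2, hE⟩

theorem la_kp (H : X.S5H) {ρ : Om} (h : ρ ∈ X.R) (hc : ρ ≠ X.rc) : X.la ρ ∈ X.kp :=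
  acl_mono (le_adj _ _) (H.la_mem h hc).2.1

theorem be_div_mem_kp (H : X.S5H) {a b a' b' : Om} (ha : a ∈ X.R) (hb : b ∈ X.R) (ha' : a' ∈ X.R)
    (hb' : b' ∈ X.R) : X.be a b / X.be a' b' ∈ X.kp := by
  have n0 : X.be X.ra X.rc ≠ 0 :=
    X.be_ne (X.S5_REb X.ra.2) (X.S5_REb X.rc.2) fun e => X.ac (Subtype.ext e)
  have hz : X.z ∈ X.kp := le_acl _ (mem_adj _ rfl)
  have h1 : ∀ ρ ∈ X.R, X.be ρ X.rc / X.be X.ra X.rc ∈ X.kp := by
    intro ρ hρ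
    by_cases hc : ρ = X.rc
    · rw [hc, Ctx0.be, sub_self, zero_div]
      exact zero_mem _
    · have n1 : X.be X.rb X.rc ≠ 0 :=
        X.be_ne (X.S5_REb X.rb.2) (X.S5_REb X.rc.2) fun e => X.bc (Subtype.ext e)
      have n2 : X.be X.rb X.ra ≠ 0 :=
        X.be_ne (X.S5_REb X.rb.2) (X.S5_REb X.ra.2) fun e => X.ab (Subtype.ext e).symm
      have n3 := X.be_ne (X.S5_REb hρ) (X.S5_REb X.rc.2) hc
      have : X.be ρ X.rc / X.be X.ra X.rc = X.z / (X.z - X.la ρ) := by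
        rw [X.z_sub_la hρ hc, z, Ctx0.zz]
        field_simp
      rw [this]
      exact div_mem hz (sub_mem hz (H.la_kp hρ hc))
  have h2 : ∀ p ∈ X.R, ∀ q ∈ X.R, X.be p q / X.be X.ra X.rc ∈ X.kp := by
    intro p hp q hq
    have : X.be p q = X.be p X.rc - X.be q X.rc := by
      simp only [Ctx0.be]
      ring
    rw [this, sub_div]
    exact sub_mem (h1 p hp) (h1 q hq)
  have := div_mem (h2 a ha b hb) (h2 a' ha' b' hb')
  rwa [div_div_div_cancel_right₀ n0] at this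

theorem aut_kp (H : X.S5H) (g : Om ≃ₐ[X.Mb] Om) : ∀ y ∈ X.kp, g y ∈ X.kp := by
  intro y hy
  have hEx : X.Ex ≤ X.Mb := X.ExN.trans X.S5_N_le
  have h1 : adj (X.L ⊔ X.K0) {X.z} ≤ X.kp.comap (g : Om →+* Om) := by
    refine adj_le (fun u hu => ?_) ?_
    · have huM : u ∈ X.Mb := sup_le (le_sup_left.trans ((le_adj _ _).trans hEx))
        (inf_le_left.trans X.Kb_le_Mb) hu
      change g u ∈ X.kp
      rw [aut_fix X.Mb g huM]
      exact le_acl _ (le_adj _ _ hu)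
    · rintro _ rfl
      change ramRes hEx g X.z ∈ X.kp
      rw [z, Ctx0.zz, map_div₀, X.S5_aut_be, X.S5_aut_be]
      exact H.be_div_mem_kp (X.ram.stab _ _ X.rb.2) (X.ram.stab _ _ X.rc.2)
        (X.ram.stab _ _ X.rb.2) (X.ram.stab _ _ X.ra.2)
  have := S5_aut_acl (g : Om →+* Om) (F' := X.kp) (fun u hu => h1 hu) hy
  rwa [kp, acl_acl] at this

omit [IsAlgClosed Om] in
/-- The alternative for a prime element of `T` used in section 7. -/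
theorem hunit (H : X.S5H) (π : X.T) (hπ : Prime π) :
    (∃ v, X.Neutral v ∧ X.TypeA v ∧ v π < 1) ∨ ∃ m0 ∈ X.Kp, m0 ≠ 0 ∧ (π : Om) / m0 ∈ X.kp := by
  by_cases h : ∀ v, X.Neutral v → X.TypeA v → v π = 1
  · obtain ⟨k, hk, hk0, h1⟩ := H.spread3 π.2 (fun e => hπ.ne_zero (Subtype.ext e)) h
    exact Or.inr ⟨k, hk, hk0, le_acl _ (le_adj _ _ h1)⟩
  · push Not at h
    obtain ⟨v, hv, hA, h1⟩ := h
    refine Or.inl ⟨v, hv, hA, lt_of_le_of_ne (ring_le_one v ?_ π.2) h1⟩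
    rintro x (hx | hx)
    · exact hA.1.le hx
    · exact hv.triv.le (X.Kp_le hx)

end S5H

end Ctx

end Pool.Agent.Lib.MP_5c318e_ag
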