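import Pool.Agent.Lib.MP_5c318e_ag.HH
import Pool.Agent.Lib.MP_5c318e_ag.P1
import Pool.Agent.Lib.MP_5c318e_ag.Base
import Pool.Agent.Lib.MP_5c318e_ag.Phi
import Pool.Agent.Lib.MP_5c318e_ag.Sec5B

/-! The normalised fibre form is a polynomial in `z`. -/

namespace Pool.Agent.Lib.MP_5c318e_ag

open scoped Classical NNReal
open Polynomial

variable {Om : Type} [Field Om] [Algebra ℂ Om]

namespace Ctx

variable (X : Ctx Om)

theorem Hp_be {v : RV Om} (hv : Triv v X.E) {i j : X.R} (h : i ≠ j) :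
    w v (X.be i j) = - w v (X.x - i) - w v (X.x - j) := by
  rw [X.S3_w_be (X.Phi_R_mem i) (X.Phi_R_mem j) fun e => h (Subtype.ext e),
    hv.toAcl.w_eq (sub_mem (X.Phi_R_mem i) (X.Phi_R_mem j)), zero_sub]

theorem Hp_be_ne {i j : X.R} (h : i ≠ j) : X.be i j ≠ 0 :=
  X.S3_be_ne (X.Phi_R_mem i) (X.Phi_R_mem j) fun e => h (Subtype.ext e)

theorem Hp_sig {v : RV Om} (hv : Triv v X.E) :
    w v (X.sig X.Ga) = - ∑ i : X.R, (gdeg X.Ga i : ℝ) * w v (X.x - i) := by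
  have hG := X.adm_Ga
  have h1 : ∀ i j : X.R, w v (X.be i j ^ X.Ga i j) =
      - (X.Ga i j * w v (X.x - i)) - X.Ga i j * w v (X.x - j) := fun i j => by
    by_cases h : i = j
    · subst h; rw [X.diag]; simp
    · rw [w_pow, X.Hp_be hv h]; ring
  rw [sig, w_mul (pow_ne_zero _ X.g0ne) (X.Phi_prod_ne hG), w_pow, hv.w_eq X.g0E, mul_zero,
    zero_add,
    w_prod _ _ fun i _ => Finset.prod_ne_zero_iff.2 fun j _ => X.Phi_be_pow_ne hG i j,
    Finset.sum_congr rfl fun i _ => w_prod _ _ fun j _ => X.Phi_be_pow_ne hG i j]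
  simp only [h1, gdeg, Nat.cast_sum, Nat.cast_add, Finset.sum_mul, add_mul, Finset.sum_add_distrib,
    Finset.sum_sub_distrib, Finset.sum_neg_distrib]
  rw [Finset.sum_comm (f := fun i j : X.R => (X.Ga j i : ℝ) * w v (X.x - i))]
  ring

theorem Hp_la_ne {i : X.R} (h : i ≠ X.rc) : X.z - X.la i ≠ 0 := by
  rw [X.z_sub_la i.2 fun e => h (Subtype.ext e)]
  exact div_ne_zero (mul_ne_zero (X.Hp_be_ne X.bc) (X.Hp_be_ne X.ac))
    (mul_ne_zero (X.Hp_be_ne X.ab.symm) (X.Hp_be_ne h))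

theorem Hp_la {v : RV Om} (hv : Triv v X.E) {i : X.R} (h : i ≠ X.rc) :
    w v (X.z - X.la i) = w v (X.x - i) - w v (X.x - X.rc) := by
  rw [X.z_sub_la i.2 fun e => h (Subtype.ext e),
    w_div (mul_ne_zero (X.Hp_be_ne X.bc) (X.Hp_be_ne X.ac))
      (mul_ne_zero (X.Hp_be_ne X.ab.symm) (X.Hp_be_ne h)),
    w_mul (X.Hp_be_ne X.bc) (X.Hp_be_ne X.ac), w_mul (X.Hp_be_ne X.ab.symm) (X.Hp_be_ne h),
    X.Hp_be hv X.bc, X.Hp_be hv X.ac, X.Hp_be hv X.ab.symm, X.Hp_be hv h]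
  ring

theorem Hp_sl (i : X.R) : ((X.Nw - X.Nw / X.e i - gdeg X.Ga i : ℕ) : ℝ) =
    (1 - 1 / (X.e i : ℝ)) * X.Nw - gdeg X.Ga i := by
  have h1 := X.deg i
  have h2 : 0 < X.e i := lt_of_lt_of_le two_pos (X.ram.two i i.2)
  rw [Nat.cast_sub (by omega), Nat.cast_sub (by omega), cast_div_eq h2 (X.eNw i i.2)]
  ring

theorem Hp_w {v : RV Om} (hv : Triv v X.E) (j : ℕ) {ψ : Om} (h0 : ψ ≠ 0) :
    w v (X.HH j ψ) = w v ψ + j * ∑ i : X.R, (gdeg X.Ga i : ℝ) * w v (X.x - i) +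
      j * ∑ i ∈ Finset.univ.erase X.rc, ((1 - 1 / (X.e i : ℝ)) * X.Nw - gdeg X.Ga i) *
        (w v (X.x - i) - w v (X.x - X.rc)) := by
  have h1 := pow_ne_zero j (X.sig_ne X.adm_Ga)
  have h2 : ∀ i ∈ Finset.univ.erase X.rc,
      (X.z - X.la i) ^ (j * (X.Nw - X.Nw / X.e i - gdeg X.Ga i)) ≠ 0 := fun i hi =>
    pow_ne_zero _ (X.Hp_la_ne (Finset.ne_of_mem_erase hi))
  rw [HH, w_mul (div_ne_zero h0 h1) (Finset.prod_ne_zero_iff.2 h2), w_div h0 h1, w_pow,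
    X.Hp_sig hv, w_prod _ _ h2, Finset.mul_sum (Finset.univ.erase X.rc)]
  rw [Finset.sum_congr (s₁ := Finset.univ.erase X.rc) rfl fun i hi => by
    rw [w_pow, X.Hp_la hv (Finset.ne_of_mem_erase hi), Nat.cast_mul, X.Hp_sl, mul_assoc]]
  ring

theorem Hp_la_mem (i : X.R) : X.la i ∈ X.E1 := by
  have h : ∀ k : X.R, (k : Om) ∈ X.E1 := fun k => X.R_mem_E1 k.2
  exact mul_mem (div_mem (sub_mem (h _) (h _)) (sub_mem (h _) (h _)))
    (div_mem (sub_mem (h _) (h _)) (sub_mem (h _) (h _)))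

theorem Hp_mem {F : Subfield Om} (hE : X.E1 ≤ F) (hx : X.x ∈ F) (j : ℕ) {ψ : Om}
    (hψ : ψ ∈ X.Ex) : X.HH j ψ ∈ F := by
  have h : ∀ k : X.R, (k : Om) ∈ F := fun k => hE (X.R_mem_E1 k.2)
  have h1 : X.Ex ≤ F := adj_le (X.E_le_E1.trans hE) (by rintro _ rfl; exact hx)
  refine mul_mem (div_mem (h1 hψ) (pow_mem (mul_mem (pow_mem (hE (X.E_le_E1 X.g0E)) _)
    (prod_mem fun a _ => prod_mem fun b _ => pow_mem (X.be_mem hx (h a) (h b)) _)) _))
    (prod_mem fun i _ => pow_mem (sub_mem (X.zz_mem hx (h _) (h _) (h _))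
      (hE (X.Hp_la_mem i))) _)

variable [IsAlgClosed Om]

theorem Hp_le {j : ℕ} {ψ : Om} (hψ : ψ ∈ X.Ex) (h : X.RegF (j * X.Nw) ψ) {v : RV Om}
    (hv : Triv v X.E) (hz : v X.z ≤ 1 ∨ ∀ i : X.R, gdeg X.Ga i + X.Nw / X.e i = X.Nw) :
    v (X.HH j ψ) ≤ 1 := by
  by_cases h0 : ψ = 0
  · simp [HH, h0]
  refine ge_zero_iff.1 fun _ => ?_
  have hj : (0 : ℝ) ≤ j := Nat.cast_nonneg j
  rcases CENTRE v (F := X.Eb) (fun y hy => X.p1_mem hy) hv.toAcl X.x with hx | ⟨ρ, hρ, hx⟩ | hx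
  · have h1 : ∀ i : X.R, w v (X.x - i) = w v X.x := fun i =>
      w_congr (X.p1_at_inf hv (X.Phi_R_mem i) hx)
    have h2 := X.p1_inf h hv hx h0
    have h3 : ∑ i : X.R, (gdeg X.Ga i : ℝ) = 2 * X.Nw := by
      have := sum_gdeg X.Ga
      rw [X.tot] at this
      exact_mod_cast this
    rw [X.Hp_w hv j h0]
    simp only [h1, sub_self, mul_zero, Finset.sum_const_zero, add_zero]
    rw [← Finset.sum_mul, h3]
    push_cast at h2
    linarith
  · have h2 := X.p1_fin h hv hρ hx h0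
    have h1 : ∀ i : X.R, (i : Om) ≠ ρ → w v (X.x - i) = 0 := fun i hi =>
      w_of_eq_one (X.p1_unit hv hρ (X.Phi_R_mem i) hx hi)
    rw [X.Hp_w hv j h0]
    push_cast at h2
    by_cases hR : ρ ∈ X.R
    · have h3 : ∑ i : X.R, (gdeg X.Ga i : ℝ) * w v (X.x - i) =
          gdeg X.Ga ⟨ρ, hR⟩ * w v (X.x - ρ) :=
        Finset.sum_eq_single (⟨ρ, hR⟩ : X.R)
          (fun i _ hi => by rw [h1 i fun e => hi (Subtype.ext e), mul_zero])
          fun hn => (hn (Finset.mem_univ _)).elim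
      rw [h3]
      by_cases hc : (⟨ρ, hR⟩ : X.R) = X.rc
      · have hall : ∀ i : X.R, gdeg X.Ga i + X.Nw / X.e i = X.Nw := by
          refine hz.resolve_left fun hz1 => ?_
          have h4 := X.Hp_la hv X.ac
          have h5 : X.la X.ra = 0 := by simp [la]
          have h6 := X.Hp_la_ne X.ac
          rw [h5, sub_zero] at h4 h6
          rw [h1 X.ra fun e => X.ac (by rw [← hc]; exact Subtype.ext e), ← hc] at h4
          have h7 := (w_nonneg_iff h6).2 hz1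
          have h8 := (w_pos_iff (X.x_sub_ne hρ)).2 hx
          change w v X.z = 0 - w v (X.x - ρ) at h4
          linarith
        have h9 : ∀ i : X.R, (1 - 1 / (X.e i : ℝ)) * X.Nw - gdeg X.Ga i = 0 := fun i => by
          rw [← X.Hp_sl, show X.Nw - X.Nw / X.e i - gdeg X.Ga i = 0 by have := hall i; omega,
            Nat.cast_zero]
        simp only [h9, zero_mul, Finset.sum_const_zero, mul_zero, add_zero]
        have h10 : (gdeg X.Ga ⟨ρ, hR⟩ : ℝ) = (1 - 1 / (X.e ρ : ℝ)) * X.Nw :=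
          (sub_eq_zero.1 (h9 ⟨ρ, hR⟩)).symm
        rw [h10]
        linarith
      · have h4 : w v (X.x - X.rc) = 0 := h1 _ fun e => hc (Subtype.ext e).symm
        rw [Finset.sum_eq_single (⟨ρ, hR⟩ : X.R)
          (fun i _ hi => by rw [h1 i fun e => hi (Subtype.ext e), h4, sub_self, mul_zero])
          fun hn => (hn (Finset.mem_erase.2 ⟨hc, Finset.mem_univ _⟩)).elim, h4]
        change 0 ≤ w v ψ + j * (gdeg X.Ga ⟨ρ, hR⟩ * w v (X.x - ρ)) +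
          j * (((1 - 1 / (X.e ρ : ℝ)) * X.Nw - gdeg X.Ga ⟨ρ, hR⟩) * (w v (X.x - ρ) - 0))
        linarith
    · have h3 : ∀ i : X.R, w v (X.x - i) = 0 := fun i => h1 i fun e => hR (e ▸ i.2)
      rw [X.ram.one ρ hR] at h2
      simp only [h3, sub_self, mul_zero, Finset.sum_const_zero, add_zero]
      simpa using h2
  · exact (Triv.w_eq (F := adj X.Eb {X.x}) hx
      (X.Hp_mem (X.E1_le_Eb.trans (le_adj _ _)) (mem_adj _ (Set.mem_singleton _)) j hψ)).ge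

theorem hpoly {j : ℕ} {ψ : Om} (hψ : ψ ∈ X.Ex) (h : X.RegF (j * X.Nw) ψ) :
    ∃ p : Om[X], (∀ i, p.coeff i ∈ X.E1) ∧ X.HH j ψ = p.eval X.z ∧
      ((∀ i : X.R, gdeg X.Ga i + X.Nw / X.e i = X.Nw) → X.HH j ψ ∈ X.E1) := by
  have hne : ∀ {i k : X.R}, i ≠ k → (i : Om) ≠ k := fun h e => h (Subtype.ext e)
  have hz : Transcendental X.E1 X.z := fun ha =>
    X.zz_trans (X.Phi_R_mem _) (X.Phi_R_mem _) (X.Phi_R_mem _) (hne X.ab) (hne X.bc) (hne X.ac)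
      (alg_mono X.E1_le_Eb ha)
  have hx : X.x ∈ adj X.E1 {X.z} := X.x_mem_zz X.E1_le_Eb (X.R_mem_E1 X.ra.2) (X.R_mem_E1 X.rb.2)
    (X.R_mem_E1 X.rc.2) (hne X.ab) (hne X.bc) (hne X.ac)
  have halg : ∀ y : Om, IsAlgebraic (adj X.E1 {X.z}) y := fun y =>
    mem_acl.1 (acl_mono (adj_le (X.E_le_E1.trans (le_adj _ _)) (by rintro _ rfl; exact hx))
      (X.alg_Ex y))
  have hH := X.Hp_mem (le_adj _ _) hx j hψ
  have ht : ∀ {v : RV Om}, (∀ a, IsAlgebraic X.E1 a → a ≠ 0 → v a = 1) → Triv v X.E :=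
    fun hv a ha h0 => hv a (Trd_alg_of_mem (X.E_le_E1 ha)) h0
  have hfin : ∀ (v : RV Om) (ρ : Om), (∀ a, IsAlgebraic X.E1 a → a ≠ 0 → v a = 1) →
      IsAlgebraic X.E1 ρ → v (X.z - ρ) < 1 → v (X.HH j ψ) ≤ 1 := fun v ρ hv hρ h1 => by
    refine X.Hp_le hψ h (ht hv) (Or.inl ?_)
    have h2 : v ρ ≤ 1 := by
      by_cases h0 : ρ = 0
      · simp [h0]
      · exact (hv ρ hρ h0).le
    rw [← sub_add_cancel X.z ρ]
    exact (v.map_add _ _).trans (max_le h1.le h2)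
  obtain ⟨p, hp⟩ := POLY hz halg hH hfin
  refine ⟨p.map (algebraMap X.E1 Om), fun i => ?_, by rw [hp, eval_map_algebraMap], fun hall =>
    POLY_const hz halg hH hfin fun v hv _ => X.Hp_le hψ h (ht hv) (Or.inr hall)⟩
  rw [coeff_map]; exact (p.coeff i).2

end Ctx

end Pool.Agent.Lib.MP_5c318e_ag
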