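import Pool.Agent.Lib.MP_5c318e_ag.Pts
import Pool.Agent.Lib.MP_5c318e_ag.Sym

/-! Ratios of regular forms on the total space lie in `Q`. -/

namespace Pool.Agent.Lib.MP_5c318e_ag

open scoped Classical NNReal

variable {Om : Type} [Field Om] [Algebra ℂ Om]

section General

variable {k0 F : Subfield Om} {ι : Type} [Fintype ι] [DecidableEq ι]
  {D : ι → Derivation ℂ Om Om} {b0 : ι → Om}

/-- the additive groups of regular forms -/
def QR_grp (k0 F : Subfield Om) (D : ι → Derivation ℂ Om Om) (m : ℕ) : AddSubgroup Om where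
  carrier := {φ | Reg k0 F D m φ}
  zero_mem' := fun v b i0 _ => by simp
  add_mem' := fun h h' v b i0 hd => v.map_add_le (h v b i0 hd) (h' v b i0 hd)
  neg_mem' := fun h v b i0 hd => by simpa using h v b i0 hd

theorem QR_one : (1 : Om) ∈ QR_grp k0 F D 0 := fun v b i0 _ => by simp

theorem QR_mul (m m' : ℕ) (φ ψ : Om) (h : φ ∈ QR_grp k0 F D m) (h' : ψ ∈ QR_grp k0 F D m') :
    φ * ψ ∈ QR_grp k0 F D (m + m') := fun v b i0 hd => by
  rw [map_mul, pow_add]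
  exact mul_le_mul' (h v b i0 hd) (h' v b i0 hd)

theorem QR_jac_mem (h : Frame k0 F D b0) {f : ι → Om} (hf : ∀ i, f i ∈ F) : Jac D f ∈ F := by
  have : CharZero Om := charZero_of_algebra
  have hle : adj k0 (Set.range b0) ≤ F := adj_le h.le (by rintro _ ⟨i, rfl⟩; exact h.mem i)
  have key : ∀ j, ∀ y ∈ F, D j y ∈ F := fun j y hy => by
    refine der_mem_alg (D j) hle (fun c hc => der_mem_closure (D j) F ?_ ?_ hc) hy
      (mem_acl.1 (h.alg hy))
    · exact fun c hc => hle (Subfield.subset_closure hc)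
    · rintro c (hc | ⟨i, rfl⟩)
      · rw [h.kill j c hc]; exact zero_mem _
      · rw [h.dual]; split_ifs
        exacts [one_mem _, zero_mem _]
  unfold Jac
  rw [Matrix.det_apply']
  exact sum_mem fun σ _ => mul_mem (intCast_mem F _) (prod_mem fun i _ => key _ _ (hf _))

theorem QR_aut (h : Frame k0 F D b0) {m : ℕ} {φ : Om} (hφ : φ ∈ QR_grp k0 F D m)
    (g : Om ≃ₐ[F] Om) : g φ ∈ QR_grp k0 F D m := fun v b i0 hd => by
  have hg : ∀ y ∈ F, vaut v g y = v y := fun y hy => by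
    rw [vaut_apply]; exact congrArg v (g.commutes (⟨y, hy⟩ : F))
  obtain ⟨h1, h2, h3, h4, h5⟩ := hd
  have := hφ (vaut v g) b i0 ⟨h1, h2, by rwa [hg _ (h1 i0)], fun p hp => by
    rw [hg _ (aeval_mem_of (C := k0) (fun c => h.le c.2) (fun j => h1 _) p)]
    exact h4 p hp, fun y hy h0 => by
    rw [hg y hy, hg _ (h1 i0)]; exact h5 y hy h0⟩
  rwa [hg _ (QR_jac_mem h h1), vaut_apply] at this

variable [IsAlgClosed Om]

theorem QR_exists (h : Frame k0 F D b0) (halg : ∀ y : Om, y ∈ acl F) {m : ℕ} (hm : 0 < m)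
    {ψ : Om} (h0 : ψ ≠ 0) (hψ : Reg k0 F D m ψ) :
    ∃ m' : ℕ, 0 < m' ∧ ∃ n ∈ F, n ≠ 0 ∧ Reg k0 F D m' n := by
  have : CharZero Om := charZero_of_algebra
  obtain ⟨d, n, hn, hn0, hR, -⟩ := desc_denom F (isAlgebraic_of_acl halg) (QR_grp k0 F D) QR_one
    QR_mul m ψ h0 (QR_aut h hψ)
  exact ⟨m + d * m, by omega, n, hn, hn0, hR⟩

/-- DESC for regular forms that need not be rational over `F` -/
theorem QR_ratio (h : Frame k0 F D b0) (halg : ∀ y : Om, y ∈ acl F) {m : ℕ} (hm : 0 < m)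
    {φ ψ : Om} (hφ : Reg k0 F D m φ) (hψ : Reg k0 F D m ψ) (k1 : Subfield Om) :
    φ / ψ ∈ acl (adj k1 (Rat k0 F D)) := by
  have : CharZero Om := charZero_of_algebra
  by_cases h0 : ψ = 0
  · rw [h0, div_zero]; exact zero_mem _
  obtain ⟨m', hm', n, hn, hn0, hR⟩ := QR_exists h halg hm h0 hψ
  refine mem_acl.2 (desc F (isAlgebraic_of_acl halg) (QR_grp k0 F D) QR_one QR_mul _ m
    (fun j p q hp hq hp' hq' hq0 => ?_) φ ψ (QR_aut h hφ) (QR_aut h hψ))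
  refine mem_acl.1 (le_acl _ (mem_adj _ ⟨j * m + m', by omega, p * n, mul_mem hp hn, q * n,
    mul_mem hq hn, QR_mul _ _ _ _ hp' hR, QR_mul _ _ _ _ hq' hR, mul_ne_zero hq0 hn0, ?_⟩))
  rw [mul_div_mul_right _ _ hn0]

end General

namespace Ctx0

variable (X : Ctx0 Om)

theorem QR_jac_u : Jac X.d X.u ≠ 0 :=
  X.frT.jac_ne_zero (fun _ => le_acl _ (Subfield.mem_top _)) X.frM.ind

theorem QR_change (b : X.iT → Om) : Jac X.d b = Jac X.dM b * Jac X.d X.u := by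
  have : CharZero Om := charZero_of_algebra
  have h := jac_chain' X.dM X.frM.kill X.frM.jac_ne X.d X.frT.kill b
    fun a => mem_acl.1 (acl_le X.frM.alg (X.algM (b a)))
  rwa [X.frM.jac, mul_one] at h

theorem QR_reg {m : ℕ} {φ : Om} (h : X.RegT m φ) :
    Reg (C0 Om) X.M X.dM m (φ / Jac X.d X.u ^ m) := fun v b i0 hd => by
  have h1 := (le_pow_iff_ge (pt_jac_ne (⟨v, b, i0, hd⟩ : X.Pt)) m).2 (h ⟨v, b, i0, hd⟩)
  have h2 : v (Jac X.d X.u) ^ m ≠ 0 := pow_ne_zero _ ((v.ne_zero_iff).2 X.QR_jac_u)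
  change v φ ≤ v (Jac X.d b) ^ m at h1
  rw [X.QR_change, map_mul, mul_pow] at h1
  rw [map_div₀, map_pow, div_le_iff₀ (pos_iff_ne_zero.2 h2)]
  exact h1

variable [IsAlgClosed Om]

theorem mem_Q_of_regT {m : ℕ} (hm : 0 < m) {φ ψ : Om} (hφ : X.RegT m φ) (hψ : X.RegT m ψ) :
    φ / ψ ∈ X.Q := by
  have := QR_ratio X.frM X.algM hm (X.QR_reg hφ) (X.QR_reg hψ) (C0 Om)
  rwa [div_div_div_cancel_right₀ (pow_ne_zero _ X.QR_jac_u)] at this

theorem rat_nonempty {m : ℕ} (hm : 0 < m) {φ : Om} (h0 : φ ≠ 0) (hφ : X.RegT m φ) :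
    (Rat (C0 Om) X.M X.dM).Nonempty := by
  obtain ⟨m', hm', n, hn, hn0, hR⟩ := QR_exists X.frM X.algM hm
    (div_ne_zero h0 (pow_ne_zero _ X.QR_jac_u)) (X.QR_reg hφ)
  exact ⟨_, m', hm', n, hn, n, hn, hR, hR, hn0, rfl⟩

end Ctx0

end Pool.Agent.Lib.MP_5c318e_ag
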