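import Pool.Agent.Lib.MP_5c318e_ag.Phi
import Pool.Agent.Lib.MP_5c318e_ag.QR

/-! Elements with poles bounded by `S` lie in `Q`. -/

namespace Pool.Agent.Lib.MP_5c318e_ag

open scoped Classical NNReal

variable {Om : Type} [Field Om] [Algebra ℂ Om] [IsAlgClosed Om]

namespace Ctx

variable (X : Ctx Om)

theorem OO.mem_Q {X : Ctx Om} {c : Om} (h : X.OO c) : c ∈ X.Q := by
  obtain ⟨C, hC, h⟩ := h
  obtain ⟨k, hk⟩ := exists_nat_gt C
  have hk0 : 0 < k := by exact_mod_cast hC.trans_lt hk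
  have hN : (1 : ℝ) ≤ X.Nw := by exact_mod_cast X.Nwpos
  have hne := X.Phi_ne X.adm_Ga
  have h1 : X.RegT (k * X.Nw) (X.Phi X.Ga ^ k) := fun P =>
    ((X.Phi_regT X.adm_Ga P).pow k).mono (by push_cast; linarith)
  have h2 : X.RegT (k * X.Nw) (c * X.Phi X.Ga ^ k) := fun P => by
    refine ((h P).mul ((Ge.self (v := P.v) (X.Phi X.Ga)).pow k)).mono ?_
    have h3 : w P.v (X.Phi X.Ga) = X.Nw * (X.S P + P.can) := by
      have := X.Phi_Nw_pos.ne'
      rw [S, SG]; field_simp; ring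
    have h4 : 0 ≤ X.S P := X.S_nonneg X.adm_Ga P
    have h5 : C * X.S P ≤ k * X.Nw * X.S P := by
      refine mul_le_mul_of_nonneg_right ?_ h4
      nlinarith
    rw [h3]
    push_cast
    linarith
  have := X.mem_Q_of_regT (Nat.mul_pos hk0 X.Nwpos) h2 h1
  rwa [mul_div_cancel_right₀ _ (pow_ne_zero _ hne)] at this

/-- the ring of elements with poles bounded by `S` -/
def OOring : Subring Om where
  carrier := {c | X.OO c}
  mul_mem' := by
    rintro a b ⟨C, hC, h⟩ ⟨C', hC', h'⟩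
    exact ⟨C + C', add_nonneg hC hC', fun P => ((h P).mul (h' P)).mono (by linarith)⟩
  one_mem' := ⟨0, le_rfl, fun P => Ge.one.mono (by simp)⟩
  add_mem' := by
    rintro a b ⟨C, hC, h⟩ ⟨C', hC', h'⟩
    refine ⟨C + C', add_nonneg hC hC', fun P => ?_⟩
    have h4 : 0 ≤ X.S P := X.S_nonneg X.adm_Ga P
    exact ((h P).mono (by nlinarith)).add ((h' P).mono (by nlinarith))
  zero_mem' := ⟨0, le_rfl, fun P => Ge.zero _⟩
  neg_mem' := by
    rintro a ⟨C, hC, h⟩
    exact ⟨C, hC, fun P => (h P).neg⟩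

theorem mem_OOring {c : Om} : c ∈ X.OOring ↔ X.OO c := Iff.rfl

/-- a product of `Nw` regular forms of the base times a power of `sig` is regular -/
theorem OOQ_regT {m : ℕ} {φ ψ : Om} (hφK : φ ∈ X.K) (hψK : ψ ∈ X.K)
    (hφ : Reg (C0 Om) X.K X.dK m φ) (hψ : Reg (C0 Om) X.K X.dK m ψ) :
    X.RegT (m * X.Nw) (φ * ψ ^ (X.Nw - 1) * X.sig X.Ga ^ m) := fun P => by
  have hv := Ctx0.pt_good P
  have hs := ((Ge.self (v := P.v) (X.sig X.Ga)).pow m)
  rw [X.w_sig X.adm_Ga] at hs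
  have hN : ((X.Nw - 1 : ℕ) : ℝ) = X.Nw - 1 := by
    rw [Nat.cast_sub X.Nwpos]; simp
  have hm : (0 : ℝ) ≤ m := Nat.cast_nonneg _
  by_cases h : Triv P.v X.K
  · have h1 : Ge P.v (φ * ψ ^ (X.Nw - 1)) 0 :=
      ge_zero_iff.2 (h.le (mul_mem hφK (pow_mem hψK _)))
    refine (h1.mul hs).mono ?_
    have h2 := Ctx0.pt_hor P h
    have h3 := X.Phi_hor X.adm_Ga P h
    have h4 : (X.Nw : ℝ) * P.can ≤
        X.Nw * (X.A P.v + X.lE P.v + X.lx P.v) + X.sord X.Ga P.v := by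
      have h5 : X.sord X.Ga P.v = X.Nw * (X.sord X.Ga P.v / X.Nw) := by
        have := X.Phi_Nw_pos.ne'
        field_simp
      rw [h5, ← mul_add]
      exact mul_le_mul_of_nonneg_left (by linarith) X.Phi_Nw_pos.le
    have := mul_le_mul_of_nonneg_left h4 hm
    push_cast
    linarith
  · refine (((Ctx0.pt_vert P h hφ).mul ((Ctx0.pt_vert P h hψ).pow _)).mul hs).mono ?_
    have h2 := mul_nonneg hm (add_nonneg (mul_nonneg X.Phi_Nw_pos.le (X.A_nonneg hv))
      (X.sord_nonneg X.adm_Ga hv))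
    rw [hN]
    push_cast
    linarith

theorem ratK_mem : ∀ h ∈ Rat (C0 Om) X.K X.dK, h ∈ X.K0 := by
  rintro _ ⟨m, hm, φ, hφK, ψ, hψK, hφ, hψ, h0, rfl⟩
  refine ⟨le_acl _ (div_mem hφK hψK), ?_⟩
  have := X.mem_Q_of_regT (Nat.mul_pos hm X.Nwpos) (X.OOQ_regT hφK hψK hφ hψ)
    (X.OOQ_regT hψK hψK hψ hψ)
  rwa [mul_div_mul_right _ _ (pow_ne_zero _ (X.sig_ne X.adm_Ga)),
    mul_div_mul_right _ _ (pow_ne_zero _ h0)] at this

theorem z_mem_Q (h : gdeg X.Ga X.rc + X.Nw / X.e X.rc < X.Nw) : X.z ∈ X.Q := by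
  let e1 : X.R → X.R → ℕ := fun i j => if i = X.rb ∧ j = X.ra then 1 else 0
  let e2 : X.R → X.R → ℕ := fun i j => if i = X.rb ∧ j = X.rc then 1 else 0
  let G0 : X.R → X.R → ℕ := fun i j => X.Ga i j - e1 i j
  have hG0 : ∀ i j, X.Ga i j = G0 i j + e1 i j := fun i j => by
    refine (Nat.sub_add_cancel ?_).symm
    simp only [e1]
    split_ifs with hc
    · rw [hc.1, hc.2]; exact X.full _ _ X.ab.symm
    · exact Nat.zero_le _
  have hsum : ∀ a b : X.R, ∑ i : X.R, ∑ j : X.R, (if i = a ∧ j = b then 1 else 0 : ℕ) = 1 := by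
    intro a b
    simp [ite_and]
  have hdeg : ∀ (A B : X.R → X.R → ℕ) (i : X.R),
      gdeg (fun i j => A i j + B i j) i = gdeg A i + gdeg B i := fun A B i => by
    simp only [gdeg, Finset.sum_add_distrib]; ring
  have hGa : X.Ga = fun i j => G0 i j + e1 i j := funext fun i => funext fun j => hG0 i j
  have hadm : X.Adm fun i j => G0 i j + e2 i j := by
    refine ⟨fun i => ?_, ?_, fun i => ?_⟩
    · have h1 : G0 i i = 0 := by simp [G0, X.diag]
      have h2 : e2 i i = 0 := if_neg fun hc => X.bc (hc.1.symm.trans hc.2)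
      simp [h1, h2]
    · have h1 := X.tot
      rw [hGa] at h1
      simp only [Finset.sum_add_distrib, e1, e2, hsum] at h1 ⊢
      exact h1
    · have h1 := X.deg i
      have h2 : gdeg X.Ga i = gdeg G0 i + gdeg e1 i := by rw [← hdeg, ← hGa]
      rw [hdeg]
      have h3 := gdeg_single X.rb X.ra i
      have h4 := gdeg_single X.rb X.rc i
      change gdeg e1 i = _ at h3
      change gdeg e2 i = _ at h4
      by_cases hi : i = X.rc
      · have h5 : gdeg X.Ga i + X.Nw / X.e i < X.Nw := by rw [hi]; exact h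
        split_ifs at h3 h4 <;> omega
      · rw [if_neg hi] at h4
        split_ifs at h3 h4 <;> omega
  have hprod : ∀ a b : X.R, ∏ i : X.R, ∏ j : X.R, X.be i j ^ (if i = a ∧ j = b then 1 else 0 : ℕ)
      = X.be a b := by
    intro a b
    simp [ite_and]
  have hPhi : ∀ a b : X.R, X.Phi (fun i j => G0 i j + if i = a ∧ j = b then 1 else 0)
      = X.Phi G0 * X.be a b := fun a b => by
    simp only [Phi, sig, pow_add, Finset.prod_mul_distrib, hprod]
    ring
  have h1 := X.mem_Q_of_regT X.Nwpos (X.Phi_regT hadm) (X.Phi_regT X.adm_Ga)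
  have h2 := X.Phi_ne X.adm_Ga
  rw [hGa] at h1 h2
  simp only [e1, e2, hPhi] at h1 h2
  rwa [mul_div_mul_left _ _ (left_ne_zero_of_mul h2)] at h1

theorem isAlgClosed_K0 : IsAlgClosed X.K0 := by
  refine IsAlgClosed.of_exists_root _ fun p hp hi => ?_
  obtain ⟨y, hy⟩ := IsAlgClosed.exists_aeval_eq_zero Om p (Polynomial.degree_pos_of_irreducible hi).ne'
  have h1 : y ∈ acl X.K0 := mem_acl.2 ⟨p, hp.ne_zero, hy⟩
  have h2 : y ∈ X.K0 := ⟨acl_le inf_le_left h1, acl_le inf_le_right h1⟩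
  refine ⟨⟨y, h2⟩, Subtype.ext ?_⟩
  have := Polynomial.aeval_algebraMap_apply Om (⟨y, h2⟩ : X.K0) p
  rw [Polynomial.coe_aeval_eq_eval] at this
  exact this.symm.trans hy

end Ctx

end Pool.Agent.Lib.MP_5c318e_ag
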