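import Pool.Agent.Lib.MP_5c318e_ag.HH
import Pool.Agent.Lib.MP_5c318e_ag.Base
import Pool.Agent.Lib.MP_5c318e_ag.Sec5B
import Pool.Agent.Lib.MP_5c318e_ag.OOQ

/-! Section 6: ratios of fibre forms are algebraic over `Q ⊔ Kb`. -/

namespace Pool.Agent.Lib.MP_5c318e_ag

open scoped Classical NNReal
open Polynomial

variable {Om : Type} [Field Om] [Algebra ℂ Om]

namespace Ctx

variable (X : Ctx Om)

theorem KG_ne {i j : X.R} (h : i ≠ j) : (i : Om) ≠ j := fun e => h (Subtype.ext e)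

theorem KG_be_ne {i j : X.R} (h : i ≠ j) : X.be i j ≠ 0 :=
  X.S3_be_ne (X.Phi_R_mem i) (X.Phi_R_mem j) (X.KG_ne h)

theorem KG_zla_ne {i : X.R} (h : i ≠ X.rc) : X.z - X.la i ≠ 0 := by
  rw [X.z_sub_la i.2 (X.KG_ne h)]
  exact div_ne_zero (mul_ne_zero (X.KG_be_ne X.bc) (X.KG_be_ne X.ac))
    (mul_ne_zero (X.KG_be_ne X.ab.symm) (X.KG_be_ne h))

theorem KG_be {v : RV Om} (hv : X.Neutral v) {i j : X.R} (h : i ≠ j) :
    v (X.be i j) = v (X.be X.ra X.rb) :=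
  hv.beq _ i.2 _ j.2 _ X.ra.2 _ X.rb.2 (X.KG_ne h) (X.KG_ne X.ab)

theorem KG_zla {v : RV Om} (hv : X.Neutral v) {i : X.R} (h : i ≠ X.rc) :
    v (X.z - X.la i) = 1 := by
  have h0 : v (X.be X.ra X.rb) ≠ 0 := (Valuation.ne_zero_iff v).2 (X.KG_be_ne X.ab)
  rw [X.z_sub_la i.2 (X.KG_ne h), map_div₀, map_mul, map_mul, X.KG_be hv X.bc, X.KG_be hv X.ac,
    X.KG_be hv X.ab.symm, X.KG_be hv h]
  exact div_self (mul_ne_zero h0 h0)

theorem KG_sig {v : RV Om} (hv : X.Neutral v) :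
    v (X.sig X.Ga) = v X.g0 ^ (X.Nw / X.m0) * v (X.be X.ra X.rb) ^ X.Nw := by
  have h1 : ∀ i j : X.R, v (X.be i j ^ X.Ga i j) = v (X.be X.ra X.rb) ^ X.Ga i j := fun i j => by
    by_cases h : i = j
    · subst h; rw [X.diag, pow_zero, pow_zero, map_one]
    · rw [map_pow, X.KG_be hv h]
  rw [sig, map_mul, map_pow, map_prod]
  simp only [map_prod, h1, Finset.prod_pow_eq_pow_sum]
  rw [X.tot]

theorem hneu {j : ℕ} {ψ : Om} (h : X.RegF (j * X.Nw) ψ) {v : RV Om} (hv : X.Neutral v) :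
    v (X.HH j ψ) ≤ 1 := by
  have h1 := hv.reg _ X.ra.2 _ X.rb.2 (X.KG_ne X.ab) _ _ h
  have h2 : (v X.g0 * v (X.be X.ra X.rb) ^ X.m0) ^ (j * X.Nw) =
      (v (X.sig X.Ga) ^ j) ^ X.m0 := by
    have h3 : X.Nw / X.m0 * X.m0 = X.Nw := Nat.div_mul_cancel X.m0Nw
    rw [X.KG_sig hv, mul_pow, mul_pow, mul_pow, ← pow_mul, ← pow_mul, ← pow_mul, ← pow_mul,
      ← pow_mul]
    congr 2
    · rw [mul_comm j X.m0, ← mul_assoc, h3, mul_comm]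
    · ring
  rw [h2] at h1
  have h4 : v ψ ≤ v (X.sig X.Ga) ^ j := le_of_pow_le_pow_left₀ X.m0pos.ne' zero_le h1
  have h5 : 0 < v (X.sig X.Ga) ^ j :=
    pow_pos (pos_iff_ne_zero.2 ((Valuation.ne_zero_iff v).2 (X.sig_ne X.adm_Ga))) j
  rw [HH, map_mul, map_prod, Finset.prod_eq_one, mul_one, map_div₀, map_pow, div_le_one h5]
  · exact h4
  · intro i hi
    rw [map_pow, X.KG_zla hv (Finset.ne_of_mem_erase hi), one_pow]

theorem KG_ratio (j : ℕ) (φ ψ : Om) : X.HH j φ / X.HH j ψ = φ / ψ := by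
  have h1 : ∏ i ∈ Finset.univ.erase X.rc,
      (X.z - X.la i) ^ (j * (X.Nw - X.Nw / X.e i - gdeg X.Ga i)) ≠ 0 :=
    Finset.prod_ne_zero_iff.2 fun i hi => pow_ne_zero _ (X.KG_zla_ne (Finset.ne_of_mem_erase hi))
  rw [HH, HH, mul_div_mul_right _ _ h1,
    div_div_div_cancel_right₀ (pow_ne_zero _ (X.sig_ne X.adm_Ga))]

/-- the statement of the polynomial step -/
def HPoly : Prop :=
  ∀ (j : ℕ) (ψ : Om), ψ ∈ X.Ex → X.RegF (j * X.Nw) ψ →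
    ∃ p : Om[X], (∀ i, p.coeff i ∈ X.E1) ∧ X.HH j ψ = p.eval X.z ∧
      ((∀ i : X.R, gdeg X.Ga i + X.Nw / X.e i = X.Nw) → X.HH j ψ ∈ X.E1)

variable [IsAlgClosed Om]

theorem KG_HH (H : X.S5H) (hp : X.HPoly) {j : ℕ} {ψ : Om} (hψ : ψ ∈ X.Ex)
    (h : X.RegF (j * X.Nw) ψ) : X.HH j ψ ∈ acl (X.Q ⊔ X.Kb) := by
  obtain ⟨p, hc, he, hE⟩ := hp j ψ hψ h
  rcases X.slack with hs | hs
  · exact H.spread1_alg (X.E1_le_Eb (hE hs)) fun v hv => X.hneu h hv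
  · have hz : X.z ∈ acl (X.Q ⊔ X.Kb) :=
      le_acl _ ((le_sup_left : X.Q ≤ X.Q ⊔ X.Kb) (X.z_mem_Q hs))
    rw [he, eval_eq_sum_range]
    refine sum_mem fun i _ => mul_mem ?_ (pow_mem hz i)
    refine H.spread1_alg (X.E1_le_Eb (hc i)) fun v hv => ?_
    have hg := hv.gs _ X.ra.2 _ X.rb.2 _ X.rc.2 (X.KG_ne X.ab) (X.KG_ne X.bc) (X.KG_ne X.ac)
    refine (hg.2 p (fun l => X.E1_le_F1 (hc l)) i).trans ?_
    have := X.hneu h hv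
    rwa [he] at this

theorem kodF_of (H : X.S5H) (hp : X.HPoly) {m : ℕ} {φ ψ : Om} (hφ : X.RegF m φ)
    (hψ : X.RegF m ψ) : φ / ψ ∈ acl (X.Q ⊔ X.Kb) := by
  have : CharZero Om := charZero_of_algebra
  refine mem_acl.2 (desc X.Ex X.isAlgebraic_Ex (QR_grp X.Kb X.Mb X.dF) QR_one QR_mul _ m
    (fun j p q hpE hqE hpR hqR hq0 => ?_) φ ψ (fun g => hφ.aut g) fun g => hψ.aut g)
  obtain ⟨k, hk⟩ : ∃ k, X.Nw = k + 1 := ⟨_, (Nat.succ_pred_eq_of_pos X.Nwpos).symm⟩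
  have hq := graded_pow (QR_grp X.Kb X.Mb X.dF) QR_one QR_mul hqR k
  have he : j * m + k * (j * m) = j * m * X.Nw := by rw [hk]; ring
  have h1 : X.RegF (j * m * X.Nw) (p * q ^ k) := he ▸ QR_mul _ _ _ _ hpR hq
  have h2 : X.RegF (j * m * X.Nw) (q * q ^ k) := he ▸ QR_mul _ _ _ _ hqR hq
  rw [← mul_div_mul_right p q (pow_ne_zero k hq0), ← X.KG_ratio (j * m)]
  exact mem_acl.1 (div_mem (X.KG_HH H hp (mul_mem hpE (pow_mem hqE k)) h1)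
    (X.KG_HH H hp (mul_mem hqE (pow_mem hqE k)) h2))

end Ctx

end Pool.Agent.Lib.MP_5c318e_ag
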