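import Pool.Agent.Lib.MP_5c318e_ag.Pts
import Pool.Agent.Lib.MP_5c318e_ag.RamB
import Pool.Agent.Lib.MP_5c318e_ag.Sym

/-! Section 4: small orders force equal values, Gauss independence, and no new values. -/

namespace Pool.Agent.Lib.MP_5c318e_ag

open scoped Classical NNReal
open Polynomial

variable {Om : Type} [Field Om]

theorem Neu1_PO_mono {v : RV Om} {F F' : Subfield Om} (h : F ≤ F') {q : Om[X]}
    (hq : q ∈ PO v F) : q ∈ PO v F' :=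
  mem_PO.2 fun i => ⟨h (mem_PO.1 hq i).1, (mem_PO.1 hq i).2⟩

/-- adjoining simple roots of one integral polynomial -/
theorem Neu1_unr_set (v : RV Om) {F : Subfield Om} {q : Om[X]} (hq : q ∈ PO v F) (hm : q.Monic)
    {S : Set Om} (hS : ∀ s ∈ S, q.eval s = 0 ∧ v (q.derivative.eval s) = 1) {y : Om}
    (hy : y ∈ adj F S) : ∃ f ∈ F, v y = v f := by
  rw [adj, closure_eq_adjoin] at hy
  obtain ⟨T, hT, hyT⟩ := IntermediateField.exists_finset_of_mem_adjoin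
    (show y ∈ IntermediateField.adjoin F S from hy)
  refine IntermediateField.induction_on_adjoin_finset T
    (fun K => ∀ z ∈ K, ∃ f ∈ F, v z = v f) ?_ ?_ y hyT
  · intro z hz
    obtain ⟨f, rfl⟩ := IntermediateField.mem_bot.1 hz
    exact ⟨f, f.2, rfl⟩
  · intro K x hx hK z hz
    have hle' : F ≤ K.toSubfield := fun a ha => K.algebraMap_mem ⟨a, ha⟩
    have hz' : z ∈ Subfield.closure ((K.toSubfield : Set Om) ∪ {x}) := by
      rw [closure_eq_adjoin]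
      exact hz
    obtain ⟨f, hf, hfe⟩ := unr v (harch v) K.toSubfield (Neu1_PO_mono hle' hq) hm
      (hS x (hT hx)).1 (hS x (hT hx)).2 hz'
    obtain ⟨f', hf', hfe'⟩ := hK f hf
    exact ⟨f', hf', hfe.trans hfe'⟩

theorem Neu1_not_gs {v : RV Om} {F : Subfield Om} {z : Om} (hv : ∀ n : ℕ, n ≠ 0 → v n = 1)
    (hz : v z ≤ 1) (h : ¬ Gs v F z) :
    ∃ q ∈ PO v F, v (q.eval z) < 1 ∧ v (q.derivative.eval z) = 1 := by
  have h1 : ∃ p : Om[X], (∀ i, p.coeff i ∈ F) ∧ ∃ i, v (p.eval z) < v (p.coeff i) := by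
    by_contra h2
    push Not at h2
    exact h ⟨hz, h2⟩
  obtain ⟨p, hp, i, hi⟩ := h1
  obtain ⟨j, hj⟩ := exists_max_coeff v p
  have hlt : v (p.eval z) < v (p.coeff j) := hi.trans_le (hj i)
  have hpos : 0 < v (p.coeff j) := lt_of_le_of_lt zero_le hlt
  have hc0 : p.coeff j ≠ 0 := v.pos_iff.1 hpos
  obtain ⟨p0, h0, he⟩ := exists_scale (hp j) hp hj
  have hj1 : p0.coeff j = 1 := by
    have := congrArg (fun s => s.coeff j) he
    simp only [coeff_C_mul] at this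
    exact mul_left_cancel₀ hc0 (this.symm.trans (mul_one _).symm)
  have h3 : v (p0.eval z) < 1 := by
    have h4 : p.eval z = p.coeff j * p0.eval z := by
      conv_lhs => rw [he]
      rw [eval_mul, eval_C]
    rw [h4, map_mul] at hlt
    exact (mul_lt_iff_lt_one_right hpos).1 hlt
  obtain ⟨q, hq, -, h5, h6, -⟩ := minp v hv F hz ⟨p0, h0, ⟨j, by rw [hj1, map_one]⟩, h3⟩
  exact ⟨q, hq, h5, h6⟩

variable [Algebra ℂ Om]

namespace Ctx0

variable (X : Ctx0 Om)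

theorem Neu1_Ex_le : X.Ex ≤ X.Mb := X.ExN.trans (le_sup_left.trans X.NM.le)

theorem Neu1_x : X.x ∈ X.Mb := X.Neu1_Ex_le (mem_adj _ rfl)

theorem Neu1_be {a b : Om} (ha : a ∈ X.R) (hb : b ∈ X.R) : X.be a b ∈ X.Mb1 :=
  sub_mem (inv_mem (sub_mem (le_adj _ _ X.Neu1_x) (mem_adj _ ha)))
    (inv_mem (sub_mem (le_adj _ _ X.Neu1_x) (mem_adj _ hb)))

theorem Neu1_dx_zz {a b c : Om} (ha : a ∈ X.Eb) (hb : b ∈ X.Eb) (hc : c ∈ X.Eb) (hab : a ≠ b) :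
    X.dx (X.zz a b c) = X.zz a b c * X.be a c := by
  have h1 := X.x_sub_ne ha
  have h2 := X.x_sub_ne hb
  have h3 := X.x_sub_ne hc
  have h4 : b - a ≠ 0 := sub_ne_zero.2 hab.symm
  have he : X.zz a b c = (b - c) / (b - a) * ((X.x - a) * (X.x - c)⁻¹) := by
    rw [zz, X.be_eq hb hc, X.be_eq hb ha]
    field_simp
  rw [he, Derivation.leibniz, X.dx_ratio ha hc,
    X.dx_Eb (div_mem (sub_mem hb hc) (sub_mem hb ha)), smul_zero, add_zero, smul_eq_mul]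
  ring

theorem Neu1_gap {D : ℕ} (hD0 : 0 < D)
    (hD : ∀ v : RV Om, ∀ y ∈ X.Mb1, ∃ f ∈ X.Mb, v y ^ D = v f) {v : RV Om}
    {t : Om} (ht0 : t ≠ 0) (ht : v t < 1) (hg : Grp v X.Mb t) {y : Om} (hy : y ∈ X.Mb1)
    (h0 : y ≠ 0) (hp : 0 < w v y) : w v t / D ≤ w v y := by
  obtain ⟨f, hf, he⟩ := hD v y hy
  have hD' : (0 : ℝ) < D := by exact_mod_cast hD0
  have hf0 : f ≠ 0 := fun h => h0 (by
    rw [h, map_zero, pow_eq_zero_iff hD0.ne', v.zero_iff] at he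
    exact he)
  have h1 : w v f = D * w v y := by
    rw [← w_pow]
    exact w_congr (by rw [map_pow, he])
  have h2 := hg.le_w ((w_pos_iff ht0).2 ht) hf hf0 (by rw [h1]; positivity)
  rw [div_le_iff₀ hD']
  linarith

theorem neu_ord {D : ℕ} (hD0 : 0 < D)
    (hD : ∀ v : RV Om, ∀ y ∈ X.Mb1, ∃ f ∈ X.Mb, v y ^ D = v f) {v : RV Om} (hv : X.Good v)
    {t : Om} (ht0 : t ≠ 0) (ht : v t < 1) (hg : Grp v X.Mb t)
    (ho : ∀ a ∈ X.R, ∀ b ∈ X.R, a ≠ b → X.ord v a b < w v t / D) :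
    (∀ a ∈ X.R, ∀ b ∈ X.R, ∀ a' ∈ X.R, ∀ b' ∈ X.R, a ≠ b → a' ≠ b' →
      v (X.be a b) = v (X.be a' b')) ∧
    ∀ a ∈ X.R, ∀ b ∈ X.R, ∀ c ∈ X.R, a ≠ b → b ≠ c → a ≠ c → Gs v X.F1 (X.zz a b c) := by
  have : CharZero Om := charZero_of_algebra
  have hm := X.ram.mem
  have key : ∀ a ∈ X.R, ∀ b ∈ X.R, ∀ a' ∈ X.R, ∀ b' ∈ X.R, a ≠ b → a' ≠ b' →
      w v (X.be a b) ≤ w v (X.be a' b') := by
    intro a ha b hb a' ha' b' hb' hab hab'
    by_contra hlt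
    have n1 := X.be_ne (hm a ha) (hm b hb) hab
    have n2 := X.be_ne (hm a' ha') (hm b' hb') hab'
    have h1 := X.Neu1_gap hD0 hD ht0 ht hg (div_mem (X.Neu1_be ha hb) (X.Neu1_be ha' hb'))
      (div_ne_zero n1 n2) (by rw [w_div n1 n2]; linarith)
    have h2 := ho a ha b hb hab
    have h3 := X.ord_nonneg hv (hm a' ha') (hm b' hb') hab'
    rw [w_div n1 n2] at h1
    unfold ord at h2 h3
    linarith
  have h1 : ∀ a ∈ X.R, ∀ b ∈ X.R, ∀ a' ∈ X.R, ∀ b' ∈ X.R, a ≠ b → a' ≠ b' →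
      v (X.be a b) = v (X.be a' b') := fun a ha b hb a' ha' b' hb' hab hab' =>
    (eq_iff_w (X.be_ne (hm a ha) (hm b hb) hab) (X.be_ne (hm a' ha') (hm b' hb') hab')).2
      (le_antisymm (key a ha b hb a' ha' b' hb' hab hab') (key a' ha' b' hb' a ha b hb hab' hab))
  refine ⟨h1, fun a ha b hb c hc hab hbc hac => ?_⟩
  have n1 := X.be_ne (hm b hb) (hm a ha) hab.symm
  have n2 := X.be_ne (hm a ha) (hm c hc) hac
  have hz : v (X.zz a b c) = 1 := by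
    rw [zz, map_div₀, h1 b hb c hc b hb a ha hbc hab.symm, div_self (v.ne_zero_iff.2 n1)]
  have hzm : X.zz a b c ∈ X.Mb1 := div_mem (X.Neu1_be hb hc) (X.Neu1_be hb ha)
  by_contra hn
  obtain ⟨q, hq, h2, h3⟩ := Neu1_not_gs hv.1.hv hz.le hn
  have hqF : ∀ i, q.coeff i ∈ X.F1 := fun i => (mem_PO.1 hq i).1
  have hd : X.dx (q.eval (X.zz a b c)) =
      q.derivative.eval (X.zz a b c) * (X.zz a b c * X.be a c) := by
    rw [Log_der_eval, Finset.sum_eq_zero fun i _ => by rw [X.dx_Eb (hqF i).2, zero_mul], zero_add,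
      X.Neu1_dx_zz (hm a ha) (hm b hb) (hm c hc) hab]
  have hv2 : v (X.dx (q.eval (X.zz a b c))) = v (X.be a c) := by
    rw [hd, map_mul, map_mul, h3, hz, one_mul, one_mul]
  have hd0 : X.dx (q.eval (X.zz a b c)) ≠ 0 := by
    rw [← v.ne_zero_iff, hv2]
    exact v.ne_zero_iff.2 n2
  have hf0 : q.eval (X.zz a b c) ≠ 0 := fun h => hd0 (by rw [h, map_zero])
  have hfm : q.eval (X.zz a b c) ∈ X.Mb1 := by
    rw [eval_eq_sum_range]
    exact sum_mem fun i _ => mul_mem (hqF i).1 (pow_mem hzm i)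
  have h4 := X.Neu1_gap hD0 hD ht0 ht hg hfm hf0 ((w_pos_iff hf0).2 h2)
  have h5 := X.lx_le hv hd0
  have h6 := ho a ha c hc hac
  rw [w_congr hv2] at h5
  unfold ord at h6
  linarith

theorem neu_grp [IsAlgClosed Om] {v : RV Om} (hv : Triv v (C0 Om))
    (hb : ∀ a ∈ X.R, ∀ b ∈ X.R, ∀ a' ∈ X.R, ∀ b' ∈ X.R, a ≠ b → a' ≠ b' →
      v (X.be a b) = v (X.be a' b'))
    {a b y0 : Om} (ha : a ∈ X.R) (hb' : b ∈ X.R) (hab : a ≠ b) (hy0 : y0 ∈ X.Mb)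
    (hy : v (X.be a b) = v y0) : ∀ y ∈ X.Mb1, ∃ f ∈ X.Mb, v y = v f := by
  have : CharZero Om := charZero_of_algebra
  have hm := X.ram.mem
  have hA : Algebra.IsAlgebraic X.Mb Om :=
    isAlgebraic_of_acl fun y => acl_mono le_sup_left (X.algM y)
  have hv0 : v y0 ≠ 0 := hy ▸ v.ne_zero_iff.2 (X.be_ne (hm a ha) (hm b hb') hab)
  have h0 : y0 ≠ 0 := v.ne_zero_iff.1 hv0
  have hc : X.R.card ≠ 0 := Finset.card_ne_zero.2 ⟨a, ha⟩
  have hc' : (X.R.card : Om) ≠ 0 := Nat.cast_ne_zero.2 hc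
  have hfix : ∀ g : Om ≃ₐ[X.Mb] Om, ∀ u ∈ X.Mb, g u = u := fun g u hu => g.commutes ⟨u, hu⟩
  have hst : ∀ g : Om ≃ₐ[X.Mb] Om, ∀ ρ ∈ X.R, g ρ ∈ X.R := fun g ρ hρ =>
    X.ram.stab (ramRes X.Neu1_Ex_le g) ρ hρ
  have hsurj : ∀ g : Om ≃ₐ[X.Mb] Om, ∀ ρ ∈ X.R, ∃ ρ', ∃ _ : ρ' ∈ X.R, g ρ' = ρ := fun g ρ hρ =>
    ⟨g.symm ρ, hst g.symm ρ hρ, g.apply_symm_apply ρ⟩
  set S : Om := ∑ ρ ∈ X.R, (X.x - ρ)⁻¹ with hS
  have hSm : S ∈ X.Mb := mem_of_fixed _ hA _ fun g => by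
    rw [hS, map_sum]
    exact Finset.sum_bij (fun ρ _ => g ρ) (hst g) (fun _ _ _ _ h => g.injective h) (hsurj g)
      fun ρ _ => by rw [map_inv₀, map_sub, hfix g _ X.Neu1_x]
  set ζ : Om → Om := fun ρ => ((X.x - ρ)⁻¹ - S / X.R.card) / y0 with hζ
  have hμ : S / X.R.card ∈ X.Mb := div_mem hSm (natCast_mem _ _)
  have hζg : ∀ g : Om ≃ₐ[X.Mb] Om, ∀ ρ, g (ζ ρ) = ζ (g ρ) := fun g ρ => by
    simp only [hζ]
    rw [map_div₀, map_sub, map_inv₀, map_sub, hfix g _ X.Neu1_x, hfix g _ hμ, hfix g _ hy0]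
  have hdiff : ∀ ρ ∈ X.R, ∀ ρ' ∈ X.R, ρ ≠ ρ' → v (ζ ρ - ζ ρ') = 1 := fun ρ h ρ' h' hne => by
    have : ζ ρ - ζ ρ' = X.be ρ ρ' / y0 := by
      simp only [hζ, be]
      ring
    rw [this, map_div₀, hb ρ h ρ' h' a ha b hb' hne hab, hy, div_self hv0]
  have hle : ∀ ρ ∈ X.R, v (ζ ρ) ≤ 1 := fun ρ h => by
    have : ζ ρ = (∑ ρ' ∈ X.R, X.be ρ ρ') / X.R.card / y0 := by
      simp only [hζ, be, Finset.sum_sub_distrib, Finset.sum_const, nsmul_eq_mul, ← hS]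
      field_simp
    rw [this, map_div₀, map_div₀, hv.hv _ hc, div_one, div_le_one₀ (pos_iff_ne_zero.2 hv0)]
    refine v.map_sum_le fun ρ' h' => ?_
    by_cases hne : ρ = ρ'
    · simp [hne, be]
    · exact ((hb ρ h ρ' h' a ha b hb' hne hab).trans hy).le
  set q : Om[X] := ∏ ρ ∈ X.R, (Polynomial.X - C (ζ ρ)) with hq
  have hqm : q.Monic := monic_prod_of_monic _ _ fun ρ _ => monic_X_sub_C _
  have hqP : q ∈ PO v X.Mb := by
    have h1 : q ∈ PO v ⊤ := prod_mem fun ρ h => sub_mem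
      (mem_PO.2 fun i => ⟨trivial, by rw [coeff_X]; split_ifs <;> simp⟩)
      (mem_PO.2 fun i => ⟨trivial, by rw [coeff_C]; split_ifs <;> simp [hle ρ h]⟩)
    refine mem_PO.2 fun i => ⟨mem_of_fixed _ hA _ fun g => ?_, (mem_PO.1 h1 i).2⟩
    have h2 : q.map (g : Om →+* Om) = q := by
      rw [hq, Polynomial.map_prod]
      exact Finset.prod_bij (fun ρ _ => g ρ) (hst g) (fun _ _ _ _ h => g.injective h) (hsurj g)
        fun ρ _ => by rw [Polynomial.map_sub, map_X, map_C, ← hζg]; rfl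
    conv_rhs => rw [← h2]
    rw [coeff_map]
    rfl
  intro y hy1
  refine Neu1_unr_set v hqP hqm (S := ζ '' X.R) ?_ (adj_le (le_adj _ _) (fun ρ hρ => ?_) hy1)
  · rintro _ ⟨ρ, hρ, rfl⟩
    rw [hq, ← Finset.mul_prod_erase _ _ hρ]
    refine ⟨by simp, ?_⟩
    rw [derivative_mul, eval_add, eval_mul, eval_mul, eval_prod]
    simp only [derivative_sub, derivative_X, derivative_C, sub_zero, eval_one, one_mul, eval_sub,
      eval_X, eval_C, sub_self, zero_mul, add_zero, map_prod]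
    exact Finset.prod_eq_one fun ρ' h' =>
      hdiff ρ hρ ρ' (Finset.mem_of_mem_erase h') (Finset.ne_of_mem_erase h').symm
  · have he : ρ = X.x - (ζ ρ * y0 + S / X.R.card)⁻¹ := by
      simp only [hζ]
      rw [div_mul_cancel₀ _ h0, sub_add_cancel, inv_inv, sub_sub_cancel]
    rw [he]
    exact sub_mem (le_adj _ _ X.Neu1_x) (inv_mem (add_mem
      (mul_mem (mem_adj _ ⟨ρ, hρ, rfl⟩) (le_adj _ _ hy0)) (le_adj _ _ hμ)))

end Ctx0

end Pool.Agent.Lib.MP_5c318e_ag
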