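import Pool.Agent.Lib.MP_5c318e_ag.Neu2A
import Pool.Agent.Lib.MP_5c318e_ag.Phi
import Pool.Agent.Lib.MP_5c318e_ag.Base
import Pool.Agent.Lib.MP_5c318e_ag.Neu1

/-! The dichotomy, from the neutrality criterion. -/

namespace Pool.Agent.Lib.MP_5c318e_ag

open scoped Classical NNReal

variable {Om : Type} [Field Om] [Algebra ℂ Om] [IsAlgClosed Om]

namespace Ctx0

variable (X : Ctx0 Om)

theorem neutral_of_small {D : ℕ} (hD0 : 0 < D)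
    (hD : ∀ v : RV Om, ∀ y ∈ X.Mb1, ∃ f ∈ X.Mb, v y ^ D = v f)
    (h3 : ∃ a ∈ X.R, ∃ b ∈ X.R, ∃ c ∈ X.R, a ≠ b ∧ b ≠ c ∧ a ≠ c)
    {v : RV Om} (hv : X.Good v) (hK : Triv v X.Kb) (hE : ¬ Triv v X.E) {t : Om}
    (ht0 : t ≠ 0) (ht : v t < 1) (hg : Grp v X.Mb t) (hA : X.A v < (1 + 1 / X.m0) * w v t)
    (ho : ∀ a ∈ X.R, ∀ b ∈ X.R, a ≠ b → X.ord v a b < w v t / D) : X.Neutral v :=
  have h := X.neu_ord hD0 hD hv ht0 ht hg ho
  X.Neu2_main h3 hv hK hE ht0 ht hg hA h.1 h.2 fun _ _ _ ha hb hab hy0 hy =>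
    X.neu_grp hv.1 h.1 ha hb hab hy0 hy

end Ctx0

namespace Ctx

variable (X : Ctx Om)

theorem dich_of {D : ℕ} (hD0 : 0 < D)
    (hn : ∀ (v : RV Om) (t : Om), X.Good v → Triv v X.Kb → ¬ Triv v X.E → t ≠ 0 → v t < 1 →
      Grp v X.Mb t → X.A v < (1 + 1 / X.m0) * w v t →
      (∀ a ∈ X.R, ∀ b ∈ X.R, a ≠ b → X.ord v a b < w v t / D) → X.Neutral v) :
    ∃ c : ℝ, 0 < c ∧ ∀ P : X.Pt, c * X.A P.v ≤ X.S P ∨ X.Neutral P.v := by
  have hm : (0 : ℝ) < X.m0 := by exact_mod_cast X.m0pos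
  have hm1 : (1 : ℝ) ≤ X.m0 := by exact_mod_cast X.m0pos
  have hN := X.Phi_Nw_pos
  have hN1 : (1 : ℝ) ≤ X.Nw := by exact_mod_cast X.Nwpos
  have hD : (0 : ℝ) < D := by exact_mod_cast hD0
  have hD1 : (1 : ℝ) ≤ D := by exact_mod_cast hD0
  set c : ℝ := 1 / ((X.m0 + 1) * (D * X.Nw)) with hc
  have hDN : (1 : ℝ) ≤ D * X.Nw := by nlinarith
  have hc0 : 0 < c := by positivity
  have hc1 : c * (X.m0 + 1) ≤ 1 := by
    rw [hc, div_mul_eq_mul_div, one_mul, div_le_one (by positivity)]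
    nlinarith
  have hc2 : c * ((X.m0 + 1) * (D * X.Nw)) = 1 := by rw [hc]; field_simp
  refine ⟨c, hc0, fun P => ?_⟩
  have hv := Ctx0.pt_good P
  have hA := X.A_nonneg hv
  have hs := X.sord_nonneg X.adm_Ga hv
  have hs' : 0 ≤ X.sord X.Ga P.v / X.Nw := div_nonneg hs hN.le
  have hp := Ctx0.pt_p_pos P
  by_cases hK : Triv P.v X.K
  swap
  · have := X.S_vert X.adm_Ga P hK
    left
    rw [S]
    nlinarith
  by_cases hE : Triv P.v X.E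
  · left
    rw [X.A_zero hE, mul_zero]
    exact X.S_nonneg X.adm_Ga P
  have h1 := X.S_hor X.adm_Ga P hK
  have h2 := X.Phi_p_le_A P hK hE
  by_cases hA1 : X.A P.v < (1 + 1 / X.m0) * P.p
  swap
  · left
    rw [not_lt] at hA1
    have h3 : (X.m0 + 1) * P.p ≤ X.m0 * X.A P.v := by
      have : (X.m0 : ℝ) * ((1 + 1 / X.m0) * P.p) = (X.m0 + 1) * P.p := by field_simp
      nlinarith
    have h4 : X.A P.v ≤ (X.m0 + 1) * (X.A P.v - P.p) := by nlinarith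
    rw [S]
    nlinarith
  by_cases ho : ∀ a ∈ X.R, ∀ b ∈ X.R, a ≠ b → X.ord P.v a b < P.p / D
  · exact Or.inr (hn P.v (P.b P.i0) hv hK.toAcl hE P.div.2.1 P.div.2.2.1
      (Ctx0.pt_hor_grp P hK) hA1 ho)
  left
  push Not at ho
  obtain ⟨a, ha, b, hb, hab, ho⟩ := ho
  have h3 := X.ord_le_S P hE ha hb hab
  have h4 : P.p ≤ D * X.Nw * X.S P := by
    rw [div_le_iff₀ hD] at ho
    nlinarith
  have h5 : X.A P.v ≤ (X.m0 + 1) * P.p := by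
    have : 1 / (X.m0 : ℝ) ≤ X.m0 := by rw [div_le_iff₀ hm]; nlinarith
    nlinarith
  calc c * X.A P.v ≤ c * ((X.m0 + 1) * (D * X.Nw * X.S P)) := by gcongr; nlinarith
    _ = c * ((X.m0 + 1) * (D * X.Nw)) * X.S P := by ring
    _ = X.S P := by rw [hc2, one_mul]

omit [IsAlgClosed Om] in
theorem three : ∃ a ∈ X.R, ∃ b ∈ X.R, ∃ c ∈ X.R, a ≠ b ∧ b ≠ c ∧ a ≠ c :=
  ⟨X.ra, X.ra.2, X.rb, X.rb.2, X.rc, X.rc.2, fun e => X.ab (Subtype.ext e),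
    fun e => X.bc (Subtype.ext e), fun e => X.ac (Subtype.ext e)⟩

theorem dich : ∃ c : ℝ, 0 < c ∧ ∀ P : X.Pt, c * X.A P.v ≤ X.S P ∨ X.Neutral P.v := by
  obtain ⟨D, hD0, hD⟩ := X.idx_Mb1
  exact X.dich_of hD0 fun _ _ hv hK hE ht0 ht hg hA ho =>
    X.neutral_of_small hD0 hD X.three hv hK hE ht0 ht hg hA ho

end Ctx

end Pool.Agent.Lib.MP_5c318e_ag
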