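import Mathlib
import Pool.Agent.Lib.MP_5c318e_ag.Sym

/-!
Toolkit CONJ: two valuations of `Om` that agree on `N ∩ F` are conjugate on `N` under
`Aut(Om / F)`, for `Om / F` algebraic and `N` any subfield stable under `Aut(Om / F)`.
-/

namespace Pool.Agent.Lib.MP_5c318e_ag

open Polynomial
open scoped Pointwise

variable {Om G : Type*} [Field Om] [LinearOrderedCommGroupWithZero G]

/-- A normalised relation: coefficients in `F0` of value at most one, the last coefficient of value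
one has index `j`. -/
theorem conj_rel (F0 : Subfield Om) (v : Valuation Om G) (P : Om[X]) (hP : P ≠ 0)
    (hc : ∀ i, P.coeff i ∈ F0) (y : Om) (hy : P.eval y = 0) :
    ∃ (n j : ℕ) (a : ℕ → Om), j ≤ n ∧ (∀ i, a i ∈ F0) ∧ (∀ i, v (a i) ≤ 1) ∧ v (a j) = 1 ∧
      (∀ i, j < i → v (a i) < 1) ∧ ∑ i ∈ Finset.range (n + 1), a i * y ^ i = 0 := by
  classical
  obtain ⟨i0, hi0, hmax⟩ := Finset.exists_max_image P.support (fun i => v (P.coeff i))
    (support_nonempty.2 hP)
  have hc0 : P.coeff i0 ≠ 0 := mem_support_iff.1 hi0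
  have hv0 : v (P.coeff i0) ≠ 0 := (Valuation.ne_zero_iff v).2 hc0
  have hle : ∀ i, v (P.coeff i / P.coeff i0) ≤ 1 := by
    intro i
    rw [map_div₀, div_le_one₀ (zero_lt_iff.2 hv0)]
    by_cases hi : i ∈ P.support
    · exact hmax i hi
    · rw [notMem_support_iff.1 hi, map_zero]
      exact zero_le
  let T := (Finset.range (P.natDegree + 1)).filter fun i => v (P.coeff i / P.coeff i0) = 1
  have hT : T.Nonempty := ⟨i0, by
    simp only [T, Finset.mem_filter, Finset.mem_range]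
    exact ⟨Nat.lt_succ_of_le (le_natDegree_of_ne_zero hc0), by rw [div_self hc0, map_one]⟩⟩
  have hj := T.max'_mem hT
  simp only [T, Finset.mem_filter, Finset.mem_range] at hj
  refine ⟨P.natDegree, T.max' hT, fun i => P.coeff i / P.coeff i0, Nat.le_of_lt_succ hj.1,
    fun i => F0.div_mem (hc i) (hc i0), hle, hj.2, fun i hi => ?_, ?_⟩
  · refine lt_of_le_of_ne (hle i) fun h => ?_
    by_cases hin : i < P.natDegree + 1
    · have : i ∈ T := by
        simp only [T, Finset.mem_filter, Finset.mem_range]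
        exact ⟨hin, h⟩
      exact absurd (T.le_max' i this) (not_le.2 hi)
    · have hz : P.coeff i = 0 := coeff_eq_zero_of_natDegree_lt (by omega)
      change v (P.coeff i / P.coeff i0) = 1 at h
      rw [hz, zero_div, map_zero] at h
      exact zero_ne_one h
  · rw [eval_eq_sum_range] at hy
    have : ∑ i ∈ Finset.range (P.natDegree + 1), P.coeff i / P.coeff i0 * y ^ i =
        (P.coeff i0)⁻¹ * ∑ i ∈ Finset.range (P.natDegree + 1), P.coeff i * y ^ i := by
      rw [Finset.mul_sum]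
      exact Finset.sum_congr rfl fun i _ => by ring
    rw [this, hy, mul_zero]

/-- The universal denominator `s` of `y`: `s` and `s * y` are integral for every valuation that is
at most one on the coefficients. -/
theorem conj_den (u : Valuation Om G) {n j : ℕ} (hj : j ≤ n) (a : ℕ → Om) (ha : ∀ i, u (a i) ≤ 1)
    (y : Om) (h : ∑ i ∈ Finset.range (n + 1), a i * y ^ i = 0) :
    u (∑ i ∈ Finset.range (n + 1 - j), a (j + i) * y ^ i) ≤ 1 ∧
      u ((∑ i ∈ Finset.range (n + 1 - j), a (j + i) * y ^ i) * y) ≤ 1 := by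
  set s := ∑ i ∈ Finset.range (n + 1 - j), a (j + i) * y ^ i with hs
  rcases le_or_gt (u y) 1 with hy | hy
  · have h1 : u s ≤ 1 := by
      refine u.map_sum_le fun i _ => ?_
      rw [map_mul, map_pow]
      exact mul_le_one' (ha _) (pow_le_one' hy _)
    exact ⟨h1, by rw [map_mul]; exact mul_le_one' h1 hy⟩
  · have hsplit : ∑ i ∈ Finset.range j, a i * y ^ i + s * y ^ j = 0 := by
      rw [← h, show n + 1 = j + (n + 1 - j) by omega, Finset.sum_range_add, hs, Finset.sum_mul]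
      congr 1
      exact Finset.sum_congr rfl fun i _ => by ring
    have hy0 : u y ≠ 0 := (zero_lt_one.trans hy).ne'
    have h2 : u (s * y) * u y ^ j ≤ u y ^ j := by
      have he : s * y * y ^ j = -∑ i ∈ Finset.range j, a i * y ^ (i + 1) := by
        have : ∑ i ∈ Finset.range j, a i * y ^ (i + 1) =
            (∑ i ∈ Finset.range j, a i * y ^ i) * y := by
          rw [Finset.sum_mul]
          exact Finset.sum_congr rfl fun i _ => by ring
        rw [this]
        linear_combination y * hsplit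
      rw [← map_pow, ← map_mul, he, Valuation.map_neg, map_pow]
      refine u.map_sum_le fun i hi => ?_
      rw [map_mul, map_pow]
      calc u (a i) * u y ^ (i + 1) ≤ 1 * u y ^ j :=
            mul_le_mul' (ha i) (pow_le_pow_right₀ hy.le (Finset.mem_range.1 hi))
        _ = u y ^ j := one_mul _
    have h3 : u (s * y) ≤ 1 := by
      have hpos : 0 < u y ^ j := pow_pos (zero_lt_iff.2 hy0) j
      exact (mul_le_iff_le_one_left hpos).1 h2
    refine ⟨?_, h3⟩
    rw [map_mul] at h3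
    calc u s = u s * 1 := (mul_one _).symm
      _ ≤ u s * u y := mul_le_mul_right hy.le _
      _ ≤ 1 := h3

theorem conj_den_unit (u : Valuation Om G) {n j : ℕ} (hj : j ≤ n) (a : ℕ → Om)
    (haj : u (a j) = 1) (hlt : ∀ i, j < i → u (a i) < 1) (y : Om) (hy : u y ≤ 1) :
    u (∑ i ∈ Finset.range (n + 1 - j), a (j + i) * y ^ i) = 1 := by
  rw [show n + 1 - j = (n - j) + 1 by omega, Finset.sum_range_succ', add_zero, pow_zero, mul_one,
    add_comm, u.map_add_eq_of_lt_left, haj]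
  rw [haj]
  refine u.map_sum_lt one_ne_zero fun i _ => ?_
  rw [map_mul, map_pow]
  exact mul_lt_one_of_lt_of_le (hlt _ (by omega)) (pow_le_one' hy _)

/-- Two valuations that agree on `F0`, with nested valuation rings on `N`, agree on the elements
of `N` algebraic over `F0`. -/
theorem conj_eq_of_le (F0 N : Subfield Om) (hFN : F0 ≤ N) (u u' : Valuation Om G)
    (h0 : ∀ f ∈ F0, u f = u' f) (hle : ∀ y ∈ N, u' y ≤ 1 → u y ≤ 1) (y : Om) (hyN : y ∈ N)
    (P : Om[X]) (hP : P ≠ 0) (hc : ∀ i, P.coeff i ∈ F0) (hy : P.eval y = 0) : u y = u' y := by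
  classical
  by_cases hy0 : y = 0
  · rw [hy0, map_zero, map_zero]
  have hunit : ∀ z ∈ N, u' z = 1 → u z = 1 := by
    intro z hz h1
    have hz0 : z ≠ 0 := by
      rintro rfl
      rw [map_zero] at h1
      exact zero_ne_one h1
    have h2 := hle z⁻¹ (N.inv_mem hz) (by rw [map_inv₀, h1, inv_one])
    rw [map_inv₀, inv_le_one₀ (zero_lt_iff.2 ((Valuation.ne_zero_iff u).2 hz0))] at h2
    exact le_antisymm (hle z hz h1.le) h2
  obtain ⟨i0, hi0, hmax⟩ := Finset.exists_max_image P.support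
    (fun i => u' (P.coeff i * y ^ i)) (support_nonempty.2 hP)
  have hc0 : P.coeff i0 ≠ 0 := mem_support_iff.1 hi0
  have ht0 : u' (P.coeff i0 * y ^ i0) ≠ 0 :=
    (Valuation.ne_zero_iff u').2 (mul_ne_zero hc0 (pow_ne_zero _ hy0))
  have hex : ∃ i ∈ P.support, i ≠ i0 ∧ u' (P.coeff i * y ^ i) = u' (P.coeff i0 * y ^ i0) := by
    by_contra hne
    push Not at hne
    rw [eval_eq_sum, Polynomial.sum_def, ← Finset.add_sum_erase _ _ hi0] at hy
    have hlt : u' (∑ i ∈ P.support.erase i0, P.coeff i * y ^ i) < u' (P.coeff i0 * y ^ i0) :=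
      u'.map_sum_lt ht0 fun i hi =>
        lt_of_le_of_ne (hmax i (Finset.mem_of_mem_erase hi))
          (hne i (Finset.mem_of_mem_erase hi) (Finset.ne_of_mem_erase hi))
    have := u'.map_add_eq_of_lt_left hlt
    rw [hy, map_zero] at this
    exact ht0 this.symm
  obtain ⟨i, hi, hii, he⟩ := hex
  have hci : P.coeff i ≠ 0 := mem_support_iff.1 hi
  have hz := hunit ((P.coeff i * y ^ i) / (P.coeff i0 * y ^ i0))
    (N.div_mem (N.mul_mem (hFN (hc i)) (N.pow_mem hyN _))
      (N.mul_mem (hFN (hc i0)) (N.pow_mem hyN _))) (by rw [map_div₀, he, div_self ht0])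
  have hu0 : u (P.coeff i0 * y ^ i0) ≠ 0 :=
    (Valuation.ne_zero_iff u).2 (mul_ne_zero hc0 (pow_ne_zero _ hy0))
  rw [map_div₀, div_eq_one_iff_eq hu0] at hz
  simp only [map_mul, map_pow] at hz he
  rw [h0 _ (hc i), h0 _ (hc i0)] at hz
  have ha : u' (P.coeff i) ≠ 0 := (Valuation.ne_zero_iff u').2 hci
  have hb : u' (P.coeff i0) ≠ 0 := (Valuation.ne_zero_iff u').2 hc0
  have hp : u y ≠ 0 := (Valuation.ne_zero_iff u).2 hy0
  have hq : u' y ≠ 0 := (Valuation.ne_zero_iff u').2 hy0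
  have key : (u y / u' y) ^ i = (u y / u' y) ^ i0 := by
    rw [div_pow, div_pow, div_eq_div_iff (pow_ne_zero _ hq) (pow_ne_zero _ hq)]
    apply mul_left_cancel₀ (mul_ne_zero ha hb)
    calc u' (P.coeff i) * u' (P.coeff i0) * (u y ^ i * u' y ^ i0)
        = (u' (P.coeff i) * u y ^ i) * (u' (P.coeff i0) * u' y ^ i0) := by ac_rfl
      _ = (u' (P.coeff i0) * u y ^ i0) * (u' (P.coeff i) * u' y ^ i) := by rw [hz, he]
      _ = u' (P.coeff i) * u' (P.coeff i0) * (u y ^ i0 * u' y ^ i) := by ac_rfl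
  have hr0 : 0 < u y / u' y := zero_lt_iff.2 (div_ne_zero hp hq)
  have hr : u y / u' y = 1 := by
    by_contra hne
    exact hii (pow_right_injective₀ hr0 hne key)
  exact (div_eq_one_iff_eq hq).1 hr

/-- The ring of elements of `N` all of whose conjugates are integral for `v` and `v'`. -/
def conjRing (F N : Subfield Om) (v v' : Valuation Om G) : Subring Om where
  carrier := {y | y ∈ N ∧ ∀ σ : Om ≃ₐ[F] Om, v (σ y) ≤ 1 ∧ v' (σ y) ≤ 1}
  mul_mem' := fun {a b} ha hb => ⟨N.mul_mem ha.1 hb.1, fun σ => by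
    simp only [map_mul]
    exact ⟨mul_le_one' (ha.2 σ).1 (hb.2 σ).1, mul_le_one' (ha.2 σ).2 (hb.2 σ).2⟩⟩
  one_mem' := ⟨N.one_mem, fun σ => by simp⟩
  add_mem' := fun {a b} ha hb => ⟨N.add_mem ha.1 hb.1, fun σ => by
    simp only [map_add σ]
    exact ⟨v.map_add_le (ha.2 σ).1 (hb.2 σ).1, v'.map_add_le (ha.2 σ).2 (hb.2 σ).2⟩⟩
  zero_mem' := ⟨N.zero_mem, fun σ => by simp⟩
  neg_mem' := fun {a} ha => ⟨N.neg_mem ha.1, fun σ => by
    simp only [map_neg σ, Valuation.map_neg]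
    exact ha.2 σ⟩

/-- The centre of a valuation on a subring of its valuation ring. -/
def conjIdeal (B : Subring Om) (u : Valuation Om G) (hB : ∀ y ∈ B, u y ≤ 1) : Ideal B where
  carrier := {y | u y < 1}
  add_mem' := fun {a b} ha hb => u.map_add_lt ha hb
  zero_mem' := by simp
  smul_mem' := fun c x hx => by
    change u ((c : Om) * x) < 1
    rw [map_mul]
    exact lt_of_le_of_lt (mul_le_of_le_one_left' (hB c c.2)) hx

theorem conjIdeal_prime (B : Subring Om) (u : Valuation Om G) (hB : ∀ y ∈ B, u y ≤ 1) :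
    (conjIdeal B u hB).IsPrime := by
  refine ⟨?_, ?_⟩
  · rw [Ideal.ne_top_iff_one]
    change ¬ u ((1 : B) : Om) < 1
    simp
  · intro a b hab
    change u ((a : Om) * b) < 1 at hab
    change u (a : Om) < 1 ∨ u (b : Om) < 1
    by_contra hne
    push Not at hne
    rw [map_mul, le_antisymm (hB a a.2) hne.1, le_antisymm (hB b b.2) hne.2, one_mul] at hab
    exact lt_irrefl _ hab

theorem conj_centre [IsAlgClosed Om] [CharZero Om] (F : Subfield Om)
    (halg : Algebra.IsAlgebraic F Om) (N : Subfield Om)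
    (hN : ∀ σ : Om ≃ₐ[F] Om, ∀ y ∈ N, σ y ∈ N) (v v' : Valuation Om G)
    (hv : ∀ y ∈ N, y ∈ F → v y = v' y) :
    ∃ σ : Om ≃ₐ[F] Om, ∀ y ∈ conjRing F N v v', v y < 1 ↔ v' (σ y) < 1 := by
  have := isGalois_of_alg F halg
  let B := conjRing F N v v'
  have hinv : IsInvariantSubring (Om ≃ₐ[F] Om) B := ⟨fun σ y hy =>
    ⟨hN σ y hy.1, fun τ => hy.2 (τ * σ)⟩⟩
  let A : Subring B := FixedPoints.subring B (Om ≃ₐ[F] Om)
  let _ : TopologicalSpace B := ⊥
  have : DiscreteTopology B := ⟨rfl⟩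
  have : ContinuousSMul (Om ≃ₐ[F] Om) B := by
    rw [continuousSMul_iff_stabilizer_isOpen]
    intro x
    have h := stabilizer_isOpen_of_isIntegral (K := F) (x : Om)
    convert h using 1
    ext σ
    simp only [SetLike.mem_coe, MulAction.mem_stabilizer_iff]
    exact Subtype.ext_iff
  have : SMulCommClass (Om ≃ₐ[F] Om) A B := ⟨fun σ a b => by
    change σ • ((a : B) * b) = (a : B) * σ • b
    rw [smul_mul', a.2 σ]⟩
  have : Algebra.IsInvariant A B (Om ≃ₐ[F] Om) := ⟨fun b hb => ⟨⟨b, hb⟩, rfl⟩⟩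
  have h1 : ∀ y ∈ B, v y ≤ 1 := fun y hy => (hy.2 1).1
  have h2 : ∀ y ∈ B, v' y ≤ 1 := fun y hy => (hy.2 1).2
  have := conjIdeal_prime B v h1
  have := conjIdeal_prime B v' h2
  obtain ⟨g, hg⟩ := Algebra.IsInvariant.exists_smul_of_under_eq_of_profinite (A := A)
    (G := Om ≃ₐ[F] Om) (conjIdeal B v h1) (conjIdeal B v' h2) (by
      ext a
      change v ((a : B) : Om) < 1 ↔ v' ((a : B) : Om) < 1
      rw [hv _ (a : B).2.1 (mem_of_fixed F halg _ fun σ => congrArg Subtype.val (a.2 σ))])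
  refine ⟨g, fun y hy => ?_⟩
  have h3 : g • (⟨y, hy⟩ : B) ∈ conjIdeal B v' h2 ↔ (⟨y, hy⟩ : B) ∈ conjIdeal B v h1 := by
    rw [hg]
    exact Ideal.smul_mem_pointwise_smul_iff
  exact h3.symm

/-- CONJ. -/
theorem conj [IsAlgClosed Om] [CharZero Om] (F : Subfield Om)
    (halg : Algebra.IsAlgebraic F Om) (N : Subfield Om)
    (hN : ∀ σ : Om ≃ₐ[F] Om, ∀ y ∈ N, σ y ∈ N) (v v' : Valuation Om G)
    (hv : ∀ y ∈ N, y ∈ F → v y = v' y) :
    ∃ σ : Om ≃ₐ[F] Om, ∀ y ∈ N, v' (σ y) = v y := by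
  obtain ⟨σ, hσ⟩ := conj_centre F halg N hN v v' hv
  let u : Valuation Om G := v'.comap (σ : Om →+* Om)
  have hu : ∀ y, u y = v' (σ y) := fun _ => rfl
  have hrel : ∀ y ∈ N, ∃ P : Om[X], P ≠ 0 ∧ (∀ i, P.coeff i ∈ N ⊓ F) ∧ P.eval y = 0 := by
    intro y hy
    have hint : IsIntegral F y := (halg.isAlgebraic y).isIntegral
    refine ⟨(minpoly F y).map (algebraMap F Om), ((minpoly.monic hint).map _).ne_zero,
      fun i => ?_, by rw [eval_map_algebraMap, minpoly.aeval]⟩
    rw [coeff_map]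
    exact ⟨sym F halg N.toSubring y (fun τ => hN τ y hy) i, ((minpoly F y).coeff i).2⟩
  have h0 : ∀ f ∈ N ⊓ F, u f = v f := fun f hf => by
    rw [hu, aut_fix F σ hf.2, hv f hf.1 hf.2]
  refine ⟨σ, fun y hy => ?_⟩
  obtain ⟨P, hP, hc, hPy⟩ := hrel y hy
  refine conj_eq_of_le (N ⊓ F) N inf_le_left u v h0 ?_ y hy P hP hc hPy
  intro z hz hvz
  obtain ⟨P, hP, hc, hPz⟩ := hrel z hz
  obtain ⟨n, j, a, hj, haF, ha, haj, hlt, hsum⟩ := conj_rel (N ⊓ F) v P hP hc z hPz
  set s := ∑ i ∈ Finset.range (n + 1 - j), a (j + i) * z ^ i with hs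
  have hsN : s ∈ N := sum_mem fun i _ => N.mul_mem (haF _).1 (N.pow_mem hz _)
  have hall : ∀ τ : Om ≃ₐ[F] Om, (v (τ s) ≤ 1 ∧ v (τ (s * z)) ≤ 1) ∧
      (v' (τ s) ≤ 1 ∧ v' (τ (s * z)) ≤ 1) := fun τ =>
    ⟨conj_den (v.comap (τ : Om →+* Om)) hj a (fun i => by
        change v (τ (a i)) ≤ 1
        rw [aut_fix F τ (haF i).2]
        exact ha i) z hsum,
      conj_den (v'.comap (τ : Om →+* Om)) hj a (fun i => by
        change v' (τ (a i)) ≤ 1
        rw [aut_fix F τ (haF i).2, ← hv _ (haF i).1 (haF i).2]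
        exact ha i) z hsum⟩
  have hsB : s ∈ conjRing F N v v' := ⟨hsN, fun τ => ⟨(hall τ).1.1, (hall τ).2.1⟩⟩
  have hs1 : v s = 1 := conj_den_unit v hj a haj hlt z hvz
  have hs2 : v' (σ s) = 1 := by
    refine le_antisymm (hall σ).2.1 (not_lt.1 fun h => ?_)
    exact absurd ((hσ s hsB).2 h) (by rw [hs1]; exact lt_irrefl _)
  have h3 := (hall σ).2.2
  rw [map_mul, map_mul, hs2, one_mul] at h3
  exact h3

/-- CONJ on all of `Om`. -/
theorem conj_top [IsAlgClosed Om] [CharZero Om] (F : Subfield Om)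
    (halg : Algebra.IsAlgebraic F Om) (v v' : Valuation Om G) (hv : ∀ y ∈ F, v y = v' y) :
    ∃ σ : Om ≃ₐ[F] Om, ∀ y, v' (σ y) = v y := by
  obtain ⟨σ, hσ⟩ := conj F halg ⊤ (fun _ _ _ => trivial) v v' fun y _ hy => hv y hy
  exact ⟨σ, fun y => hσ y trivial⟩

end Pool.Agent.Lib.MP_5c318e_ag
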