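import Pool.Agent.Lib.MP_5c318e_ag.Base
import Pool.Agent.Lib.MP_5c318e_ag.Conj

/-! Stability of the neutral package under automorphisms and scaling. -/

namespace Pool.Agent.Lib.MP_5c318e_ag

open scoped Classical NNReal
open Polynomial

variable {Om : Type} [Field Om] [Algebra ℂ Om] [IsAlgClosed Om]

section Agree

omit [Algebra ℂ Om] [IsAlgClosed Om]

variable {v v' : RV Om} {F : Subfield Om} {z : Om}

theorem NStab_mono {F' : Subfield Om} (h : Gs v F z) (hle : F' ≤ F) : Gs v F' z :=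
  ⟨h.1, fun p hp => h.2 p fun i => hle (hp i)⟩

theorem NStab_poly {y : Om} (hy : y ∈ Subring.closure ((F : Set Om) ∪ {z})) :
    ∃ p : Om[X], (∀ i, p.coeff i ∈ F) ∧ p.eval z = y := by
  have h1 : y ∈ Algebra.adjoin F ({z} : Set Om) := by
    rw [← Subalgebra.mem_toSubring, Algebra.adjoin_eq_ring_closure]
    refine Subring.closure_mono (Set.union_subset_union_left _ ?_) hy
    exact fun a ha => ⟨⟨a, ha⟩, rfl⟩
  rw [Algebra.adjoin_singleton_eq_range_aeval] at h1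
  obtain ⟨p, rfl⟩ := h1
  exact ⟨p.map (algebraMap F Om), fun i => by rw [coeff_map]; exact Subtype.prop _,
    eval_map_algebraMap p z⟩

theorem NStab_agree (h : Gs v F z) (h' : Gs v' F z) (he : ∀ y ∈ F, v y = v' y) :
    ∀ y ∈ adj F {z}, v y = v' y := by
  have key : ∀ y ∈ Subring.closure ((F : Set Om) ∪ {z}), v y = v' y := fun y hy => by
    obtain ⟨p, hp, rfl⟩ := NStab_poly hy
    obtain ⟨j, hj⟩ := exists_max_coeff v p
    have h1 : v (p.eval z) = v (p.coeff j) := le_antisymm (v_eval_le v h.1 hj) (h.2 p hp j)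
    have h2 : v' (p.eval z) = v' (p.coeff j) := le_antisymm
      (v_eval_le v' h'.1 fun i => by rw [← he _ (hp i), ← he _ (hp j)]; exact hj i) (h'.2 p hp j)
    rw [h1, h2, he _ (hp j)]
  intro y hy
  obtain ⟨a, ha, b, hb, rfl⟩ := Subfield.mem_closure_iff.1 hy
  rw [map_div₀, map_div₀, key a ha, key b hb]

end Agree

namespace Ctx0

variable (X : Ctx0 Om)

omit [IsAlgClosed Om] in
theorem NStab_fix (g : Om ≃ₐ[X.Ex] Om) {y : Om} (hy : y ∈ X.E) : g y = y :=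
  g.commutes (⟨y, le_adj _ _ hy⟩ : X.Ex)

omit [IsAlgClosed Om] in
theorem NStab_T {u : Om} (hu : u ∈ X.T) : u ∈ X.E :=
  (Subring.closure_le (t := X.E.toSubring)).2
    (Set.union_subset (fun _ h => (le_sup_left : X.L ≤ X.E) h)
      fun _ h => (le_sup_right : X.Kp ≤ X.E) h) hu

theorem TypeA.aut {X : Ctx0 Om} {v : RV Om} (h : X.TypeA v) (g : Om ≃ₐ[X.Ex] Om) :
    X.TypeA (vaut v g) := by
  obtain ⟨h1, ⟨P, hP, h2⟩, h3⟩ := h
  refine ⟨fun u hu h0 => ?_, ⟨P, hP, fun u => ?_⟩, fun y hy => ?_⟩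
  · rw [vaut_apply, X.NStab_fix g ((le_sup_left : X.L ≤ X.E) hu)]
    exact h1 u hu h0
  · rw [vaut_apply, X.NStab_fix g (X.NStab_T u.2)]
    exact h2 u
  · obtain ⟨u, hu, e⟩ := h3 _ (X.aut_N1 g hy)
    exact ⟨u, hu, by rw [vaut_apply, vaut_apply, X.NStab_fix g hu, e]⟩

omit [IsAlgClosed Om] in
theorem TypeB.aut {X : Ctx0 Om} {v : RV Om} (h : X.TypeB v) (g : Om ≃ₐ[X.Ex] Om) :
    X.TypeB (vaut v g) := fun m a b ha hb hi i => by
  have h1 : ∀ j, a j ∈ X.E := fun j => (le_sup_left : X.L ≤ X.E) (ha j)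
  have h2 : ∀ j, b j ∈ X.E := fun j => (le_sup_right : X.Kp ≤ X.E) (hb j)
  rw [vaut_apply, vaut_apply, X.NStab_fix g (h1 i),
    X.NStab_fix g (sum_mem fun j _ => mul_mem (h1 j) (h2 j))]
  exact h m a b ha hb hi i

theorem NStab_zz (g : Om ≃ₐ[X.Ex] Om) (a b c : Om) :
    g (X.zz a b c) = X.zz (g a) (g b) (g c) := by
  rw [zz, map_div₀, X.aut_be, X.aut_be, zz]

theorem Neutral.aut {X : Ctx0 Om} {v : RV Om} (h : X.Neutral v) (g : Om ≃ₐ[X.Ex] Om) :
    X.Neutral (vaut v g) := by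
  have hR := X.ram.stab g
  refine ⟨fun u hu h0 => ?_, fun a ha b hb a' ha' b' hb' h1 h2 => ?_,
    fun a ha b hb c hc h1 h2 h3 => ?_, fun a ha b hb h1 m ψ hψ => ?_,
    h.type.imp (·.aut g) (·.aut g)⟩
  · exact h.triv _ (X.aut_Kb g hu) (by simpa using h0)
  · rw [vaut_apply, vaut_apply, X.aut_be, X.aut_be]
    exact h.beq _ (hR a ha) _ (hR b hb) _ (hR a' ha') _ (hR b' hb') (g.injective.ne h1)
      (g.injective.ne h2)
  · obtain ⟨h4, h5⟩ := h.gs _ (hR a ha) _ (hR b hb) _ (hR c hc) (g.injective.ne h1)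
      (g.injective.ne h2) (g.injective.ne h3)
    rw [← X.NStab_zz] at h4 h5
    refine ⟨h4, fun p hp i => ?_⟩
    have := h5 (p.map (g : Om →+* Om)) (fun i => by rw [coeff_map]; exact X.aut_F1 g (hp i)) i
    rw [coeff_map, eval_map] at this
    exact this.trans_eq (congrArg v (eval₂_at_apply (g : Om →+* Om) _))
  · rw [vaut_apply, vaut_apply, vaut_apply, X.aut_be, X.NStab_fix g X.g0E]
    exact h.reg _ (hR a ha) _ (hR b hb) (g.injective.ne h1) m _ (hψ.aut g)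

end Ctx0

section Pow

omit [Algebra ℂ Om] [IsAlgClosed Om]

variable {v : RV Om} {l : ℝ} (hl : 0 < l)

theorem NStab_le {x y : Om} (h : v x ≤ v y) : vpow v l hl x ≤ vpow v l hl y :=
  NNReal.rpow_le_rpow h hl.le

theorem NStab_eq {x y : Om} (h : v x = v y) : vpow v l hl x = vpow v l hl y := by
  rw [vpow_apply, vpow_apply, h]

theorem NStab_lt {x : Om} : vpow v l hl x < 1 ↔ v x < 1 := by
  rw [vpow_apply]
  conv_lhs => rw [← NNReal.one_rpow l]
  exact NNReal.rpow_lt_rpow_iff hl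

theorem NStab_triv {F : Subfield Om} (h : Triv v F) : Triv (vpow v l hl) F := fun u hu h0 => by
  rw [vpow_apply, h u hu h0, NNReal.one_rpow]

end Pow

namespace Ctx0

variable (X : Ctx0 Om)

omit [IsAlgClosed Om] in
theorem TypeA.rpow {X : Ctx0 Om} {v : RV Om} (h : X.TypeA v) (l : ℝ) (hl : 0 < l) :
    X.TypeA (vpow v l hl) := by
  obtain ⟨h1, ⟨P, hP, h2⟩, h3⟩ := h
  refine ⟨NStab_triv hl h1, ⟨P, hP, fun u => (NStab_lt hl).trans (h2 u)⟩, fun y hy => ?_⟩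
  obtain ⟨u, hu, e⟩ := h3 y hy
  exact ⟨u, hu, NStab_eq hl e⟩

omit [IsAlgClosed Om] in
theorem Neutral.rpow {X : Ctx0 Om} {v : RV Om} (h : X.Neutral v) (l : ℝ) (hl : 0 < l) :
    X.Neutral (vpow v l hl) := by
  refine ⟨NStab_triv hl h.triv, fun a ha b hb a' ha' b' hb' h1 h2 =>
    NStab_eq hl (h.beq a ha b hb a' ha' b' hb' h1 h2), fun a ha b hb c hc h1 h2 h3 => ?_,
    fun a ha b hb h1 m ψ hψ => ?_,
    h.type.imp (·.rpow l hl) fun hB m a b ha hb hi i => NStab_le hl (hB m a b ha hb hi i)⟩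
  · obtain ⟨h4, h5⟩ := h.gs a ha b hb c hc h1 h2 h3
    refine ⟨?_, fun p hp i => NStab_le hl (h5 p hp i)⟩
    simpa using NStab_le hl (x := X.zz a b c) (y := 1) (by simpa using h4)
  · have := NStab_le (v := v) hl (x := ψ ^ X.m0) (y := (X.g0 * X.be a b ^ X.m0) ^ m)
      (by simpa using h.reg a ha b hb h1 m ψ hψ)
    simpa using this

theorem typeA_transfer {v v' : RV Om} (hn : X.Neutral v') (hA : X.TypeA v')
    (he : ∀ y ∈ X.E, v y = v' y) {a b c : Om} (ha : a ∈ X.R) (hb : b ∈ X.R) (hc : c ∈ X.R)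
    (hab : a ≠ b) (hbc : b ≠ c) (hac : a ≠ c) (hg : Gs v X.E1 (X.zz a b c)) : X.TypeA v := by
  have : CharZero Om := charZero_of_algebra
  have halg := isAlgebraic_of_acl X.alg_Ex
  obtain ⟨σ, hσ⟩ := conj X.Ex halg X.Eb (fun g _ hy => X.aut_Eb g hy) v v'
    fun y hy hy' => he y (X.Ex_inf_Eb hy' hy)
  have hE1 : X.E1 ≤ X.Eb := adj_le (le_acl _) X.ram.mem
  have hF1 : X.E1 ≤ X.F1 := le_inf
    (adj_le ((X.E_le_N.trans X.N_le_Mb).trans (le_adj _ _)) fun _ hy => mem_adj _ hy) hE1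
  have h1 := NStab_agree hg (NStab_mono ((hn.aut σ).gs a ha b hb c hc hab hbc hac) hF1)
    fun y hy => (hσ y (hE1 hy)).symm
  have hle : X.Ex ≤ adj X.E1 {X.zz a b c} := by
    refine adj_le ((le_adj _ _).trans (le_adj _ _)) ?_
    rintro _ rfl
    exact X.x_mem_zz hE1 (mem_adj _ ha) (mem_adj _ hb) (mem_adj _ hc) hab hbc hac
  obtain ⟨τ, hτ⟩ := conj_top X.Ex halg v (vaut v' σ) fun y hy => h1 y (hle hy)
  have : v = vaut (vaut v' σ) τ := Valuation.ext fun y => (hτ y).symm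
  rw [this]
  exact (hA.aut σ).aut τ

end Ctx0

end Pool.Agent.Lib.MP_5c318e_ag
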