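import Pool.Agent.Lib.MP_5c318e_ag.Sec5B
import Pool.Agent.Lib.MP_5c318e_ag.OOQ
import Pool.Agent.Lib.MP_5c318e_ag.Dich
import Pool.Agent.Lib.MP_5c318e_ag.NStab

/-! Section 5 on the context, final shapes. -/

namespace Pool.Agent.Lib.MP_5c318e_ag

variable {Om : Type} [Field Om] [Algebra ℂ Om] [IsAlgClosed Om]

namespace Ctx

variable (X : Ctx Om)

theorem s5h : X.S5H where
  good P := Ctx0.pt_good P
  S0 P := X.S_nonneg X.adm_Ga P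
  dich := X.dich
  OOQ _ h := h.mem_Q
  ordS P h _ ha _ hb hab := X.ord_le_S P h ha hb hab
  naut _ h g := h.aut g

theorem spread1 {c : Om} (hc : c ∈ X.E) (h : ∀ v, X.Neutral v → v c ≤ 1) :
    c ∈ X.Q ⊔ X.Kb := X.s5h.spread1 hc h

theorem spread2 {c : Om} (hc : c ∈ X.E) (h : ∀ v, X.Neutral v → v c ≤ 1) (ho : X.OO c) :
    c ∈ X.L ⊔ X.K0 := X.s5h.spread2 hc h ho

theorem spread3 {d : Om} (hd : d ∈ X.T) (hd0 : d ≠ 0)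
    (h : ∀ v, X.Neutral v → X.TypeA v → v d = 1) :
    ∃ k ∈ X.Kp, k ≠ 0 ∧ d / k ∈ X.L ⊔ X.K0 := X.s5h.spread3 hd hd0 h

theorem spread1_alg {c : Om} (hc : c ∈ X.Eb) (h : ∀ v, X.Neutral v → v c ≤ 1) :
    c ∈ acl (X.Q ⊔ X.Kb) := X.s5h.spread1_alg hc h

theorem cross {a b c i : Om} (ha : a ∈ X.R) (hb : b ∈ X.R) (hc : c ∈ X.R) (hi : i ∈ X.R)
    (hbc : b ≠ c) (hia : i ≠ a) (hba : b ≠ a) (hic : i ≠ c) :
    X.be b c * X.be i a / (X.be b a * X.be i c) ∈ X.Q ∧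
      X.be b c * X.be i a / (X.be b a * X.be i c) ∈ acl (X.L ⊔ X.K0) :=
  X.s5h.cross ha hb hc hi hbc hia hba hic

theorem la_mem {ρ : Om} (h : ρ ∈ X.R) (hc : ρ ≠ X.rc) :
    X.la ρ ∈ X.Q ∧ X.la ρ ∈ acl (X.L ⊔ X.K0) ∧ X.la ρ ∈ X.E1 := X.s5h.la_mem h hc

theorem be_div_mem_kp {a b a' b' : Om} (ha : a ∈ X.R) (hb : b ∈ X.R) (ha' : a' ∈ X.R)
    (hb' : b' ∈ X.R) : X.be a b / X.be a' b' ∈ X.kp := X.s5h.be_div_mem_kp ha hb ha' hb'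

theorem aut_kp (g : Om ≃ₐ[X.Mb] Om) : ∀ y ∈ X.kp, g y ∈ X.kp := X.s5h.aut_kp g

end Ctx

end Pool.Agent.Lib.MP_5c318e_ag
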