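import Pool.Agent.Lib.MP_5c318e_ag.Sec7
import Pool.Agent.Lib.MP_5c318e_ag.Sec5B

/-! Section 7 from the facts collected in `S5H`. -/

namespace Pool.Agent.Lib.MP_5c318e_ag

variable {Om : Type} [Field Om] [Algebra ℂ Om] [IsAlgClosed Om]

theorem Ctx.var7_H (X : Ctx Om) (H : X.S5H) :
    ∃ S : Finset Om, X.Mb = adj X.Kb S ∧ LD X.K0 (adj X.K0 S) X.Kb :=
  X.var7_of (fun _ h hc => H.la_kp h hc) fun _ hd h0 h => H.spread3 hd h0 h

end Pool.Agent.Lib.MP_5c318e_ag
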