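import Pool.Agent.Lib.MP_5c318e_ag.Mk
import Pool.Agent.Lib.MP_5c318e_ag.Count
import Pool.Agent.Lib.MP_5c318e_ag.SprC
import Pool.Agent.Lib.MP_5c318e_ag.KodG
import Pool.Agent.Lib.MP_5c318e_ag.Hpoly
import Pool.Agent.Lib.MP_5c318e_ag.Var7

/-! Final assembly: the joint form and the inequality C+. -/

namespace Pool.Agent.Lib.MP_5c318e_ag
open IntermediateField
open scoped Classical

variable {Om : Type} [Field Om] [Algebra ℂ Om]

theorem Asm_acl (K : IntermediateField ℂ Om) : (aclC K).toSubfield = acl K.toSubfield := by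
  ext y
  rw [mem_acl]
  exact mem_algebraicClosure_iff (F := K)

theorem Asm_kod_ne {k F : Type} [Field k] [Field F] [Algebra k F] (h : (ratios k F).Nonempty) :
    kod k F = ((Algebra.trdeg k (adjoin k (ratios k F)) : Cardinal) : WithBot Cardinal) := by
  unfold kod; rw [if_pos h]

theorem Asm_kod_bot {k F : Type} [Field k] [Field F] [Algebra k F]
    (h : ¬ (ratios k F).Nonempty) : kod k F = ⊥ := by
  unfold kod; rw [if_neg h]

theorem Asm_range1 (K : IntermediateField ℂ Om) :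
    ((K.val : K →+* Om).comp (algebraMap ℂ K)).fieldRange = C0 Om := rfl

theorem Asm_range2 (K : IntermediateField ℂ Om) :
    (K.val : K →+* Om).fieldRange = K.toSubfield := by
  ext y; simp

theorem Asm_sup (A B : IntermediateField ℂ Om) :
    (A ⊔ B).toSubfield = A.toSubfield ⊔ B.toSubfield := IntermediateField.sup_toSubfield A B

theorem Asm_adj (A : IntermediateField ℂ Om) (S : Set Om) :
    (A ⊔ adjoin ℂ S).toSubfield = adj A.toSubfield S := by
  apply le_antisymm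
  · rw [Asm_sup]
    refine sup_le (le_adj _ _) ?_
    rw [adjoin_toSubfield]
    refine Subfield.closure_le.2 ?_
    rintro y (⟨c, rfl⟩ | hy)
    · exact le_adj _ _ (A.algebraMap_mem c)
    · exact mem_adj _ hy
  · exact adj_le (fun y hy => (le_sup_left : A ≤ A ⊔ adjoin ℂ S) hy)
      fun y hy => (le_sup_right : adjoin ℂ S ≤ A ⊔ adjoin ℂ S) (subset_adjoin ℂ S hy)

theorem Asm_kod_le (K K0 : IntermediateField ℂ Om) (h : ∀ y ∈ ratios ℂ K, (y : Om) ∈ K0) :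
    kod ℂ K ≤ ((Algebra.trdeg ℂ K0 : Cardinal) : WithBot Cardinal) := by
  by_cases hn : (ratios ℂ K).Nonempty
  · rw [Asm_kod_ne hn, WithBot.coe_le_coe]
    have h1 : ∀ y : adjoin ℂ (ratios ℂ K), ((y : K) : Om) ∈ K0 := fun y =>
      (adjoin_le_iff (T := K0.comap K.val)).2 h y.2
    let f : adjoin ℂ (ratios ℂ K) →ₐ[ℂ] K0 :=
      (K.val.comp (adjoin ℂ (ratios ℂ K)).val).codRestrict K0.toSubalgebra h1
    exact trdeg_le_of_injective f f.toRingHom.injective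
  · rw [Asm_kod_bot hn]; exact bot_le

theorem Asm_triv [IsAlgClosed Om] (K M : IntermediateField ℂ Om) (hM : M.FG) :
    DefinedOver (aclC K) (aclC K) (M ⊔ aclC K) := by
  obtain ⟨S, hS⟩ := hM
  refine ⟨S, by rw [hS, sup_comm], fun n b hb hi => ?_⟩
  have hsub : Subsingleton (Fin n) := ⟨fun i j => by
    by_contra hne
    have h0 := hi.ne_zero j
    have := hi.eq_of_smul_apply_eq_smul_apply (1 : aclC K) (⟨b i / b j, div_mem (hb i) (hb j)⟩ :
      aclC K) i j one_ne_zero (by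
        rw [one_smul]; change b i = b i / b j * b j; rw [div_mul_cancel₀ _ h0])
    exact hne this⟩
  exact linearIndependent_subsingleton_index_iff _ |>.2 fun i => hi.ne_zero i

/-- the joint form -/
theorem joint (Om : Type) [Field Om] [Algebra ℂ Om] [IsAlgClosed Om]
    (K M K' L L1 : IntermediateField ℂ Om) (x : Om)
    (hM : M.FG) (hKM : K ≤ M) (hOm : Algebra.IsAlgebraic M Om)
    (hK' : aclC K' = aclC K)
    (hLL1 : L ≤ L1) (hL1a : L1 ≤ aclC L) (hL1M : L1 ≤ M ⊔ aclC K)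
    (hfree : L.LinearDisjoint K')
    (hufd : UniqueFactorizationMonoid (L.toSubalgebra ⊔ K'.toSubalgebra : Subalgebra ℂ Om))
    (hA : HasRegularForm ℂ L1)
    (hx : Transcendental (L ⊔ K' : IntermediateField ℂ Om) x)
    (N : IntermediateField (L ⊔ K' ⊔ ℂ⟮x⟯ : IntermediateField ℂ Om) Om)
    [FiniteDimensional (L ⊔ K' ⊔ ℂ⟮x⟯ : IntermediateField ℂ Om) N]
    [IsGalois (L ⊔ K' ⊔ ℂ⟮x⟯ : IntermediateField ℂ Om) N]
    (hN : N.restrictScalars ℂ ⊔ aclC K = M ⊔ aclC K)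
    (hY : kod ℂ K ≠ ⊥) :
    ∃ K0 : IntermediateField ℂ Om, K0 ≤ aclC K ∧ IsAlgClosed K0 ∧
      DefinedOver K0 (aclC K) (M ⊔ aclC K) ∧
      (∀ h ∈ ratios ℂ K, (h : Om) ∈ K0) ∧
      kod (aclC K) (adjoin (aclC K) (M : Set Om)) +
        ((Algebra.trdeg ℂ K0 : Cardinal) : WithBot Cardinal) ≤ kod ℂ M := by
  by_cases hF : (ratios (aclC K) (adjoin (aclC K) (M : Set Om))).Nonempty
  swap
  · refine ⟨aclC K, le_rfl, (inferInstance : IsAlgClosure K (algebraicClosure K Om)).isAlgClosed,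
      Asm_triv K M hM, fun h _ => ?_, ?_⟩
    · exact mem_algebraicClosure_iff.2 (isAlgebraic_algebraMap h)
    · rw [Asm_kod_bot hF, WithBot.bot_add]; exact bot_le
  obtain ⟨X, hXK, hXM⟩ := exists_ctx0 Om K M K' L L1 x hM hKM hOm hK' hLL1 hL1a hL1M hfree hufd
    hA hx N hN hY
  have hKb : X.Kb = (aclC K).toSubfield := by rw [Asm_acl, ← hXK]
  have hMb : X.Mb = (M ⊔ aclC K).toSubfield := by rw [Asm_sup, ← hKb, ← hXM]
  set Fb := adjoin (aclC K) (M : Set Om) with hFb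
  have hr1 : ((Fb.val : Fb →+* Om).comp (algebraMap (aclC K) Fb)).fieldRange = X.Kb := by
    rw [hKb]; ext y
    exact ⟨by rintro ⟨c, rfl⟩; exact c.2, fun hy => ⟨⟨y, hy⟩, rfl⟩⟩
  have hr2 : (Fb.val : Fb →+* Om).fieldRange = X.Mb := by
    rw [hMb, sup_comm, Asm_sup, sup_eq_adj]
    have : (Fb.val : Fb →+* Om).fieldRange = Fb.toSubfield := by ext y; simp
    rw [this, hFb]
    exact (Lift_closure (aclC K).toSubfield (M : Set Om)).symm
  have hupF : ∀ h ∈ ratios (aclC K) Fb, (h : Om) ∈ Rat X.Kb X.Mb X.dF := by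
    have := br_rat_up (k := aclC K) (Fb.val : Fb →+* Om) (D0 := X.dF) (by
      rw [hr1, hr2]; exact X.frF)
    rwa [hr1, hr2] at this
  obtain ⟨h0, hh0⟩ := hF
  obtain ⟨m, hm, -, -, ψ, -, -, hψ, hψ0, -⟩ := hupF h0 hh0
  obtain ⟨Y, rfl⟩ := X.exists_ctx_of (X.sum2 hm hψ0 hψ)
  have hC : C0 Om ≤ Y.K0 := le_inf (Y.frK.le.trans (le_acl _)) ((le_adj _ _).trans (le_acl _))
  let K0 : IntermediateField ℂ Om := Y.K0.toIntermediateField fun c => hC ⟨c, rfl⟩
  have hK0 : K0 ≤ aclC K := fun y hy => by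
    have h1 : y ∈ Y.Kb := hy.1
    rwa [hKb] at h1
  have hdown : ∀ h ∈ Rat (C0 Om) Y.M Y.dM, ∃ h' ∈ ratios ℂ M, (h' : Om) = h := by
    have := br_rat_down (k := ℂ) (M.val : M →+* Om) (D0 := Y.dM) (by
      rw [Asm_range1, Asm_range2, ← hXM]; exact Y.frM) (by
      rw [Asm_range2, ← hXM]; exact Y.algM)
    rwa [Asm_range1, Asm_range2, ← hXM] at this
  have hMne : (ratios ℂ M).Nonempty := by
    obtain ⟨h, hh⟩ := Y.rat_nonempty Y.Nwpos (Y.Phi_ne Y.adm_Ga) (Y.Phi_regT Y.adm_Ga)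
    obtain ⟨h', hh', -⟩ := hdown h hh
    exact ⟨h', hh'⟩
  refine ⟨K0, hK0, Y.isAlgClosed_K0, ?_, fun h hh => ?_, ?_⟩
  · obtain ⟨S, hS, hld⟩ := Y.var7_H Y.s5h
    refine ⟨S, IntermediateField.toSubfield_injective ?_, fun n b hb hi => ?_⟩
    · rw [Asm_adj, ← hKb, ← hMb, hS]
    · have h1 : LinearIndependent (adj Y.K0 S) b :=
        hld.linearIndependent (fun i => by rw [hKb]; exact hb i) hi
      have h2 : (K0 ⊔ adjoin ℂ (S : Set Om)).toSubfield = adj Y.K0 S := Asm_adj K0 S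
      rw [← h2] at h1
      exact h1
  · have := br_rat_up (k := ℂ) (K.val : K →+* Om) (D0 := Y.dK) (by
      rw [Asm_range1, Asm_range2, ← hXK]; exact Y.frK) h hh
    rw [Asm_range1, Asm_range2, ← hXK] at this
    exact Y.ratK_mem _ this
  · rw [Asm_kod_ne ⟨h0, hh0⟩, Asm_kod_ne hMne, ← WithBot.coe_add, WithBot.coe_le_coe]
    refine count8 (aclC K) K0 Y.Q hK0 (fun y hy => hy.2) Fb.val _ (fun y hy => ?_) M.val _ ?_
    · obtain ⟨m', hm', φ1, -, φ2, -, h1, h2, -, h3⟩ := hupF y hy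
      rw [← hKb]
      change (y : Om) ∈ _
      rw [h3]
      exact Y.kodF_of Y.s5h (fun j ψ e1 e2 => Y.hpoly e1 e2) h1 h2
    · refine acl_mono (adj_le (le_adj _ _) fun h hh => mem_adj _ ?_)
      obtain ⟨h', hh', e⟩ := hdown h hh
      exact ⟨h', hh', e⟩

theorem cplus (Om : Type) [Field Om] [Algebra ℂ Om] [IsAlgClosed Om]
    (K M K' L L1 : IntermediateField ℂ Om) (x : Om)
    (hM : M.FG) (hKM : K ≤ M) (hOm : Algebra.IsAlgebraic M Om)
    (hK' : aclC K' = aclC K)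
    (hLL1 : L ≤ L1) (hL1a : L1 ≤ aclC L) (hL1M : L1 ≤ M ⊔ aclC K)
    (hfree : L.LinearDisjoint K')
    (hufd : UniqueFactorizationMonoid (L.toSubalgebra ⊔ K'.toSubalgebra : Subalgebra ℂ Om))
    (hA : HasRegularForm ℂ L1)
    (hx : Transcendental (L ⊔ K' : IntermediateField ℂ Om) x)
    (N : IntermediateField (L ⊔ K' ⊔ ℂ⟮x⟯ : IntermediateField ℂ Om) Om)
    [FiniteDimensional (L ⊔ K' ⊔ ℂ⟮x⟯ : IntermediateField ℂ Om) N]
    [IsGalois (L ⊔ K' ⊔ ℂ⟮x⟯ : IntermediateField ℂ Om) N]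
    (hN : N.restrictScalars ℂ ⊔ aclC K = M ⊔ aclC K)
    (hY : kod ℂ K ≠ ⊥) :
    kod (aclC K) (adjoin (aclC K) (M : Set Om)) +
        max (kod ℂ K) ((Var (aclC K) (M ⊔ aclC K) : Cardinal) : WithBot Cardinal) ≤ kod ℂ M := by
  obtain ⟨K0, h1, h2, h3, h4, h5⟩ :=
    joint Om K M K' L L1 x hM hKM hOm hK' hLL1 hL1a hL1M hfree hufd hA hx N hN hY
  refine le_trans (add_le_add le_rfl (max_le (Asm_kod_le K K0 h4) ?_)) h5
  rw [WithBot.coe_le_coe]
  exact csInf_le' ⟨K0, h1, h2, h3, rfl⟩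

end Pool.Agent.Lib.MP_5c318e_ag
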