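import Pool.Agent.Lib.MP_5c318e_ag.Val
import Pool.Agent.Lib.MP_5c318e_ag.Jac0
import Pool.Agent.Lib.MP_5c318e_ag.Trd
import Pool.Agent.Lib.MP_5c318e_ag.Res

/-! Bridge between the abstract definitions and the working definitions inside `Om`. -/

namespace Pool.Agent.Lib.MP_5c318e_ag

open scoped NNReal
open Set

variable {Om : Type} [Field Om] [Algebra ℂ Om]

section frame

variable {ι : Type} [DecidableEq ι] {k0 Fp : Subfield Om} {D : ι → Derivation ℂ Om Om}
  {b : ι → Om}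

theorem Frame.Br_adj_le (h : Frame k0 Fp D b) : adj k0 (range b) ≤ Fp :=
  adj_le h.le (forall_mem_range.2 h.mem)

theorem Frame.Br_mem (h : Frame k0 Fp D b) (i : ι) {y : Om} (hy : y ∈ Fp) : D i y ∈ Fp := by
  have := charZero_of_algebra (Om := Om)
  refine der_mem_alg (D i) h.Br_adj_le (fun c hc => ?_) hy (mem_acl.1 (h.alg hy))
  refine der_mem_closure (D i) Fp (union_subset h.le (range_subset_iff.2 h.mem)) ?_ hc
  rintro x (hx | ⟨j, rfl⟩)
  · rw [h.kill i x hx]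
    exact Fp.zero_mem
  · rw [h.dual]
    split_ifs
    exacts [Fp.one_mem, Fp.zero_mem]

variable [Fintype ι]

theorem Frame.Br_jac (h : Frame k0 Fp D b) : Jac D b = 1 :=
  jac_self h.dual

omit [Algebra ℂ Om] in
theorem DivPt.Br_indep {v : RV Om} {c : ι → Om} {i0 : ι} (h : DivPt k0 Fp v c i0) :
    AlgebraicIndependent k0 c := by
  obtain ⟨-, h0, hlt, hy, -⟩ := h
  refine indep_of_trk ?_
  have h1 : trk k0 (insert (c i0) (range fun a : {a // a ≠ i0} => c a)) =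
      trk k0 (range fun a : {a // a ≠ i0} => c a) + 1 :=
    Matroid.eRk_insert_eq_add_one ⟨trivial, fun hc =>
      hlt.ne (triv_acl hy.toTriv _ (Trd_mem_closure.1 hc) h0)⟩
  rw [range_eq_insert c i0, h1, trk_range hy.algInd]
  have h2 : Fintype.card {a // a ≠ i0} + 1 = Fintype.card ι := by
    have : 0 < Fintype.card ι := Fintype.card_pos_iff.2 ⟨i0⟩
    simp only [ne_eq, Fintype.card_subtype_compl, Fintype.card_unique]
    omega
  exact_mod_cast h2.ge

theorem Frame.Br_jac_ne (h : Frame k0 Fp D b) {c : ι → Om} (hc : AlgebraicIndependent k0 c)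
    (hm : ∀ i, c i ∈ Fp) : Jac D c ≠ 0 := by
  have := charZero_of_algebra (Om := Om)
  exact jac_ne_zero D h.kill (by rw [h.Br_jac]; exact one_ne_zero) hc
    fun a => mem_acl.1 (h.alg (hm a))

theorem Frame.Br_alg (h : Frame k0 Fp D b) {c : ι → Om} (hc : AlgebraicIndependent k0 c)
    (hm : ∀ i, c i ∈ Fp) {z : Om} (hz : z ∈ Fp) : IsAlgebraic (adj k0 (range c)) z :=
  Trd_full hc le_rfl (fun a => mem_acl.1 (h.alg (hm a))) (mem_acl.1 (h.alg hz))

theorem Frame.Br_key1 [IsAlgClosed Om] (h : Frame k0 Fp D b) {v : RV Om} {c : ι → Om} {i0 : ι}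
    (hd : DivPt k0 Fp v c i0) {f : ι → Om} (hf : ∀ a, f a ∈ Fp) (h1 : ∀ a, v (f a) ≤ 1) :
    v (Jac D f) ≤ v (Jac D c) := by
  have := charZero_of_algebra (Om := Om)
  exact KEY1 hd.2.2.2.1.toTriv.hv D h.kill hd.2.2.1 hd.2.2.2.1 (h.Br_jac_ne hd.Br_indep hd.1) Fp
    h.le hd.1 (fun z hz => h.Br_alg hd.Br_indep hd.1 hz) hd.2.2.2.2 f hf h1

end frame

section abstract

variable {k F : Type} [Field k] [Field F] [Algebra k F]

theorem Br_change {ι : Type} [Fintype ι] [DecidableEq ι] {D1 : ι → Derivation k F F}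
    (h1 : LinearIndependent F D1) (h2 : ∀ δ, δ ∈ Submodule.span F (range D1)) {n : ℕ}
    {D2 : Fin n → Derivation k F F} (h : IsFrame k F D2) :
    ∃ (e : Fin n ≃ ι) (c : F), c ≠ 0 ∧ ∀ f : Fin n → F,
      (Matrix.of fun i j => D2 i (f j)).det = c * Jac D1 (f ∘ e.symm) := by
  let B1 : Module.Basis ι F (Derivation k F F) := Module.Basis.mk h1 fun δ _ => h2 δ
  let B2 : Module.Basis (Fin n) F (Derivation k F F) := Module.Basis.mk h.1 fun δ _ => h.2 δ
  let e : Fin n ≃ ι := B2.indexEquiv B1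
  let B3 := B1.reindex e.symm
  refine ⟨e, (B3.toMatrix B2).det, (B3.isUnit_det B2).ne_zero, fun f => ?_⟩
  have he : Jac D1 (f ∘ e.symm) = (Matrix.of fun i j => B3 i (f j)).det := by
    rw [← jac_equiv D1 _ e, Jac, ← Matrix.det_transpose]
    congr 1
    ext i j
    simp [B3, B1]
  rw [he, ← Matrix.det_transpose (B3.toMatrix B2), ← Matrix.det_mul]
  congr 1
  ext i j
  have h3 : D2 i = ∑ l, B3.toMatrix B2 l i • B3 l := by
    rw [B3.sum_toMatrix_smul_self]
    simp [B2]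
  rw [Matrix.of_apply, h3, der_sum_apply, Matrix.mul_apply]
  simp

theorem Br_dvr {G : Type*} [LinearOrderedCommGroupWithZero G] (v : Valuation F G) {t : F}
    (h0 : t ≠ 0) (hlt : v t < 1) (hg : ∀ y, y ≠ 0 → ∃ n : ℤ, v y = v t ^ n) :
    IsDiscreteValuationRing v.valuationSubring := by
  have hI := Valuation.valuationSubring.integers v
  have hpos : 0 < v t := v.pos_iff.2 h0
  have key : ∀ x : v.valuationSubring, x ≠ 0 → ∃ n : ℕ, v (x : F) = v t ^ n := by
    intro x hx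
    obtain ⟨n, hn⟩ := hg x fun h => hx (Subtype.ext h)
    have h1 : v t ^ n ≤ 1 := hn ▸ x.2
    have h2 : 0 ≤ n := (zpow_le_one_iff_right_of_lt_one₀ hpos hlt).1 h1
    lift n to ℕ using h2
    exact ⟨n, by simpa using hn⟩
  refine IsDiscreteValuationRing.ofHasUnitMulPowIrreducibleFactorization ⟨⟨t, hlt.le⟩, ?_, ?_⟩
  · refine ⟨fun hu => hlt.ne (hI.one_of_isUnit hu), fun x y hxy => ?_⟩
    have hxy' : t = x * y := congrArg Subtype.val hxy
    have hx : x ≠ 0 := fun h => h0 (by rw [hxy', h]; simp)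
    have hy : y ≠ 0 := fun h => h0 (by rw [hxy', h]; simp)
    obtain ⟨n, hn⟩ := key x hx
    obtain ⟨m, hm⟩ := key y hy
    have h3 : v t ^ 1 = v t ^ (n + m) := by
      rw [pow_one, pow_add, ← hn, ← hm, ← map_mul, ← hxy']
    have h4 : 1 = n + m := pow_right_injective₀ hpos hlt.ne h3
    by_cases hn0 : n = 0
    · exact Or.inl (hI.isUnit_of_one' (by rw [hn0, pow_zero] at hn; exact hn))
    · have hm0 : m = 0 := by omega
      exact Or.inr (hI.isUnit_of_one' (by rw [hm0, pow_zero] at hm; exact hm))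
  · intro x hx
    obtain ⟨n, hn⟩ := key x hx
    have h5 : v (algebraMap v.valuationSubring F ((⟨t, hlt.le⟩ : v.valuationSubring) ^ n)) =
        v (algebraMap v.valuationSubring F x) := by
      rw [map_pow, map_pow]
      exact hn.symm
    exact ⟨n, associated_of_dvd_dvd (hI.dvd_of_le h5.ge) (hI.dvd_of_le h5.le)⟩

end abstract

/-- `ψ` embeds the extension `F / k` onto the pair of subfields `Fp / k0`. -/
structure Emb (k : Type) {F : Type} [Field k] [Field F] [Algebra k F] (ψ : F →+* Om)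
    (k0 Fp : Subfield Om) : Prop where
  hk : ∀ y, y ∈ k0 ↔ ∃ c, ψ (algebraMap k F c) = y
  hF : ∀ y, y ∈ Fp ↔ ∃ a, ψ a = y

section emb

variable {k F : Type} [Field k] [Field F] [Algebra k F] {ψ : F →+* Om} {k0 Fp : Subfield Om}
  {ι : Type} [DecidableEq ι] {D : ι → Derivation ℂ Om Om} {b : ι → Om}

omit [Algebra ℂ Om] in
theorem Emb.mem (E : Emb k ψ k0 Fp) (a : F) : ψ a ∈ Fp := (E.hF _).2 ⟨a, rfl⟩

omit [Algebra ℂ Om] in
theorem Emb.range (E : Emb k ψ k0 Fp) : ψ.fieldRange = Fp := by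
  ext y
  exact (E.hF y).symm

omit [Algebra ℂ Om] in
theorem Emb.alg (E : Emb k ψ k0 Fp) {S : Set F} {x : F}
    (h : IsAlgebraic (adj k0 (ψ '' S)) (ψ x)) :
    IsAlgebraic (Subfield.closure (Set.range (algebraMap k F) ∪ S)) x := by
  have he : (Subfield.closure (Set.range (algebraMap k F) ∪ S)).map ψ = adj k0 (ψ '' S) := by
    rw [RingHom.map_field_closure, image_union]
    congr 2
    ext y
    rw [SetLike.mem_coe, E.hk]
    simp
  let f : Subfield.closure (Set.range (algebraMap k F) ∪ S) →+* adj k0 (ψ '' S) :=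
    (ψ.comp (Subfield.subtype _)).codRestrict _ fun a => he.le ⟨a, a.2, rfl⟩
  refine h.of_ringHom_of_comp_eq f ψ (fun y => ?_) ψ.injective rfl
  have hy : (y : Om) ∈ (Subfield.closure (Set.range (algebraMap k F) ∪ S)).map ψ := he.ge y.2
  obtain ⟨a, ha, hay⟩ := hy
  exact ⟨⟨a, ha⟩, Subtype.ext hay⟩

theorem Emb.der (E : Emb k ψ k0 Fp) (h : Frame k0 Fp D b) :
    ∃ D1 : ι → Derivation k F F, ∀ i a, ψ (D1 i a) = D i (ψ a) := by
  have h1 : ∀ i a, ∃ a', ψ a' = D i (ψ a) := fun i a => (E.hF _).1 (h.Br_mem i (E.mem a))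
  choose g hg using h1
  have hc : ∀ i c, D i (ψ (algebraMap k F c)) = 0 := fun i c => h.kill i _ ((E.hk _).2 ⟨c, rfl⟩)
  refine ⟨fun i => Derivation.mk' ⟨⟨g i, fun x y => ψ.injective ?_⟩, fun c x => ψ.injective ?_⟩
    fun x y => ψ.injective ?_, hg⟩
  · simp [hg]
  · simp [hg, Algebra.smul_def, hc]
  · simp [hg]

variable [Fintype ι]

theorem Emb.basis (E : Emb k ψ k0 Fp) (h : Frame k0 Fp D b) {D1 : ι → Derivation k F F}
    (hD : ∀ i a, ψ (D1 i a) = D i (ψ a)) :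
    LinearIndependent F D1 ∧ ∀ δ, δ ∈ Submodule.span F (Set.range D1) := by
  have := charZero_of_algebra (Om := Om)
  have : CharZero F := ψ.charZero
  choose b1 hb1 using fun i => (E.hF _).1 (h.mem i)
  have hd : ∀ i j, D1 i (b1 j) = if j = i then 1 else 0 := fun i j => ψ.injective (by
    rw [hD, hb1, h.dual]
    split_ifs <;> simp)
  refine ⟨Fintype.linearIndependent_iff.2 fun c hc j => ?_, fun δ => ?_⟩
  · have h1 := congrArg (fun δ : Derivation k F F => δ (b1 j)) hc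
    simpa [der_sum_apply, hd] using h1
  · have h2 : δ = ∑ i, δ (b1 i) • D1 i := by
      ext x
      refine der_ext_acl δ _ (S := Set.range (algebraMap k F) ∪ Set.range b1) ?_ (E.alg ?_)
      · rintro y (⟨c, rfl⟩ | ⟨j, rfl⟩)
        · simp
        · simp [der_sum_apply, hd]
      · have : ψ '' Set.range b1 = Set.range b := by
          rw [← range_comp]
          exact congrArg _ (funext hb1)
        rw [this]
        exact mem_acl.1 (h.alg (E.mem x))
    rw [h2]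
    exact Submodule.sum_mem _ fun i _ =>
      Submodule.smul_mem _ _ (Submodule.subset_span ⟨i, rfl⟩)

theorem Frame.Br_trk (h : Frame k0 Fp D b) : trk k0 Fp = Fintype.card ι :=
  le_antisymm ((trk_le_of_alg fun _ hs => mem_acl.1 (h.alg hs)).trans (trk_range_le k0 b))
    ((trk_range h.ind).ge.trans (trk_mono k0 (range_subset_iff.2 h.mem)))

theorem Emb.trdeg (E : Emb k ψ k0 Fp) (h : Frame k0 Fp D b) :
    Algebra.trdeg k F = Fintype.card ι := by
  have h1 := trk_eq_trdeg ψ E.hk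
  have h2 : Set.range ψ = Fp := by
    ext y
    exact (E.hF y).symm
  rw [h2, h.Br_trk] at h1
  exact Cardinal.toENat_eq_natCast.1 h1.symm

omit [Algebra ℂ Om] in
theorem Br_jac_map {R : Type*} [CommRing R] [Algebra R Om] {D : ι → Derivation R Om Om}
    {D1 : ι → Derivation k F F} (hD : ∀ i a, ψ (D1 i a) = D i (ψ a)) (f : ι → F) :
    ψ (Jac D1 f) = Jac D (ψ ∘ f) := by
  rw [Jac, Jac, RingHom.map_det]
  congr 1
  ext i j
  simp [hD]

omit [Algebra ℂ Om] [DecidableEq ι] [Fintype ι] in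
theorem Emb.rind (E : Emb k ψ k0 Fp) {v : RV Om} {κ : Type} {y : κ → F} :
    RInd v k0 (ψ ∘ y) ↔
      ∀ p : MvPolynomial κ k, p ≠ 0 → v (ψ (MvPolynomial.aeval y p)) = 1 := by
  let f : k →+* k0 := (ψ.comp (algebraMap k F)).codRestrict k0 fun a => (E.hk _).2 ⟨a, rfl⟩
  have hf : Function.Surjective f := fun y => by
    obtain ⟨a, ha⟩ := (E.hk y).1 y.2
    exact ⟨a, Subtype.ext ha⟩
  have he : ∀ p : MvPolynomial κ k,
      MvPolynomial.aeval (ψ ∘ y) (p.map f) = ψ (MvPolynomial.aeval y p) := fun p => by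
    rw [MvPolynomial.map_aeval, MvPolynomial.aeval_def, MvPolynomial.eval₂_map]
    rfl
  refine ⟨fun h p hp => ?_, fun h p hp => ?_⟩
  · rw [← he]
    exact h _ fun h0 => hp (MvPolynomial.map_injective f f.injective (by rw [h0, map_zero]))
  · obtain ⟨q, rfl⟩ := MvPolynomial.map_surjective f hf p
    rw [he]
    exact h q fun h0 => hp (by rw [h0, map_zero])

/-- a prime divisor in the working sense gives a prime divisor in the abstract sense -/
theorem Emb.divisorial (E : Emb k ψ k0 Fp) (h : Frame k0 Fp D b) {v : RV Om} {c : ι → Om}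
    {i0 : ι} (hd : DivPt k0 Fp v c i0) : IsDivisorial k F (v.comap ψ).valuationSubring := by
  choose c1 hc1 using fun i => (E.hF _).1 (hd.1 i)
  refine ⟨Br_dvr (v.comap ψ) (t := c1 i0) (fun h0 => hd.2.1 (by rw [← hc1, h0, map_zero]))
    (by rw [Valuation.comap_apply, hc1]; exact hd.2.2.1) fun y hy => ?_, ?_⟩
  · rw [Valuation.comap_apply, Valuation.comap_apply, hc1]
    exact hd.2.2.2.2 _ (E.mem y) ((map_ne_zero ψ).2 hy)
  · let e := (Fintype.equivFin {j // j ≠ i0}).symm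
    refine ⟨_, fun j => c1 (e j), ?_, fun p hp => ?_⟩
    · rw [E.trdeg h]
      have : 0 < Fintype.card ι := Fintype.card_pos_iff.2 ⟨i0⟩
      congr 1
      simp only [ne_eq, Fintype.card_subtype_compl, Fintype.card_unique]
      omega
    · rw [← (v.comap ψ).isEquiv_valuation_valuationSubring.eq_one_iff_eq_one]
      refine E.rind.1 ?_ p hp
      have h2 : (ψ ∘ fun j => c1 (e j)) = (fun j : {j // j ≠ i0} => c j) ∘ e :=
        funext fun j => hc1 _
      rw [h2]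
      exact hd.2.2.2.1.comp e e.injective

/-- an abstract prime divisor comes from a prime divisor in the working sense -/
theorem Emb.divpt (E : Emb k ψ k0 Fp) (h : Frame k0 Fp D b) (halg : ∀ y : Om, y ∈ acl Fp)
    {O : ValuationSubring F} (hO : IsDivisorial k F O) :
    ∃ (v : RV Om) (c : ι → F) (i0 : ι), DivPt k0 Fp v (ψ ∘ c) i0 ∧
      ∀ f, v (ψ f) ≤ 1 ↔ f ∈ O := by
  obtain ⟨hdvr, n, y, hn, hy⟩ := hO
  obtain ⟨v, t, ht, -, hlt, hle, hg⟩ := ext_dvr ψ O fun y => E.range ▸ mem_acl.1 (halg y)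
  rw [E.trdeg h] at hn
  have hcard : Fintype.card ι = Fintype.card (Option (Fin n)) := by
    rw [Fintype.card_option, Fintype.card_fin]
    exact_mod_cast hn.symm
  let e : ι ≃ Option (Fin n) := Fintype.equivOfCardEq hcard
  have heq : (v.comap ψ).IsEquiv O.valuation := by
    rw [Valuation.isEquiv_iff_val_le_one]
    intro x
    rw [O.valuation_le_one_iff]
    exact hle x
  have h0 : ((ψ ∘ fun i => (e i).elim (t : F) y) (e.symm none)) = ψ t := by simp
  refine ⟨v, fun i => (e i).elim (t : F) y, e.symm none, ⟨fun i => E.mem _, ?_, ?_, ?_, ?_⟩, hle⟩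
  · rw [h0]
    exact (map_ne_zero ψ).2 fun h => ht.ne_zero (Subtype.ext h)
  · rw [h0]
    exact hlt
  · have h1 : RInd v k0 (ψ ∘ y) := E.rind.2 fun p hp => heq.eq_one_iff_eq_one.2 (hy p hp)
    have h2 : ∀ j : {j // j ≠ e.symm none}, ∃ l, e j = some l := fun j =>
      Option.ne_none_iff_exists'.1 fun h => j.2 (e.eq_symm_apply.2 h)
    choose l hl using h2
    have h3 : (fun j : {j // j ≠ e.symm none} => (ψ ∘ fun i => (e i).elim (t : F) y) j) =
        (ψ ∘ y) ∘ l := funext fun j => by simp [hl]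
    rw [h3]
    exact h1.comp l fun i j hij => Subtype.ext (e.injective (by rw [hl, hl, hij]))
  · rw [h0]
    intro z hz hz0
    obtain ⟨a, rfl⟩ := (E.hF z).1 hz
    exact hg a ((map_ne_zero ψ).1 hz0)

theorem Emb.reg_of_pluri [IsAlgClosed Om] (E : Emb k ψ k0 Fp) (h : Frame k0 Fp D b) {n : ℕ}
    {D2 : Fin n → Derivation k F F} (h2 : IsFrame k F D2) :
    ∃ c : F, c ≠ 0 ∧ ∀ m φ, IsPluri k F D2 m φ → Reg k0 Fp D m (ψ (φ / c ^ m)) := by
  obtain ⟨D1, hD⟩ := E.der h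
  obtain ⟨e, c, hc, he⟩ := Br_change (E.basis h hD).1 (E.basis h hD).2 h2
  refine ⟨c, hc, fun m φ hφ v c0 i0 hd => ?_⟩
  obtain ⟨f, hf, u, hu, rfl⟩ := hφ _ (E.divisorial h hd)
  rw [he, mul_pow, mul_left_comm, mul_div_cancel_left₀ _ (pow_ne_zero m hc), map_mul, map_pow,
    map_mul, map_pow, Br_jac_map hD]
  exact (mul_le_of_le_one_left' hu).trans (pow_le_pow_left'
    (h.Br_key1 hd (fun a => E.mem _) fun a => hf _) m)

/-- ratios in the abstract sense are ratios in the working sense -/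
theorem Emb.ratios_sub [IsAlgClosed Om] (E : Emb k ψ k0 Fp) (h : Frame k0 Fp D b) :
    ψ '' ratios k F ⊆ Rat k0 Fp D := by
  rintro _ ⟨_, ⟨n, D2, h2, m, hm, φ, φ', hφ, hφ', h0, rfl⟩, rfl⟩
  obtain ⟨c, hc, hr⟩ := E.reg_of_pluri h h2
  refine ⟨m, hm, _, E.mem _, _, E.mem _, hr m φ hφ, hr m φ' hφ',
    (map_ne_zero ψ).2 (div_ne_zero h0 (pow_ne_zero m hc)), ?_⟩
  rw [← map_div₀, div_div_div_cancel_right₀ (pow_ne_zero m hc)]

/-- ratios in the working sense are ratios in the abstract sense -/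
theorem Emb.rat_sub (E : Emb k ψ k0 Fp) (h : Frame k0 Fp D b) (halg : ∀ y : Om, y ∈ acl Fp) :
    Rat k0 Fp D ⊆ ψ '' ratios k F := by
  obtain ⟨D1, hD⟩ := E.der h
  let e := (Fintype.equivFin ι).symm
  have hb := E.basis h hD
  have hfr : IsFrame k F fun i => D1 (e i) :=
    ⟨hb.1.comp e e.injective, fun δ => by
      have : Set.range (fun i => D1 (e i)) = Set.range D1 := e.surjective.range_comp D1
      rw [this]
      exact hb.2 δ⟩
  have key : ∀ m φ, Reg k0 Fp D m (ψ φ) → IsPluri k F (fun i => D1 (e i)) m φ := by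
    intro m φ hφ O hO
    obtain ⟨v, c, i0, hd, hle⟩ := E.divpt h halg hO
    have hJ : ψ (Jac D1 c) ≠ 0 := by
      rw [Br_jac_map hD]
      exact h.Br_jac_ne hd.Br_indep hd.1
    have hJ' : Jac D1 c ≠ 0 := (map_ne_zero ψ).1 hJ
    have hdet : (Matrix.of fun i j => D1 (e i) (c (e j))).det = Jac D1 c := by
      rw [← jac_equiv D1 c e, Jac, ← Matrix.det_transpose]
      rfl
    refine ⟨fun j => c (e j), fun j => (hle _).1 ?_, φ / Jac D1 c ^ m, (hle _).1 ?_, ?_⟩
    · by_cases hj : e j = i0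
      · have h5 := hd.2.2.1.le
        rw [← hj] at h5
        exact h5
      · exact (hd.2.2.2.1.unit ⟨e j, hj⟩).le
    · rw [map_div₀, map_div₀, map_pow, map_pow, div_le_one₀ (pow_pos (v.pos_iff.2 hJ) m),
        Br_jac_map hD]
      exact hφ v _ i0 hd
    · rw [hdet, div_mul_cancel₀ _ (pow_ne_zero m hJ')]
  rintro _ ⟨m, hm, φ, hφ, φ', hφ', r1, r2, h0, rfl⟩
  obtain ⟨a, rfl⟩ := (E.hF _).1 hφ
  obtain ⟨a', rfl⟩ := (E.hF _).1 hφ'
  exact ⟨a / a', ⟨_, _, hfr, m, hm, a, a', key m a r1, key m a' r2, (map_ne_zero ψ).1 h0, rfl⟩,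
    map_div₀ ψ a a'⟩

theorem Rat_sub : Rat k0 Fp D ⊆ Fp := by
  rintro _ ⟨m, -, φ, hφ, φ', hφ', -, -, -, rfl⟩
  exact Fp.div_mem hφ hφ'

theorem Rat_nonempty_iff :
    (Rat k0 Fp D).Nonempty ↔ ∃ m, 0 < m ∧ ∃ φ ∈ Fp, φ ≠ 0 ∧ Reg k0 Fp D m φ :=
  ⟨fun ⟨_, m, hm, _, _, φ, hφ, _, r, h0, _⟩ => ⟨m, hm, φ, hφ, h0, r⟩,
    fun ⟨m, hm, φ, hφ, h0, r⟩ => ⟨_, m, hm, φ, hφ, φ, hφ, r, r, h0, rfl⟩⟩

theorem Emb.kod_eq (E : Emb k ψ k0 Fp) (h : Frame k0 Fp D b) (hne : (ratios k F).Nonempty) :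
    ∃ n : ℕ, kod k F = ((n : Cardinal) : WithBot Cardinal) ∧
      (n : ℕ∞) = trk k0 (ψ '' ratios k F) := by
  have h1 : trk k0 (ψ '' ratios k F) ≤ Fintype.card ι :=
    (trk_mono k0 (by rintro _ ⟨a, -, rfl⟩; exact E.mem a)).trans h.Br_trk.le
  obtain ⟨n, hn⟩ := ENat.ne_top_iff_exists.1 (ne_top_of_le_ne_top (ENat.natCast_ne_top _) h1)
  refine ⟨n, ?_, hn⟩
  rw [trk_eq_trdeg_adjoin ψ E.hk] at hn
  rw [kod, if_pos hne, Cardinal.toENat_eq_natCast.1 hn.symm]

/-- upper use (base and fibre): `kod` is `⊥`, or a natural number bounded by the working rank -/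
theorem Emb.kod_le [IsAlgClosed Om] (E : Emb k ψ k0 Fp) (h : Frame k0 Fp D b)
    (hne : kod k F ≠ ⊥) :
    (∃ m, 0 < m ∧ ∃ φ ∈ Fp, φ ≠ 0 ∧ Reg k0 Fp D m φ) ∧
      ∃ n : ℕ, kod k F = ((n : Cardinal) : WithBot Cardinal) ∧
        (n : ℕ∞) ≤ trk k0 (Rat k0 Fp D) := by
  have h1 : (ratios k F).Nonempty := by
    by_contra h2
    exact hne (by rw [kod, if_neg h2])
  obtain ⟨n, hn, hn'⟩ := E.kod_eq h h1
  exact ⟨Rat_nonempty_iff.1 ((h1.image ψ).mono (E.ratios_sub h)), n, hn,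
    hn'.le.trans (trk_mono k0 (E.ratios_sub h))⟩

/-- lower use (total space) -/
theorem Emb.le_kod (E : Emb k ψ k0 Fp) (h : Frame k0 Fp D b) (halg : ∀ y : Om, y ∈ acl Fp)
    (hne : (Rat k0 Fp D).Nonempty) {n : ℕ} (hn : (n : ℕ∞) ≤ trk k0 (Rat k0 Fp D)) :
    ((n : Cardinal) : WithBot Cardinal) ≤ kod k F := by
  obtain ⟨n', h1, h2⟩ := E.kod_eq h (hne.mono (E.rat_sub h halg)).of_image
  have h3 : (n : ℕ∞) ≤ n' := hn.trans ((trk_mono k0 (E.rat_sub h halg)).trans h2.ge)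
  rw [h1]
  exact_mod_cast h3

end emb

end Pool.Agent.Lib.MP_5c318e_ag
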