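import Mathlib

/-! Compactness of the Zariski-Riemann space: finitely many charts suffice. -/

namespace Pool.Agent.Lib.MP_5c318e_ag

open Filter

/-- The ultralimit of a family of valuation subrings. -/
def Chart_ulim {L : Type*} [Field L] {α : Type*} (U : Ultrafilter α)
    (O : α → ValuationSubring L) : ValuationSubring L where
  carrier := {x | ∀ᶠ a in (U : Filter α), x ∈ O a}
  one_mem' := Eventually.of_forall fun _ => one_mem _
  zero_mem' := Eventually.of_forall fun _ => zero_mem _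
  add_mem' := fun hx hy => (Eventually.and hx hy).mono fun _ h => add_mem h.1 h.2
  mul_mem' := fun hx hy => (Eventually.and hx hy).mono fun _ h => mul_mem h.1 h.2
  neg_mem' := fun hx => Eventually.mono hx fun _ h => neg_mem h
  mem_or_inv_mem' := fun x =>
    Ultrafilter.eventually_or.1 (Eventually.of_forall fun a => (O a).mem_or_inv_mem x)

/-- If every valuation subring containing `A` contains one of the finite sets `c i`, then
finitely many `i` suffice. -/
theorem chart_compact {L : Type*} [Field L] {ι : Type*} (A : Set L) (c : ι → Set L)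
    (hc : ∀ i, (c i).Finite)
    (h : ∀ O : ValuationSubring L, (∀ a ∈ A, a ∈ O) → ∃ i, ∀ x ∈ c i, x ∈ O) :
    ∃ S : Finset ι, ∀ O : ValuationSubring L, (∀ a ∈ A, a ∈ O) →
      ∃ i ∈ S, ∀ x ∈ c i, x ∈ O := by
  classical
  by_contra hne
  push Not at hne
  choose O hOA hO using hne
  let U : Ultrafilter (Finset ι) := Ultrafilter.of atTop
  have hU : (U : Filter (Finset ι)) ≤ atTop := Ultrafilter.of_le _
  obtain ⟨i, hi⟩ := h (Chart_ulim U O) fun a ha => Eventually.of_forall fun S => hOA S a ha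
  have h1 : ∀ᶠ S in (U : Filter (Finset ι)), ∀ x ∈ c i, x ∈ O S :=
    (eventually_all_finite (hc i)).2 fun x hx => hi x hx
  have h2 : ∀ᶠ S in (U : Filter (Finset ι)), i ∈ S :=
    hU ((eventually_ge_atTop ({i} : Finset ι)).mono fun S hS => hS (Finset.mem_singleton_self i))
  obtain ⟨S, hS1, hS2⟩ := (h1.and h2).exists
  obtain ⟨x, hx, hx'⟩ := hO S i hS2
  exact hx' (hS1 x hx)

/-- Form with a predicate on charts `(f, u)`. -/
theorem chart_pairs {L : Type*} [Field L] {κ : Type*} [Finite κ] (A : Set L)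
    (P : (κ → L) → L → Prop)
    (h : ∀ O : ValuationSubring L, (∀ a ∈ A, a ∈ O) →
      ∃ f : κ → L, ∃ u : L, (∀ j, f j ∈ O) ∧ u ∈ O ∧ P f u) :
    ∃ S : Finset ((κ → L) × L), (∀ p ∈ S, P p.1 p.2) ∧
      ∀ O : ValuationSubring L, (∀ a ∈ A, a ∈ O) → ∃ p ∈ S, (∀ j, p.1 j ∈ O) ∧ p.2 ∈ O := by
  classical
  obtain ⟨S, hS⟩ := chart_compact (ι := {p : (κ → L) × L // P p.1 p.2}) A
    (fun p => insert p.1.2 (Set.range p.1.1)) (fun p => (Set.finite_range _).insert _)
    fun O hO => by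
      obtain ⟨f, u, hf, hu, hP⟩ := h O hO
      refine ⟨⟨(f, u), hP⟩, ?_⟩
      rintro x (rfl | ⟨j, rfl⟩)
      · exact hu
      · exact hf j
  refine ⟨S.image Subtype.val, ?_, fun O hO => ?_⟩
  · intro p hp
    obtain ⟨q, -, rfl⟩ := Finset.mem_image.1 hp
    exact q.2
  · obtain ⟨q, hq, hq'⟩ := hS O hO
    exact ⟨q.1, Finset.mem_image_of_mem _ hq, fun j => hq' _ (Or.inr ⟨j, rfl⟩),
      hq' _ (Or.inl rfl)⟩

/-- Form for valuations pulled back along a ring homomorphism `φ : L →+* Om`. -/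
theorem chart_pairs_val {L : Type*} [Field L] {κ : Type*} [Finite κ] {Om : Type*} [Field Om]
    {G : Type*} [LinearOrderedCommGroupWithZero G] (φ : L →+* Om) (A : Set L)
    (P : (κ → L) → L → Prop)
    (h : ∀ O : ValuationSubring L, (∀ a ∈ A, a ∈ O) →
      ∃ f : κ → L, ∃ u : L, (∀ j, f j ∈ O) ∧ u ∈ O ∧ P f u) :
    ∃ S : Finset ((κ → L) × L), (∀ p ∈ S, P p.1 p.2) ∧
      ∀ v : Valuation Om G, (∀ a ∈ A, v (φ a) ≤ 1) →
        ∃ p ∈ S, (∀ j, v (φ (p.1 j)) ≤ 1) ∧ v (φ p.2) ≤ 1 := by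
  obtain ⟨S, hP, hS⟩ := chart_pairs A P h
  exact ⟨S, hP, fun v hv => hS (v.comap φ).valuationSubring hv⟩

/-- Form inside one big field: `L` is a subfield of `Om`, charts are families in `Om`. -/
theorem chart_pairs_sub {κ : Type*} [Finite κ] {Om : Type*} [Field Om]
    {G : Type*} [LinearOrderedCommGroupWithZero G] (L : Subfield Om) (A : Set Om)
    (P : (κ → Om) → Om → Prop)
    (h : ∀ O : ValuationSubring L, (∀ a : L, (a : Om) ∈ A → a ∈ O) →
      ∃ f : κ → L, ∃ u : L, (∀ j, f j ∈ O) ∧ u ∈ O ∧ P (fun j => f j) u) :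
    ∃ S : Finset ((κ → Om) × Om), (∀ p ∈ S, (∀ j, p.1 j ∈ L) ∧ p.2 ∈ L ∧ P p.1 p.2) ∧
      ∀ v : Valuation Om G, (∀ a ∈ A, v a ≤ 1) →
        ∃ p ∈ S, (∀ j, v (p.1 j) ≤ 1) ∧ v p.2 ≤ 1 := by
  classical
  obtain ⟨S, hP, hS⟩ := chart_pairs_val (G := G) L.subtype {a : L | (a : Om) ∈ A}
    (fun f u => P (fun j => f j) u) h
  refine ⟨S.image fun p => (fun j => (p.1 j : Om), (p.2 : Om)), ?_, fun v hv => ?_⟩
  · intro p hp
    obtain ⟨q, hq, rfl⟩ := Finset.mem_image.1 hp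
    exact ⟨fun j => (q.1 j).2, q.2.2, hP q hq⟩
  · obtain ⟨q, hq, hq'⟩ := hS v fun a ha => hv a ha
    exact ⟨_, Finset.mem_image_of_mem _ hq, hq'⟩

end Pool.Agent.Lib.MP_5c318e_ag
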