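import Pool.Agent.Lib.MP_5c318e_ag.Bridge
import Pool.Agent.Lib.MP_5c318e_ag.Chart
import Pool.Agent.Lib.MP_5c318e_ag.Lift
import Pool.Agent.Lib.MP_5c318e_ag.Sym

/-! From an everywhere regular form to the chart data of the working context. -/

namespace Pool.Agent.Lib.MP_5c318e_ag

open scoped NNReal
open Set

variable {Om : Type} [Field Om] [Algebra ℂ Om]

theorem Frame.Br_up {ι : Type} [DecidableEq ι] {k0 L L1 : Subfield Om}
    {D : ι → Derivation ℂ Om Om} {a : ι → Om} (h : Frame k0 L D a) (hle : L ≤ L1)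
    (hL1 : L1 ≤ acl L) : Frame k0 L1 D a :=
  ⟨h.c0, h.le.trans hle, fun i => hle (h.mem i), h.ind, hL1.trans (acl_le h.alg), h.kill, h.dual⟩

/-- finitely many charts for an everywhere regular form -/
theorem Emb.charts0 {k F : Type} [Field k] [Field F] [Algebra k F] {ψ : F →+* Om}
    {k0 L1 : Subfield Om} (E : Emb k ψ k0 L1) {ι : Type} [Fintype ι] [DecidableEq ι]
    {D : ι → Derivation ℂ Om Om} {a : ι → Om} (h : Frame k0 L1 D a)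
    (hreg : HasRegularForm k F) :
    ∃ m, 0 < m ∧ ∃ φ ∈ L1, φ ≠ 0 ∧ ∃ Cs : Finset (ι → Om), (∀ c ∈ Cs, ∀ j, c j ∈ L1) ∧
      ∀ v : RV Om, Triv v k0 →
        ∃ c ∈ Cs, (∀ j, v (c j) ≤ 1) ∧ v φ ≤ v (Jac D c) ^ m := by
  classical
  obtain ⟨n, D2, h2, m, hm, φ, h0, hφ⟩ := hreg
  obtain ⟨D1, hD⟩ := E.der h
  obtain ⟨e, c, hc, he⟩ := Br_change (E.basis h hD).1 (E.basis h hD).2 h2
  obtain ⟨S, hS, hv⟩ := chart_pairs_val (G := ℝ≥0) ψ (Set.range (algebraMap k F))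
    (fun (f : Fin n → F) u => φ = u * (Matrix.of fun i j => D2 i (f j)).det ^ m) fun O hO => by
      obtain ⟨f, hf, u, hu, hfu⟩ := hφ O fun c => hO _ ⟨c, rfl⟩
      exact ⟨f, u, hf, hu, hfu⟩
  refine ⟨m, hm, ψ (φ / c ^ m), E.mem _, (map_ne_zero ψ).2 (div_ne_zero h0 (pow_ne_zero m hc)),
    S.image fun p => ψ ∘ (p.1 ∘ e.symm), ?_, fun v ht => ?_⟩
  · intro c hc j
    obtain ⟨p, -, rfl⟩ := Finset.mem_image.1 hc
    exact E.mem _
  · obtain ⟨p, hp, h1, h3⟩ := hv v (by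
      rintro _ ⟨z, rfl⟩
      exact ht.le ((E.hk _).2 ⟨z, rfl⟩))
    refine ⟨_, Finset.mem_image_of_mem _ hp, fun j => h1 _, ?_⟩
    rw [hS p hp, he, mul_pow, mul_left_comm, mul_div_cancel_left₀ _ (pow_ne_zero m hc), map_mul,
      map_pow, map_mul, map_pow, Br_jac_map hD]
    exact mul_le_of_le_one_left' h3

omit [Algebra ℂ Om] in
theorem Br_acl_aut {L Ex : Subfield Om} (hle : L ≤ Ex) (g : Om ≃ₐ[Ex] Om) {y : Om}
    (hy : y ∈ acl L) : g y ∈ acl L := by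
  refine mem_acl.2 ((mem_acl.1 hy).ringHom_of_comp_eq (RingHom.id L) g Function.injective_id ?_)
  ext c
  exact (g.commutes ⟨c, hle c.2⟩).symm

/-- the norm of an everywhere regular form, with conjugated charts -/
theorem Br_norm [IsAlgClosed Om] {L Ex Mb L1 : Subfield Om} {ι : Type} [Fintype ι] [DecidableEq ι]
    {D : ι → Derivation ℂ Om Om} {a : ι → Om} (h : Frame (C0 Om) L D a) (hL1 : L1 ≤ acl L)
    (hle : L ≤ Ex) (halg : ∀ y : Om, y ∈ acl Ex)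
    (hMb : ∀ g : Om ≃ₐ[Ex] Om, ∀ y ∈ L1, g y ∈ Mb) {m : ℕ} (hm : 0 < m) {φ : Om} (hφ : φ ∈ L1)
    (h0 : φ ≠ 0) (Cs : Finset (ι → Om)) (hCs : ∀ c ∈ Cs, ∀ j, c j ∈ L1)
    (hv : ∀ v : RV Om, Triv v (C0 Om) →
      ∃ c ∈ Cs, (∀ j, v (c j) ≤ 1) ∧ v φ ≤ v (Jac D c) ^ m) :
    ∃ m0, 0 < m0 ∧ ∃ g0, g0 ≠ 0 ∧ g0 ∈ Ex ∧ g0 ∈ acl L ∧ ∃ Cs' : Finset (ι → Om),
      (∀ c ∈ Cs', ∀ j, c j ∈ Mb) ∧ (∀ c ∈ Cs', ∀ j, c j ∈ acl L) ∧
      ∀ v : RV Om, Triv v (C0 Om) →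
        ∃ c ∈ Cs', (∀ j, v (c j) ≤ 1) ∧ v g0 ≤ v (Jac D c) ^ m0 := by
  classical
  have := charZero_of_algebra (Om := Om)
  have hA := isAlgebraic_of_acl halg
  have hint : ∀ y : Om, IsIntegral Ex y := fun y => (mem_acl.1 (halg y)).isIntegral
  have hfin : {c' : ι → Om | ∃ c ∈ Cs, ∃ g : Om ≃ₐ[Ex] Om, c' = fun j => g (c j)}.Finite := by
    refine (Cs.finite_toSet.biUnion fun c _ => Finite.pi' fun j =>
      (minpoly Ex (c j)).rootSet_finite Om).subset ?_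
    rintro _ ⟨c, hc, g, rfl⟩
    refine mem_biUnion hc fun j => Polynomial.mem_rootSet.2 ⟨minpoly.ne_zero (hint _), ?_⟩
    rw [Polynomial.aeval_algHom_apply, minpoly.aeval, map_zero]
  have hfix : ∀ g : Om ≃ₐ[Ex] Om, ∀ y ∈ L, g y = y := fun g y hy => g.commutes ⟨y, hle hy⟩
  refine ⟨(minpoly Ex φ).natDegree * m, Nat.mul_pos (minpoly.natDegree_pos (hint φ)) hm,
    (minpoly Ex φ).coeff 0, fun h1 => minpoly.coeff_zero_ne_zero (hint φ) h0 (Subtype.ext h1),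
    ((minpoly Ex φ).coeff 0).2,
    sym Ex hA (acl L).toSubring φ (fun g => Br_acl_aut hle g (hL1 hφ)) 0, hfin.toFinset, ?_, ?_,
    fun v ht => ?_⟩
  · intro c' hc' j
    obtain ⟨c, hc, g, rfl⟩ := hfin.mem_toFinset.1 hc'
    exact hMb g _ (hCs c hc j)
  · intro c' hc' j
    obtain ⟨c, hc, g, rfl⟩ := hfin.mem_toFinset.1 hc'
    exact Br_acl_aut hle g (hL1 (hCs c hc j))
  have key : ∀ g : Om ≃ₐ[Ex] Om, ∃ c ∈ hfin.toFinset.filter fun c => ∀ j, v (c j) ≤ 1,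
      v (g φ) ≤ v (Jac D c) ^ m := by
    intro g
    obtain ⟨c, hc, h1, h2⟩ := hv (v.comap (g : Om →+* Om)) fun u hu hu0 => by
      have : v (g u) = 1 := by
        rw [hfix g u (h.le hu)]
        exact ht u hu hu0
      exact this
    refine ⟨fun j => g (c j),
      Finset.mem_filter.2 ⟨hfin.mem_toFinset.2 ⟨c, hc, g, rfl⟩, h1⟩, ?_⟩
    have h3 : Jac D (fun j => g (c j)) = g (Jac D c) :=
      jac_map D (g : Om ≃+* Om) c fun j i => frame_comm D h.kill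
        h.dual (g : Om ≃+* Om)
        (fun u hu => by
          have h4 : g u = u := hfix g u (h.le hu)
          exact h4.symm ▸ hu)
        (fun i => hfix g _ (h.mem i)) j (mem_acl.1 (acl_le h.alg (hL1 (hCs c hc i))))
    rw [h3]
    exact h2
  obtain ⟨c0, hc0, -⟩ := key 1
  obtain ⟨c, hc, hmax⟩ := Finset.exists_max_image _ (fun c => v (Jac D c)) ⟨c0, hc0⟩
  refine ⟨c, (Finset.mem_filter.1 hc).1, (Finset.mem_filter.1 hc).2, ?_⟩
  have h5 := sym_graded Ex hA (fun k => v.leAddSubgroup (v (Jac D c) ^ k)) (by simp)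
    (fun i j x y hx hy => by
      simp only [Valuation.mem_leAddSubgroup_iff] at hx hy ⊢
      rw [map_mul, pow_add]
      exact mul_le_mul' hx hy) m φ (fun g => by
      obtain ⟨c1, hc1, h6⟩ := key g
      exact h6.trans (pow_le_pow_left' (hmax c1 hc1) m)) 0
  simpa using h5

/-- the fields `m0 .. chart` of `Ctx0` -/
theorem Emb.charts [IsAlgClosed Om] {F : Type} [Field F] [Algebra ℂ F] {ψ : F →+* Om}
    {L1 L E Mb : Subfield Om} (Em : Emb ℂ ψ (C0 Om) L1) {ι : Type} [Fintype ι] [DecidableEq ι]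
    {D : ι → Derivation ℂ Om Om} {a : ι → Om} (h : Frame (C0 Om) L D a) (hle : L ≤ L1)
    (hL1 : L1 ≤ acl L) (hreg : HasRegularForm ℂ F) (hLE : L ≤ E) {x : Om}
    (hx : Transcendental E x) (halg : ∀ y : Om, y ∈ acl (adj E {x}))
    (hMb : ∀ g : Om ≃ₐ[adj E {x}] Om, ∀ y ∈ L1, g y ∈ Mb) :
    ∃ m0, 0 < m0 ∧ ∃ g0, g0 ≠ 0 ∧ g0 ∈ E ∧ g0 ∈ acl L ∧ ∃ Cs : Finset (ι → Om),
      (∀ c ∈ Cs, ∀ j, c j ∈ Mb) ∧ (∀ c ∈ Cs, ∀ j, c j ∈ acl L) ∧
      ∀ v : RV Om, Triv v (C0 Om) →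
        ∃ c ∈ Cs, (∀ j, v (c j) ≤ 1) ∧ v g0 ≤ v (Jac D c) ^ m0 := by
  obtain ⟨m, hm, φ, hφ, h0, Cs, hCs, hv⟩ := Em.charts0 (h.Br_up hle hL1) hreg
  obtain ⟨m0, h1, g0, h2, h3, h4, h5⟩ :=
    Br_norm h hL1 (hLE.trans (le_adj E _)) halg hMb hm hφ h0 Cs hCs hv
  exact ⟨m0, h1, g0, h2, mem_of_isAlgebraic_adjoin hx h3 (alg_mono hLE (mem_acl.1 h4)), h4, h5⟩

section Br

variable {k F : Type} [Field k] [Field F] [Algebra k F] (φ : F →+* Om)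
  {ι : Type} [Fintype ι] [DecidableEq ι] {D0 : ι → Derivation ℂ Om Om} {b : ι → Om}

omit [Algebra ℂ Om] in
theorem br_emb : Emb k φ (φ.comp (algebraMap k F)).fieldRange φ.fieldRange :=
  ⟨fun _ => Iff.rfl, fun _ => Iff.rfl⟩

theorem br_jac (hfr : Frame (φ.comp (algebraMap k F)).fieldRange φ.fieldRange D0 b) {n : ℕ}
    {D : Fin n → Derivation k F F} (hD : IsFrame k F D) :
    ∃ (e : Fin n ≃ ι) (c : F), c ≠ 0 ∧ ∀ f : Fin n → F,
      φ (Matrix.det (Matrix.of fun i j => D i (f j))) =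
        φ c * Jac D0 fun i => φ (f (e.symm i)) := by
  obtain ⟨D1, h1⟩ := (br_emb φ).der hfr
  obtain ⟨e, c, hc, he⟩ :=
    Br_change ((br_emb φ).basis hfr h1).1 ((br_emb φ).basis hfr h1).2 hD
  exact ⟨e, c, hc, fun f => by rw [he, map_mul, Br_jac_map h1]; rfl⟩

theorem br_trdeg (hfr : Frame (φ.comp (algebraMap k F)).fieldRange φ.fieldRange D0 b) :
    Algebra.trdeg k F = Fintype.card ι :=
  (br_emb φ).trdeg hfr

theorem br_up [IsAlgClosed Om]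
    (hfr : Frame (φ.comp (algebraMap k F)).fieldRange φ.fieldRange D0 b) {n : ℕ}
    {D : Fin n → Derivation k F F} (hD : IsFrame k F D) :
    ∃ c : F, c ≠ 0 ∧ ∀ m ψ, IsPluri k F D m ψ →
      Reg (φ.comp (algebraMap k F)).fieldRange φ.fieldRange D0 m (φ (ψ / c ^ m)) :=
  (br_emb φ).reg_of_pluri hfr hD

theorem br_rat_up [IsAlgClosed Om]
    (hfr : Frame (φ.comp (algebraMap k F)).fieldRange φ.fieldRange D0 b) :
    ∀ h ∈ ratios k F, φ h ∈ Rat (φ.comp (algebraMap k F)).fieldRange φ.fieldRange D0 :=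
  fun h hh => (br_emb φ).ratios_sub hfr ⟨h, hh, rfl⟩

theorem br_rat_down (hfr : Frame (φ.comp (algebraMap k F)).fieldRange φ.fieldRange D0 b)
    (halg : ∀ y : Om, y ∈ acl φ.fieldRange) :
    ∀ h ∈ Rat (φ.comp (algebraMap k F)).fieldRange φ.fieldRange D0,
      ∃ h' ∈ ratios k F, φ h' = h :=
  fun _ hh => (br_emb φ).rat_sub hfr halg hh

theorem br_chart {n : ℕ} {D0 : Fin n → Derivation ℂ Om Om} {b : Fin n → Om}
    (hfr : Frame (φ.comp (algebraMap k F)).fieldRange φ.fieldRange D0 b)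
    (h : HasRegularForm k F) :
    ∃ (m : ℕ) (g : Om) (Cs : Finset (Fin n → Om)), 0 < m ∧ g ≠ 0 ∧ g ∈ φ.fieldRange ∧
      (∀ c ∈ Cs, ∀ j, c j ∈ φ.fieldRange) ∧
      ∀ v : RV Om, Triv v (φ.comp (algebraMap k F)).fieldRange →
        ∃ c ∈ Cs, (∀ j, v (c j) ≤ 1) ∧ v g ≤ v (Jac D0 c) ^ m := by
  obtain ⟨m, hm, g, hg, h0, Cs, h1, h2⟩ := (br_emb φ).charts0 hfr h
  exact ⟨m, g, Cs, hm, h0, hg, h1, h2⟩

end Br

end Pool.Agent.Lib.MP_5c318e_ag
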