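import Pool.Agent.Lib.MP_5c318e_ag.Val
import Pool.Agent.Lib.MP_5c318e_ag.Sym

/-! The norm of a regular form on a finite cover of the fixed factor. -/

namespace Pool.Agent.Lib.MP_5c318e_ag
open scoped Classical NNReal
open Polynomial

variable {Om : Type} [Field Om] [Algebra ℂ Om] [IsAlgClosed Om]

theorem chart_norm {n : ℕ} (dA : Fin n → Derivation ℂ Om Om) (F0 W : Subfield Om)
    (hC : C0 Om ≤ F0) (halg : ∀ y : Om, y ∈ acl F0)
    (hW : ∀ g : Om ≃ₐ[F0] Om, ∀ y ∈ W, g y ∈ W)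
    (hD : ∀ g : Om ≃ₐ[F0] Om, ∀ j y, dA j (g y) = g (dA j y)) {m : ℕ} (hm : 0 < m) {g1 : Om}
    (hg0 : g1 ≠ 0) (hgW : g1 ∈ W) (Cs : Finset (Fin n → Om)) (hCs : ∀ c ∈ Cs, ∀ j, c j ∈ W)
    (h : ∀ v : RV Om, Triv v (C0 Om) → ∃ c ∈ Cs, (∀ j, v (c j) ≤ 1) ∧ v g1 ≤ v (Jac dA c) ^ m) :
    ∃ (m0 : ℕ) (g0 : Om) (Cs' : Finset (Fin n → Om)), 0 < m0 ∧ g0 ≠ 0 ∧ g0 ∈ F0 ∧ g0 ∈ W ∧
      (∀ c ∈ Cs', ∀ j, c j ∈ W) ∧ ∀ v : RV Om, Triv v (C0 Om) →
        ∃ c ∈ Cs', (∀ j, v (c j) ≤ 1) ∧ v g0 ≤ v (Jac dA c) ^ m0 := by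
  have : CharZero Om := charZero_of_algebra
  have hal := isAlgebraic_of_acl halg
  have hfin : ∀ y : Om, {z | ∃ g : Om ≃ₐ[F0] Om, g y = z}.Finite := fun y => by
    have hi : IsIntegral F0 y := (mem_acl.1 (halg y)).isIntegral
    refine ((minpoly F0 y).rootSet_finite Om).subset ?_
    rintro _ ⟨g, rfl⟩
    rw [mem_rootSet]
    refine ⟨minpoly.ne_zero hi, ?_⟩
    rw [aeval_algHom_apply, minpoly.aeval, map_zero]
  have hfin' : {c' : Fin n → Om | ∃ c ∈ Cs, ∃ g : Om ≃ₐ[F0] Om, c' = fun j => g (c j)}.Finite := by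
    refine (Set.Finite.biUnion Cs.finite_toSet fun c _ =>
      Set.Finite.pi' fun j => hfin (c j)).subset ?_
    rintro _ ⟨c, hc, g, rfl⟩
    exact Set.mem_biUnion hc fun j => ⟨g, rfl⟩
  set S := ((minpoly F0 g1).map (algebraMap F0 Om)).roots with hS
  obtain ⟨hprod, hcard⟩ := minpoly_map_eq F0 hal g1
  have hi : IsIntegral F0 g1 := (mem_acl.1 (halg g1)).isIntegral
  have hroot : ∀ r ∈ S, ∃ g : Om ≃ₐ[F0] Om, g g1 = r := fun r hr => root_conj F0 hal g1 r hr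
  have hSpos : 0 < Multiset.card S := by rw [hS, hcard]; exact minpoly.natDegree_pos hi
  have hc0 : ((minpoly F0 g1).coeff 0 : Om) = (-1) ^ Multiset.card S * S.prod := by
    have := congrArg (eval 0) hprod
    rw [← coeff_zero_eq_eval_zero, coeff_map, eval_multiset_prod, Multiset.map_map] at this
    rw [show ((minpoly F0 g1).coeff 0 : Om) = algebraMap F0 Om ((minpoly F0 g1).coeff 0) from rfl,
      this, ← Multiset.prod_map_neg]
    congr 1
    exact Multiset.map_congr rfl fun r _ => by simp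
  refine ⟨m * Multiset.card S, S.prod, hfin'.toFinset, Nat.mul_pos hm hSpos, ?_, ?_, ?_, ?_, ?_⟩
  · refine Multiset.prod_ne_zero fun h0 => ?_
    obtain ⟨g, hg⟩ := hroot 0 h0
    exact hg0 ((map_eq_zero g).1 hg)
  · have h1 : S.prod = (-1) ^ Multiset.card S * ((minpoly F0 g1).coeff 0 : Om) := by
      rw [hc0, ← mul_assoc, ← mul_pow]; simp
    rw [h1]
    exact F0.mul_mem (F0.pow_mem (F0.neg_mem F0.one_mem) _) ((minpoly F0 g1).coeff 0).2
  · refine W.multiset_prod_mem _ fun r hr => ?_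
    obtain ⟨g, rfl⟩ := hroot r hr
    exact hW g _ hgW
  · intro c' hc' j
    obtain ⟨c, hc, g, rfl⟩ := hfin'.mem_toFinset.1 hc'
    exact hW g _ (hCs c hc j)
  · intro v hv
    have key : ∀ g : Om ≃ₐ[F0] Om, ∃ c' ∈ hfin'.toFinset, (∀ j, v (c' j) ≤ 1) ∧
        v (g g1) ≤ v (Jac dA c') ^ m := fun g => by
      obtain ⟨c, hc, h1, h2⟩ := h (vaut v g) fun u hu h0 => by
        rw [vaut_apply, aut_fix F0 g (hC hu)]; exact hv u hu h0
      refine ⟨fun j => g (c j), hfin'.mem_toFinset.2 ⟨c, hc, g, rfl⟩, h1, ?_⟩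
      have h3 : Jac dA (fun j => g (c j)) = g (Jac dA c) := by
        unfold Jac
        rw [show g (Matrix.of fun a b => dA b (c a)).det =
          (g : Om →+* Om) (Matrix.of fun a b => dA b (c a)).det from rfl, RingHom.map_det]
        congr 1
        ext a b
        simp [hD]
      rw [h3]; exact h2
    obtain ⟨c0, hc0', hmax⟩ := Finset.exists_max_image
      (hfin'.toFinset.filter fun c => ∀ j, v (c j) ≤ 1) (fun c => v (Jac dA c)) (by
        obtain ⟨c', h1, h2, -⟩ := key 1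
        exact ⟨c', Finset.mem_filter.2 ⟨h1, h2⟩⟩)
    refine ⟨c0, (Finset.mem_filter.1 hc0').1, (Finset.mem_filter.1 hc0').2, ?_⟩
    rw [map_multiset_prod, pow_mul]
    have := Multiset.prod_le_pow_card (S.map v) (v (Jac dA c0) ^ m) fun y hy => by
      obtain ⟨r, hr, rfl⟩ := Multiset.mem_map.1 hy
      obtain ⟨g, rfl⟩ := hroot r hr
      obtain ⟨c', h1, h2, h3⟩ := key g
      exact h3.trans (pow_le_pow_left' (hmax c' (Finset.mem_filter.2 ⟨h1, h2⟩)) m)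
    rwa [Multiset.card_map] at this

end Pool.Agent.Lib.MP_5c318e_ag
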