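import Pool.Agent.Lib.MP_5c318e_ag.FinV
import Pool.Agent.Lib.MP_5c318e_ag.Gauss

/-! Rigidity of covers: an algebraic extension of `k(s)` that is unramified at every prime divisor
that is not constant is generated by `k` and constants. -/

set_option autoImplicit false

namespace Pool.Agent.Lib.MP_5c318e_ag

open Polynomial NNReal

variable {Om ι R : Type*} [Field Om] [CommRing R] [Algebra R Om]

theorem Cover_der_mem [CharZero Om] (D : Derivation R Om Om) {F N : Subfield Om} (hFN : F ≤ N)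
    (hD : ∀ a ∈ F, D a ∈ N) {y : Om} (hy : y ∈ N) (ha : IsAlgebraic F y) : D y ∈ N := by
  have hi := ha.isIntegral
  set q := (minpoly F y).map (algebraMap F Om) with hq
  have hc : ∀ i, q.coeff i ∈ F := fun i => by rw [hq, coeff_map]; exact ((minpoly F y).coeff i).2
  have h0 : q.eval y = 0 := by rw [hq, eval_map_algebraMap]; exact minpoly.aeval F y
  have h1 : q.derivative.eval y ≠ 0 := by
    have hsep : q.Separable := (minpoly.irreducible hi).separable.map
    simpa using hsep.eval₂_derivative_ne_zero (RingHom.id Om) (x := y) (by simpa using h0)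
  have e := Log_der_eval D q y
  rw [h0, map_zero] at e
  have e2 : D y = -(∑ i ∈ Finset.range (q.natDegree + 1), D (q.coeff i) * y ^ i)
      / q.derivative.eval y := by
    field_simp
    linear_combination -e
  rw [e2]
  refine div_mem (neg_mem (sum_mem fun i _ => mul_mem (hD _ (hc i)) (pow_mem hy i))) ?_
  rw [eval_eq_sum_range]
  refine sum_mem fun i _ => mul_mem ?_ (pow_mem hy i)
  rw [coeff_derivative, ← Nat.cast_succ]
  exact mul_mem (hFN (hc _)) (natCast_mem N _)

theorem Cover_der_poly {k : Subfield Om} {s : ι → Om} (D : Derivation R Om Om)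
    (hk : ∀ a ∈ k, D a ∈ k) (hD : ∀ i, D (s i) = 0) (p : MvPolynomial ι k) :
    ∃ p' : MvPolynomial ι k, p'.totalDegree ≤ p.totalDegree ∧
      D (MvPolynomial.aeval s p) = MvPolynomial.aeval s p' := by
  classical
  refine ⟨∑ m ∈ p.support, MvPolynomial.monomial m ⟨D (p.coeff m : k), hk _ (p.coeff m).2⟩, ?_, ?_⟩
  · refine MvPolynomial.totalDegree_finsetSum_le fun m hm => ?_
    exact le_trans (MvPolynomial.totalDegree_monomial_le _ _) (MvPolynomial.le_totalDegree hm)
  · conv_lhs => rw [p.as_sum]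
    rw [map_sum, map_sum, map_sum]
    refine Finset.sum_congr rfl fun m _ => ?_
    have h0 : D (m.prod fun i e => s i ^ e) = 0 := by
      rw [Finsupp.prod]
      refine Finset.prod_induction _ (fun x => D x = 0) (fun a b ha hb => ?_) (by simp)
        fun i _ => by simp [Derivation.leibniz_pow, hD]
      simp [ha, hb]
    rw [MvPolynomial.aeval_monomial, MvPolynomial.aeval_monomial, Derivation.leibniz, h0,
      smul_zero, zero_add, smul_eq_mul, mul_comm]
    rfl

theorem Cover_der_F {k : Subfield Om} {s : ι → Om} (D : Derivation R Om Om)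
    (hk : ∀ a ∈ k, D a ∈ k) (hD : ∀ i, D (s i) = 0) (u : Om)
    (hu : u ∈ Subfield.closure ((k : Set Om) ∪ Set.range s)) :
    D u ∈ Subfield.closure ((k : Set Om) ∪ Set.range s) := by
  obtain ⟨a, b, -, -, rfl⟩ := FinV_ratio hu
  obtain ⟨a', -, ha⟩ := Cover_der_poly D hk hD a
  obtain ⟨b', -, hb⟩ := Cover_der_poly D hk hD b
  rw [Derivation.leibniz_div, ha, hb]
  simp only [smul_eq_mul]
  exact mul_mem (pow_mem (inv_mem (FinV_mem k s b)) 2)
    (sub_mem (mul_mem (FinV_mem k s b) (FinV_mem k s a')) (mul_mem (FinV_mem k s a) (FinV_mem k s b')))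

theorem Cover_lc {G : Type*} [LinearOrderedCommGroupWithZero G] (v : Valuation Om G) (q : Om[X])
    (M : G) (h : ∀ i, v (q.coeff i) ≤ M) (t : Om) (ht : q.eval t = 0) :
    v (q.leadingCoeff * t) ≤ M := by
  by_contra hc
  push Not at hc
  have h1 : 1 < v t := by
    by_contra h1
    push Not at h1
    rw [map_mul] at hc
    exact absurd (le_trans (mul_le_of_le_one_right' h1) (h _)) (not_le.mpr hc)
  have hp : 0 < v t := lt_trans zero_lt_one h1
  rw [eval_eq_sum_range, Finset.sum_range_succ] at ht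
  have h2 : q.coeff q.natDegree * t ^ q.natDegree
      = -∑ i ∈ Finset.range q.natDegree, q.coeff i * t ^ i := by linear_combination ht
  have h0 : v (q.coeff q.natDegree * t ^ q.natDegree) ≠ 0 := by
    rw [map_mul, map_pow]
    refine mul_ne_zero (fun h0 => ?_) (pow_ne_zero _ hp.ne')
    rw [map_mul, leadingCoeff, h0, zero_mul] at hc
    exact absurd hc (not_lt.mpr zero_le)
  have h3 : v (∑ i ∈ Finset.range q.natDegree, q.coeff i * t ^ i)
      < v (q.coeff q.natDegree * t ^ q.natDegree) := by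
    refine v.map_sum_lt h0 fun i hi => ?_
    obtain ⟨j, hj⟩ := Nat.exists_eq_add_of_lt (Finset.mem_range.mp hi)
    rw [map_mul, map_pow]
    calc v (q.coeff i) * v t ^ i ≤ M * v t ^ (i + j) :=
          mul_le_mul' (h i) (pow_le_pow_right₀ h1.le (Nat.le_add_right i j))
      _ < v (q.leadingCoeff * t) * v t ^ (i + j) := mul_lt_mul_of_pos_right hc (pow_pos hp _)
      _ = v (q.coeff q.natDegree * t ^ q.natDegree) := by
          rw [leadingCoeff, hj, map_mul, map_mul, map_pow, pow_succ', mul_assoc]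
  rw [h2, Valuation.map_neg] at h3
  exact lt_irrefl _ h3

theorem Cover_rind {k : Subfield Om} {s : ι → Om} (v : Valuation Om ℝ≥0) (hv : PV k s v) :
    ∃ i0 : ι, RInd v k fun a : {a // a ≠ i0} => s a := by
  classical
  obtain ⟨Q, hQ, h1, h2⟩ := hv
  have key := prime_val_iff (MvPolynomial.aeval s : MvPolynomial ι k →ₐ[k] Om).toRingHom v h1 h2
  have hne : Q.vars.Nonempty := by
    rw [Finset.nonempty_iff_ne_empty]
    intro h
    have e := MvPolynomial.vars_eq_empty_iff_eq_C.mp h
    have h0 : Q.coeff 0 ≠ 0 := fun h0 => hQ.ne_zero (by rw [e, h0, map_zero])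
    exact hQ.not_isUnit (e ▸ (IsUnit.mk0 _ h0).map MvPolynomial.C)
  obtain ⟨i0, hi0⟩ := hne
  refine ⟨i0, fun p hp => ?_⟩
  have e : MvPolynomial.aeval (fun a : {a // a ≠ i0} => s a) p
      = MvPolynomial.aeval s (MvPolynomial.rename Subtype.val p) := by
    rw [MvPolynomial.aeval_rename]; rfl
  have hp' : MvPolynomial.rename (Subtype.val : {a // a ≠ i0} → ι) p ≠ 0 := fun h =>
    hp (MvPolynomial.rename_injective _ Subtype.val_injective (by rw [h, map_zero]))
  rw [e]
  refine le_antisymm (key _).1 (not_lt.mp fun hlt => ?_)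
  obtain ⟨r, hr⟩ := (key _).2.mp hlt
  have hr0 : r ≠ 0 := fun h => hp' (by rw [hr, h, mul_zero])
  have : i0 ∈ (MvPolynomial.rename (Subtype.val : {a // a ≠ i0} → ι) p).vars := by
    rw [MvPolynomial.mem_vars_iff_degreeOf_ne_zero, hr,
      MvPolynomial.degreeOf_mul_eq hQ.ne_zero hr0]
    have := MvPolynomial.mem_vars_iff_degreeOf_ne_zero.mp hi0
    omega
  obtain ⟨i, -, hi⟩ := MvPolynomial.mem_vars_rename _ _ this
  exact i.2 hi

theorem Cover_log_zpow {G : Type*} [LinearOrderedCommGroupWithZero G] (v : Valuation Om G)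
    (D : Derivation R Om Om) {del : G} {a : Om} (ha : v (D a) ≤ del * v a) (n : ℤ) :
    v (D (a ^ n)) ≤ del * v (a ^ n) := by
  rcases Int.eq_nat_or_neg n with ⟨m, rfl | rfl⟩
  · rw [zpow_natCast]; exact log_pow v D ha m
  · rw [zpow_neg, zpow_natCast]; exact log_inv v D (log_pow v D ha m)

theorem Cover_log_const {G : Type*} [LinearOrderedCommGroupWithZero G] (v : Valuation Om G)
    (hv : ∀ n : ℕ, n ≠ 0 → v n = 1) (D : Derivation R Om Om) (F : Subfield Om) (t : Om)
    (htF : t ∈ F) (ht0 : t ≠ 0) (ht : v t < 1) (hgrp : ∀ f ∈ F, f ≠ 0 → ∃ k : ℤ, v f = v t ^ k)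
    (hreg : ∀ f ∈ F, v f ≤ 1 → v (D f) ≤ 1) (h : Om) (hh : h ∈ F) (h0 : h ≠ 0) (hlt : v h < 1)
    (hD : D h = 0) : ∀ f ∈ F, v (D f) ≤ 1 * v f := by
  have hvt : 0 < v t := zero_lt_iff.mpr fun h => ht0 (v.zero_iff.mp h)
  have hunit : ∀ f ∈ F, ∀ m : ℤ, v f = v t ^ m → v (D (f / t ^ m)) ≤ 1 * v (f / t ^ m) := by
    intro f hf m hm
    have : v (f / t ^ m) = 1 := by rw [map_div₀, map_zpow₀, hm, div_self (zpow_ne_zero m hvt.ne')]
    rw [this, one_mul]
    exact hreg _ (div_mem hf (zpow_mem htF m)) this.le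
  have hlt' : v (D t) ≤ 1 * v t := by
    obtain ⟨m, hm⟩ := hgrp h hh h0
    have hm1 : 0 < m := (zpow_lt_one_iff_right_of_lt_one₀ hvt ht).mp (hm ▸ hlt)
    have h1 := log_mul v D (a := h) (by simp [hD]) (log_inv v D (hunit h hh m hm))
    have e : h * (h / t ^ m)⁻¹ = t ^ m := by field_simp
    obtain ⟨n, rfl⟩ := Int.eq_succ_of_zero_lt hm1
    rw [e, ← Nat.cast_succ, zpow_natCast, Derivation.leibniz_pow, nsmul_eq_mul, smul_eq_mul,
      map_mul, map_mul, hv _ (Nat.succ_ne_zero n), one_mul, one_mul, map_pow, map_pow,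
      Nat.succ_sub_one, pow_succ] at h1
    rw [one_mul]
    exact le_of_mul_le_mul_left h1 (pow_pos hvt n)
  intro f hf
  by_cases hf0 : f = 0
  · simp [hf0]
  obtain ⟨m, hm⟩ := hgrp f hf hf0
  have := log_mul v D (hunit f hf m hm) (Cover_log_zpow v D hlt' m)
  rwa [div_mul_cancel₀ _ (zpow_ne_zero m ht0)] at this

theorem COVER [IsAlgClosed Om] [CharZero Om] [Finite ι] (k : Subfield Om) [IsAlgClosed k]
    (s : ι → Om) (hs : AlgebraicIndependent k s)
    (halg : ∀ y : Om, IsAlgebraic (Subfield.closure ((k : Set Om) ∪ Set.range s)) y)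
    (Ds : Set (Derivation R Om Om)) (hk : ∀ D ∈ Ds, ∀ a ∈ k, D a ∈ k)
    (hDs : ∀ D ∈ Ds, ∀ i, D (s i) = 0) (N : Subfield Om)
    (hN : Subfield.closure ((k : Set Om) ∪ Set.range s) ≤ N)
    (H : ∀ v : Valuation Om ℝ≥0, (∀ i, v (s i) ≤ 1) →
      (∃ i0 : ι, RInd v k fun a : {a // a ≠ i0} => s a) →
      (∃ f ∈ Subfield.closure ((k : Set Om) ∪ Set.range s), f ≠ 0 ∧ v f < 1) →
      (∃ h ∈ Subfield.closure ((k : Set Om) ∪ Set.range s),
        h ≠ 0 ∧ v h < 1 ∧ ∀ D ∈ Ds, D h = 0) ∨
      ∀ y ∈ N, ∃ f ∈ Subfield.closure ((k : Set Om) ∪ Set.range s), v y = v f) :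
    N ≤ Subfield.closure ((k : Set Om) ∪ {c | ∀ D ∈ Ds, D c = 0}) := by
  classical
  set F := Subfield.closure ((k : Set Om) ∪ Set.range s) with hF
  set Z := Subfield.closure ((k : Set Om) ∪ {c | ∀ D ∈ Ds, D c = 0}) with hZ
  have hkF : k ≤ F := fun a ha => Subfield.subset_closure (Or.inl ha)
  have hkZ : k ≤ Z := fun a ha => Subfield.subset_closure (Or.inl ha)
  have hFZ : F ≤ Z := Subfield.closure_mono (Set.union_subset_union_right _ (by
    rintro _ ⟨i, rfl⟩ D hD
    exact hDs D hD i))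
  intro y hy
  obtain ⟨q, hq, h0, h1⟩ := Rigid_poly k (Set.range s) y (halg y)
  have hqp : ∀ i, ∃ p : MvPolynomial ι k, MvPolynomial.aeval s p = q.coeff i := fun i => by
    have := hq i
    rwa [Algebra.adjoin_range_eq_range_aeval] at this
  choose p hp using hqp
  have hl0 : q.leadingCoeff ≠ 0 := fun h => h1 (by rw [leadingCoeff_eq_zero.mp h]; simp)
  have hlF : q.leadingCoeff ∈ F := by rw [leadingCoeff, ← hp]; exact FinV_mem k s _
  set th := q.leadingCoeff * y with hth
  let N' := (IntermediateField.adjoin F {th}).toSubfield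
  have hFN' : F ≤ N' := fun a ha => (IntermediateField.adjoin F {th}).algebraMap_mem ⟨a, ha⟩
  have hN' : N' ≤ N := by
    refine le_trans (closure_eq_adjoin F {th}).ge (Subfield.closure_le.mpr ?_)
    exact Set.union_subset hN (Set.singleton_subset_iff.mpr (mul_mem (hN hlF) hy))
  let c : ℝ≥0 := ⟨Real.exp ((Finset.range (q.natDegree + 1)).sup fun i => (p i).totalDegree : ℕ),
    (Real.exp_pos _).le⟩
  have hc : 1 ≤ c := by
    rw [← NNReal.coe_le_coe]
    exact Real.one_le_exp (Nat.cast_nonneg _)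
  have hthV : th ∈ VV k s N' (hkF.trans hFN') c := by
    refine ⟨IntermediateField.mem_adjoin_simple_self F th, fun v hv => ?_, fun v hv => ?_⟩
    · obtain ⟨Q, -, h2, h3⟩ := hv
      refine Cover_lc v q 1 (fun i => ?_) y h0
      rw [← hp]
      exact (prime_val_iff
        (MvPolynomial.aeval s : MvPolynomial ι k →ₐ[k] Om).toRingHom v h2 h3 _).1
    · refine Cover_lc v q c (fun i => ?_) y h0
      by_cases hi : q.coeff i = 0
      · simp [hi]
      rw [← NNReal.coe_le_coe, ← hp, hv _ fun h => hi (by rw [← hp, h, map_zero])]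
      refine Real.exp_le_exp.mpr (Nat.cast_le.mpr (Finset.le_sup (f := fun i => (p i).totalDegree)
        (Finset.mem_range.mpr (Nat.lt_succ_of_le (le_natDegree_of_ne_zero hi)))))
  have := FinV_fin hs halg th N' (hkF.trans hFN') le_rfl c hc hthV
  have hnat : ∀ v : Valuation Om ℝ≥0, (∀ a ∈ k, v a ≤ 1) → ∀ n : ℕ, n ≠ 0 → v n = 1 :=
    fun v hv n hn => v_eq_one_of_isAlgebraic hv
      (isAlgebraic_algebraMap (⟨n, natCast_mem k n⟩ : k)) (Nat.cast_ne_zero.mpr hn)
  have hV : ∀ D ∈ Ds, ∀ f ∈ VV k s N' (hkF.trans hFN') c,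
      D f ∈ VV k s N' (hkF.trans hFN') c := by
    intro D hD f hf
    refine ⟨Cover_der_mem D hFN' (fun a ha => hFN' (Cover_der_F D (hk D hD) (hDs D hD) a ha))
      hf.1 (halg f), fun v hv => ?_, fun v hv => ?_⟩
    · obtain ⟨Q, hQ, h2, h3⟩ := id hv
      have key := prime_val_iff
        (MvPolynomial.aeval s : MvPolynomial ι k →ₐ[k] Om).toRingHom v h2 h3
      have hle : ∀ p : MvPolynomial ι k, v (MvPolynomial.aeval s p) ≤ 1 := fun p => (key p).1
      have hv1 := hnat v fun a ha => by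
        have := hle (MvPolynomial.C ⟨a, ha⟩)
        rwa [MvPolynomial.aeval_C] at this
      have hQ0 : MvPolynomial.aeval s Q ≠ 0 := fun h =>
        hQ.ne_zero (hs.eq_zero_of_aeval_eq_zero Q h)
      have hgrp : ∀ f ∈ F, f ≠ 0 → ∃ m : ℤ, v f = v (MvPolynomial.aeval s Q) ^ m :=
        fun f hf hf0 => grp_closure
          (MvPolynomial.aeval s : MvPolynomial ι k →ₐ[k] Om).toRingHom v
          (fun h => hQ0 (v.zero_iff.mp h))
          (fun b hb => ⟨multiplicity Q b, by
            rw [zpow_natCast]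
            exact h3 b fun h => hb (by rw [h, map_zero])⟩)
          (closure_mvaeval_range k s hf) hf0
      have hreg : ∀ u ∈ F, v u ≤ 1 → v (D u) ≤ 1 := by
        intro u hu hu1
        obtain ⟨a, b, hb, hab, rfl⟩ := FinV_ratio hu
        have hb1 : v (MvPolynomial.aeval s b) = 1 := le_antisymm (hle b) (not_lt.mp fun h =>
          FinV_den hs v hQ h2 h3 hb hab hu1 ((key b).2.mp h))
        obtain ⟨a', -, ha'⟩ := Cover_der_poly D (hk D hD) (hDs D hD) a
        obtain ⟨b', -, hb'⟩ := Cover_der_poly D (hk D hD) (hDs D hD) b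
        rw [Derivation.leibniz_div, ha', hb']
        simp only [smul_eq_mul, map_mul, map_pow, map_inv₀, hb1, inv_one, one_pow, one_mul]
        simpa using hle (b * a' - a * b')
      rcases H v (fun i => by simpa using hle (MvPolynomial.X i)) (Cover_rind v hv)
        ⟨_, FinV_mem k s Q, hQ0, h2⟩ with ⟨h, hh, hh0, hlt, hc⟩ | hun
      · have := LOG v hv1 D 1 F (Cover_log_const v hv1 D F _ (FinV_mem k s Q) hQ0 h2 hgrp hreg h
          hh hh0 hlt (hc D hD)) f (halg f)
        rw [one_mul] at this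
        exact le_trans this (hf.2.1 v hv)
      · refine DREG v hv1 D F N' hFN' (fun z _ => halg z) _ (FinV_mem k s Q) hQ0 h2
          (fun z hz hz0 => ?_) 1 hreg f hf.1 (hf.2.1 v hv)
        obtain ⟨g, hg, e⟩ := hun z (hN' hz)
        rw [e]
        exact hgrp g hg fun h => hz0 (v.zero_iff.mp (by rw [e, h, map_zero]))
    · have hv1 := hnat v fun a ha => by
        by_cases ha0 : a = 0
        · simp [ha0]
        have := hv (MvPolynomial.C ⟨a, ha⟩) fun h =>
          ha0 (congrArg Subtype.val (MvPolynomial.C_eq_zero.mp h))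
        rw [MvPolynomial.totalDegree_C, Nat.cast_zero, Real.exp_zero, MvPolynomial.aeval_C] at this
        exact (NNReal.coe_eq_one.mp this).le
      have hlog : ∀ a : MvPolynomial ι k, v (D (MvPolynomial.aeval s a))
          ≤ 1 * v (MvPolynomial.aeval s a) := fun a => by
        by_cases ha : a = 0
        · simp [ha]
        obtain ⟨a', hd, ha'⟩ := Cover_der_poly D (hk D hD) (hDs D hD) a
        rw [ha', one_mul]
        by_cases ha0 : a' = 0
        · simp [ha0]
        rw [← NNReal.coe_le_coe, hv a ha, hv a' ha0]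
        exact Real.exp_le_exp.mpr (Nat.cast_le.mpr hd)
      have := LOG v hv1 D 1 F (fun u hu => by
        obtain ⟨a, b, -, -, rfl⟩ := FinV_ratio hu
        rw [div_eq_mul_inv]
        exact log_mul v D (hlog a) (log_inv v D (hlog b))) f (halg f)
      rw [one_mul] at this
      exact le_trans this (hf.2.2 v hv)
  have hspan := RIGID k s hs Ds hk hDs _ (fun f _ => halg f) hV hthV
  have hthZ : th ∈ Z := by
    refine Submodule.span_induction (fun x hx => Subfield.subset_closure (Or.inr hx.2)) Z.zero_mem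
      (fun x y _ _ => Z.add_mem) (fun a x _ hx => Z.mul_mem (hkZ a.2) hx) hspan
  have : y = q.leadingCoeff⁻¹ * th := by rw [hth, inv_mul_cancel_left₀ hl0]
  rw [this]
  exact Z.mul_mem (Z.inv_mem (hFZ hlF)) hthZ

end Pool.Agent.Lib.MP_5c318e_ag
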