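import Mathlib

/-! Loopless multigraphs with prescribed degrees (edges are ordered pairs). -/

open Finset

namespace Pool.Agent.Lib.MP_5c318e_ag

variable {ι : Type*} [Fintype ι] [DecidableEq ι]

/-- degree of a vertex in a multigraph given by multiplicities of ordered pairs -/
def gdeg (Ga : ι → ι → ℕ) (i : ι) : ℕ := ∑ j, (Ga i j + Ga j i)

omit [DecidableEq ι] in
theorem sum_gdeg (Ga : ι → ι → ℕ) : ∑ i, gdeg Ga i = 2 * ∑ i, ∑ j, Ga i j := by
  simp only [gdeg, sum_add_distrib]
  rw [sum_comm (f := fun i j => Ga j i)]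
  ring

theorem gdeg_single (a b i : ι) :
    gdeg (fun x y => if x = a ∧ y = b then 1 else 0) i =
      (if i = a then 1 else 0) + (if i = b then 1 else 0) := by
  simp only [gdeg, sum_add_distrib]
  congr 1
  · by_cases h : i = a <;> simp [h]
  · by_cases h : i = b <;> simp [h]

omit [DecidableEq ι] in
theorem gdeg_add (A B : ι → ι → ℕ) (i : ι) :
    gdeg (fun x y => A x y + B x y) i = gdeg A i + gdeg B i := by
  simp only [gdeg, ← sum_add_distrib]
  exact sum_congr rfl fun j _ => by ring

theorem exists_multigraph (n : ℕ) : ∀ D : ι → ℕ, ∑ i, D i = 2 * n → (∀ i, D i ≤ n) →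
    ∃ Ga : ι → ι → ℕ, (∀ i, Ga i i = 0) ∧ ∀ i, gdeg Ga i = D i := by
  induction n with
  | zero =>
    intro D _ h
    exact ⟨fun _ _ => 0, fun _ => rfl, fun i => by have := h i; simp [gdeg]; omega⟩
  | succ n ih =>
    intro D hs h
    have hne : (univ : Finset ι).Nonempty := by
      by_contra h0
      rw [not_nonempty_iff_eq_empty.1 h0, sum_empty] at hs
      omega
    obtain ⟨a, -, ha⟩ := exists_max_image univ D hne
    have hsa : D a + ∑ i ∈ univ.erase a, D i = 2 * (n + 1) := by
      rw [add_sum_erase _ _ (mem_univ a), hs]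
    have hne' : (univ.erase a).Nonempty := by
      by_contra h0
      rw [not_nonempty_iff_eq_empty.1 h0, sum_empty] at hsa
      have := h a
      omega
    obtain ⟨b, hb, hbm⟩ := exists_max_image (univ.erase a) D hne'
    have hba : b ≠ a := ne_of_mem_erase hb
    have hb1 : 1 ≤ D b := by
      by_contra h0
      have : ∑ i ∈ univ.erase a, D i = 0 := sum_eq_zero fun i hi => by
        have := hbm i hi
        omega
      have := h a
      omega
    have ha1 : 1 ≤ D a := hb1.trans (ha b (mem_univ _))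
    set s : ι → ℕ := fun i => (if i = a then 1 else 0) + (if i = b then 1 else 0) with hsdef
    have hsle : ∀ i, s i ≤ D i := fun i => by
      by_cases h1 : i = a
      · subst h1
        simp [hsdef, hba.symm, ha1]
      · by_cases h2 : i = b
        · subst h2
          simp [hsdef, hba, hb1]
        · simp [hsdef, h1, h2]
    have hss : ∑ i, s i = 2 := by simp [hsdef, sum_add_distrib]
    obtain ⟨Ga, h0, hG⟩ := ih (fun i => D i - s i) (by
      have : ∑ i, (D i - s i) + ∑ i, s i = ∑ i, D i := by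
        rw [← sum_add_distrib]
        exact sum_congr rfl fun i _ => Nat.sub_add_cancel (hsle i)
      omega) (fun i => by
      by_cases h1 : i = a
      · have := h i
        have : 1 ≤ s i := by simp [hsdef, h1]
        omega
      · by_cases h2 : i = b
        · have := h i
          have : 1 ≤ s i := by simp [hsdef, h2]
          omega
        · have h3 : D i ≤ D b := hbm i (mem_erase.2 ⟨h1, mem_univ _⟩)
          have h4 : D b ≤ D a := ha b (mem_univ _)
          have h5 : D b + D i ≤ ∑ l ∈ univ.erase a, D l := by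
            rw [← sum_pair (Ne.symm h2)]
            refine sum_le_sum_of_subset fun l hl => ?_
            rcases mem_insert.1 hl with rfl | hl
            · exact hb
            · rw [mem_singleton.1 hl]
              exact mem_erase.2 ⟨h1, mem_univ _⟩
          have := h i
          omega)
    refine ⟨fun x y => Ga x y + if x = a ∧ y = b then 1 else 0, fun i => ?_, fun i => ?_⟩
    · have : ¬ (i = a ∧ i = b) := fun h => hba (h.2.symm.trans h.1)
      simp [h0, this]
    · rw [gdeg_add, gdeg_single, hG]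
      exact Nat.sub_add_cancel (hsle i)

theorem gdeg_complete (i : ι) :
    gdeg (fun x y : ι => if x = y then 0 else 1) i + 2 = 2 * Fintype.card ι := by
  have h : ∀ j : ι, ((if i = j then 0 else 1) + (if j = i then 0 else 1)) +
      (if j = i then 2 else 0) = 2 := fun j => by
    by_cases h : j = i
    · simp [h]
    · simp [h, Ne.symm h]
  have h2 : ∑ j : ι, (if j = i then 2 else 0) = 2 := by simp
  rw [gdeg, ← h2, ← sum_add_distrib, sum_congr rfl fun j _ => h j]
  simp [mul_comm]

/-- all edges present, prescribed degrees -/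
theorem exists_multigraph_all (N : ℕ) (D : ι → ℕ) (hs : ∑ i, D i = 2 * N)
    (h1 : ∀ i, 2 * Fintype.card ι ≤ D i) (h2 : ∀ i, D i + Fintype.card ι ^ 2 ≤ N) :
    ∃ Ga : ι → ι → ℕ, (∀ i, Ga i i = 0) ∧ (∀ i j, i ≠ j → 1 ≤ Ga i j) ∧
      ∑ i, ∑ j, Ga i j = N ∧ ∀ i, gdeg Ga i = D i := by
  set K : ι → ι → ℕ := fun x y => if x = y then 0 else 1 with hK
  have hKd : ∀ i, gdeg K i + 2 = 2 * Fintype.card ι := gdeg_complete
  have hKs := sum_gdeg K
  set M := ∑ i, ∑ j, K i j with hM
  have hMle : M ≤ Fintype.card ι ^ 2 := by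
    calc M ≤ ∑ _i : ι, ∑ _j : ι, 1 :=
          sum_le_sum fun i _ => sum_le_sum fun j _ => by simp only [hK]; split_ifs <;> omega
      _ = _ := by simp [sq]
  have hle : ∀ i, gdeg K i ≤ D i := fun i => by
    have := hKd i
    have := h1 i
    omega
  have hsum : ∑ i, (D i - gdeg K i) + ∑ i, gdeg K i = ∑ i, D i := by
    rw [← sum_add_distrib]
    exact sum_congr rfl fun i _ => Nat.sub_add_cancel (hle i)
  obtain ⟨Ga, h0, hG⟩ := exists_multigraph (N - M) (fun i => D i - gdeg K i) (by omega)
    (fun i => by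
      have := h2 i
      omega)
  have hdeg : ∀ i, gdeg (fun x y => Ga x y + K x y) i = D i := fun i => by
    rw [gdeg_add, hG]
    exact Nat.sub_add_cancel (hle i)
  refine ⟨fun x y => Ga x y + K x y, fun i => by simp [h0, hK],
    fun i j h => by simp [hK, h], ?_, hdeg⟩
  have := sum_gdeg (fun x y => Ga x y + K x y)
  rw [sum_congr rfl fun i _ => hdeg i, hs] at this
  exact (Nat.eq_of_mul_eq_mul_left two_pos this).symm

/-- The multigraph of section 3: weights `eps i = 1 - 1 / e i` of total weight at least two.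
`gdeg Ga i + N / e i ≤ N` says `deg i ≤ eps i * N`. -/
theorem exists_graph (e : ι → ℕ) (he : ∀ i, 2 ≤ e i) (hs : (2 : ℝ) ≤ ∑ i, (1 - 1 / (e i : ℝ)))
    (N0 : ℕ) (hN0 : 0 < N0) :
    ∃ (N : ℕ) (Ga : ι → ι → ℕ), 0 < N ∧ N0 ∣ N ∧ (∀ i, e i ∣ N) ∧ (∀ i, Ga i i = 0) ∧
      (∀ i j, i ≠ j → 1 ≤ Ga i j) ∧ ∑ i, ∑ j, Ga i j = N ∧ (∀ i, gdeg Ga i + N / e i ≤ N) ∧
      ((2 : ℝ) < ∑ i, (1 - 1 / (e i : ℝ)) → ∀ i, gdeg Ga i + N / e i < N) ∧
      ((2 : ℝ) = ∑ i, (1 - 1 / (e i : ℝ)) → ∀ i, gdeg Ga i + N / e i = N) := by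
  set B := ∏ i, e i with hB
  have hBpos : 0 < B := prod_pos fun i _ => by have := he i; omega
  have hdvd : ∀ i, e i ∣ B := fun i => dvd_prod_of_mem _ (mem_univ i)
  choose c hc using hdvd
  have hcpos : ∀ i, 0 < c i := fun i => by
    by_contra h
    have h0 : c i = 0 := by omega
    have := hc i
    rw [h0] at this
    omega
  have hcle : ∀ i, 2 * c i ≤ B := fun i => by
    rw [hc i]
    exact Nat.mul_le_mul_right _ (he i)
  set a : ι → ℕ := fun i => B - c i with ha
  have hac : ∀ i, a i + c i = B := fun i => by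
    have := hcle i
    simp only [ha]
    omega
  set S := ∑ i, a i with hS
  have hSR : (S : ℝ) = B * ∑ i, (1 - 1 / (e i : ℝ)) := by
    rw [hS, Nat.cast_sum, mul_sum]
    refine sum_congr rfl fun i _ => ?_
    have h1 : (a i : ℝ) + c i = B := by exact_mod_cast hac i
    have h2 : (B : ℝ) = e i * c i := by exact_mod_cast hc i
    have h3 : (e i : ℝ) ≠ 0 := by have := he i; positivity
    have h4 : (a i : ℝ) = e i * c i - c i := by linarith
    rw [h4, h2]
    field_simp
  have hBR : (0 : ℝ) < B := by exact_mod_cast hBpos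
  have hS2 : 2 * B ≤ S := by
    have : (2 * B : ℝ) ≤ S := by rw [hSR]; nlinarith
    exact_mod_cast this
  set k := Fintype.card ι with hk
  set T := N0 * (k ^ 2 + k + 1) with hT
  have hT1 : k ^ 2 + k + 1 ≤ T := Nat.le_mul_of_pos_left _ hN0
  have hapos : ∀ i, 0 < a i := fun i => by
    have := hac i
    have := hcle i
    have := hcpos i
    omega
  obtain ⟨r, hr⟩ := Nat.exists_eq_add_of_le hS2
  have hdiv : ∀ i, S * B * T / e i = S * c i * T := fun i => by
    have : S * B * T = e i * (S * c i * T) := by rw [hc i]; ring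
    rw [this, Nat.mul_div_cancel_left _ (by have := he i; omega)]
  have hid : ∀ i, 2 * a i * B * T + S * c i * T + r * a i * T = S * B * T := fun i => by
    have h1 : S * B * T = S * (a i + c i) * T := by rw [hac i]
    rw [h1, hr]
    ring
  obtain ⟨Ga, h0, h1, hN, hdeg⟩ := exists_multigraph_all (S * B * T) (fun i => 2 * a i * B * T)
    (by
      rw [← sum_mul, ← sum_mul, ← mul_sum]
      ring)
    (fun i => by
      have h1 : T ≤ a i * B * T := Nat.le_mul_of_pos_left _ (Nat.mul_pos (hapos i) hBpos)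
      have h2 : 2 * a i * B * T = 2 * (a i * B * T) := by ring
      have : 0 ≤ k ^ 2 := Nat.zero_le _
      omega)
    (fun i => by
      have h1 : T ≤ S * c i * T :=
        Nat.le_mul_of_pos_left _ (Nat.mul_pos (by omega) (hcpos i))
      have := hid i
      rw [← hk]
      omega)
  refine ⟨S * B * T, Ga, Nat.mul_pos (Nat.mul_pos (by omega) hBpos) (by omega),
    Dvd.dvd.mul_left (Dvd.intro _ rfl) _, fun i => ⟨S * c i * T, by rw [hc i]; ring⟩, h0, h1, hN,
    fun i => ?_, fun hlt i => ?_, fun heq i => ?_⟩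
  · rw [hdeg, hdiv]
    have := hid i
    omega
  · have hr0 : 0 < r := by
      have : (2 * B : ℝ) < S := by rw [hSR]; nlinarith
      have : 2 * B < S := by exact_mod_cast this
      omega
    have : 0 < r * a i * T := Nat.mul_pos (Nat.mul_pos hr0 (hapos i)) (by omega)
    rw [hdeg, hdiv]
    have := hid i
    omega
  · have hr0 : r = 0 := by
      have : (S : ℝ) = 2 * B := by rw [hSR, ← heq]; ring
      have : S = 2 * B := by exact_mod_cast this
      omega
    rw [hdeg, hdiv]
    have := hid i
    rw [hr0] at this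
    omega

omit [DecidableEq ι] in
/-- total weight at least two forces at least three marked points -/
theorem three_le_card (e : ι → ℕ) (he : ∀ i, 2 ≤ e i) (hs : (2 : ℝ) ≤ ∑ i, (1 - 1 / (e i : ℝ))) :
    3 ≤ Fintype.card ι := by
  by_contra h
  rcases isEmpty_or_nonempty ι with h0 | h0
  · simp at hs
    linarith
  have h1 : ∑ i, (1 - 1 / (e i : ℝ)) < ∑ _i : ι, (1 : ℝ) :=
    sum_lt_sum_of_nonempty univ_nonempty fun i _ => by
      have : (0 : ℝ) < 1 / (e i : ℝ) := by have := he i; positivity
      linarith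
  have h2 : (Fintype.card ι : ℝ) ≤ 2 := by exact_mod_cast (by omega : Fintype.card ι ≤ 2)
  simp only [sum_const, card_univ, nsmul_eq_mul, mul_one] at h1
  linarith

/-- real form of the degree bound -/
theorem cast_div_eq {N e : ℕ} (he : 0 < e) (h : e ∣ N) :
    ((N / e : ℕ) : ℝ) = N - (1 - 1 / (e : ℝ)) * N := by
  rw [Nat.cast_div h (by positivity)]
  ring

end Pool.Agent.Lib.MP_5c318e_ag
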