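import Pool.Agent.Lib.MP_5c318e_ag.Log

/-! Regularity of derivations passes to algebraic extensions. -/

set_option autoImplicit false

namespace Pool.Agent.Lib.MP_5c318e_ag

open Polynomial

variable {Om G R : Type*} [Field Om] [LinearOrderedCommGroupWithZero G]

theorem Res0_monic (v : Valuation Om G) (F : Subfield Om) (y : Om) (hy : v y ≤ 1) (P : Om[X])
    (hF : ∀ i, P.coeff i ∈ F) (j : ℕ) (hj : v (P.eval y) < v (P.coeff j)) :
    ∃ q : Om[X], q.Monic ∧ (∀ i, q.coeff i ∈ F) ∧ (∀ i, v (q.coeff i) ≤ 1) ∧ v (q.eval y) < 1 := by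
  classical
  have hjs : j ∈ P.support := mem_support_iff.mpr fun h => by rw [h] at hj; simp at hj
  obtain ⟨j0, hj0, hmax⟩ := Finset.exists_max_image P.support (fun i => v (P.coeff i)) ⟨j, hjs⟩
  obtain ⟨m, hm, hmm⟩ := Finset.exists_max_image
    (P.support.filter fun i => v (P.coeff i) = v (P.coeff j0)) id
    ⟨j0, Finset.mem_filter.mpr ⟨hj0, rfl⟩⟩
  obtain ⟨hms, hmv⟩ := Finset.mem_filter.mp hm
  have hm0 : P.coeff m ≠ 0 := mem_support_iff.mp hms
  have hvm : 0 < v (P.coeff m) := zero_lt_iff.mpr fun h => hm0 (v.zero_iff.mp h)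
  have hle : ∀ i, v (P.coeff i) ≤ v (P.coeff m) := fun i => by
    by_cases hi : i ∈ P.support
    · rw [hmv]; exact hmax i hi
    · rw [notMem_support_iff.mp hi]; simp
  have hlt : ∀ i, m < i → v (P.coeff i) < v (P.coeff m) := fun i hi => by
    refine lt_of_le_of_ne (hle i) fun h => ?_
    have his : i ∈ P.support := mem_support_iff.mpr fun h0 => by
      rw [h0, map_zero] at h; exact hvm.ne h
    exact absurd (hmm i (Finset.mem_filter.mpr ⟨his, h.trans hmv⟩)) (not_le.mpr hi)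
  let q : Om[X] := ∑ i ∈ Finset.range (m + 1), monomial i (P.coeff i / P.coeff m)
  have hq : ∀ i, q.coeff i = if i ≤ m then P.coeff i / P.coeff m else 0 := fun i => by
    simp only [q, finsetSum_coeff, coeff_monomial, Finset.sum_ite_eq', Finset.mem_range,
      Nat.lt_succ_iff]
  refine ⟨q, ?_, fun i => ?_, fun i => ?_, ?_⟩
  · refine monic_of_natDegree_le_of_coeff_eq_one m ?_ (by rw [hq, if_pos le_rfl, div_self hm0])
    exact natDegree_le_iff_coeff_eq_zero.mpr fun i hi => by rw [hq, if_neg (not_le.mpr hi)]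
  · rw [hq]; split_ifs
    · exact div_mem (hF i) (hF m)
    · exact F.zero_mem
  · rw [hq]; split_ifs
    · rw [map_div₀, div_le_one₀ hvm]; exact hle i
    · simp
  · have h1 : q.eval y = (∑ i ∈ Finset.range (m + 1), P.coeff i * y ^ i) / P.coeff m := by
      simp only [q, eval_finsetSum, eval_monomial, Finset.sum_div]
      exact Finset.sum_congr rfl fun i _ => by ring
    have h2 : P.eval y = ∑ i ∈ Finset.range (m + 1), P.coeff i * y ^ i
        + ∑ i ∈ Finset.Ico (m + 1) (P.natDegree + 1), P.coeff i * y ^ i := by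
      rw [eval_eq_sum_range, Finset.sum_range_add_sum_Ico]
      exact Nat.succ_le_succ (le_natDegree_of_mem_supp m hms)
    rw [h1, map_div₀, div_lt_one₀ hvm, eq_sub_of_add_eq h2.symm]
    refine v.map_sub_lt (lt_of_lt_of_le hj (hle j)) (v.map_sum_lt hvm.ne' fun i hi => ?_)
    rw [map_mul, map_pow]
    exact lt_of_le_of_lt (mul_le_of_le_one_right' (pow_le_one' hy i))
      (hlt i (Finset.mem_Ico.mp hi).1)

theorem Res0_eval_le (v : Valuation Om G) (y : Om) (hy : v y ≤ 1) (q : Om[X])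
    (h : ∀ i, v (q.coeff i) ≤ 1) : v (q.eval y) ≤ 1 := by
  rw [eval_eq_sum_range]
  refine v.map_sum_le fun i _ => ?_
  rw [map_mul, map_pow]
  exact mul_le_one' (h i) (pow_le_one' hy i)

theorem Res0_minp (v : Valuation Om G) (hv : ∀ n : ℕ, n ≠ 0 → v n = 1) (F : Subfield Om) (y : Om)
    (hy : v y ≤ 1) (P : Om[X]) (hF : ∀ i, P.coeff i ∈ F) (j : ℕ)
    (hj : v (P.eval y) < v (P.coeff j)) :
    ∃ q : Om[X], q.Monic ∧ (∀ i, q.coeff i ∈ F) ∧ (∀ i, v (q.coeff i) ≤ 1) ∧ v (q.eval y) < 1 ∧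
      v (q.derivative.eval y) = 1 := by
  classical
  have hex : ∃ d, ∃ q : Om[X], q.natDegree = d ∧ q.Monic ∧ (∀ i, q.coeff i ∈ F) ∧
      (∀ i, v (q.coeff i) ≤ 1) ∧ v (q.eval y) < 1 := by
    obtain ⟨q, h⟩ := Res0_monic v F y hy P hF j hj
    exact ⟨_, q, rfl, h⟩
  obtain ⟨q, hd, hm, h1, h2, h3⟩ := Nat.find_spec hex
  have hder : ∀ i, v (q.derivative.coeff i) ≤ 1 := fun i => by
    rw [coeff_derivative, map_mul, ← Nat.cast_succ, hv _ (Nat.succ_ne_zero i), mul_one]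
    exact h2 _
  refine ⟨q, hm, h1, h2, h3, le_antisymm (Res0_eval_le v y hy _ hder) (not_lt.mp fun hlt => ?_)⟩
  have hd0 : q.natDegree ≠ 0 := fun h => by
    rw [hm.natDegree_eq_zero.mp h] at h3; simp at h3
  obtain ⟨e, he⟩ := Nat.exists_eq_succ_of_ne_zero hd0
  have hve : v ((e + 1 : ℕ) : Om) = 1 := hv _ (Nat.succ_ne_zero e)
  have he0 : ((e + 1 : ℕ) : Om) ≠ 0 := fun h => by rw [h] at hve; simp at hve
  have hdeg : (C ((e + 1 : ℕ) : Om)⁻¹ * q.derivative).natDegree ≤ e := by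
    refine le_trans (natDegree_C_mul_le _ _) (le_trans (natDegree_derivative_le q) ?_)
    omega
  refine Nat.find_min hex (m := (C ((e + 1 : ℕ) : Om)⁻¹ * q.derivative).natDegree) (by omega)
    ⟨_, rfl, ?_, fun i => ?_, fun i => ?_, ?_⟩
  · refine monic_of_natDegree_le_of_coeff_eq_one e hdeg ?_
    have : q.coeff (e + 1) = 1 := by
      have := hm.coeff_natDegree
      rwa [he] at this
    rw [coeff_C_mul, coeff_derivative, this, one_mul, ← Nat.cast_succ, inv_mul_cancel₀ he0]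
  · rw [coeff_C_mul, coeff_derivative, ← Nat.cast_succ]
    exact mul_mem (inv_mem (natCast_mem F _)) (mul_mem (h1 _) (natCast_mem F _))
  · rw [coeff_C_mul, map_mul, map_inv₀, hve, inv_one, one_mul]
    exact hder i
  · rw [eval_mul, eval_C, map_mul, map_inv₀, hve, inv_one, one_mul]
    exact hlt

theorem Res0_alg (v : Valuation Om G) (hv : ∀ n : ℕ, n ≠ 0 → v n = 1) (F : Subfield Om) (y : Om)
    (hy : v y ≤ 1) (ha : IsAlgebraic F y) :
    ∃ q : Om[X], q.Monic ∧ (∀ i, q.coeff i ∈ F) ∧ (∀ i, v (q.coeff i) ≤ 1) ∧ v (q.eval y) < 1 ∧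
      v (q.derivative.eval y) = 1 := by
  have hi := ha.isIntegral
  have hm : ((minpoly F y).map (algebraMap F Om)).Monic := (minpoly.monic hi).map _
  refine Res0_minp v hv F y hy ((minpoly F y).map (algebraMap F Om))
    (fun i => by rw [coeff_map]; exact ((minpoly F y).coeff i).2)
    ((minpoly F y).map (algebraMap F Om)).natDegree ?_
  rw [eval_map_algebraMap, minpoly.aeval, hm.coeff_natDegree]
  simp

theorem Res0_isAlg (F : Subfield Om) (y : Om) (ha : IsAlgebraic F y) (q : Om[X])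
    (hq : ∀ i, q.coeff i ∈ F) : IsAlgebraic F (q.eval y) := by
  rw [eval_eq_sum_range]
  refine IsIntegral.isAlgebraic (IsIntegral.sum _ fun i _ => ?_)
  exact (isIntegral_algebraMap (x := (⟨_, hq i⟩ : F))).mul (ha.isIntegral.pow i)

theorem Res0_der [CommRing R] [Algebra R Om] (v : Valuation Om G) (D : Derivation R Om Om)
    (y : Om) (q : Om[X]) (h : v (q.derivative.eval y) = 1) :
    v (D y) = v (D (q.eval y)
      - ∑ i ∈ Finset.range (q.natDegree + 1), D (q.coeff i) * y ^ i) := by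
  rw [Log_der_eval, add_sub_cancel_left, map_mul, h, one_mul]

theorem RES0 [CommRing R] [Algebra R Om] (v : Valuation Om G) (hv : ∀ n : ℕ, n ≠ 0 → v n = 1)
    (D : Derivation R Om Om) (F : Subfield Om)
    (hlog : ∀ z : Om, IsAlgebraic F z → v (D z) ≤ v z)
    (hF : ∀ f ∈ F, v f ≤ 1 → v (D f) < 1) (y : Om) (hy : v y ≤ 1) (ha : IsAlgebraic F y) :
    v (D y) < 1 := by
  obtain ⟨q, -, h1, h2, h3, h4⟩ := Res0_alg v hv F y hy ha
  rw [Res0_der v D y q h4]
  refine v.map_sub_lt (lt_of_le_of_lt (hlog _ (Res0_isAlg F y ha q h1)) h3)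
    (v.map_sum_lt one_ne_zero fun i _ => ?_)
  rw [map_mul, map_pow]
  exact lt_of_le_of_lt (mul_le_of_le_one_right' (pow_le_one' hy i)) (hF _ (h1 i) (h2 i))

theorem Res0_log_of_reg [CommRing R] [Algebra R Om] (v : Valuation Om G)
    (D : Derivation R Om Om) (F : Subfield Om) (t : Om) (htF : t ∈ F) (ht0 : t ≠ 0)
    (ht : v t ≤ 1) (hgrp : ∀ f ∈ F, f ≠ 0 → ∃ k : ℤ, v f = v t ^ k) (g : G)
    (hv : ∀ n : ℕ, v (n : Om) ≤ 1)
    (hF : ∀ f ∈ F, v f ≤ 1 → v (D f) ≤ g) : ∀ f ∈ F, v (D f) ≤ g * (v t)⁻¹ * v f := by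
  intro f hf
  by_cases hf0 : f = 0
  · simp [hf0]
  obtain ⟨k, hk⟩ := hgrp f hf hf0
  have hvt : 0 < v t := zero_lt_iff.mpr fun h => ht0 (v.zero_iff.mp h)
  have hu : v (f / t ^ k) = 1 := by
    rw [map_div₀, map_zpow₀, hk, div_self (zpow_ne_zero k hvt.ne')]
  have hfe : f = f / t ^ k * t ^ k := (div_mul_cancel₀ _ (zpow_ne_zero k ht0)).symm
  have hD : D f = t ^ k * D (f / t ^ k) + f / t ^ k * ((k : Om) * t ^ (k - 1) * D t) := by
    conv_lhs => rw [hfe]
    rw [Derivation.leibniz, Derivation.leibniz_zpow]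
    simp only [smul_eq_mul, zsmul_eq_mul]
    ring
  have hvk : v (k : Om) ≤ 1 := by
    rcases Int.eq_nat_or_neg k with ⟨n, rfl | rfl⟩
    · simpa using hv n
    · simpa using hv n
  rw [hD, hk]
  refine v.map_add_le ?_ ?_
  · rw [map_mul, map_zpow₀, mul_comm]
    refine mul_le_mul' (le_trans (hF _ (div_mem hf (zpow_mem htF k)) hu.le) ?_) le_rfl
    exact le_mul_of_one_le_right' ((one_le_inv₀ hvt).mpr ht)
  · rw [map_mul, hu, one_mul, map_mul, map_mul, map_zpow₀, zpow_sub_one₀ hvt.ne']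
    calc v (k : Om) * (v t ^ k * (v t)⁻¹) * v (D t) ≤ 1 * (v t ^ k * (v t)⁻¹) * g :=
          mul_le_mul' (mul_le_mul' hvk le_rfl) (hF t htF ht)
      _ = g * (v t)⁻¹ * v t ^ k := by rw [one_mul, mul_comm, mul_comm (v t ^ k), mul_assoc]

theorem DREG [IsAlgClosed Om] [CommRing R] [Algebra R Om] (v : Valuation Om G)
    (hv : ∀ n : ℕ, n ≠ 0 → v n = 1) (D : Derivation R Om Om) (F N : Subfield Om) (hFN : F ≤ N)
    (halg : ∀ z ∈ N, IsAlgebraic F z) (t : Om) (htF : t ∈ F) (ht0 : t ≠ 0) (ht : v t < 1)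
    (hgrp : ∀ f ∈ N, f ≠ 0 → ∃ k : ℤ, v f = v t ^ k) (g : G)
    (hF : ∀ f ∈ F, v f ≤ 1 → v (D f) ≤ g) (y : Om) (hyN : y ∈ N) (hy : v y ≤ 1) :
    v (D y) ≤ g := by
  have hvt : 0 < v t := zero_lt_iff.mpr fun h => ht0 (v.zero_iff.mp h)
  have hv' : ∀ n : ℕ, v (n : Om) ≤ 1 := fun n => by
    rcases eq_or_ne n 0 with rfl | h
    · simp
    · exact (hv n h).le
  have hlog := LOG v hv D _ F (Res0_log_of_reg v D F t htF ht0 ht.le
    (fun f hf => hgrp f (hFN hf)) g hv' hF)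
  obtain ⟨q, -, h1, h2, h3, h4⟩ := Res0_alg v hv F y hy (halg y hyN)
  have hqN : q.eval y ∈ N := by
    rw [eval_eq_sum_range]
    exact sum_mem fun i _ => mul_mem (hFN (h1 i)) (pow_mem hyN i)
  have hqt : v (q.eval y) ≤ v t := by
    by_cases h0 : q.eval y = 0
    · simp [h0]
    obtain ⟨k, hk⟩ := hgrp _ hqN h0
    rw [hk] at h3 ⊢
    have hk1 : 1 ≤ k := (zpow_lt_one_iff_right_of_lt_one₀ hvt ht).mp h3
    simpa using zpow_le_zpow_right_of_le_one₀ hvt ht.le hk1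
  rw [Res0_der v D y q h4]
  refine v.map_sub_le (le_trans (hlog _ (halg _ hqN)) ?_) (v.map_sum_le fun i _ => ?_)
  · rw [mul_assoc]
    exact mul_le_of_le_one_right' ((inv_mul_le_one₀ hvt).mpr hqt)
  · rw [map_mul, map_pow]
    exact le_trans (mul_le_of_le_one_right' (pow_le_one' hy i)) (hF _ (h1 i) (h2 i))

end Pool.Agent.Lib.MP_5c318e_ag
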