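import Pool.Agent.Lib.MP_5c318e_ag.Gauss
import Pool.Agent.Lib.MP_5c318e_ag.Res0

/-! KEY0, KEY1, KEY2: valuations of Jacobians in an adapted basis. -/

namespace Pool.Agent.Lib.MP_5c318e_ag

variable {R Om G : Type*} [CommRing R] [Field Om] [Algebra R Om]
  [LinearOrderedCommGroupWithZero G] {i : Type*}

omit [Field Om] in
theorem range_eq_insert (b : i → Om) (i0 : i) :
    Set.range b = insert (b i0) (Set.range fun a : {a // a ≠ i0} => b a) := by
  ext x
  constructor
  · rintro ⟨a, rfl⟩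
    by_cases h : a = i0
    · exact Or.inl (by rw [h])
    · exact Or.inr ⟨⟨a, h⟩, rfl⟩
  · rintro (rfl | ⟨a, rfl⟩)
    · exact ⟨i0, rfl⟩
    · exact ⟨a, rfl⟩

/-- value group of `k0(b)` for an adapted family -/
theorem key_val {v : Valuation Om G} {k0 : Subfield Om} {b : i → Om} {i0 : i}
    (ht : v (b i0) < 1) (hy : RInd v k0 fun a : {a // a ≠ i0} => b a) {g : Om}
    (hg : g ∈ Subfield.closure ((k0 : Set Om) ∪ Set.range b)) (h0 : g ≠ 0) :
    ∃ n : ℤ, v g = v (b i0) ^ n := by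
  rw [range_eq_insert b i0] at hg
  exact gauss_val hy ht hg h0

/-- a derivation that is `del`-log on an adapted family is `del`-log on the algebraic closure -/
theorem key_log [IsAlgClosed Om] {v : Valuation Om G} (hv : ∀ n : ℕ, n ≠ 0 → v n = 1)
    {k0 : Subfield Om} {b : i → Om} {i0 : i}
    (ht : v (b i0) < 1) (hy : RInd v k0 fun a : {a // a ≠ i0} => b a)
    (D : Derivation R Om Om) {del : G} (hk : ∀ c ∈ k0, D c = 0)
    (hD : ∀ a, v (D (b a)) ≤ del * v (b a)) {th : Om}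
    (hth : IsAlgebraic (Subfield.closure ((k0 : Set Om) ∪ Set.range b)) th) :
    v (D th) ≤ del * v th := by
  refine LOG v hv D del _ (fun f hf => ?_) th hth
  rw [range_eq_insert b i0] at hf
  refine gauss_log hy ht D hk (hD i0) (fun a => ?_) hf
  have := hD a
  rwa [hy.unit a, mul_one] at this

/-- the same when the whole family is residually independent -/
theorem key_log0 [IsAlgClosed Om] {v : Valuation Om G} (hv : ∀ n : ℕ, n ≠ 0 → v n = 1)
    {k0 : Subfield Om} {b : i → Om} (hy : RInd v k0 b)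
    (D : Derivation R Om Om) {del : G} (hk : ∀ c ∈ k0, D c = 0)
    (hD : ∀ a, v (D (b a)) ≤ del) {th : Om}
    (hth : IsAlgebraic (Subfield.closure ((k0 : Set Om) ∪ Set.range b)) th) :
    v (D th) ≤ del * v th := by
  refine LOG v hv D del _ (fun f hf => ?_) th hth
  refine gauss_log (t := 0) hy (by simp) D hk (by simp) hD (Subfield.closure_mono ?_ hf)
  exact Set.union_subset_union_right _ (Set.subset_insert _ _)

/-- the valuation is trivial on `k0(b)` when `b` is residually independent -/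
theorem RInd.field {v : Valuation Om G} {k0 : Subfield Om} {b : i → Om} (hy : RInd v k0 b)
    {g : Om} (hg : g ∈ Subfield.closure ((k0 : Set Om) ∪ Set.range b)) (h0 : g ≠ 0) :
    v g = 1 := by
  have hg2 : g ∈ Subfield.closure ((k0 : Set Om) ∪ insert 0 (Set.range b)) :=
    Subfield.closure_mono (Set.union_subset_union_right _ (Set.subset_insert _ _)) hg
  obtain ⟨n, m, u, u', -, -, h1, h1', hm, rfl⟩ := gauss_field (t := 0) hy (by simp) hg2 h0
  have hm0 : m = 0 := by by_contra h; exact hm (zero_pow h)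
  have hn0 : n = 0 := by by_contra h; apply h0; simp [zero_pow h]
  simp [hm0, hn0, h1, h1']

/-- a derivation bounded on an adapted family is bounded on the valuation ring of an algebraic
extension with the same value group -/
theorem key_reg [IsAlgClosed Om] {v : Valuation Om G} (hv : ∀ n : ℕ, n ≠ 0 → v n = 1)
    {k0 : Subfield Om} {b : i → Om} {i0 : i} (ht0 : b i0 ≠ 0)
    (ht : v (b i0) < 1) (hy : RInd v k0 fun a : {a // a ≠ i0} => b a)
    (D : Derivation R Om Om) {del : G} (hk : ∀ c ∈ k0, D c = 0)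
    (hD : ∀ a, v (D (b a)) ≤ del) (F : Subfield Om) (hkF : k0 ≤ F) (hbF : ∀ a, b a ∈ F)
    (halg : ∀ z ∈ F, IsAlgebraic (Subfield.closure ((k0 : Set Om) ∪ Set.range b)) z)
    (hgrp : ∀ f ∈ F, f ≠ 0 → ∃ k : ℤ, v f = v (b i0) ^ k) {y : Om} (hyF : y ∈ F)
    (hy1 : v y ≤ 1) : v (D y) ≤ del := by
  refine DREG v hv D (Subfield.closure ((k0 : Set Om) ∪ Set.range b)) F ?_ halg (b i0)
    (Subfield.subset_closure (Or.inr ⟨i0, rfl⟩)) ht0 ht hgrp del (fun f hf hf1 => ?_) y hyF hy1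
  · rw [Subfield.closure_le]
    rintro x (hx | ⟨a, rfl⟩)
    · exact hkF hx
    · exact hbF a
  · rw [range_eq_insert b i0] at hf
    exact gauss_reg hy ht D hk (hD i0) (fun a => hD a) hf hf1

variable [Fintype i] [DecidableEq i]

theorem ne_zero_of_jac (d : i → Derivation R Om Om) {b : i → Om} (hb : Jac d b ≠ 0) (a : i) :
    b a ≠ 0 := by
  intro h
  have := dual_self d hb a a
  simp [h] at this

theorem dual_le_one (v : Valuation Om G) (d : i → Derivation R Om Om) {b : i → Om}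
    (hb : Jac d b ≠ 0) (k a : i) : v (dual d b k (b a)) ≤ 1 := by
  rw [dual_self d hb]
  split_ifs <;> simp

/-- the dual derivations of an adapted basis are log -/
theorem dual_log [IsAlgClosed Om] {v : Valuation Om G} (hv : ∀ n : ℕ, n ≠ 0 → v n = 1)
    {k0 : Subfield Om} (d : i → Derivation R Om Om) (hd : ∀ j, ∀ c ∈ k0, d j c = 0)
    {b : i → Om} {i0 : i} (ht : v (b i0) < 1)
    (hy : RInd v k0 fun a : {a // a ≠ i0} => b a) (hb : Jac d b ≠ 0) (k : i) {th : Om}
    (hth : IsAlgebraic (Subfield.closure ((k0 : Set Om) ∪ Set.range b)) th) :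
    v (dual d b k th) ≤ (if k = i0 then (v (b i0))⁻¹ else 1) * v th := by
  refine key_log hv ht hy _ (fun c hc => dual_zero d b k fun j => hd j c hc) (fun a => ?_) hth
  have hv0 : v (b i0) ≠ 0 := (Valuation.ne_zero_iff v).2 (ne_zero_of_jac d hb i0)
  rw [dual_self d hb]
  by_cases hak : a = k
  · subst hak
    by_cases h0 : a = i0
    · subst h0; simp [hv0]
    · have := hy.unit ⟨a, h0⟩
      simp only at this
      simp [h0, this]
  · simp [hak]

/-- KEY2 -/
theorem KEY2 [IsAlgClosed Om] {v : Valuation Om G} (hv : ∀ n : ℕ, n ≠ 0 → v n = 1)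
    {k0 : Subfield Om} (d : i → Derivation R Om Om) (hd : ∀ j, ∀ c ∈ k0, d j c = 0)
    {b : i → Om} {i0 : i} (ht : v (b i0) < 1)
    (hy : RInd v k0 fun a : {a // a ≠ i0} => b a) (hb : Jac d b ≠ 0) (f : i → Om)
    (hf : ∀ a, IsAlgebraic (Subfield.closure ((k0 : Set Om) ∪ Set.range b)) (f a)) :
    v (Jac d f) * v (b i0) ≤ v (Jac d b) * ∏ a, v (f a) := by
  have hv0 : v (b i0) ≠ 0 := (Valuation.ne_zero_iff v).2 (ne_zero_of_jac d hb i0)
  have h := val_jac_le v (dual d b) f (fun a => v (f a))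
    (fun k => if k = i0 then (v (b i0))⁻¹ else 1)
    (fun a k => (dual_log hv d hd ht hy hb k (hf a)).trans_eq (mul_comm _ _))
  rw [Finset.prod_ite_eq' Finset.univ i0, if_pos (Finset.mem_univ _)] at h
  rw [jac_chain d hb f, v.map_mul, mul_assoc]
  refine mul_le_mul_right ?_ _
  calc v (Jac (dual d b) f) * v (b i0) ≤ (∏ a, v (f a)) * (v (b i0))⁻¹ * v (b i0) :=
        mul_le_mul_left h _
    _ = ∏ a, v (f a) := by field_simp

/-- KEY1 -/
theorem KEY1 [IsAlgClosed Om] {v : Valuation Om G} (hv : ∀ n : ℕ, n ≠ 0 → v n = 1)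
    {k0 : Subfield Om} (d : i → Derivation R Om Om) (hd : ∀ j, ∀ c ∈ k0, d j c = 0)
    {b : i → Om} {i0 : i} (ht : v (b i0) < 1)
    (hy : RInd v k0 fun a : {a // a ≠ i0} => b a) (hb : Jac d b ≠ 0)
    (F : Subfield Om) (hkF : k0 ≤ F) (hbF : ∀ a, b a ∈ F)
    (halg : ∀ z ∈ F, IsAlgebraic (Subfield.closure ((k0 : Set Om) ∪ Set.range b)) z)
    (hgrp : ∀ f ∈ F, f ≠ 0 → ∃ k : ℤ, v f = v (b i0) ^ k) (f : i → Om)
    (hfF : ∀ a, f a ∈ F) (hf1 : ∀ a, v (f a) ≤ 1) : v (Jac d f) ≤ v (Jac d b) := by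
  have h := val_jac_le v (dual d b) f (fun _ => 1) (fun _ => 1) (fun a k => by
    rw [one_mul]
    exact key_reg hv (ne_zero_of_jac d hb i0) ht hy _
      (fun c hc => dual_zero d b k fun j => hd j c hc) (dual_le_one v d hb k) F hkF hbF halg
      hgrp (hfF a) (hf1 a))
  rw [jac_chain d hb f, v.map_mul]
  exact mul_le_of_le_one_right' (by simpa using h)

/-- KEY0: the whole family is residually independent -/
theorem KEY0 [IsAlgClosed Om] {v : Valuation Om G} (hv : ∀ n : ℕ, n ≠ 0 → v n = 1)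
    {k0 : Subfield Om} (d : i → Derivation R Om Om) (hd : ∀ j, ∀ c ∈ k0, d j c = 0)
    {b : i → Om} (hy : RInd v k0 b) (hb : Jac d b ≠ 0) (f : i → Om)
    (hf : ∀ a, IsAlgebraic (Subfield.closure ((k0 : Set Om) ∪ Set.range b)) (f a)) :
    v (Jac d f) ≤ v (Jac d b) * ∏ a, v (f a) := by
  have h := val_jac_le v (dual d b) f (fun a => v (f a)) (fun _ => 1) (fun a k =>
    (key_log0 hv hy _ (fun c hc => dual_zero d b k fun j => hd j c hc) (dual_le_one v d hb k)
      (hf a)).trans_eq (mul_comm _ _))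
  rw [jac_chain d hb f, v.map_mul]
  exact mul_le_mul_right (by simpa using h) _

/-- two adapted bases of the same field with discrete value group have Jacobians of equal value -/
theorem KEY1_eq [IsAlgClosed Om] {v : Valuation Om G} (hv : ∀ n : ℕ, n ≠ 0 → v n = 1)
    {k0 : Subfield Om} (d : i → Derivation R Om Om) (hd : ∀ j, ∀ c ∈ k0, d j c = 0)
    {b b' : i → Om} {i0 i1 : i} (ht : v (b i0) < 1) (ht' : v (b' i1) < 1)
    (hy : RInd v k0 fun a : {a // a ≠ i0} => b a)
    (hy' : RInd v k0 fun a : {a // a ≠ i1} => b' a) (hb : Jac d b ≠ 0) (hb' : Jac d b' ≠ 0)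
    (F : Subfield Om) (hkF : k0 ≤ F) (hbF : ∀ a, b a ∈ F) (hbF' : ∀ a, b' a ∈ F)
    (halg : ∀ z ∈ F, IsAlgebraic (Subfield.closure ((k0 : Set Om) ∪ Set.range b)) z)
    (halg' : ∀ z ∈ F, IsAlgebraic (Subfield.closure ((k0 : Set Om) ∪ Set.range b')) z)
    (hgrp : ∀ f ∈ F, f ≠ 0 → ∃ k : ℤ, v f = v (b i0) ^ k)
    (hgrp' : ∀ f ∈ F, f ≠ 0 → ∃ k : ℤ, v f = v (b' i1) ^ k) :
    v (Jac d b) = v (Jac d b') := by
  have l1 : ∀ a, v (b a) ≤ 1 := fun a => by
    by_cases h : a = i0
    · rw [h]; exact ht.le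
    · exact (hy.unit ⟨a, h⟩).le
  have l2 : ∀ a, v (b' a) ≤ 1 := fun a => by
    by_cases h : a = i1
    · rw [h]; exact ht'.le
    · exact (hy'.unit ⟨a, h⟩).le
  exact le_antisymm (KEY1 hv d hd ht' hy' hb' F hkF hbF' halg' hgrp' b hbF l1)
    (KEY1 hv d hd ht hy hb F hkF hbF halg hgrp b' hbF' l2)

/-- block triangular Jacobians -/
theorem jac_sum {j : Type*} [Fintype j] [DecidableEq j] (d : i → Derivation R Om Om)
    (e : j → Derivation R Om Om) (f : i → Om) (g : j → Om) (h : ∀ a c, e c (f a) = 0) :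
    Jac (Sum.elim d e) (Sum.elim f g) = Jac d f * Jac e g := by
  unfold Jac
  rw [← Matrix.det_fromBlocks_zero₁₂ _ (Matrix.of fun a c => d c (g a))]
  congr 1
  ext (a | a) (c | c) <;> simp [h]

theorem jac_equiv {j : Type*} [Fintype j] [DecidableEq j] (d : i → Derivation R Om Om)
    (f : i → Om) (e : j ≃ i) : Jac (fun c => d (e c)) (fun a => f (e a)) = Jac d f := by
  unfold Jac
  rw [← Matrix.det_submatrix_equiv_self e]
  rfl

end Pool.Agent.Lib.MP_5c318e_ag
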