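import Pool.Agent.Lib.MP_5c318e_ag.Defs
import Pool.Agent.Lib.MP_5c318e_ag.Key
import Pool.Agent.Lib.MP_5c318e_ag.Graph

/-! The working context inside one algebraically closed field, and the additive valuation. -/

namespace Pool.Agent.Lib.MP_5c318e_ag

open scoped Classical NNReal
open Polynomial

variable {Om : Type} [Field Om] [Algebra ℂ Om]

/-- real valuations -/
abbrev RV (Om : Type) [Field Om] := Valuation Om ℝ≥0

/-- the complex numbers as a subfield -/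
noncomputable def C0 (Om : Type) [Field Om] [Algebra ℂ Om] : Subfield Om :=
  (algebraMap ℂ Om).fieldRange

/-- algebraic closure of a subfield -/
noncomputable def acl (F : Subfield Om) : Subfield Om := (algebraicClosure F Om).toSubfield

/-- `F(S)` -/
abbrev adj (F : Subfield Om) (S : Set Om) : Subfield Om := Subfield.closure ((F : Set Om) ∪ S)

def Triv (v : RV Om) (F : Subfield Om) : Prop := ∀ u ∈ F, u ≠ 0 → v u = 1

/-- the value group of `F` is generated by the value of `t` -/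
def Grp (v : RV Om) (F : Subfield Om) (t : Om) : Prop :=
  ∀ y ∈ F, y ≠ 0 → ∃ k : ℤ, v y = v t ^ k

/-- `z` is Gauss independent over `F` -/
def Gs (v : RV Om) (F : Subfield Om) (z : Om) : Prop :=
  v z ≤ 1 ∧ ∀ p : Om[X], (∀ i, p.coeff i ∈ F) → ∀ i, v (p.coeff i) ≤ v (p.eval z)

/-- additive valuation (junk value at zero) -/
noncomputable def w (v : RV Om) (y : Om) : ℝ := - Real.log (v y)

/-- `w y ≥ c`, true for `y = 0` -/
def Ge (v : RV Om) (y : Om) (c : ℝ) : Prop := y ≠ 0 → c ≤ w v y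

/-- a prime divisor of `F / k0` with an adapted basis -/
def DivPt (k0 F : Subfield Om) {ι : Type} (v : RV Om) (b : ι → Om) (i0 : ι) : Prop :=
  (∀ i, b i ∈ F) ∧ b i0 ≠ 0 ∧ v (b i0) < 1 ∧ (RInd v k0 fun j : {j // j ≠ i0} => b j) ∧
    Grp v F (b i0)

/-- regular forms of weight `m` -/
def Reg (k0 F : Subfield Om) {ι : Type} [Fintype ι] [DecidableEq ι]
    (D : ι → Derivation ℂ Om Om) (m : ℕ) (φ : Om) : Prop :=
  ∀ (v : RV Om) (b : ι → Om) (i0 : ι), DivPt k0 F v b i0 → v φ ≤ v (Jac D b) ^ m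

/-- ratios of `F`-rational regular forms -/
def Rat (k0 F : Subfield Om) {ι : Type} [Fintype ι] [DecidableEq ι]
    (D : ι → Derivation ℂ Om Om) : Set Om :=
  {h | ∃ m : ℕ, 0 < m ∧ ∃ φ ∈ F, ∃ ψ ∈ F, Reg k0 F D m φ ∧ Reg k0 F D m ψ ∧ ψ ≠ 0 ∧ h = φ / ψ}

/-- `D` is the frame dual to the transcendence basis `b` of `F / k0` -/
structure Frame (k0 F : Subfield Om) {ι : Type} [DecidableEq ι] (D : ι → Derivation ℂ Om Om)
    (b : ι → Om) : Prop where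
  c0 : C0 Om ≤ k0
  le : k0 ≤ F
  mem : ∀ i, b i ∈ F
  ind : AlgebraicIndependent k0 b
  alg : F ≤ acl (adj k0 (Set.range b))
  kill : ∀ i, ∀ c ∈ k0, D i c = 0
  dual : ∀ j a, D j (b a) = if a = j then 1 else 0

/-- ramification data of `N / E(x)` along valuations trivial on `E` -/
structure Ram (E N : Subfield Om) (x : Om) (R : Finset Om) (e : Om → ℕ) : Prop where
  mem : ∀ ρ ∈ R, ρ ∈ acl E
  two : ∀ ρ ∈ R, 2 ≤ e ρ
  one : ∀ ρ, ρ ∉ R → e ρ = 1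
  fin : ∀ v : RV Om, Triv v E → ∀ ρ ∈ acl E, v (x - ρ) < 1 →
    ∃ t ∈ N, t ≠ 0 ∧ v t < 1 ∧ v (x - ρ) = v t ^ e ρ ∧ Grp v N t
  inf : ∀ v : RV Om, Triv v E → 1 < v x → Grp v N x
  stab : ∀ g : Om ≃ₐ[adj E {x}] Om, ∀ ρ ∈ R, g ρ ∈ R

/-- Data of the theorem, before the multigraph is chosen. -/
structure Ctx0 (Om : Type) [Field Om] [Algebra ℂ Om] where
  r : ℕ
  n : ℕ
  s : Fin r → Om
  a : Fin n → Om
  x : Om
  K : Subfield Om
  M : Subfield Om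
  Kp : Subfield Om
  L : Subfield Om
  N : Subfield Om
  d : Fin r ⊕ Option (Fin n) → Derivation ℂ Om Om
  frT : Frame (C0 Om) ⊤ d (Sum.elim s fun o => o.elim x a)
  frK : Frame (C0 Om) K (fun i => d (Sum.inl i)) s
  frA : Frame (C0 Om) L (fun j => d (Sum.inr (some j))) a
  u : Fin r ⊕ Option (Fin n) → Om
  dM : Fin r ⊕ Option (Fin n) → Derivation ℂ Om Om
  frM : Frame (C0 Om) M dM u
  KM : K ≤ M
  algM : ∀ y : Om, y ∈ acl M
  fgM : ∃ S : Finset Om, M = adj (C0 Om) S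
  c0Kp : C0 Om ≤ Kp
  aclKp : acl Kp = acl K
  ExN : adj (L ⊔ Kp) {x} ≤ N
  finN : ∃ θ ∈ N, N = adj (adj (L ⊔ Kp) {x}) {θ}
  norN : ∀ g : Om ≃ₐ[adj (L ⊔ Kp) {x}] Om, ∀ y ∈ N, g y ∈ N
  NM : N ⊔ acl K = M ⊔ acl K
  ufd : UniqueFactorizationMonoid (Subring.closure ((L : Set Om) ∪ Kp))
  m0 : ℕ
  m0pos : 0 < m0
  g0 : Om
  g0ne : g0 ≠ 0
  g0E : g0 ∈ L ⊔ Kp
  g0L : g0 ∈ acl L
  Cs : Finset (Fin n → Om)
  CsM : ∀ c ∈ Cs, ∀ j, c j ∈ M ⊔ acl K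
  CsL : ∀ c ∈ Cs, ∀ j, c j ∈ acl L
  chart : ∀ v : RV Om, Triv v (C0 Om) → ∃ c ∈ Cs, (∀ j, v (c j) ≤ 1) ∧
    v g0 ≤ v (Jac (fun j => d (Sum.inr (some j))) c) ^ m0
  mK : ℕ
  mKpos : 0 < mK
  η : Om
  ηne : η ≠ 0
  ηK : η ∈ K
  ηreg : Reg (C0 Om) K (fun i => d (Sum.inl i)) mK η
  R : Finset Om
  e : Om → ℕ
  ram : Ram (L ⊔ Kp) N x R e

namespace Ctx0

variable (X : Ctx0 Om)

abbrev iF := Option (Fin X.n)
abbrev iT := Fin X.r ⊕ Option (Fin X.n)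
abbrev dK : Fin X.r → Derivation ℂ Om Om := fun i => X.d (Sum.inl i)
abbrev dA : Fin X.n → Derivation ℂ Om Om := fun j => X.d (Sum.inr (some j))
abbrev dF : X.iF → Derivation ℂ Om Om := fun o => X.d (Sum.inr o)
abbrev dx : Derivation ℂ Om Om := X.d (Sum.inr none)
noncomputable abbrev Kb : Subfield Om := acl X.K
abbrev E : Subfield Om := X.L ⊔ X.Kp
noncomputable abbrev Eb : Subfield Om := acl X.E
abbrev Ex : Subfield Om := adj X.E {X.x}
noncomputable abbrev Mb : Subfield Om := X.M ⊔ acl X.K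
abbrev E1 : Subfield Om := adj X.E X.R
abbrev N1 : Subfield Om := adj X.N X.R
noncomputable abbrev Mb1 : Subfield Om := adj X.Mb X.R
noncomputable abbrev F1 : Subfield Om := X.Mb1 ⊓ X.Eb
abbrev T : Subring Om := Subring.closure ((X.L : Set Om) ∪ X.Kp)

/-- regular forms on the geometric generic fibre -/
def RegF (m : ℕ) (ψ : Om) : Prop := Reg X.Kb X.Mb X.dF m ψ

noncomputable def be (ρ ρ' : Om) : Om := (X.x - ρ)⁻¹ - (X.x - ρ')⁻¹
noncomputable def zz (a b c : Om) : Om := X.be b c / X.be b a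

def YE (v : RV Om) : Set ℝ :=
  {y | ∃ f : Fin X.n → Om, (∀ j, f j ∈ X.Eb) ∧ Jac X.dA f ≠ 0 ∧
    y = w v (Jac X.dA f) - ∑ j, w v (f j)}
def YX (v : RV Om) : Set ℝ := {y | ∃ h : Om, X.dx h ≠ 0 ∧ y = w v (X.dx h) - w v h}
noncomputable def lE (v : RV Om) : ℝ := sInf (X.YE v)
noncomputable def lx (v : RV Om) : ℝ := sInf (X.YX v)
noncomputable def A (v : RV Om) : ℝ := w v X.g0 / X.m0 - X.lE v
noncomputable def ord (v : RV Om) (ρ ρ' : Om) : ℝ := w v (X.be ρ ρ') - X.lx v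

/-- valuations with finite log discrepancies -/
def Good (v : RV Om) : Prop := Triv v (C0 Om) ∧ BddBelow (X.YE v) ∧ BddBelow (X.YX v)

/-- prime divisors of the total space -/
structure Pt where
  v : RV Om
  b : X.iT → Om
  i0 : X.iT
  div : DivPt (C0 Om) X.M v b i0

noncomputable def Pt.p {X : Ctx0 Om} (P : X.Pt) : ℝ := w P.v (P.b P.i0)
noncomputable def Pt.can {X : Ctx0 Om} (P : X.Pt) : ℝ := w P.v (Jac X.d P.b)

/-- regular forms on the total space, in the frame `d` -/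
def RegT (m : ℕ) (φ : Om) : Prop := ∀ P : X.Pt, Ge P.v φ (m * P.can)

/-- algebraic closure of the field of ratios of pluricanonical forms of the total space -/
noncomputable def Q : Subfield Om := acl (adj (C0 Om) (Rat (C0 Om) X.M X.dM))
noncomputable def K0 : Subfield Om := X.Kb ⊓ X.Q

def TypeA (v : RV Om) : Prop :=
  Triv v X.L ∧ (∃ P : X.T, Prime P ∧ ∀ u : X.T, v u < 1 ↔ P ∣ u) ∧
    ∀ y ∈ X.N1, ∃ u ∈ X.E, v y = v u

def TypeB (v : RV Om) : Prop :=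
  ∀ (m : ℕ) (a b : Fin m → Om), (∀ i, a i ∈ X.L) → (∀ i, b i ∈ X.Kp) →
    LinearIndependent (C0 Om) b → ∀ i, v (a i) ≤ v (∑ j, a j * b j)

structure Neutral (v : RV Om) : Prop where
  triv : Triv v X.Kb
  beq : ∀ a ∈ X.R, ∀ b ∈ X.R, ∀ a' ∈ X.R, ∀ b' ∈ X.R, a ≠ b → a' ≠ b' →
    v (X.be a b) = v (X.be a' b')
  gs : ∀ a ∈ X.R, ∀ b ∈ X.R, ∀ c ∈ X.R, a ≠ b → b ≠ c → a ≠ c → Gs v X.F1 (X.zz a b c)
  reg : ∀ a ∈ X.R, ∀ b ∈ X.R, a ≠ b → ∀ m ψ, X.RegF m ψ →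
    v ψ ^ X.m0 ≤ (v X.g0 * v (X.be a b) ^ X.m0) ^ m
  type : X.TypeA v ∨ X.TypeB v

end Ctx0

/-- Data of the theorem with the multigraph and a marked triple. -/
structure Ctx (Om : Type) [Field Om] [Algebra ℂ Om] extends Ctx0 Om where
  Nw : ℕ
  Nwpos : 0 < Nw
  m0Nw : m0 ∣ Nw
  mKNw : mK ∣ Nw
  eNw : ∀ ρ ∈ R, e ρ ∣ Nw
  Ga : R → R → ℕ
  diag : ∀ i, Ga i i = 0
  full : ∀ i j, i ≠ j → 1 ≤ Ga i j
  tot : ∑ i, ∑ j, Ga i j = Nw
  deg : ∀ i : R, gdeg Ga i + Nw / e i ≤ Nw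
  ra : R
  rb : R
  rc : R
  ab : ra ≠ rb
  bc : rb ≠ rc
  ac : ra ≠ rc
  slack : (∀ i : R, gdeg Ga i + Nw / e i = Nw) ∨ gdeg Ga rc + Nw / e rc < Nw

namespace Ctx

variable (X : Ctx Om)

/-- admissible multigraphs -/
def Adm (G : X.R → X.R → ℕ) : Prop :=
  (∀ i, G i i = 0) ∧ ∑ i, ∑ j, G i j = X.Nw ∧ ∀ i : X.R, gdeg G i + X.Nw / X.e i ≤ X.Nw

noncomputable def sig (G : X.R → X.R → ℕ) : Om :=
  X.g0 ^ (X.Nw / X.m0) * ∏ i : X.R, ∏ j : X.R, X.be i j ^ G i j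
noncomputable def Phi (G : X.R → X.R → ℕ) : Om := X.η ^ (X.Nw / X.mK) * X.sig G
noncomputable def sord (G : X.R → X.R → ℕ) (v : RV Om) : ℝ :=
  ∑ i : X.R, ∑ j : X.R, G i j * X.ord v i j
noncomputable def SG (G : X.R → X.R → ℕ) (P : X.Pt) : ℝ := w P.v (X.Phi G) / X.Nw - P.can
noncomputable def S (P : X.Pt) : ℝ := X.SG X.Ga P
def OO (c : Om) : Prop := ∃ C : ℝ, 0 ≤ C ∧ ∀ P : X.Pt, Ge P.v c (- (C * X.S P))
noncomputable def z : Om := X.zz X.ra X.rb X.rc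
noncomputable def la (ρ : Om) : Om :=
  ((X.rb : Om) - X.rc) / ((X.rb : Om) - X.ra) * ((ρ - X.ra) / (ρ - X.rc))
/-- the constant field of the rigidity step -/
noncomputable def kp : Subfield Om := acl (adj (X.L ⊔ X.K0) {X.z})

end Ctx

end Pool.Agent.Lib.MP_5c318e_ag
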