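import Mathlib

/-!
Toolkit WRON (Wronskian elimination for a family of derivations).
Elements of a derivation stable subfield `F` that are independent over the constants of `F`
stay independent over all constants, with explicit elimination formulas.
-/

namespace Pool.Agent.Lib.MP_5c318e_ag

open Finset

variable {R Om ι : Type*} [CommRing R] [Field Om] [Algebra R Om]

/-- The composite of the derivations listed in a word. -/
def word (D : ι → Derivation R Om Om) : List ι → Om → Om
  | [], y => y
  | i :: β, y => D i (word D β y)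

@[simp] theorem word_nil (D : ι → Derivation R Om Om) (y : Om) : word D [] y = y := rfl

@[simp] theorem word_cons (D : ι → Derivation R Om Om) (i : ι) (β : List ι) (y : Om) :
    word D (i :: β) y = D i (word D β y) := rfl

theorem word_zero (D : ι → Derivation R Om Om) (β : List ι) : word D β 0 = 0 := by
  induction β with
  | nil => rfl
  | cons i β ih => rw [word_cons, ih, map_zero]

theorem word_mem (D : ι → Derivation R Om Om) {S : Set Om} (hS : ∀ i, ∀ y ∈ S, D i y ∈ S)
    (β : List ι) {y : Om} (hy : y ∈ S) : word D β y ∈ S := by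
  induction β with
  | nil => exact hy
  | cons i β ih => exact hS i _ ih

theorem word_sum_const (D : ι → Derivation R Om Om) {κ : Type*} (s : Finset κ) (k b : κ → Om)
    (hk : ∀ j i, D i (k j) = 0) (β : List ι) :
    word D β (∑ j ∈ s, k j * b j) = ∑ j ∈ s, k j * word D β (b j) := by
  induction β with
  | nil => rfl
  | cons i β ih =>
    rw [word_cons, ih, map_sum]
    refine Finset.sum_congr rfl fun j _ => ?_
    rw [Derivation.leibniz, hk j i, smul_zero, add_zero, smul_eq_mul, word_cons]

theorem word_val {G : Type*} [LinearOrderedCommGroupWithZero G] (v : Valuation Om G)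
    (D : ι → Derivation R Om Om) {S : Set Om} (hS : ∀ i, ∀ y ∈ S, D i y ∈ S) {δ : G}
    (hδ : ∀ i, ∀ y ∈ S, v (D i y) ≤ δ * v y) (β : List ι) {y : Om} (hy : y ∈ S) :
    v (word D β y) ≤ δ ^ β.length * v y := by
  induction β with
  | nil => simp
  | cons i β ih =>
    rw [word_cons, List.length_cons, pow_succ', mul_assoc]
    exact (hδ i _ (word_mem D hS β hy)).trans (mul_le_mul_right ih δ)

/-- No nonzero vector over `F` is orthogonal to all vectors of derivatives. -/
theorem wron_orth {κ : Type*} [Fintype κ] (D : ι → Derivation R Om Om) (F : Subfield Om)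
    (hF : ∀ i, ∀ y ∈ F, D i y ∈ F) (b : κ → Om)
    (hind : ∀ k : κ → Om, (∀ j, k j ∈ F) → (∀ j i, D i (k j) = 0) → ∑ j, k j * b j = 0 →
      ∀ j, k j = 0)
    (c : κ → Om) (hc : ∀ j, c j ∈ F) (h : ∀ β, ∑ j, c j * word D β (b j) = 0) :
    ∀ j, c j = 0 := by
  classical
  suffices H : ∀ n : ℕ, ∀ c : κ → Om, (univ.filter fun j => c j ≠ 0).card ≤ n →
      (∀ j, c j ∈ F) → (∀ β, ∑ j, c j * word D β (b j) = 0) → ∀ j, c j = 0 from
    H _ c le_rfl hc h
  intro n
  induction n with
  | zero =>
    intro c hn _ _ j
    by_contra hj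
    have : j ∈ univ.filter fun j => c j ≠ 0 := by simp [hj]
    rw [Nat.le_zero, Finset.card_eq_zero] at hn
    simp [hn] at this
  | succ n ih =>
    intro c hn hc h j0
    by_contra hj0
    set c' : κ → Om := fun j => (c j0)⁻¹ * c j with hc'
    have hc'F : ∀ j, c' j ∈ F := fun j => F.mul_mem (F.inv_mem (hc j0)) (hc j)
    have hc'0 : c' j0 = 1 := inv_mul_cancel₀ hj0
    have h' : ∀ β, ∑ j, c' j * word D β (b j) = 0 := by
      intro β
      simp only [hc', mul_assoc]
      rw [← Finset.mul_sum, h β, mul_zero]
    have hD : ∀ j i, D i (c' j) = 0 := by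
      intro j i
      refine ih (fun j => D i (c' j)) ?_ (fun j => hF i _ (hc'F j)) ?_ j
      · have hsub : (univ.filter fun j => D i (c' j) ≠ 0) ⊆
            (univ.filter fun j => c j ≠ 0).erase j0 := by
          intro j hj
          simp only [mem_filter, mem_univ, true_and] at hj
          refine Finset.mem_erase.2 ⟨?_, ?_⟩
          · rintro rfl
            rw [hc'0] at hj
            exact hj (D i).map_one_eq_zero
          · simp only [mem_filter, mem_univ, true_and]
            intro h0
            apply hj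
            simp [hc', h0]
        have hmem : j0 ∈ univ.filter fun j => c j ≠ 0 := by simp [hj0]
        have := Finset.card_le_card hsub
        rw [Finset.card_erase_of_mem hmem] at this
        omega
      · intro β
        have h1 := congrArg (D i) (h' β)
        rw [map_sum, map_zero] at h1
        have h2 := h' (i :: β)
        have h3 : ∑ j, D i (c' j * word D β (b j)) =
            ∑ j, c' j * word D (i :: β) (b j) + ∑ j, D i (c' j) * word D β (b j) := by
          rw [← Finset.sum_add_distrib]
          refine Finset.sum_congr rfl fun j _ => ?_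
          rw [Derivation.leibniz, smul_eq_mul, smul_eq_mul, word_cons, mul_comm (word D β (b j))]
        rw [h3, h2, zero_add] at h1
        exact h1
    have := hind c' hc'F hD (by simpa using h' []) j0
    rw [hc'0] at this
    exact one_ne_zero this

/-- WRON: constants are recovered from the derivatives of their combination. -/
theorem wron {κ : Type*} [Fintype κ] (D : ι → Derivation R Om Om) (F : Subfield Om)
    (hF : ∀ i, ∀ y ∈ F, D i y ∈ F) (b : κ → Om) (hb : ∀ j, b j ∈ F)
    (hind : ∀ k : κ → Om, (∀ j, k j ∈ F) → (∀ j i, D i (k j) = 0) → ∑ j, k j * b j = 0 →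
      ∀ j, k j = 0) :
    ∃ (s : Finset (List ι)) (lam : κ → List ι → Om), (∀ j β, lam j β ∈ F) ∧
      ∀ k : κ → Om, (∀ j i, D i (k j) = 0) →
        ∀ j, k j = ∑ β ∈ s, lam j β * word D β (∑ l, k l * b l) := by
  classical
  let u : List ι → κ → F := fun β j => ⟨word D β (b j), word_mem D (S := (F : Set Om)) hF β (hb j)⟩
  have htop : Submodule.span F (Set.range u) = ⊤ := by
    by_contra hne
    obtain ⟨f, hf0, hf⟩ := Submodule.exists_le_ker_of_lt_top _ (lt_top_iff_ne_top.2 hne)
    have hfe : ∀ x : κ → F, f x = ∑ j, f (Pi.single j 1) * x j := by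
      intro x
      conv_lhs => rw [← Finset.univ_sum_single x]
      rw [map_sum]
      refine Finset.sum_congr rfl fun j _ => ?_
      have : (Pi.single j (x j) : κ → F) = x j • (Pi.single j 1 : κ → F) := by
        ext l
        by_cases hl : l = j
        · subst hl; simp
        · simp [hl]
      rw [this, map_smul, smul_eq_mul, mul_comm]
    have hz := wron_orth D F hF b hind (fun j => (f (Pi.single j 1) : Om))
      (fun j => (f (Pi.single j 1)).2) (fun β => by
        have h1 : f (u β) = 0 := hf (Submodule.subset_span ⟨β, rfl⟩)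
        rw [hfe] at h1
        have h2 := congrArg (fun t : F => (t : Om)) h1
        simpa [u] using h2)
    apply hf0
    refine LinearMap.ext fun x => ?_
    rw [hfe, LinearMap.zero_apply]
    refine Finset.sum_eq_zero fun j _ => ?_
    have : f (Pi.single j 1) = 0 := Subtype.ext (hz j)
    rw [this, zero_mul]
  have hex : ∀ j : κ, ∃ c : List ι →₀ F, c.sum (fun β a => a • u β) = Pi.single j 1 := by
    intro j
    have : (Pi.single j 1 : κ → F) ∈ Submodule.span F (Set.range u) := by
      rw [htop]; trivial
    exact Finsupp.mem_span_range_iff_exists_finsupp.1 this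
  choose c hc using hex
  refine ⟨univ.biUnion fun j => (c j).support, fun j β => (c j β : Om), fun j β => (c j β).2, ?_⟩
  intro k hk j
  have hsum : ∑ β ∈ univ.biUnion (fun j => (c j).support), (c j β) • u β = Pi.single j 1 := by
    rw [← hc j, Finsupp.sum_of_support_subset (c j)
      (Finset.subset_biUnion_of_mem (fun j => (c j).support) (mem_univ j))]
    intro β _
    exact zero_smul _ _
  have hl : ∀ l, ∑ β ∈ univ.biUnion (fun j => (c j).support), (c j β : Om) * word D β (b l) =
      if l = j then 1 else 0 := by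
    intro l
    have h1 := congrArg (fun t : κ → F => (t l : Om)) hsum
    simp only [Finset.sum_apply, Pi.smul_apply, smul_eq_mul] at h1
    push_cast at h1
    rw [h1]
    by_cases hl : l = j
    · subst hl; simp
    · simp [hl]
  simp only [word_sum_const D univ k b hk, Finset.mul_sum]
  rw [Finset.sum_comm]
  have : ∀ l, ∑ β ∈ univ.biUnion (fun j => (c j).support), (c j β : Om) * (k l * word D β (b l)) =
      k l * if l = j then 1 else 0 := by
    intro l
    rw [← hl l, Finset.mul_sum]
    exact Finset.sum_congr rfl fun β _ => by ring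
  simp [this]

/-- Independence over the constants of `F` gives independence over all constants. -/
theorem wron_indep {κ : Type*} [Fintype κ] (D : ι → Derivation R Om Om) (F : Subfield Om)
    (hF : ∀ i, ∀ y ∈ F, D i y ∈ F) (b : κ → Om) (hb : ∀ j, b j ∈ F)
    (hind : ∀ k : κ → Om, (∀ j, k j ∈ F) → (∀ j i, D i (k j) = 0) → ∑ j, k j * b j = 0 →
      ∀ j, k j = 0)
    (k : κ → Om) (hk : ∀ j i, D i (k j) = 0) (h : ∑ j, k j * b j = 0) : ∀ j, k j = 0 := by
  obtain ⟨s, lam, -, H⟩ := wron D F hF b hb hind
  intro j
  rw [H k hk j, h]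
  refine Finset.sum_eq_zero fun β _ => ?_
  rw [word_zero, mul_zero]

/-- WRON in valuation form, with data `t`, `N` that do not depend on the valuation. -/
theorem wron_val {G : Type*} [LinearOrderedCommGroupWithZero G] {κ : Type*} [Fintype κ]
    (D : ι → Derivation R Om Om) (F : Subfield Om)
    (hF : ∀ i, ∀ y ∈ F, D i y ∈ F) (b : κ → Om) (hb : ∀ j, b j ∈ F)
    (hind : ∀ k : κ → Om, (∀ j, k j ∈ F) → (∀ j i, D i (k j) = 0) → ∑ j, k j * b j = 0 →
      ∀ j, k j = 0) :
    ∃ (t : Finset Om) (N : ℕ), (∀ x ∈ t, x ∈ F ∧ x ≠ 0) ∧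
      ∀ (v : Valuation Om G) (S : Set Om) (δ μ : G), (∀ i, ∀ y ∈ S, D i y ∈ S) → 1 ≤ δ →
        (∀ i, ∀ y ∈ S, v (D i y) ≤ δ * v y) → (∀ x ∈ t, v x ≤ μ) →
        ∀ k : κ → Om, (∀ j i, D i (k j) = 0) → (∑ l, k l * b l) ∈ S →
          ∀ j, v (k j) ≤ μ * δ ^ N * v (∑ l, k l * b l) := by
  classical
  obtain ⟨s, lam, hlam, H⟩ := wron D F hF b hb hind
  refine ⟨((univ ×ˢ s).image fun p : κ × List ι => lam p.1 p.2).erase 0, s.sup List.length, ?_, ?_⟩
  · intro x hx
    obtain ⟨hx0, hx⟩ := Finset.mem_erase.1 hx
    obtain ⟨p, -, rfl⟩ := Finset.mem_image.1 hx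
    exact ⟨hlam _ _, hx0⟩
  · intro v S δ μ hS hδ1 hδ hμ k hk hQ j
    rw [H k hk j]
    refine v.map_sum_le fun β hβ => ?_
    rw [map_mul, mul_assoc]
    have h1 : v (lam j β) ≤ μ := by
      by_cases h0 : lam j β = 0
      · rw [h0, map_zero]; exact zero_le
      · exact hμ _ (Finset.mem_erase.2 ⟨h0, Finset.mem_image.2
          ⟨(j, β), Finset.mem_product.2 ⟨mem_univ _, hβ⟩, rfl⟩⟩)
    refine mul_le_mul' h1 ((word_val v D hS hδ β hQ).trans ?_)
    exact mul_le_mul_left (pow_le_pow_right₀ hδ1 (Finset.le_sup (f := List.length) hβ)) _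

end Pool.Agent.Lib.MP_5c318e_ag
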