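import Mathlib
import Pool.Agent.Lib.MP_5c318e_ag.Gauss

/-!
Height one centres: in a factorial subring `T` of `Om` the centre of a valuation with residues of
corank one is generated by a prime element, and the valuation is the adic one on the fraction field.
-/

namespace Pool.Agent.Lib.MP_5c318e_ag

open Polynomial
open scoped NNReal

variable {Om G : Type*} [Field Om] [LinearOrderedCommGroupWithZero G]

theorem Ht1_denom (S : Set Om) {κ : Type*} (t : Finset κ) (c : κ → Om)
    (hc : ∀ i ∈ t, c i ∈ Subfield.closure S) :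
    ∃ d ∈ Subring.closure S, d ≠ 0 ∧ ∀ i ∈ t, d * c i ∈ Subring.closure S := by
  classical
  induction t using Finset.induction_on with
  | empty => exact ⟨1, one_mem _, one_ne_zero, by simp⟩
  | insert i t hi ih =>
    obtain ⟨d, hd, hd0, h⟩ := ih fun j hj => hc j (Finset.mem_insert_of_mem hj)
    obtain ⟨y, hy, z, hz, he⟩ := Subfield.mem_closure_iff.1 (hc i (Finset.mem_insert_self _ _))
    by_cases hz0 : z = 0
    · refine ⟨d, hd, hd0, fun j hj => ?_⟩
      rcases Finset.mem_insert.1 hj with rfl | hj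
      · rw [← he, hz0, div_zero, mul_zero]
        exact zero_mem _
      · exact h j hj
    · refine ⟨d * z, mul_mem hd hz, mul_ne_zero hd0 hz0, fun j hj => ?_⟩
      rcases Finset.mem_insert.1 hj with rfl | hj
      · rw [← he, mul_assoc, mul_div_cancel₀ _ hz0]
        exact mul_mem hd hy
      · rw [mul_right_comm]
        exact mul_mem (h j hj) hz

/-- An element algebraic over the field generated by `S` satisfies a relation over the ring
generated by `S`. -/
theorem Ht1_rel (S : Set Om) {u : Om} (hu : IsAlgebraic (Subfield.closure S) u) :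
    ∃ P : Om[X], P ≠ 0 ∧ (∀ i, P.coeff i ∈ Subring.closure S) ∧ P.eval u = 0 := by
  obtain ⟨p, hp0, hp⟩ := hu
  obtain ⟨d, -, hd0, h⟩ := Ht1_denom S p.support (fun i => (p.coeff i : Om))
    fun i _ => (p.coeff i).2
  refine ⟨C d * p.map (algebraMap _ Om), mul_ne_zero (C_ne_zero.2 hd0)
    ((Polynomial.map_ne_zero_iff (algebraMap (Subfield.closure S) Om).injective).2 hp0),
    fun i => ?_, ?_⟩
  · rw [coeff_C_mul, coeff_map]
    by_cases hi : i ∈ p.support
    · exact h i hi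
    · rw [notMem_support_iff.1 hi, map_zero, mul_zero]
      exact zero_mem _
  · rw [eval_mul, eval_map_algebraMap, hp, mul_zero]

theorem Ht1_core (T : Subring Om) (π : T) (hπ : Prime π) (v : Valuation Om G)
    (hT : ∀ u ∈ T, v u ≤ 1) (hπv : v π < 1) (A : Subring Om) (hA : A ≤ T) (hπA : (π : Om) ∈ A)
    (hg : ∀ g ∈ A, g ≠ 0 → ∃ (n : ℕ) (w : Om), w ∈ A ∧ v w = 1 ∧ g = (π : Om) ^ n * w)
    (u : T) (hu : v u < 1) (P : Om[X]) (hP : P ≠ 0) (hc : ∀ i, P.coeff i ∈ A)
    (h0 : P.eval (u : Om) = 0) : π ∣ u := by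
  classical
  by_contra hnd
  have hπ0 : (π : Om) ≠ 0 := fun h => hπ.ne_zero (Subtype.ext h)
  have hex : ∀ i, ∃ (n : ℕ) (w : Om), w ∈ A ∧ (i ∈ P.support → v w = 1) ∧
      (i ∉ P.support → w = 0) ∧ P.coeff i = (π : Om) ^ n * w := by
    intro i
    by_cases hi : i ∈ P.support
    · obtain ⟨n, w, h1, h2, h3⟩ := hg _ (hc i) (mem_support_iff.1 hi)
      exact ⟨n, w, h1, fun _ => h2, fun h => absurd hi h, h3⟩
    · exact ⟨0, 0, zero_mem _, fun h => absurd h hi, fun _ => rfl,
        by rw [notMem_support_iff.1 hi, mul_zero]⟩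
  choose n w hwA hw1 hw0 hw using hex
  obtain ⟨i0, hi0, hmin⟩ := Finset.exists_min_image P.support n (support_nonempty.2 hP)
  let c : ℕ → T := fun i => ⟨(π : Om) ^ (n i - n i0) * w i, hA (mul_mem (pow_mem hπA _) (hwA i))⟩
  have hcc : ∀ i, P.coeff i = (π : Om) ^ n i0 * c i := by
    intro i
    change P.coeff i = (π : Om) ^ n i0 * ((π : Om) ^ (n i - n i0) * w i)
    by_cases hi : i ∈ P.support
    · rw [← mul_assoc, ← pow_add, Nat.add_sub_cancel' (hmin i hi), hw i]
    · rw [notMem_support_iff.1 hi, hw0 i hi, mul_zero, mul_zero]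
  have hsum : ∑ i ∈ Finset.range (P.natDegree + 1), c i * u ^ i = 0 := by
    apply Subtype.ext
    rw [eval_eq_sum_range] at h0
    push_cast
    apply mul_left_cancel₀ (pow_ne_zero (n i0) hπ0)
    rw [mul_zero, Finset.mul_sum, ← h0]
    exact Finset.sum_congr rfl fun i _ => by rw [hcc i]; exact (mul_assoc _ _ _).symm
  have hj : ∃ j, v (c j) = 1 := ⟨i0, by
    change v ((π : Om) ^ (n i0 - n i0) * w i0) = 1
    rw [Nat.sub_self, pow_zero, one_mul, hw1 i0 hi0]⟩
  set j := Nat.find hj with hjd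
  have hj1 : v (c j) = 1 := Nat.find_spec hj
  have hjn : j ≤ P.natDegree := by
    apply le_natDegree_of_ne_zero
    rw [hcc j]
    refine mul_ne_zero (pow_ne_zero _ hπ0) fun h => ?_
    rw [h, map_zero] at hj1
    exact zero_ne_one hj1
  have hdiv : ∀ i < j, π ∣ c i := by
    intro i hi
    have h1 : v (c i) ≠ 1 := Nat.find_min hj hi
    by_cases his : i ∈ P.support
    · rcases Nat.eq_zero_or_pos (n i - n i0) with h2 | h2
      · exact absurd (by
          change v ((π : Om) ^ (n i - n i0) * w i) = 1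
          rw [h2, pow_zero, one_mul, hw1 i his]) h1
      · refine ⟨⟨(π : Om) ^ (n i - n i0 - 1) * w i, hA (mul_mem (pow_mem hπA _) (hwA i))⟩, ?_⟩
        apply Subtype.ext
        change (π : Om) ^ (n i - n i0) * w i = π * ((π : Om) ^ (n i - n i0 - 1) * w i)
        rw [← mul_assoc, ← pow_succ', Nat.sub_add_cancel h2]
    · have : c i = 0 := Subtype.ext (by
        change (π : Om) ^ (n i - n i0) * w i = 0
        rw [hw0 i his, mul_zero])
      rw [this]
      exact dvd_zero _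
  rw [show P.natDegree + 1 = j + (P.natDegree - j + 1) by omega, Finset.sum_range_add] at hsum
  set s : T := ∑ i ∈ Finset.range (P.natDegree - j + 1), c (j + i) * u ^ i with hs
  have h2 : ∑ i ∈ Finset.range (P.natDegree - j + 1), c (j + i) * u ^ (j + i) = u ^ j * s := by
    rw [hs, Finset.mul_sum]
    exact Finset.sum_congr rfl fun i _ => by ring
  have h3 : π ∣ u ^ j * s := by
    rw [← h2, eq_neg_of_add_eq_zero_right hsum, dvd_neg]
    exact Finset.dvd_sum fun i hi => (hdiv i (Finset.mem_range.1 hi)).mul_right _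
  rcases hπ.dvd_or_dvd h3 with h4 | h4
  · exact hnd (hπ.dvd_of_dvd_pow h4)
  · obtain ⟨r, hr⟩ := h4
    have h5 : v (s : Om) < 1 := by
      rw [hr, Subring.coe_mul, map_mul]
      exact lt_of_le_of_lt (mul_le_of_le_one_right' (hT _ r.2)) hπv
    have h6 : v (s : Om) = 1 := by
      rw [hs, Finset.sum_range_succ', add_zero, pow_zero, mul_one, add_comm, Subring.coe_add,
        v.map_add_eq_of_lt_left, hj1]
      rw [hj1]
      push_cast
      refine v.map_sum_lt one_ne_zero fun i _ => ?_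
      rw [map_mul, map_pow, pow_succ]
      refine lt_of_le_of_lt (mul_le_of_le_one_left' (hT _ (c _).2)) ?_
      exact lt_of_le_of_lt (mul_le_of_le_one_left' (pow_le_one' hu.le _)) hu
    exact absurd h5 (by rw [h6]; exact lt_irrefl _)

theorem Ht1_unit (T : Subring Om) (v : Valuation Om G) (hT : ∀ u ∈ T, v u ≤ 1) {u : T}
    (hu : IsUnit u) : v u = 1 := by
  obtain ⟨w, hw⟩ := hu.exists_right_inv
  have h1 : v (u : Om) * v (w : Om) = 1 := by
    rw [← map_mul, ← Subring.coe_mul, hw, Subring.coe_one, map_one]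
  refine le_antisymm (hT _ u.2) ?_
  calc 1 = v (u : Om) * v (w : Om) := h1.symm
    _ ≤ v (u : Om) := mul_le_of_le_one_right' (hT _ w.2)

/-- A nonzero element of the centre has a prime factor in the centre. -/
theorem Ht1_prime (T : Subring Om) [UniqueFactorizationMonoid T] (v : Valuation Om G)
    (hT : ∀ u ∈ T, v u ≤ 1) (u : T) (hu0 : u ≠ 0) (hu : v u < 1) :
    ∃ π : T, Prime π ∧ v π < 1 ∧ π ∣ u := by
  induction u using UniqueFactorizationMonoid.induction_on_prime with
  | h₁ => exact absurd rfl hu0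
  | h₂ x hx => exact absurd hu (by rw [Ht1_unit T v hT hx]; exact lt_irrefl _)
  | h₃ a p ha hp ih =>
    by_cases h : v (p : Om) < 1
    · exact ⟨p, hp, h, dvd_mul_right _ _⟩
    · rw [Subring.coe_mul, map_mul, le_antisymm (hT _ p.2) (not_lt.1 h), one_mul] at hu
      obtain ⟨π, h1, h2, h3⟩ := ih ha hu
      exact ⟨π, h1, h2, h3.mul_left _⟩

/-- HT1: `y` residually independent over `K` inside `T`, of corank one. -/
theorem Ht1 (T : Subring Om) [UniqueFactorizationMonoid T] (v : Valuation Om G)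
    (hT : ∀ u ∈ T, v u ≤ 1) (K : Subfield Om) (hK : ∀ c ∈ K, c ∈ T) {σ : Type*} (y : σ → Om)
    (hyT : ∀ j, y j ∈ T) (hy : RInd v K y)
    (hco : ∀ t ∈ T, t ≠ 0 → v t < 1 → ∀ u ∈ T,
      IsAlgebraic (Subfield.closure ((K : Set Om) ∪ insert t (Set.range y))) u)
    (u0 : Om) (hu0T : u0 ∈ T) (hu0 : u0 ≠ 0) (hu1 : v u0 < 1) :
    ∃ π : T, Prime π ∧ v π < 1 ∧ ∀ u : T, v u < 1 → π ∣ u := by
  obtain ⟨π, hπ, hπv, -⟩ := Ht1_prime T v hT ⟨u0, hu0T⟩ (fun h => hu0 (congrArg Subtype.val h)) hu1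
  have hπ0 : (π : Om) ≠ 0 := fun h => hπ.ne_zero (Subtype.ext h)
  refine ⟨π, hπ, hπv, fun u hu => ?_⟩
  obtain ⟨P, hP, hc, h0⟩ := Ht1_rel _ (hco π π.2 hπ0 hπv u u.2)
  refine Ht1_core T π hπ v hT hπv _ ?_ (Subring.subset_closure (Or.inr (Set.mem_insert _ _)))
    (fun g hg hg0 => gauss_ring hy hπv hg hg0) u hu P hP hc h0
  rw [Subring.closure_le]
  rintro x (hx | rfl | ⟨j, rfl⟩)
  · exact hK x hx
  · exact π.2
  · exact hyT j

/-- With a principal prime centre the valuation is the adic one on `T`. -/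
theorem Ht1_val (T : Subring Om) [UniqueFactorizationMonoid T] (π : T) (hπ : Prime π) (u : T)
    (hu : u ≠ 0) : ∃ n : ℕ, ∀ {G : Type*} [LinearOrderedCommGroupWithZero G] (v : Valuation Om G),
      (∀ u ∈ T, v u ≤ 1) → (∀ u : T, v u < 1 → π ∣ u) → v u = v π ^ n := by
  obtain ⟨w, hw, hnd⟩ := (FiniteMultiplicity.of_prime_left hπ hu).exists_eq_pow_mul_and_not_dvd
  refine ⟨multiplicity π u, fun v hT hv => ?_⟩
  have h1 : v (w : Om) = 1 := le_antisymm (hT _ w.2) (not_lt.1 fun h => hnd (hv w h))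
  conv_lhs => rw [hw]
  rw [Subring.coe_mul, Subring.coe_pow, map_mul, map_pow, h1, mul_one]

/-- The same on the field generated by `T`. -/
theorem Ht1_val_field (T : Subring Om) [UniqueFactorizationMonoid T] (π : T) (hπ : Prime π)
    {f : Om} (hf : f ∈ Subfield.closure (T : Set Om)) (hf0 : f ≠ 0) :
    ∃ k : ℤ, ∀ {G : Type*} [LinearOrderedCommGroupWithZero G] (v : Valuation Om G),
      (∀ u ∈ T, v u ≤ 1) → (∀ u : T, v u < 1 → π ∣ u) → v f = v π ^ k := by
  obtain ⟨y, hy, z, hz, rfl⟩ := Subfield.mem_closure_iff.1 hf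
  rw [Subring.closure_eq] at hy hz
  have hy0 : y ≠ 0 := fun h => hf0 (by rw [h, zero_div])
  have hz0 : z ≠ 0 := fun h => hf0 (by rw [h, div_zero])
  obtain ⟨n, hn⟩ := Ht1_val T π hπ ⟨y, hy⟩ fun h => hy0 (congrArg Subtype.val h)
  obtain ⟨m, hm⟩ := Ht1_val T π hπ ⟨z, hz⟩ fun h => hz0 (congrArg Subtype.val h)
  refine ⟨(n : ℤ) - m, fun v hT hv => ?_⟩
  have hπ0 : v (π : Om) ≠ 0 :=
    (Valuation.ne_zero_iff v).2 fun h => hπ.ne_zero (Subtype.ext h)
  rw [map_div₀, hn v hT hv, hm v hT hv, zpow_sub₀ hπ0, zpow_natCast, zpow_natCast]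

/-- A real valuation raised to a positive real power. -/
noncomputable def vscale (v : Valuation Om ℝ≥0) (r : ℝ) (hr : 0 < r) : Valuation Om ℝ≥0 where
  toFun x := v x ^ r
  map_zero' := by rw [map_zero, NNReal.zero_rpow hr.ne']
  map_one' := by rw [map_one, NNReal.one_rpow]
  map_mul' x y := by rw [map_mul, NNReal.mul_rpow]
  map_add_le_max' x y := by
    rcases le_max_iff.1 (v.map_add x y) with h | h
    · exact le_max_of_le_left (NNReal.rpow_le_rpow h hr.le)
    · exact le_max_of_le_right (NNReal.rpow_le_rpow h hr.le)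

theorem vscale_apply (v : Valuation Om ℝ≥0) (r : ℝ) (hr : 0 < r) (x : Om) :
    vscale v r hr x = v x ^ r := rfl

theorem vscale_le_iff (v : Valuation Om ℝ≥0) (r : ℝ) (hr : 0 < r) (x y : Om) :
    vscale v r hr x ≤ vscale v r hr y ↔ v x ≤ v y := NNReal.rpow_le_rpow_iff hr

theorem vscale_lt_iff (v : Valuation Om ℝ≥0) (r : ℝ) (hr : 0 < r) (x y : Om) :
    vscale v r hr x < vscale v r hr y ↔ v x < v y := NNReal.rpow_lt_rpow_iff hr

theorem vscale_eq_iff (v : Valuation Om ℝ≥0) (r : ℝ) (hr : 0 < r) (x y : Om) :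
    vscale v r hr x = vscale v r hr y ↔ v x = v y := by
  rw [le_antisymm_iff, le_antisymm_iff, vscale_le_iff, vscale_le_iff]

theorem vscale_le_one_iff (v : Valuation Om ℝ≥0) (r : ℝ) (hr : 0 < r) (x : Om) :
    vscale v r hr x ≤ 1 ↔ v x ≤ 1 := by
  have := vscale_le_iff v r hr x 1
  rwa [map_one, map_one] at this

theorem vscale_lt_one_iff (v : Valuation Om ℝ≥0) (r : ℝ) (hr : 0 < r) (x : Om) :
    vscale v r hr x < 1 ↔ v x < 1 := by
  have := vscale_lt_iff v r hr x 1
  rwa [map_one, map_one] at this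

theorem vscale_eq_one_iff (v : Valuation Om ℝ≥0) (r : ℝ) (hr : 0 < r) (x : Om) :
    vscale v r hr x = 1 ↔ v x = 1 := by
  have := vscale_eq_iff v r hr x 1
  rwa [map_one, map_one] at this

theorem exists_rpow_eq {a b : ℝ≥0} (ha0 : a ≠ 0) (ha : a < 1) (hb0 : b ≠ 0) (hb : b < 1) :
    ∃ r : ℝ, 0 < r ∧ a ^ r = b := by
  have h1 : (0 : ℝ) < a := NNReal.coe_pos.2 (zero_lt_iff.2 ha0)
  have h2 : (0 : ℝ) < b := NNReal.coe_pos.2 (zero_lt_iff.2 hb0)
  have h3 : Real.log a < 0 := Real.log_neg h1 (by exact_mod_cast ha)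
  have h4 : Real.log b < 0 := Real.log_neg h2 (by exact_mod_cast hb)
  refine ⟨Real.log b / Real.log a, div_pos_of_neg_of_neg h4 h3, ?_⟩
  apply NNReal.coe_injective
  rw [NNReal.coe_rpow, Real.rpow_def_of_pos h1, mul_div_cancel₀ _ h3.ne, Real.exp_log h2]

/-- Two real valuations with the same principal prime centre on `T` agree on the field generated by
`T` after scaling the first one. -/
theorem Ht1_scale (T : Subring Om) [UniqueFactorizationMonoid T] (π : T) (hπ : Prime π)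
    (v v' : Valuation Om ℝ≥0) (hT : ∀ u ∈ T, v u ≤ 1) (hT' : ∀ u ∈ T, v' u ≤ 1)
    (h1 : v π < 1) (h1' : v' π < 1) (hv : ∀ u : T, v u < 1 → π ∣ u)
    (hv' : ∀ u : T, v' u < 1 → π ∣ u) :
    ∃ (r : ℝ) (hr : 0 < r), ∀ f ∈ Subfield.closure (T : Set Om), vscale v r hr f = v' f := by
  have hπ0 : (π : Om) ≠ 0 := fun h => hπ.ne_zero (Subtype.ext h)
  obtain ⟨r, hr, he⟩ := exists_rpow_eq ((Valuation.ne_zero_iff v).2 hπ0) h1
    ((Valuation.ne_zero_iff v').2 hπ0) h1'
  refine ⟨r, hr, fun f hf => ?_⟩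
  by_cases hf0 : f = 0
  · rw [hf0, map_zero, map_zero]
  obtain ⟨k, hk⟩ := Ht1_val_field T π hπ hf hf0
  rw [hk (vscale v r hr) (fun u hu => (vscale_le_one_iff v r hr u).2 (hT u hu))
    (fun u hu => hv u ((vscale_lt_one_iff v r hr u).1 hu)), hk v' hT' hv', vscale_apply, he]

/-- If the centre of `v'` is generated by `π'` and contains the prime `π`, it is generated by
`π`. -/
theorem Ht1_same (T : Subring Om) {π π' : T} (hπ : Prime π) (hπ' : ¬ IsUnit π')
    (v' : Valuation Om G) (h1 : v' π < 1) (hv' : ∀ u : T, v' u < 1 → π' ∣ u) :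
    ∀ u : T, v' u < 1 → π ∣ u := by
  intro u hu
  obtain ⟨w, hw⟩ := hv' π h1
  rcases hπ.irreducible.isUnit_or_isUnit hw with h | h
  · exact absurd h hπ'
  · have : π ∣ π' := by
      obtain ⟨w', hw'⟩ := h.exists_right_inv
      exact ⟨w', by rw [hw, mul_assoc, hw', mul_one]⟩
    exact this.trans (hv' u hu)

end Pool.Agent.Lib.MP_5c318e_ag
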