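import Mathlib

/-!
Function field definitions for the conjecture C+ of Viehweg: pluricanonical forms, Kodaira
dimension and variation.
-/

namespace Pool.Agent.Lib.MP_5c318e_ag

open scoped Classical

section Forms

variable (k F : Type) [Field k] [Field F] [Algebra k F]

/-- `D` is a basis of the `F`-vector space of `k`-derivations of `F`. A rational pluricanonical
form of weight `m` is recorded by its coefficient in `F` with respect to the `m`-th power of the
top form dual to `D`; the coefficient of `df_1 ∧ ... ∧ df_n` is `det (D i (f j))`. -/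
def IsFrame {n : ℕ} (D : Fin n → Derivation k F F) : Prop :=
  LinearIndependent F D ∧ ∀ δ : Derivation k F F, δ ∈ Submodule.span F (Set.range D)

/-- The form of weight `m` with coefficient `φ` is regular at the valuation ring `O`: it is
`u (df_1 ∧ ... ∧ df_n) ^ m` with `u` and all `f_j` in `O`. -/
def RegAt {n : ℕ} (D : Fin n → Derivation k F F) (m : ℕ) (φ : F) (O : ValuationSubring F) :
    Prop :=
  ∃ f : Fin n → F, (∀ j, f j ∈ O) ∧ ∃ u ∈ O,
    φ = u * (Matrix.det (Matrix.of fun i j => D i (f j))) ^ m

/-- Prime divisors of `F / k`: discrete valuation rings of `F` containing `k` whose residue field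
has transcendence degree `trdeg F - 1` over `k` (the residues of `y` are algebraically
independent over `k`). -/
def IsDivisorial (O : ValuationSubring F) : Prop :=
  IsDiscreteValuationRing O ∧ ∃ (n : ℕ) (y : Fin n → F),
    ((n + 1 : ℕ) : Cardinal) = Algebra.trdeg k F ∧
    ∀ p : MvPolynomial (Fin n) k, p ≠ 0 → O.valuation (MvPolynomial.aeval y p) = 1

/-- Regular pluricanonical forms of weight `m`: regular along every prime divisor. -/
def IsPluri {n : ℕ} (D : Fin n → Derivation k F F) (m : ℕ) (φ : F) : Prop :=
  ∀ O : ValuationSubring F, IsDivisorial k F O → RegAt k F D m φ O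

/-- Ratios of two regular pluricanonical forms of the same positive weight. -/
def ratios : Set F :=
  {h | ∃ (n : ℕ) (D : Fin n → Derivation k F F), IsFrame k F D ∧ ∃ m : ℕ, 0 < m ∧ ∃ φ ψ : F,
    IsPluri k F D m φ ∧ IsPluri k F D m ψ ∧ ψ ≠ 0 ∧ h = φ / ψ}

/-- Kodaira dimension of the function field `F / k`: `⊥` if there is no nonzero regular
pluricanonical form, otherwise the transcendence degree of the field of ratios. -/
noncomputable def kod : WithBot Cardinal :=
  if (ratios k F).Nonempty then
    ((Algebra.trdeg k (IntermediateField.adjoin k (ratios k F)) : Cardinal) : WithBot Cardinal)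
  else ⊥

/-- There is a nonzero pluricanonical form that is regular at every valuation ring of `F / k`
(true for the function field of a smooth projective variety of Kodaira dimension at least 0). -/
def HasRegularForm : Prop :=
  ∃ (n : ℕ) (D : Fin n → Derivation k F F), IsFrame k F D ∧ ∃ m : ℕ, 0 < m ∧ ∃ φ : F, φ ≠ 0 ∧
    ∀ O : ValuationSubring F, (∀ c : k, algebraMap k F c ∈ O) → RegAt k F D m φ O

end Forms

section Variation

variable {Om : Type} [Field Om] [Algebra ℂ Om]

/-- The algebraic closure of `K` in `Om`. -/
noncomputable def aclC (K : IntermediateField ℂ Om) : IntermediateField ℂ Om :=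
  (algebraicClosure K Om).restrictScalars ℂ

/-- The field `Mb / Kb` is defined over `K0`: it is generated over `Kb` by a finitely generated
extension `K0(S)` of `K0` that is linearly disjoint from `Kb` over `K0`. -/
def DefinedOver (K0 Kb Mb : IntermediateField ℂ Om) : Prop :=
  ∃ S : Finset Om, Kb ⊔ IntermediateField.adjoin ℂ (S : Set Om) = Mb ∧
    ∀ (n : ℕ) (b : Fin n → Om), (∀ i, b i ∈ Kb) → LinearIndependent K0 b →
      LinearIndependent (K0 ⊔ IntermediateField.adjoin ℂ (S : Set Om) : IntermediateField ℂ Om) b

/-- The variation: least transcendence degree of an algebraically closed field of definition. -/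
noncomputable def Var (Kb Mb : IntermediateField ℂ Om) : Cardinal :=
  sInf {c | ∃ K0 : IntermediateField ℂ Om, K0 ≤ Kb ∧ IsAlgClosed K0 ∧ DefinedOver K0 Kb Mb ∧
    c = Algebra.trdeg ℂ K0}

end Variation

end Pool.Agent.Lib.MP_5c318e_ag
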