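import Pool.Agent.Lib.MP_5c318e_ag.Sym
import Pool.Agent.Lib.MP_5c318e_ag.Lift

/-! Galois descent of a field of definition (end of section 7). -/

open Polynomial

namespace Pool.Agent.Lib.MP_5c318e_ag

variable {Om : Type*} [Field Om]

/-- `A` and `B` are linearly disjoint over `K0`: finite families in `B` that are independent over
`K0` stay independent over `A`. -/
def LD (K0 A B : Subfield Om) : Prop :=
  ∀ (n : ℕ) (b : Fin n → Om), (∀ i, b i ∈ B) →
    (∀ k : Fin n → Om, (∀ i, k i ∈ K0) → ∑ i, k i * b i = 0 → ∀ i, k i = 0) →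
    ∀ k : Fin n → Om, (∀ i, k i ∈ A) → ∑ i, k i * b i = 0 → ∀ i, k i = 0

theorem LD.mono {K0 A A' B B' : Subfield Om} (h : LD K0 A B) (hA : A' ≤ A) (hB : B' ≤ B) :
    LD K0 A' B' := fun n b hb hi k hk => h n b (fun i => hB (hb i)) hi k fun i => hA (hk i)

theorem li_iff_sum {κ : Type*} [Fintype κ] (F : Subfield Om) (b : κ → Om) :
    LinearIndependent F b ↔
      ∀ k : κ → Om, (∀ i, k i ∈ F) → ∑ i, k i * b i = 0 → ∀ i, k i = 0 := by
  rw [Fintype.linearIndependent_iff]
  constructor
  · intro h k hk h0 i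
    exact congrArg Subtype.val (h (fun i => ⟨k i, hk i⟩) h0 i)
  · intro h g h0 i
    exact Subtype.ext (h (fun i => g i) (fun i => (g i).2) h0 i)

/-- `LD` in terms of `LinearIndependent`, for arbitrary index types -/
theorem LD.linearIndependent {K0 A B : Subfield Om} (h : LD K0 A B) {κ : Type*} {b : κ → Om}
    (hb : ∀ i, b i ∈ B) (hi : LinearIndependent K0 b) : LinearIndependent A b := by
  rw [linearIndependent_iff_finset_linearIndependent] at hi ⊢
  intro s
  rw [← linearIndependent_equiv s.equivFin.symm]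
  exact (li_iff_sum _ _).2 (h _ _ (fun i => hb _)
    ((li_iff_sum _ _).1 ((linearIndependent_equiv s.equivFin.symm).2 (hi s))))

theorem LD_of_linearIndependent {K0 A B : Subfield Om}
    (h : ∀ (n : ℕ) (b : Fin n → Om), (∀ i, b i ∈ B) → LinearIndependent K0 b →
      LinearIndependent A b) : LD K0 A B :=
  fun n b hb hi => (li_iff_sum _ _).1 (h n b hb ((li_iff_sum _ _).2 hi))

theorem mem_span_of_mem_ring {A B : Subfield Om} {z : Om}
    (hz : z ∈ Subring.closure ((A : Set Om) ∪ B)) : z ∈ Submodule.span A (B : Set Om) := by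
  induction hz using Subring.closure_induction with
  | mem x hx =>
    rcases hx with hx | hx
    · have := Submodule.smul_mem _ (⟨x, hx⟩ : A) (Submodule.subset_span (R := A) B.one_mem)
      simpa [Subfield.smul_def] using this
    · exact Submodule.subset_span hx
  | zero => exact zero_mem _
  | one => exact Submodule.subset_span B.one_mem
  | add x y _ _ hx hy => exact add_mem hx hy
  | neg x _ hx => exact neg_mem hx
  | mul x y _ _ hx hy =>
    have := Submodule.mul_mem_mul hx hy
    rw [Submodule.span_mul_span] at this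
    refine Submodule.span_mono ?_ this
    rintro _ ⟨a, ha, b, hb, rfl⟩
    exact B.mul_mem ha hb

/-- an element of the ring `A.B` is `sum a_i b_i` with the `b_i` independent over `K0` -/
theorem exists_sum_indep {K0 A B : Subfield Om} (h0 : K0 ≤ A) {z : Om}
    (hz : z ∈ Subring.closure ((A : Set Om) ∪ B)) :
    ∃ (n : ℕ) (a b : Fin n → Om), (∀ i, a i ∈ A) ∧ (∀ i, b i ∈ B) ∧ LinearIndependent K0 b ∧
      z = ∑ i, a i * b i := by
  obtain ⟨S, hS, hspan, hli⟩ := exists_linearIndependent K0 (B : Set Om)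
  have hle : Submodule.span A (B : Set Om) ≤ Submodule.span A S := by
    refine Submodule.span_le.2 fun y hy => ?_
    have hy' : y ∈ Submodule.span K0 S := hspan ▸ Submodule.subset_span hy
    clear hy
    induction hy' using Submodule.span_induction with
    | mem x hx => exact Submodule.subset_span hx
    | zero => exact zero_mem _
    | add x y _ _ hx hy => exact add_mem hx hy
    | smul c x _ hx => exact Submodule.smul_mem _ (⟨c, h0 c.2⟩ : A) hx
  obtain ⟨f, t, ht, -, hsum⟩ :=
    Submodule.mem_span_iff_exists_finset_subset.1 (hle (mem_span_of_mem_ring hz))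
  refine ⟨t.card, fun i => f (t.equivFin.symm i), fun i => t.equivFin.symm i, fun i => (f _).2,
    fun i => hS (ht (t.equivFin.symm i).2), ?_, ?_⟩
  · exact hli.comp (fun i => (⟨t.equivFin.symm i, ht (t.equivFin.symm i).2⟩ : S)) fun i j hij =>
      t.equivFin.symm.injective (Subtype.ext (congrArg (fun x : S => (x : Om)) hij))
  · rw [← hsum, ← Finset.sum_coe_sort t, ← t.equivFin.symm.sum_comp]
    rfl

/-- an element of the field `A B` is a quotient of elements of the ring `A.B` -/
theorem exists_quot_ring {S : Set Om} {y : Om} (hy : y ∈ Subfield.closure S) :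
    ∃ u ∈ Subring.closure S, ∃ w ∈ Subring.closure S, w ≠ 0 ∧ y = u / w := by
  obtain ⟨u, hu, w, hw, rfl⟩ := Subfield.mem_closure_iff.1 hy
  by_cases h : w = 0
  · exact ⟨0, zero_mem _, 1, one_mem _, one_ne_zero, by simp [h]⟩
  · exact ⟨u, hu, w, hw, h, rfl⟩

/-- norm trick: denominators can be taken in `F` -/
theorem exists_denom [IsAlgClosed Om] [CharZero Om] (F : Subfield Om)
    (halg : Algebra.IsAlgebraic F Om) (R : Subring Om)
    (hR : ∀ σ : Om ≃ₐ[F] Om, ∀ a ∈ R, σ a ∈ R) {w : Om} (hw : w ∈ R) (hw0 : w ≠ 0) :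
    ∃ c ∈ R, c ∈ F ∧ c ≠ 0 ∧ c / w ∈ R := by
  have hint : IsIntegral F w := (halg.isAlgebraic w).isIntegral
  have hc := sym F halg R w fun σ => hR σ w hw
  refine ⟨_, hc 0, ((minpoly F w).coeff 0).2, fun h =>
    minpoly.coeff_zero_ne_zero hint hw0 (Subtype.ext h), ?_⟩
  have h1 : aeval w (minpoly F w).divX * w + ((minpoly F w).coeff 0 : Om) = 0 := by
    have h2 := minpoly.aeval F w
    rw [← divX_mul_X_add (minpoly F w), map_add, map_mul, aeval_X, aeval_C] at h2
    exact h2
  have h3 : ((minpoly F w).coeff 0 : Om) / w = -aeval w (minpoly F w).divX := by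
    rw [div_eq_iff hw0]
    linear_combination h1
  rw [h3, aeval_eq_sum_range]
  refine neg_mem (sum_mem fun i _ => ?_)
  rw [coeff_divX]
  exact R.mul_mem (hc _) (R.pow_mem hw _)

/-- Galois descent -/
theorem desc7 [IsAlgClosed Om] [CharZero Om] {K0 Kb kp Mb : Subfield Om} (h0 : K0 ≤ kp)
    (hK : Kb ≤ Mb) (halg : Algebra.IsAlgebraic Mb Om)
    (hstab : ∀ σ : Om ≃ₐ[Mb] Om, ∀ a ∈ kp, σ a ∈ kp) (hld : LD K0 kp Kb)
    (hle : Mb ≤ Subfield.closure ((kp : Set Om) ∪ Kb)) :
    Mb ≤ Subfield.closure (((kp ⊓ Mb : Subfield Om) : Set Om) ∪ Kb) := by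
  have hring : ∀ z ∈ Subring.closure ((kp : Set Om) ∪ Kb), z ∈ Mb →
      z ∈ Subfield.closure (((kp ⊓ Mb : Subfield Om) : Set Om) ∪ Kb) := by
    intro z hz hzM
    obtain ⟨n, a, b, ha, hb, hli, rfl⟩ := exists_sum_indep h0 hz
    have hli' := (li_iff_sum _ _).1 (hld.linearIndependent hb hli)
    have haM : ∀ i, a i ∈ Mb := fun i => by
      refine mem_of_fixed Mb halg _ fun σ => ?_
      refine sub_eq_zero.1 (hli' (fun i => σ (a i) - a i)
        (fun i => kp.sub_mem (hstab σ _ (ha i)) (ha i)) ?_ i)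
      have h1 := aut_fix Mb σ hzM
      rw [map_sum] at h1
      simp only [map_mul, aut_fix Mb σ (hK (hb _))] at h1
      simp only [sub_mul, Finset.sum_sub_distrib, h1, sub_self]
    exact sum_mem fun i _ => mul_mem (Subfield.subset_closure (Or.inl ⟨ha i, haM i⟩))
      (Subfield.subset_closure (Or.inr (hb i)))
  have hR : ∀ σ : Om ≃ₐ[Mb] Om, ∀ a ∈ Subring.closure ((kp : Set Om) ∪ Kb),
      σ a ∈ Subring.closure ((kp : Set Om) ∪ Kb) := by
    intro σ a ha
    refine (Subring.closure_le (t := (Subring.closure ((kp : Set Om) ∪ Kb)).comap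
      (σ : Om →+* Om))).2 ?_ ha
    rintro y (hy | hy)
    · exact Subring.subset_closure (Or.inl (hstab σ y hy))
    · change σ y ∈ Subring.closure ((kp : Set Om) ∪ Kb)
      rw [aut_fix Mb σ (hK hy)]
      exact Subring.subset_closure (Or.inr hy)
  intro y hy
  obtain ⟨u, hu, w, hw, hw0, rfl⟩ := exists_quot_ring (hle hy)
  obtain ⟨c, hcR, hcM, hc0, hcw⟩ := exists_denom Mb halg _ hR hw hw0
  have h1 : u / w = (u * (c / w)) / c := by field_simp
  have h2 : u * (c / w) ∈ Mb := by
    have : u * (c / w) = u / w * c := by ring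
    rw [this]
    exact Mb.mul_mem hy hcM
  rw [h1]
  exact div_mem (hring _ (mul_mem hu hcw) h2) (hring _ hcR hcM)

theorem exists_finset_closure {F : Subfield Om} {S : Set Om} {y : Om}
    (hy : y ∈ Subfield.closure ((F : Set Om) ∪ S)) :
    ∃ T : Finset Om, (T : Set Om) ⊆ S ∧ y ∈ Subfield.closure ((F : Set Om) ∪ T) := by
  rw [Lift_closure] at hy
  obtain ⟨T, hT, hyT⟩ := IntermediateField.exists_finset_of_mem_adjoin hy
  exact ⟨T, hT, by rw [Lift_closure]; exact hyT⟩

/-- Galois descent, finitely generated form: `Mb = Kb(T')` with `T'` a finite subset of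
`kp ∩ Mb` -/
theorem desc7_fg [IsAlgClosed Om] [CharZero Om] {K0 Kb kp Mb : Subfield Om} (h0 : K0 ≤ kp)
    (hK : Kb ≤ Mb) (halg : Algebra.IsAlgebraic Mb Om)
    (hstab : ∀ σ : Om ≃ₐ[Mb] Om, ∀ a ∈ kp, σ a ∈ kp) (hld : LD K0 kp Kb)
    (hle : Mb ≤ Subfield.closure ((kp : Set Om) ∪ Kb)) (T : Finset Om)
    (hT : Mb ≤ Subfield.closure ((Kb : Set Om) ∪ T)) (hTM : (T : Set Om) ⊆ Mb) :
    ∃ T' : Finset Om, (T' : Set Om) ⊆ kp ∧ Mb = Subfield.closure ((Kb : Set Om) ∪ T') ∧
      LD K0 (Subfield.closure ((K0 : Set Om) ∪ T')) Kb := by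
  classical
  have h1 : ∀ t : T, ∃ U : Finset Om, (U : Set Om) ⊆ (kp ⊓ Mb : Subfield Om) ∧
      (t : Om) ∈ Subfield.closure ((Kb : Set Om) ∪ U) := fun t => by
    have := desc7 h0 hK halg hstab hld hle (hTM t.2)
    rw [Set.union_comm] at this
    exact exists_finset_closure this
  choose U hU hUt using h1
  have hsub : ((Finset.univ.biUnion U : Finset Om) : Set Om) ⊆ (kp ⊓ Mb : Subfield Om) := by
    intro y hy
    obtain ⟨t, -, ht⟩ := Finset.mem_biUnion.1 (Finset.mem_coe.1 hy)
    exact hU t ht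
  refine ⟨Finset.univ.biUnion U, fun y hy => (hsub hy).1, le_antisymm (hT.trans ?_) ?_,
    hld.mono ?_ le_rfl⟩
  · refine Subfield.closure_le.2 ?_
    rintro y (hy | hy)
    · exact Subfield.subset_closure (Or.inl hy)
    · refine Subfield.closure_mono (Set.union_subset_union_right _ ?_) (hUt ⟨y, hy⟩)
      exact Finset.coe_subset.2 (Finset.subset_biUnion_of_mem U (Finset.mem_univ _))
  · refine Subfield.closure_le.2 ?_
    rintro y (hy | hy)
    · exact hK hy
    · exact (hsub hy).2
  · refine Subfield.closure_le.2 ?_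
    rintro y (hy | hy)
    · exact h0 hy
    · exact (hsub hy).1

end Pool.Agent.Lib.MP_5c318e_ag
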