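import Pool.Agent.Lib.MP_5c318e_ag.Rigid
import Pool.Agent.Lib.MP_5c318e_ag.Ext
import Pool.Agent.Lib.MP_5c318e_ag.Sym

/-! Integral elements of bounded degree in a finite extension of a rational function field form a
finite dimensional space. -/

set_option autoImplicit false

namespace Pool.Agent.Lib.MP_5c318e_ag

open Polynomial NNReal

variable {Om ι : Type*} [Field Om]

/-- valuations that are adic for a prime of the polynomial ring in `s` -/
def PV (k : Subfield Om) (s : ι → Om) (v : Valuation Om ℝ≥0) : Prop :=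
  ∃ Q : MvPolynomial ι k, Prime Q ∧ v (MvPolynomial.aeval s Q) < 1 ∧
    ∀ p, p ≠ 0 → v (MvPolynomial.aeval s p) = v (MvPolynomial.aeval s Q) ^ multiplicity Q p

/-- valuations that are the total degree on the polynomial ring in `s` -/
def DV (k : Subfield Om) (s : ι → Om) (v : Valuation Om ℝ≥0) : Prop :=
  ∀ p : MvPolynomial ι k, p ≠ 0 → (v (MvPolynomial.aeval s p) : ℝ) = Real.exp p.totalDegree

theorem FinV_mem (k : Subfield Om) (s : ι → Om) (p : MvPolynomial ι k) :
    MvPolynomial.aeval s p ∈ Subfield.closure ((k : Set Om) ∪ Set.range s) := by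
  rw [closure_eq_adjoin]
  refine IntermediateField.algebra_adjoin_le_adjoin k _ ?_
  rw [Algebra.adjoin_range_eq_range_aeval]
  exact ⟨p, rfl⟩

theorem FinV_ratio {k : Subfield Om} {s : ι → Om} {u : Om}
    (hu : u ∈ Subfield.closure ((k : Set Om) ∪ Set.range s)) :
    ∃ a b : MvPolynomial ι k, b ≠ 0 ∧ IsRelPrime a b ∧
      u = MvPolynomial.aeval s a / MvPolynomial.aeval s b := by
  rw [closure_eq_adjoin] at hu
  obtain ⟨a, b, rfl⟩ := (IntermediateField.mem_adjoin_range_iff k s u).mp hu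
  by_cases hb : MvPolynomial.aeval s b = 0
  · exact ⟨0, 1, one_ne_zero, isRelPrime_one_right, by simp [hb]⟩
  have hb0 : b ≠ 0 := fun h => hb (by rw [h, map_zero])
  obtain ⟨a', b', c, h, rfl, rfl⟩ := UniqueFactorizationMonoid.exists_reduced_factors' a b hb0
  refine ⟨a', b', right_ne_zero_of_mul hb0, h, ?_⟩
  rw [map_mul] at hb
  rw [map_mul, map_mul, mul_div_mul_left _ _ (left_ne_zero_of_mul hb)]

theorem FinV_den {k : Subfield Om} {s : ι → Om} (hs : AlgebraicIndependent k s)
    (v : Valuation Om ℝ≥0) {Q : MvPolynomial ι k} (hQ : Prime Q)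
    (hlt : v (MvPolynomial.aeval s Q) < 1)
    (h : ∀ p, p ≠ 0 →
      v (MvPolynomial.aeval s p) = v (MvPolynomial.aeval s Q) ^ multiplicity Q p)
    {a b : MvPolynomial ι k} (hb : b ≠ 0) (hab : IsRelPrime a b)
    (hu : v (MvPolynomial.aeval s a / MvPolynomial.aeval s b) ≤ 1) : ¬ Q ∣ b := by
  intro hQb
  have key := prime_val_iff (MvPolynomial.aeval s : MvPolynomial ι k →ₐ[k] Om).toRingHom v hlt h
  have h1 : v (MvPolynomial.aeval s b) < 1 := (key b).2.mpr hQb
  have h2 : ¬ v (MvPolynomial.aeval s a) < 1 := fun h2 =>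
    hQ.not_isUnit (hab ((key a).2.mp h2) hQb)
  have h3 : 0 < v (MvPolynomial.aeval s b) := zero_lt_iff.mpr fun h0 =>
    hb (hs.eq_zero_of_aeval_eq_zero b (v.zero_iff.mp h0))
  rw [map_div₀, div_le_one₀ h3] at hu
  exact h2 (lt_of_le_of_lt hu h1)

theorem FinV_poly {k : Subfield Om} {s : ι → Om} (hs : AlgebraicIndependent k s)
    (halg : ∀ y : Om, IsAlgebraic (Subfield.closure ((k : Set Om) ∪ Set.range s)) y) {u : Om}
    (hu : u ∈ Subfield.closure ((k : Set Om) ∪ Set.range s))
    (h : ∀ v, PV k s v → v u ≤ 1) : ∃ p : MvPolynomial ι k, u = MvPolynomial.aeval s p := by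
  obtain ⟨a, b, hb, hab, rfl⟩ := FinV_ratio hu
  by_cases hunit : IsUnit b
  · obtain ⟨c, hc⟩ := hunit.exists_right_inv
    refine ⟨a * c, ?_⟩
    have := congrArg (MvPolynomial.aeval s) hc
    rw [map_mul, map_one] at this
    rw [map_mul, div_eq_mul_inv, ← eq_inv_of_mul_eq_one_right this]
  obtain ⟨Q, hQ, hQb⟩ := WfDvdMonoid.exists_irreducible_factor hunit hb
  obtain ⟨v, -, -, -, h1, h2⟩ := ext_mv_prime hs halg hQ.prime
  exact absurd hQb (FinV_den hs v hQ.prime h1 h2 hb hab (h v ⟨Q, hQ.prime, h1, h2⟩))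

theorem FinV_trace [IsAlgClosed Om] [CharZero Om] (F : Subfield Om)
    (halg : ∀ y : Om, IsAlgebraic F y) (N : IntermediateField F Om) [FiniteDimensional F N]
    (g : N) (v : Valuation Om ℝ≥0) (c : ℝ≥0) (h : ∀ t : Om →ₐ[F] Om, v (t g) ≤ c) :
    v (Algebra.trace F N g : Om) ≤ c := by
  have := isGalois_of_alg F ⟨halg⟩
  have e := trace_eq_sum_embeddings (K := F) (L := N) Om (x := g)
  change (Algebra.trace F N g : Om) = _ at e
  rw [e]
  refine v.map_sum_le fun σ _ => ?_
  have h2 := σ.liftNormal_commutes Om g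
  change σ.liftNormal Om g = σ g at h2
  rw [← h2]
  exact h _

theorem FinV_fix {k : Subfield Om} {s : ι → Om}
    (t : Om →ₐ[Subfield.closure ((k : Set Om) ∪ Set.range s)] Om) (p : MvPolynomial ι k) :
    t (MvPolynomial.aeval s p) = MvPolynomial.aeval s p :=
  t.commutes ⟨_, FinV_mem k s p⟩

/-- elements of `N` that are integral and of bounded degree -/
def VV (k : Subfield Om) (s : ι → Om) (N : Subfield Om) (hN : k ≤ N) (c : ℝ≥0) :
    Submodule k Om where
  carrier := {f | f ∈ N ∧ (∀ v, PV k s v → v f ≤ 1) ∧ ∀ v, DV k s v → v f ≤ c}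
  add_mem' := fun ha hb => ⟨add_mem ha.1 hb.1, fun v hv => v.map_add_le (ha.2.1 v hv) (hb.2.1 v hv),
    fun v hv => v.map_add_le (ha.2.2 v hv) (hb.2.2 v hv)⟩
  zero_mem' := ⟨N.zero_mem, fun v _ => by simp, fun v _ => by simp⟩
  smul_mem' := fun a f hf => by
    have e : a • f = MvPolynomial.aeval s (MvPolynomial.C a : MvPolynomial ι k) * f := by
      rw [MvPolynomial.aeval_C, Algebra.smul_def]
    refine ⟨mul_mem (hN a.2) hf.1, fun v hv => ?_, fun v hv => ?_⟩
    · obtain ⟨Q, hQ, h1, h2⟩ := id hv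
      rw [e, map_mul]
      exact mul_le_one' (prime_val_iff
        (MvPolynomial.aeval s : MvPolynomial ι k →ₐ[k] Om).toRingHom v h1 h2 _).1 (hf.2.1 v hv)
    · by_cases ha : a = 0
      · simp [ha]
      have h1 := hv (MvPolynomial.C a) (by simpa using ha)
      rw [MvPolynomial.totalDegree_C, Nat.cast_zero, Real.exp_zero] at h1
      rw [e, map_mul, NNReal.coe_eq_one.mp h1, one_mul]
      exact hf.2.2 v hv

theorem FinV_fin [IsAlgClosed Om] [CharZero Om] [Finite ι] {k : Subfield Om} {s : ι → Om}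
    (hs : AlgebraicIndependent k s)
    (halg : ∀ y : Om, IsAlgebraic (Subfield.closure ((k : Set Om) ∪ Set.range s)) y) (th : Om)
    (N : Subfield Om) (hN : k ≤ N)
    (hNle : N ≤ (IntermediateField.adjoin
      (Subfield.closure ((k : Set Om) ∪ Set.range s)) {th}).toSubfield)
    (c : ℝ≥0) (hc : 1 ≤ c) (hth : th ∈ VV k s N hN c) : FiniteDimensional k (VV k s N hN c) := by
  classical
  set F := Subfield.closure ((k : Set Om) ∪ Set.range s) with hF
  have hi : IsIntegral F th := (halg th).isIntegral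
  have := IntermediateField.adjoin.finiteDimensional hi
  let pb := IntermediateField.adjoin.powerBasis hi
  let D := ⌈((c ^ (pb.dim + 1) : ℝ≥0) : ℝ)⌉₊
  let U : Fin pb.dim → Submodule k Om := fun i =>
    (MvPolynomial.restrictTotalDegree ι k D).map
      ((LinearMap.mulRight k (pb.basis.traceDual i : Om)).comp
        (MvPolynomial.aeval s : MvPolynomial ι k →ₐ[k] Om).toLinearMap)
  have hU : ∀ i, FiniteDimensional k (U i) := fun i => Module.Finite.map _ _
  refine Submodule.finiteDimensional_of_le (S₂ := ⨆ i, U i) fun f hf => ?_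
  let f' : IntermediateField.adjoin F {th} := ⟨f, hNle hf.1⟩
  have e1 : f = ∑ i, (Algebra.trace F _ (f' * pb.basis i) : Om) * (pb.basis.traceDual i : Om) := by
    have := congrArg Subtype.val (pb.basis.traceDual.sum_repr f').symm
    simp only [Module.Basis.traceDual_repr_apply, Algebra.traceForm_apply] at this
    push_cast at this
    exact this
  rw [e1]
  refine Submodule.sum_mem _ fun i _ => Submodule.mem_iSup_of_mem i ?_
  have e2 : ((f' * pb.basis i : IntermediateField.adjoin F {th}) : Om) = f * th ^ (i : ℕ) := by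
    rw [pb.basis_eq_pow]; rfl
  obtain ⟨p, hp⟩ := FinV_poly hs halg (Algebra.trace F _ (f' * pb.basis i)).2 fun v hv => by
    refine FinV_trace F halg _ _ v 1 fun t => ?_
    have hv' : PV k s (v.comap t.toRingHom) := by
      obtain ⟨Q, hQ, h1, h2⟩ := hv
      refine ⟨Q, hQ, ?_, fun p hp => ?_⟩
      · change v (t _) < 1
        rwa [FinV_fix]
      · change v (t _) = v (t _) ^ _
        rw [FinV_fix, FinV_fix, h2 p hp]
    change v.comap t.toRingHom _ ≤ 1
    rw [e2, map_mul, map_pow]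
    exact mul_le_one' (hf.2.1 _ hv') (pow_le_one' (hth.2.1 _ hv') _)
  refine ⟨p, (MvPolynomial.mem_restrictTotalDegree _ _ _).mpr ?_, by rw [hp]; rfl⟩
  by_cases hp0 : p = 0
  · simp [hp0]
  obtain ⟨v, -, -, hv⟩ := ext_mv_deg hs halg
  have h3 : v (Algebra.trace F _ (f' * pb.basis i) : Om) ≤ c ^ (pb.dim + 1) := by
    refine FinV_trace F halg _ _ v _ fun t => ?_
    have hv' : DV k s (v.comap t.toRingHom) := fun p hp => by
      change (v (t _) : ℝ) = _
      rw [FinV_fix, hv p hp]
    change v.comap t.toRingHom _ ≤ _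
    rw [e2, map_mul, map_pow, pow_succ']
    exact mul_le_mul' (hf.2.2 _ hv') (le_trans (pow_le_pow_left' (hth.2.2 _ hv') _)
      (pow_le_pow_right' hc i.2.le))
  rw [hp, ← NNReal.coe_le_coe, hv p hp0] at h3
  have h4 : (p.totalDegree : ℝ) ≤ D :=
    le_trans (le_trans (by linarith [Real.add_one_le_exp (p.totalDegree : ℝ)]) h3) (Nat.le_ceil _)
  exact_mod_cast h4

end Pool.Agent.Lib.MP_5c318e_ag
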