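import Pool.Agent.Lib.MP_5c318e_ag.Desc7

/-! Linear disjointness `LD` and tensor products. -/

open scoped TensorProduct

namespace Pool.Agent.Lib.MP_5c318e_ag

variable {Om : Type*} [Field Om]

theorem li_subfield_iff {k : Type*} [Field k] [Algebra k Om] {K0 : Subfield Om}
    (hk : ∀ y, y ∈ K0 ↔ y ∈ Set.range (algebraMap k Om)) {κ : Type*} (b : κ → Om) :
    LinearIndependent K0 b ↔ LinearIndependent k b := by
  rw [linearIndependent_iff', linearIndependent_iff']
  constructor
  · intro h s g hg i hi
    have := h s (fun j => ⟨algebraMap k Om (g j), (hk _).2 ⟨_, rfl⟩⟩) (by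
      simp only [Algebra.smul_def] at hg
      exact hg) i hi
    exact (algebraMap k Om).injective (by simpa using congrArg Subtype.val this)
  · intro h s g hg i hi
    choose c hc using fun j => (hk _).1 (g j).2
    have := h s c (by
      simp only [Algebra.smul_def, hc]
      exact hg) i hi
    exact Subtype.ext (by rw [← hc, this, map_zero]; rfl)

/-- linear disjointness gives an embedding of the tensor product -/
theorem LD.tensor_injective {K0 A B : Subfield Om} (h : LD K0 A B) {k W V : Type*} [Field k]
    [CommRing W] [CommRing V] [Algebra k W] [Algebra k V] [Algebra k Om]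
    (hk : ∀ y, y ∈ K0 ↔ y ∈ Set.range (algebraMap k Om)) (f : W →ₐ[k] Om) (g : V →ₐ[k] Om)
    (hf : Function.Injective f) (hg : Function.Injective g) (hfA : ∀ w, f w ∈ A)
    (hgB : ∀ y, g y ∈ B) : Function.Injective (Algebra.TensorProduct.productMap f g) := by
  classical
  let b := Module.Free.chooseBasis k V
  have hli : LinearIndependent A (fun i => g (b i)) :=
    h.linearIndependent (fun i => hgB _) ((li_subfield_iff hk _).2
      (b.linearIndependent.map' g.toLinearMap (LinearMap.ker_eq_bot.2 hg)))
  rw [injective_iff_map_eq_zero]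
  intro z hz
  let B' := Algebra.TensorProduct.basis W b
  have hz' : z = ∑ i ∈ (B'.repr z).support, (B'.repr z i) ⊗ₜ[k] b i := by
    conv_lhs => rw [← B'.linearCombination_repr z, Finsupp.linearCombination_apply, Finsupp.sum]
    refine Finset.sum_congr rfl fun i _ => ?_
    simp [B', Algebra.TensorProduct.basis_apply, TensorProduct.smul_tmul']
  have h0 : ∀ i ∈ (B'.repr z).support, B'.repr z i = 0 := fun i hi => by
    have := linearIndependent_iff'.1 hli (B'.repr z).support (fun j => ⟨f (B'.repr z j), hfA _⟩)
      (by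
        rw [hz', map_sum] at hz
        simp only [Algebra.TensorProduct.productMap_apply_tmul] at hz
        exact hz) i hi
    exact hf (by simpa using congrArg Subtype.val this)
  rw [hz']
  exact Finset.sum_eq_zero fun i hi => by rw [h0 i hi, TensorProduct.zero_tmul]

/-- the converse: an embedding of the tensor product gives linear disjointness -/
theorem LD_of_tensor_injective {K0 A B : Subfield Om} {k W V : Type*} [Field k]
    [CommRing W] [CommRing V] [Algebra k W] [Algebra k V] [Algebra k Om]
    (hk : ∀ y, y ∈ K0 ↔ y ∈ Set.range (algebraMap k Om)) (f : W →ₐ[k] Om) (g : V →ₐ[k] Om)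
    (hfA : ∀ a ∈ A, a ∈ Set.range f) (hgB : ∀ y ∈ B, y ∈ Set.range g)
    (h : Function.Injective (Algebra.TensorProduct.productMap f g)) : LD K0 A B := by
  refine LD_of_linearIndependent fun n b hb hi => ?_
  choose c hc using fun i => hgB _ (hb i)
  have hci : LinearIndependent k c := by
    refine LinearIndependent.of_comp g.toLinearMap ?_
    have : (g.toLinearMap ∘ c) = b := funext hc
    rw [this]
    exact (li_subfield_iff hk _).1 hi
  have hW : LinearIndependent W (fun i => (1 : W) ⊗ₜ[k] c i) :=
    Module.Flat.linearIndependent_one_tmul hci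
  refine (li_iff_sum _ _).2 fun a ha h0 i => ?_
  choose w hw using fun i => hfA _ (ha i)
  have h1 : ∑ i, w i • ((1 : W) ⊗ₜ[k] c i) = 0 := by
    apply h
    rw [map_sum, map_zero, ← h0]
    refine Finset.sum_congr rfl fun j _ => ?_
    rw [TensorProduct.smul_tmul', smul_eq_mul, mul_one,
      Algebra.TensorProduct.productMap_apply_tmul, hw, hc]
  rw [← hw, Fintype.linearIndependent_iff.1 hW w h1 i, map_zero]

theorem productMap_range {k W V : Type*} [Field k] [CommRing W] [CommRing V] [Algebra k W]
    [Algebra k V] [Algebra k Om] (f : W →ₐ[k] Om) (g : V →ₐ[k] Om) :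
    (Algebra.TensorProduct.productMap f g).range.toSubring =
      Subring.closure (Set.range f ∪ Set.range g) := by
  refine le_antisymm ?_ (Subring.closure_le.2 ?_)
  · rintro _ ⟨z, rfl⟩
    induction z using TensorProduct.induction_on with
    | zero => simp
    | tmul a b =>
      exact mul_mem (Subring.subset_closure (Or.inl ⟨a, rfl⟩))
        (Subring.subset_closure (Or.inr ⟨b, rfl⟩))
    | add x y hx hy =>
      rw [map_add]
      exact add_mem hx hy
  · rintro _ (⟨a, rfl⟩ | ⟨b, rfl⟩)
    · exact ⟨a ⊗ₜ 1, by simp⟩
    · exact ⟨1 ⊗ₜ b, by simp⟩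

/-- linear disjointness is symmetric -/
theorem LD.symm {K0 A B : Subfield Om} (hA : K0 ≤ A) (hB : K0 ≤ B) (h : LD K0 A B) :
    LD K0 B A := by
  let A' : IntermediateField K0 Om := A.toIntermediateField fun x => hA x.2
  let B' : IntermediateField K0 Om := B.toIntermediateField fun x => hB x.2
  have hk : ∀ y, y ∈ K0 ↔ y ∈ Set.range (algebraMap K0 Om) :=
    fun y => ⟨fun h => ⟨⟨y, h⟩, rfl⟩, fun ⟨c, hc⟩ => hc ▸ c.2⟩
  have h1 := h.tensor_injective hk A'.val B'.val Subtype.val_injective Subtype.val_injective
    (fun w => w.2) (fun w => w.2)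
  refine LD_of_tensor_injective hk B'.val A'.val (fun a ha => ⟨⟨a, ha⟩, rfl⟩)
    (fun a ha => ⟨⟨a, ha⟩, rfl⟩) ?_
  have : Algebra.TensorProduct.productMap B'.val A'.val =
      (Algebra.TensorProduct.productMap A'.val B'.val).comp
        (Algebra.TensorProduct.comm K0 B' A').toAlgHom := by
    ext <;> simp
  rw [this]
  exact h1.comp (Algebra.TensorProduct.comm K0 B' A').injective

end Pool.Agent.Lib.MP_5c318e_ag
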