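import Pool.Agent.Lib.MP_5c318e_ag.Res0
import Pool.Agent.Lib.MP_5c318e_ag.Unr

/-! A finite dimensional derivation-stable space of algebraic functions is spanned by constants. -/

set_option autoImplicit false

namespace Pool.Agent.Lib.MP_5c318e_ag

open Polynomial

variable {Om G R : Type*} [Field Om] [LinearOrderedCommGroupWithZero G]

theorem Rigid_dual {k W : Type*} [Field k] [AddCommGroup W] [Module k W] [FiniteDimensional k W]
    (La : Set (Module.Dual k W)) [DecidableEq (Module.Dual k W)]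
    (hsep : ∀ z ≠ 0, ∃ l ∈ La, l z ≠ 0) :
    ∃ (b : Set (Module.Dual k W)) (_ : Fintype b) (e : b → W), b ⊆ La ∧
      (∀ i j : b, (i : Module.Dual k W) (e j) = if i = j then 1 else 0) ∧
      ∀ x : W, (∀ i : b, (i : Module.Dual k W) x = 0) → x = 0 := by
  have htop : Submodule.span k La = ⊤ := Submodule.span_eq_top_of_ne_zero hsep
  obtain ⟨b, hb, hsp, hli⟩ := exists_linearIndependent k La
  let B : Module.Basis b k (Module.Dual k W) :=
    Module.Basis.mk hli (by rw [Subtype.range_coe, hsp, htop])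
  have hB : ∀ i : b, B i = i := fun i => Module.Basis.mk_apply _ _ i
  have : Fintype b := FiniteDimensional.fintypeBasisIndex B
  refine ⟨b, this, fun j => (Module.evalEquiv k W).symm (B.coord j), hb, fun i j => ?_,
    fun x hx => ?_⟩
  · simp only [Module.apply_evalEquiv_symm_apply]
    rw [← hB, Module.Basis.coord_apply, B.repr_self, Finsupp.single_apply]
  · refine (Module.forall_dual_apply_eq_zero_iff k x).mp fun l => ?_
    rw [← B.sum_repr l, LinearMap.sum_apply]
    exact Finset.sum_eq_zero fun i _ => by rw [LinearMap.smul_apply, hB, hx, smul_zero]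

theorem LIN [CommRing R] [Algebra R Om] (k : Subfield Om) (Ds : Set (Derivation R Om Om))
    (V : Submodule k Om) [FiniteDimensional k V] (hV : ∀ D ∈ Ds, ∀ f ∈ V, D f ∈ V)
    (La : Set (Module.Dual k V)) (hsep : ∀ z ≠ 0, ∃ l ∈ La, l z ≠ 0)
    (hcom : ∀ l ∈ La, ∀ D (hD : D ∈ Ds) (f : V), (l ⟨D f, hV D hD f f.2⟩ : Om) = D (l f)) :
    V ≤ Submodule.span k {f | f ∈ V ∧ ∀ D ∈ Ds, D f = 0} := by
  classical
  obtain ⟨b, _, e, hb, he, hz⟩ := Rigid_dual La hsep
  have hc : ∀ j, ∀ D ∈ Ds, D (e j) = 0 := fun j D hD => by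
    have := hz ⟨D (e j), hV D hD _ (e j).2⟩ fun i => by
      apply Subtype.ext
      rw [hcom i (hb i.2) D hD, he]
      split_ifs <;> simp
    exact congrArg Subtype.val this
  intro x hx
  have h1 : (⟨x, hx⟩ : V) = ∑ j : b, (j : Module.Dual k V) ⟨x, hx⟩ • e j := by
    rw [← sub_eq_zero]
    refine hz _ fun i => ?_
    simp only [map_sub, map_sum, map_smul, he, smul_eq_mul, mul_ite, mul_one, mul_zero,
      Finset.sum_ite_eq, Finset.mem_univ, if_true, sub_self]
  have h2 : x = ∑ j : b, (j : Module.Dual k V) ⟨x, hx⟩ • (e j : Om) := by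
    have := congrArg Subtype.val h1
    simpa using this
  rw [h2]
  exact Submodule.sum_mem _ fun j _ =>
    Submodule.smul_mem _ _ (Submodule.subset_span ⟨(e j).2, hc j⟩)

theorem Rigid_place {ι : Type*} [CharZero Om] (k : Subfield Om) (s : ι → Om)
    (hs : AlgebraicIndependent k s) (d : Om) (hd : d ∈ Algebra.adjoin k (Set.range s))
    (hd0 : d ≠ 0) :
    ∃ O : ValuationSubring Om, (∀ a ∈ k, O.valuation a ≤ 1) ∧ O.valuation d = 1 ∧
      ∀ i, ∃ n : ℕ, O.valuation (s i - n) < 1 := by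
  obtain ⟨p, rfl⟩ : ∃ p : MvPolynomial ι k, MvPolynomial.aeval s p = d := by
    rwa [Algebra.adjoin_range_eq_range_aeval] at hd
  have hp : p ≠ 0 := fun h => hd0 (by rw [h, map_zero])
  obtain ⟨c, hc, hc0⟩ : ∃ c ∈ Set.pi Set.univ fun _ : ι => Set.range (Nat.cast : ℕ → k),
      MvPolynomial.eval c p ≠ 0 := by
    by_contra h
    push Not at h
    exact hp (MvPolynomial.funext_set _ (fun _ => Set.infinite_range_of_injective
      Nat.cast_injective) fun x hx => by rw [h x hx, map_zero])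
  let A : Subring Om := (Algebra.adjoin k (Set.range s)).toSubring
  let f : A →+* k := (MvPolynomial.eval c).comp hs.aevalEquiv.symm.toRingEquiv.toRingHom
  obtain ⟨O, hA, hI⟩ := Ideal.image_subset_nonunits_valuationSubring (RingHom.ker f)
    (RingHom.ker_ne_top f)
  have hk : ∀ a ∈ k, O.valuation a ≤ 1 := fun a ha =>
    (O.valuation_le_one_iff a).mpr (hA ((Algebra.adjoin k (Set.range s)).algebraMap_mem ⟨a, ha⟩))
  have key : ∀ q : MvPolynomial ι k,
      O.valuation (MvPolynomial.aeval s q - (MvPolynomial.eval c q : k)) < 1 := fun q => by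
    rw [← O.mem_nonunits_iff]
    refine hI ⟨hs.aevalEquiv (q - MvPolynomial.C (MvPolynomial.eval c q)), ?_, ?_⟩
    · change MvPolynomial.eval c (hs.aevalEquiv.symm (hs.aevalEquiv _)) = 0
      rw [AlgEquiv.symm_apply_apply]
      simp
    · change MvPolynomial.aeval s (q - MvPolynomial.C (MvPolynomial.eval c q)) = _
      rw [map_sub, MvPolynomial.aeval_C]
      rfl
  refine ⟨O, hk, ?_, fun i => ?_⟩
  · have h1 : O.valuation (MvPolynomial.eval c p : k) = 1 :=
      v_eq_one_of_isAlgebraic hk (isAlgebraic_algebraMap (MvPolynomial.eval c p))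
        (by simpa using hc0)
    have h2 := key p
    rw [← h1] at h2 ⊢
    exact Valuation.map_eq_of_sub_lt _ h2
  · obtain ⟨n, hn⟩ := hc i (Set.mem_univ i)
    refine ⟨n, ?_⟩
    have := key (MvPolynomial.X i)
    simpa [← hn] using this

theorem Rigid_pow (v : Valuation Om G) {t e : Om} (ht : v t ≤ 1) (he : v e ≤ 1)
    (h : v (t - e) < 1) (i : ℕ) : v (t ^ i - e ^ i) < 1 := by
  induction i with
  | zero => simp
  | succ i ih =>
    have : t ^ (i + 1) - e ^ (i + 1) = t * (t ^ i - e ^ i) + (t - e) * e ^ i := by ring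
    rw [this]
    refine v.map_add_lt ?_ ?_
    · rw [map_mul]; exact lt_of_le_of_lt (mul_le_of_le_one_left' ht) ih
    · rw [map_mul, map_pow]; exact lt_of_le_of_lt (mul_le_of_le_one_right' (pow_le_one' he i)) h

theorem Rigid_sum (v : Valuation Om G) {t e : Om} (ht : v t ≤ 1) (he : v e ≤ 1)
    (h : v (t - e) < 1) (a : ℕ → Om) (ha : ∀ i, v (a i) ≤ 1) (n : ℕ) :
    v (∑ i ∈ Finset.range n, a i * t ^ i - ∑ i ∈ Finset.range n, a i * e ^ i) < 1 := by
  rw [← Finset.sum_sub_distrib]
  refine v.map_sum_lt one_ne_zero fun i _ => ?_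
  rw [← mul_sub, map_mul]
  exact lt_of_le_of_lt (mul_le_of_le_one_left' (ha i)) (Rigid_pow v ht he h i)

theorem Rigid_le (v : Valuation Om G) {t e : Om} (he : v e ≤ 1) (h : v (t - e) < 1) :
    v t ≤ 1 := by
  rw [← sub_add_cancel t e]
  exact v.map_add_le h.le he

theorem Rigid_nice {ι : Type*} [CommRing R] [Algebra R Om] (v : Valuation Om G) (k : Subfield Om)
    (s : ι → Om) (D : Derivation R Om Om) (hk : ∀ a ∈ k, D a ∈ k) (hD : ∀ i, D (s i) = 0)
    (hvk : ∀ a ∈ k, v a ≤ 1) (hvs : ∀ i, ∃ n : ℕ, v (s i - n) < 1) (a : Om)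
    (ha : a ∈ Algebra.adjoin k (Set.range s)) :
    ∃ e ∈ k, v (a - e) < 1 ∧ v (D a - D e) < 1 := by
  induction ha using Algebra.adjoin_induction with
  | mem x hx =>
    obtain ⟨i, rfl⟩ := hx
    obtain ⟨n, hn⟩ := hvs i
    exact ⟨n, natCast_mem k n, hn, by simp [hD]⟩
  | algebraMap r => exact ⟨r, r.2, by simp [Subfield.algebraMap_ofSubfield], by
      simp [Subfield.algebraMap_ofSubfield]⟩
  | add x y _ _ hx hy =>
    obtain ⟨e, he, h1, h2⟩ := hx
    obtain ⟨f, hf, h3, h4⟩ := hy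
    refine ⟨e + f, add_mem he hf, ?_, ?_⟩
    · rw [add_sub_add_comm]; exact v.map_add_lt h1 h3
    · rw [map_add, map_add, add_sub_add_comm]; exact v.map_add_lt h2 h4
  | mul x y _ _ hx hy =>
    obtain ⟨e, he, h1, h2⟩ := hx
    obtain ⟨f, hf, h3, h4⟩ := hy
    have m1 : ∀ {a b : Om}, v a < 1 → v b ≤ 1 → v (a * b) < 1 := fun ha hb => by
      rw [map_mul]; exact lt_of_le_of_lt (mul_le_of_le_one_right' hb) ha
    refine ⟨e * f, mul_mem he hf, ?_, ?_⟩
    · have : x * y - e * f = (x - e) * y + (y - f) * e := by ring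
      rw [this]
      exact v.map_add_lt (m1 h1 (Rigid_le v (hvk f hf) h3)) (m1 h3 (hvk e he))
    · have : D (x * y) - D (e * f) = ((x - e) * D y + (D y - D f) * e)
          + ((y - f) * D x + (D x - D e) * f) := by
        simp only [Derivation.leibniz, smul_eq_mul]; ring
      rw [this]
      exact v.map_add_lt
        (v.map_add_lt (m1 h1 (Rigid_le v (hvk _ (hk f hf)) h4)) (m1 h4 (hvk e he)))
        (v.map_add_lt (m1 h3 (Rigid_le v (hvk _ (hk e he)) h2)) (m1 h2 (hvk f hf)))

theorem Rigid_good (v : Valuation Om G) (k : Subfield Om) [IsAlgClosed k]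
    (hvk : ∀ a ∈ k, v a ≤ 1) (q : Om[X]) (hq : ∀ i, ∃ e ∈ k, v (q.coeff i - e) < 1)
    (hl : v q.leadingCoeff = 1) (t : Om) (ht : q.eval t = 0) : ∃ e ∈ k, v (t - e) < 1 := by
  choose e he hv using hq
  have hl0 : q.leadingCoeff ≠ 0 := fun h => by rw [h] at hl; simp at hl
  have hqc : ∀ i, v (q.coeff i) ≤ 1 := fun i => Rigid_le v (hvk _ (he i)) (hv i)
  have htv : v t ≤ 1 := by
    refine v_le_one_of_root (F := ⊤) (q := q * C q.leadingCoeff⁻¹) (mem_PO.2 fun i => ⟨trivial, ?_⟩)
      (monic_mul_leadingCoeff_inv (leadingCoeff_ne_zero.mp hl0)) (by simp [ht])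
    rw [coeff_mul_C, map_mul, map_inv₀, hl, inv_one, mul_one]
    exact hqc i
  let p : k[X] := ∑ i ∈ Finset.range (q.natDegree + 1), monomial i ⟨e i, he i⟩
  have hp : aeval t p = ∑ i ∈ Finset.range (q.natDegree + 1), e i * t ^ i := by
    simp only [p, map_sum, aeval_monomial]; rfl
  have hpn : (p.coeff q.natDegree : Om) = e q.natDegree := by
    simp [p, coeff_monomial]
  have hen : v (e q.natDegree) = 1 := by
    have h := hv q.natDegree
    rw [v.map_sub_swap, ← hl] at h
    rw [← hl]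
    exact Valuation.map_eq_of_sub_lt _ h
  have hp0 : p ≠ 0 := fun h => by
    rw [← hpn, h] at hen; simp at hen
  have hlt : v (aeval t p) < 1 := by
    rw [eval_eq_sum_range] at ht
    rw [hp, ← sub_zero (∑ i ∈ Finset.range (q.natDegree + 1), e i * t ^ i), ← ht,
      ← Finset.sum_sub_distrib]
    refine v.map_sum_lt one_ne_zero fun i _ => ?_
    rw [← sub_mul, map_mul, map_pow, v.map_sub_swap]
    exact lt_of_le_of_lt (mul_le_of_le_one_right' (pow_le_one' htv i)) (hv i)
  have hlc : v (algebraMap k Om p.leadingCoeff) = 1 :=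
    v_eq_one_of_isAlgebraic hvk (isAlgebraic_algebraMap _) (by simpa using hp0)
  rw [(IsAlgClosed.splits p).eq_prod_roots, map_mul, map_mul, aeval_C, hlc, one_mul,
    map_multiset_prod, map_multiset_prod, Multiset.map_map, Multiset.map_map] at hlt
  by_contra hcon
  push Not at hcon
  refine absurd hlt (not_lt.mpr (Multiset.one_le_prod_of_one_le fun x hx => ?_))
  obtain ⟨r, -, rfl⟩ := Multiset.mem_map.mp hx
  simp only [Function.comp, map_sub, aeval_X, aeval_C]
  exact hcon r r.2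

theorem Rigid_der {ι : Type*} [CommRing R] [Algebra R Om] (v : Valuation Om G) (k : Subfield Om)
    (s : ι → Om) (D : Derivation R Om Om) (hk : ∀ a ∈ k, D a ∈ k) (hD : ∀ i, D (s i) = 0)
    (hvk : ∀ a ∈ k, v a ≤ 1) (hvs : ∀ i, ∃ n : ℕ, v (s i - n) < 1) (q : Om[X])
    (hq : ∀ i, q.coeff i ∈ Algebra.adjoin k (Set.range s)) (t : Om) (ht : q.eval t = 0)
    (h1 : v (q.derivative.eval t) = 1) (e : Om) (he : e ∈ k) (hte : v (t - e) < 1) :
    v (D t - D e) < 1 := by
  have nice := Rigid_nice v k s D hk hD hvk hvs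
  have hA : ∀ a ∈ Algebra.adjoin k (Set.range s), v a ≤ 1 ∧ v (D a) ≤ 1 := fun a ha => by
    obtain ⟨f, hf, h2, h3⟩ := nice a ha
    exact ⟨Rigid_le v (hvk f hf) h2, Rigid_le v (hvk _ (hk f hf)) h3⟩
  have hve := hvk e he
  have hvt := Rigid_le v hve hte
  have heA : q.eval e ∈ Algebra.adjoin k (Set.range s) := by
    rw [eval_eq_sum_range]
    exact sum_mem fun i _ => mul_mem (hq i)
      (pow_mem ((Algebra.adjoin k (Set.range s)).algebraMap_mem ⟨e, he⟩) i)
  obtain ⟨z, hz, h2, h3⟩ := nice _ heA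
  have h4 : v (q.eval e) < 1 := by
    have := Rigid_sum v hvt hve hte q.coeff (fun i => (hA _ (hq i)).1) (q.natDegree + 1)
    rwa [← eval_eq_sum_range, ← eval_eq_sum_range, ht, zero_sub, Valuation.map_neg] at this
  have hz0 : z = 0 := by
    by_contra h0
    have h5 : v z = 1 := v_eq_one_of_isAlgebraic hvk (isAlgebraic_algebraMap (⟨z, hz⟩ : k)) h0
    have : z = q.eval e - (q.eval e - z) := by ring
    rw [this] at h5
    exact (v.map_sub_lt h4 h2).ne h5
  rw [hz0, map_zero, sub_zero] at h3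
  have h6 := Rigid_sum v hvt hve hte (fun i => D (q.coeff i)) (fun i => (hA _ (hq i)).2)
    (q.natDegree + 1)
  have h7 := Rigid_sum v hvt hve hte q.derivative.coeff
    (v_deriv_coeff_le v fun i => (hA _ (hq i)).1) (q.derivative.natDegree + 1)
  rw [← eval_eq_sum_range, ← eval_eq_sum_range] at h7
  have e1 := Log_der_eval D q t
  have e2 := Log_der_eval D q e
  rw [ht, map_zero] at e1
  have e3 : q.derivative.eval t * (D t - D e) = -(D (q.eval e)
      + (∑ i ∈ Finset.range (q.natDegree + 1), D (q.coeff i) * t ^ i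
        - ∑ i ∈ Finset.range (q.natDegree + 1), D (q.coeff i) * e ^ i)
      + (q.derivative.eval t - q.derivative.eval e) * D e) := by
    linear_combination e2 - e1
  have e4 := congrArg v e3
  rw [map_mul, h1, one_mul, Valuation.map_neg] at e4
  rw [e4]
  refine v.map_add_lt (v.map_add_lt h3 h6) ?_
  rw [map_mul]
  exact lt_of_le_of_lt (mul_le_of_le_one_right' (hvk _ (hk e he))) h7

theorem Rigid_poly [CharZero Om] (k : Subfield Om) (S : Set Om) (t : Om)
    (ht : IsAlgebraic (Subfield.closure ((k : Set Om) ∪ S)) t) :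
    ∃ q : Om[X], (∀ i, q.coeff i ∈ Algebra.adjoin k S) ∧ q.eval t = 0 ∧
      q.derivative.eval t ≠ 0 := by
  classical
  rw [closure_eq_adjoin] at ht
  have h1 : IsAlgebraic (Algebra.adjoin k S) t :=
    IntermediateField.isAlgebraic_adjoin_iff.mp ht
  have hex : ∃ n, ∃ q : Om[X], q.natDegree = n ∧ q ≠ 0 ∧
      (∀ i, q.coeff i ∈ Algebra.adjoin k S) ∧ q.eval t = 0 := by
    obtain ⟨p, hp0, hp⟩ := h1
    refine ⟨_, p.map (algebraMap _ Om), rfl,
      (Polynomial.map_ne_zero_iff Subtype.val_injective).mpr hp0, fun i => ?_, ?_⟩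
    · rw [coeff_map]; exact (p.coeff i).2
    · rwa [eval_map_algebraMap]
  obtain ⟨q, hn, hq0, hq, hqt⟩ := Nat.find_spec hex
  refine ⟨q, hq, hqt, fun h => ?_⟩
  have hd : q.natDegree ≠ 0 := fun h0 => by
    rw [eq_C_of_natDegree_eq_zero h0] at hqt hq0
    exact hq0 (by rw [eval_C] at hqt; rw [hqt, map_zero])
  refine Nat.find_min hex (m := q.derivative.natDegree) (hn ▸ natDegree_derivative_lt hd)
    ⟨_, rfl, fun h0 => hd (derivative_eq_zero.mp h0), fun i => ?_, h⟩
  rw [coeff_derivative, ← Nat.cast_succ]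
  exact mul_mem (hq _) (natCast_mem _ _)

theorem Rigid_places {ι : Type*} [CharZero Om] (k : Subfield Om) [IsAlgClosed k] (s : ι → Om)
    (hs : AlgebraicIndependent k s) (T : Finset Om)
    (hT : ∀ t ∈ T, IsAlgebraic (Subfield.closure ((k : Set Om) ∪ Set.range s)) t) :
    ∃ O : ValuationSubring Om, (∀ a ∈ k, O.valuation a ≤ 1) ∧
      (∀ i, ∃ n : ℕ, O.valuation (s i - n) < 1) ∧ ∀ t ∈ T, ∃ e ∈ k, O.valuation (t - e) < 1 := by
  choose! q hq h0 h1 using fun t ht => Rigid_poly k (Set.range s) t (hT t ht)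
  have hl : ∀ t ∈ T, (q t).leadingCoeff ≠ 0 := fun t ht h => by
    apply h1 t ht
    rw [leadingCoeff_eq_zero.mp h]
    simp
  obtain ⟨O, hk, hd, hvs⟩ := Rigid_place k s hs (∏ t ∈ T, (q t).leadingCoeff)
    (prod_mem fun t ht => hq t ht _) (Finset.prod_ne_zero_iff.mpr hl)
  have nice : ∀ a ∈ Algebra.adjoin k (Set.range s), ∃ e ∈ k, O.valuation (a - e) < 1 :=
    fun a ha => by
      obtain ⟨e, he, h, -⟩ := Rigid_nice (R := ℤ) O.valuation k s 0 (fun _ _ => k.zero_mem)
        (fun _ => rfl) hk hvs a ha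
      exact ⟨e, he, h⟩
  have hle : ∀ t ∈ T, O.valuation (q t).leadingCoeff ≤ 1 := fun t ht => by
    obtain ⟨e, he, h⟩ := nice _ (hq t ht (q t).natDegree)
    exact Rigid_le _ (hk e he) h
  refine ⟨O, hk, hvs, fun t ht => Rigid_good _ k hk (q t) (fun i => nice _ (hq t ht i)) ?_ t
    (h0 t ht)⟩
  rw [map_prod] at hd
  exact (Finset.prod_eq_one_iff_of_le_one' hle).mp hd t ht

/-- A finite dimensional space of algebraic functions of `s` over the algebraically closed field
`k`, stable under derivations that preserve `k` and kill `s`, is spanned by constants. -/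
theorem RIGID {ι : Type*} [CharZero Om] [CommRing R] [Algebra R Om] (k : Subfield Om)
    [IsAlgClosed k] (s : ι → Om) (hs : AlgebraicIndependent k s)
    (Ds : Set (Derivation R Om Om)) (hk : ∀ D ∈ Ds, ∀ a ∈ k, D a ∈ k)
    (hDs : ∀ D ∈ Ds, ∀ i, D (s i) = 0) (V : Submodule k Om) [FiniteDimensional k V]
    (halg : ∀ f ∈ V, IsAlgebraic (Subfield.closure ((k : Set Om) ∪ Set.range s)) f)
    (hV : ∀ D ∈ Ds, ∀ f ∈ V, D f ∈ V) :
    V ≤ Submodule.span k {f | f ∈ V ∧ ∀ D ∈ Ds, D f = 0} := by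
  classical
  refine LIN k Ds V hV
    {l | ∀ D (hD : D ∈ Ds) (f : V), (l ⟨D f, hV D hD f f.2⟩ : Om) = D (l f)} (fun z hz => ?_)
    fun l hl => hl
  let B := Module.finBasis k V
  choose q hq h0 h1 using fun i => Rigid_poly k (Set.range s) (B i) (halg _ (B i).2)
  have hF : ∀ a ∈ Algebra.adjoin k (Set.range s),
      a ∈ Subfield.closure ((k : Set Om) ∪ Set.range s) := fun a ha => by
    rw [closure_eq_adjoin]
    exact IntermediateField.algebra_adjoin_le_adjoin k _ ha
  have hqA : ∀ i j, (q i).derivative.coeff j ∈ Algebra.adjoin k (Set.range s) := fun i j => by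
    rw [coeff_derivative, ← Nat.cast_succ]
    exact mul_mem (hq i _) (natCast_mem _ _)
  obtain ⟨O, hvk, hvs, hT⟩ := Rigid_places k s hs
    (insert (z : Om)⁻¹ (Finset.univ.image (fun i => (B i : Om)) ∪
      Finset.univ.image fun i => ((q i).derivative.eval (B i : Om))⁻¹)) (by
      intro t ht
      simp only [Finset.mem_insert, Finset.mem_union, Finset.mem_image, Finset.mem_univ,
        true_and] at ht
      rcases ht with rfl | ⟨i, rfl⟩ | ⟨i, rfl⟩
      · exact (halg _ z.2).inv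
      · exact halg _ (B i).2
      · exact (Res0_isAlg _ _ (halg _ (B i).2) _ fun j => hF _ (hqA i j)).inv)
  set v := O.valuation with hv
  have hinv : ∀ u : Om, u ≠ 0 → (∃ e ∈ k, v (u⁻¹ - e) < 1) → 1 ≤ v u := fun u hu ⟨e, he, h⟩ => by
    have := Rigid_le v (hvk e he) h
    rwa [map_inv₀, inv_le_one₀ (zero_lt_iff.mpr fun h => hu (v.zero_iff.mp h))] at this
  choose e he hBe using fun i => hT (B i) (by simp)
  let l : Module.Dual k V := B.constr k fun i => ⟨e i, he i⟩
  have hl : ∀ f : V, (l f : Om) = ∑ i, (B.repr f i : Om) * e i := fun f => by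
    simp only [l, Module.Basis.constr_apply_fintype, Module.Basis.equivFun_apply, smul_eq_mul]
    push_cast
    rfl
  have hf : ∀ f : V, (f : Om) = ∑ i, (B.repr f i : Om) * B i := fun f => by
    conv_lhs => rw [← B.sum_repr f]
    push_cast
    rfl
  have m1 : ∀ {a b : Om}, a ∈ k → v b < 1 → v (a * b) < 1 := fun ha hb => by
    rw [map_mul]; exact lt_of_le_of_lt (mul_le_of_le_one_left' (hvk _ ha)) hb
  have hlf : ∀ f : V, v (f - l f) < 1 := fun f => by
    rw [hl, hf f, ← Finset.sum_sub_distrib]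
    refine v.map_sum_lt one_ne_zero fun i _ => ?_
    rw [← mul_sub]
    exact m1 (B.repr f i).2 (hBe i)
  have hone : ∀ i, v ((q i).derivative.eval (B i : Om)) = 1 := fun i => by
    refine le_antisymm (v_eval_le v (Rigid_le v (hvk _ (he i)) (hBe i)) fun j => ?_)
      (hinv _ (h1 i) (hT _ (by simp)))
    obtain ⟨c, hc, h, -⟩ := Rigid_nice (R := ℤ) v k s 0 (fun _ _ => k.zero_mem)
      (fun _ => rfl) hvk hvs _ (hqA i j)
    exact Rigid_le v (hvk c hc) h
  refine ⟨l, fun D hD f => ?_, fun h => ?_⟩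
  · have h2 : v (D f - D (l f)) < 1 := by
      rw [hl, hf f, map_sum, map_sum, ← Finset.sum_sub_distrib]
      refine v.map_sum_lt one_ne_zero fun i _ => ?_
      have : D ((B.repr f i : Om) * B i) - D ((B.repr f i : Om) * e i)
          = (B.repr f i : Om) * (D (B i) - D (e i)) + D (B.repr f i : Om) * (B i - e i) := by
        simp only [Derivation.leibniz, smul_eq_mul]; ring
      rw [this]
      exact v.map_add_lt (m1 (B.repr f i).2 (Rigid_der v k s D (hk D hD) (hDs D hD) hvk hvs (q i)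
        (hq i) _ (h0 i) (hone i) _ (he i) (hBe i))) (m1 (hk D hD _ (B.repr f i).2) (hBe i))
    have h3 := hlf ⟨D f, hV D hD f f.2⟩
    have hm : (l ⟨D f, hV D hD f f.2⟩ : Om) - D (l f) ∈ k :=
      sub_mem (l _).2 (hk D hD _ (l f).2)
    by_contra hne
    have h4 := v_eq_one_of_isAlgebraic hvk (isAlgebraic_algebraMap (⟨_, hm⟩ : k))
      (sub_ne_zero.mpr hne)
    have h5 : (l ⟨D f, hV D hD f f.2⟩ : Om) - D (l f)
        = (D f - D (l f)) - (D f - l ⟨D f, hV D hD f f.2⟩) := by ring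
    change v ((l ⟨D f, hV D hD f f.2⟩ : Om) - D (l f)) = 1 at h4
    rw [h5] at h4
    exact (v.map_sub_lt h2 h3).ne h4
  · have h2 := hlf z
    rw [h] at h2
    have h3 := hinv z (fun h0 => hz (Subtype.ext h0)) (hT _ (by simp))
    simp only [ZeroMemClass.coe_zero, sub_zero] at h2
    exact absurd h2 (not_lt.mpr h3)

end Pool.Agent.Lib.MP_5c318e_ag
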