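import Pool.Agent.Lib.MP_5c318e_ag.Pts
import Pool.Agent.Lib.MP_5c318e_ag.Sym

/-! Frames and regular forms. -/

namespace Pool.Agent.Lib.MP_5c318e_ag

open scoped Classical NNReal
open Polynomial

variable {Om : Type} [Field Om] [Algebra ℂ Om]

section Aut

omit [Algebra ℂ Om]

theorem map_acl (g : Om →+* Om) {F F' : Subfield Om} (hg : ∀ c ∈ F, g c ∈ F') {y : Om}
    (hy : y ∈ acl F) : g y ∈ acl F' := by
  let ph : F →+* F' := (g.comp F.subtype).codRestrict _ fun c => hg c c.2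
  exact mem_acl.2 ((mem_acl.1 hy).ringHom_of_comp_eq ph g ph.injective (RingHom.ext fun _ => rfl))

theorem map_adj (g : Om →+* Om) {F F' : Subfield Om} {S : Set Om} (hg : ∀ c ∈ F, g c ∈ F')
    (hS : ∀ c ∈ S, g c ∈ F') {y : Om} (hy : y ∈ adj F S) : g y ∈ F' :=
  (adj_le (F' := F'.comap g) hg hS) hy

theorem map_sup' (g : Om →+* Om) {F1 F2 F' : Subfield Om} (h1 : ∀ c ∈ F1, g c ∈ F')
    (h2 : ∀ c ∈ F2, g c ∈ F') {y : Om} (hy : y ∈ F1 ⊔ F2) : g y ∈ F' :=
  (sup_le (c := F'.comap g) h1 h2) hy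

theorem aut_acl {F0 F : Subfield Om} (g : Om ≃ₐ[F0] Om) (hg : ∀ c ∈ F, g c ∈ F) {y : Om}
    (hy : y ∈ acl F) : g y ∈ acl F := map_acl (g : Om →+* Om) hg hy

theorem aut_adj {F0 F F' : Subfield Om} {S : Set Om} (g : Om ≃ₐ[F0] Om)
    (hg : ∀ c ∈ F, g c ∈ F') (hS : ∀ c ∈ S, g c ∈ F') {y : Om} (hy : y ∈ adj F S) : g y ∈ F' :=
  map_adj (g : Om →+* Om) hg hS hy

theorem aut_sup {F0 F1 F2 F' : Subfield Om} (g : Om ≃ₐ[F0] Om) (h1 : ∀ c ∈ F1, g c ∈ F')
    (h2 : ∀ c ∈ F2, g c ∈ F') {y : Om} (hy : y ∈ F1 ⊔ F2) : g y ∈ F' :=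
  map_sup' (g : Om →+* Om) h1 h2 hy

theorem aut_mem {F0 F : Subfield Om} (g : Om ≃ₐ[F0] Om) (hle : F ≤ F0) :
    ∀ c ∈ F, g c ∈ F := fun c hc => by rw [aut_fix F0 g (hle hc)]; exact hc

/-- transport of residual independence along a ring homomorphism -/
theorem RInd.of_map {k0 : Subfield Om} {v : RV Om} (g : Om →+* Om) (hk : ∀ c ∈ k0, g c ∈ k0)
    {s : Type} {y : s → Om} (h : RInd v k0 fun j => g (y j)) : RInd (v.comap g) k0 y := by
  intro p hp
  let ph : k0 →+* k0 := (g.comp k0.subtype).codRestrict _ fun c => hk c c.2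
  have h1 := h (MvPolynomial.map ph p) fun e =>
    hp (MvPolynomial.map_injective ph ph.injective (by rw [e, map_zero]))
  have h2 : MvPolynomial.aeval (fun j => g (y j)) (MvPolynomial.map ph p) =
      g (MvPolynomial.aeval y p) := by
    rw [MvPolynomial.aeval_def, MvPolynomial.aeval_def, MvPolynomial.eval₂_map,
      MvPolynomial.eval₂_comp_left]
    rfl
  rw [h2] at h1
  exact h1

theorem RInd.aut {F0 k0 : Subfield Om} {v : RV Om} (g : Om ≃ₐ[F0] Om) (hk : ∀ c ∈ k0, g c ∈ k0)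
    {s : Type} {y : s → Om} (h : RInd v k0 y) : RInd (vaut v g) k0 fun j => g.symm (y j) :=
  RInd.of_map (g : Om →+* Om) hk (by simpa using h)

theorem DivPt.aut {F0 k0 F : Subfield Om} {ι : Type} {v : RV Om} {f : ι → Om} {i0 : ι}
    (g : Om ≃ₐ[F0] Om) (hk : ∀ c ∈ k0, g c ∈ k0) (hF : ∀ c ∈ F, g c ∈ F)
    (hF' : ∀ c ∈ F, g.symm c ∈ F) (h : DivPt k0 F v f i0) :
    DivPt k0 F (vaut v g) (fun j => g.symm (f j)) i0 := by
  refine ⟨fun i => hF' _ (h.1 i), by simpa using h.2.1, by simpa [vaut_apply] using h.2.2.1,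
    h.2.2.2.1.aut g hk, fun y hy h0 => ?_⟩
  simpa [vaut_apply] using h.2.2.2.2 (g y) (hF y hy) (by simpa using h0)

end Aut

omit [Algebra ℂ Om] in
theorem der_eval {R : Type*} [CommRing R] [Algebra R Om] (D : Derivation R Om Om) (q : Om[X])
    (hq : ∀ i, D (q.coeff i) = 0) (x : Om) : D (q.eval x) = q.derivative.eval x * D x := by
  rw [derivative_eval, eval_eq_sum, Polynomial.sum_def, Polynomial.sum_def, map_sum,
    Finset.sum_mul]
  refine Finset.sum_congr rfl fun i _ => ?_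
  rw [D.leibniz, hq, D.leibniz_pow]
  simp only [smul_eq_mul, nsmul_eq_mul]
  ring

/-- a derivation over a subfield containing the complex numbers, as a complex derivation -/
noncomputable def derC {k0 : Subfield Om} (h0 : C0 Om ≤ k0) (d : Derivation k0 Om Om) :
    Derivation ℂ Om Om :=
  Derivation.mk'
    { toFun := d
      map_add' := fun a b => map_add d a b
      map_smul' := fun c x => by
        have := d.map_smul (⟨algebraMap ℂ Om c, h0 (mem_C0.2 ⟨c, rfl⟩)⟩ : k0) x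
        simp only [Algebra.smul_def, RingHom.id_apply] at this ⊢
        exact this }
    fun a b => d.leibniz a b

theorem derC_apply {k0 : Subfield Om} (h0 : C0 Om ≤ k0) (d : Derivation k0 Om Om) (y : Om) :
    derC h0 d y = d y := rfl

section Frm

variable {k0 F : Subfield Om} {ι : Type} [Fintype ι] [DecidableEq ι]
  {D : ι → Derivation ℂ Om Om} {b : ι → Om}

omit [Fintype ι] in
theorem exists_frame (h0 : C0 Om ≤ k0) (hle : k0 ≤ F) (hb : ∀ i, b i ∈ F)
    (hi : AlgebraicIndependent k0 b) (ha : F ≤ acl (adj k0 (Set.range b))) :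
    ∃ D : ι → Derivation ℂ Om Om, Frame k0 F D b := by
  have : CharZero Om := charZero_of_algebra
  obtain ⟨d, hd⟩ := der_dual_exists hi
  exact ⟨fun i => derC h0 (d i), h0, hle, hb, hi, ha,
    fun i c hc => (d i).map_algebraMap ⟨c, hc⟩, hd⟩

theorem Frame.jac_one (h : Frame k0 F D b) : Jac D b = 1 := h.jac

omit [Fintype ι] in
theorem Frame.der_mem (h : Frame k0 F D b) {F' : Subfield Om} (h1 : adj k0 (Set.range b) ≤ F')
    (h2 : F' ≤ acl F) (i : ι) {y : Om} (hy : y ∈ F') : D i y ∈ F' := by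
  have : CharZero Om := charZero_of_algebra
  refine der_mem_alg (D i) h1 (fun c hc => der_mem_closure (D i) F'
    (fun y hy => h1 (Subfield.subset_closure hy)) ?_ hc) hy (mem_acl.1 (acl_le h.alg (h2 hy)))
  rintro y (hy | ⟨a, rfl⟩)
  · rw [h.kill i y hy]; exact F'.zero_mem
  · rw [h.dual]
    split_ifs
    · exact F'.one_mem
    · exact F'.zero_mem

theorem jac_mem_of {F' : Subfield Om} {f : ι → Om} (h : ∀ a c, D c (f a) ∈ F') :
    Jac D f ∈ F' := by
  rw [Jac, Matrix.det_apply']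
  exact sum_mem fun g _ => mul_mem (intCast_mem _ _) (prod_mem fun i _ => h _ _)

theorem Frame.jac_mem (h : Frame k0 F D b) {F' : Subfield Om} (h1 : adj k0 (Set.range b) ≤ F')
    (h2 : F' ≤ acl F) {f : ι → Om} (hf : ∀ i, f i ∈ F') : Jac D f ∈ F' :=
  jac_mem_of fun a c => h.der_mem h1 h2 c (hf a)

omit [Fintype ι] in
theorem Frame.adj_le (h : Frame k0 F D b) : adj k0 (Set.range b) ≤ F :=
  Pool.Agent.Lib.MP_5c318e_ag.adj_le h.le (by rintro _ ⟨i, rfl⟩; exact h.mem i)

theorem Frame.const (h : Frame k0 F D b) {y : Om} (hy : y ∈ acl F) (h0 : ∀ i, D i y = 0) :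
    y ∈ acl k0 :=
  haveI : CharZero Om := charZero_of_algebra
  mem_acl.2 (alg_of_der_zero D h.kill h.jac_ne (mem_acl.1 (acl_le h.alg hy)) h0)

theorem Frame.of_indep (h : Frame k0 F D b) {f : ι → Om} (hf : ∀ i, f i ∈ acl F)
    (hi : AlgebraicIndependent k0 f) : Jac D f ≠ 0 ∧ acl F ≤ acl (adj k0 (Set.range f)) :=
  ⟨h.jac_ne_zero hf hi, h.alg_of_jac hf (h.jac_ne_zero hf hi)⟩

theorem Frame.of_jac (h : Frame k0 F D b) {f : ι → Om} (hf : ∀ i, f i ∈ acl F)
    (hJ : Jac D f ≠ 0) : AlgebraicIndependent k0 f ∧ acl F ≤ acl (adj k0 (Set.range f)) :=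
  haveI : CharZero Om := charZero_of_algebra
  ⟨indep_of_jac D h.kill hJ, h.alg_of_jac hf hJ⟩

omit [Algebra ℂ Om] [Fintype ι] [DecidableEq ι] in
theorem adapted_indep {v : RV Om} {f : ι → Om} {i0 : ι} (h0 : f i0 ≠ 0) (ht : v (f i0) < 1)
    (hy : RInd v k0 fun j : {j // j ≠ i0} => f j) : AlgebraicIndependent k0 f :=
  indep_of_adapted h0 ht hy

/-- the Jacobian as a derivation in one coordinate -/
noncomputable def jacDer (D : ι → Derivation ℂ Om Om) (f : ι → Om) (j : ι) :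
    Derivation ℤ Om Om :=
  Derivation.mk' (AddMonoidHom.toIntLinearMap
    { toFun := fun u => ((Matrix.of fun a c => D c (f a)).updateRow j fun c => D c u).det
      map_zero' := Matrix.det_eq_zero_of_row_eq_zero j fun c => by simp
      map_add' := fun u u' => by
        rw [← Matrix.det_updateRow_add]
        congr 2
        funext c
        exact map_add (D c) u u' })
    fun u u' => by
      simp only [AddMonoidHom.coe_toIntLinearMap, AddMonoidHom.coe_mk, ZeroHom.coe_mk,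
        smul_eq_mul]
      rw [← Matrix.det_updateRow_smul, ← Matrix.det_updateRow_smul, ← Matrix.det_updateRow_add]
      congr 2
      funext c
      exact (D c).leibniz u u'

theorem jacDer_apply (f : ι → Om) (j : ι) (u : Om) :
    jacDer D f j u = Jac D (Function.update f j u) := by
  change ((Matrix.of fun a c => D c (f a)).updateRow j fun c => D c u).det = _
  unfold Jac
  congr 1
  ext a c
  by_cases e : a = j
  · subst e; simp
  · simp [Matrix.updateRow_ne e, Function.update_of_ne e]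

theorem jacDer_kill (hk : ∀ i, ∀ c ∈ k0, D i c = 0) (f : ι → Om) (j : ι) {u : Om}
    (hu : u ∈ adj k0 (Set.range fun l : {l // l ≠ j} => f l)) : jacDer D f j u = 0 := by
  refine der_zero_closure _ ?_ hu
  rintro y (hy | ⟨l, rfl⟩)
  · exact Matrix.det_eq_zero_of_row_eq_zero j fun c => by simp [hk c y hy]
  · exact Matrix.det_updateRow_eq_zero (M := Matrix.of fun a c => D c (f a)) l.2

/-- replacing one coordinate by a polynomial in it -/
theorem jac_update (hk : ∀ i, ∀ c ∈ k0, D i c = 0) (f : ι → Om) (j : ι) (q : Om[X])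
    (hq : ∀ i, q.coeff i ∈ adj k0 (Set.range fun l : {l // l ≠ j} => f l)) :
    Jac D (Function.update f j (q.eval (f j))) = q.derivative.eval (f j) * Jac D f := by
  rw [← jacDer_apply, der_eval _ q (fun i => jacDer_kill hk f j (hq i)), jacDer_apply,
    Function.update_eq_self]

/-- the additive groups of regular forms -/
def RegG (k0 F : Subfield Om) (D : ι → Derivation ℂ Om Om) (m : ℕ) : AddSubgroup Om where
  carrier := {φ | Reg k0 F D m φ}
  zero_mem' := fun v f i0 _ => by simp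
  add_mem' := fun ha hb v f i0 h => v.map_add_le (ha v f i0 h) (hb v f i0 h)
  neg_mem' := fun ha v f i0 h => by rw [Valuation.map_neg]; exact ha v f i0 h

theorem mem_RegG {m : ℕ} {φ : Om} : φ ∈ RegG k0 F D m ↔ Reg k0 F D m φ := Iff.rfl

theorem Reg.one : Reg k0 F D 0 1 := fun v f i0 _ => by simp

theorem Reg.mul {m m' : ℕ} {φ ψ : Om} (h : Reg k0 F D m φ) (h' : Reg k0 F D m' ψ) :
    Reg k0 F D (m + m') (φ * ψ) := fun v f i0 hd => by
  rw [map_mul, pow_add]
  exact mul_le_mul' (h v f i0 hd) (h' v f i0 hd)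

theorem Reg.pow {m : ℕ} {φ : Om} (h : Reg k0 F D m φ) (j : ℕ) :
    Reg k0 F D (j * m) (φ ^ j) := fun v f i0 hd => by
  rw [map_pow, mul_comm, pow_mul]
  exact pow_le_pow_left' (h v f i0 hd) j

theorem Reg.const {c : Om} (hc : c ∈ k0) : Reg k0 F D 0 c := fun v f i0 hd => by
  rw [pow_zero]; exact hd.triv.le hc

theorem Reg.aut {F0 : Subfield Om} (hk : ∀ g : Om ≃ₐ[F0] Om, ∀ c ∈ k0, g c ∈ k0)
    (hF : ∀ g : Om ≃ₐ[F0] Om, ∀ c ∈ F, g c ∈ F)
    (hD : ∀ g : Om ≃ₐ[F0] Om, ∀ i y, D i (g y) = g (D i y)) {m : ℕ} {φ : Om}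
    (h : Reg k0 F D m φ) (g : Om ≃ₐ[F0] Om) : Reg k0 F D m (g φ) := fun v f i0 hd => by
  have h1 := h _ _ _ (hd.aut g (hk g) (hF g) (hF g.symm))
  have h2 := jac_map D g.toRingEquiv (fun j => g.symm (f j)) fun j a => hD g j _
  have h3 : g (Jac D fun j => g.symm (f j)) = Jac D f := by
    refine h2.symm.trans ?_
    congr 1
    funext a
    exact g.apply_symm_apply _
  rw [vaut_apply, vaut_apply, h3] at h1
  exact h1

end Frm

end Pool.Agent.Lib.MP_5c318e_ag
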