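import Pool.Agent.Lib.MP_5c318e_ag.Frm
import Pool.Agent.Lib.MP_5c318e_ag.Res0
import Pool.Agent.Lib.MP_5c318e_ag.Trd
import Pool.Agent.Lib.MP_5c318e_ag.Desc7

/-! Gauss independence, and the residue count for residually algebraic families. -/

namespace Pool.Agent.Lib.MP_5c318e_ag

open scoped Classical NNReal
open Polynomial

variable {Om : Type} [Field Om]

section Gsl

variable {v : RV Om} {F : Subfield Om} {z : Om}

theorem Gs.mono {F' : Subfield Om} (h : Gs v F z) (hle : F' ≤ F) : Gs v F' z :=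
  ⟨h.1, fun p hp => h.2 p fun i => hle (hp i)⟩

theorem Gs.val_eq_one (h : Gs v F z) : v z = 1 := by
  refine le_antisymm h.1 ?_
  have := h.2 X (fun i => by
    rw [coeff_X]
    split_ifs
    · exact F.one_mem
    · exact F.zero_mem) 1
  simpa using this

theorem not_gs_minp (hv : ∀ n : ℕ, n ≠ 0 → v n = 1) (hz : v z ≤ 1) (h : ¬ Gs v F z) :
    ∃ q : Om[X], q.Monic ∧ (∀ i, q.coeff i ∈ F) ∧ (∀ i, v (q.coeff i) ≤ 1) ∧ v (q.eval z) < 1 ∧
      v (q.derivative.eval z) = 1 := by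
  simp only [Gs, not_and, not_forall, not_le] at h
  obtain ⟨p, hp, j, hj⟩ := h hz
  exact Res0_minp v hv F z hz p hp j hj

theorem RAlg_of_lt (hz : v z ≤ 1) {p : Om[X]} (hp : ∀ i, p.coeff i ∈ F) {j : ℕ}
    (hj : v (p.eval z) < v (p.coeff j)) : RAlg v F z := by
  obtain ⟨q, hm, h1, h2, h3⟩ := Res0_monic v F z hz p hp j hj
  exact ⟨q, mem_PO.2 fun i => ⟨h1 i, h2 i⟩, ⟨q.natDegree, by rw [hm.coeff_natDegree, map_one]⟩, h3⟩

theorem gs_iff_not_RAlg (hz : v z ≤ 1) : Gs v F z ↔ ¬ RAlg v F z := by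
  constructor
  · rintro h ⟨p, hp, ⟨i, hi⟩, hlt⟩
    have := h.2 p (fun i => (mem_PO.1 hp i).1) i
    rw [hi] at this
    exact hlt.not_ge this
  · exact fun h => ⟨hz, fun p hp i => not_lt.1 fun hlt => h (RAlg_of_lt hz hp hlt)⟩

theorem RAlg_of_acl (hz : v z ≤ 1) (h : z ∈ acl F) : RAlg v F z := by
  obtain ⟨p, hp0, hp⟩ := mem_acl.1 h
  have hne : p.map (algebraMap F Om) ≠ 0 := (Polynomial.map_ne_zero_iff F.subtype.injective).2 hp0
  refine RAlg_of_lt hz (p := p.map (algebraMap F Om))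
    (fun i => by rw [coeff_map]; exact (p.coeff i).2)
    (j := (p.map (algebraMap F Om)).natDegree) ?_
  rw [eval_map_algebraMap, hp, map_zero]
  exact pos_iff_ne_zero.2 ((Valuation.ne_zero_iff v).2 (leadingCoeff_ne_zero.2 hne))

theorem Gsl_poly {y : Om} (hy : y ∈ Subring.closure ((F : Set Om) ∪ {z})) :
    ∃ p : Om[X], (∀ i, p.coeff i ∈ F) ∧ y = p.eval z := by
  have key : ∃ p : F[X], y = aeval z p := by
    induction hy using Subring.closure_induction with
    | mem x hx =>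
      rcases hx with hx | rfl
      · exact ⟨C ⟨x, hx⟩, by rw [aeval_C]; rfl⟩
      · exact ⟨X, by rw [aeval_X]⟩
    | zero => exact ⟨0, by simp⟩
    | one => exact ⟨1, by simp⟩
    | add x y _ _ hx hy =>
      obtain ⟨p, rfl⟩ := hx
      obtain ⟨q, rfl⟩ := hy
      exact ⟨p + q, by simp⟩
    | neg x _ hx =>
      obtain ⟨p, rfl⟩ := hx
      exact ⟨-p, by simp⟩
    | mul x y _ _ hx hy =>
      obtain ⟨p, rfl⟩ := hx
      obtain ⟨q, rfl⟩ := hy
      exact ⟨p * q, by simp⟩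
  obtain ⟨p, rfl⟩ := key
  exact ⟨p.map (algebraMap F Om), fun i => by rw [coeff_map]; exact (p.coeff i).2,
    (eval_map_algebraMap p z).symm⟩

theorem Gsl_frac {y : Om} (hy : y ∈ adj F {z}) :
    ∃ p q : Om[X], (∀ i, p.coeff i ∈ F) ∧ (∀ i, q.coeff i ∈ F) ∧ q.eval z ≠ 0 ∧
      y = p.eval z / q.eval z := by
  obtain ⟨u, hu, u', hu', h0, rfl⟩ := exists_quot_ring hy
  obtain ⟨p, hp, rfl⟩ := Gsl_poly hu
  obtain ⟨q, hq, rfl⟩ := Gsl_poly hu'
  exact ⟨p, q, hp, hq, h0, rfl⟩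

theorem Gs.eval_val (h : Gs v F z) {p : Om[X]} (hp : ∀ i, p.coeff i ∈ F) :
    ∃ j, v (p.eval z) = v (p.coeff j) := by
  obtain ⟨j, hj⟩ := exists_max_coeff v p
  exact ⟨j, le_antisymm (v_eval_le v h.1 hj) (h.2 p hp j)⟩

/-- the value group does not grow in a Gauss extension -/
theorem Gs.val_adj (h : Gs v F z) : ∀ y ∈ adj F {z}, ∃ f ∈ F, v y = v f := by
  intro y hy
  obtain ⟨p, q, hp, hq, -, rfl⟩ := Gsl_frac hy
  obtain ⟨i, hi⟩ := h.eval_val hp
  obtain ⟨j, hj⟩ := h.eval_val hq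
  exact ⟨_, F.div_mem (hp i) (hq j), by rw [map_div₀, map_div₀, hi, hj]⟩

theorem Gs.agree {v' : RV Om} (h : Gs v F z) (h' : Gs v' F z) (he : ∀ y ∈ F, v y = v' y) :
    ∀ y ∈ adj F {z}, v y = v' y := by
  have key : ∀ p : Om[X], (∀ i, p.coeff i ∈ F) → v (p.eval z) = v' (p.eval z) := fun p hp =>
    le_antisymm (v_eval_le v h.1 fun i => (he _ (hp i)).le.trans (h'.2 p hp i))
      (v_eval_le v' h'.1 fun i => (he _ (hp i)).ge.trans (h.2 p hp i))
  intro y hy
  obtain ⟨p, q, hp, hq, -, rfl⟩ := Gsl_frac hy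
  rw [map_div₀, map_div₀, key p hp, key q hq]

theorem RInd.option_of_sum {k0 : Subfield Om} {ι : Type} {y : ι → Om}
    (h : RInd v k0 (Sum.elim y fun _ : Unit => z)) :
    RInd v k0 fun o : Option ι => o.elim z y := by
  have e : (fun o : Option ι => o.elim z y) = (Sum.elim y fun _ : Unit => z) ∘
      fun o : Option ι => o.elim (Sum.inr ()) Sum.inl := by
    funext o; rcases o with _ | o <;> rfl
  rw [e]
  refine h.comp _ ?_
  rintro (_ | a) (_ | b) hab
  · rfl
  · cases hab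
  · cases hab
  · cases hab; rfl

theorem RInd.sum_of_option {k0 : Subfield Om} {ι : Type} {y : ι → Om}
    (h : RInd v k0 fun o : Option ι => o.elim z y) :
    RInd v k0 (Sum.elim y fun _ : Unit => z) := by
  have e : (Sum.elim y fun _ : Unit => z) = (fun o : Option ι => o.elim z y) ∘
      Sum.elim some fun _ => none := by
    funext o; rcases o with o | o <;> rfl
  rw [e]
  refine h.comp _ ?_
  rintro (a | a) (b | b) hab
  · cases hab; rfl
  · cases hab
  · cases hab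
  · rfl

theorem Gs.rind {k0 : Subfield Om} {ι : Type} {y : ι → Om} (h : Gs v F z) (hk : k0 ≤ F)
    (hyF : ∀ i, y i ∈ F) (hy : RInd v k0 y) :
    RInd v k0 fun o : Option ι => o.elim z y :=
  (hy.snoc h.1 fun hr => (gs_iff_not_RAlg h.1).1 h
    (hr.mono (adj_le hk (by rintro _ ⟨i, rfl⟩; exact hyF i)))).option_of_sum

theorem RAlg.res (hz : v z ≤ 1) (h : RAlg v F z) : IsAlgebraic (resField v F) (resF v z) := by
  obtain ⟨p, hp, ⟨j, hj⟩, hlt⟩ := h
  have hp' := mem_PO.1 hp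
  obtain ⟨p0, rfl⟩ : p ∈ lifts v.valuationSubring.subtype :=
    (lifts_iff_coeff_lifts p).2 fun i => ⟨⟨_, (hp' i).2⟩, rfl⟩
  simp only [coe_mapRingHom, coeff_map] at hp' hj hlt
  have he : (p0.map v.valuationSubring.subtype).eval z =
      (p0.eval ⟨z, hz⟩ : v.valuationSubring) :=
    eval_map_apply (p := p0) v.valuationSubring.subtype ⟨z, hz⟩
  refine isAlgebraic_of_root (q := p0.map (IsLocalRing.residue v.valuationSubring))
    (fun i => ?_) (fun e => ?_) ?_
  · rw [coeff_map]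
    exact ⟨_, (hp' i).1, (hp' i).2, rfl⟩
  · have h1 := congrArg (fun q => coeff q j) e
    simp only [coeff_map, coeff_zero] at h1
    rw [← resF_coe, resF_eq_zero (p0.coeff j).2] at h1
    exact h1.ne hj
  · rw [resF_mk hz, eval_map_apply, ← resF_coe, resF_eq_zero (p0.eval ⟨z, hz⟩).2, ← he]
    exact hlt

theorem Gsl_count {C W ι : Type} [Field C] [Field W] [Algebra C W] [Fintype ι] (S : Subfield W)
    {y : ι → W} (hy : AlgebraicIndependent C y) (ha : ∀ i, IsAlgebraic S (y i)) :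
    ∃ u : Fin (Fintype.card ι) → W, (∀ j, u j ∈ S) ∧ AlgebraicIndependent C u := by
  have hkk : ∀ a, a ∈ (algebraMap C W).fieldRange ↔
      ∃ c : C, RingHom.id W (algebraMap C W c) = a := fun a => Iff.rfl
  have h1 : AlgebraicIndependent (algebraMap C W).fieldRange y :=
    (Trd_map_iff (RingHom.id W) hkk (u := y)).2 hy
  have h2 := card_le_trk (S := (S : Set W)) h1 fun i =>
    isAlgebraic_of_le (fun _ ha => Subfield.subset_closure (Or.inr ha)) (ha i)
  obtain ⟨u, hu, hi⟩ := le_trk_iff.1 h2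
  exact ⟨u, hu, (Trd_map_iff (RingHom.id W) hkk (u := u)).1 hi⟩

/-- residue count: a residually independent family that is residually algebraic over `F` can be
replaced by one inside `F` -/
theorem RCR {k0 : Subfield Om} {ι : Type} [Fintype ι] {y : ι → Om}
    (hy : RInd v k0 y) (hr : ∀ i, RAlg v F (y i)) :
    ∃ u : Fin (Fintype.card ι) → Om, (∀ j, u j ∈ F) ∧ RInd v k0 u := by
  have hC : ∀ c : k0, v (algebraMap k0 Om c) ≤ 1 := fun c => hy.le c.2
  let _ := resAlg hC
  obtain ⟨u, hu, hi⟩ := Gsl_count (resField v F) ((RIndC_iff_res hC).1 hy).2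
    fun i => (hr i).res (hy.unit i).le
  choose f hfF hf1 hf2 using fun j => mem_resField.1 (hu j)
  refine ⟨f, hfF, (RIndC_iff_res hC).2 ⟨hf1, ?_⟩⟩
  simp only [hf2]
  exact hi

/-- `W` has transcendence degree at most `card ι + 1` over `k0`, contains `y`, and is not trivially
valued: then a residually independent `z` is Gauss over `W`. -/
theorem gs_of_rind {k0 W : Subfield Om} {ι κ : Type} [Fintype ι] [Fintype κ] {y : ι → Om}
    {c : κ → Om} (hc : Fintype.card κ ≤ Fintype.card ι + 1)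
    (hW : W ≤ acl (adj k0 (Set.range c))) (_hk : k0 ≤ W) (hyW : ∀ i, y i ∈ W)
    (hy : RInd v k0 fun o : Option ι => o.elim z y) (hn : ¬ Triv v W) : Gs v W z := by
  refine (gs_iff_not_RAlg (hy.unit none).le).2 fun hr => ?_
  obtain ⟨u, huW, hu⟩ := RCR hy (by
    rintro (_ | i)
    · exact hr
    · exact RAlg_of_mem (hyW i) (hy.unit (some i)).le)
  obtain ⟨t, htW, ht0, ht⟩ := not_triv_iff.1 hn
  let f : Option (Fin (Fintype.card (Option ι))) → Om := fun o => o.elim t u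
  have hf : AlgebraicIndependent k0 f := by
    refine indep_of_adapted (v := v) (i0 := none) ht0 ht ?_
    have : (fun j : {j // j ≠ none} => f j) =
        u ∘ fun j => j.1.get (Option.ne_none_iff_isSome.1 j.2) := by
      funext ⟨j, hj⟩
      rcases j with _ | j
      · exact (hj rfl).elim
      · rfl
    rw [this]
    refine hu.comp _ ?_
    rintro ⟨_ | i, hi⟩ ⟨_ | j, hj⟩ e
    · rfl
    · exact (hi rfl).elim
    · exact (hj rfl).elim
    · exact Subtype.ext (congrArg some e)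
  have h1 := (card_le_trk hf (S := Set.range c) (by
    rintro (_ | j)
    · exact mem_acl.1 (hW htW)
    · exact mem_acl.1 (hW (huW j)))).trans (trk_range_le k0 c)
  rw [Nat.cast_le, Fintype.card_option, Fintype.card_fin, Fintype.card_option] at h1
  omega

end Gsl

/-- the residually independent part of an adapted basis may be taken outside `F` -/
theorem Frame.reg_out [Algebra ℂ Om] [IsAlgClosed Om] {k0 F : Subfield Om} {ι : Type} [Fintype ι]
    [DecidableEq ι] {D : ι → Derivation ℂ Om Om} {b : ι → Om} (h : Frame k0 F D b) {v : RV Om}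
    {f : ι → Om} {i0 : ι}
    (hf : ∀ i, f i ∈ acl F) (hF : f i0 ∈ F) (h0 : f i0 ≠ 0) (ht : v (f i0) < 1)
    (hy : RInd v k0 fun j : {j // j ≠ i0} => f j) (hg : Grp v F (f i0)) :
    ∃ f' : ι → Om, DivPt k0 F v f' i0 ∧ f' i0 = f i0 ∧ v (Jac D f') = v (Jac D f) := by
  obtain ⟨u, huF, hu⟩ := RCR hy fun j => RAlg_of_acl (hy.unit j).le (hf j)
  have : Nonempty ι := ⟨i0⟩
  obtain ⟨f', e, hd⟩ := exists_divPt i0 hF h0 ht hg (by
    have := Fintype.card_pos (α := ι)
    rw [Fintype.card_subtype_compl, Fintype.card_subtype_eq]; omega) huF hu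
  have hf' : ∀ i, f' i ∈ acl F := fun i => le_acl _ (hd.1 i)
  have hJ := h.jac_ne_zero hf (indep_of_adapted h0 ht hy)
  have hJ' := h.div_jac hd (le_acl _)
  have h1 := h.key2 h0 ht hy hf hf' hJ'
  have h2 := h.key2 hd.2.1 hd.2.2.1 hd.2.2.2.1 hf' hf hJ
  rw [hd.sum_w, e] at h1
  rw [Finset.sum_eq_single i0 (fun j _ hj => w_of_eq_one (hy.unit ⟨j, hj⟩)) (by simp), e] at h2
  exact ⟨f', hd, e, (eq_iff_w hJ' hJ).2 (by linarith)⟩

end Pool.Agent.Lib.MP_5c318e_ag
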