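import Pool.Agent.Lib.MP_5c318e_ag.Pts

/-! Valuations trivial on the base field and nontrivial on `E`: the base direction. -/

namespace Pool.Agent.Lib.MP_5c318e_ag

open scoped Classical NNReal
open Polynomial

variable {Om : Type} [Field Om] [Algebra ℂ Om]

/-- replacing the residually algebraic coordinates of a chart by polynomials in them -/
theorem H1_adapt {k0 : Subfield Om} {ι : Type} [Fintype ι] [DecidableEq ι]
    {D : ι → Derivation ℂ Om Om} (hD : ∀ i, ∀ c ∈ k0, D i c = 0) {v : RV Om} (hk : Triv v k0)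
    {c : ι → Om} (h1 : ∀ j, v (c j) ≤ 1) (hJ : Jac D c ≠ 0) :
    ∃ (I : Finset ι) (f : ι → Om), (RInd v k0 fun i : I => c i) ∧ (∀ i ∈ I, f i = c i) ∧
      (∀ j, f j ∈ adj k0 (Set.range c)) ∧ (∀ j, j ∉ I → v (f j) < 1) ∧
      v (Jac D f) = v (Jac D c) := by
  have : CharZero Om := charZero_of_algebra
  obtain ⟨I, hI, hal⟩ := MAXI (κ := Empty) (u := Empty.elim) (RInd_empty hk _) c h1
  set F := Subfield.closure ((k0 : Set Om) ∪
    Set.range (Sum.elim (Empty.elim : Empty → Om) fun i : I => c i)) with hF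
  choose q hq using fun j => minp v hk.hv F (h1 j) (hal j)
  have hFle : F ≤ adj k0 (Set.range c) := adj_le (le_adj _ _) (by
    rintro _ ⟨i | i, rfl⟩
    · exact i.elim
    · exact mem_adj _ ⟨i, rfl⟩)
  have hkill : ∀ b, b ∉ I → ∀ y ∈ F, dual D c b y = 0 := fun b hb y hy => by
    refine der_zero_closure _ ?_ hy
    rintro y (hy | ⟨i | i, rfl⟩)
    · exact dual_zero _ _ _ fun j => hD j y hy
    · exact i.elim
    · exact (dual_self D hJ b i).trans (if_neg fun e : (i : ι) = b => hb (e ▸ i.2))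
  let f : ι → Om := fun j => if j ∈ I then c j else (q j).eval (c j)
  refine ⟨I, f, hI.right, fun i hi => if_pos hi, fun j => ?_, fun j hj => ?_, ?_⟩
  · by_cases hj : j ∈ I
    · simp only [f, if_pos hj]; exact mem_adj _ ⟨j, rfl⟩
    · simp only [f, if_neg hj]
      rw [eval_eq_sum_range]
      exact sum_mem fun i _ => mul_mem (hFle (mem_PO.1 (hq j).1 i).1)
        (pow_mem (mem_adj _ (Set.mem_range_self j)) _)
  · simp only [f, if_neg hj]; exact (hq j).2.2.1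
  · have hoff : ∀ a, a ∉ I → ∀ b, b ∉ I → dual D c b (f a) =
        if a = b then (q a).derivative.eval (c a) else 0 := fun a ha b hb => by
      simp only [f, if_neg ha]
      rw [Log_der_eval, Finset.sum_eq_zero fun i _ => by
        rw [hkill b hb _ (mem_PO.1 (hq a).1 i).1, zero_mul], zero_add, dual_self D hJ]
      split_ifs <;> simp
    have hon : ∀ a ∈ I, ∀ b, dual D c b (f a) = if a = b then 1 else 0 := fun a ha b => by
      simp only [f, if_pos ha]
      exact dual_self D hJ b a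
    rw [jac_chain D hJ f, map_mul]
    suffices h : v (Jac (dual D c) f) = 1 by rw [h, mul_one]
    rw [Jac, Matrix.twoBlockTriangular_det _ (fun a => a ∉ I) (fun a ha b hb => by
      rw [not_not] at ha
      rw [Matrix.of_apply, hon a ha, if_neg fun e : a = b => hb (e ▸ ha)])]
    have e1 : Matrix.toSquareBlockProp (Matrix.of fun a b => dual D c b (f a)) (fun a => a ∉ I) =
        Matrix.diagonal fun a : {a // a ∉ I} => (q a).derivative.eval (c a) := by
      ext a b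
      rw [Matrix.toSquareBlockProp_def, Matrix.of_apply, Matrix.of_apply, hoff a a.2 b b.2,
        Matrix.diagonal_apply]
      exact if_congr Subtype.ext_iff.symm rfl rfl
    have e2 : Matrix.toSquareBlockProp (Matrix.of fun a b => dual D c b (f a))
        (fun a => ¬ a ∉ I) = 1 := by
      ext a b
      rw [Matrix.toSquareBlockProp_def, Matrix.of_apply, Matrix.of_apply,
        hon a (not_not.1 a.2) b, Matrix.one_apply]
      exact if_congr Subtype.ext_iff.symm rfl rfl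
    rw [e1, e2, Matrix.det_diagonal, Matrix.det_one, mul_one, map_prod]
    exact Finset.prod_eq_one fun a _ => (hq a).2.2.2.1

namespace Ctx0

variable (X : Ctx0 Om)

theorem H1_N_le : X.N ≤ X.Mb := le_sup_left.trans X.NM.le

theorem H1_E_le : X.E ≤ X.Mb := ((le_adj _ _).trans X.ExN).trans X.H1_N_le

theorem H1_x_mem : X.x ∈ X.Mb := X.H1_N_le (X.ExN (mem_adj _ rfl))

theorem H1_der_mem (o : X.iF) {y : Om} (hy : y ∈ X.Mb) : X.dF o y ∈ X.Mb := by
  have : CharZero Om := charZero_of_algebra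
  have hb : ∀ o : X.iF, o.elim X.x X.a ∈ X.Mb := by
    rintro (_ | j)
    · exact X.H1_x_mem
    · exact X.H1_E_le ((le_sup_left : X.L ≤ X.E) (X.frA.mem j))
  have hle : adj X.Kb (Set.range fun o : X.iF => o.elim X.x X.a) ≤ X.Mb :=
    adj_le X.Kb_le_Mb (by rintro _ ⟨o, rfl⟩; exact hb o)
  refine der_mem_alg _ hle (fun c hc => der_mem_closure _ X.Mb ?_ ?_ hc) hy
    (mem_acl.1 (X.frFt.alg (Subfield.mem_top y)))
  · rintro y (hy | ⟨o, rfl⟩)
    · exact X.Kb_le_Mb hy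
    · exact hb o
  · rintro y (hy | ⟨o', rfl⟩)
    · rw [X.dF_Kb o hy]; exact zero_mem _
    · rw [X.frFt.dual]; split_ifs
      exacts [one_mem _, zero_mem _]

theorem H1_jac_mem {c : Fin X.n → Om} (hc : ∀ j, c j ∈ X.Mb) : Jac X.dA c ∈ X.Mb := by
  rw [Jac, Matrix.det_apply']
  exact sum_mem fun s _ => mul_mem (intCast_mem _ _)
    (prod_mem fun i _ => X.H1_der_mem (some i) (hc _))

/-- the common part of `h1_le` and `h1_tight` -/
theorem H1_core {v : RV Om} (hv : X.Good v) (hK : Triv v X.Kb) (hE : ¬ Triv v X.E) :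
    ∃ (c f : Fin X.n → Om) (I : Finset (Fin X.n)), (∀ i, c i ∈ X.Mb) ∧ (∀ i, c i ∈ acl X.L) ∧
      (RInd v X.Kb fun i : I => c i) ∧ (∀ i ∈ I, f i = c i) ∧
      (∀ j, f j ∈ adj X.Kb (Set.range c)) ∧ (∀ j, f j ∈ X.Mb) ∧ (∀ j, f j ≠ 0) ∧
      (∀ j, j ∉ I → v (f j) < 1) ∧ (∃ j, j ∉ I) ∧ Jac X.dA f ≠ 0 ∧
      X.m0 * w v (Jac X.dA f) ≤ w v X.g0 ∧
      X.lE v ≤ w v (Jac X.dA f) - ∑ j ∈ Iᶜ, w v (f j) := by
  obtain ⟨c, hc, h1, h2⟩ := X.chart v hv.1
  have hJ : Jac X.dA c ≠ 0 := by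
    intro e
    rw [show Jac (fun j => X.d (Sum.inr (some j))) c = 0 from e, map_zero,
      zero_pow X.m0pos.ne'] at h2
    exact (Valuation.ne_zero_iff v).2 X.g0ne (le_zero_iff.1 h2)
  have h3 := (le_pow_iff_ge hJ X.m0).1 h2 X.g0ne
  obtain ⟨I, f, hI, hfc, hfm, hft, hfJ⟩ := H1_adapt X.frE.kill hK h1 hJ
  have hcE : ∀ j, c j ∈ X.Eb := fun j => X.aclL_le_Eb (X.CsL c hc j)
  have hJf : Jac X.dA f ≠ 0 := fun e => hJ (v.zero_iff.1 (by rw [← hfJ, e, map_zero]))
  have hfE : ∀ j, f j ∈ X.Eb := fun j =>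
    adj_le X.Kb_le_Eb (by rintro _ ⟨j, rfl⟩; exact hcE j) (hfm j)
  refine ⟨c, f, I, X.CsM c hc, X.CsL c hc, hI, hfc, hfm, fun j =>
    adj_le X.Kb_le_Mb (by rintro _ ⟨j, rfl⟩; exact X.CsM c hc j) (hfm j),
    ne_zero_of_jac _ hJf, hft, ?_, hJf, by rw [w_congr hfJ]; exact h3, ?_⟩
  · by_contra hn
    push Not at hn
    have hr : RInd v X.Kb c := hI.comp (fun j => (⟨j, hn j⟩ : I)) fun a b e => congrArg Subtype.val e
    exact hE (hr.toTriv.toAcl.mono ((le_acl _).trans ((le_acl _).trans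
      (X.frE.alg_of_jac (fun j => le_acl _ (hcE j)) hJ))))
  · have := X.lE_le hv hfE hJf
    rwa [← Finset.sum_add_sum_compl I, Finset.sum_eq_zero fun i hi => by
      rw [hfc i hi]; exact w_of_eq_one (hI.unit ⟨i, hi⟩), zero_add] at this

theorem h1_le {v : RV Om} (hv : X.Good v) (hK : Triv v X.Kb) (hE : ¬ Triv v X.E) {t : Om}
    (ht0 : t ≠ 0) (ht : v t < 1) (hg : Grp v X.Mb t) : w v t ≤ X.A v := by
  obtain ⟨c, f, I, -, -, -, -, -, hfM, hf0, hft, ⟨j, hj⟩, -, h1, h2⟩ := X.H1_core hv hK hE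
  have hm : (0 : ℝ) < X.m0 := by exact_mod_cast X.m0pos
  have h3 : w v (f j) ≤ ∑ j ∈ Iᶜ, w v (f j) :=
    Finset.single_le_sum (f := fun j => w v (f j)) (fun i hi =>
      ((w_pos_iff (hf0 i)).2 (hft i (Finset.mem_compl.1 hi))).le) (Finset.mem_compl.2 hj)
  have h4 := hg.le_w ((w_pos_iff ht0).2 ht) (hfM j) (hf0 j) ((w_pos_iff (hf0 j)).2 (hft j hj))
  have h5 : w v (Jac X.dA f) ≤ w v X.g0 / X.m0 := by rw [le_div_iff₀ hm]; linarith
  rw [A]
  linarith

theorem h1_tight {v : RV Om} (hv : X.Good v) (hK : Triv v X.Kb) (hE : ¬ Triv v X.E) {t : Om}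
    (ht0 : t ≠ 0) (ht : v t < 1) (hg : Grp v X.Mb t) (hA : X.A v < (1 + 1 / X.m0) * w v t) :
    ∃ (c : Fin X.n → Om) (j : Fin X.n) (t' : Om), (∀ i, c i ∈ X.Mb) ∧ (∀ i, c i ∈ acl X.L) ∧
      (RInd v X.Kb fun i : {i // i ≠ j} => c i) ∧ t' ∈ adj X.Kb (Set.range c) ∧ v t' = v t ∧
      v X.g0 = v (Jac X.dA (Function.update c j t')) ^ X.m0 := by
  obtain ⟨c, f, I, hcM, hcL, hI, hfc, hfm, hfM, hf0, hft, ⟨j, hj⟩, hJ, h1, h2⟩ :=
    X.H1_core hv hK hE
  have hm : (0 : ℝ) < X.m0 := by exact_mod_cast X.m0pos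
  have hm1 : (1 : ℝ) ≤ X.m0 := by exact_mod_cast X.m0pos
  have hp := (w_pos_iff ht0).2 ht
  have h4 : ∀ i, i ∉ I → w v t ≤ w v (f i) := fun i hi =>
    hg.le_w hp (hfM i) (hf0 i) ((w_pos_iff (hf0 i)).2 (hft i hi))
  have h5 : w v (Jac X.dA f) ≤ w v X.g0 / X.m0 := by rw [le_div_iff₀ hm]; linarith
  have h6 : (1 + 1 / (X.m0 : ℝ)) * w v t ≤ 2 * w v t := by
    have : 1 / (X.m0 : ℝ) ≤ 1 := (div_le_one hm).2 hm1
    nlinarith
  have h7 : ∑ i ∈ Iᶜ, w v (f i) < 2 * w v t := by rw [A] at hA; linarith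
  have hI' : ∀ i, i ≠ j → i ∈ I := fun i hij => by
    by_contra hi
    have : ∑ l ∈ ({i, j} : Finset (Fin X.n)), w v (f l) ≤ ∑ i ∈ Iᶜ, w v (f i) :=
      Finset.sum_le_sum_of_subset_of_nonneg (fun l hl => by
        rcases Finset.mem_insert.1 hl with rfl | hl
        · exact Finset.mem_compl.2 hi
        · rw [Finset.mem_singleton.1 hl]; exact Finset.mem_compl.2 hj)
        fun l hl _ => hp.le.trans (h4 l (Finset.mem_compl.1 hl))
    rw [Finset.sum_pair hij] at this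
    linarith [h4 i hi, h4 j hj]
  have hc : Iᶜ = {j} := by
    ext i
    rw [Finset.mem_compl, Finset.mem_singleton]
    exact ⟨fun h => by_contra fun e => h (hI' i e), fun e => e ▸ hj⟩
  rw [hc, Finset.sum_singleton] at h2 h7
  have h8 : w v (f j) = w v t := by
    obtain ⟨k, hk⟩ := hg.w_eq (hfM j) (hf0 j)
    have h9 := h4 j hj
    rw [hk] at h7 h9 ⊢
    have a1 : (1 : ℝ) ≤ k := by nlinarith
    have a2 : (k : ℝ) < 2 := by nlinarith
    have a3 : k = 1 := by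
      have b1 : (1 : ℤ) ≤ k := by exact_mod_cast a1
      have b2 : k < 2 := by exact_mod_cast a2
      omega
    rw [a3]; simp
  have hf : Function.update c j (f j) = f := by
    funext i
    by_cases e : i = j
    · rw [e, Function.update_self]
    · rw [Function.update_of_ne e, hfc i (hI' i e)]
  refine ⟨c, j, f j, hcM, hcL, hI.comp (fun i : {i // i ≠ j} => (⟨i, hI' i i.2⟩ : I))
    fun a b e => Subtype.ext (congrArg (fun z : I => (z : Fin X.n)) e), hfm j,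
    (eq_iff_w (hf0 j) ht0).2 h8, ?_⟩
  rw [hf, ← map_pow, eq_iff_w X.g0ne (pow_ne_zero _ hJ), w_pow]
  obtain ⟨k, hk⟩ := hg.w_eq (X.H1_E_le X.g0E) X.g0ne
  obtain ⟨l, hl⟩ := hg.w_eq (X.H1_jac_mem hfM) hJ
  have h9 : w v X.g0 < X.m0 * w v (Jac X.dA f) + w v t := by
    rw [A, sub_lt_iff_lt_add, div_lt_iff₀ hm] at hA
    have : (1 + 1 / (X.m0 : ℝ)) * w v t * X.m0 = X.m0 * w v t + w v t := by field_simp
    nlinarith
  rw [hk, hl] at h1 h9 ⊢
  have a1 : (X.m0 : ℝ) * l ≤ k := by nlinarith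
  have a2 : (k : ℝ) < X.m0 * l + 1 := by nlinarith
  have a3 : k = X.m0 * l := by
    have b1 : (X.m0 : ℤ) * l ≤ k := by exact_mod_cast a1
    have b2 : k < X.m0 * l + 1 := by exact_mod_cast a2
    omega
  rw [a3]; push_cast; ring

end Ctx0

end Pool.Agent.Lib.MP_5c318e_ag
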