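import Pool.Agent.Lib.MP_5c318e_ag.Val

/-! The normalised fibre form. -/

namespace Pool.Agent.Lib.MP_5c318e_ag

open scoped Classical NNReal

variable {Om : Type} [Field Om] [Algebra ℂ Om]

namespace Ctx

variable (X : Ctx Om)

/-- a fibre form divided by the power of `sig`, with the poles at the marked points cleared -/
noncomputable def HH (j : ℕ) (ψ : Om) : Om :=
  ψ / X.sig X.Ga ^ j * ∏ i ∈ Finset.univ.erase X.rc,
    (X.z - X.la i) ^ (j * (X.Nw - X.Nw / X.e i - gdeg X.Ga i))

end Ctx

end Pool.Agent.Lib.MP_5c318e_ag
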