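import Mathlib
import Pool.Agent.Lib.MP_5c318e_ag.Ht1
import Pool.Agent.Lib.MP_5c318e_ag.Trd
import Pool.Agent.Lib.MP_5c318e_ag.Key
import Pool.Agent.Lib.MP_5c318e_ag.Unr
import Pool.Agent.Lib.MP_5c318e_ag.Lift

/-!
Residue count for the ring generated by two trivially valued subfields, and the height one
statement of 4(a) and 7(ii).
-/

namespace Pool.Agent.Lib.MP_5c318e_ag

open Polynomial

variable {Om G : Type*} [Field Om] [LinearOrderedCommGroupWithZero G]

/-- The residue field of a valuation. -/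
abbrev Ht2RF (v : Valuation Om G) : Type _ := IsLocalRing.ResidueField v.valuationSubring

open scoped Classical in
/-- The residue of an element (zero outside the valuation ring). -/
noncomputable def Ht2res (v : Valuation Om G) (x : Om) : Ht2RF v :=
  if h : v x ≤ 1 then IsLocalRing.residue v.valuationSubring ⟨x, h⟩ else 0

theorem Ht2res_eq (v : Valuation Om G) {x : Om} (h : v x ≤ 1) :
    Ht2res v x = IsLocalRing.residue v.valuationSubring ⟨x, h⟩ := dif_pos h

theorem Ht2res_eq_zero (v : Valuation Om G) {x : Om} (h : v x ≤ 1) :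
    Ht2res v x = 0 ↔ v x < 1 := by
  rw [Ht2res_eq v h, IsLocalRing.residue_eq_zero_iff, Valuation.mem_maximalIdeal_iff]

/-- The residue map on a subring of the valuation ring. -/
noncomputable def Ht2hom (v : Valuation Om G) (B : Subring Om) (hB : ∀ x ∈ B, v x ≤ 1) :
    B →+* Ht2RF v :=
  (IsLocalRing.residue v.valuationSubring).comp
    (Subring.inclusion (S := B) (T := v.valuationSubring.toSubring) fun x hx => hB x hx)

theorem Ht2hom_apply (v : Valuation Om G) (B : Subring Om) (hB : ∀ x ∈ B, v x ≤ 1) (x : B) :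
    Ht2hom v B hB x = Ht2res v x := (Ht2res_eq v (hB x x.2)).symm

theorem Ht2res_add (v : Valuation Om G) {x y : Om} (hx : v x ≤ 1) (hy : v y ≤ 1) :
    Ht2res v (x + y) = Ht2res v x + Ht2res v y := by
  rw [Ht2res_eq v hx, Ht2res_eq v hy, Ht2res_eq v (v.map_add_le hx hy), ← map_add]
  rfl

theorem Ht2res_mul (v : Valuation Om G) {x y : Om} (hx : v x ≤ 1) (hy : v y ≤ 1) :
    Ht2res v (x * y) = Ht2res v x * Ht2res v y := by
  rw [Ht2res_eq v hx, Ht2res_eq v hy,
    Ht2res_eq v (x := x * y) (by rw [map_mul]; exact mul_le_one' hx hy)]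
  exact map_mul (IsLocalRing.residue v.valuationSubring) ⟨x, hx⟩ ⟨y, hy⟩

/-- The image of a trivially valued subfield in the residue field. -/
noncomputable def Ht2im (v : Valuation Om G) (F : Subfield Om) (hF : ∀ x ∈ F, v x ≤ 1) :
    Subfield (Ht2RF v) :=
  RingHom.fieldRange (K := F) (Ht2hom v F.toSubring hF)

theorem mem_Ht2im (v : Valuation Om G) (F : Subfield Om) (hF : ∀ x ∈ F, v x ≤ 1)
    {y : Ht2RF v} : y ∈ Ht2im v F hF ↔ ∃ x ∈ F, Ht2res v x = y := by
  constructor
  · rintro ⟨x, rfl⟩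
    exact ⟨x, x.2, (Ht2hom_apply v F.toSubring hF x).symm⟩
  · rintro ⟨x, hx, rfl⟩
    exact ⟨⟨x, hx⟩, Ht2hom_apply v F.toSubring hF ⟨x, hx⟩⟩

theorem Ht2res_closure (v : Valuation Om G) {S : Set Om} (hS : ∀ x ∈ S, v x ≤ 1) {x : Om}
    (hx : x ∈ Subring.closure S) : Ht2res v x ∈ Subring.closure (Ht2res v '' S) := by
  have hB : ∀ x ∈ Subring.closure S, v x ≤ 1 := fun x hx => ring_le_one v hS hx
  induction hx using Subring.closure_induction with
  | mem x hx => exact Subring.subset_closure ⟨x, hx, rfl⟩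
  | zero =>
    rw [(Ht2res_eq_zero v (by simp)).2 (by simp)]
    exact zero_mem _
  | one =>
    rw [← Subring.coe_one (Subring.closure S), ← Ht2hom_apply v _ hB, map_one]
    exact one_mem _
  | add x y hx hy ihx ihy =>
    rw [Ht2res_add v (hB x hx) (hB y hy)]
    exact add_mem ihx ihy
  | neg x hx ih =>
    have : Ht2res v (-x) = -Ht2res v x := by
      rw [← Ht2hom_apply v _ hB ⟨x, hx⟩, ← map_neg, Ht2hom_apply]
      rfl
    rw [this]
    exact neg_mem ih
  | mul x y hx hy ihx ihy =>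
    rw [Ht2res_mul v (hB x hx) (hB y hy)]
    exact mul_mem ihx ihy

/-- Algebraic dependence inside a trivially valued field passes to residues. -/
theorem Ht2res_alg (v : Valuation Om G) (F : Subfield Om) (hF : ∀ x ∈ F, v x ≤ 1) {S : Set Om}
    (hS : S ⊆ F) {g : Om} (hg : g ∈ F) (halg : IsAlgebraic (Subfield.closure S) g)
    (E : Subfield (Ht2RF v)) (hE : ∀ x ∈ S, Ht2res v x ∈ E) : IsAlgebraic E (Ht2res v g) := by
  obtain ⟨P, hP, hc, h0⟩ := Ht1_rel S halg
  have hcF : ∀ i, P.coeff i ∈ F := fun i =>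
    (Subring.closure_le (t := F.toSubring)).2 hS (hc i)
  obtain ⟨P', rfl⟩ : P ∈ lifts F.subtype := by
    rw [lifts_iff_coeff_lifts]
    exact fun i => ⟨⟨_, hcF i⟩, rfl⟩
  rw [coe_mapRingHom] at hP hc h0
  let φ : F →+* Ht2RF v := Ht2hom v F.toSubring hF
  have hP' : P' ≠ 0 := fun h => hP (by rw [h, Polynomial.map_zero])
  have h1 : P'.eval ⟨g, hg⟩ = 0 := by
    apply Subtype.ext
    rw [eval_map] at h0
    exact (eval₂_at_apply F.subtype (⟨g, hg⟩ : F) (p := P')).symm.trans h0
  refine isAlgebraic_of_root (q := P'.map φ) (fun i => ?_)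
    ((Polynomial.map_ne_zero_iff φ.injective).2 hP') ?_
  · rw [coeff_map]
    have h2 : φ (P'.coeff i) = Ht2res v ((P'.map F.subtype).coeff i) := by
      rw [coeff_map]
      exact Ht2hom_apply v F.toSubring hF _
    rw [h2]
    refine (Subring.closure_le (t := E.toSubring)).2 ?_
      (Ht2res_closure v (fun x hx => hF x (hS hx)) (hc i))
    rintro _ ⟨x, hx, rfl⟩
    exact hE x hx
  · rw [← Ht2hom_apply v F.toSubring hF ⟨g, hg⟩, eval_map]
    exact (eval₂_at_apply φ (⟨g, hg⟩ : F) (p := P')).trans (by rw [h1, map_zero])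

theorem Ht2res_aeval (v : Valuation Om G) (F : Subfield Om) (hF : ∀ x ∈ F, v x ≤ 1) {σ : Type*}
    (y : σ → Om) (hy : ∀ j, v (y j) ≤ 1) (p : MvPolynomial σ F) :
    v (MvPolynomial.aeval y p) ≤ 1 ∧ Ht2res v (MvPolynomial.aeval y p) =
      MvPolynomial.aeval (fun j => Ht2res v (y j))
        (MvPolynomial.map (RingHom.rangeRestrictField (K := F) (Ht2hom v F.toSubring hF)) p) := by
  induction p using MvPolynomial.induction_on with
  | C a =>
    rw [MvPolynomial.aeval_C, MvPolynomial.map_C, MvPolynomial.aeval_C]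
    exact ⟨hF _ a.2, (Ht2hom_apply v F.toSubring hF a).symm⟩
  | add p q hp hq =>
    rw [map_add (MvPolynomial.aeval y)]
    refine ⟨v.map_add_le hp.1 hq.1, ?_⟩
    rw [Ht2res_add v hp.1 hq.1, hp.2, hq.2, map_add (MvPolynomial.map _)]
    exact (map_add _ _ _).symm
  | mul_X p j hp =>
    rw [map_mul (MvPolynomial.aeval y), MvPolynomial.aeval_X]
    refine ⟨by rw [map_mul]; exact mul_le_one' hp.1 (hy j), ?_⟩
    rw [Ht2res_mul v hp.1 (hy j), hp.2, map_mul (MvPolynomial.map _), MvPolynomial.map_X]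
    refine Eq.trans ?_ (map_mul _ _ _).symm
    rw [MvPolynomial.aeval_X]

/-- Residual independence is algebraic independence of the residues. -/
theorem Ht2_RInd_iff (v : Valuation Om G) (F : Subfield Om) (hF : ∀ x ∈ F, v x ≤ 1) {σ : Type*}
    (y : σ → Om) (hy : ∀ j, v (y j) ≤ 1) :
    RInd v F y ↔ AlgebraicIndependent (Ht2im v F hF) fun j => Ht2res v (y j) := by
  let ψ := RingHom.rangeRestrictField (K := F) (Ht2hom v F.toSubring hF)
  have hb : Function.Bijective ψ := RingHom.rangeRestrictField_bijective _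
  rw [algebraicIndependent_iff]
  constructor
  · intro h q hq
    obtain ⟨p, rfl⟩ := MvPolynomial.map_surjective ψ hb.2 q
    by_contra hne
    have hp : p ≠ 0 := fun h0 => hne (by rw [h0, map_zero]; rfl)
    obtain ⟨h1, h2⟩ := Ht2res_aeval v F hF y hy p
    have h3 := (Ht2res_eq_zero v h1).1 (h2.trans hq)
    rw [h p hp] at h3
    exact lt_irrefl _ h3
  · intro h p hp
    obtain ⟨h1, h2⟩ := Ht2res_aeval v F hF y hy p
    refine le_antisymm h1 (not_lt.1 fun hlt => hp ?_)
    have h3 := h _ (h2.symm.trans ((Ht2res_eq_zero v h1).2 hlt))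
    exact MvPolynomial.map_injective ψ hb.1 (by rw [h3, map_zero]; rfl)

theorem Ht2_RInd_anti {v : Valuation Om G} {F F' : Subfield Om} (h : F ≤ F') {σ : Type*}
    {y : σ → Om} (hy : RInd v F' y) : RInd v F y := by
  intro p hp
  have h1 := hy (MvPolynomial.map (Subfield.inclusion h) p) fun h0 =>
    hp (MvPolynomial.map_injective _ (Subfield.inclusion h).injective (by rw [h0, map_zero]))
  rwa [MvPolynomial.aeval_def, MvPolynomial.eval₂_map] at h1

theorem Ht2_RInd_indep {v : Valuation Om G} {F : Subfield Om} {σ : Type*} {y : σ → Om}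
    (hy : RInd v F y) : AlgebraicIndependent F y := by
  rw [algebraicIndependent_iff]
  intro p hp
  by_contra hne
  have := hy p hne
  rw [hp, map_zero] at this
  exact zero_ne_one this

/-- Residue count: `Kb`, `Lb` trivially valued, algebraic over `C0(s)`, `C0(a)`; a residually
independent family in `Lb ∪ Kb` of size `#a + #s - 1` forces all but one of the `a` to be
residually independent over `Kb`. -/
theorem Ht2_count (v : Valuation Om G) (C0 Kb Lb : Subfield Om) (hCK : C0 ≤ Kb) (hCL : C0 ≤ Lb)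
    (hK : ∀ x ∈ Kb, v x ≤ 1) (hL : ∀ x ∈ Lb, v x ≤ 1) {ι ρ σ : Type*} [Fintype ι] [Fintype ρ]
    [Fintype σ] (a : ι → Om) (s : ρ → Om) (ha : ∀ i, a i ∈ Lb) (hs : ∀ i, s i ∈ Kb)
    (hLa : ∀ g ∈ Lb, IsAlgebraic (Subfield.closure ((C0 : Set Om) ∪ Set.range a)) g)
    (hKs : ∀ g ∈ Kb, IsAlgebraic (Subfield.closure ((C0 : Set Om) ∪ Set.range s)) g)
    (y : σ → Om) (hy : RInd v C0 y) (hyLK : ∀ j, y j ∈ Lb ∨ y j ∈ Kb) (m : ℕ)
    (hcard : m + Fintype.card ρ ≤ Fintype.card σ) :
    ∃ idx : Fin m → ι, RInd v Kb fun j => a (idx j) := by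
  have hC : ∀ x ∈ C0, v x ≤ 1 := fun x hx => hK x (hCK hx)
  have hle : Ht2im v C0 hC ≤ Ht2im v Kb hK := fun z hz => by
    obtain ⟨x, hx, rfl⟩ := (mem_Ht2im v C0 hC).1 hz
    exact (mem_Ht2im v Kb hK).2 ⟨x, hCK hx, rfl⟩
  have hy1 : ∀ j, v (y j) ≤ 1 := fun j => (hy.unit j).le
  have h1 : (Fintype.card σ : ℕ∞) ≤ trk (Ht2im v C0 hC)
      ((Ht2im v Kb hK : Set (Ht2RF v)) ∪ Set.range fun i => Ht2res v (a i)) := by
    refine card_le_trk ((Ht2_RInd_iff v C0 hC y hy1).1 hy) fun j => ?_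
    rcases hyLK j with h | h
    · refine Ht2res_alg v Lb hL ?_ h (hLa _ h) _ ?_
      · rintro x (hx | ⟨i, rfl⟩)
        exacts [hCL hx, ha i]
      · rintro x (hx | ⟨i, rfl⟩)
        · exact Subfield.subset_closure (Or.inl ((mem_Ht2im v C0 hC).2 ⟨x, hx, rfl⟩))
        · exact Subfield.subset_closure (Or.inr (Or.inr ⟨i, rfl⟩))
    · exact Trd_alg_of_mem (Subfield.subset_closure
        (Or.inr (Or.inl ((mem_Ht2im v Kb hK).2 ⟨_, h, rfl⟩))))
  have h2 : trk (Ht2im v C0 hC) (Ht2im v Kb hK : Set (Ht2RF v)) ≤ Fintype.card ρ := by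
    refine le_trans (trk_le_of_alg (T := Set.range fun i => Ht2res v (s i)) fun z hz => ?_)
      (trk_range_le _ _)
    obtain ⟨x, hx, rfl⟩ := (mem_Ht2im v Kb hK).1 hz
    refine Ht2res_alg v Kb hK ?_ hx (hKs _ hx) _ ?_
    · rintro x (hx | ⟨i, rfl⟩)
      exacts [hCK hx, hs i]
    · rintro x (hx | ⟨i, rfl⟩)
      · exact Subfield.subset_closure (Or.inl ((mem_Ht2im v C0 hC).2 ⟨x, hx, rfl⟩))
      · exact Subfield.subset_closure (Or.inr ⟨i, rfl⟩)
  rw [trk_tower hle] at h1
  have h3 : (m : ℕ∞) ≤ trk (Ht2im v Kb hK) (Set.range fun i => Ht2res v (a i)) := by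
    have h4 : (Fintype.card ρ : ℕ∞) + m ≤ Fintype.card ρ +
        trk (Ht2im v Kb hK) (Set.range fun i => Ht2res v (a i)) := by
      refine le_trans ?_ (h1.trans (add_le_add_left h2 _))
      rw [add_comm]
      exact_mod_cast hcard
    exact (ENat.add_le_add_iff_left (ENat.natCast_ne_top _)).1 h4
  obtain ⟨u, hu, hind⟩ := le_trk_iff.1 h3
  choose idx hidx using hu
  refine ⟨idx, (Ht2_RInd_iff v Kb hK _ fun j => hL _ (ha _)).2 ?_⟩
  rwa [show (fun j => Ht2res v (a (idx j))) = u from funext hidx]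

/-- 4(a) and 7(ii): the centre on `T = L K` is generated by a prime element. -/
theorem Ht2 (v : Valuation Om G) (C0 K L Kb Lb : Subfield Om) (hCK : C0 ≤ K) (hCL : C0 ≤ L)
    (hKK : K ≤ Kb) (hLL : L ≤ Lb)
    [UniqueFactorizationMonoid (Subring.closure ((L : Set Om) ∪ K))]
    (hK : ∀ x ∈ Kb, v x ≤ 1) (hL : ∀ x ∈ Lb, v x ≤ 1) {ι ρ σ : Type*} [Fintype ι] [Fintype ρ]
    [Fintype σ] (a : ι → Om) (s : ρ → Om) (ha : ∀ i, a i ∈ L) (hs : ∀ i, s i ∈ Kb)
    (hLa : ∀ g ∈ Lb, IsAlgebraic (Subfield.closure ((C0 : Set Om) ∪ Set.range a)) g)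
    (hKs : ∀ g ∈ Kb, IsAlgebraic (Subfield.closure ((C0 : Set Om) ∪ Set.range s)) g)
    (y : σ → Om) (hy : RInd v C0 y) (hyLK : ∀ j, y j ∈ Lb ∨ y j ∈ Kb)
    (hcard : Fintype.card ι + Fintype.card ρ ≤ Fintype.card σ + 1)
    (u0 : Om) (hu0 : u0 ∈ L ⊔ K) (hu00 : u0 ≠ 0) (hu1 : v u0 ≠ 1) :
    ∃ π : Subring.closure ((L : Set Om) ∪ K), Prime π ∧
      ∀ u : Subring.closure ((L : Set Om) ∪ K), v u < 1 ↔ π ∣ u := by
  set T := Subring.closure ((L : Set Om) ∪ K) with hTd
  have hT : ∀ u ∈ T, v u ≤ 1 := fun u hu => ring_le_one v (by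
    rintro x (hx | hx)
    exacts [hL x (hLL hx), hK x (hKK hx)]) hu
  obtain ⟨idx, hidx⟩ : ∃ idx : Fin (Fintype.card ι - 1) → ι, RInd v Kb fun j => a (idx j) := by
    rcases Nat.eq_zero_or_pos (Fintype.card ι) with h0 | h0
    · have : IsEmpty (Fin (Fintype.card ι - 1)) := by
        rw [h0]
        exact inferInstanceAs (IsEmpty (Fin 0))
      refine ⟨fun j => isEmptyElim j, (Ht2_RInd_iff v Kb hK _ fun j => isEmptyElim j).2 ?_⟩
      exact algebraicIndependent_empty_type
    · exact Ht2_count v C0 Kb Lb (hCK.trans hKK) (hCL.trans hLL) hK hL a s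
        (fun i => hLL (ha i)) hs hLa hKs y hy hyLK (Fintype.card ι - 1) (by omega)
  have hidx' := Ht2_RInd_anti hKK hidx
  obtain ⟨u1, hu1T, hu10, hu11⟩ : ∃ u ∈ T, u ≠ 0 ∧ v u < 1 := by
    have hm : u0 ∈ Subfield.closure ((L : Set Om) ∪ K) := by
      rwa [Subfield.closure_union, Subfield.closure_eq, Subfield.closure_eq]
    obtain ⟨p, hp, q, hq, rfl⟩ := Subfield.mem_closure_iff.1 hm
    have hp0 : p ≠ 0 := fun h => hu00 (by rw [h, zero_div])
    have hq0 : q ≠ 0 := fun h => hu00 (by rw [h, div_zero])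
    by_contra hne
    push Not at hne
    rw [map_div₀, le_antisymm (hT p hp) (hne p hp hp0), le_antisymm (hT q hq) (hne q hq hq0),
      div_one] at hu1
    exact hu1 rfl
  have hTa : ∀ u ∈ T, IsAlgebraic (Subfield.closure ((K : Set Om) ∪ Set.range a)) u := by
    intro u hu
    have : T ≤ (algebraicClosure (Subfield.closure ((K : Set Om) ∪ Set.range a)) Om).toSubring := by
      rw [hTd, Subring.closure_le]
      rintro x (hx | hx)
      · refine mem_algebraicClosure_iff.2 (Trd_alg_trans (k := K) (S := (C0 : Set Om) ∪ Set.range a)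
          ?_ ?_)
        · rintro z (hz | hz)
          · exact Trd_alg_of_mem (Subfield.subset_closure (Or.inl (hCK hz)))
          · exact Trd_alg_of_mem (Subfield.subset_closure (Or.inr hz))
        · exact isAlgebraic_of_le (Subfield.closure_mono Set.subset_union_right) (hLa x (hLL hx))
      · exact mem_algebraicClosure_iff.2 (Trd_alg_of_mem (Subfield.subset_closure (Or.inl hx)))
    exact mem_algebraicClosure_iff.1 (this hu)
  obtain ⟨π, hπ, hπv, hdiv⟩ := Ht1 T v hT K (fun c hc => Subring.subset_closure (Or.inr hc))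
    (fun j => a (idx j)) (fun j => Subring.subset_closure (Or.inl (ha _))) hidx' (by
      intro t ht ht0 htv u hu
      let M := AlgebraicIndependent.matroid K Om
      have hnot : t ∉ M.closure (Set.range fun j => a (idx j)) := by
        intro h
        have h1 := v_eq_one_of_isAlgebraic (v := v) (fun f hf => by
          by_cases hf0 : f = 0
          · rw [hf0, map_zero]; exact zero_le
          · exact (hidx'.field hf hf0).le) (Trd_mem_closure.1 h) ht0
        rw [h1] at htv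
        exact lt_irrefl _ htv
      have h2 : M.eRk (insert t (Set.range fun j => a (idx j))) =
          ((Fintype.card ι - 1 : ℕ) : ℕ∞) + 1 := by
        rw [Matroid.eRk_insert_eq_add_one (M := M) ⟨Set.mem_univ _, hnot⟩]
        have := trk_range (Ht2_RInd_indep hidx')
        rw [Fintype.card_fin] at this
        exact congrArg (· + 1) this
      have h3 : insert t (Set.range fun j => a (idx j)) ⊆ M.closure (Set.range a) := by
        rintro x (rfl | ⟨j, rfl⟩)
        · exact Trd_mem_closure.2 (hTa _ ht)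
        · exact Trd_mem_closure.2 (Trd_alg_of_mem (Subfield.subset_closure (Or.inr ⟨_, rfl⟩)))
      have h4 : M.eRk (M.closure (Set.range a)) ≤
          M.eRk (insert t (Set.range fun j => a (idx j))) := by
        rw [Matroid.eRk_closure_eq, h2]
        refine (trk_range_le K a).trans ?_
        exact_mod_cast (by omega : Fintype.card ι ≤ Fintype.card ι - 1 + 1)
      have h5 := (M.isRkFinite_of_finite ((Set.finite_range _).insert t)
        ).closure_eq_closure_of_subset_of_eRk_ge_eRk h3 h4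
      rw [Matroid.closure_closure] at h5
      exact Trd_mem_closure.1 (h5 ▸ Trd_mem_closure.2 (hTa u hu))) u1 hu1T hu10 hu11
  refine ⟨π, hπ, fun u => ⟨hdiv u, ?_⟩⟩
  rintro ⟨r, rfl⟩
  rw [Subring.coe_mul, map_mul]
  exact lt_of_le_of_lt (mul_le_of_le_one_right' (hT _ r.2)) hπv

end Pool.Agent.Lib.MP_5c318e_ag
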