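import Pool.Agent.Lib.MP_5c318e_ag.Wron
import Pool.Agent.Lib.MP_5c318e_ag.Log

/-!
Toolkit LCT: uniform bounds for the values of fixed elements at valuations centred on a chart.
`c` is a chart, `D i` are the derivations dual to `c`, `δ` bounds the log norm of the `D i`.
-/

namespace Pool.Agent.Lib.MP_5c318e_ag

variable {R k Om ι G : Type*} [CommRing R] [Field k] [Field Om] [Algebra R Om] [Algebra k Om]
  [LinearOrderedCommGroupWithZero G]

/-- a derivation dual to `c i` acts on polynomials in `c` as the formal derivative. -/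
theorem lct_der (D : Derivation R Om Om) (c : ι → Om) (i : ι)
    (hk : ∀ a : k, D (algebraMap k Om a) = 0) (h1 : D (c i) = 1)
    (h0 : ∀ j, j ≠ i → D (c j) = 0) (p : MvPolynomial ι k) :
    D (MvPolynomial.aeval c p) = MvPolynomial.aeval c (MvPolynomial.pderiv i p) := by
  induction p using MvPolynomial.induction_on with
  | C a => simp [hk]
  | add p q hp hq => simp [hp, hq]
  | mul_X p j hp =>
    rw [map_mul, Derivation.leibniz, Derivation.leibniz, hp, MvPolynomial.aeval_X]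
    by_cases h : j = i
    · subst h
      simp [h1]
    · simp [h0 j h, MvPolynomial.pderiv_X_of_ne h]

theorem lct_poly [CharZero k] (D : ι → Derivation R Om Om) (c : ι → Om)
    (hk : ∀ i (a : k), D i (algebraMap k Om a) = 0) (h1 : ∀ i, D i (c i) = 1)
    (h0 : ∀ i j, j ≠ i → D i (c j) = 0) (v : Valuation Om G)
    (hv : ∀ a : k, a ≠ 0 → v (algebraMap k Om a) = 1) (δ : G) (hδ : 1 ≤ δ)
    (hD : ∀ i, ∀ f ∈ Algebra.adjoin k (Set.range c), v (D i f) ≤ δ * v f) (n : ℕ)
    (p : MvPolynomial ι k) (hp : p ≠ 0) (hn : p.totalDegree ≤ n) :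
    1 ≤ δ ^ n * v (MvPolynomial.aeval c p) := by
  classical
  induction n generalizing p with
  | zero =>
    have h := MvPolynomial.totalDegree_eq_zero_iff_eq_C.1 (Nat.le_zero.1 hn)
    have h2 : MvPolynomial.coeff 0 p ≠ 0 := fun h3 => hp (by rw [h, h3, map_zero])
    rw [h, MvPolynomial.aeval_C, hv _ h2]
    simp
  | succ n ih =>
    by_cases hz : p.totalDegree ≤ n
    · refine (ih p hp hz).trans (mul_le_mul_left (pow_le_pow_right₀ hδ (Nat.le_succ n)) _)
    have hex : ∃ m ∈ p.support, m ≠ 0 := by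
      by_contra hne
      push Not at hne
      refine hz ((Finset.sup_le fun m hm => ?_ : p.totalDegree ≤ 0).trans (Nat.zero_le n))
      rw [hne m hm]
      simp
    obtain ⟨m, hm, hm0⟩ := hex
    obtain ⟨i, hi⟩ : ∃ i, m i ≠ 0 := by
      by_contra hne
      push Not at hne
      exact hm0 (Finsupp.ext hne)
    have hq : MvPolynomial.pderiv i p ≠ 0 := by
      intro h
      have h2 := MvPolynomial.coeff_pderiv (i := i) p (m - Finsupp.single i 1)
      have h3 : m - Finsupp.single i 1 + Finsupp.single i 1 = m :=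
        tsub_add_cancel_of_le (Finsupp.single_le_iff.2 (Nat.one_le_iff_ne_zero.2 hi))
      rw [h, h3, MvPolynomial.coeff_zero] at h2
      exact mul_ne_zero (MvPolynomial.mem_support_iff.1 hm) (Nat.cast_add_one_ne_zero _) h2.symm
    have hd : (MvPolynomial.pderiv i p).totalDegree ≤ n := by
      refine Finset.sup_le fun m' hm' => ?_
      have h2 := MvPolynomial.mem_support_iff.1 hm'
      rw [MvPolynomial.coeff_pderiv] at h2
      have h3 := (MvPolynomial.le_totalDegree
        (MvPolynomial.mem_support_iff.2 (left_ne_zero_of_mul h2))).trans hn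
      rw [Finsupp.sum_add_index' (fun _ => rfl) (fun _ _ _ => rfl),
        Finsupp.sum_single_index rfl] at h3
      exact Nat.le_of_succ_le_succ h3
    have h4 := ih _ hq hd
    rw [← lct_der (D i) c i (hk i) (h1 i) (h0 i)] at h4
    refine h4.trans ?_
    rw [pow_succ, mul_assoc]
    refine mul_le_mul_right (hD i _ ?_) _
    rw [Algebra.adjoin_range_eq_range_aeval]
    exact ⟨p, rfl⟩

theorem lct_adjoin_le (c : ι → Om) (v : Valuation Om G)
    (hv : ∀ a : k, a ≠ 0 → v (algebraMap k Om a) = 1) (hc : ∀ j, v (c j) ≤ 1) {f : Om}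
    (hf : f ∈ Algebra.adjoin k (Set.range c)) : v f ≤ 1 := by
  induction hf using Algebra.adjoin_induction with
  | mem x hx => obtain ⟨j, rfl⟩ := hx; exact hc j
  | algebraMap a =>
    by_cases h : a = 0
    · simp [h]
    · exact (hv a h).le
  | add x y _ _ hx hy => exact v.map_add_le hx hy
  | mul x y _ _ hx hy => rw [map_mul]; exact mul_le_one' hx hy

/-- one sided LCT. -/
theorem lct_one [CharZero k] (D : ι → Derivation R Om Om) (c : ι → Om)
    (hk : ∀ i (a : k), D i (algebraMap k Om a) = 0) (h1 : ∀ i, D i (c i) = 1)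
    (h0 : ∀ i j, j ≠ i → D i (c j) = 0) {g : Om} (hg : g ≠ 0)
    (ha : IsAlgebraic (IntermediateField.adjoin k (Set.range c)) g) :
    ∃ N : ℕ, ∀ (v : Valuation Om G) (δ : G), (∀ a : k, a ≠ 0 → v (algebraMap k Om a) = 1) →
      (∀ j, v (c j) ≤ 1) → 1 ≤ δ →
      (∀ i, ∀ f ∈ Algebra.adjoin k (Set.range c), v (D i f) ≤ δ * v f) → 1 ≤ δ ^ N * v g := by
  have ha2 : IsAlgebraic (Algebra.adjoin k (Set.range c)) g :=
    IntermediateField.isAlgebraic_adjoin_iff.1 ha
  obtain ⟨t, ht, r, hr, he⟩ := ha2.exists_nonzero_eq_adjoin_mul (mem_nonZeroDivisors_of_ne_zero hg)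
  obtain ⟨r, hrm⟩ := r
  have hrm2 := hrm
  rw [Algebra.adjoin_range_eq_range_aeval] at hrm2
  obtain ⟨p, hp⟩ := hrm2
  have hp' : MvPolynomial.aeval c p = r := hp
  have hp0 : p ≠ 0 := fun h => hr (Subtype.ext (show r = 0 by rw [← hp', h, map_zero]))
  refine ⟨p.totalDegree, fun v δ hv hc hδ hD => ?_⟩
  rcases le_total 1 (v g) with hle | hle
  · exact one_le_mul (one_le_pow₀ hδ) hle
  have h2 := lct_poly D c hk h1 h0 v hv δ hδ hD _ p hp0 le_rfl
  refine h2.trans (mul_le_mul_right ?_ _)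
  have h3 : v t ≤ 1 := by
    clear he
    induction ht using Algebra.adjoin_induction with
    | mem x hx => rw [Set.mem_singleton_iff.1 hx]; exact hle
    | algebraMap a => exact lct_adjoin_le c v hv hc a.2
    | add x y _ _ hx hy => exact v.map_add_le hx hy
    | mul x y _ _ hx hy => rw [map_mul]; exact mul_le_one' hx hy
  have h4 : g * t = r := he
  rw [hp', ← h4, map_mul]
  exact mul_le_of_le_one_right' h3

/-- LCT for finitely many elements, both sides. -/
theorem lct [CharZero k] (D : ι → Derivation R Om Om) (c : ι → Om)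
    (hk : ∀ i (a : k), D i (algebraMap k Om a) = 0) (h1 : ∀ i, D i (c i) = 1)
    (h0 : ∀ i j, j ≠ i → D i (c j) = 0) (t : Finset Om)
    (ha : ∀ g ∈ t, IsAlgebraic (IntermediateField.adjoin k (Set.range c)) g) :
    ∃ N : ℕ, ∀ (v : Valuation Om G) (δ : G), (∀ a : k, a ≠ 0 → v (algebraMap k Om a) = 1) →
      (∀ j, v (c j) ≤ 1) → 1 ≤ δ →
      (∀ i, ∀ f ∈ Algebra.adjoin k (Set.range c), v (D i f) ≤ δ * v f) →
      ∀ g ∈ t, v g ≤ δ ^ N ∧ (g ≠ 0 → 1 ≤ δ ^ N * v g) := by
  classical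
  have key : ∀ g : Om, ∃ N : ℕ, g ∈ t → ∀ (v : Valuation Om G) (δ : G),
      (∀ a : k, a ≠ 0 → v (algebraMap k Om a) = 1) → (∀ j, v (c j) ≤ 1) → 1 ≤ δ →
      (∀ i, ∀ f ∈ Algebra.adjoin k (Set.range c), v (D i f) ≤ δ * v f) →
      v g ≤ δ ^ N ∧ (g ≠ 0 → 1 ≤ δ ^ N * v g) := by
    intro g
    by_cases hg : g ∈ t
    swap
    · exact ⟨0, fun h => absurd h hg⟩
    by_cases hz : g = 0
    · exact ⟨0, fun _ v δ _ _ _ _ => ⟨by simp [hz], fun h => absurd hz h⟩⟩
    obtain ⟨N1, H1⟩ := lct_one (G := G) D c hk h1 h0 hz (ha g hg)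
    obtain ⟨N2, H2⟩ := lct_one (G := G) D c hk h1 h0 (inv_ne_zero hz) (ha g hg).inv
    refine ⟨N1 + N2, fun _ v δ hv hc hδ hD => ⟨?_, fun _ => ?_⟩⟩
    · have h := H2 v δ hv hc hδ hD
      rw [map_inv₀, ← div_eq_mul_inv, one_le_div₀ ((v.pos_iff).2 hz)] at h
      exact h.trans (pow_le_pow_right₀ hδ (Nat.le_add_left _ _))
    · exact (H1 v δ hv hc hδ hD).trans
        (mul_le_mul_left (pow_le_pow_right₀ hδ (Nat.le_add_right _ _)) _)
  choose n hn using key
  refine ⟨t.sup n, fun v δ hv hc hδ hD g hg => ?_⟩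
  obtain ⟨h2, h3⟩ := hn g hg v δ hv hc hδ hD
  have h4 : δ ^ n g ≤ δ ^ t.sup n := pow_le_pow_right₀ hδ (Finset.le_sup hg)
  exact ⟨h2.trans h4, fun h => (h3 h).trans (mul_le_mul_left h4 _)⟩

/-- a derivation that kills a subfield kills everything algebraic over it. -/
theorem lct_der_zero_alg [CharZero Om] (D : Derivation R Om Om) (F : Subfield Om)
    (hF : ∀ f ∈ F, D f = 0) {y : Om} (hy : IsAlgebraic F y) : D y = 0 := by
  have hi := hy.isIntegral
  have hsep : (minpoly F y).Separable := (minpoly.irreducible hi).separable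
  have h1 := hsep.aeval_derivative_ne_zero (minpoly.aeval F y)
  have h2 := Log_der_eval D ((minpoly F y).map (algebraMap F Om)) y
  rw [Polynomial.eval_map_algebraMap, minpoly.aeval, map_zero, Polynomial.derivative_map,
    Polynomial.eval_map_algebraMap, Finset.sum_eq_zero, zero_add] at h2
  · exact (mul_eq_zero.1 h2.symm).resolve_left h1
  · intro i _
    have h3 : D (algebraMap F Om ((minpoly F y).coeff i)) = 0 := hF _ ((minpoly F y).coeff i).2
    rw [Polynomial.coeff_map, h3, zero_mul]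

/-- a derivation that kills a set kills the generated subfield. -/
theorem lct_der_zero_closure (D : Derivation R Om Om) (S : Set Om) (hS : ∀ f ∈ S, D f = 0)
    {y : Om} (hy : y ∈ Subfield.closure S) : D y = 0 := by
  induction hy using Subfield.closure_induction with
  | mem x hx => exact hS x hx
  | one => simp
  | add x y _ _ hx hy => simp [hx, hy]
  | neg x _ hx => simp [hx]
  | inv x _ hx => simp [Derivation.leibniz_inv, hx]
  | mul x y _ _ hx hy => simp [hx, hy]

/-- chain rule: any derivation killing `K0` is a combination of the derivations dual to `c`. -/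
theorem lct_chain [CharZero Om] [Fintype ι] (D : ι → Derivation R Om Om) (c : ι → Om)
    (h1 : ∀ i, D i (c i) = 1) (h0 : ∀ i j, j ≠ i → D i (c j) = 0) (K0 : Set Om)
    (hK : ∀ i, ∀ f ∈ K0, D i f = 0) (Da : Derivation R Om Om) (hKa : ∀ f ∈ K0, Da f = 0)
    {y : Om} (hy : IsAlgebraic (Subfield.closure (K0 ∪ Set.range c)) y) :
    Da y = ∑ j, Da (c j) * D j y := by
  classical
  have hE : ∀ z, (Da - ∑ j, Da (c j) • D j) z = Da z - ∑ j, Da (c j) * D j z := by
    intro z
    rw [Derivation.sub_apply]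
    congr 1
    induction (Finset.univ : Finset ι) using Finset.induction_on with
    | empty => simp
    | insert a s ha ih => rw [Finset.sum_insert ha, Finset.sum_insert ha, Derivation.add_apply, ih]; simp
  have h := lct_der_zero_alg (Da - ∑ j, Da (c j) • D j) _ (fun f hf =>
    lct_der_zero_closure _ _ ?_ hf) hy
  · rw [hE] at h
    exact sub_eq_zero.1 h
  · rintro f (hf | ⟨i, rfl⟩)
    · rw [hE, hKa f hf, Finset.sum_eq_zero, sub_zero]
      intro j _
      rw [hK j f hf, mul_zero]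
    · rw [hE, Finset.sum_eq_single i, h1, mul_one, sub_self]
      · intro j _ hj
        rw [h0 j i hj.symm, mul_zero]
      · intro h
        exact absurd (Finset.mem_univ i) h

/-- the fixed derivations `Da` are `δ ^ N`-log wherever the chart derivations are `δ`-log. -/
theorem lct_log [CharZero k] [Fintype ι] {ι' : Type*} [Fintype ι'] (D : ι → Derivation R Om Om)
    (c : ι → Om) (hk : ∀ i (a : k), D i (algebraMap k Om a) = 0) (h1 : ∀ i, D i (c i) = 1)
    (h0 : ∀ i j, j ≠ i → D i (c j) = 0) (Da : ι' → Derivation R Om Om)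
    (ha : ∀ l j, IsAlgebraic (IntermediateField.adjoin k (Set.range c)) (Da l (c j)))
    (S : Set Om) (hS : ∀ f ∈ Algebra.adjoin k (Set.range c), f ∈ S)
    (hch : ∀ l, ∀ y ∈ S, Da l y = ∑ j, Da l (c j) * D j y) :
    ∃ N : ℕ, ∀ (v : Valuation Om G) (δ : G), (∀ a : k, a ≠ 0 → v (algebraMap k Om a) = 1) →
      (∀ j, v (c j) ≤ 1) → 1 ≤ δ → (∀ i, ∀ f ∈ S, v (D i f) ≤ δ * v f) →
      ∀ l, ∀ f ∈ S, v (Da l f) ≤ δ ^ N * v f := by
  classical
  obtain ⟨N, H⟩ := lct (G := G) D c hk h1 h0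
    (Finset.univ.image fun p : ι' × ι => Da p.1 (c p.2)) (by
      intro g hg
      obtain ⟨p, -, rfl⟩ := Finset.mem_image.1 hg
      exact ha _ _)
  refine ⟨N + 1, fun v δ hv hc hδ hD l f hf => ?_⟩
  rw [hch l f hf]
  refine v.map_sum_le fun j _ => ?_
  rw [map_mul, pow_succ, mul_assoc]
  exact mul_le_mul' (H v δ hv hc hδ (fun i f hf => hD i f (hS f hf)) _
    (Finset.mem_image.2 ⟨(l, j), Finset.mem_univ _, rfl⟩)).1 (hD j f hf)

/-- LCT for tensor components: `Q = ∑ b l * a l` with `a l` in `L` independent over the constants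
of `L` and `b l` constants gives `v (b j) ≤ δ ^ N * v Q`, with `N` depending only on `a`, `c`. -/
theorem lct_comp [CharZero k] [Fintype ι] {ι' κ : Type*} [Fintype ι'] [Fintype κ]
    (D : ι → Derivation R Om Om)
    (c : ι → Om) (hk : ∀ i (a : k), D i (algebraMap k Om a) = 0) (h1 : ∀ i, D i (c i) = 1)
    (h0 : ∀ i j, j ≠ i → D i (c j) = 0) (Da : ι' → Derivation R Om Om) (L : Subfield Om)
    (hL : ∀ l, ∀ y ∈ L, Da l y ∈ L) (hcL : ∀ j, c j ∈ L)
    (ha : ∀ y ∈ L, IsAlgebraic (IntermediateField.adjoin k (Set.range c)) y)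
    (S : Set Om) (hS : ∀ f ∈ Algebra.adjoin k (Set.range c), f ∈ S)
    (hSa : ∀ l, ∀ y ∈ S, Da l y ∈ S)
    (hch : ∀ l, ∀ y ∈ S, Da l y = ∑ j, Da l (c j) * D j y)
    (a : κ → Om) (haL : ∀ j, a j ∈ L)
    (hind : ∀ b : κ → Om, (∀ j, b j ∈ L) → (∀ j l, Da l (b j) = 0) → ∑ j, b j * a j = 0 →
      ∀ j, b j = 0) :
    ∃ N : ℕ, ∀ (v : Valuation Om G) (δ : G), (∀ a : k, a ≠ 0 → v (algebraMap k Om a) = 1) →
      (∀ j, v (c j) ≤ 1) → 1 ≤ δ → (∀ i, ∀ f ∈ S, v (D i f) ≤ δ * v f) →
      ∀ b : κ → Om, (∀ j l, Da l (b j) = 0) → (∑ l, b l * a l) ∈ S →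
        ∀ j, v (b j) ≤ δ ^ N * v (∑ l, b l * a l) := by
  obtain ⟨N1, H1⟩ := lct_log (G := G) D c hk h1 h0 Da (fun l j => ha _ (hL l _ (hcL j))) S hS hch
  obtain ⟨t, N2, ht, H2⟩ := wron_val (G := G) Da L hL a haL hind
  obtain ⟨N3, H3⟩ := lct (G := G) D c hk h1 h0 t (fun g hg => ha g (ht g hg).1)
  refine ⟨N3 + N1 * N2, fun v δ hv hc hδ hD b hb hQ j => ?_⟩
  have h := H2 v S (δ ^ N1) (δ ^ N3) hSa (one_le_pow₀ hδ) (H1 v δ hv hc hδ hD)
    (fun x hx => (H3 v δ hv hc hδ (fun i f hf => hD i f (hS f hf)) x hx).1) b hb hQ j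
  rwa [← pow_mul, ← pow_add] at h

end Pool.Agent.Lib.MP_5c318e_ag
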