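import Pool.Agent.Lib.MP_5c318e_ag.Val
import Pool.Agent.Lib.MP_5c318e_ag.Jac0
import Pool.Agent.Lib.MP_5c318e_ag.Lct
import Pool.Agent.Lib.MP_5c318e_ag.Lift

/-! Section 2 on the context: the uniform bounds by the log discrepancy `A`. -/

namespace Pool.Agent.Lib.MP_5c318e_ag

open scoped Classical NNReal

variable {Om : Type} [Field Om] [Algebra ℂ Om]

theorem S5_cramer {i : Type*} [Fintype i] [DecidableEq i] (d : i → Derivation ℂ Om Om)
    {b : i → Om} (hb : Jac d b ≠ 0) (k : i) (y : Om) :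
    Jac d (Function.update b k y) = Jac d b * dual d b k y := by
  rw [jac_chain d hb]
  congr 1
  have : (Matrix.of fun a c => dual d b c (Function.update b k y a)) =
      (1 : Matrix i i Om).updateRow k fun c => dual d b c y := by
    ext a c
    by_cases h : a = k
    · subst h
      simp
    · simp [h, dual_self d hb, Matrix.one_apply]
  rw [Jac, this, ← Matrix.cramer_transpose_apply, Matrix.transpose_one, Matrix.cramer_one]
  rfl

theorem S5_jac_ne {i : Type*} [Fintype i] [DecidableEq i] (d : i → Derivation ℂ Om Om)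
    {b : i → Om} (hb : Jac d b ≠ 0) (k : i) : b k ≠ 0 := by
  intro h
  apply hb
  rw [Jac]
  refine Matrix.det_eq_zero_of_row_eq_zero k fun c => ?_
  simp [h]

theorem S5_acl_C0 : acl (C0 Om) ≤ C0 Om := by
  intro y hy
  have h1 : IsAlgebraic (C0 Om) y := mem_acl.1 hy
  let e : ℂ ≃+* C0 Om := (algebraMap ℂ Om).rangeRestrictFieldEquiv
  have : IsAlgClosed (C0 Om) := IsAlgClosed.of_ringEquiv ℂ _ e
  have h2 := (IsAlgClosed.degree_eq_one_of_irreducible (C0 Om) (minpoly.irreducible h1.isIntegral))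
  obtain ⟨c, hc⟩ := minpoly.mem_range_of_degree_eq_one _ _ h2
  exact hc ▸ c.2

theorem S5_li {κ : Type*} [Fintype κ] {b : κ → Om} :
    LinearIndependent (C0 Om) b ↔ LinearIndependent ℂ b := by
  rw [Fintype.linearIndependent_iff, Fintype.linearIndependent_iff]
  constructor
  · intro h g hg i
    have := h (fun i => ⟨algebraMap ℂ Om (g i), mem_C0.2 ⟨_, rfl⟩⟩) (by
      rw [← hg]
      exact Finset.sum_congr rfl fun i _ => (Algebra.smul_def _ _).symm) i
    exact (algebraMap ℂ Om).injective (by rw [map_zero]; exact congrArg Subtype.val this)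
  · intro h g hg i
    choose c hc using fun i => mem_C0.1 (g i).2
    have := h c (by
      rw [← hg]
      exact Finset.sum_congr rfl fun i _ => by rw [Algebra.smul_def, hc i]; rfl) i
    exact Subtype.ext (by rw [← hc i, this, map_zero]; rfl)

namespace Ctx0

variable (X : Ctx0 Om)

theorem S5_KpKb : X.Kp ≤ X.Kb := (le_acl _).trans X.aclKp.le

theorem S5_KbEb : X.Kb ≤ X.Eb := X.aclKp.ge.trans (acl_mono le_sup_right)

theorem S5_LbEb : acl X.L ≤ X.Eb := acl_mono le_sup_left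

theorem S5_C0L : C0 Om ≤ X.L := X.frA.le

theorem S5_algEx (y : Om) : y ∈ acl X.Ex := by
  refine acl_le (adj_le ?_ ?_) (X.frT.alg trivial)
  · exact X.S5_C0L.trans (le_sup_left.trans ((le_adj _ _).trans (le_acl _)))
  · rintro _ ⟨i | _ | j, rfl⟩
    · exact acl_mono (le_adj _ _) (X.S5_KbEb (le_acl _ (X.frK.mem i)))
    · exact le_acl _ (mem_adj _ rfl)
    · exact le_acl _ (le_adj _ _ ((le_sup_left : X.L ≤ X.E) (X.frA.mem j)))

theorem S5_dA_Kb (j : Fin X.n) {y : Om} (hy : y ∈ X.Kb) : X.dA j y = 0 := by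
  have := charZero_of_algebra (Om := Om)
  refine der_zero_acl _ ?_ (mem_acl.1 (acl_le X.frK.alg hy))
  rintro _ (h | ⟨i, rfl⟩)
  · exact X.frT.kill _ _ h
  · simpa using X.frT.dual (Sum.inr (some j)) (Sum.inl i)

theorem S5_dx_Eb {y : Om} (hy : y ∈ X.Eb) : X.dx y = 0 := by
  have := charZero_of_algebra (Om := Om)
  refine der_zero_alg _ X.E (fun c hc => ?_) (mem_acl.1 hy)
  have h1 : X.E ≤ consts X.dx := by
    refine sup_le (fun c hc => ?_) fun c hc => ?_
    · refine der_zero_acl _ ?_ (mem_acl.1 (X.frA.alg hc))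
      rintro _ (h | ⟨i, rfl⟩)
      · exact X.frT.kill _ _ h
      · simpa using X.frT.dual (Sum.inr none) (Sum.inr (some i))
    · refine der_zero_acl _ ?_ (mem_acl.1 (acl_le X.frK.alg (X.S5_KpKb hc)))
      rintro _ (h | ⟨i, rfl⟩)
      · exact X.frT.kill _ _ h
      · simpa using X.frT.dual (Sum.inr none) (Sum.inl i)
  exact h1 hc

theorem S5_dx_x : X.dx X.x = 1 := by simpa using X.frT.dual (Sum.inr none) (Sum.inr none)

theorem S5_trans : Transcendental X.E X.x := by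
  intro h
  have := X.S5_dx_Eb (mem_acl.2 h)
  rw [X.S5_dx_x] at this
  exact one_ne_zero this

theorem S5_dA_Lb (j : Fin X.n) {y : Om} (hy : y ∈ acl X.L) : X.dA j y ∈ acl X.L := by
  have := charZero_of_algebra (Om := Om)
  refine der_mem_alg _ (F0 := adj (C0 Om) (Set.range X.a))
    (adj_le (X.S5_C0L.trans (le_acl _)) ?_) (fun c hc => ?_) hy (mem_acl.1 (acl_le X.frA.alg hy))
  · rintro _ ⟨i, rfl⟩
    exact le_acl _ (X.frA.mem i)
  · refine der_mem_closure _ _ ?_ ?_ hc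
    · rintro _ (h | ⟨i, rfl⟩)
      · exact le_acl _ (X.S5_C0L h)
      · exact le_acl _ (X.frA.mem i)
    · rintro _ (h | ⟨i, rfl⟩)
      · rw [X.frA.kill _ _ h]
        exact zero_mem _
      · rw [X.frA.dual]
        split_ifs
        exacts [one_mem _, zero_mem _]

theorem S5_dA_Eb (j : Fin X.n) {y : Om} (hy : y ∈ X.Eb) : X.dA j y ∈ X.Eb := by
  have := charZero_of_algebra (Om := Om)
  refine der_mem_alg _ (F0 := X.E) (le_acl _) (fun c hc => ?_) hy (mem_acl.1 hy)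
  rw [E, sup_eq_adj] at hc
  refine der_mem_closure _ _ ?_ ?_ hc
  · rintro z (h | h)
    · exact X.S5_LbEb (le_acl _ h)
    · exact X.S5_KbEb (X.S5_KpKb h)
  · rintro z (h | h)
    · exact X.S5_LbEb (X.S5_dA_Lb j (le_acl _ h))
    · rw [X.S5_dA_Kb j (X.S5_KpKb h)]
      exact zero_mem _

theorem S5_jac_a : Jac X.dA X.a ≠ 0 := by
  rw [jac_self X.frA.dual]
  exact one_ne_zero

theorem S5_const {y : Om} (hy : y ∈ acl X.L) (h : ∀ j, X.dA j y = 0) : y ∈ C0 Om := by
  have := charZero_of_algebra (Om := Om)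
  exact S5_acl_C0 (mem_acl.2 (alg_of_der_zero X.dA X.frA.kill X.S5_jac_a
    (mem_acl.1 (acl_le X.frA.alg hy)) h))

theorem S5_alg_chart {c : Fin X.n → Om} (hc : ∀ j, c j ∈ acl X.L) (hJ : Jac X.dA c ≠ 0) {y : Om}
    (hy : y ∈ acl X.L) : IsAlgebraic (IntermediateField.adjoin (C0 Om) (Set.range c)) y := by
  have := charZero_of_algebra (Om := Om)
  have h := alg_of_jac X.dA X.frA.kill X.S5_jac_a hJ
    (fun j => mem_acl.1 (acl_le X.frA.alg (hc j))) (mem_acl.1 (acl_le X.frA.alg hy))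
  rw [Lift_closure] at h
  exact h

/-- A chart at a good valuation, with the derivations dual to it. -/
theorem S5_chart {v : RV Om} (hv : X.Good v) : ∃ c ∈ X.Cs, Jac X.dA c ≠ 0 ∧ (∀ j, v (c j) ≤ 1) ∧
    0 ≤ X.A v ∧ ∀ i, ∀ f ∈ X.Eb, v (dual X.dA c i f) ≤ ex (X.A v) * v f := by
  obtain ⟨c, hc, h1, h2⟩ := X.chart v hv.1
  have hJ : Jac X.dA c ≠ 0 := by
    intro h
    rw [h, map_zero, zero_pow X.m0pos.ne'] at h2
    exact X.g0ne (v.zero_iff.1 (le_antisymm h2 zero_le))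
  have hcE : ∀ j, c j ∈ X.Eb := fun j => X.S5_LbEb (X.CsL c hc j)
  have hw : ∀ j, 0 ≤ w v (c j) := fun j => (w_nonneg_iff (S5_jac_ne _ hJ j)).2 (h1 j)
  have h3 : w v (Jac X.dA c) ≤ w v X.g0 / X.m0 := by
    have := (le_pow_iff_ge hJ X.m0).1 h2 X.g0ne
    rw [le_div_iff₀ (by exact_mod_cast X.m0pos)]
    linarith
  have h4 : X.lE v ≤ w v (Jac X.dA c) - ∑ j, w v (c j) := csInf_le hv.2.1 ⟨c, hcE, hJ, rfl⟩
  have h5 : 0 ≤ ∑ j, w v (c j) := Finset.sum_nonneg fun j _ => hw j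
  refine ⟨c, hc, hJ, h1, by unfold A; linarith, fun i f hf => ?_⟩
  by_cases hf0 : f = 0
  · simp [hf0]
  rw [le_ex_mul_iff hf0]
  intro hD
  have hJ' : Jac X.dA (Function.update c i f) ≠ 0 := by
    rw [S5_cramer _ hJ]
    exact mul_ne_zero hJ hD
  have h6 : X.lE v ≤ w v (Jac X.dA (Function.update c i f)) -
      ∑ j, w v (Function.update c i f j) := by
    refine csInf_le hv.2.1 ⟨_, fun j => ?_, hJ', rfl⟩
    by_cases h : j = i
    · subst h
      simpa using hf
    · simpa [h] using hcE j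
  have h7 : w v f ≤ ∑ j, w v (Function.update c i f j) := by
    rw [← Finset.add_sum_erase _ _ (Finset.mem_univ i), Function.update_self]
    refine le_add_of_nonneg_right (Finset.sum_nonneg fun j hj => ?_)
    rw [Function.update_of_ne (Finset.ne_of_mem_erase hj)]
    exact hw j
  rw [S5_cramer _ hJ, w_mul hJ hD] at h6
  unfold A
  linarith

theorem S5_adjoin_Eb {c : Fin X.n → Om} (hc : ∀ j, c j ∈ acl X.L) :
    ∀ f ∈ Algebra.adjoin (C0 Om) (Set.range c), f ∈ (X.Eb : Set Om) := by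
  intro f hf
  induction hf using Algebra.adjoin_induction with
  | mem x hx =>
    obtain ⟨j, rfl⟩ := hx
    exact X.S5_LbEb (hc j)
  | algebraMap r => exact X.S5_LbEb (le_acl _ (X.S5_C0L r.2))
  | add x y _ _ hx hy => exact add_mem hx hy
  | mul x y _ _ hx hy => exact mul_mem hx hy

theorem S5_unif (p : ℕ → RV Om → Prop) (hp : ∀ N N' v, X.Good v → N ≤ N' → p N v → p N' v)
    (h : ∀ c ∈ X.Cs, Jac X.dA c ≠ 0 → ∃ N, ∀ v, X.Good v → (∀ j, v (c j) ≤ 1) →
      (∀ i, ∀ f ∈ X.Eb, v (dual X.dA c i f) ≤ ex (X.A v) * v f) → p N v) :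
    ∃ N, ∀ v, X.Good v → p N v := by
  choose! N hN using h
  refine ⟨X.Cs.sup N, fun v hv => ?_⟩
  obtain ⟨c, hc, hJ, h1, -, h2⟩ := X.S5_chart hv
  exact hp _ _ v hv (Finset.le_sup hc) (hN c hc hJ v hv h1 h2)

theorem S5_A_nonneg {v : RV Om} (hv : X.Good v) : 0 ≤ X.A v := by
  obtain ⟨c, -, -, -, h, -⟩ := X.S5_chart hv
  exact h

/-- LCT for elements algebraic over `L`. -/
theorem S5_lct {g : Om} (hg : g ∈ acl X.L) :
    ∃ N : ℕ, ∀ v, X.Good v → v g ≤ ex (X.A v) ^ N := by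
  have := charZero_of_algebra (Om := Om)
  refine X.S5_unif (fun N v => v g ≤ ex (X.A v) ^ N) (fun N N' v hv hN h =>
    h.trans (pow_le_pow_right₀ (one_le_ex (X.S5_A_nonneg hv)) hN)) fun c hc hJ => ?_
  obtain ⟨N, hN⟩ := lct (k := C0 Om) (G := ℝ≥0) (dual X.dA c) c
    (fun i a => dual_zero _ _ _ fun j => X.frA.kill j _ a.2)
    (fun i => by rw [dual_self _ hJ, if_pos rfl])
    (fun i j h => by rw [dual_self _ hJ, if_neg h]) {g} (fun g' hg' => by
      rw [Finset.mem_singleton.1 hg']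
      exact X.S5_alg_chart (X.CsL c hc) hJ hg)
  exact ⟨N, fun v hv h1 h2 => (hN v _ (fun a ha => hv.1 a a.2 fun h => ha (Subtype.ext h)) h1
    (one_le_ex (X.S5_A_nonneg hv)) (fun i f hf => h2 i f (X.S5_adjoin_Eb (X.CsL c hc) f hf)) g
    (Finset.mem_singleton_self g)).1⟩

/-- LCT for the components in `Kb` of a sum of products. -/
theorem S5_comp {κ : Type} [Fintype κ] (a : κ → Om) (ha : ∀ i, a i ∈ acl X.L)
    (hi : LinearIndependent (C0 Om) a) :
    ∃ N : ℕ, ∀ v, X.Good v → ∀ b : κ → Om, (∀ i, b i ∈ X.Kb) →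
      ∀ l, v (b l) ≤ ex (X.A v) ^ N * v (∑ i, a i * b i) := by
  have := charZero_of_algebra (Om := Om)
  refine X.S5_unif (fun N v => ∀ b : κ → Om, (∀ i, b i ∈ X.Kb) →
      ∀ l, v (b l) ≤ ex (X.A v) ^ N * v (∑ i, a i * b i)) (fun N N' v hv hN h b hb l =>
    (h b hb l).trans (mul_le_mul_left
      (pow_le_pow_right₀ (one_le_ex (X.S5_A_nonneg hv)) hN) _)) fun c hc hJ => ?_
  obtain ⟨N, hN⟩ := lct_comp (k := C0 Om) (G := ℝ≥0) (dual X.dA c) c
    (fun i a => dual_zero _ _ _ fun j => X.frA.kill j _ a.2)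
    (fun i => by rw [dual_self _ hJ, if_pos rfl])
    (fun i j h => by rw [dual_self _ hJ, if_neg h]) X.dA (acl X.L)
    (fun l y hy => X.S5_dA_Lb l hy) (X.CsL c hc)
    (fun y hy => X.S5_alg_chart (X.CsL c hc) hJ hy) X.Eb (X.S5_adjoin_Eb (X.CsL c hc))
    (fun l y hy => X.S5_dA_Eb l hy)
    (fun l y _ => by
      rw [eq_sum_dual X.dA hJ l y]
      exact Finset.sum_congr rfl fun _ _ => mul_comm _ _) a ha
    (fun b hb h0 hs j => by
      have h1 := Fintype.linearIndependent_iff.1 hi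
        (fun j => ⟨b j, X.S5_const (hb j) (h0 j)⟩) hs j
      exact congrArg Subtype.val h1)
  refine ⟨N, fun v hv h1 h2 b hb l => ?_⟩
  have he : ∑ i, a i * b i = ∑ i, b i * a i := Finset.sum_congr rfl fun _ _ => mul_comm _ _
  rw [he]
  exact hN v _ (fun a ha => hv.1 a a.2 fun h => ha (Subtype.ext h)) h1
    (one_le_ex (X.S5_A_nonneg hv)) h2 b (fun j l => X.S5_dA_Kb l (hb j))
    (sum_mem fun i _ => mul_mem (X.S5_KbEb (hb i)) (X.S5_LbEb (ha i))) l

end Ctx0

end Pool.Agent.Lib.MP_5c318e_ag
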