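import Pool.Agent.Lib.MP_5c318e_ag.Pts
import Pool.Agent.Lib.MP_5c318e_ag.Ht2
import Pool.Agent.Lib.MP_5c318e_ag.Wron
import Pool.Agent.Lib.MP_5c318e_ag.Sec5A

/-! Neutral types (a) and (b) on the context. -/

namespace Pool.Agent.Lib.MP_5c318e_ag

open scoped Classical NNReal

variable {Om : Type} [Field Om] [Algebra ℂ Om]

namespace Ctx0

variable (X : Ctx0 Om)

theorem ht1 {v : RV Om} (hL : Triv v X.L) (hK : Triv v X.Kb) (hE : ¬ Triv v X.E)
    (c : Fin X.n → Om) (j : Fin X.n) (hc : ∀ i, c i ∈ acl X.L)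
    (hi : RInd v X.Kb fun i : {i // i ≠ j} => c i) :
    ∃ P : X.T, Prime P ∧ ∀ u : X.T, v u < 1 ↔ P ∣ u := by
  have := X.ufd
  obtain ⟨t, htE, ht0, ht⟩ := not_triv_iff.1 hE
  have hC : C0 Om ≤ X.Kb := X.frK.le.trans (le_acl _)
  refine Ht2 v (C0 Om) X.Kp X.L X.Kb (acl X.L) X.c0Kp X.frA.le X.Kp_le (le_acl _)
    (fun x hx => hK.le hx) (fun x hx => hL.toAcl.le hx) X.a X.s X.frA.mem
    (fun i => le_acl _ (X.frK.mem i)) (fun g hg => mem_acl.1 (acl_le X.frA.alg hg))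
    (fun g hg => mem_acl.1 (acl_le X.frK.alg hg))
    (Sum.elim X.s fun i : {i // i ≠ j} => c i)
    (RInd.sum_of_base (hK.rind hC (fun i => le_acl _ (X.frK.mem i)) X.frK.ind) X.Kb hC
      (fun i => le_acl _ (X.frK.mem i)) hi) ?_ ?_ t htE ht0 ht.ne
  · rintro (i | i)
    · exact Or.inr (le_acl _ (X.frK.mem i))
    · exact Or.inl (hc i)
  · have := j.pos
    simp only [Fintype.card_fin, Fintype.card_sum, ne_eq, Fintype.card_subtype_compl,
      Fintype.card_unique]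
    omega

theorem Ht1C_dK_Kb (i : Fin X.r) {y : Om} (hy : y ∈ X.Kb) : X.dK i y ∈ X.Kb := by
  have := charZero_of_algebra (Om := Om)
  have hs : (C0 Om : Set Om) ∪ Set.range X.s ⊆ X.Kb := by
    rintro _ (h | ⟨i, rfl⟩)
    · exact le_acl _ (X.frK.le h)
    · exact le_acl _ (X.frK.mem i)
  refine der_mem_alg _ (F0 := adj (C0 Om) (Set.range X.s)) (Subfield.closure_le.2 hs)
    (fun c hc => der_mem_closure _ _ hs ?_ hc) hy (mem_acl.1 (acl_le X.frK.alg hy))
  rintro _ (h | ⟨l, rfl⟩)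
  · rw [X.frK.kill _ _ h]
    exact zero_mem _
  · rw [X.frK.dual]
    split_ifs
    exacts [one_mem _, zero_mem _]

theorem Ht1C_const {y : Om} (hy : y ∈ X.Kb) (h : ∀ j, X.dK j y = 0) : y ∈ C0 Om := by
  have := charZero_of_algebra (Om := Om)
  exact S5_acl_C0 (mem_acl.2 (alg_of_der_zero X.dK X.frK.kill X.frK.jac_ne
    (mem_acl.1 (acl_le X.frK.alg hy)) h))

theorem typeB [IsAlgClosed Om] {v : RV Om} (hK : Triv v X.Kb) (hL : ¬ Triv v X.L)
    (c : Fin X.n → Om) (j : Fin X.n) (hc : ∀ i, c i ∈ acl X.L)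
    (hi : RInd v X.Kb fun i : {i // i ≠ j} => c i) : X.TypeB v := by
  have := charZero_of_algebra (Om := Om)
  obtain ⟨t, htL, ht0, ht⟩ := not_triv_iff.1 hL
  have hC : C0 Om ≤ X.Kb := X.frK.le.trans (le_acl _)
  set y : Fin X.r ⊕ {i // i ≠ j} → Om := Sum.elim X.s fun i : {i // i ≠ j} => c i with hy
  have hyR : RInd v (C0 Om) y :=
    RInd.sum_of_base (hK.rind hC (fun i => le_acl _ (X.frK.mem i)) X.frK.ind) X.Kb hC
      (fun i => le_acl _ (X.frK.mem i)) hi
  set F : Subfield Om := adj (C0 Om) (insert t (Set.range y)) with hF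
  have hlog : ∀ i, ∀ z ∈ (acl F : Set Om), v (X.dK i z) ≤ 1 * v z := fun i z hz =>
    LOG v hK.hv _ 1 F (fun f hf => gauss_log hyR ht _ (X.frK.kill i)
      (by rw [X.dK_L i (le_acl _ htL), map_zero]; exact zero_le) (by
        rintro (l | l)
        · change v (X.dK i (X.s l)) ≤ 1
          rw [X.frK.dual]
          split_ifs <;> simp
        · change v (X.dK i (c l)) ≤ 1
          rw [X.dK_L i (hc l), map_zero]
          exact zero_le) hf) z (mem_acl.1 hz)
  have hst : ∀ i, ∀ z ∈ (acl F : Set Om), X.dK i z ∈ (acl F : Set Om) := fun i z hz =>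
    der_mem_alg _ (le_acl F) (fun f hf => der_mem_closure _ _
      (Subfield.subset_closure.trans (le_acl F)) (by
        rintro _ (h | rfl | ⟨l | l, rfl⟩)
        · rw [X.frK.kill _ _ h]
          exact zero_mem _
        · rw [X.dK_L i (le_acl _ htL)]
          exact zero_mem _
        · change X.dK i (X.s l) ∈ acl F
          rw [X.frK.dual]
          split_ifs
          exacts [one_mem _, zero_mem _]
        · change X.dK i (c l) ∈ acl F
          rw [X.dK_L i (hc l)]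
          exact zero_mem _) hf) hz (mem_acl.1 hz)
  have hKF : X.Kb ≤ acl F := acl_le (X.frK.alg.trans (acl_mono (adj_le (le_adj _ _) (by
    rintro _ ⟨l, rfl⟩
    exact mem_adj _ (Or.inr ⟨Sum.inl l, rfl⟩)))))
  have hLF : X.L ≤ acl F := by
    have h1 : AlgebraicIndependent (C0 Om) (Function.update c j t) := by
      refine indep_of_adapted (v := v) (i0 := j) (by simpa using ht0) (by simpa using ht) ?_
      have : (fun l : {l // l ≠ j} => Function.update c j t l) = fun l : {l // l ≠ j} => c l :=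
        funext fun l => Function.update_of_ne l.2 _ _
      rw [this]
      exact hi.anti hC
    intro g hg
    have h2 := Trd_full (a := X.a) h1 le_rfl (fun l => mem_acl.1 (acl_le X.frA.alg (by
      by_cases hl : l = j
      · subst hl
        simpa using le_acl _ htL
      · simpa [hl] using hc l))) (mem_acl.1 (X.frA.alg hg))
    refine acl_mono (adj_le (le_adj _ _) ?_) (mem_acl.2 h2)
    rintro _ ⟨l, rfl⟩
    by_cases hl : l = j
    · subst hl
      rw [Function.update_self]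
      exact mem_adj _ (Or.inl rfl)
    · rw [Function.update_of_ne hl]
      exact mem_adj _ (Or.inr ⟨Sum.inr ⟨l, hl⟩, rfl⟩)
  intro m a b ha hb hind i
  obtain ⟨T, N, hT, H⟩ := wron_val (G := ℝ≥0) X.dK X.Kb (fun i y hy => X.Ht1C_dK_Kb i hy) b
    (fun l => X.Kp_le (hb l)) (fun k hk h0 hs l => congrArg Subtype.val
      (Fintype.linearIndependent_iff.1 hind (fun l => ⟨k l, X.Ht1C_const (hk l) (h0 l)⟩) hs l))
  have := H v (acl F) 1 1 hst le_rfl hlog (fun x hx => hK.le (hT x hx).1) a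
    (fun l i => X.dK_L i (le_acl _ (ha l)))
    (sum_mem fun l _ => mul_mem (hLF (ha l)) (hKF (X.Kp_le (hb l)))) i
  simpa using this

theorem Ht1C_E_le : X.E ≤ Subfield.closure (X.T : Set Om) :=
  sup_le (fun _ h => Subfield.subset_closure (Subring.subset_closure (Or.inl h)))
    fun _ h => Subfield.subset_closure (Subring.subset_closure (Or.inr h))

theorem agree_E {v v' : RV Om} (h1 : ∀ u : X.T, v u ≤ 1) (h1' : ∀ u : X.T, v' u ≤ 1) {P : X.T}
    (hP : Prime P) (h : ∀ u : X.T, v u < 1 ↔ P ∣ u) (h' : ∀ u : X.T, v' u < 1 ↔ P ∣ u) :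
    ∃ (l : ℝ) (hl : 0 < l), ∀ y ∈ X.E, v y = vpow v' l hl y := by
  have := X.ufd
  obtain ⟨r, hr, H⟩ := Ht1_scale X.T P hP v' v (fun u hu => h1' ⟨u, hu⟩) (fun u hu => h1 ⟨u, hu⟩)
    ((h' P).2 dvd_rfl) ((h P).2 dvd_rfl) (fun u hu => (h' u).1 hu) fun u hu => (h u).1 hu
  exact ⟨r, hr, fun y hy => (H y (X.Ht1C_E_le hy)).symm⟩

/-! LCT in the additive shapes. -/

theorem lctL {g : Om} (hg : g ∈ acl X.L) :
    ∃ C : ℝ, 0 ≤ C ∧ ∀ v, X.Good v → Ge v g (- (C * X.A v)) := by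
  obtain ⟨N, hN⟩ := X.S5_lct hg
  exact ⟨N, Nat.cast_nonneg N, fun v hv => le_ex_iff.1 (ex_pow _ N ▸ hN v hv)⟩

theorem lctK {m : ℕ} (a : Fin m → Om) (ha : ∀ i, a i ∈ X.L) (hi : LinearIndependent (C0 Om) a) :
    ∃ C : ℝ, 0 ≤ C ∧ ∀ v, X.Good v → ∀ b : Fin m → Om, (∀ i, b i ∈ X.Kb) →
      ∀ l, v (b l) ≤ ex (C * X.A v) * v (∑ i, a i * b i) := by
  obtain ⟨N, hN⟩ := X.S5_comp a (fun i => le_acl _ (ha i)) hi
  exact ⟨N, Nat.cast_nonneg N, fun v hv b hb l => ex_pow _ N ▸ hN v hv b hb l⟩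

end Ctx0

end Pool.Agent.Lib.MP_5c318e_ag
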