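import Pool.Agent.Lib.MP_5c318e_ag.Hpoly
import Pool.Agent.Lib.MP_5c318e_ag.KodG
import Pool.Agent.Lib.MP_5c318e_ag.SprC

/-! Ratios of regular forms on the geometric generic fibre are algebraic over `Q Kb`. -/

namespace Pool.Agent.Lib.MP_5c318e_ag

variable {Om : Type} [Field Om] [Algebra ℂ Om] [IsAlgClosed Om]

namespace Ctx

variable (X : Ctx Om)

theorem kodF {m : ℕ} (hm : 0 < m) {φ ψ : Om} (hφ : X.RegF m φ) (hψ : X.RegF m ψ) :
    φ / ψ ∈ acl (X.Q ⊔ X.Kb) := by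
  have _ := hm
  exact X.kodF_of X.s5h (fun _ _ h1 h2 => X.hpoly h1 h2) hφ hψ

end Ctx

end Pool.Agent.Lib.MP_5c318e_ag
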