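import Pool.Agent.Lib.MP_5c318e_ag.KodG
import Pool.Agent.Lib.MP_5c318e_ag.Hpoly
import Pool.Agent.Lib.MP_5c318e_ag.Var7
import Pool.Agent.Lib.MP_5c318e_ag.SprC

/-! Sections 6 and 7 without hypotheses. -/

namespace Pool.Agent.Lib.MP_5c318e_ag

variable {Om : Type} [Field Om] [Algebra ℂ Om] [IsAlgClosed Om]

theorem Ctx.kodF (X : Ctx Om) {m : ℕ} (_hm : 0 < m) {φ ψ : Om} (hφ : X.RegF m φ)
    (hψ : X.RegF m ψ) : φ / ψ ∈ acl (X.Q ⊔ X.Kb) :=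
  X.kodF_of X.s5h (fun _ _ h1 h2 => X.hpoly h1 h2) hφ hψ

theorem Ctx.var7 (X : Ctx Om) :
    ∃ S : Finset Om, X.Mb = adj X.Kb S ∧ LD X.K0 (adj X.K0 S) X.Kb :=
  X.var7_H X.s5h

end Pool.Agent.Lib.MP_5c318e_ag
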