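import Pool.Agent.Lib.MP_5c318e_ag.Bridge2
import Pool.Agent.Lib.MP_5c318e_ag.RamB

/-! Construction of the working context from the hypotheses of the theorem. -/

namespace Pool.Agent.Lib.MP_5c318e_ag

open scoped Classical NNReal

variable {Om : Type} [Field Om] [Algebra ℂ Om]

omit [Algebra ℂ Om] in
/-- a finite transcendence basis inside a subfield -/
theorem mk_basis {k : Subfield Om} (F : Subfield Om) (hfin : trk k (F : Set Om) ≠ ⊤) :
    ∃ (r : ℕ) (s : Fin r → Om), (∀ i, s i ∈ F) ∧ AlgebraicIndependent k s ∧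
      F ≤ acl (adj k (Set.range s)) := by
  obtain ⟨r, hr⟩ := ENat.ne_top_iff_exists.1 hfin
  obtain ⟨s, hs, hi⟩ := le_trk_iff.1 hr.le
  refine ⟨r, s, hs, hi, fun y hy => mem_acl.2 (Trd_mem_closure.1 ?_)⟩
  have hb : (AlgebraicIndependent.matroid k Om).IsBasis (Set.range s) (F : Set Om) := by
    refine (Trd_indep hi).isBasis_of_eRk_ge (Set.finite_range s) ?_ ?_
    · rintro _ ⟨i, rfl⟩; exact hs i
    · have := trk_range hi
      rw [Fintype.card_fin, hr] at this
      exact this.ge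
  exact hb.subset_closure hy

theorem mk_indep_iff {ι : Type} {b : ι → Om} :
    AlgebraicIndependent (C0 Om) b ↔ AlgebraicIndependent ℂ b :=
  Trd_map_iff (RingHom.id Om) (k := C0 Om) (fun _ => mem_C0) (u := b)

theorem mk_frame {F : Subfield Om} {ι : Type} [DecidableEq ι] {b : ι → Om} (hle : C0 Om ≤ F)
    (hb : ∀ i, b i ∈ F) (hi : AlgebraicIndependent (C0 Om) b)
    (ha : F ≤ acl (adj (C0 Om) (Set.range b))) :
    ∃ D : ι → Derivation ℂ Om Om, Frame (C0 Om) F D b := by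
  obtain ⟨D, hD⟩ := der_dual_exists (mk_indep_iff.1 hi)
  refine ⟨D, le_rfl, hle, hb, hi, ha, fun i c hc => ?_, hD⟩
  obtain ⟨a, rfl⟩ := mem_C0.1 hc
  exact (D i).map_algebraMap a

omit [Algebra ℂ Om] in
theorem mk_option {k E : Subfield Om} (hk : k ≤ E) {ι : Type} {a : ι → Om} (haE : ∀ j, a j ∈ E)
    (ha : AlgebraicIndependent k a) {x : Om} (hx : Transcendental E x) :
    AlgebraicIndependent k fun o : Option ι => o.elim x a := by
  have h1 : AlgebraicIndependent E fun _ : Unit => x := algebraicIndependent_unique_type_iff.2 hx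
  have h2 := Trd_sum hk ha haE h1
  have h3 := h2.comp (fun o : Option ι => o.elim (Sum.inl ()) Sum.inr) (by
    rintro (_ | i) (_ | j) h <;> simp_all)
  have e : (fun o : Option ι => o.elim x a) =
      Sum.elim (fun _ : Unit => x) a ∘ fun o : Option ι => o.elim (Sum.inl ()) Sum.inr := by
    funext o; cases o <;> rfl
  rw [e]; exact h3

/-- the context from subfield data -/
theorem mk_sub [IsAlgClosed Om] {K M Kp L L1 N : Subfield Om} {x0 : Om} (cK : C0 Om ≤ K)
    (cL : C0 Om ≤ L) (cKp : C0 Om ≤ Kp) (KM : K ≤ M) (algM : ∀ y : Om, y ∈ acl M)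
    (fgM : ∃ S : Finset Om, M = adj (C0 Om) S) (aclKp : acl Kp = acl K) (LL1 : L ≤ L1)
    (L1a : L1 ≤ acl L) (L1M : L1 ≤ M ⊔ acl K)
    (hfree : ∀ (n : ℕ) (a : Fin n → Om), (∀ i, a i ∈ L) → AlgebraicIndependent (C0 Om) a →
      AlgebraicIndependent Kp a)
    (hx : Transcendental (L ⊔ Kp : Subfield Om) x0) (ExN : adj (L ⊔ Kp) {x0} ≤ N)
    (algN : N ≤ acl (adj (L ⊔ Kp) {x0}))
    (finN : ∃ θ ∈ N, N = adj (adj (L ⊔ Kp) {x0}) {θ})
    (norN : ∀ g : Om ≃ₐ[adj (L ⊔ Kp) {x0}] Om, ∀ y ∈ N, g y ∈ N)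
    (NM : N ⊔ acl K = M ⊔ acl K)
    (ufd : UniqueFactorizationMonoid (Subring.closure ((L : Set Om) ∪ Kp)))
    {FK : Type} [Field FK] [Algebra ℂ FK] {ψK : FK →+* Om} (EK : Emb ℂ ψK (C0 Om) K)
    (hY : kod ℂ FK ≠ ⊥)
    {FL : Type} [Field FL] [Algebra ℂ FL] {ψL : FL →+* Om} (EL : Emb ℂ ψL (C0 Om) L1)
    (hA : HasRegularForm ℂ FL) :
    ∃ X : Ctx0 Om, X.K = K ∧ X.M = M ∧ X.L = L ∧ X.Kp = Kp ∧ X.N = N := by
  have := charZero_of_algebra (Om := Om)
  have hKb : ∀ z : Om, acl K ≤ acl (adj (L ⊔ Kp) {z}) := fun z => by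
    rw [← aclKp]; exact acl_mono (le_sup_right.trans (le_adj _ _))
  have halg0 : ∀ y : Om, y ∈ acl (adj (L ⊔ Kp) {x0}) := fun y => by
    refine acl_le (le_sup_left.trans (NM.ge.trans (sup_le algN (hKb x0)))) (algM y)
  obtain ⟨n0, R, e, hadj, hx', hram⟩ := exists_Ram hx halg0 ExN finN norN
  generalize (x0 - n0)⁻¹ = x at hadj hx' hram
  rw [← hadj] at ExN finN norN halg0
  have hfin : ∀ F : Subfield Om, trk (C0 Om) (F : Set Om) ≠ ⊤ := fun F => by
    obtain ⟨S, hS⟩ := fgM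
    refine ne_top_of_le_ne_top S.finite_toSet.encard_lt_top.ne
      ((trk_le_of_alg fun y _ => ?_).trans (trk_le_encard _ _))
    have := algM y
    rw [hS] at this
    exact mem_acl.1 this
  obtain ⟨r, s, hs, his, has⟩ := mk_basis K (hfin K)
  obtain ⟨n, a, ha, hia, haa⟩ := mk_basis L (hfin L)
  obtain ⟨r', u, hu, hiu, hau⟩ := mk_basis M (hfin M)
  have h1 : AlgebraicIndependent Kp fun o : Option (Fin n) => o.elim x a :=
    mk_option le_sup_right (fun j => (le_sup_left : L ≤ L ⊔ Kp) (ha j)) (hfree n a ha hia) hx'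
  have h2 : AlgebraicIndependent (acl Kp) fun o : Option (Fin n) => o.elim x a :=
    h1.algebraicClosure
  rw [aclKp] at h2
  have h3 := (Trd_sum (cK.trans (le_acl K)) his (fun i => le_acl K (hs i)) h2).comp
    Sum.swap Sum.swap_leftInverse.injective
  have hb : AlgebraicIndependent (C0 Om) (Sum.elim s fun o : Option (Fin n) => o.elim x a) := by
    have e1 : (Sum.elim s fun o : Option (Fin n) => o.elim x a) =
        (Sum.elim (fun o : Option (Fin n) => o.elim x a) s) ∘ Sum.swap := by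
      funext o; cases o <;> rfl
    rw [e1]; exact h3
  have hall : ∀ y : Om, y ∈ acl (adj (C0 Om)
      (Set.range (Sum.elim s fun o : Option (Fin n) => o.elim x a))) := fun y => by
    refine acl_le (adj_le (sup_le (haa.trans (acl_mono (adj_le (le_adj _ _) ?_)))
      ((le_acl Kp).trans (aclKp.le.trans (acl_le (has.trans
        (acl_mono (adj_le (le_adj _ _) ?_))))))) ?_) (halg0 y)
    · rintro _ ⟨j, rfl⟩; exact mem_adj _ ⟨Sum.inr (some j), rfl⟩
    · rintro _ ⟨j, rfl⟩; exact mem_adj _ ⟨Sum.inl j, rfl⟩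
    · rintro _ rfl; exact le_acl _ (mem_adj _ ⟨Sum.inr none, rfl⟩)
  obtain ⟨d, frT⟩ := mk_frame (F := ⊤) le_top (fun _ => trivial) hb fun y _ => hall y
  have frK : Frame (C0 Om) K (fun i => d (Sum.inl i)) s :=
    ⟨le_rfl, cK, hs, his, has, fun i => frT.kill _, fun j i => by
      have := frT.dual (Sum.inl j) (Sum.inl i)
      simpa using this⟩
  have frA : Frame (C0 Om) L (fun j => d (Sum.inr (some j))) a :=
    ⟨le_rfl, cL, ha, hia, haa, fun i => frT.kill _, fun j i => by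
      have := frT.dual (Sum.inr (some j)) (Sum.inr (some i))
      simpa using this⟩
  have hcard : Fintype.card (Fin r ⊕ Option (Fin n)) = r' := by
    have e1 := card_le_trk hb (S := Set.range u) fun i => mem_acl.1 (acl_le hau (algM _))
    have e2 := card_le_trk hiu fun i => mem_acl.1 (hall (u i))
    rw [trk_range hiu, Fintype.card_fin] at e1
    rw [trk_range hb, Fintype.card_fin] at e2
    exact le_antisymm (by exact_mod_cast e1) (by exact_mod_cast e2)
  let q : (Fin r ⊕ Option (Fin n)) ≃ Fin r' := Fintype.equivFinOfCardEq hcard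
  obtain ⟨dM, frM⟩ := mk_frame (F := M) (b := u ∘ q) (cK.trans KM) (fun i => hu _)
    (hiu.comp q q.injective) (by rw [q.surjective.range_comp]; exact hau)
  obtain ⟨⟨mK, mKpos, η, ηK, ηne, ηreg⟩, -⟩ := EK.kod_le frK hY
  have hMb : ∀ g : Om ≃ₐ[adj (L ⊔ Kp) {x}] Om, ∀ y ∈ L1, g y ∈ M ⊔ acl K := fun g y hy => by
    have h4 : N ⊔ acl K ≤ (M ⊔ acl K).comap (g : Om →+* Om) := by
      refine sup_le (fun z hz => NM.le ((le_sup_left : N ≤ N ⊔ acl K) (norN g z hz)))
        fun z hz => (le_sup_right : acl K ≤ M ⊔ acl K) ?_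
      rw [← aclKp] at hz ⊢
      exact Br_acl_aut (le_sup_right.trans (le_adj _ _)) g hz
    exact h4 (NM.ge (L1M hy))
  obtain ⟨m0, m0pos, g0, g0ne, g0E, g0L, Cs, CsM, CsL, chart⟩ :=
    EL.charts frA LL1 L1a hA le_sup_left hx' halg0 hMb
  exact ⟨⟨r, n, s, a, x, K, M, Kp, L, N, d, frT, frK, frA, u ∘ q, dM, frM, KM, algM, fgM, cKp,
    aclKp, ExN, finN, norN, NM, ufd, m0, m0pos, g0, g0ne, g0E, g0L, Cs, CsM, CsL, chart, mK, mKpos,
    η, ηne, ηK, ηreg, R, e, hram⟩, rfl, rfl, rfl, rfl, rfl⟩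

/-! ### Intermediate fields -/

open IntermediateField

theorem mk_c0 (F : IntermediateField ℂ Om) : C0 Om ≤ F.toSubfield := fun y hy => by
  obtain ⟨c, rfl⟩ := mem_C0.1 hy
  exact F.algebraMap_mem c

theorem mk_emb (F : IntermediateField ℂ Om) :
    Emb ℂ (algebraMap F Om) (C0 Om) F.toSubfield :=
  ⟨fun _ => mem_C0, fun y => ⟨fun h => ⟨⟨y, h⟩, rfl⟩, fun ⟨a, h⟩ => h ▸ a.2⟩⟩

theorem mk_aclC (F : IntermediateField ℂ Om) : (aclC F).toSubfield = acl F.toSubfield := rfl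

theorem mk_adjoin (S : Set Om) : (adjoin ℂ S).toSubfield = adj (C0 Om) S := by
  rw [adjoin_toSubfield]; rfl

theorem mk_sup_adjoin (F : IntermediateField ℂ Om) (S : Set Om) :
    (F ⊔ adjoin ℂ S).toSubfield = adj F.toSubfield S := by
  rw [sup_toSubfield, mk_adjoin]
  exact le_antisymm (sup_le (le_adj _ _) (adj_le ((mk_c0 F).trans (le_adj _ _))
    fun _ h => mem_adj _ h)) (adj_le le_sup_left fun _ h =>
      (le_sup_right : adj (C0 Om) S ≤ _) (mem_adj _ h))

omit [Algebra ℂ Om] in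
theorem mk_indep_iff_li {k : Type} [Field k] [Algebra k Om] {ι : Type} {a : ι → Om} :
    AlgebraicIndependent k a ↔
      LinearIndependent k fun m : ι →₀ ℕ => m.prod fun i j => a i ^ j := by
  have e : Finsupp.linearCombination k (fun m : ι →₀ ℕ => m.prod fun i j => a i ^ j) =
      (MvPolynomial.aeval a : MvPolynomial ι k →ₐ[k] Om).toLinearMap ∘ₗ
        (MvPolynomial.basisMonomials ι k).repr.symm.toLinearMap := by
    refine Finsupp.lhom_ext fun m c => ?_
    simp [MvPolynomial.aeval_monomial, Algebra.smul_def]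
  rw [algebraicIndependent_iff_injective_aeval, LinearIndependent, e, LinearMap.coe_comp]
  exact (Function.Injective.of_comp_iff' _
    (MvPolynomial.basisMonomials ι k).repr.symm.bijective).symm

theorem mk_free {L K' : IntermediateField ℂ Om} (h : L.LinearDisjoint K') {ι : Type}
    {a : ι → Om} (ha : ∀ i, a i ∈ L) (hi : AlgebraicIndependent (C0 Om) a) :
    AlgebraicIndependent K'.toSubfield a := by
  have h1 := mk_indep_iff_li.1 (mk_indep_iff.1 hi)
  let b : (ι →₀ ℕ) → L := fun m => m.prod fun i j => (⟨a i, ha i⟩ : L) ^ j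
  have e : L.val ∘ b = fun m : ι →₀ ℕ => m.prod fun i j => a i ^ j := by
    funext m
    simp [b, Finsupp.prod]
  have h2 : LinearIndependent ℂ b := LinearIndependent.of_comp L.val.toLinearMap (by
    rw [← e] at h1; exact h1)
  have h3 := h.linearIndependent_left h2
  rw [e] at h3
  exact (mk_indep_iff_li (k := K')).2 h3

theorem mk_ufd {L K' : IntermediateField ℂ Om}
    (h : UniqueFactorizationMonoid (L.toSubalgebra ⊔ K'.toSubalgebra : Subalgebra ℂ Om)) :
    UniqueFactorizationMonoid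
      (Subring.closure ((L.toSubfield : Set Om) ∪ K'.toSubfield)) := by
  have e : (L.toSubalgebra ⊔ K'.toSubalgebra : Subalgebra ℂ Om).toSubring =
      Subring.closure ((L.toSubfield : Set Om) ∪ K'.toSubfield) := by
    refine le_antisymm ?_ (Subring.closure_le.2 ?_)
    · let T : Subalgebra ℂ Om :=
        { (Subring.closure ((L.toSubfield : Set Om) ∪ K'.toSubfield)).toSubsemiring with
          algebraMap_mem' := fun c => Subring.subset_closure (Or.inl (L.algebraMap_mem c)) }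
      have : L.toSubalgebra ⊔ K'.toSubalgebra ≤ T :=
        sup_le (fun y hy => Subring.subset_closure (Or.inl hy))
          fun y hy => Subring.subset_closure (Or.inr hy)
      exact fun y hy => this hy
    · rintro y (hy | hy)
      · exact (le_sup_left : L.toSubalgebra ≤ _) hy
      · exact (le_sup_right : K'.toSubalgebra ≤ _) hy
  rw [← e]
  exact h

/-- the finite Galois extension in terms of subfields -/
theorem mk_galois {E : IntermediateField ℂ Om} (N : IntermediateField E Om)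
    [FiniteDimensional E N] [IsGalois E N] :
    E.toSubfield ≤ N.toSubfield ∧ N.toSubfield ≤ acl E.toSubfield ∧
      (∃ θ ∈ N.toSubfield, N.toSubfield = adj E.toSubfield {θ}) ∧
      ∀ g : Om ≃ₐ[E.toSubfield] Om, ∀ y ∈ N.toSubfield, g y ∈ N.toSubfield := by
  refine ⟨fun y hy => N.algebraMap_mem ⟨y, hy⟩, fun y hy => ?_, ?_, fun g y hy => ?_⟩
  · exact mem_acl.2 ((IsIntegral.of_finite E (⟨y, hy⟩ : N)).map N.val).isAlgebraic
  · obtain ⟨θ, hθ⟩ := Field.exists_primitive_element E N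
    refine ⟨θ, θ.2, ?_⟩
    have h1 : N = E⟮(θ : Om)⟯ := by
      have := congrArg (IntermediateField.map N.val) hθ
      rw [adjoin_map, Set.image_singleton, ← AlgHom.fieldRange_eq_map, fieldRange_val] at this
      exact this.symm
    have h2 := Lift_closure E.toSubfield {(θ : Om)}
    rw [adj, h2]
    exact congrArg IntermediateField.toSubfield h1
  · let g' : Om ≃ₐ[E] Om := g
    have h1 := AlgHom.fieldRange_of_normal ((g' : Om →ₐ[E] Om).comp N.val)
    exact h1.le ⟨⟨y, hy⟩, rfl⟩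

/-- the context from the hypotheses of the main theorem -/
theorem mkCtx0 [IsAlgClosed Om] (K M K' L L1 : IntermediateField ℂ Om) (x : Om)
    (hM : M.FG) (hKM : K ≤ M) (hOm : Algebra.IsAlgebraic M Om) (hK' : aclC K' = aclC K)
    (hLL1 : L ≤ L1) (hL1a : L1 ≤ aclC L) (hL1M : L1 ≤ M ⊔ aclC K)
    (hfree : L.LinearDisjoint K')
    (hufd : UniqueFactorizationMonoid (L.toSubalgebra ⊔ K'.toSubalgebra : Subalgebra ℂ Om))
    (hA : HasRegularForm ℂ L1)
    (hx : Transcendental (L ⊔ K' : IntermediateField ℂ Om) x)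
    (N : IntermediateField (L ⊔ K' ⊔ ℂ⟮x⟯ : IntermediateField ℂ Om) Om)
    [FiniteDimensional (L ⊔ K' ⊔ ℂ⟮x⟯ : IntermediateField ℂ Om) N]
    [IsGalois (L ⊔ K' ⊔ ℂ⟮x⟯ : IntermediateField ℂ Om) N]
    (hN : N.restrictScalars ℂ ⊔ aclC K = M ⊔ aclC K) (hY : kod ℂ K ≠ ⊥) :
    ∃ X : Ctx0 Om, X.K = K.toSubfield ∧ X.M = M.toSubfield := by
  have hE : (L ⊔ K' ⊔ ℂ⟮x⟯ : IntermediateField ℂ Om).toSubfield =
      adj (L.toSubfield ⊔ K'.toSubfield) {x} := by rw [mk_sup_adjoin, sup_toSubfield]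
  have hG := mk_galois N
  rw [hE] at hG
  obtain ⟨g1, g2, g3, g4⟩ := hG
  have hx' : Transcendental (L.toSubfield ⊔ K'.toSubfield : Subfield Om) x := by
    rw [← sup_toSubfield]; exact hx
  have hN' := congrArg IntermediateField.toSubfield hN
  have hL1M' : L1.toSubfield ≤ (M ⊔ aclC K).toSubfield := hL1M
  rw [sup_toSubfield, sup_toSubfield] at hN'
  rw [sup_toSubfield] at hL1M'
  obtain ⟨S, hS⟩ := hM
  obtain ⟨X, h1, h2, -⟩ := mk_sub (mk_c0 K) (mk_c0 L) (mk_c0 K') hKM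
    (fun y => mem_acl.2 (hOm.isAlgebraic y)) ⟨S, by rw [← hS, mk_adjoin]⟩
    (congrArg IntermediateField.toSubfield hK') hLL1 hL1a hL1M'
    (fun _ _ ha hi => mk_free hfree ha hi) hx' g1 g2 g3 g4 hN' (mk_ufd hufd) (mk_emb K) hY
    (mk_emb L1) hA
  exact ⟨X, h1, h2⟩

theorem exists_ctx0 (Om : Type) [Field Om] [Algebra ℂ Om] [IsAlgClosed Om]
    (K M K' L L1 : IntermediateField ℂ Om) (x : Om)
    (hM : M.FG) (hKM : K ≤ M) (hOm : Algebra.IsAlgebraic M Om)
    (hK' : aclC K' = aclC K)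
    (hLL1 : L ≤ L1) (hL1a : L1 ≤ aclC L) (hL1M : L1 ≤ M ⊔ aclC K)
    (hfree : L.LinearDisjoint K')
    (hufd : UniqueFactorizationMonoid (L.toSubalgebra ⊔ K'.toSubalgebra : Subalgebra ℂ Om))
    (hA : HasRegularForm ℂ L1)
    (hx : Transcendental (L ⊔ K' : IntermediateField ℂ Om) x)
    (N : IntermediateField (L ⊔ K' ⊔ ℂ⟮x⟯ : IntermediateField ℂ Om) Om)
    [FiniteDimensional (L ⊔ K' ⊔ ℂ⟮x⟯ : IntermediateField ℂ Om) N]
    [IsGalois (L ⊔ K' ⊔ ℂ⟮x⟯ : IntermediateField ℂ Om) N]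
    (hN : N.restrictScalars ℂ ⊔ aclC K = M ⊔ aclC K)
    (hY : kod ℂ K ≠ ⊥) :
    ∃ X : Ctx0 Om, X.K = K.toSubfield ∧ X.M = M.toSubfield :=
  mkCtx0 K M K' L L1 x hM hKM hOm hK' hLL1 hL1a hL1M hfree hufd hA hx N hN hY

/-- choice of the multigraph and of the marked triple -/
theorem Ctx0.exists_ctx_of (X : Ctx0 Om) (hs : (2 : ℝ) ≤ ∑ i : X.R, (1 - 1 / (X.e i : ℝ))) :
    ∃ Y : Ctx Om, Y.toCtx0 = X := by
  have he : ∀ i : X.R, 2 ≤ X.e i := fun i => X.ram.two i i.2
  obtain ⟨Nw, Ga, h0, h1, h2, h3, h4, h5, h6, h7, h8⟩ :=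
    exists_graph (fun i : X.R => X.e i) he hs (X.m0 * X.mK) (Nat.mul_pos X.m0pos X.mKpos)
  obtain ⟨ra, rb, rc, hab, hac, hbc⟩ :=
    Fintype.two_lt_card_iff.1 (three_le_card (fun i : X.R => X.e i) he hs)
  refine ⟨{ X with
    Nw := Nw, Nwpos := h0, m0Nw := (Dvd.intro _ rfl).trans h1,
    mKNw := (Dvd.intro_left _ rfl).trans h1, eNw := fun ρ hρ => h2 ⟨ρ, hρ⟩, Ga := Ga, diag := h3,
    full := h4, tot := h5, deg := h6, ra := ra, rb := rb, rc := rc, ab := hab, bc := hbc,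
    ac := hac, slack := ?_ }, rfl⟩
  rcases hs.eq_or_lt with h | h
  exacts [Or.inl (h8 h), Or.inr (h7 h rc)]

end Pool.Agent.Lib.MP_5c318e_ag
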