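import Pool.Agent.Lib.MP_5c318e_ag.H1
import Pool.Agent.Lib.MP_5c318e_ag.Ht1C

/-! The adapted basis of the fibre at a valuation with small discrepancies. -/

namespace Pool.Agent.Lib.MP_5c318e_ag

open scoped Classical NNReal
open Polynomial

variable {Om : Type} [Field Om] [Algebra ℂ Om]

omit [Algebra ℂ Om] in
theorem Neu2_rind {v : RV Om} {k0 F : Subfield Om} {ι : Type} {c : ι → Om} {j : ι} {z t : Om}
    [DecidableEq ι] (h : Gs v F z) (hk : k0 ≤ F) (hcF : ∀ i, c i ∈ F)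
    (hc : RInd v k0 fun i : {i // i ≠ j} => c i) :
    RInd v k0 fun o : {o : Option ι // o ≠ some j} =>
      (o : Option ι).elim z (Function.update c j t) := by
  have h1 := hc.snoc h.1 fun ⟨p, hp, ⟨i, hi⟩, hz⟩ => by
    have := h.2 p (fun i => adj_le hk (by rintro _ ⟨l, rfl⟩; exact hcF l) (mem_PO.1 hp i).1) i
    rw [hi] at this
    exact hz.not_ge this
  let e : {o : Option ι // o ≠ some j} → {i // i ≠ j} ⊕ Unit := fun o =>
    match o with
    | ⟨none, _⟩ => Sum.inr ()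
    | ⟨some i, hi⟩ => Sum.inl ⟨i, fun e => hi (congrArg some e)⟩
  have : (fun o : {o : Option ι // o ≠ some j} => (o : Option ι).elim z (Function.update c j t)) =
      (Sum.elim (fun i : {i // i ≠ j} => c i) fun _ : Unit => z) ∘ e := by
    funext ⟨o, ho⟩
    rcases o with _ | i
    · rfl
    · exact Function.update_of_ne (fun e => ho (congrArg some e)) _ _
  rw [this]
  refine h1.comp e ?_
  rintro ⟨_ | a, ha⟩ ⟨_ | b, hb⟩ e'
  · rfl
  · simp [e] at e'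
  · simp [e] at e'
  · simp only [e, Sum.inl.injEq, Subtype.mk.injEq] at e'
    subst e'; rfl

/-- the residually independent part of an adapted basis may be moved into `F` -/
theorem Neu2_out [IsAlgClosed Om] {k0 F : Subfield Om} {ι : Type} [Fintype ι] [DecidableEq ι]
    {D : ι → Derivation ℂ Om Om} {b : ι → Om} (h : Frame k0 ⊤ D b) (hk : k0 ≤ F)
    (halg : ∀ y : Om, y ∈ acl F) {v : RV Om} {f : ι → Om} {i0 : ι} (hF : f i0 ∈ F)
    (h0 : f i0 ≠ 0) (ht : v (f i0) < 1) (hy : RInd v k0 fun j : {j // j ≠ i0} => f j)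
    (hg : Grp v F (f i0)) :
    ∃ f' : ι → Om, DivPt k0 F v f' i0 ∧ v (Jac D f') = v (Jac D f) := by
  have htr : Triv v k0 := fun _ hu h0 => hy.triv hu h0
  have hc : Fintype.card {j // j ≠ i0} = Fintype.card ι - 1 := by
    rw [Fintype.card_subtype_compl, Fintype.card_subtype_eq]
  have hpos : 0 < Fintype.card ι := Fintype.card_pos_iff.2 ⟨i0⟩
  obtain ⟨y, hyF, hy'⟩ := RC (κ := Empty) (δ := Empty) F hk (u := Empty.elim) (fun i => i.elim)
    (RInd_empty htr _) hy Empty.elim (fun y => mem_acl.1 (acl_mono (le_adj _ _) (halg y)))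
    (m := Fintype.card ι - 1) (by rw [hc]; simp)
  obtain ⟨f', hf0, hd⟩ := exists_divPt i0 hF h0 ht hg (by omega) hyF hy'.right
  have top : ∀ y : Om, y ∈ acl ⊤ := fun y => le_acl _ (Subfield.mem_top y)
  have hJ : Jac D f ≠ 0 := h.jac_ne_zero (fun _ => top _) (indep_of_adapted h0 ht hy)
  have hJ' : Jac D f' ≠ 0 := h.jac_ne_zero (fun _ => top _) hd.indep
  have e1 := h.key2 h0 ht hy (fun _ => top _) (fun _ => top _) hJ'
  have e2 := h.key2 hd.2.1 hd.2.2.1 hd.2.2.2.1 (fun _ => top _) (fun _ => top _) hJ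
  rw [hd.sum_w, hf0] at e1
  rw [Finset.sum_eq_single i0 (fun j _ hj => w_of_eq_one (hy.unit ⟨j, hj⟩)) (by simp), hf0] at e2
  exact ⟨f', hd, (eq_iff_w hJ' hJ).2 (by linarith)⟩

namespace Ctx0

variable (X : Ctx0 Om)

theorem Neu2_dx_zz {a b c : Om} (ha : a ∈ X.Eb) (hb : b ∈ X.Eb) (hc : c ∈ X.Eb) (hab : a ≠ b) :
    X.dx (X.zz a b c) = X.zz a b c * X.be a c := by
  have e : X.zz a b c = (b - c) / (b - a) * ((X.x - a) * (X.x - c)⁻¹) := by
    have h1 := X.x_sub_ne ha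
    have h2 := X.x_sub_ne hb
    have h3 := X.x_sub_ne hc
    have h4 : b - a ≠ 0 := sub_ne_zero.2 hab.symm
    rw [zz, X.be_eq hb hc, X.be_eq hb ha]
    field_simp
  rw [e, Derivation.leibniz, X.dx_ratio ha hc,
    X.dx_Eb (div_mem (sub_mem hb hc) (sub_mem hb ha))]
  simp only [smul_eq_mul]
  ring

theorem Neu2_jacF_mem {f : X.iF → Om} (hf : ∀ j, f j ∈ X.Mb) : Jac X.dF f ∈ X.Mb := by
  rw [Jac, Matrix.det_apply']
  exact sum_mem fun s _ => mul_mem (intCast_mem _ _)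
    (prod_mem fun i _ => X.H1_der_mem i (hf _))

/-- the neutral package from its ingredients -/
theorem Neu2_main [IsAlgClosed Om]
    (h3 : ∃ a ∈ X.R, ∃ b ∈ X.R, ∃ c ∈ X.R, a ≠ b ∧ b ≠ c ∧ a ≠ c)
    {v : RV Om} (hv : X.Good v) (hK : Triv v X.Kb) (hE : ¬ Triv v X.E) {t : Om}
    (ht0 : t ≠ 0) (ht : v t < 1) (hg : Grp v X.Mb t) (hA : X.A v < (1 + 1 / X.m0) * w v t)
    (hb : ∀ a ∈ X.R, ∀ b ∈ X.R, ∀ a' ∈ X.R, ∀ b' ∈ X.R, a ≠ b → a' ≠ b' →
      v (X.be a b) = v (X.be a' b'))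
    (hgs : ∀ a ∈ X.R, ∀ b ∈ X.R, ∀ c ∈ X.R, a ≠ b → b ≠ c → a ≠ c → Gs v X.F1 (X.zz a b c))
    (hgrp : ∀ a b y0 : Om, a ∈ X.R → b ∈ X.R → a ≠ b → y0 ∈ X.Mb → v (X.be a b) = v y0 →
      ∀ y ∈ X.Mb1, ∃ f ∈ X.Mb, v y = v f) : X.Neutral v := by
  have : CharZero Om := charZero_of_algebra
  obtain ⟨c, j, t', hcM, hcL, hc, ht'c, ht', hg0⟩ := X.h1_tight hv hK hE ht0 ht hg hA
  obtain ⟨a1, ha1, a2, ha2, a3, ha3, h12, h23, h13⟩ := h3
  have hR : ∀ a ∈ X.R, a ∈ X.Eb := X.ram.mem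
  have hcE : ∀ i, c i ∈ X.Eb := fun i => X.aclL_le_Eb (hcL i)
  have ht'M : t' ∈ X.Mb := adj_le X.Kb_le_Mb (by rintro _ ⟨i, rfl⟩; exact hcM i) ht'c
  have ht'E : t' ∈ X.Eb := adj_le X.Kb_le_Eb (by rintro _ ⟨i, rfl⟩; exact hcE i) ht'c
  have ht'0 : t' ≠ 0 := fun e => ht0 (v.zero_iff.1 (by rw [← ht', e, map_zero]))
  have hg' : Grp v X.Mb t' := fun y hy h0 => by rw [ht']; exact hg y hy h0
  set f := Function.update c j t' with hf
  have hfP : ∀ F : Subfield Om, t' ∈ F → (∀ i, c i ∈ F) → ∀ i, f i ∈ F := fun F h1 h2 i => by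
    by_cases e : i = j
    · rw [e, hf, Function.update_self]; exact h1
    · rw [hf, Function.update_of_ne e]; exact h2 i
  have hz := hgs a1 ha1 a2 ha2 a3 ha3 h12 h23 h13
  have hz1 : v (X.zz a1 a2 a3) = 1 := by
    rw [zz, map_div₀, hb a2 ha2 a3 ha3 a2 ha2 a1 ha1 h23 h12.symm]
    exact div_self ((Valuation.ne_zero_iff v).2 (X.be_ne (hR _ ha2) (hR _ ha1) h12.symm))
  have hr := Neu2_rind (t := t') hz (k0 := X.Kb)
    (le_inf (X.Kb_le_Mb.trans (le_adj _ _)) X.Kb_le_Eb) (fun i => ⟨le_adj _ _ (hcM i), hcE i⟩) hc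
  have hfj : f j = t' := Function.update_self _ _ _
  obtain ⟨f', hd, hJ⟩ := Neu2_out X.frFt X.Kb_le_Mb
    (fun y => acl_mono le_sup_left (X.algM y)) (f := fun o : X.iF => o.elim (X.zz a1 a2 a3) f)
    (i0 := some j) (by simpa [hfj] using ht'M) (by simpa [hfj] using ht'0)
    (by simpa [hfj, ht'] using ht) hr (by simpa [hfj] using hg')
  rw [X.jac_F _ (hfP _ ht'E hcE), X.Neu2_dx_zz (hR _ ha1) (hR _ ha2) (hR _ ha3) h12, map_mul,
    map_mul, hz1, one_mul] at hJ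
  have hJf : v (Jac X.dA f) ≠ 0 := fun e => by
    rw [e, zero_pow X.m0pos.ne'] at hg0
    exact (Valuation.ne_zero_iff v).2 X.g0ne hg0
  refine ⟨hK, hb, hgs, fun a ha b hb' hab m ψ hψ => ?_, ?_⟩
  · have h1 := hψ v f' _ hd
    rw [hJ, hb a1 ha1 a3 ha3 a ha b hb' h13 hab] at h1
    rw [hg0, ← mul_pow, ← pow_mul, mul_comm X.m0 m, pow_mul, mul_comm (v (Jac X.dA f))]
    exact pow_le_pow_left' h1 _
  · by_cases hL : Triv v X.L
    · refine Or.inl ⟨hL, X.ht1 hL hK hE c j hcL hc, fun y hy => ?_⟩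
      have h1 := hgrp a1 a3 (Jac X.dF f' / Jac X.dA f) ha1 ha3 h13
        (div_mem (X.Neu2_jacF_mem hd.1) (X.H1_jac_mem (hfP _ ht'M hcM)))
        (by rw [map_div₀, hJ, mul_div_cancel_right₀ _ hJf])
      by_cases h0 : y = 0
      · exact ⟨0, zero_mem _, by rw [h0]⟩
      obtain ⟨k, hk⟩ := hg'.of_val h1 y
        (adj_le (X.H1_N_le.trans (le_adj _ _)) (fun _ h => mem_adj _ h) hy) h0
      obtain ⟨u1, hu1, e1⟩ := val_adj (F0 := X.L) (F := adj X.E X.Kb)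
        (le_sup_left.trans (le_adj _ _)) hL (S := Set.range c)
        (by rintro _ ⟨i, rfl⟩; exact hcL i) t'
        (adj_le (fun _ h => le_adj _ _ (mem_adj _ h)) (fun _ h => mem_adj _ h) ht'c)
      obtain ⟨u2, hu2, e2⟩ := val_adj (F0 := X.Kp) (F := X.E) le_sup_right (hK.mono X.Kp_le)
        (S := X.Kb) (fun _ h => X.aclKp.ge h) u1 hu1
      exact ⟨u2 ^ k, zpow_mem hu2 k, by rw [hk, e1, e2, map_zpow₀]⟩
    · exact Or.inr (X.typeB hK hL c j hcL hc)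

end Ctx0

end Pool.Agent.Lib.MP_5c318e_ag
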