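import Pool.Agent.Lib.MP_5c318e_ag.Val
import Pool.Agent.Lib.MP_5c318e_ag.Jac0
import Pool.Agent.Lib.MP_5c318e_ag.ResC

/-! Section 1: frames, prime divisors of the total space, block inequality. -/

namespace Pool.Agent.Lib.MP_5c318e_ag

open scoped Classical NNReal

variable {Om : Type} [Field Om] [Algebra ℂ Om]

section General

variable {k0 F : Subfield Om} {ι : Type} {v : RV Om}

omit [Algebra ℂ Om] in
theorem DivPt.triv {b : ι → Om} {i0 : ι} (h : DivPt k0 F v b i0) : Triv v k0 :=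
  fun _ hu h0 => h.2.2.2.1.triv hu h0

omit [Algebra ℂ Om] in
theorem DivPt.le_one {b : ι → Om} {i0 : ι} (h : DivPt k0 F v b i0) (j : ι) : v (b j) ≤ 1 := by
  by_cases e : j = i0
  · rw [e]; exact h.2.2.1.le
  · exact (h.2.2.2.1.unit ⟨j, e⟩).le

omit [Algebra ℂ Om] in
theorem DivPt.w_other {b : ι → Om} {i0 : ι} (h : DivPt k0 F v b i0) {j : ι} (hj : j ≠ i0) :
    w v (b j) = 0 := w_of_eq_one (h.2.2.2.1.unit ⟨j, hj⟩)

omit [Algebra ℂ Om] in
theorem DivPt.sum_w [Fintype ι] {b : ι → Om} {i0 : ι} (h : DivPt k0 F v b i0) :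
    ∑ j, w v (b j) = w v (b i0) :=
  Finset.sum_eq_single i0 (fun _ _ hj => h.w_other hj) (by simp)

omit [Algebra ℂ Om] in
theorem DivPt.w_pos {b : ι → Om} {i0 : ι} (h : DivPt k0 F v b i0) : 0 < w v (b i0) :=
  (w_pos_iff h.2.1).2 h.2.2.1

omit [Algebra ℂ Om] in
/-- an adapted family is algebraically independent -/
theorem indep_of_adapted {b : ι → Om} {i0 : ι} (h0 : b i0 ≠ 0) (ht : v (b i0) < 1)
    (hy : RInd v k0 fun j : {j // j ≠ i0} => b j) : AlgebraicIndependent k0 b := by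
  refine (AlgebraicIndependent.iff_transcendental_adjoin_image i0).2 ⟨hy.algInd, fun hal => ?_⟩
  have hle : ∀ x ∈ Algebra.adjoin k0 (b '' {i0}ᶜ),
      x ∈ adj k0 (Set.range fun j : {j // j ≠ i0} => b j) := by
    intro x hx
    induction hx using Algebra.adjoin_induction with
    | mem x hx =>
      obtain ⟨c, hc, rfl⟩ := hx
      exact mem_adj _ ⟨⟨c, hc⟩, rfl⟩
    | algebraMap r => exact le_adj _ _ r.2
    | add x y _ _ hx hy => exact add_mem hx hy
    | mul x y _ _ hx hy => exact mul_mem hx hy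
  let ph : Algebra.adjoin k0 (b '' {i0}ᶜ) →+*
      adj k0 (Set.range fun j : {j // j ≠ i0} => b j) :=
    (Algebra.adjoin k0 (b '' {i0}ᶜ)).val.toRingHom.codRestrict _ fun x => hle x x.2
  have hinj : Function.Injective ph := fun x y e => Subtype.ext
    (congrArg (fun z : adj k0 (Set.range fun j : {j // j ≠ i0} => b j) => (z : Om)) e)
  have hal2 := hal.ringHom_of_comp_eq ph (RingHom.id Om) hinj (RingHom.ext fun _ => rfl)
  exact ht.ne (hy.toTriv.toAcl _ (mem_acl.2 hal2) h0)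

omit [Algebra ℂ Om] in
theorem DivPt.indep {b : ι → Om} {i0 : ι} (h : DivPt k0 F v b i0) : AlgebraicIndependent k0 b :=
  indep_of_adapted h.2.1 h.2.2.1 h.2.2.2.1

omit [Algebra ℂ Om] in
/-- independent elements of a field with trivial valuation are residually independent -/
theorem Triv.rind (h : Triv v F) (hk : k0 ≤ F) {y : ι → Om} (hyF : ∀ j, y j ∈ F)
    (hy : AlgebraicIndependent k0 y) : RInd v k0 y := by
  intro p hp
  refine h _ ?_ fun e => hp (hy (by rw [map_zero]; exact e))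
  clear hp
  induction p using MvPolynomial.induction_on with
  | C a => rw [MvPolynomial.aeval_C]; exact hk a.2
  | add p q hp hq => rw [map_add]; exact F.add_mem hp hq
  | mul_X p a hp => rw [map_mul, MvPolynomial.aeval_X]; exact F.mul_mem hp (hyF a)

omit [Algebra ℂ Om] in
/-- a subfield of a discretely valued field with nontrivial valuation has a uniformiser -/
theorem Grp.sub {F' : Subfield Om} {t : Om} (h : Grp v F t) (ht0 : t ≠ 0) (ht : v t < 1)
    (hle : F' ≤ F) (hn : ¬ Triv v F') : ∃ t' ∈ F', t' ≠ 0 ∧ v t' < 1 ∧ Grp v F' t' := by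
  have hv0 : v t ≠ 0 := (Valuation.ne_zero_iff v).2 ht0
  have hpos : 0 < v t := pos_iff_ne_zero.2 hv0
  have hex : ∃ k : ℕ, 0 < k ∧ ∃ y ∈ F', y ≠ 0 ∧ v y = v t ^ k := by
    obtain ⟨y, hy, h0, h1⟩ := not_triv_iff.1 hn
    obtain ⟨k, hk⟩ := h y (hle hy) h0
    have hk0 : 0 < k := by
      rw [hk] at h1
      exact (zpow_lt_one_iff_right_of_lt_one₀ hpos ht).1 h1
    exact ⟨k.toNat, by omega, y, hy, h0, by rw [hk, ← zpow_natCast, Int.toNat_of_nonneg hk0.le]⟩
  obtain ⟨hk0, y, hy, h0, hyk⟩ := Nat.find_spec hex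
  set k := Nat.find hex with hkdef
  refine ⟨y, hy, h0, by rw [hyk]; exact pow_lt_one₀ hpos.le ht hk0.ne', fun u hu hu0 => ?_⟩
  obtain ⟨l, hl⟩ := h u (hle hu) hu0
  have hkz : (0 : ℤ) < k := by exact_mod_cast hk0
  have hr : l % k = 0 := by
    by_contra hne
    have h1 := Int.emod_nonneg l hkz.ne'
    have h2 := Int.emod_lt_of_pos l hkz
    refine Nat.find_min hex (m := (l % k).toNat) (by omega) ⟨by omega, u * y ^ (-(l / k)),
      F'.mul_mem hu (F'.zpow_mem hy _), mul_ne_zero hu0 (zpow_ne_zero _ h0), ?_⟩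
    rw [map_mul, map_zpow₀, hl, hyk, ← zpow_natCast, ← zpow_natCast, ← zpow_mul, ← zpow_add₀ hv0,
      Int.toNat_of_nonneg h1]
    congr 1
    rw [Int.emod_def]; ring
  refine ⟨l / k, ?_⟩
  rw [hl, hyk, ← zpow_natCast, ← zpow_mul]
  congr 1
  have := Int.emod_add_mul_ediv l k
  rw [hr] at this
  omega

omit [Algebra ℂ Om] in
/-- building an adapted family -/
theorem exists_divPt [Fintype ι] (i0 : ι) {t : Om} (htF : t ∈ F) (ht0 : t ≠ 0) (ht : v t < 1)
    (hg : Grp v F t) {m : ℕ} (hm : m + 1 = Fintype.card ι) {y : Fin m → Om}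
    (hyF : ∀ j, y j ∈ F) (hy : RInd v k0 y) :
    ∃ b : ι → Om, b i0 = t ∧ DivPt k0 F v b i0 := by
  have hc : Fintype.card {j // j ≠ i0} = m := by
    rw [Fintype.card_subtype_compl, Fintype.card_subtype_eq]; omega
  let e := Fintype.equivFinOfCardEq hc
  let b : ι → Om := fun j => if h : j = i0 then t else y (e ⟨j, h⟩)
  have hb0 : b i0 = t := by simp [b]
  refine ⟨b, hb0, fun j => ?_, hb0 ▸ ht0, hb0 ▸ ht, ?_, hb0 ▸ hg⟩
  · by_cases h : j = i0
    · rw [h, hb0]; exact htF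
    · simp only [b, dif_neg h]; exact hyF _
  · have : (fun j : {j // j ≠ i0} => b j) = y ∘ e := by
      funext j
      simp only [b, dif_neg j.2, Function.comp_apply]
    rw [this]
    exact hy.comp e e.injective

variable [Fintype ι] [DecidableEq ι] {D : ι → Derivation ℂ Om Om} {b0 : ι → Om}

theorem Frame.jac (h : Frame k0 F D b0) : Jac D b0 = 1 :=
  jac_self h.dual

theorem Frame.jac_ne (h : Frame k0 F D b0) : Jac D b0 ≠ 0 := by rw [h.jac]; exact one_ne_zero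

theorem Frame.jac_ne_zero (h : Frame k0 F D b0) {f : ι → Om}
    (hf : ∀ a, f a ∈ acl F) (hi : AlgebraicIndependent k0 f) : Jac D f ≠ 0 :=
  haveI : CharZero Om := charZero_of_algebra
  Pool.Agent.Lib.MP_5c318e_ag.jac_ne_zero D h.kill h.jac_ne hi
    fun a => mem_acl.1 (acl_le h.alg (hf a))

theorem Frame.alg_of_jac (h : Frame k0 F D b0) {f : ι → Om}
    (hf : ∀ a, f a ∈ acl F) (hJ : Jac D f ≠ 0) : acl F ≤ acl (adj k0 (Set.range f)) :=
  haveI : CharZero Om := charZero_of_algebra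
  fun _ hy => mem_acl.2 (Pool.Agent.Lib.MP_5c318e_ag.alg_of_jac D h.kill h.jac_ne hJ
    (fun a => mem_acl.1 (acl_le h.alg (hf a))) (mem_acl.1 (acl_le h.alg hy)))

theorem Frame.div_jac {F' : Subfield Om} (h : Frame k0 F D b0) {b : ι → Om} {i0 : ι}
    (hd : DivPt k0 F' v b i0) (hle : F' ≤ acl F) : Jac D b ≠ 0 :=
  h.jac_ne_zero (fun a => hle (hd.1 a)) hd.indep

/-- KEY2, additive form -/
theorem Frame.key2 [IsAlgClosed Om] (h : Frame k0 F D b0) {b : ι → Om} {i0 : ι}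
    (h0 : b i0 ≠ 0) (ht : v (b i0) < 1) (hy : RInd v k0 fun j : {j // j ≠ i0} => b j)
    (hb : ∀ a, b a ∈ acl F) {f : ι → Om} (hf : ∀ a, f a ∈ acl F) (hJ : Jac D f ≠ 0) :
    w v (Jac D b) - w v (b i0) ≤ w v (Jac D f) - ∑ a, w v (f a) := by
  have : CharZero Om := charZero_of_algebra
  have hJb := h.jac_ne_zero hb (indep_of_adapted h0 ht hy)
  have htr : Triv v k0 := fun _ hu h0 => hy.triv hu h0
  have := KEY2 htr.hv D h.kill ht hy hJb f fun a => mem_acl.1 (h.alg_of_jac hb hJb (hf a))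
  have hf0 := ne_zero_of_jac D hJ
  rw [← map_prod, ← map_mul, ← map_mul, le_iff_w (mul_ne_zero hJ h0)
    (mul_ne_zero hJb (Finset.prod_ne_zero_iff.2 fun a _ => hf0 a)), w_mul hJ h0,
    w_mul hJb (Finset.prod_ne_zero_iff.2 fun a _ => hf0 a), w_prod _ _ fun a _ => hf0 a] at this
  linarith

/-- KEY1 for a prime divisor -/
theorem Frame.key1 [IsAlgClosed Om] {F' : Subfield Om} (h : Frame k0 F D b0) {b : ι → Om}
    {i0 : ι} (hd : DivPt k0 F' v b i0) (hk : k0 ≤ F') (hle : F' ≤ acl F) {f : ι → Om}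
    (hf : ∀ a, f a ∈ F') (hf1 : ∀ a, v (f a) ≤ 1) : v (Jac D f) ≤ v (Jac D b) := by
  have : CharZero Om := charZero_of_algebra
  have hJb := h.div_jac hd hle
  exact KEY1 hd.triv.hv D h.kill hd.2.2.1 hd.2.2.2.1 hJb F' hk hd.1
    (fun z hz => mem_acl.1 (h.alg_of_jac (fun a => hle (hd.1 a)) hJb (hle hz))) hd.2.2.2.2 f hf hf1

end General

theorem jac_option {n : ℕ} (d : Option (Fin n) → Derivation ℂ Om Om) (h : Om) (g : Fin n → Om)
    (hz : ∀ j, d none (g j) = 0) :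
    Jac d (fun o => o.elim h g) = d none h * Jac (fun j => d (some j)) g := by
  rw [← jac_equiv d _ (Equiv.optionEquivSumPUnit.{0} (Fin n)).symm]
  have e1 : (fun c => d ((Equiv.optionEquivSumPUnit.{0} (Fin n)).symm c)) =
      Sum.elim (fun j => d (some j)) fun _ => d none := by
    funext c; rcases c with c | c <;> rfl
  have e2 : (fun a => (fun o : Option (Fin n) => o.elim h g)
      ((Equiv.optionEquivSumPUnit.{0} (Fin n)).symm a)) = Sum.elim g fun _ => h := by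
    funext c; rcases c with c | c <;> rfl
  rw [e1, e2, jac_sum _ _ _ _ fun a _ => hz a, mul_comm]
  congr 1
  simp [Jac]

namespace Ctx0

variable (X : Ctx0 Om)

theorem dF_s (o : X.iF) (i : Fin X.r) : X.dF o (X.s i) = 0 := by
  have := X.frT.dual (Sum.inr o) (Sum.inl i)
  simpa using this

theorem dK_a (i : Fin X.r) (j : Fin X.n) : X.dK i (X.a j) = 0 := by
  have := X.frT.dual (Sum.inl i) (Sum.inr (some j))
  simpa using this

theorem dK_x (i : Fin X.r) : X.dK i X.x = 0 := by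
  have := X.frT.dual (Sum.inl i) (Sum.inr none)
  simpa using this

theorem dx_a (j : Fin X.n) : X.dx (X.a j) = 0 := by
  have := X.frT.dual (Sum.inr none) (Sum.inr (some j))
  simpa using this

theorem dx_x : X.dx X.x = 1 := by
  have := X.frT.dual (Sum.inr none) (Sum.inr none)
  simpa using this

theorem dA_x (j : Fin X.n) : X.dA j X.x = 0 := by
  have := X.frT.dual (Sum.inr (some j)) (Sum.inr none)
  simpa using this

theorem dF_Kb (o : X.iF) {c : Om} (hc : c ∈ X.Kb) : X.dF o c = 0 := by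
  have : CharZero Om := charZero_of_algebra
  refine der_zero_acl _ ?_ (mem_acl.1 (acl_le X.frK.alg hc))
  rintro y (hy | ⟨i, rfl⟩)
  · exact X.frT.kill _ y hy
  · exact X.dF_s o i

theorem dK_L (i : Fin X.r) {c : Om} (hc : c ∈ acl X.L) : X.dK i c = 0 := by
  have : CharZero Om := charZero_of_algebra
  refine der_zero_acl _ ?_ (mem_acl.1 (acl_le X.frA.alg hc))
  rintro y (hy | ⟨j, rfl⟩)
  · exact X.frT.kill _ y hy
  · exact X.dK_a i j

theorem Kp_le : X.Kp ≤ X.Kb := (le_acl _).trans X.aclKp.le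

theorem Kb_le_Eb : X.Kb ≤ X.Eb := X.aclKp.ge.trans (acl_mono le_sup_right)

theorem aclL_le_Eb : acl X.L ≤ X.Eb := acl_mono le_sup_left

theorem Kb_le_Mb : X.Kb ≤ X.Mb := le_sup_right

theorem dx_Eb {c : Om} (hc : c ∈ X.Eb) : X.dx c = 0 := by
  have : CharZero Om := charZero_of_algebra
  have hL : X.L ≤ consts X.dx := fun y hy => by
    refine der_zero_acl _ ?_ (mem_acl.1 (X.frA.alg hy))
    rintro y (hy | ⟨j, rfl⟩)
    · exact X.frT.kill _ y hy
    · exact X.dx_a j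
  have hK : X.Kp ≤ consts X.dx := fun y hy => X.dF_Kb none (X.Kp_le hy)
  exact der_zero_alg _ X.E (fun y hy => (sup_le hL hK) hy) (mem_acl.1 hc)

theorem Eb_le : X.Eb ≤ acl (adj X.Kb (Set.range X.a)) := by
  refine acl_le (sup_le (X.frA.alg.trans (acl_mono (adj_le ?_ fun y hy => mem_adj _ hy)))
    (X.Kp_le.trans ((le_adj _ _).trans (le_acl _))))
  exact (X.frK.le.trans (le_acl _)).trans (le_adj _ _)

theorem all_alg (y : Om) : y ∈ acl (adj X.K (Set.range fun o : X.iF => o.elim X.x X.a)) := by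
  refine acl_le (adj_le ?_ ?_) (X.frT.alg (Subfield.mem_top y))
  · exact X.frK.le.trans ((le_adj _ _).trans (le_acl _))
  · rintro _ ⟨i | o, rfl⟩
    · exact le_acl _ (le_adj _ _ (X.frK.mem i))
    · exact le_acl _ (mem_adj _ ⟨o, rfl⟩)

/-- the frame of the fibre, over `Kb` -/
theorem frFt : Frame X.Kb ⊤ X.dF fun o : X.iF => o.elim X.x X.a := by
  have : CharZero Om := charZero_of_algebra
  have hd : ∀ i j : X.iF, X.dF i (j.elim X.x X.a) = if j = i then 1 else 0 := fun i j => by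
    have := X.frT.dual (Sum.inr i) (Sum.inr j)
    simpa using this
  refine ⟨X.frK.le.trans (le_acl _), le_top, fun _ => Subfield.mem_top _, ?_, fun y _ => ?_,
    fun i c hc => X.dF_Kb i hc, hd⟩
  · refine indep_of_jac X.dF (fun i c hc => X.dF_Kb i hc) ?_
    rw [jac_self hd]
    exact one_ne_zero
  · exact acl_mono (adj_le ((le_acl _).trans (le_adj _ _)) fun _ hy => mem_adj _ hy) (X.all_alg y)

/-- the frame of `A`, over `Kb` -/
theorem frE : Frame X.Kb X.Eb X.dA X.a := by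
  have : CharZero Om := charZero_of_algebra
  exact ⟨X.frK.le.trans (le_acl _), X.Kb_le_Eb, fun j => X.aclL_le_Eb (le_acl _ (X.frA.mem j)),
    indep_of_jac X.dA (fun j c hc => X.dF_Kb (some j) hc) X.frA.jac_ne, X.Eb_le,
    fun j c hc => X.dF_Kb (some j) hc, X.frA.dual⟩

theorem jac_KF {f : Fin X.r → Om} (hf : ∀ i, f i ∈ X.Kb) (g : X.iF → Om) :
    Jac X.d (Sum.elim f g) = Jac X.dK f * Jac X.dF g := by
  rw [← jac_sum X.dK X.dF f g fun a c => X.dF_Kb c (hf a)]
  congr 1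
  funext c; rcases c with c | c <;> rfl

theorem jac_F (h : Om) {g : Fin X.n → Om} (hg : ∀ j, g j ∈ X.Eb) :
    Jac X.dF (fun o => o.elim h g) = X.dx h * Jac X.dA g :=
  jac_option X.dF h g fun j => X.dx_Eb (hg j)

theorem YE_nonempty (v : RV Om) : (X.YE v).Nonempty :=
  ⟨_, X.a, X.frE.mem, X.frA.jac_ne, rfl⟩

theorem YX_nonempty (v : RV Om) : (X.YX v).Nonempty :=
  ⟨_, X.x, by rw [X.dx_x]; exact one_ne_zero, rfl⟩

theorem lE_le {v : RV Om} (hv : X.Good v) {g : Fin X.n → Om} (hg : ∀ j, g j ∈ X.Eb)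
    (hJ : Jac X.dA g ≠ 0) : X.lE v ≤ w v (Jac X.dA g) - ∑ j, w v (g j) :=
  csInf_le hv.2.1 ⟨g, hg, hJ, rfl⟩

theorem lx_le {v : RV Om} (hv : X.Good v) {h : Om} (hh : X.dx h ≠ 0) :
    X.lx v ≤ w v (X.dx h) - w v h :=
  csInf_le hv.2.2 ⟨h, hh, rfl⟩

theorem x_sub_ne {ρ : Om} (h : ρ ∈ X.Eb) : X.x - ρ ≠ 0 := fun e => by
  have := X.dx_Eb h
  rw [← sub_eq_zero.1 e, X.dx_x] at this
  exact one_ne_zero this

theorem dx_sub {ρ : Om} (h : ρ ∈ X.Eb) : X.dx (X.x - ρ) = 1 := by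
  rw [map_sub, X.dx_x, X.dx_Eb h, sub_zero]

theorem be_eq {ρ ρ' : Om} (h : ρ ∈ X.Eb) (h' : ρ' ∈ X.Eb) :
    X.be ρ ρ' = (ρ - ρ') / ((X.x - ρ) * (X.x - ρ')) := by
  have h1 := X.x_sub_ne h
  have h2 := X.x_sub_ne h'
  rw [be]
  field_simp
  ring

theorem be_ne {ρ ρ' : Om} (h : ρ ∈ X.Eb) (h' : ρ' ∈ X.Eb) (hne : ρ ≠ ρ') : X.be ρ ρ' ≠ 0 := by
  rw [X.be_eq h h']
  exact div_ne_zero (sub_ne_zero.2 hne) (mul_ne_zero (X.x_sub_ne h) (X.x_sub_ne h'))

theorem dx_ratio {ρ ρ' : Om} (h : ρ ∈ X.Eb) (h' : ρ' ∈ X.Eb) :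
    X.dx ((X.x - ρ) * (X.x - ρ')⁻¹) = X.be ρ ρ' * ((X.x - ρ) * (X.x - ρ')⁻¹) := by
  have h1 := X.x_sub_ne h
  have h2 := X.x_sub_ne h'
  rw [Derivation.leibniz, Derivation.leibniz_inv, X.dx_sub h, X.dx_sub h', be]
  simp only [smul_eq_mul]
  field_simp
  ring

theorem ord_nonneg {v : RV Om} (hv : X.Good v) {ρ ρ' : Om} (h : ρ ∈ X.Eb) (h' : ρ' ∈ X.Eb)
    (hne : ρ ≠ ρ') : 0 ≤ X.ord v ρ ρ' := by
  have h0 : (X.x - ρ) * (X.x - ρ')⁻¹ ≠ 0 := mul_ne_zero (X.x_sub_ne h) (inv_ne_zero (X.x_sub_ne h'))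
  have hb := X.be_ne h h' hne
  have := X.lx_le hv (h := (X.x - ρ) * (X.x - ρ')⁻¹)
    (by rw [X.dx_ratio h h']; exact mul_ne_zero hb h0)
  rw [X.dx_ratio h h', w_mul hb h0] at this
  rw [ord]
  linarith

/-- the chart of a valuation, additive form -/
theorem chart_w {v : RV Om} (hv : Triv v (C0 Om)) : ∃ c ∈ X.Cs, (∀ j, v (c j) ≤ 1) ∧
    Jac X.dA c ≠ 0 ∧ w v (Jac X.dA c) - X.lE v ≤ X.A v := by
  obtain ⟨c, hc, h1, h2⟩ := X.chart v hv
  have hJ : Jac X.dA c ≠ 0 := by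
    intro e
    rw [show Jac (fun j => X.d (Sum.inr (some j))) c = 0 from e, map_zero,
      zero_pow X.m0pos.ne'] at h2
    exact (Valuation.ne_zero_iff v).2 X.g0ne (le_zero_iff.1 h2)
  refine ⟨c, hc, h1, hJ, ?_⟩
  have h3 := (le_pow_iff_ge hJ X.m0).1 h2 X.g0ne
  have hm : (0 : ℝ) < X.m0 := by exact_mod_cast X.m0pos
  rw [A, sub_le_sub_iff_right, le_div_iff₀ hm]
  linarith

theorem al_nonneg {v : RV Om} (hv : X.Good v) {c : Fin X.n → Om} (hc : ∀ j, c j ∈ X.Eb)
    (h1 : ∀ j, v (c j) ≤ 1) (hJ : Jac X.dA c ≠ 0) : 0 ≤ w v (Jac X.dA c) - X.lE v := by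
  have h2 := X.lE_le hv hc hJ
  have h3 : 0 ≤ ∑ j, w v (c j) :=
    Finset.sum_nonneg fun j _ => (w_nonneg_iff (ne_zero_of_jac _ hJ j)).2 (h1 j)
  linarith

theorem A_nonneg {v : RV Om} (hv : X.Good v) : 0 ≤ X.A v := by
  obtain ⟨c, hc, h1, hJ, h2⟩ := X.chart_w hv.1
  exact (X.al_nonneg hv (fun j => X.aclL_le_Eb (X.CsL c hc j)) h1 hJ).trans h2

/-- the derivations dual to a chart lower the valuation by at most `al` on `Eb` -/
theorem dual_chart_log {v : RV Om} (hv : X.Good v) {c : Fin X.n → Om} (hc : ∀ j, c j ∈ X.Eb)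
    (h1 : ∀ j, v (c j) ≤ 1) (hJ : Jac X.dA c ≠ 0) (k : Fin X.n) {y : Om} (hy : y ∈ X.Eb) :
    v (dual X.dA c k y) ≤ ex (w v (Jac X.dA c) - X.lE v) * v y := by
  by_cases h0 : dual X.dA c k y = 0
  · simp [h0]
  have hy0 : y ≠ 0 := by rintro rfl; exact h0 (map_zero _)
  have e : Jac X.dA (Function.update c k y) = Jac X.dA c * dual X.dA c k y := by
    rw [jac_chain _ hJ]
    congr 1
    have : (Matrix.of fun a b => dual X.dA c b (Function.update c k y a)) =
        Matrix.updateRow 1 k fun b => dual X.dA c b y := by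
      ext a b
      by_cases hak : a = k
      · subst hak; simp
      · rw [Matrix.updateRow_ne hak, Matrix.of_apply, Function.update_of_ne hak,
          dual_self _ hJ, Matrix.one_apply]
    rw [Jac, this]
    have h2 : (fun b => dual X.dA c b y) =
        ∑ b, dual X.dA c b y • (1 : Matrix (Fin X.n) (Fin X.n) Om) b := by
      funext a
      simp [Matrix.one_apply, Finset.sum_apply]
    rw [h2, Matrix.det_updateRow_sum, Matrix.det_one, smul_eq_mul, mul_one]
  have hle := X.lE_le hv (g := Function.update c k y) (fun j => by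
    by_cases hj : j = k
    · subst hj; simpa using hy
    · rw [Function.update_of_ne hj]; exact hc j) (by rw [e]; exact mul_ne_zero hJ h0)
  have hs : w v y ≤ ∑ j, w v (Function.update c k y j) := by
    have := Finset.single_le_sum (f := fun j => w v (Function.update c k y j) -
      if j = k then w v y else 0) (s := Finset.univ) (fun j _ => by
        by_cases hj : j = k
        · subst hj; simp
        · rw [Function.update_of_ne hj, if_neg hj, sub_zero]
          exact (w_nonneg_iff (ne_zero_of_jac _ hJ j)).2 (h1 j)) (Finset.mem_univ k)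
    simp only [Function.update_self, if_true, sub_self, Finset.sum_sub_distrib,
      Finset.sum_ite_eq', Finset.mem_univ] at this
    linarith
  rw [e, w_mul hJ h0] at hle
  exact (le_ex_mul_iff hy0).2 fun _ => by linarith

variable [IsAlgClosed Om]

/-- KEY2 in block form, for any adapted family of the total space -/
theorem key2_block {v : RV Om} {b : X.iT → Om} {i0 : X.iT} (h0 : b i0 ≠ 0) (ht : v (b i0) < 1)
    (hy : RInd v (C0 Om) fun j : {j // j ≠ i0} => b j)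
    {f : Fin X.r → Om} (hf : ∀ i, f i ∈ X.Kb) (hJ : Jac X.dK f ≠ 0) {y1 y2 : ℝ}
    (h1 : y1 ∈ X.YE v) (h2 : y2 ∈ X.YX v) :
    w v (Jac X.d b) - w v (b i0) ≤ (w v (Jac X.dK f) - ∑ i, w v (f i)) + y1 + y2 := by
  obtain ⟨g, hg, hJg, rfl⟩ := h1
  obtain ⟨h, hh, rfl⟩ := h2
  have e := X.jac_KF hf fun o => o.elim h g
  rw [X.jac_F h hg] at e
  have := X.frT.key2 h0 ht hy (fun _ => le_acl _ (Subfield.mem_top _))
    (f := Sum.elim f fun o : X.iF => o.elim h g) (fun _ => le_acl _ (Subfield.mem_top _))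
    (by rw [e]; exact mul_ne_zero hJ (mul_ne_zero hh hJg))
  rw [e, w_mul hJ (mul_ne_zero hh hJg), w_mul hh hJg, Fintype.sum_sum_type,
    Fintype.sum_option] at this
  simp only [Sum.elim_inl, Sum.elim_inr, Option.elim] at this
  linarith

theorem good_of_adapted {v : RV Om} {b : X.iT → Om} {i0 : X.iT} (h0 : b i0 ≠ 0)
    (ht : v (b i0) < 1) (hy : RInd v (C0 Om) fun j : {j // j ≠ i0} => b j) : X.Good v := by
  have hs : ∀ i, X.s i ∈ X.Kb := fun i => le_acl _ (X.frK.mem i)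
  obtain ⟨y1, h1⟩ := X.YE_nonempty v
  obtain ⟨y2, h2⟩ := X.YX_nonempty v
  refine ⟨fun _ hu h0 => hy.triv hu h0, ⟨w v (Jac X.d b) - w v (b i0) -
    (w v (Jac X.dK X.s) - ∑ i, w v (X.s i)) - y2, fun y h => ?_⟩, ⟨w v (Jac X.d b) - w v (b i0) -
    (w v (Jac X.dK X.s) - ∑ i, w v (X.s i)) - y1, fun y h => ?_⟩⟩
  · have := X.key2_block h0 ht hy hs X.frK.jac_ne h h2
    linarith
  · have := X.key2_block h0 ht hy hs X.frK.jac_ne h1 h
    linarith

theorem block_of_adapted {v : RV Om} {b : X.iT → Om} {i0 : X.iT} (h0 : b i0 ≠ 0)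
    (ht : v (b i0) < 1) (hy : RInd v (C0 Om) fun j : {j // j ≠ i0} => b j)
    {f : Fin X.r → Om} (hf : ∀ i, f i ∈ X.Kb) (hJ : Jac X.dK f ≠ 0) :
    w v (Jac X.d b) - w v (b i0) ≤ (w v (Jac X.dK f) - ∑ i, w v (f i)) + X.lE v + X.lx v := by
  have h : w v (Jac X.d b) - w v (b i0) - (w v (Jac X.dK f) - ∑ i, w v (f i)) - X.lx v ≤
      X.lE v := by
    refine le_csInf (X.YE_nonempty v) fun y1 h1 => ?_
    have : w v (Jac X.d b) - w v (b i0) - (w v (Jac X.dK f) - ∑ i, w v (f i)) - y1 ≤ X.lx v := by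
      refine le_csInf (X.YX_nonempty v) fun y2 h2 => ?_
      have := X.key2_block h0 ht hy hf hJ h1 h2
      linarith
    linarith
  linarith

variable {X}

theorem pt_good (P : X.Pt) : X.Good P.v :=
  X.good_of_adapted P.div.2.1 P.div.2.2.1 P.div.2.2.2.1

theorem pt_block (P : X.Pt) {f : Fin X.r → Om} (hf : ∀ i, f i ∈ X.Kb) (hJ : Jac X.dK f ≠ 0) :
    P.can - P.p ≤ (w P.v (Jac X.dK f) - ∑ i, w P.v (f i)) + X.lE P.v + X.lx P.v :=
  X.block_of_adapted P.div.2.1 P.div.2.2.1 P.div.2.2.2.1 hf hJ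

omit [IsAlgClosed Om] in
theorem pt_p_pos (P : X.Pt) : 0 < P.p := P.div.w_pos

omit [IsAlgClosed Om] in
theorem pt_jac_ne (P : X.Pt) : Jac X.d P.b ≠ 0 :=
  X.frT.div_jac P.div fun _ _ => le_acl _ (Subfield.mem_top _)

omit [IsAlgClosed Om] in
theorem pt_card (P : X.Pt) : Fintype.card {j // j ≠ P.i0} = X.r + X.n := by
  rw [Fintype.card_subtype_compl, Fintype.card_subtype_eq]
  simp

omit [IsAlgClosed Om] in
/-- a vertical point restricts to a prime divisor of `K` -/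
theorem pt_vert_div (P : X.Pt) (hn : ¬ Triv P.v X.K) :
    ∃ (b : Fin X.r → Om) (i0 : Fin X.r), DivPt (C0 Om) X.K P.v b i0 ∧ P.p ≤ w P.v (b i0) := by
  obtain ⟨t, htK, ht0, ht, hg⟩ := P.div.2.2.2.2.sub P.div.2.1 P.div.2.2.1 X.KM hn
  have hr : 0 < X.r := by
    by_contra h
    have : IsEmpty (Fin X.r) := ⟨fun i => h (Fin.pos i)⟩
    exact hn ((RInd_empty P.div.triv X.s).toTriv.toAcl.mono X.frK.alg)
  obtain ⟨y, hyK, hy⟩ := RC (κ := Empty) X.K X.frK.le (u := Empty.elim) (fun i => i.elim)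
    (RInd_empty P.div.triv _) P.div.2.2.2.1 (fun o : X.iF => o.elim X.x X.a)
    (fun y => mem_acl.1 (X.all_alg y)) (m := X.r - 1) (by rw [pt_card]; simp; omega)
  obtain ⟨b, hb, hd⟩ := exists_divPt (⟨0, hr⟩ : Fin X.r) htK ht0 ht hg
    (by rw [Fintype.card_fin]; omega) hyK hy.right
  refine ⟨b, _, hd, ?_⟩
  rw [hb]
  exact P.div.2.2.2.2.le_w (pt_p_pos P) (X.KM htK) ht0 ((w_pos_iff ht0).2 ht)

/-- vertical points -/
theorem pt_vert (P : X.Pt) (hn : ¬ Triv P.v X.K) {m : ℕ} {η : Om}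
    (hη : Reg (C0 Om) X.K X.dK m η) : Ge P.v η (m * (P.can - X.lE P.v - X.lx P.v)) := by
  obtain ⟨b, i0, hd, hp⟩ := pt_vert_div P hn
  have hJ := X.frK.div_jac hd (le_acl _)
  have h1 := pt_block P (fun i => le_acl _ (hd.1 i)) hJ
  rw [hd.sum_w] at h1
  refine ((le_pow_iff_ge hJ m).1 (hη _ _ _ hd)).mono ?_
  exact mul_le_mul_of_nonneg_left (by linarith) (Nat.cast_nonneg m)

/-- horizontal points -/
theorem pt_hor (P : X.Pt) (h : Triv P.v X.K) : P.can - P.p ≤ X.lE P.v + X.lx P.v := by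
  have h1 := pt_block P (fun i => le_acl _ (X.frK.mem i)) X.frK.jac_ne
  rw [X.frK.jac, w_one, Finset.sum_eq_zero fun i _ => h.w_eq (X.frK.mem i)] at h1
  linarith

omit [IsAlgClosed Om] in
theorem pt_hor_grp (P : X.Pt) (h : Triv P.v X.K) : Grp P.v X.Mb (P.b P.i0) := by
  have : CharZero Om := charZero_of_algebra
  refine P.div.2.2.2.2.of_val ?_
  rw [Mb, sup_eq_adj]
  exact val_adj X.KM h fun _ ha => ha

/-- a horizontal point is a prime divisor of the geometric generic fibre -/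
theorem pt_hor_div (P : X.Pt) (h : Triv P.v X.K) :
    ∃ b : X.iF → Om, (∀ o, b o ∈ X.M) ∧ b none = P.b P.i0 ∧ DivPt X.Kb X.Mb P.v b none ∧
      w P.v (Jac X.dF b) = P.can := by
  have hs : RInd P.v (C0 Om) X.s := h.rind X.frK.le X.frK.mem X.frK.ind
  obtain ⟨y, hyM, hy⟩ := RC (δ := Empty) X.M X.frM.le (fun i => X.KM (X.frK.mem i)) hs
    P.div.2.2.2.1 Empty.elim
    (fun y => mem_acl.1 (acl_mono (le_adj _ _) (X.algM y))) (m := X.n) (by rw [pt_card]; simp)
  have hyK : RInd P.v X.Kb y := RIndK hy X.Kb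
    (adj_le (X.frK.le.trans (le_acl _)) (by rintro _ ⟨i, rfl⟩; exact le_acl _ (X.frK.mem i)))
    fun a ha => mem_acl.1 (acl_le X.frK.alg ha)
  let b : X.iF → Om := fun o => o.elim (P.b P.i0) y
  have hbM : ∀ o, b o ∈ X.M := fun o => by
    rcases o with _ | j
    · exact P.div.1 _
    · exact hyM j
  have hr : RInd P.v X.Kb fun j : {j : X.iF // j ≠ none} => b j := by
    have : (fun j : {j : X.iF // j ≠ none} => b j) =
        y ∘ fun j => j.1.get (Option.ne_none_iff_isSome.1 j.2) := by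
      funext ⟨j, hj⟩
      rcases j with _ | j
      · exact (hj rfl).elim
      · rfl
    rw [this]
    refine hyK.comp _ ?_
    rintro ⟨_ | i, hi⟩ ⟨_ | j, hj⟩ e
    · rfl
    · exact (hi rfl).elim
    · exact (hj rfl).elim
    · exact Subtype.ext (congrArg some e)
  refine ⟨b, hbM, rfl, ⟨fun o => (le_sup_left : X.M ≤ X.Mb) (hbM o), P.div.2.1, P.div.2.2.1, hr,
    pt_hor_grp P h⟩, ?_⟩
  have hd2 : DivPt (C0 Om) X.M P.v (Sum.elim X.s b) (Sum.inr none : X.iT) := by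
    refine ⟨?_, P.div.2.1, P.div.2.2.1, ?_, P.div.2.2.2.2⟩
    · rintro (i | o)
      · exact X.KM (X.frK.mem i)
      · exact hbM o
    · let e : {j : X.iT // j ≠ Sum.inr none} → Fin X.r ⊕ Fin X.n := fun j =>
        match j with
        | ⟨Sum.inl i, _⟩ => Sum.inl i
        | ⟨Sum.inr (some j), _⟩ => Sum.inr j
        | ⟨Sum.inr none, h⟩ => (h rfl).elim
      have : (fun j : {j : X.iT // j ≠ Sum.inr none} => Sum.elim X.s b j) =
          Sum.elim X.s y ∘ e := by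
        funext ⟨j, hj⟩
        rcases j with i | _ | j
        · rfl
        · exact (hj rfl).elim
        · rfl
      rw [this]
      refine hy.comp _ ?_
      rintro ⟨i | _ | i, hi⟩ ⟨j | _ | j, hj⟩ e' <;>
        first
        | exact (hi rfl).elim
        | exact (hj rfl).elim
        | (simp only [e, Sum.inl.injEq, Sum.inr.injEq, reduceCtorEq] at e'; subst e'; rfl)
        | simp [e] at e'
  have top : X.M ≤ acl ⊤ := fun _ _ => le_acl _ (Subfield.mem_top _)
  have e1 := le_antisymm (X.frT.key1 P.div X.frM.le top hd2.1 hd2.le_one)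
    (X.frT.key1 hd2 X.frM.le top P.div.1 P.div.le_one)
  rw [X.jac_KF fun i => le_acl _ (X.frK.mem i), X.frK.jac, one_mul] at e1
  exact w_congr e1

end Ctx0

end Pool.Agent.Lib.MP_5c318e_ag
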