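import Pool.Agent.Lib.MP_5c318e_ag.Ext
import Pool.Agent.Lib.MP_5c318e_ag.Conj
import Pool.Agent.Lib.MP_5c318e_ag.Rigid

/-! Ramification indices: existence, uniqueness, generic unramifiedness, conjugation. -/

namespace Pool.Agent.Lib.MP_5c318e_ag

open Polynomial NNReal

variable {Om G : Type*} [Field Om] [LinearOrderedCommGroupWithZero G]

/-- the value group of `N` is generated by the value of some `t` whose `e`-th power is `γ`. -/
def IsRam (v : Valuation Om G) (N : Subfield Om) (γ : G) (e : ℕ) : Prop :=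
  ∃ t ∈ N, t ≠ 0 ∧ v t < 1 ∧ v t ^ e = γ ∧ ∀ y ∈ N, y ≠ 0 → ∃ k : ℤ, v y = v t ^ k

theorem ram_gen_eq {a b : G} (ha0 : 0 < a) (ha : a < 1) (hb : b < 1) {k l : ℤ}
    (h1 : b = a ^ k) (h2 : a = b ^ l) : a = b := by
  have hb0 : 0 < b := h1 ▸ zpow_pos ha0 k
  have hk : 0 < k := (zpow_lt_one_iff_right_of_lt_one₀ ha0 ha).1 (h1 ▸ hb)
  have h3 : a ^ (1 : ℤ) = a ^ (k * l) := by rw [zpow_one, zpow_mul, ← h1, ← h2]
  have h4 : (1 : ℤ) = k * l := zpow_right_injective₀ ha0 ha.ne h3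
  have h5 : k = 1 := Int.eq_one_of_mul_eq_one_right hk.le h4.symm
  rw [h1, h5, zpow_one]

theorem IsRam.unique {v : Valuation Om G} {N : Subfield Om} {γ : G} {e e' : ℕ}
    (h : IsRam v N γ e) (h' : IsRam v N γ e') : e = e' := by
  obtain ⟨t, ht, ht0, ht1, hte, hg⟩ := h
  obtain ⟨s, hs, hs0, hs1, hse, hg'⟩ := h'
  obtain ⟨k, hk⟩ := hg s hs hs0
  obtain ⟨l, hl⟩ := hg' t ht ht0
  have h0 : 0 < v t := (v.pos_iff).2 ht0
  have h1 := ram_gen_eq h0 ht1 hs1 hk hl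
  have h2 : v t ^ (e : ℤ) = v t ^ (e' : ℤ) := by rw [zpow_natCast, zpow_natCast, hte, h1, hse]
  exact_mod_cast zpow_right_injective₀ h0 ht1.ne h2

theorem IsRam.pos {v : Valuation Om G} {N : Subfield Om} {γ : G} {e : ℕ}
    (h : IsRam v N γ e) (hγ : γ < 1) : 0 < e := by
  obtain ⟨t, -, -, -, hte, -⟩ := h
  refine Nat.pos_of_ne_zero fun h0 => ?_
  rw [h0, pow_zero] at hte
  exact hγ.ne' hte

theorem IsRam.one_iff {v : Valuation Om G} {N : Subfield Om} {γ : G} :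
    IsRam v N γ 1 ↔ γ ≠ 0 ∧ γ < 1 ∧ (∃ t ∈ N, v t = γ) ∧
      ∀ y ∈ N, y ≠ 0 → ∃ k : ℤ, v y = γ ^ k := by
  constructor
  · rintro ⟨t, ht, ht0, ht1, hte, hg⟩
    rw [pow_one] at hte
    subst hte
    exact ⟨(v.ne_zero_iff).2 ht0, ht1, ⟨t, ht, rfl⟩, hg⟩
  · rintro ⟨h0, h1, ⟨t, ht, rfl⟩, hg⟩
    exact ⟨t, ht, (v.ne_zero_iff).1 h0, h1, pow_one _, hg⟩

/-- the index only depends on the value group. -/
theorem IsRam.of_group {v : Valuation Om G} {N N' : Subfield Om} {γ : G} {e : ℕ}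
    (h : IsRam v N γ e) (h1 : ∀ y ∈ N, ∃ f ∈ N', v y = v f) (h2 : ∀ y ∈ N', ∃ f ∈ N, v y = v f) :
    IsRam v N' γ e := by
  obtain ⟨t, ht, ht0, ht1, hte, hg⟩ := h
  obtain ⟨s, hs, hts⟩ := h1 t ht
  refine ⟨s, hs, fun h => ht0 (v.zero_iff.1 (by rw [hts, h, map_zero])), hts ▸ ht1, hts ▸ hte,
    fun y hy hy0 => ?_⟩
  obtain ⟨f, hf, hyf⟩ := h2 y hy
  rw [hyf, ← hts]
  exact hg f hf fun h => hy0 (v.zero_iff.1 (by rw [hyf, h, map_zero]))

theorem ram_exists (v : Valuation Om G) (N : Subfield Om) {γ : G} (h0 : γ ≠ 0) (h1 : γ < 1)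
    {D : ℕ} (hD : 0 < D) (h : ∀ y ∈ N, y ≠ 0 → ∃ k : ℤ, v y ^ D = γ ^ k)
    (hf : ∃ f ∈ N, v f = γ) : ∃ e, 0 < e ∧ IsRam v N γ e := by
  have hγ : 0 < γ := zero_lt_iff.2 h0
  let H : AddSubgroup ℤ :=
    { carrier := {k | ∃ y ∈ N, y ≠ 0 ∧ v y ^ D = γ ^ k}
      zero_mem' := ⟨1, N.one_mem, one_ne_zero, by simp⟩
      add_mem' := by
        rintro a b ⟨y, hy, hy0, ha⟩ ⟨z, hz, hz0, hb⟩
        exact ⟨y * z, N.mul_mem hy hz, mul_ne_zero hy0 hz0, by
          rw [map_mul, mul_pow, ha, hb, zpow_add₀ h0]⟩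
      neg_mem' := by
        rintro a ⟨y, hy, hy0, ha⟩
        exact ⟨y⁻¹, N.inv_mem hy, inv_ne_zero hy0, by rw [map_inv₀, inv_pow, ha, zpow_neg]⟩ }
  obtain ⟨a, ha⟩ := Int.subgroup_cyclic H
  have hdiv : ∀ k ∈ H, ∃ n : ℤ, k = |a| * n := by
    intro k hk
    rw [ha, AddSubgroup.mem_closure_singleton] at hk
    obtain ⟨n, rfl⟩ := hk
    exact (abs_dvd a _).2 ⟨n, by simp [mul_comm]⟩
  have haH : |a| ∈ H := by
    have : a ∈ H := ha ▸ AddSubgroup.mem_closure_singleton_self a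
    exact abs_mem_iff.2 this
  obtain ⟨f, hfN, hf⟩ := hf
  have hDH : (D : ℤ) ∈ H := ⟨f, hfN, (v.ne_zero_iff).1 (hf ▸ h0), by rw [hf, zpow_natCast]⟩
  obtain ⟨n, hn⟩ := hdiv _ hDH
  have hapos : 0 < |a| := by
    refine abs_pos.2 fun h => ?_
    rw [h, abs_zero, zero_mul] at hn
    omega
  have hnpos : 0 < n := by
    have : 0 < |a| * n := hn ▸ (by exact_mod_cast hD)
    exact (mul_pos_iff_of_pos_left hapos).1 this
  obtain ⟨t, htN, ht0, ht⟩ := haH
  have hv0 : 0 < v t := (v.pos_iff).2 ht0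
  have inj : ∀ a b : G, a ^ D = b ^ D → a = b := fun a b hab =>
    (pow_left_inj₀ zero_le zero_le hD.ne').1 hab
  have hte : v t ^ n = γ := by
    refine inj _ _ ?_
    rw [← zpow_natCast, ← zpow_mul, mul_comm, zpow_mul, zpow_natCast, ht, ← zpow_mul, ← hn,
      zpow_natCast]
  have ht1 : v t < 1 := by
    by_contra hc
    exact absurd (hte ▸ one_le_zpow₀ (not_lt.1 hc) hnpos.le) (not_le.2 h1)
  refine ⟨n.toNat, by omega, t, htN, ht0, ht1, ?_, fun y hy hy0 => ?_⟩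
  · rw [← zpow_natCast, Int.toNat_of_nonneg hnpos.le, hte]
  · obtain ⟨k, hk⟩ := h y hy hy0
    obtain ⟨m, hm⟩ := hdiv k ⟨y, hy, hy0, hk⟩
    refine ⟨m, inj _ _ ?_⟩
    rw [hk, hm, zpow_mul, ← ht, ← zpow_natCast, ← zpow_natCast, ← zpow_mul, ← zpow_mul, mul_comm]

theorem ram_adjoin_le (v : Valuation Om G) {F : Subfield Om} {S : Set Om}
    (hF : ∀ f ∈ F, v f ≤ 1) (hS : ∀ s ∈ S, v s ≤ 1) {d : Om} (hd : d ∈ Algebra.adjoin F S) :
    v d ≤ 1 := by
  induction hd using Algebra.adjoin_induction with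
  | mem x hx => exact hS x hx
  | algebraMap a => exact hF _ a.2
  | add x y _ _ hx hy => exact v.map_add_le hx hy
  | mul x y _ _ hx hy => rw [map_mul]; exact mul_le_one' hx hy

/-- finitely many algebraic functions are regular outside a hypersurface. -/
theorem ram_gen [CharZero Om] (F : Subfield Om) (S : Set Om) (T : Finset Om)
    (hT : ∀ g ∈ T, IsAlgebraic (Subfield.closure ((F : Set Om) ∪ S)) g) :
    ∃ d ∈ Algebra.adjoin F S, d ≠ 0 ∧ ∀ v : Valuation Om G, (∀ f ∈ F, v f ≤ 1) →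
      (∀ s ∈ S, v s ≤ 1) → v d = 1 → ∀ g ∈ T, v g ≤ 1 := by
  classical
  induction T using Finset.induction_on with
  | empty => exact ⟨1, one_mem _, one_ne_zero, fun _ _ _ _ g hg => by simp at hg⟩
  | insert a T ha ih =>
    obtain ⟨d, hd, hd0, H⟩ := ih fun g hg => hT g (Finset.mem_insert_of_mem hg)
    obtain ⟨q, hq, hqa, hq'⟩ := Rigid_poly F S a (hT a (Finset.mem_insert_self a T))
    have hq0 : q ≠ 0 := fun h => hq' (by simp [h])
    have hl : q.leadingCoeff ≠ 0 := leadingCoeff_ne_zero.2 hq0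
    refine ⟨d * q.leadingCoeff, mul_mem hd (hq _), mul_ne_zero hd0 hl, fun v hF hS h1 g hg => ?_⟩
    have h2 := ram_adjoin_le v hF hS hd
    have h3 : v q.leadingCoeff ≤ 1 := ram_adjoin_le v hF hS (hq _)
    rw [map_mul] at h1
    have h4 : v d = 1 := le_antisymm h2 (by
      calc (1 : G) = v d * v q.leadingCoeff := h1.symm
        _ ≤ v d := mul_le_of_le_one_right' h3)
    rw [h4, one_mul] at h1
    rcases Finset.mem_insert.1 hg with rfl | hg
    · refine v_le_one_of_root (F := ⊤) (q := q * C q.leadingCoeff⁻¹) (mem_PO.2 fun i => ⟨trivial, ?_⟩)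
        (monic_mul_leadingCoeff_inv hq0) (by rw [eval_mul, hqa, zero_mul])
      rw [coeff_mul_C, map_mul, map_inv₀, h1, inv_one, mul_one]
      exact ram_adjoin_le v hF hS (hq _)
    · exact H v hF hS h4 g hg

/-- a finite extension is unramified outside a hypersurface. -/
theorem ram_unr [CharZero Om] (F : Subfield Om) (S : Set Om) (T : Finset Om)
    (hT : ∀ g ∈ T, IsAlgebraic (Subfield.closure ((F : Set Om) ∪ S)) g) :
    ∃ d ∈ Algebra.adjoin F S, d ≠ 0 ∧ ∀ v : Valuation Om G,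
      (∀ c y : Om, v c < 1 → y ≠ 0 → ∃ k : ℕ, v c ^ k < v y) → (∀ f ∈ F, v f ≤ 1) →
      (∀ s ∈ S, v s ≤ 1) → v d = 1 →
      ∀ y ∈ Subfield.closure ((Subfield.closure ((F : Set Om) ∪ S) : Set Om) ∪ T),
        ∃ f ∈ Subfield.closure ((F : Set Om) ∪ S), v y = v f := by
  classical
  set K := Subfield.closure ((F : Set Om) ∪ S) with hK
  let A : Om → Finset Om := fun th => insert (aeval th (derivative (minpoly K th)))⁻¹
    ((Finset.range ((minpoly K th).natDegree + 1)).image fun i => ((minpoly K th).coeff i : Om))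
  obtain ⟨d, hd, hd0, H⟩ := ram_gen (G := G) F S (T.biUnion A) (by
    intro g hg
    obtain ⟨th, hth, hg⟩ := Finset.mem_biUnion.1 hg
    rcases Finset.mem_insert.1 hg with rfl | hg
    · exact (IsIntegral.of_mem_of_fg _ (hT th hth).isIntegral.fg_adjoin_singleton _
        (aeval_mem_adjoin_singleton K th)).isAlgebraic.inv
    · obtain ⟨i, -, rfl⟩ := Finset.mem_image.1 hg
      exact isAlgebraic_algebraMap ((minpoly K th).coeff i))
  refine ⟨d, hd, hd0, fun v harch hF hS h1 y hy => ?_⟩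
  have H1 := H v hF hS h1
  rw [closure_eq_adjoin] at hy
  refine IntermediateField.induction_on_adjoin_finset T
    (fun L => ∀ z ∈ L, ∃ f ∈ K, v z = v f) ?_ ?_ y hy
  · intro z hz
    obtain ⟨f, rfl⟩ := IntermediateField.mem_bot.1 hz
    exact ⟨f, f.2, rfl⟩
  · intro L x hx hL z hz
    have hxa : IsAlgebraic K x := hT x hx
    have hz' : z ∈ Subfield.closure ((L.toSubfield : Set Om) ∪ {x}) := by
      rw [closure_eq_adjoin]
      exact hz
    have hsep : (minpoly K x).Separable := (minpoly.irreducible hxa.isIntegral).separable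
    have hd1 : aeval x (derivative (minpoly K x)) ≠ 0 :=
      hsep.aeval_derivative_ne_zero (minpoly.aeval K x)
    have hPO : (minpoly K x).map (algebraMap K Om) ∈ PO v L.toSubfield := mem_PO.2 fun i => by
      rw [coeff_map]
      refine ⟨L.algebraMap_mem _, ?_⟩
      by_cases hi : i ≤ (minpoly K x).natDegree
      · exact H1 _ (Finset.mem_biUnion.2 ⟨x, hx, Finset.mem_insert_of_mem
          (Finset.mem_image.2 ⟨i, Finset.mem_range.2 (Nat.lt_succ_of_le hi), rfl⟩)⟩)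
      · rw [coeff_eq_zero_of_natDegree_lt (not_le.1 hi), map_zero, map_zero]
        exact zero_le
    have hm : ((minpoly K x).map (algebraMap K Om)).Monic := (minpoly.monic hxa.isIntegral).map _
    have he : ((minpoly K x).map (algebraMap K Om)).eval x = 0 := by
      rw [eval_map_algebraMap, minpoly.aeval]
    have h2 : v (((minpoly K x).map (algebraMap K Om)).derivative.eval x) = 1 := by
      refine le_antisymm (PO_eval_le (PO_deriv hPO) (v_le_one_of_root hPO hm he)) ?_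
      have h3 := H1 _ (Finset.mem_biUnion.2 ⟨x, hx, Finset.mem_insert_self _ _⟩)
      rw [map_inv₀, inv_le_one₀ ((v.pos_iff).2 hd1)] at h3
      rwa [derivative_map, eval_map_algebraMap]
    obtain ⟨f, hf, hfe⟩ := unr v harch L.toSubfield hPO hm he h2 hz'
    obtain ⟨f', hf', hfe'⟩ := hL f hf
    exact ⟨f', hf', hfe.trans hfe'⟩

theorem ram_arch (v : Valuation Om ℝ≥0) (c y : Om) (hc : v c < 1) (hy : y ≠ 0) :
    ∃ k : ℕ, v c ^ k < v y :=
  NNReal.exists_pow_lt_of_lt_one ((v.pos_iff).2 hy) hc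

/-- a positive real power of a real valuation. -/
noncomputable def ramPow (v : Valuation Om ℝ≥0) (s : ℝ) (hs : 0 < s) : Valuation Om ℝ≥0 :=
  v.map { NNReal.rpowMonoidHom s with map_zero' := NNReal.zero_rpow hs.ne' }
    (fun _ _ h => NNReal.rpow_le_rpow h hs.le)

@[simp] theorem ramPow_apply (v : Valuation Om ℝ≥0) (s : ℝ) (hs : 0 < s) (y : Om) :
    ramPow v s hs y = v y ^ s := rfl

theorem ram_exists_rpow {a b : ℝ≥0} (ha0 : a ≠ 0) (ha : a < 1) (hb0 : b ≠ 0) (hb : b < 1) :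
    ∃ s : ℝ, 0 < s ∧ a ^ s = b := by
  have h1 : (0 : ℝ) < a := NNReal.coe_pos.2 (zero_lt_iff.2 ha0)
  have h2 : (0 : ℝ) < b := NNReal.coe_pos.2 (zero_lt_iff.2 hb0)
  have h3 : Real.log a < 0 := Real.log_neg h1 (by exact_mod_cast ha)
  have h4 : Real.log b < 0 := Real.log_neg h2 (by exact_mod_cast hb)
  refine ⟨Real.log b / Real.log a, div_pos_of_neg_of_neg h4 h3, NNReal.eq ?_⟩
  rw [NNReal.coe_rpow, Real.rpow_def_of_pos h1, mul_div_cancel₀ _ h3.ne, Real.exp_log h2]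

theorem ram_zpow_rpow (a : ℝ≥0) (k : ℤ) (s : ℝ) : (a ^ k) ^ s = (a ^ s) ^ k := by
  rw [← NNReal.rpow_intCast, ← NNReal.rpow_intCast, ← NNReal.rpow_mul, ← NNReal.rpow_mul,
    mul_comm]

theorem IsRam.rpow {v : Valuation Om ℝ≥0} {N : Subfield Om} {γ : ℝ≥0} {e : ℕ}
    (h : IsRam v N γ e) (s : ℝ) (hs : 0 < s) : IsRam (ramPow v s hs) N (γ ^ s) e := by
  obtain ⟨t, ht, ht0, ht1, hte, hg⟩ := h
  refine ⟨t, ht, ht0, NNReal.rpow_lt_one ht1 hs, ?_, fun y hy hy0 => ?_⟩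
  · rw [ramPow_apply, ← hte, ← zpow_natCast, ← zpow_natCast, ram_zpow_rpow]
  · obtain ⟨k, hk⟩ := hg y hy hy0
    exact ⟨k, by rw [ramPow_apply, ramPow_apply, hk, ram_zpow_rpow]⟩

/-- transport along an automorphism that preserves `N`. -/
theorem IsRam.aut {v v' : Valuation Om G} {N : Subfield Om} {γ : G} {e : ℕ}
    (h : IsRam v N γ e) (g : Om ≃+* Om) (h1 : ∀ y ∈ N, g y ∈ N) (h2 : ∀ y ∈ N, g.symm y ∈ N)
    (hv : ∀ y ∈ N, v' (g y) = v y) : IsRam v' N γ e := by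
  obtain ⟨t, ht, ht0, ht1, hte, hg⟩ := h
  refine ⟨g t, h1 t ht, by simpa using ht0, by rwa [hv t ht], by rwa [hv t ht], fun y hy hy0 => ?_⟩
  obtain ⟨k, hk⟩ := hg (g.symm y) (h2 y hy) (by simpa using hy0)
  refine ⟨k, ?_⟩
  rw [hv t ht, ← hk, ← hv _ (h2 y hy), g.apply_symm_apply]

/-- CONJ with scaling: two real valuations whose restrictions to `K` are powers of the value of
one element `π`, with the same exponents, differ by an automorphism over `K` and a scale. -/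
theorem ram_conj_scale [IsAlgClosed Om] [CharZero Om] (K : Subfield Om)
    (halg : ∀ y : Om, IsAlgebraic K y) (v v' : Valuation Om ℝ≥0) {π : Om} (h0 : π ≠ 0)
    (h1 : v π < 1) (h1' : v' π < 1)
    (h : ∀ f ∈ K, f ≠ 0 → ∃ k : ℤ, v f = v π ^ k ∧ v' f = v' π ^ k) :
    ∃ (s : ℝ) (σ : Om ≃ₐ[K] Om), 0 < s ∧ v π ^ s = v' π ∧ ∀ y, v' (σ y) = v y ^ s := by
  obtain ⟨s, hs, he⟩ := ram_exists_rpow ((v.ne_zero_iff).2 h0) h1 ((v'.ne_zero_iff).2 h0) h1'
  obtain ⟨σ, hσ⟩ := conj_top K ⟨halg⟩ (ramPow v s hs) v' (by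
    intro y hy
    by_cases hy0 : y = 0
    · simp [hy0, hs.ne']
    obtain ⟨k, hk, hk'⟩ := h y hy hy0
    rw [ramPow_apply, hk, hk', ram_zpow_rpow, he])
  exact ⟨s, σ, hs, he, hσ⟩

theorem IsRam.conj [IsAlgClosed Om] [CharZero Om] (K : Subfield Om)
    (halg : ∀ y : Om, IsAlgebraic K y) {N : Subfield Om}
    (hN : ∀ σ : Om ≃ₐ[K] Om, ∀ y ∈ N, σ y ∈ N) {v v' : Valuation Om ℝ≥0} {π : Om} (h0 : π ≠ 0)
    (h1 : v π < 1) (h1' : v' π < 1)
    (h : ∀ f ∈ K, f ≠ 0 → ∃ k : ℤ, v f = v π ^ k ∧ v' f = v' π ^ k) {e : ℕ}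
    (hr : IsRam v N (v π) e) : IsRam v' N (v' π) e := by
  obtain ⟨s, σ, hs, he, hσ⟩ := ram_conj_scale K halg v v' h0 h1 h1' h
  have h2 := hr.rpow s hs
  rw [he] at h2
  exact h2.aut σ.toRingEquiv (hN σ) (hN σ.symm) fun y _ => hσ y

end Pool.Agent.Lib.MP_5c318e_ag
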