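import Pool.Agent.Lib.MP_5c318e_ag.RamB
import Pool.Agent.Lib.MP_5c318e_ag.Jac0

/-! Points of the geometric generic fibre over the `x`-line and the bound `sum eps ≥ 2`. -/

namespace Pool.Agent.Lib.MP_5c318e_ag

open Polynomial
open scoped NNReal Classical

variable {Om : Type} [Field Om] [Algebra ℂ Om]

/-- local computation at a uniformiser `t` over a trivially valued field `F` -/
theorem ram_loc [IsAlgClosed Om] {F N : Subfield Om} {v : RV Om} (hv : Triv v F) (hFN : F ≤ N)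
    (D : Derivation ℂ Om Om) (hD : ∀ c ∈ F, D c = 0) {t : Om} (htN : t ∈ N) (ht0 : t ≠ 0)
    (ht1 : v t < 1) (hg : Grp v N t) (halg : ∀ y : Om, y ∈ acl (adj F {t})) :
    (∀ y ∈ N, v y ≤ 1 → v (D y) ≤ v (D t)) ∧ (∀ h, v (D h) * v t ≤ v (D t) * v h) ∧
      ∀ π ∈ N, ∀ e : ℕ, 0 < e → v π = v t ^ e → v (D π) * v t = v (D t) * v π := by
  have : CharZero Om := charZero_of_algebra
  have hn := hv.hv
  have hy : RInd v F fun a : {a : Unit // a ≠ ()} => (fun _ : Unit => t) a := by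
    have : IsEmpty {a : Unit // a ≠ ()} := ⟨fun a => a.2 rfl⟩
    intro p hp
    rw [MvPolynomial.eq_C_of_isEmpty p] at hp ⊢
    rw [MvPolynomial.aeval_C]
    exact hv _ (MvPolynomial.coeff 0 p).2 fun h => hp (by
      rw [show MvPolynomial.coeff 0 p = 0 from Subtype.ext h, map_zero])
  have hr : Set.range (fun _ : Unit => t) = {t} := Set.range_const
  have hal : ∀ y : Om, IsAlgebraic (Subfield.closure ((F : Set Om) ∪
      Set.range fun _ : Unit => t)) y := fun y => by rw [hr]; exact mem_acl.1 (halg y)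
  have hv0 : v t ≠ 0 := (v.ne_zero_iff).2 ht0
  have h1 : ∀ y ∈ N, v y ≤ 1 → v (D y) ≤ v (D t) := fun y hyN hy1 =>
    key_reg (b := fun _ : Unit => t) (i0 := ()) hn ht0 ht1 hy D hD (fun _ => le_rfl) N hFN
      (fun _ => htN) (fun z _ => hal z) hg hyN hy1
  refine ⟨h1, fun h => ?_, fun π hπ e he hve => ?_⟩
  · have h2 := key_log (b := fun _ : Unit => t) (i0 := ()) hn ht1 hy D
      (del := v (D t) * (v t)⁻¹) hD (fun _ => by rw [inv_mul_cancel_right₀ hv0]) (hal h)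
    calc v (D h) * v t ≤ v (D t) * (v t)⁻¹ * v h * v t := mul_le_mul_left h2 _
      _ = v (D t) * v h := by field_simp
  · obtain ⟨k, rfl⟩ : ∃ k, e = k + 1 := ⟨e - 1, by omega⟩
    have hte : t ^ (k + 1) ≠ 0 := pow_ne_zero _ ht0
    set u := π / t ^ (k + 1) with hu
    have hu1 : v u = 1 := by
      rw [hu, map_div₀, map_pow, hve, div_self (pow_ne_zero _ hv0)]
    have hπe : π = t ^ (k + 1) * u := by rw [hu, mul_div_cancel₀ _ hte]
    have hDu := h1 u (div_mem hπ (pow_mem htN _)) hu1.le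
    have hDπ : D π = ((k + 1 : ℕ) : Om) * t ^ k * u * D t + t ^ (k + 1) * D u := by
      rw [hπe, Derivation.leibniz, Derivation.leibniz_pow]
      simp only [smul_eq_mul, nsmul_eq_mul, Nat.add_sub_cancel]
      ring
    have ha : v (((k + 1 : ℕ) : Om) * t ^ k * u * D t) = v t ^ k * v (D t) := by
      rw [map_mul, map_mul, map_mul, hn _ (Nat.succ_ne_zero k), hu1, map_pow, one_mul, mul_one]
    have hfin : v (D π) = v t ^ k * v (D t) := by
      by_cases h0 : D t = 0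
      · rw [h0, map_zero, le_zero_iff, v.zero_iff] at hDu
        rw [hDπ, h0, hDu]
        simp
      rw [hDπ, v.map_add_eq_of_lt_left, ha]
      rw [ha, map_mul, map_pow, pow_succ, mul_assoc]
      refine mul_lt_mul_of_pos_left ?_ (pow_pos (zero_lt_iff.2 hv0) k)
      calc v t * v (D u) ≤ v t * v (D t) := mul_le_mul_right hDu _
        _ < 1 * v (D t) := mul_lt_mul_of_pos_right ht1 ((v.pos_iff).2 h0)
        _ = v (D t) := one_mul _
    rw [hfin, hve, pow_succ]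
    ring

namespace Ctx0

variable (X : Ctx0 Om)

theorem ramc_Kp : X.Kp ≤ X.Kb := (le_acl _).trans X.aclKp.le

theorem ramc_Kb_Eb : X.Kb ≤ X.Eb := X.aclKp.ge.trans (acl_mono le_sup_right)

theorem ramc_dF_Kb (o : X.iF) : ∀ c ∈ X.Kb, X.dF o c = 0 := by
  have : CharZero Om := charZero_of_algebra
  intro c hc
  refine der_zero_acl _ (S := (C0 Om : Set Om) ∪ Set.range X.s) ?_
    (mem_acl.1 (acl_le X.frK.alg hc))
  rintro y (hy | ⟨i, rfl⟩)
  · exact X.frT.kill _ y hy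
  · simpa using X.frT.dual (Sum.inr o) (Sum.inl i)

theorem ramc_dF_dual (o o' : X.iF) :
    X.dF o (o'.elim X.x X.a) = if o' = o then 1 else 0 := by
  have := X.frT.dual (Sum.inr o) (Sum.inr o')
  simpa using this

theorem ramc_dx_x : X.dx X.x = 1 := by simpa using X.ramc_dF_dual none none

theorem ramc_dx_Eb : ∀ c ∈ X.Eb, X.dx c = 0 := by
  have : CharZero Om := charZero_of_algebra
  have hL : X.L ≤ consts X.dx := fun c hc => by
    refine der_zero_acl _ (S := (C0 Om : Set Om) ∪ Set.range X.a) ?_ (mem_acl.1 (X.frA.alg hc))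
    rintro y (hy | ⟨i, rfl⟩)
    · exact X.frT.kill _ y hy
    · simpa using X.ramc_dF_dual none (some i)
  have hK : X.Kp ≤ consts X.dx := fun c hc => X.ramc_dF_Kb none c (X.ramc_Kp hc)
  exact fun c hc => der_zero_alg _ X.E (fun c hc => sup_le hL hK hc) (mem_acl.1 hc)

theorem ramc_trans : Transcendental X.E X.x := fun h => by
  have := X.ramc_dx_Eb _ (mem_acl.2 h)
  rw [X.ramc_dx_x] at this
  exact one_ne_zero this

theorem ramc_algF (y : Om) : y ∈ acl (adj X.Kb (Set.range fun o : X.iF => o.elim X.x X.a)) := by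
  refine acl_mono (adj_le ((X.frK.le.trans (le_acl _)).trans (le_adj _ _)) ?_)
    (X.frT.alg (Subfield.mem_top y))
  rintro _ ⟨i | o, rfl⟩
  · exact le_adj _ _ (le_acl _ (X.frK.mem i))
  · exact mem_adj _ ⟨o, rfl⟩

theorem ramc_alg (y : Om) : y ∈ acl X.Ex := by
  refine acl_le (adj_le (X.ramc_Kb_Eb.trans (acl_mono (le_adj _ _))) ?_) (X.ramc_algF y)
  rintro _ ⟨_ | j, rfl⟩
  · exact le_acl _ (mem_adj _ rfl)
  · exact le_acl _ (le_adj _ _ ((le_sup_left : X.L ≤ X.E) (X.frA.mem j)))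

theorem ramc_alg' (y : Om) : y ∈ acl (adj X.Eb {X.x}) :=
  acl_mono (ram_adj_mono (le_acl _) _) (X.ramc_alg y)

theorem ramc_a_E (j : Fin X.n) : X.a j ∈ X.E := (le_sup_left : X.L ≤ X.E) (X.frA.mem j)

theorem ramc_E_N : X.E ≤ X.N := (le_adj _ _).trans X.ExN

theorem ramc_N_Mb : X.N ≤ X.Mb := le_sup_left.trans X.NM.le

/-- the compositum of `N` with the algebraic closure of `E` -/
noncomputable abbrev NN : Subfield Om := adj X.N X.Eb

theorem ramc_Mb_NN : X.Mb ≤ X.NN :=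
  X.NM.ge.trans (sup_le (le_adj _ _) fun _ h => mem_adj _ (X.ramc_Kb_Eb h))

theorem ramc_Mb1_NN : X.Mb1 ≤ X.NN :=
  adj_le X.ramc_Mb_NN fun y hy => mem_adj _ (X.ram.mem y hy)

theorem ramc_jac (t : Om) (c : Fin X.n → Om) (hc : ∀ j, c j ∈ X.Eb) :
    Jac X.dF (fun o => o.elim t c) = Jac X.dA c * X.dx t := by
  have h1 := jac_sum X.dA (fun _ : PUnit.{1} => X.dx) c (fun _ => t)
    fun a _ => X.ramc_dx_Eb _ (hc a)
  have h2 := jac_equiv (Sum.elim X.dA fun _ : PUnit.{1} => X.dx) (Sum.elim c fun _ => t)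
    (Equiv.optionEquivSumPUnit.{0} (Fin X.n))
  have h3 : Jac (fun _ : PUnit.{1} => X.dx) (fun _ => t) = X.dx t := by
    simp [Jac, Matrix.det_unique]
  rw [← h3, ← h1, ← h2]
  congr 1
  · funext o; cases o <;> rfl
  · funext o; cases o <;> rfl

theorem ramc_jac_a : Jac X.dA X.a = 1 :=
  jac_self fun j a => by simpa using X.ramc_dF_dual (some j) (some a)

theorem ramc_rind {v : RV Om} (hv : Triv v X.E) (t : Om) :
    RInd v X.Kb fun j : {j : X.iF // j ≠ none} => (j : X.iF).elim t X.a := by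
  have : CharZero Om := charZero_of_algebra
  have h1 : AlgebraicIndependent X.Kb fun o : X.iF => o.elim X.x X.a :=
    indep_of_jac X.dF X.ramc_dF_Kb (by rw [jac_self X.ramc_dF_dual]; exact one_ne_zero)
  have h2 := h1.comp (Subtype.val : {j : X.iF // j ≠ none} → X.iF) Subtype.val_injective
  have he : (fun j : {j : X.iF // j ≠ none} => (j : X.iF).elim t X.a) =
      (fun o : X.iF => o.elim X.x X.a) ∘ Subtype.val := by
    funext ⟨o, ho⟩
    cases o with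
    | none => exact absurd rfl ho
    | some j => rfl
  intro p hp
  refine hv.toAcl _ ?_ (by rw [he]; exact fun h => hp (h2 (by rw [h, map_zero])))
  clear hp
  induction p using MvPolynomial.induction_on with
  | C c => rw [MvPolynomial.aeval_C]; exact X.ramc_Kb_Eb c.2
  | add p q hp hq => rw [map_add]; exact add_mem hp hq
  | mul_X p j hp =>
    rw [map_mul, MvPolynomial.aeval_X]
    refine mul_mem hp ?_
    obtain ⟨o, ho⟩ := j
    cases o with
    | none => exact absurd rfl ho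
    | some j => exact le_acl _ (X.ramc_a_E j)

variable [IsAlgClosed Om]

/-- everything at a valuation trivial on `E` with uniformiser `t` of `N` -/
theorem fib_unif {v : RV Om} (hv : Triv v X.E) {t : Om} (htN : t ∈ X.N) (ht0 : t ≠ 0)
    (ht1 : v t < 1) (hg : Grp v X.N t) :
    DivPt X.Kb X.Mb v (fun o : X.iF => o.elim t X.a) none ∧ Grp v X.NN t ∧ X.dx t ≠ 0 ∧
      Jac X.dF (fun o => o.elim t X.a) = X.dx t ∧
      (∀ f : X.iF → Om, (∀ o, f o ∈ X.NN) → (∀ o, v (f o) ≤ 1) → v (Jac X.dF f) ≤ v (X.dx t)) ∧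
      (∀ h, v (X.dx h) * v t ≤ v (X.dx t) * v h) ∧
      ∀ π ∈ X.NN, ∀ e : ℕ, 0 < e → v π = v t ^ e → v (X.dx π) * v t = v (X.dx t) * v π := by
  have : CharZero Om := charZero_of_algebra
  have hg' : Grp v X.NN t := hg.of_val (val_adj X.ramc_E_N hv fun a ha => ha)
  have htr : Transcendental X.Eb t := fun h =>
    ht1.ne (hv.toAcl.toAcl t (mem_acl.2 h) ht0)
  have hal : ∀ y, y ∈ acl (adj X.Eb {t}) := fun y => by
    have h1 := alg_of_indep (k0 := X.Eb) (b := fun _ : Unit => X.x) (f := fun _ : Unit => t)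
      (algebraicIndependent_unique_type_iff.2 (ram_trans_acl X.ramc_trans))
      (algebraicIndependent_unique_type_iff.2 htr)
      (fun _ => by rw [Set.range_const]; exact mem_acl.1 (X.ramc_alg' _)) (x := y)
      (by rw [Set.range_const]; exact mem_acl.1 (X.ramc_alg' _))
    rw [Set.range_const] at h1
    exact mem_acl.2 h1
  have hdt : X.dx t ≠ 0 := fun h => by
    have h1 := der_zero_acl X.dx (S := (X.Eb : Set Om) ∪ {t}) (by
      rintro y (hy | hy)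
      · exact X.ramc_dx_Eb y hy
      · rw [Set.mem_singleton_iff.1 hy, h]) (mem_acl.1 (hal X.x))
    rw [X.ramc_dx_x] at h1
    exact one_ne_zero h1
  have hJ : Jac X.dF (fun o => o.elim t X.a) = X.dx t := by
    rw [X.ramc_jac t X.a fun j => le_acl _ (X.ramc_a_E j), X.ramc_jac_a, one_mul]
  have hbN : ∀ o : X.iF, o.elim t X.a ∈ X.N := fun o => by
    cases o with
    | none => exact htN
    | some j => exact X.ramc_E_N (X.ramc_a_E j)
  have hEN : X.Eb ≤ X.NN := fun _ h => mem_adj _ h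
  have hNN : X.N ≤ X.NN := le_adj _ _
  have hJ0 : Jac X.dF (fun o => o.elim t X.a) ≠ 0 := by rw [hJ]; exact hdt
  have hJ1 : Jac X.dF (fun o => o.elim X.x X.a) ≠ 0 := by
    rw [jac_self X.ramc_dF_dual]; exact one_ne_zero
  have hal2 : ∀ z : Om, IsAlgebraic (Subfield.closure ((X.Kb : Set Om) ∪
      Set.range fun o : X.iF => o.elim t X.a)) z := fun z =>
    alg_of_jac X.dF X.ramc_dF_Kb hJ1 hJ0 (fun _ => mem_acl.1 (X.ramc_algF _))
      (mem_acl.1 (X.ramc_algF z))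
  obtain ⟨-, h2, h3⟩ := ram_loc (F := X.Eb) (N := X.NN) hv.toAcl hEN X.dx X.ramc_dx_Eb
    (hNN htN) ht0 ht1 hg' hal
  refine ⟨⟨fun o => X.ramc_N_Mb (hbN o), ht0, ht1, X.ramc_rind hv t, hg'.mono X.ramc_Mb_NN⟩, hg',
    hdt, hJ, fun f hf hf1 => ?_, h2, h3⟩
  rw [← hJ]
  exact KEY1 (k0 := X.Kb) (b := fun o : X.iF => o.elim t X.a) (i0 := none) hv.hv X.dF
    X.ramc_dF_Kb ht1 (X.ramc_rind hv t) hJ0 X.NN (X.ramc_Kb_Eb.trans hEN)
    (fun o => hNN (hbN o)) (fun z _ => hal2 z) hg' f hf hf1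

omit [IsAlgClosed Om] in
theorem ramc_e_pos (ρ : Om) : 0 < X.e ρ := by
  by_cases h : ρ ∈ X.R
  · exact lt_of_lt_of_le two_pos (X.ram.two ρ h)
  · rw [X.ram.one ρ h]; exact one_pos

/-- the point of the fibre at a valuation trivial on `E` with finite centre -/
theorem fib_pt {v : RV Om} (hv : Triv v X.E) {ρ : Om} (hρ : ρ ∈ X.Eb) (h : v (X.x - ρ) < 1) :
    ∃ t ∈ X.N, DivPt X.Kb X.Mb v (fun o : X.iF => o.elim t X.a) none ∧ Grp v X.NN t ∧
      v (X.x - ρ) = v t ^ X.e ρ ∧ v (X.dx t) * v (X.x - ρ) = v t ∧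
      Jac X.dF (fun o => o.elim t X.a) = X.dx t ∧
      (∀ f : X.iF → Om, (∀ o, f o ∈ X.NN) → (∀ o, v (f o) ≤ 1) → v (Jac X.dF f) ≤ v (X.dx t)) ∧
      ∀ g, v (X.dx g) * v (X.x - ρ) ≤ v g := by
  obtain ⟨t, htN, ht0, ht1, hte, hg⟩ := X.ram.fin v hv ρ hρ h
  obtain ⟨h1, h2, -, h4, h5, h6, h7⟩ := X.fib_unif hv htN ht0 ht1 hg
  have h8 := h7 (X.x - ρ) (sub_mem (le_adj _ _ (X.ExN (mem_adj _ rfl))) (mem_adj _ hρ)) _
    (X.ramc_e_pos ρ) hte
  rw [map_sub, X.ramc_dx_x, X.ramc_dx_Eb ρ hρ, sub_zero, map_one, one_mul] at h8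
  refine ⟨t, htN, h1, h2, hte, h8.symm, h4, h5, fun g => ?_⟩
  have hp : 0 < v (X.dx t) := by
    refine zero_lt_iff.2 fun h0 => ht0 (v.zero_iff.1 ?_)
    rw [h8, h0, zero_mul]
  refine le_of_mul_le_mul_left ?_ hp
  calc v (X.dx t) * (v (X.dx g) * v (X.x - ρ)) = v (X.dx g) * (v (X.dx t) * v (X.x - ρ)) := by ring
    _ = v (X.dx g) * v t := by rw [← h8]
    _ ≤ _ := h6 g

/-- the point of the fibre at a valuation trivial on `E` centred at infinity -/
theorem fib_inf {v : RV Om} (hv : Triv v X.E) (h : 1 < v X.x) :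
    DivPt X.Kb X.Mb v (fun o : X.iF => o.elim X.x⁻¹ X.a) none ∧ Grp v X.NN X.x⁻¹ ∧
      v (Jac X.dF fun o => o.elim X.x⁻¹ X.a) = v X.x⁻¹ ^ 2 ∧
      (∀ f : X.iF → Om, (∀ o, f o ∈ X.NN) → (∀ o, v (f o) ≤ 1) →
        v (Jac X.dF f) ≤ v X.x⁻¹ ^ 2) ∧
      ∀ g, v (X.dx g) ≤ v X.x⁻¹ * v g := by
  have hx0 : X.x ≠ 0 := fun h0 => by rw [h0, map_zero] at h; exact not_lt_zero h
  have ht1 : v X.x⁻¹ < 1 := by rw [map_inv₀]; exact inv_lt_one_of_one_lt₀ h
  have hg : Grp v X.N X.x⁻¹ := fun y hy h0 => by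
    obtain ⟨k, hk⟩ := X.ram.inf v hv h y hy h0
    exact ⟨-k, by rw [hk, map_inv₀, inv_zpow', neg_neg]⟩
  obtain ⟨h1, h2, -, h4, h5, h6, -⟩ := X.fib_unif hv (inv_mem (X.ExN (mem_adj _ rfl)))
    (inv_ne_zero hx0) ht1 hg
  have h8 : v (X.dx X.x⁻¹) = v X.x⁻¹ ^ 2 := by
    rw [Derivation.leibniz_inv, X.ramc_dx_x]
    simp
  refine ⟨h1, h2, by rw [h4, h8], fun f hf hf1 => h8 ▸ h5 f hf hf1, fun g => ?_⟩
  have h9 := h6 g
  rw [h8, pow_two, mul_comm, mul_assoc] at h9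
  exact le_of_mul_le_mul_left h9 ((v.pos_iff).2 (inv_ne_zero hx0))

/-- regularity of weight `j` along the valuations trivial on `E` -/
def RL (j : ℕ) : AddSubgroup Om where
  carrier := {φ | ∀ v : RV Om, Triv v X.E →
    (∀ ρ ∈ X.Eb, v (X.x - ρ) < 1 → Ge v φ (-(j * ((1 - 1 / (X.e ρ : ℝ)) * w v (X.x - ρ))))) ∧
      (1 < v X.x → Ge v φ (-(2 * j * w v X.x)))}
  zero_mem' := fun _ _ => ⟨fun _ _ _ => Ge.zero _, fun _ => Ge.zero _⟩
  add_mem' := fun ha hb v hv => ⟨fun ρ hρ h => ((ha v hv).1 ρ hρ h).add ((hb v hv).1 ρ hρ h),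
    fun h => ((ha v hv).2 h).add ((hb v hv).2 h)⟩
  neg_mem' := fun ha v hv => ⟨fun ρ hρ h => ((ha v hv).1 ρ hρ h).neg, fun h => ((ha v hv).2 h).neg⟩

omit [IsAlgClosed Om] in
theorem RL_one : (1 : Om) ∈ X.RL 0 := fun _ _ =>
  ⟨fun _ _ _ => Ge.one.mono (by simp), fun _ => Ge.one.mono (by simp)⟩

omit [IsAlgClosed Om] in
theorem RL_mul (a b : ℕ) (x y : Om) (hx : x ∈ X.RL a) (hy : y ∈ X.RL b) :
    x * y ∈ X.RL (a + b) := fun v hv =>
  ⟨fun ρ hρ h => (((hx v hv).1 ρ hρ h).mul ((hy v hv).1 ρ hρ h)).mono (by push_cast; linarith),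
    fun h => (((hx v hv).2 h).mul ((hy v hv).2 h)).mono (by push_cast; linarith)⟩

omit [IsAlgClosed Om] in
theorem RL_aut {j : ℕ} {φ : Om} (h : φ ∈ X.RL j) (g : Om ≃ₐ[X.Ex] Om) : g φ ∈ X.RL j := by
  intro v hv
  have hfix : ∀ u ∈ X.Ex, g u = u := fun u hu => g.commutes ⟨u, hu⟩
  have hv' : Triv (vaut v g) X.E := fun u hu h0 => by
    rw [vaut_apply, hfix u (le_adj _ _ hu)]; exact hv u hu h0
  have hx : g X.x = X.x := hfix _ (mem_adj _ rfl)
  refine ⟨fun ρ hρ h1 h0 => ?_, fun h1 h0 => ?_⟩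
  · have hρ' : g.symm ρ ∈ X.Eb :=
      mem_acl.2 ((mem_acl.1 hρ).algHom (ramRes (le_adj X.E {X.x}) g.symm).toAlgHom)
    have h2 : vaut v g (X.x - g.symm ρ) = v (X.x - ρ) := by
      rw [vaut_apply, map_sub, hx, g.apply_symm_apply]
    have h3 := (h _ hv').1 _ hρ' (h2 ▸ h1) (fun h4 => h0 (by rw [h4, map_zero]))
    rw [X.ram.e_aut X.ramc_trans X.ramc_alg X.norN g.symm hρ] at h3
    simpa only [w, h2, vaut_apply] using h3
  · have h3 := (h _ hv').2 (by rwa [vaut_apply, hx]) (fun h4 => h0 (by rw [h4, map_zero]))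
    simpa only [w, vaut_apply, hx] using h3

theorem RL_of_RegF {m : ℕ} {ψ : Om} (h : X.RegF m ψ) : ψ ∈ X.RL m := by
  intro v hv
  refine ⟨fun ρ hρ h1 => ?_, fun h1 => ?_⟩
  · obtain ⟨t, -, hd, -, hte, hdt, hJ, -⟩ := X.fib_pt hv hρ h1
    have ht0 : t ≠ 0 := hd.2.1
    have h0 := ram_sub_ne X.ramc_trans hρ
    have hd0 : X.dx t ≠ 0 := fun h => ht0 (v.zero_iff.1 (by rw [← hdt, h, map_zero, zero_mul]))
    have h2 := h v _ _ hd
    rw [hJ, le_pow_iff_ge hd0] at h2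
    have h3 : w v (X.dx t) + w v (X.x - ρ) = w v t := by
      rw [← w_mul hd0 h0]; exact w_congr (by rw [map_mul, hdt])
    have h4 : w v (X.x - ρ) = X.e ρ * w v t := by
      rw [← w_pow]; exact w_congr (by rw [map_pow, hte])
    have h5 : (X.e ρ : ℝ) ≠ 0 := Nat.cast_ne_zero.2 (X.ramc_e_pos ρ).ne'
    refine h2.mono (le_of_eq ?_)
    rw [eq_sub_of_add_eq h3, h4]
    field_simp
    ring
  · obtain ⟨hd, -, hJ, -⟩ := X.fib_inf hv h1
    have h2 := h v _ _ hd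
    rw [hJ, ← pow_mul, le_pow_iff_ge (show X.x⁻¹ ≠ 0 from hd.2.1)] at h2
    refine h2.mono (le_of_eq ?_)
    rw [w_inv]
    push_cast
    ring

end Ctx0

end Pool.Agent.Lib.MP_5c318e_ag
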