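import Pool.Agent.Lib.MP_5c318e_ag.Sec7B
import Pool.Agent.Lib.MP_5c318e_ag.Wron
import Pool.Agent.Lib.MP_5c318e_ag.LDTensor

/-! Section 7: the geometric generic fibre is defined over `K0`. -/

namespace Pool.Agent.Lib.MP_5c318e_ag

open scoped Classical NNReal
open Polynomial

variable {Om : Type} [Field Om] [Algebra ℂ Om]

namespace Ctx

variable (X : Ctx Om)

theorem S7_C_Kb : C0 Om ≤ X.Kb := X.frK.le.trans (le_acl _)
theorem S7_C_K0 : C0 Om ≤ X.K0 := le_inf X.S7_C_Kb ((le_adj _ _).trans (le_acl _))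
theorem S7_K0_Kb : X.K0 ≤ X.Kb := inf_le_left

theorem S7_acl_K0 : acl X.K0 ≤ X.K0 :=
  le_inf (acl_le inf_le_left) (acl_le inf_le_right)

theorem az_indep : AlgebraicIndependent X.Kb (fun o : X.iF => o.elim X.z X.a) ∧
    ∀ y : Om, y ∈ acl (adj X.Kb (Set.range fun o : X.iF => o.elim X.z X.a)) := by
  have h1 : X.Eb ≤ acl (adj X.Kb (Set.range fun o : X.iF => o.elim X.z X.a)) :=
    X.Eb_le.trans (acl_mono (adj_le (le_adj _ _) (by
      rintro _ ⟨j, rfl⟩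
      exact mem_adj _ ⟨some j, rfl⟩)))
  have h2 := X.S7_all ((le_acl _).trans h1)
    (X.S7_x_mem (le_acl _ (mem_adj _ ⟨none, rfl⟩)) fun ρ h => h1 (X.S7_R h))
  exact ⟨indep_of_trk (card_le_trk X.frFt.ind fun i => mem_acl.1 (h2 _)), h2⟩

theorem kp_eq : X.kp = acl (adj X.K0 (Set.range fun o : X.iF => o.elim X.z X.a)) := by
  refine le_antisymm (acl_le (adj_le (sup_le (X.frA.alg.trans (acl_mono (adj_le
    (X.S7_C_K0.trans (le_adj _ _)) ?_))) ((le_adj _ _).trans (le_acl _))) ?_))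
    (acl_le (adj_le X.S7_K0_kp ?_))
  · rintro _ ⟨j, rfl⟩
    exact mem_adj _ ⟨some j, rfl⟩
  · rintro _ rfl
    exact le_acl _ (mem_adj _ ⟨none, rfl⟩)
  · rintro _ ⟨_ | j, rfl⟩
    · exact X.S7_z_kp
    · exact X.S7_L_kp (X.frA.mem j)

theorem S7_basis : ∃ (r0 r' : ℕ) (s0 : Fin r0 → Om) (s' : Fin r' → Om), r0 + r' = X.r ∧
    (∀ i, s0 i ∈ X.K0) ∧ (∀ i, s' i ∈ X.Kb) ∧ AlgebraicIndependent (C0 Om) (Sum.elim s' s0) ∧
    AlgebraicIndependent X.K0 s' ∧ X.Kb ≤ acl (adj X.K0 (Set.range s')) := by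
  have hKs : X.Kb ≤ acl (adj (C0 Om) (Set.range X.s)) := acl_le X.frK.alg
  have h1 : trk (C0 Om) X.Kb = X.r := by
    refine le_antisymm ((trk_le_of_alg fun y hy => mem_acl.1 (hKs hy)).trans
      ((trk_range_le _ _).trans (by simp))) ?_
    refine le_trans (by simp) (card_le_trk X.frK.ind fun i => Trd_alg_of_mem ?_)
    exact mem_adj _ (le_acl _ (X.frK.mem i))
  have h2 := trk_tower X.S7_C_K0 (X.Kb : Set Om)
  rw [Set.union_eq_self_of_subset_left X.S7_K0_Kb, h1] at h2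
  obtain ⟨r0, h3⟩ := ENat.ne_top_iff_exists.1 (show trk (C0 Om) X.K0 ≠ ⊤ from fun h => by
    rw [h] at h2; simp at h2)
  obtain ⟨r', h4⟩ := ENat.ne_top_iff_exists.1 (show trk X.K0 X.Kb ≠ ⊤ from fun h => by
    rw [h] at h2; simp at h2)
  obtain ⟨s0, a1, a2⟩ := le_trk_iff.1 h3.le
  obtain ⟨s', b1, b2⟩ := le_trk_iff.1 h4.le
  have hr : r0 + r' = X.r := by
    rw [← h3, ← h4] at h2
    exact_mod_cast h2.symm
  have hi := Trd_sum X.S7_C_K0 a2 a1 b2
  refine ⟨r0, r', s0, s', hr, a1, b1, hi, b2, fun y hy => acl_mono (adj_le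
    (X.S7_C_K0.trans (le_adj _ _)) ?_) (mem_acl.2 (Trd_full hi (by simp; omega) ?_
      (mem_acl.1 (hKs hy))))⟩
  · rintro _ ⟨i | i, rfl⟩
    · exact mem_adj _ ⟨i, rfl⟩
    · exact le_adj _ _ (a1 i)
  · rintro (i | i)
    · exact mem_acl.1 (hKs (b1 i))
    · exact mem_acl.1 (hKs (X.S7_K0_Kb (a1 i)))

theorem S7_s_indep : AlgebraicIndependent X.L X.s := by
  have : CharZero Om := charZero_of_algebra
  exact indep_of_jac X.dK (fun j c hc => X.dK_L j (le_acl _ hc)) X.frK.jac_ne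

theorem S7_Eb_L : X.Eb ≤ acl (adj X.L (Set.range X.s)) :=
  acl_le (sup_le ((le_adj _ _).trans (le_acl _)) (X.Kp_le.trans ((acl_le X.frK.alg).trans
    (acl_mono (adj_le (X.frA.le.trans (le_adj _ _)) fun _ hy => mem_adj _ hy)))))

variable [IsAlgClosed Om]

theorem S7_grp2 (hsp : ∀ d ∈ X.T, d ≠ 0 → (∀ v, X.Neutral v → X.TypeA v → v d = 1) →
      ∃ k ∈ X.Kp, k ≠ 0 ∧ d / k ∈ X.L ⊔ X.K0)
    {σ : Type} [Fintype σ] (hσ : X.r ≤ Fintype.card σ + 1) {y : σ → Om} (hy : ∀ i, y i ∈ X.Kb)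
    (hi : AlgebraicIndependent (C0 Om) y) {W : Subfield Om} (hW : acl W ≤ W) (hkW : X.kp ≤ W)
    (hyW : ∀ i, y i ∈ W) {v : RV Om} (hv : Triv v W) (hK : Triv v X.Kb) (hE : ¬ Triv v X.E) :
    ∀ u ∈ X.N1, ∃ f ∈ X.E, v u = v f := by
  have : CharZero Om := charZero_of_algebra
  have := X.ufd
  have hLW : X.L ≤ W := X.S7_L_kp.trans hkW
  have hiL : AlgebraicIndependent X.L y := Trd_free X.frA.le X.S7_s_indep hi
    fun j => mem_acl.1 (acl_le X.frK.alg (hy j))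
  obtain ⟨u0, hu0, hu00, hu1⟩ := not_triv_iff.1 hE
  obtain ⟨π, hπ, hc⟩ := Ht2 v (C0 Om) X.Kp X.L X.Kb (acl X.L) X.c0Kp X.frA.le X.Kp_le (le_acl _)
    (fun _ h => hK.le h) (fun _ h => hv.le (hW (acl_mono hLW h))) X.a X.s X.frA.mem
    (fun i => le_acl _ (X.frK.mem i)) (fun g hg => mem_acl.1 (acl_le X.frA.alg hg))
    (fun g hg => mem_acl.1 (acl_le X.frK.alg hg)) (Sum.elim y X.a)
    (hv.rind (X.frA.le.trans hLW) (by
      rintro (i | i)
      exacts [hyW i, hLW (X.frA.mem i)]) (Trd_sum X.frA.le X.frA.ind X.frA.mem hiL))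
    (by
      rintro (i | i)
      exacts [Or.inr (hy i), Or.inl (le_acl _ (X.frA.mem i))])
    (by simp; omega) u0 hu0 hu00 hu1.ne
  have hT : ∀ {v : RV Om}, Triv v X.L → Triv v X.Kb → ∀ u ∈ X.T, v u ≤ 1 := fun h1 h2 u hu =>
    ring_le_one _ (fun x hx => hx.elim (fun h => h1.le h) fun h => h2.le (X.Kp_le h)) hu
  have hπ1 : v π < 1 := (hc π).2 dvd_rfl
  have hπ0 : (π : Om) ≠ 0 := fun h => hπ.ne_zero (Subtype.ext h)
  obtain ⟨v', hn, hA, hne⟩ : ∃ v', X.Neutral v' ∧ X.TypeA v' ∧ v' π ≠ 1 := by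
    by_contra h
    push Not at h
    obtain ⟨k, hk, hk0, hm⟩ := hsp π π.2 hπ0 h
    have h1 := hv _ ((sup_le hLW (X.S7_K0_kp.trans hkW)) hm) (div_ne_zero hπ0 hk0)
    rw [map_div₀, hK k (X.Kp_le hk) hk0, div_one] at h1
    exact hπ1.ne h1
  have hT' := hT hA.1 hn.triv
  have hπ1' : v' π < 1 := lt_of_le_of_ne (hT' _ π.2) hne
  obtain ⟨P, hP, hPc⟩ := hA.2.1
  obtain ⟨r, hr, he⟩ := Ht1_scale X.T π hπ v' v hT' (hT (hv.mono hLW) hK) hπ1' hπ1
    (Ht1_same X.T hπ hP.not_isUnit v' hπ1' fun u h => (hPc u).1 h) fun u h => (hc u).1 h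
  have hET : X.E ≤ Subfield.closure (X.T : Set Om) :=
    sup_le (fun _ h => Subfield.subset_closure (Subring.subset_closure (Or.inl h)))
      fun _ h => Subfield.subset_closure (Subring.subset_closure (Or.inr h))
  refine X.S7_case2 hn hA r hr (fun u hu => he u (hET hu)) ?_
  have h3W : acl (adj X.L (Set.range y)) ≤ W := (acl_mono (adj_le hLW (by
    rintro _ ⟨i, rfl⟩
    exact hyW i))).trans hW
  have h3E : acl (adj X.L (Set.range y)) ≤ X.Eb :=
    acl_le (adj_le (le_sup_left.trans (le_acl _)) (by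
      rintro _ ⟨i, rfl⟩
      exact X.Kb_le_Eb (hy i)))
  have hg : Gs v X.Eb X.z := by
    refine S7_gs h3E hv h3W (hkW X.S7_z_kp) X.S7_ztr fun f hf hf1 => ?_
    by_cases h3 : f ∈ acl (adj X.L (Set.range y))
    · exact ⟨f, h3, by simp⟩
    rcases CENTRE v (F := acl (adj X.L (Set.range y)))
      (fun u hu => (acl_acl _).le (mem_acl.2 hu)) (hv.mono h3W) f with h | h | h
    · exact absurd hf1 (not_le.2 h)
    · exact h
    · refine absurd (Triv.mono (Triv.toAcl (F := adj (acl (adj X.L (Set.range y))) {f}) h) ?_) hE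
      refine (le_acl _).trans (X.S7_Eb_L.trans ((S7_full (S := insert f (Set.range y)) ?_
        (le_trans ?_ (S7_snoc hiL h3))).trans (acl_mono (adj_le ?_ ?_))))
      · rintro _ (rfl | ⟨i, rfl⟩)
        exacts [X.S7_Eb_L hf, X.S7_Eb_L (X.Kb_le_Eb (hy i))]
      · rw [Fintype.card_fin]
        exact_mod_cast hσ
      · exact (le_adj _ _).trans ((le_acl _).trans (le_adj _ _))
      · rintro _ (rfl | ⟨i, rfl⟩)
        exacts [mem_adj _ (Set.mem_singleton _), le_adj _ _ (le_acl _ (mem_adj _ ⟨i, rfl⟩))]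
  exact ⟨hg.1, fun p hp => hg.2 p fun i =>
    (adj_le (le_acl _) fun _ h => X.S7_R h : X.E1 ≤ X.Eb) (hp i)⟩

omit [IsAlgClosed Om] in
theorem S7_aut_kp (hla : ∀ ρ ∈ X.R, ρ ≠ X.rc → X.la ρ ∈ X.kp) (g : Om ≃ₐ[X.Mb] Om) :
    ∀ y ∈ X.kp, g y ∈ X.kp := by
  have hle : X.Ex ≤ X.Mb := X.ExN.trans X.S7_N_Mb
  refine fun y hy => (acl_acl _).le (S7_aut_acl g (S7_aut_adj g (fun u hu => ?_) ?_) y hy)
  · rw [aut_fix _ g ((sup_le (le_sup_left.trans (X.S7_E_N.trans X.S7_N_Mb))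
      (X.S7_K0_Kb.trans X.Kb_le_Mb)) hu)]
    exact (sup_le X.S7_L_kp X.S7_K0_kp) hu
  · rintro _ rfl
    have ha := X.ram.stab (S7res hle g) _ X.ra.2
    have hb := X.ram.stab (S7res hle g) _ X.rb.2
    have hc := X.ram.stab (S7res hle g) _ X.rc.2
    have hab := (S7res hle g).injective.ne X.S7_ab
    change S7res hle g X.z ∈ _
    rw [X.S7_aut_z, X.S7_zz_eq ha hb hc hab]
    exact S7_cross X.kp X.S7_k X.S7_ac (X.S7_xne X.rc.2) (X.S7_xne hc) hab
      ((S7res hle g).injective.ne X.S7_bc) ((S7res hle g).injective.ne X.S7_ac)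
      (X.S7_z ▸ X.S7_z_kp) (hla _ ha) (hla _ hb) (hla _ hc)

theorem var7_of (hla : ∀ ρ ∈ X.R, ρ ≠ X.rc → X.la ρ ∈ X.kp)
    (hsp : ∀ d ∈ X.T, d ≠ 0 → (∀ v, X.Neutral v → X.TypeA v → v d = 1) →
      ∃ k ∈ X.Kp, k ≠ 0 ∧ d / k ∈ X.L ⊔ X.K0) :
    ∃ S : Finset Om, X.Mb = adj X.Kb S ∧ LD X.K0 (adj X.K0 S) X.Kb := by
  have : CharZero Om := charZero_of_algebra
  have : IsAlgClosed X.kp := isAlgClosed_acl _
  obtain ⟨r0, r', s0, s', hr, h0, h1, h2, h3, h4⟩ := X.S7_basis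
  obtain ⟨hb, hall⟩ := X.az_indep
  set b : X.iF → Om := fun o => o.elim X.z X.a with hbd
  have hbk : ∀ o, b o ∈ X.kp := fun o => by
    rw [X.kp_eq]; exact le_acl _ (mem_adj _ ⟨o, rfl⟩)
  obtain ⟨D, hD⟩ := der_dual_exists (Trd_sum X.S7_K0_Kb h3 h1 hb)
  have hD0 : ∀ j, ∀ c ∈ X.K0, D j c = 0 := fun j c hc => (D j).map_algebraMap (⟨c, hc⟩ : X.K0)
  have hKb : ∀ o, ∀ c ∈ X.Kb, D (Sum.inl o) c = 0 := fun o c hc => by
    refine der_zero_acl _ ?_ (mem_acl.1 (h4 hc))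
    rintro y (hy | ⟨i, rfl⟩)
    · exact hD0 _ y hy
    · simpa using hD (Sum.inl o) (Sum.inr i)
  have hkp : ∀ i, ∀ c ∈ X.kp, D (Sum.inr i) c = 0 := fun i c hc => by
    rw [X.kp_eq] at hc
    refine der_zero_acl _ ?_ (mem_acl.1 hc)
    rintro y (hy | ⟨o, rfl⟩)
    · exact hD0 _ y hy
    · simpa using hD (Sum.inr i) (Sum.inl o)
  have hJ : Jac (fun o => D (Sum.inl o)) b ≠ 0 := by
    rw [jac_self fun j a => by simpa using hD (Sum.inl j) (Sum.inl a)]
    exact one_ne_zero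
  have hs : AlgebraicIndependent X.kp s' := indep_of_jac (fun i => D (Sum.inr i)) hkp (by
    rw [jac_self fun j a => by simpa using hD (Sum.inr j) (Sum.inr a)]
    exact one_ne_zero)
  have hle0 : adj X.K0 (Set.range b) ≤ X.kp := (le_acl _).trans X.kp_eq.ge
  have hst : ∀ o, ∀ c ∈ X.kp, D (Sum.inl o) c ∈ X.kp := fun o c hc => by
    refine der_mem_alg _ hle0 (fun u hu => der_mem_closure _ X.kp ?_ ?_ hu) hc
      (mem_acl.1 (X.kp_eq.le hc))
    · exact Subfield.closure_le.1 hle0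
    · rintro y (hy | ⟨o', rfl⟩)
      · rw [hD0 _ y hy]; exact zero_mem _
      · have := hD (Sum.inl o) (Sum.inl o')
        simp only [Sum.elim_inl] at this
        rw [this]
        split_ifs
        exacts [one_mem _, zero_mem _]
  have hF0 : adj X.K0 (Set.range s') ≤ adj X.kp (Set.range s') :=
    adj_le (X.S7_K0_kp.trans (le_adj _ _)) fun _ h => mem_adj _ h
  have halg : ∀ y : Om, y ∈ acl (adj X.kp (Set.range s')) := fun y => by
    refine acl_le (adj_le (h4.trans (acl_mono hF0)) ?_) (hall y)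
    rintro _ ⟨o, rfl⟩
    exact le_acl _ (le_adj _ _ (hbk o))
  have hcov := COVER X.kp s' hs (fun y => mem_acl.1 (halg y))
    (Set.range fun o => D (Sum.inl o)) (by rintro _ ⟨o, rfl⟩; exact hst o)
    (by rintro _ ⟨o, rfl⟩ i; exact hKb o _ (h1 i)) (X.Mb ⊔ X.kp)
    (adj_le le_sup_right (by
      rintro _ ⟨i, rfl⟩
      exact (le_sup_left : X.Mb ≤ _) (X.Kb_le_Mb (h1 i)))) (by
    rintro v - ⟨i0, hi0⟩ ⟨f0, -, hf0, hf1⟩
    by_cases hA : Triv v (adj X.K0 (Set.range s'))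
    swap
    · obtain ⟨t, ht, ht0, ht1⟩ := not_triv_iff.1 hA
      refine Or.inl ⟨t, hF0 ht, ht0, ht1, ?_⟩
      rintro _ ⟨o, rfl⟩
      exact hKb o t (adj_le X.S7_K0_Kb (by rintro _ ⟨i, rfl⟩; exact h1 i) ht)
    right
    have hK : Triv v X.Kb := hA.toAcl.mono h4
    have hW := hi0.toTriv.toAcl
    have hk : Triv v X.kp := hW.mono ((le_adj _ _).trans (le_acl _))
    have c1 : ∀ y ∈ adj (adj X.kp (Set.range s')) X.Kb, ∃ f ∈ adj X.kp (Set.range s'),
        v y = v f := val_adj hF0 hA fun a ha => h4 ha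
    have hEB : X.E ≤ adj (adj X.kp (Set.range s')) X.Kb :=
      sup_le (X.S7_L_kp.trans ((le_adj _ _).trans (le_adj _ _))) fun _ h => mem_adj _ (X.Kp_le h)
    have c2 : ∀ y ∈ X.N1, ∃ f ∈ adj X.kp (Set.range s'), v y = v f := by
      intro y hy
      by_cases hE : Triv v X.E
      · obtain ⟨f, hf, e⟩ := X.S7_case1 hla hk hE (fun h => hf1.ne (h f0 trivial hf0)) y hy
        obtain ⟨g, hg, e'⟩ := val_adj hEB hE (S := X.Eb) (fun a ha => ha) f (adj_le
          (fun _ h => mem_adj _ h) (by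
            rintro _ rfl
            exact le_adj _ _ (le_adj _ _ (le_adj _ _ X.S7_z_kp))) hf)
        obtain ⟨g', hg', e''⟩ := c1 g hg
        exact ⟨g', hg', e.trans (e'.trans e'')⟩
      · obtain ⟨f, hf, e⟩ := X.S7_grp2 hsp (σ := {a : Fin r' // a ≠ i0} ⊕ Fin r0) (by
            have := Fintype.card_congr (Equiv.optionSubtypeNe i0)
            simp only [Fintype.card_option, Fintype.card_fin] at this
            simp only [Fintype.card_sum, Fintype.card_fin]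
            omega) (y := Sum.elim (fun a => s' a) s0)
          (by rintro (i | i); exacts [h1 i, X.S7_K0_Kb (h0 i)])
          (by
            have := h2.comp (Sum.map (Subtype.val : {a : Fin r' // a ≠ i0} → Fin r') id)
              (Subtype.val_injective.sumMap Function.injective_id)
            convert this using 1
            funext i
            rcases i with i | i <;> rfl)
          (acl_acl _).le ((le_adj _ _).trans (le_acl _))
          (by
            rintro (i | i)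
            exacts [le_acl _ (mem_adj _ ⟨i, rfl⟩), le_acl _ (le_adj _ _ (X.S7_K0_kp (h0 i)))])
          hW hK hE y hy
        obtain ⟨g', hg', e'⟩ := c1 f (hEB hf)
        exact ⟨g', hg', e.trans e'⟩
    intro y hy
    have hKp : X.Kp ≤ X.N1 := le_sup_right.trans (X.S7_E_N.trans (le_adj _ _))
    have hA1 : adj (X.L ⊔ X.K0) {X.z} ≤ adj X.N1 X.Kb := adj_le (sup_le
      (le_sup_left.trans (X.S7_E_N.trans ((le_adj _ _).trans (le_adj _ _))))
      fun _ h => mem_adj _ (X.S7_K0_Kb h)) (by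
        rintro _ rfl
        exact le_adj _ _ (X.S7_z_mem (le_adj _ _ X.S7_x_N) fun ρ h => mem_adj _ h))
    obtain ⟨f, hf, e⟩ := val_adj hA1 (hk.mono (le_acl _)) (S := X.kp) (fun a ha => ha) y
      ((sup_le (X.NM.ge.trans (sup_le ((le_adj _ _).trans ((le_adj _ _).trans (le_adj _ _)))
        fun _ h => le_adj _ _ (mem_adj _ h))) fun _ h => mem_adj _ h) hy)
    obtain ⟨g, hg, e'⟩ := val_adj hKp (hK.mono X.Kp_le) (S := X.Kb)
      (fun a ha => X.aclKp.ge ha) f hf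
    obtain ⟨g', hg', e''⟩ := c2 g hg
    exact ⟨g', hg', e.trans (e'.trans e'')⟩)
  have hle : X.Mb ≤ Subfield.closure ((X.kp : Set Om) ∪ X.Kb) :=
    le_sup_left.trans (hcov.trans (adj_le (le_adj _ _) fun c hc => mem_adj _ ((acl_acl _).le
      (mem_acl.2 (alg_of_der_zero (fun o => D (Sum.inl o)) hKb hJ (mem_acl.1 (hall c))
        fun o => hc _ ⟨o, rfl⟩)))))
  have hld : LD X.K0 X.kp X.Kb := LD.symm X.S7_K0_Kb X.S7_K0_kp fun n c hc hi k hk h =>
    wron_indep (fun o => D (Sum.inl o)) X.kp hst c hc (fun k' hk' hz => hi k' fun j =>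
      X.S7_acl_K0 (mem_acl.2 (alg_of_der_zero (fun o => D (Sum.inl o)) (fun o => hD0 _) hJ
        (mem_acl.1 (X.kp_eq.le (hk' j))) (hz j)))) k (fun j o => hKb o _ (hk j)) h
  obtain ⟨S, hS⟩ := X.fgM
  obtain ⟨T, -, e1, e2⟩ := desc7_fg X.S7_K0_kp X.Kb_le_Mb
    (isAlgebraic_of_acl fun y => acl_mono le_sup_left (X.algM y)) (X.S7_aut_kp hla) hld hle S
    (sup_le (hS.le.trans (adj_le (X.S7_C_Kb.trans (le_adj _ _)) fun _ h => mem_adj _ h))
      (le_adj _ _)) fun y hy => (le_sup_left : X.M ≤ X.Mb) (hS.ge (mem_adj _ hy))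
  exact ⟨T, e1, e2⟩

end Ctx

end Pool.Agent.Lib.MP_5c318e_ag
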