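import Pool.Agent.Lib.MP_5c318e_ag.Val
import Pool.Agent.Lib.MP_5c318e_ag.Jac0
import Pool.Agent.Lib.MP_5c318e_ag.Trd
import Pool.Agent.Lib.MP_5c318e_ag.Cover

/-! Section 7, general lemmas: transcendence counts, residues, automorphisms, cross ratios. -/

namespace Pool.Agent.Lib.MP_5c318e_ag

open scoped Classical NNReal
open Polynomial

variable {Om : Type} [Field Om] {v : RV Om}

theorem S7_full {ι : Type} [Fintype ι] {k : Subfield Om} {a : ι → Om} {S : Set Om}
    (hS : ∀ y ∈ S, y ∈ acl (adj k (Set.range a))) (h : (Fintype.card ι : ℕ∞) ≤ trk k S) :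
    acl (adj k (Set.range a)) ≤ acl (adj k S) := by
  obtain ⟨c, hc, hi⟩ := le_trk_iff.1 h
  intro y hy
  refine acl_mono (adj_le (le_adj k S) ?_) (mem_acl.2 (Trd_full hi (by simp)
    (fun j => mem_acl.1 (hS _ (hc j))) (mem_acl.1 hy)))
  rintro _ ⟨j, rfl⟩
  exact mem_adj k (hc j)

theorem S7_snoc {ι : Type} [Fintype ι] {k : Subfield Om} {y : ι → Om}
    (hy : AlgebraicIndependent k y) {t : Om} (ht : t ∉ acl (adj k (Set.range y))) :
    ((Fintype.card ι + 1 : ℕ) : ℕ∞) ≤ trk k (insert t (Set.range y)) := by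
  have h := trk_add_le (le_adj k (Set.range y)) (A := Set.range y) (fun _ h => mem_adj k h) {t}
  rw [trk_range hy, trk_singleton (fun h => ht (mem_acl.2 h)), Set.union_singleton] at h
  exact_mod_cast h

/-- an automorphism over a field is one over every subfield -/
def S7res {F F' : Subfield Om} (h : F ≤ F') (g : Om ≃ₐ[F'] Om) : Om ≃ₐ[F] Om :=
  AlgEquiv.ofRingEquiv (f := g.toRingEquiv) fun c => g.commutes ⟨c, h c.2⟩

theorem S7_aut_adj {F A B : Subfield Om} {S : Set Om} (g : Om ≃ₐ[F] Om)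
    (hA : ∀ y ∈ A, g y ∈ B) (hS : ∀ y ∈ S, g y ∈ B) : ∀ y ∈ adj A S, g y ∈ B :=
  adj_le (F' := B.comap (g : Om →+* Om)) hA hS

theorem S7_aut_acl {F A B : Subfield Om} (g : Om ≃ₐ[F] Om) (hA : ∀ y ∈ A, g y ∈ B) :
    ∀ y ∈ acl A, g y ∈ acl B := fun _ hy =>
  mem_acl.2 ((mem_acl.1 hy).ringHom_of_comp_eq
    (((g : Om →+* Om).comp A.subtype).codRestrict B fun c => hA c c.2) (g : Om →+* Om)
    (fun _ _ h => Subtype.ext (g.injective (congrArg Subtype.val h))) rfl)

theorem S7_gs_eq {v' : RV Om} {F : Subfield Om} {z : Om} (h : Gs v F z) (h' : Gs v' F z)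
    (e : ∀ f ∈ F, v f = v' f) : ∀ y ∈ adj F {z}, v y = v' y := by
  have key : ∀ p : F[X], v (aeval z p) = v' (aeval z p) := fun p => by
    have hc : ∀ i, (p.map (algebraMap F Om)).coeff i ∈ F := fun i => by
      rw [coeff_map]; exact (p.coeff i).2
    rw [← eval_map_algebraMap]
    exact le_antisymm (v_eval_le v h.1 fun i => (e _ (hc i)).trans_le (h'.2 _ hc i))
      (v_eval_le v' h'.1 fun i => (e _ (hc i)).symm.trans_le (h.2 _ hc i))
  intro y hy
  obtain ⟨p, q, rfl⟩ := exists_ratio_of_mem_closure hy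
  rw [map_div₀, map_div₀, key, key]

/-- Gauss independence from a residue count -/
theorem S7_gs {F F3 W : Subfield Om} {z : Om} (hF : F3 ≤ F) (hW : Triv v W) (h3 : F3 ≤ W)
    (hz : z ∈ W) (htr : Transcendental F z)
    (hn : ∀ f ∈ F, v f ≤ 1 → ∃ e ∈ F3, v (f - e) < 1) : Gs v F z := by
  refine ⟨hW.le hz, fun p hp i => ?_⟩
  obtain ⟨j, hj⟩ := exists_max_coeff v p
  obtain ⟨p0, hp0, e0⟩ := exists_scale (hp j) hp hj
  by_cases h0 : p.coeff j = 0
  · refine (hj i).trans ?_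
    simp [h0]
  have h1 : p0.coeff j = 1 := by
    have := congrArg (fun q => q.coeff j) e0
    simp only [coeff_C_mul] at this
    exact (mul_left_cancel₀ h0 (by rw [mul_one]; exact this)).symm
  choose e he hv using fun i => hn _ (mem_PO.1 hp0 i).1 (mem_PO.1 hp0 i).2
  have hjn : j < p0.natDegree + 1 :=
    Nat.lt_succ_of_le (le_natDegree_of_ne_zero (by rw [h1]; exact one_ne_zero))
  let q : F[X] := ∑ i ∈ Finset.range (p0.natDegree + 1), monomial i ⟨e i, hF (he i)⟩
  have hq : aeval z q = ∑ i ∈ Finset.range (p0.natDegree + 1), e i * z ^ i := by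
    simp only [q, map_sum, aeval_monomial]; rfl
  have hq0 : q ≠ 0 := fun h => by
    have h2 : (q.coeff j : Om) = e j := by simp [q, coeff_monomial, hjn]
    have h4 := hv j
    rw [← h2, h, h1] at h4
    simp at h4
  have h5 : v (aeval z q) = 1 := by
    refine hW _ ?_ fun h => htr ⟨q, hq0, h⟩
    rw [hq]
    exact sum_mem fun i _ => mul_mem (h3 (he i)) (pow_mem hz i)
  have h6 : v (p0.eval z - aeval z q) < v (aeval z q) := by
    rw [h5, hq, eval_eq_sum_range, ← Finset.sum_sub_distrib]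
    refine v.map_sum_lt one_ne_zero fun i _ => ?_
    rw [← sub_mul, map_mul, map_pow]
    exact lt_of_le_of_lt (mul_le_of_le_one_right' (pow_le_one' (hW.le hz) i)) (hv i)
  have h7 : v (p.eval z) = v (p.coeff j) := by
    conv_lhs => rw [e0, eval_mul, eval_C, map_mul, Valuation.map_eq_of_sub_lt _ h6, h5, mul_one]
  rw [h7]
  exact hj i

theorem S7_mu {a c k p q : Om} (hp : p ≠ c) (hq : q ≠ c) :
    k * ((p - a) / (p - c)) - k * ((q - a) / (q - c))
      = k * (a - c) * (p - q) / ((p - c) * (q - c)) := by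
  have := sub_ne_zero.2 hp
  have := sub_ne_zero.2 hq
  field_simp
  ring

theorem S7_zz {x a b c : Om} (ha : x ≠ a) (hb : x ≠ b) (hc : x ≠ c) (hab : a ≠ b) :
    ((x - b)⁻¹ - (x - c)⁻¹) / ((x - b)⁻¹ - (x - a)⁻¹)
      = (b - c) / (b - a) * ((x - a) / (x - c)) := by
  have h1 := sub_ne_zero.2 ha
  have h2 := sub_ne_zero.2 hb
  have h3 := sub_ne_zero.2 hc
  have h4 := sub_ne_zero.2 hab.symm
  have e1 : (x - b)⁻¹ - (x - c)⁻¹ = (b - c) / ((x - b) * (x - c)) := by field_simp; ring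
  have e2 : (x - b)⁻¹ - (x - a)⁻¹ = (b - a) / ((x - b) * (x - a)) := by field_simp; ring
  rw [e1, e2]
  field_simp

theorem S7_cross (B : Subfield Om) {a c k x a' b' c' : Om} (hk : k ≠ 0) (hac : a ≠ c)
    (hx : x ≠ c) (hxc : x ≠ c') (hab : a' ≠ b') (hbc : b' ≠ c') (hac' : a' ≠ c')
    (mx : k * ((x - a) / (x - c)) ∈ B) (ma : a' ≠ c → k * ((a' - a) / (a' - c)) ∈ B)
    (mb : b' ≠ c → k * ((b' - a) / (b' - c)) ∈ B) (mc : c' ≠ c → k * ((c' - a) / (c' - c)) ∈ B) :
    (b' - c') / (b' - a') * ((x - a') / (x - c')) ∈ B := by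
  have h1 := sub_ne_zero.2 hac
  have h2 := sub_ne_zero.2 hx
  have h3 := sub_ne_zero.2 hxc
  have h4 := sub_ne_zero.2 hab.symm
  by_cases ea : a' = c
  · subst ea
    have h5 := sub_ne_zero.2 hac'.symm
    have := div_mem (sub_mem (mb hab.symm) (mc hac'.symm)) (sub_mem mx (mc hac'.symm))
    rw [S7_mu hab.symm hac'.symm, S7_mu hx hac'.symm] at this
    convert this using 1
    field_simp
  have h6 := sub_ne_zero.2 ea
  by_cases eb : b' = c
  · subst eb
    have h5 := sub_ne_zero.2 hbc.symm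
    have := div_mem (sub_mem mx (ma ea)) (sub_mem mx (mc hbc.symm))
    rw [S7_mu hx ea, S7_mu hx hbc.symm] at this
    convert this using 1
    field_simp
    ring
  have h7 := sub_ne_zero.2 eb
  by_cases ec : c' = c
  · subst ec
    have := div_mem (sub_mem mx (ma ea)) (sub_mem (mb eb) (ma ea))
    rw [S7_mu hx ea, S7_mu eb ea] at this
    convert this using 1
    field_simp
  have h8 := sub_ne_zero.2 ec
  have := mul_mem (div_mem (sub_mem (mb eb) (mc ec)) (sub_mem (mb eb) (ma ea)))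
    (div_mem (sub_mem mx (ma ea)) (sub_mem mx (mc ec)))
  rw [S7_mu eb ec, S7_mu eb ea, S7_mu hx ea, S7_mu hx ec] at this
  convert this using 1
  field_simp

end Pool.Agent.Lib.MP_5c318e_ag
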