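import Pool.Agent.Lib.MP_5c318e_ag.Sec7A
import Pool.Agent.Lib.MP_5c318e_ag.Pts
import Pool.Agent.Lib.MP_5c318e_ag.Ht2
import Pool.Agent.Lib.MP_5c318e_ag.Conj
import Pool.Agent.Lib.MP_5c318e_ag.Lift

/-! Section 7: value groups along the non constant prime divisors. -/

namespace Pool.Agent.Lib.MP_5c318e_ag

open scoped Classical NNReal
open Polynomial

variable {Om : Type} [Field Om] [Algebra ℂ Om]

namespace Ctx

variable (X : Ctx Om)

theorem S7_R {ρ : Om} (h : ρ ∈ X.R) : ρ ∈ X.Eb := X.ram.mem ρ h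

theorem S7_xne {ρ : Om} (h : ρ ∈ X.R) : X.x ≠ ρ := sub_ne_zero.1 (X.x_sub_ne (X.S7_R h))

theorem S7_ab : (X.ra : Om) ≠ X.rb := fun h => X.ab (Subtype.ext h)
theorem S7_bc : (X.rb : Om) ≠ X.rc := fun h => X.bc (Subtype.ext h)
theorem S7_ac : (X.ra : Om) ≠ X.rc := fun h => X.ac (Subtype.ext h)

theorem S7_zz_eq {a b c : Om} (ha : a ∈ X.R) (hb : b ∈ X.R) (hc : c ∈ X.R) (hab : a ≠ b) :
    X.zz a b c = (b - c) / (b - a) * ((X.x - a) / (X.x - c)) :=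
  S7_zz (X.S7_xne ha) (X.S7_xne hb) (X.S7_xne hc) hab

theorem S7_z : X.z = ((X.rb : Om) - X.rc) / ((X.rb : Om) - X.ra) *
    ((X.x - X.ra) / (X.x - X.rc)) := X.S7_zz_eq X.ra.2 X.rb.2 X.rc.2 X.S7_ab

theorem S7_k : ((X.rb : Om) - X.rc) / ((X.rb : Om) - X.ra) ≠ 0 :=
  div_ne_zero (sub_ne_zero.2 X.S7_bc) (sub_ne_zero.2 X.S7_ab.symm)

theorem S7_z_mem {B : Subfield Om} (hx : X.x ∈ B) (hR : ∀ ρ ∈ X.R, ρ ∈ B) : X.z ∈ B := by
  rw [X.S7_z]
  exact mul_mem (div_mem (sub_mem (hR _ X.rb.2) (hR _ X.rc.2)) (sub_mem (hR _ X.rb.2) (hR _ X.ra.2)))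
    (div_mem (sub_mem hx (hR _ X.ra.2)) (sub_mem hx (hR _ X.rc.2)))

theorem S7_x_mem {B : Subfield Om} (hz : X.z ∈ B) (hR : ∀ ρ ∈ X.R, ρ ∈ B) : X.x ∈ B := by
  have hk := X.S7_k
  have hkB := div_mem (sub_mem (hR _ X.rb.2) (hR _ X.rc.2)) (sub_mem (hR _ X.rb.2) (hR _ X.ra.2))
  have e := X.S7_z
  set k := ((X.rb : Om) - X.rc) / ((X.rb : Om) - X.ra)
  have h1 := sub_ne_zero.2 (X.S7_xne X.rc.2)
  have h2 := sub_ne_zero.2 X.S7_ac.symm
  have e1 : X.z - k = k * (X.rc - X.ra) / (X.x - X.rc) := by rw [e]; field_simp; ring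
  have e2 : X.x = X.rc + k * (X.rc - X.ra) / (X.z - k) := by rw [e1]; field_simp; ring
  rw [e2]
  exact add_mem (hR _ X.rc.2) (div_mem (mul_mem hkB (sub_mem (hR _ X.rc.2) (hR _ X.ra.2)))
    (sub_mem hz hkB))

theorem S7_xtr : X.x ∉ X.Eb := fun h => X.x_sub_ne h (sub_self _)

theorem S7_ztr : Transcendental X.Eb X.z := fun h =>
  X.S7_xtr (X.S7_x_mem ((acl_acl X.E).le (mem_acl.2 h)) fun _ h => X.S7_R h)

theorem S7_E_N : X.E ≤ X.N := (le_adj _ _).trans X.ExN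
theorem S7_x_N : X.x ∈ X.N := X.ExN (mem_adj _ (Set.mem_singleton _))
theorem S7_N_Mb : X.N ≤ X.Mb := le_sup_left.trans X.NM.le
theorem S7_L_kp : X.L ≤ X.kp := le_sup_left.trans ((le_adj _ _).trans (le_acl _))
theorem S7_K0_kp : X.K0 ≤ X.kp := le_sup_right.trans ((le_adj _ _).trans (le_acl _))
theorem S7_z_kp : X.z ∈ X.kp := le_acl _ (mem_adj _ (Set.mem_singleton _))

theorem S7_all {Z : Subfield Om} (hE : X.E ≤ acl Z) (hx : X.x ∈ acl Z) (y : Om) : y ∈ acl Z := by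
  refine acl_le (adj_le ?_ ?_) (X.all_alg y)
  · exact (le_acl _).trans (X.Kb_le_Eb.trans (acl_le hE))
  · rintro _ ⟨_ | j, rfl⟩
    · exact hx
    · exact hE ((le_sup_left : X.L ≤ X.E) (X.frA.mem j))

theorem S7_alg_Ex (y : Om) : y ∈ acl X.Ex :=
  X.S7_all ((le_adj _ _).trans (le_acl _)) (le_acl _ (mem_adj _ (Set.mem_singleton _))) y

theorem S7_autN1 (g : Om ≃ₐ[X.Ex] Om) : ∀ y ∈ X.N1, g y ∈ X.N1 :=
  S7_aut_adj g (fun y hy => le_adj _ _ (X.norN g y hy)) fun y hy => mem_adj _ (X.ram.stab g y hy)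

theorem S7_autE1 (g : Om ≃ₐ[X.Ex] Om) : ∀ y ∈ X.E1, g y ∈ X.E1 :=
  S7_aut_adj g (fun y hy => by rw [aut_fix _ g (le_adj _ _ hy)]; exact le_adj _ _ hy)
    fun y hy => mem_adj _ (X.ram.stab g y hy)

theorem S7_aut_z (g : Om ≃ₐ[X.Ex] Om) : g X.z = X.zz (g X.ra) (g X.rb) (g X.rc) := by
  have hx : g X.x = X.x := aut_fix _ g (mem_adj _ (Set.mem_singleton _))
  simp only [Ctx.z, Ctx0.zz, Ctx0.be, map_div₀, map_sub, map_inv₀, hx]

variable [IsAlgClosed Om]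

/-- case (i): the valuation is trivial on `E` -/
theorem S7_case1 (hla : ∀ ρ ∈ X.R, ρ ≠ X.rc → X.la ρ ∈ X.kp) {v : RV Om} (hk : Triv v X.kp)
    (hE : Triv v X.E) (hn : ¬ Triv v ⊤) :
    ∀ y ∈ X.N1, ∃ f ∈ adj X.Eb {X.z}, v y = v f := by
  have : CharZero Om := charZero_of_algebra
  have hEb : Triv v X.Eb := hE.toAcl
  have hx : X.x ∈ adj X.Eb {X.z} := X.S7_x_mem (mem_adj _ (Set.mem_singleton _)) fun ρ h => le_adj _ _ (X.S7_R h)
  have key : ∀ t ∈ adj X.Eb {X.z}, Grp v X.N t → ∀ y ∈ X.N1, ∃ f ∈ adj X.Eb {X.z}, v y = v f := by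
    intro t ht hg y hy
    obtain ⟨u, hu, e⟩ := val_adj X.S7_E_N hE (fun a ha => X.S7_R ha) y hy
    by_cases h0 : u = 0
    · exact ⟨0, zero_mem _, by rw [e, h0]⟩
    obtain ⟨m, hm⟩ := hg u hu h0
    exact ⟨t ^ m, zpow_mem ht m, by rw [e, hm, map_zpow₀]⟩
  rcases CENTRE v (F := X.Eb) (fun y hy => (acl_acl X.E).le (mem_acl.2 hy)) hEb X.x with
    h | ⟨ρ, hρ, h⟩ | h
  · exact key _ hx (X.ram.inf v hE h)
  · have hR : ρ ∉ X.R := by
      intro hR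
      have unit : ∀ a ∈ X.R, a ≠ ρ → v (X.x - a) = 1 := fun a ha hne => by
        have h1 : v (ρ - a) = 1 := hEb _ (sub_mem hρ (X.S7_R ha)) (sub_ne_zero.2 hne.symm)
        rw [← h1]
        refine Valuation.map_eq_of_sub_lt _ ?_
        rw [h1, sub_sub_sub_cancel_right]
        exact h
      have hvk := hEb _ (div_mem (sub_mem (X.S7_R X.rb.2) (X.S7_R X.rc.2))
        (sub_mem (X.S7_R X.rb.2) (X.S7_R X.ra.2))) X.S7_k
      by_cases hc : ρ = X.rc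
      · have h1 := hk.le X.S7_z_kp
        rw [X.S7_z, map_mul, hvk, one_mul, map_div₀, unit _ X.ra.2 (hc ▸ X.S7_ac), ← hc,
          div_le_one₀ (zero_lt_iff.2 ((Valuation.ne_zero_iff v).2 (X.x_sub_ne hρ)))] at h1
        exact absurd h (not_lt.2 h1)
      · have e := S7_mu (a := (X.ra : Om)) (k := ((X.rb : Om) - X.rc) / ((X.rb : Om) - X.ra))
          (X.S7_xne X.rc.2) hc
        rw [← X.S7_z, ← Ctx.la] at e
        have h1 := hk _ (sub_mem X.S7_z_kp (hla ρ hR hc)) (by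
          rw [e]
          exact div_ne_zero (mul_ne_zero (mul_ne_zero X.S7_k (sub_ne_zero.2 X.S7_ac))
            (X.x_sub_ne hρ)) (mul_ne_zero (X.x_sub_ne (X.S7_R X.rc.2)) (sub_ne_zero.2 hc)))
        rw [e, map_div₀, map_mul, map_mul, map_mul, hvk, unit _ X.rc.2 (Ne.symm hc),
          hEb _ (sub_mem (X.S7_R X.ra.2) (X.S7_R X.rc.2)) (sub_ne_zero.2 X.S7_ac),
          hEb _ (sub_mem hρ (X.S7_R X.rc.2)) (sub_ne_zero.2 hc)] at h1
        simp only [one_mul, div_one] at h1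
        exact h.ne h1
    obtain ⟨t, -, -, -, e, hg⟩ := X.ram.fin v hE ρ hρ h
    rw [X.ram.one ρ hR, pow_one] at e
    exact key _ (sub_mem hx (le_adj _ _ hρ)) fun y hy h0 => by rw [e]; exact hg y hy h0
  · refine absurd (Triv.mono (Triv.toAcl (F := adj X.Eb {X.x}) h) fun y _ => ?_) hn
    exact X.S7_all ((le_acl _).trans ((le_adj _ _).trans (le_acl _))) (le_acl _ (mem_adj _ (Set.mem_singleton _))) y

/-- case (ii): comparison with a neutral valuation -/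
theorem S7_case2 {v v' : RV Om} (hn : X.Neutral v') (hA : X.TypeA v') (r : ℝ) (hr : 0 < r)
    (he : ∀ y ∈ X.E, vscale v' r hr y = v y) (hz : Gs v X.E1 X.z) :
    ∀ y ∈ X.N1, ∃ f ∈ X.E, v y = v f := by
  have : CharZero Om := charZero_of_algebra
  obtain ⟨σ, hσ⟩ := conj X.Ex (isAlgebraic_of_acl X.S7_alg_Ex) X.Eb
    (fun σ => S7_aut_acl σ fun y hy => by rw [aut_fix _ σ (le_adj _ _ hy)]; exact hy)
    v (vscale v' r hr) fun y hy hy' => (he y (mem_of_isAlgebraic_adjoin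
      (fun h => X.S7_xtr (mem_acl.2 h)) hy' (mem_acl.1 hy))).symm
  have hE1 : X.E1 ≤ X.Eb := adj_le (le_acl _) fun y hy => X.S7_R hy
  have hF1 : X.E1 ≤ X.F1 := le_inf (adj_le ((X.S7_E_N.trans X.S7_N_Mb).trans (le_adj _ _))
    fun y hy => mem_adj _ hy) hE1
  have hg := hn.gs _ (X.ram.stab σ _ X.ra.2) _ (X.ram.stab σ _ X.rb.2) _ (X.ram.stab σ _ X.rc.2)
    (σ.injective.ne X.S7_ab) (σ.injective.ne X.S7_bc) (σ.injective.ne X.S7_ac)
  rw [← X.S7_aut_z σ] at hg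
  have hz2 : Gs (vaut (vscale v' r hr) σ) X.E1 X.z := by
    refine ⟨(vscale_le_one_iff v' r hr _).2 hg.1, fun p hp i => ?_⟩
    have := hg.2 (p.map (σ : Om →+* Om)) (fun i => by
      rw [coeff_map]; exact hF1 (X.S7_autE1 σ _ (hp i))) i
    rw [coeff_map, eval_map, show σ X.z = (σ : Om →+* Om) X.z from rfl, eval₂_at_apply] at this
    exact (vscale_le_iff v' r hr _ _).2 this
  have hle : X.Ex ≤ adj X.E1 {X.x} :=
    adj_le ((le_adj _ _).trans (le_adj _ _)) fun y hy => mem_adj _ hy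
  have hxz : adj X.E1 {X.x} ≤ adj X.E1 {X.z} := adj_le (le_adj _ _) fun y hy => by
    rw [Set.mem_singleton_iff.1 hy]
    exact X.S7_x_mem (mem_adj _ (Set.mem_singleton _)) fun ρ h => le_adj _ _ (mem_adj _ h)
  obtain ⟨τ, hτ⟩ := conj (adj X.E1 {X.x})
    (isAlgebraic_of_acl fun y => acl_mono hle (X.S7_alg_Ex y)) X.N1
    (fun τ => X.S7_autN1 (S7res hle τ)) v (vaut (vscale v' r hr) σ)
    fun y _ hy => S7_gs_eq hz hz2 (fun f hf => (hσ f (hE1 hf)).symm) y (hxz hy)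
  intro y hy
  obtain ⟨u, hu, e⟩ := hA.2.2 _ (X.S7_autN1 σ _ (X.S7_autN1 (S7res hle τ) y hy))
  refine ⟨u, hu, ?_⟩
  rw [← hτ y hy, ← he u hu]
  exact (vscale_eq_iff v' r hr _ _).2 e

end Ctx

end Pool.Agent.Lib.MP_5c318e_ag
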